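import Pool.Agent.P.MP_a14ce1_nt.Ch.Defs

open Finset Filter

namespace Pool.Agent.P.MP_a14ce1_nt.Ch

namespace Half

/-- product of k consecutive values -/
noncomputable def F (k n : ℕ) : ℝ := ∏ i ∈ range k, lam (n + i)

lemma abs_F (k n : ℕ) : |F k n| = 1 := by
  simp [F, abs_prod, abs_lam]

lemma F_mul (k n : ℕ) : F k n * F k (n + 1) = lam n * lam (n + k) := by
  have h1 : F (k + 1) n = F k n * lam (n + k) := prod_range_succ _ _
  have h2 : F (k + 1) n = F k (n + 1) * lam n := by
    rw [F, prod_range_succ', F]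
    congr 1
    exact prod_congr rfl fun i _ => by rw [add_assoc, add_comm 1 i]
  have h3 : F k n * F k n = 1 := by rw [← abs_mul_abs_self, abs_F, one_mul]
  have h4 := lam_sq n
  calc F k n * F k (n + 1) = F k n * (F k (n + 1) * lam n) * lam n := by
        rw [mul_assoc, mul_assoc, h4, mul_one]
    _ = _ := by rw [← h2, h1, ← mul_assoc, h3, one_mul, mul_comm]

lemma two_abs (k N : ℕ) :
    2 * |∑ n ∈ Icc 1 N, F k n| ≤ N + |∑ n ∈ Icc 1 N, lam n * lam (n + k)| + 2 := by
  have hs : ∑ n ∈ Icc 1 N, F k (n + 1) = ∑ n ∈ Icc 1 N, F k n + F k (N + 1) - F k 1 := by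
    induction N with
    | zero => simp
    | succ N ih => rw [sum_Icc_succ_top (by omega), sum_Icc_succ_top (by omega), ih]; ring
  have key : ∀ e : ℝ, e * e = 1 → |e| = 1 →
      -(e * (∑ n ∈ Icc 1 N, F k n + ∑ n ∈ Icc 1 N, F k (n + 1)))
        ≤ N + ∑ n ∈ Icc 1 N, lam n * lam (n + k) := by
    intro e he he'
    have h0 : 0 ≤ ∑ n ∈ Icc 1 N, (1 + e * F k n) * (1 + e * F k (n + 1)) := by
      refine sum_nonneg fun n _ => mul_nonneg ?_ ?_
      · have := neg_abs_le (e * F k n)
        rw [abs_mul, he', abs_F] at this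
        linarith
      · have := neg_abs_le (e * F k (n + 1))
        rw [abs_mul, he', abs_F] at this
        linarith
    have h1 : ∀ n, (1 + e * F k n) * (1 + e * F k (n + 1))
        = 1 + e * (F k n + F k (n + 1)) + lam n * lam (n + k) := fun n => by
      rw [← F_mul]
      linear_combination (F k n * F k (n + 1)) * he
    simp_rw [h1, sum_add_distrib, ← mul_sum, sum_add_distrib] at h0
    simp only [sum_const, Nat.card_Icc, add_tsub_cancel_right, nsmul_eq_mul, mul_one] at h0
    linarith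
  have k1 := key 1 (by norm_num) (by norm_num)
  have k2 := key (-1) (by norm_num) (by norm_num)
  have k3 := le_abs_self (∑ n ∈ Icc 1 N, lam n * lam (n + k))
  have k4 := abs_le.1 (abs_F k (N + 1)).le
  have k5 := abs_le.1 (abs_F k 1).le
  rw [hs] at k1 k2
  rcases abs_cases (∑ n ∈ Icc 1 N, F k n) with h | h <;> rw [h.1] <;>
    linarith [k4.1, k4.2, k5.1, k5.2]

end Half

open Half

/-- The two-point theorem bounds every product of consecutive values by one half. -/
theorem half (h : S_Core) (k : ℕ) (hk : 0 < k) (ε : ℝ) (hε : 0 < ε) :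
    ∀ᶠ N : ℕ in atTop, |∑ n ∈ Icc 1 N, ∏ i ∈ range k,
      ((-1 : ℝ) ^ ArithmeticFunction.cardFactors (n + i))| ≤ (1 / 2 + ε) * N := by
  have h1 := (h 1 0 k one_pos hk).bound hε
  filter_upwards [h1, (tendsto_natCast_atTop_atTop (R := ℝ)).eventually_ge_atTop (2 / ε)]
    with N h2 h3
  have h4 := two_abs k N
  simp only [Nat.modEq_one, filter_true, Real.norm_eq_abs, Nat.abs_cast] at h2
  rw [div_le_iff₀ hε] at h3
  change |∑ n ∈ Icc 1 N, F k n| ≤ _
  linarith

end Pool.Agent.P.MP_a14ce1_nt.Ch
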