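import Pool.Agent.P.MP_a14ce1_nt.Ch.Defs

/-! Mertens type estimates. -/

open Finset

namespace Pool.Agent.P.MP_a14ce1_nt.Ch

namespace Mertens

open ArithmeticFunction

theorem sum_log_lower (N : ℕ) :
    (N : ℝ) * Real.log N - N ≤ ∑ n ∈ Ioc 0 N, Real.log n := by
  induction N with
  | zero => simp
  | succ N ih =>
    rw [sum_Ioc_succ_top (Nat.zero_le N)]
    have key : (N : ℝ) * (Real.log (N + 1) - Real.log N) ≤ 1 := by
      rcases Nat.eq_zero_or_pos N with h | h
      · subst h; simp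
      · have hN : (0 : ℝ) < N := by exact_mod_cast h
        rw [← Real.log_div (by positivity) hN.ne']
        have h1 := Real.log_le_sub_one_of_pos (x := ((N : ℝ) + 1) / N) (by positivity)
        have h2 : ((N : ℝ) + 1) / N - 1 = 1 / N := by field_simp; ring
        rw [h2] at h1
        calc (N : ℝ) * Real.log (((N : ℝ) + 1) / N) ≤ N * (1 / N) := by gcongr
          _ = 1 := by field_simp
    push_cast
    nlinarith

theorem sum_log_upper (N : ℕ) : ∑ n ∈ Ioc 0 N, Real.log n ≤ (N : ℝ) * Real.log N := by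
  calc ∑ n ∈ Ioc 0 N, Real.log n ≤ ∑ _n ∈ Ioc 0 N, Real.log N := by
        refine sum_le_sum fun n hn => ?_
        have := mem_Ioc.1 hn
        exact Real.log_le_log (by exact_mod_cast this.1) (by exact_mod_cast this.2)
    _ = _ := by simp

theorem sum_log_eq (N : ℕ) :
    ∑ n ∈ Ioc 0 N, Real.log n = ∑ n ∈ Ioc 0 N, vonMangoldt n * ((N / n : ℕ) : ℝ) := by
  rw [← sum_Ioc_mul_zeta_eq_sum, vonMangoldt_mul_zeta]
  rfl

theorem psi_le (N : ℕ) : ∑ n ∈ Ioc 0 N, vonMangoldt n ≤ 6 * (N : ℝ) := by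
  have h := Chebyshev.psi_le_const_mul_self (x := N) (Nat.cast_nonneg N)
  rw [Chebyshev.psi, Nat.floor_natCast] at h
  have h4 : Real.log 4 ≤ 2 := by
    have : Real.log 4 = 2 * Real.log 2 := by
      rw [show (4 : ℝ) = 2 ^ 2 by norm_num, Real.log_pow]; norm_num
    have := Real.log_two_lt_d9
    linarith
  have : (0 : ℝ) ≤ N := Nat.cast_nonneg N
  nlinarith

/-- the first theorem of Mertens for the von Mangoldt function -/
theorem mertens_vm {N : ℕ} (hN : 1 ≤ N) :
    |∑ n ∈ Ioc 0 N, vonMangoldt n / n - Real.log N| ≤ 6 := by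
  have hN0 : (0 : ℝ) < N := by exact_mod_cast hN
  have h1 : ∑ n ∈ Ioc 0 N, vonMangoldt n * ((N / n : ℕ) : ℝ) ≤
      N * ∑ n ∈ Ioc 0 N, vonMangoldt n / n := by
    rw [mul_sum]
    refine sum_le_sum fun n _ => ?_
    calc vonMangoldt n * ((N / n : ℕ) : ℝ) ≤ vonMangoldt n * ((N : ℝ) / n) :=
          mul_le_mul_of_nonneg_left Nat.cast_div_le vonMangoldt_nonneg
      _ = _ := by ring
  have h2 : N * ∑ n ∈ Ioc 0 N, vonMangoldt n / n ≤
      ∑ n ∈ Ioc 0 N, vonMangoldt n * ((N / n : ℕ) : ℝ) + ∑ n ∈ Ioc 0 N, vonMangoldt n := by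
    rw [mul_sum, ← sum_add_distrib]
    refine sum_le_sum fun n hn => ?_
    have hn0 : 0 < n := (mem_Ioc.1 hn).1
    have hp0 : (0 : ℝ) < n := by exact_mod_cast hn0
    have : (N : ℝ) / n ≤ ((N / n : ℕ) : ℝ) + 1 := by
      rw [div_le_iff₀ hp0]
      have := Nat.lt_div_mul_add (a := N) hn0
      have h' : (N : ℝ) < ((N / n : ℕ) : ℝ) * n + n := by exact_mod_cast this
      linarith
    calc (N : ℝ) * (vonMangoldt n / n) = vonMangoldt n * ((N : ℝ) / n) := by ring
      _ ≤ vonMangoldt n * (((N / n : ℕ) : ℝ) + 1) :=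
          mul_le_mul_of_nonneg_left this vonMangoldt_nonneg
      _ = _ := by ring
  rw [← sum_log_eq] at h1 h2
  have h3 := sum_log_lower N
  have h4 := sum_log_upper N
  have h5 := psi_le N
  rw [abs_le]
  constructor
  · have : (N : ℝ) * (Real.log N - 6) ≤ N * ∑ n ∈ Ioc 0 N, vonMangoldt n / n := by nlinarith
    have := le_of_mul_le_mul_left this hN0
    linarith
  · have : N * ∑ n ∈ Ioc 0 N, vonMangoldt n / n ≤ (N : ℝ) * (Real.log N + 6) := by nlinarith
    have := le_of_mul_le_mul_left this hN0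
    linarith

/-- sum of log p / p over the primes up to N -/
noncomputable def A (N : ℕ) : ℝ := ∑ p ∈ (Ioc 0 N).filter Nat.Prime, Real.log p / p

theorem mertens_nat : ∃ C : ℝ, 0 < C ∧ ∀ N : ℕ, 1 ≤ N → |A N - Real.log N| ≤ C := by
  have hs := vonMangoldt.summable_residueClass_non_primes_div (q := 1) 0
  have he : ∀ n : ℕ, vonMangoldt.residueClass (0 : ZMod 1) n = vonMangoldt n := fun n =>
    Set.indicator_of_mem (s := {n : ℕ | (n : ZMod 1) = 0}) (a := n)
      (show (n : ZMod 1) = 0 from Subsingleton.elim _ _) _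
  simp only [he] at hs
  have h0 : ∀ n : ℕ, 0 ≤ (if n.Prime then 0 else vonMangoldt n) / (n : ℝ) := fun n => by
    have : 0 ≤ vonMangoldt n := vonMangoldt_nonneg
    split_ifs <;> positivity
  set B := ∑' n : ℕ, (if n.Prime then 0 else vonMangoldt n) / (n : ℝ) with hB
  have hB0 : 0 ≤ B := tsum_nonneg h0
  refine ⟨6 + B, by linarith, fun N hN => ?_⟩
  have h1 := mertens_vm hN
  have h2 : ∑ n ∈ Ioc 0 N, vonMangoldt n / n =
      A N + ∑ n ∈ Ioc 0 N, (if n.Prime then 0 else vonMangoldt n) / (n : ℝ) := by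
    rw [A, sum_filter, ← sum_add_distrib]
    refine sum_congr rfl fun n _ => ?_
    split_ifs with h
    · rw [vonMangoldt_apply_prime h]; simp
    · simp
  have h3 : ∑ n ∈ Ioc 0 N, (if n.Prime then 0 else vonMangoldt n) / (n : ℝ) ≤ B :=
    hs.sum_le_tsum _ fun n _ => h0 n
  have h4 : 0 ≤ ∑ n ∈ Ioc 0 N, (if n.Prime then 0 else vonMangoldt n) / (n : ℝ) :=
    sum_nonneg fun n _ => h0 n
  rw [abs_le] at h1 ⊢
  constructor <;> linarith [h1.1, h1.2]

theorem log_floor {y : ℝ} (hy : 1 ≤ y) :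
    Real.log ⌊y⌋₊ ≤ Real.log y ∧ Real.log y ≤ Real.log ⌊y⌋₊ + 1 := by
  have h1 : 1 ≤ ⌊y⌋₊ := Nat.le_floor (by simpa using hy)
  have h1' : (1 : ℝ) ≤ ⌊y⌋₊ := by exact_mod_cast h1
  refine ⟨Real.log_le_log (by linarith) (Nat.floor_le (by linarith)), ?_⟩
  have h2 : y ≤ ⌊y⌋₊ * 2 := by linarith [Nat.lt_floor_add_one y]
  have h3 := Real.log_le_log (by linarith) h2
  rw [Real.log_mul (by linarith) (by norm_num)] at h3
  linarith [Real.log_two_lt_d9]

theorem A_succ (N : ℕ) :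
    A (N + 1) = A N + if (N + 1).Prime then Real.log (N + 1 : ℕ) / (N + 1 : ℕ) else 0 := by
  rw [A, A, sum_filter, sum_filter, sum_Ioc_succ_top (Nat.zero_le N)]

/-- sum of 1 / p over the primes in (a, b] -/
noncomputable def S (a b : ℕ) : ℝ := ∑ p ∈ (Ioc a b).filter Nat.Prime, (1 : ℝ) / p

theorem S_succ {a b : ℕ} (ha : 2 ≤ a) (hab : a ≤ b) :
    S a (b + 1) = S a b + (A (b + 1) - A b) / Real.log (b + 1 : ℕ) := by
  rw [S, S, sum_filter, sum_filter, sum_Ioc_succ_top hab, A_succ]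
  congr 1
  have : 0 < Real.log (b + 1 : ℕ) := Real.log_pos (by exact_mod_cast (by omega : 1 < b + 1))
  split_ifs
  · field_simp
    ring
  · simp

theorem S_bound {C : ℝ} (hC : ∀ N : ℕ, 1 ≤ N → |A N - Real.log N| ≤ C) {a : ℕ} (ha : 2 ≤ a)
    (b : ℕ) (hab : a ≤ b) :
    |S a b - (Real.log (Real.log b) - Real.log (Real.log a)) -
      ((A b - Real.log b) / Real.log b - (A a - Real.log a) / Real.log a)| ≤
      (C + 1) * (1 / Real.log a - 1 / Real.log b) := by
  induction b, hab using Nat.le_induction with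
  | base => simp [S]
  | succ b hab ih =>
    rw [S_succ ha hab]
    have hb2 : (2 : ℝ) ≤ b := by exact_mod_cast ha.trans hab
    have hL : 0 < Real.log b := Real.log_pos (by linarith)
    have hLL : Real.log b ≤ Real.log (b + 1 : ℕ) :=
      Real.log_le_log (by linarith) (by push_cast; linarith)
    have hL1 : Real.log (b + 1 : ℕ) ≤ Real.log b + 1 := by
      have h2 : ((b + 1 : ℕ) : ℝ) ≤ b * 2 := by push_cast; linarith
      have h3 := Real.log_le_log (by positivity) h2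
      rw [Real.log_mul (by linarith) (by norm_num)] at h3
      linarith [Real.log_two_lt_d9]
    have hr := hC b (by omega)
    generalize Real.log (b + 1 : ℕ) = L' at *
    generalize Real.log b = L at *
    generalize A (b + 1) = A' at *
    generalize A b = A0 at *
    have hL' : 0 < L' := by linarith
    have e1 : 1 - L / L' ≤ Real.log L' - Real.log L := by
      have := Real.log_le_sub_one_of_pos (x := L / L') (by positivity)
      rw [Real.log_div hL.ne' hL'.ne'] at this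
      linarith
    have e2 : Real.log L' - Real.log L ≤ L' / L - 1 := by
      have := Real.log_le_sub_one_of_pos (x := L' / L) (by positivity)
      rw [Real.log_div hL'.ne' hL.ne'] at this
      linarith
    have d0 : 0 ≤ 1 / L - 1 / L' := by
      have := one_div_le_one_div_of_le hL hLL
      linarith
    have e3 : L' / L - 1 - (1 - L / L') = (L' - L) * (1 / L - 1 / L') := by
      field_simp
    have e4 : (L' - L) * (1 / L - 1 / L') ≤ 1 / L - 1 / L' := by nlinarith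
    have e5 : (A' - A0) / L' - ((A' - L') / L' - (A0 - L) / L) =
        (1 - L / L') + (A0 - L) * (1 / L - 1 / L') := by
      field_simp
      ring
    rw [abs_le] at ih hr ⊢
    have e6 : (A0 - L) * (1 / L - 1 / L') ≤ C * (1 / L - 1 / L') := by nlinarith [hr.2]
    have e7 : -(C * (1 / L - 1 / L')) ≤ (A0 - L) * (1 / L - 1 / L') := by nlinarith [hr.1]
    constructor <;> nlinarith [ih.1, ih.2]

theorem loglog_floor {u : ℝ} (hu : 2 ≤ u) :
    |Real.log (Real.log u) - Real.log (Real.log ⌊u⌋₊)| ≤ 1 := by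
  have h1 : 2 ≤ ⌊u⌋₊ := Nat.le_floor (by simpa using hu)
  have h1' : (2 : ℝ) ≤ ⌊u⌋₊ := by exact_mod_cast h1
  have h0 : 0 < Real.log ⌊u⌋₊ := Real.log_pos (by linarith)
  have h2 := (log_floor (y := u) (by linarith)).1
  have h3 : Real.log u ≤ Real.log ⌊u⌋₊ * 2 := by
    have h4 : u ≤ (⌊u⌋₊ : ℝ) ^ 2 := by nlinarith [Nat.lt_floor_add_one u]
    have h5 := Real.log_le_log (by linarith) h4
    rw [Real.log_pow] at h5
    push_cast at h5
    linarith
  have h6 := Real.log_le_log h0 h2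
  have h7 := Real.log_le_log (by linarith) h3
  rw [Real.log_mul h0.ne' (by norm_num)] at h7
  rw [abs_le]
  constructor <;> linarith [Real.log_two_lt_d9]

/-- comparison of weighted sums for a decreasing weight -/
theorem abel_le (a w : ℕ → ℝ) (ha : ∀ N, 0 ≤ ∑ n ∈ Ioc 0 N, a n)
    (hw : ∀ n, 1 ≤ n → w (n + 1) ≤ w n) (N : ℕ) :
    (∑ n ∈ Ioc 0 N, a n) * w N ≤ ∑ n ∈ Ioc 0 N, a n * w n := by
  induction N with
  | zero => simp
  | succ N ih =>
    rw [sum_Ioc_succ_top (Nat.zero_le N), sum_Ioc_succ_top (Nat.zero_le N), add_mul]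
    rcases Nat.eq_zero_or_pos N with h | h
    · subst h; simp
    · have := mul_le_mul_of_nonneg_left (hw N h) (ha N)
      linarith

theorem zeta_le {η : ℝ} (hη : 0 < η) (N : ℕ) (hN : 1 ≤ N) :
    ∑ n ∈ Ioc 0 N, 1 / (n : ℝ) ^ (1 + η) ≤ 1 + (1 - 1 / (N : ℝ) ^ η) / η := by
  induction N, hN using Nat.le_induction with
  | base => simp
  | succ N hN ih =>
    rw [sum_Ioc_succ_top (Nat.zero_le N)]
    have hN0 : (0 : ℝ) < N := by exact_mod_cast hN
    have key : η * (1 / ((N + 1 : ℕ) : ℝ) ^ (1 + η)) ≤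
        1 / (N : ℝ) ^ η - 1 / ((N + 1 : ℕ) : ℝ) ^ η := by
      push_cast
      have h1 : 1 / ((N : ℝ) + 1) ≤ Real.log (((N : ℝ) + 1) / N) := by
        have := Real.one_sub_inv_le_log_of_pos (x := ((N : ℝ) + 1) / N) (by positivity)
        have h2 : 1 - (((N : ℝ) + 1) / N)⁻¹ = 1 / ((N : ℝ) + 1) := by field_simp; ring
        linarith
      have h2 : 1 + η * (1 / ((N : ℝ) + 1)) ≤ (((N : ℝ) + 1) / N) ^ η := by
        rw [Real.rpow_def_of_pos (by positivity)]
        have := Real.add_one_le_exp (Real.log (((N : ℝ) + 1) / N) * η)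
        nlinarith
      rw [Real.div_rpow (by positivity) hN0.le] at h2
      rw [Real.rpow_add (by positivity), Real.rpow_one]
      have p1 : 0 < ((N : ℝ) + 1) ^ η := by positivity
      have p2 : 0 < (N : ℝ) ^ η := by positivity
      have h3 := div_le_div_of_nonneg_right h2 p1.le
      have e1 : (1 + η * (1 / ((N : ℝ) + 1))) / ((N : ℝ) + 1) ^ η =
          1 / ((N : ℝ) + 1) ^ η + η * (1 / (((N : ℝ) + 1) * ((N : ℝ) + 1) ^ η)) := by
        field_simp
      have e2 : ((N : ℝ) + 1) ^ η / (N : ℝ) ^ η / ((N : ℝ) + 1) ^ η = 1 / (N : ℝ) ^ η := by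
        field_simp
      rw [e1, e2] at h3
      linarith
    have h4 : 1 / ((N + 1 : ℕ) : ℝ) ^ (1 + η) ≤
        (1 / (N : ℝ) ^ η - 1 / ((N + 1 : ℕ) : ℝ) ^ η) / η := by
      rw [le_div_iff₀ hη]; linarith
    have e : (1 - 1 / ((N + 1 : ℕ) : ℝ) ^ η) / η = (1 - 1 / (N : ℝ) ^ η) / η +
        (1 / (N : ℝ) ^ η - 1 / ((N + 1 : ℕ) : ℝ) ^ η) / η := by ring
    linarith

end Mertens

open Mertens

theorem m2 : S_M2 := by
  obtain ⟨C, hC0, hC⟩ := mertens_nat
  refine ⟨C + 1, by linarith, fun y hy => ?_⟩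
  have h1 : 1 ≤ ⌊y⌋₊ := Nat.le_floor (by simpa using hy)
  have h2 := hC _ h1
  have h3 := log_floor hy
  have h4 : ∑ p ∈ pr 0 y, Real.log p / p = A ⌊y⌋₊ := by simp [pr, A]
  rw [h4]
  rw [abs_le] at h2 ⊢
  constructor <;> linarith [h2.1, h2.2, h3.1, h3.2]

theorem m1 : S_M1 := by
  obtain ⟨C, hC0, hC⟩ := mertens_nat
  refine ⟨6 * C + 4, by linarith, fun u v hu huv => ?_⟩
  have ha : 2 ≤ ⌊u⌋₊ := Nat.le_floor (by simpa using hu)
  have hab : ⌊u⌋₊ ≤ ⌊v⌋₊ := Nat.floor_le_floor huv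
  have h1 := S_bound hC ha _ hab
  have h2 := loglog_floor hu
  have h3 := loglog_floor (hu.trans huv)
  have h4 : rs (pr u v) = S ⌊u⌋₊ ⌊v⌋₊ := rfl
  have hl : ∀ n : ℕ, 2 ≤ n → 1 / 2 ≤ Real.log n := fun n hn => by
    have := Real.log_le_log (by norm_num) (show (2 : ℝ) ≤ n by exact_mod_cast hn)
    linarith [Real.log_two_gt_d9]
  have hq : ∀ n : ℕ, 2 ≤ n → |(A n - Real.log n) / Real.log n| ≤ 2 * C := fun n hn => by
    have h5 := hl n hn
    rw [abs_div, abs_of_pos (by linarith : 0 < Real.log n), div_le_iff₀ (by linarith)]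
    have := hC n (by omega)
    nlinarith
  have h5 := hq _ ha
  have h6 := hq _ (ha.trans hab)
  have h7 : 1 / Real.log ⌊u⌋₊ ≤ 2 := by
    have := hl _ ha
    rw [div_le_iff₀ (by linarith)]; linarith
  have h8 : 0 ≤ 1 / Real.log ⌊v⌋₊ := by
    have := hl _ (ha.trans hab)
    positivity
  have h9 : (C + 1) * (1 / Real.log ⌊u⌋₊ - 1 / Real.log ⌊v⌋₊) ≤ (C + 1) * 2 :=
    mul_le_mul_of_nonneg_left (by linarith) (by linarith)
  rw [h4, Real.log_div (Real.log_pos (by linarith)).ne' (Real.log_pos (by linarith)).ne']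
  rw [abs_le] at h1 h2 h3 h5 h6 ⊢
  constructor <;> linarith [h1.1, h1.2, h2.1, h2.2, h3.1, h3.2, h5.1, h5.2, h6.1, h6.2]

theorem m6 : S_M6 := by
  refine ⟨12, by norm_num, fun η hη hη1 N => ?_⟩
  rcases Nat.eq_zero_or_pos N with h | hN
  · subst h
    simp only [zero_lt_one, Icc_eq_empty_of_lt, sum_empty]
    positivity
  have hI : Icc 1 N = Ioc 0 N := by ext n; simp only [mem_Icc, mem_Ioc]; omega
  rw [hI]
  have ha : ∀ M : ℕ, 0 ≤ ∑ n ∈ Ioc 0 M, (6 - ArithmeticFunction.vonMangoldt n) := fun M => by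
    rw [sum_sub_distrib]
    have := psi_le M
    simp only [sum_const, Nat.card_Ioc, tsub_zero, nsmul_eq_mul]
    linarith
  have h1 := abel_le (fun n => 6 - ArithmeticFunction.vonMangoldt n)
    (fun n => 1 / (n : ℝ) ^ (1 + η)) ha (fun n hn => by
      have hn0 : (0 : ℝ) < n := by exact_mod_cast hn
      refine one_div_le_one_div_of_le (by positivity) ?_
      exact Real.rpow_le_rpow hn0.le (by push_cast; linarith) (by linarith)) N
  have h2 : 0 ≤ (∑ n ∈ Ioc 0 N, (6 - ArithmeticFunction.vonMangoldt n)) *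
      (1 / (N : ℝ) ^ (1 + η)) := mul_nonneg (ha N) (by positivity)
  have h3 : ∑ n ∈ Ioc 0 N, (6 - ArithmeticFunction.vonMangoldt n) * (1 / (n : ℝ) ^ (1 + η)) =
      6 * ∑ n ∈ Ioc 0 N, 1 / (n : ℝ) ^ (1 + η) -
        ∑ n ∈ Ioc 0 N, ArithmeticFunction.vonMangoldt n / (n : ℝ) ^ (1 + η) := by
    rw [mul_sum, ← sum_sub_distrib]
    exact sum_congr rfl fun n _ => by ring
  have h4 := zeta_le hη N hN
  have h5 : (1 - 1 / (N : ℝ) ^ η) / η ≤ 1 / η := by
    have : 0 ≤ 1 / (N : ℝ) ^ η := by positivity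
    exact div_le_div_of_nonneg_right (by linarith) hη.le
  have h6 : 1 ≤ 1 / η := by rw [le_div_iff₀ hη]; linarith
  have h7 : 12 / η = 12 * (1 / η) := by ring
  linarith

end Pool.Agent.P.MP_a14ce1_nt.Ch
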