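import Pool.Agent.P.MP_a14ce1_nt.Ch.FinalB

/-!
Last stage of the short interval theorem: choice of the parameters.
-/

open Finset MeasureTheory

namespace Pool.Agent.P.MP_a14ce1_nt.Ch
namespace Final

theorem split_bound (A B : Finset ℕ) (f : ℕ → ℂ) (X : ℕ) {L : ℝ} (hL : 0 < L)
    {U : Set ℝ} (hU : U ⊆ Set.Icc (-(X : ℝ)) X) :
    ∫ t in U, ‖Fx f X t‖ ^ 2 ≤ 2 * (∫ t in U, ‖Fx f X t - Gx A B f X t / (L : ℂ)‖ ^ 2) +
      2 / L ^ 2 * ∫ t in U, ‖Gx A B f X t‖ ^ 2 := by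
  have i1 : IntegrableOn (fun t => ‖Fx f X t‖ ^ 2) U :=
    integrableOn_of_cont hU ((continuous_Fx f X).norm.pow 2)
  have i2 : IntegrableOn (fun t => ‖Fx f X t - Gx A B f X t / (L : ℂ)‖ ^ 2) U :=
    integrableOn_of_cont hU
      (((continuous_Fx f X).sub ((continuous_Gx A B f X).div_const _)).norm.pow 2)
  have i3 : IntegrableOn (fun t => ‖Gx A B f X t‖ ^ 2) U :=
    integrableOn_of_cont hU ((continuous_Gx A B f X).norm.pow 2)
  have i4 : IntegrableOn (fun t => 2 * ‖Fx f X t - Gx A B f X t / (L : ℂ)‖ ^ 2) U := i2.const_mul _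
  have i5 : IntegrableOn (fun t => 2 / L ^ 2 * ‖Gx A B f X t‖ ^ 2) U := i3.const_mul _
  have i6 : IntegrableOn (fun t => 2 * ‖Fx f X t - Gx A B f X t / (L : ℂ)‖ ^ 2 +
      2 / L ^ 2 * ‖Gx A B f X t‖ ^ 2) U := i4.add i5
  rw [← integral_const_mul, ← integral_const_mul, ← integral_add i4 i5]
  refine integral_mono i1 i6 fun t => ?_
  simp only
  have h1 : ‖Fx f X t‖ ≤ ‖Fx f X t - Gx A B f X t / (L : ℂ)‖ + ‖Gx A B f X t‖ / L := by
    have h2 : ‖Gx A B f X t / (L : ℂ)‖ = ‖Gx A B f X t‖ / L := by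
      rw [norm_div, Complex.norm_real, Real.norm_eq_abs, abs_of_pos hL]
    rw [← h2]
    simpa using norm_add_le (Fx f X t - Gx A B f X t / (L : ℂ)) (Gx A B f X t / (L : ℂ))
  have h2 := pow_le_pow_left₀ (norm_nonneg _) h1 2
  have h3 : 2 / L ^ 2 * ‖Gx A B f X t‖ ^ 2 = 2 * (‖Gx A B f X t‖ / L) ^ 2 := by
    rw [div_pow]; ring
  rw [h3]
  nlinarith [sq_nonneg (‖Fx f X t - Gx A B f X t / (L : ℂ)‖ - ‖Gx A B f X t‖ / L)]

theorem arith {LA LB x k CF CP CR C1 CH E : ℝ} (hLA : 1 ≤ LA) (hLB : 1 ≤ LB) (hx : 0 < x)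
    (hk : 0 < k) (hCP : 0 < CP) (hCH : 0 < CH) (hE : E ≤ 72 * LA ^ 2) :
    2 / (LA * LB) ^ 2 * (CF ^ 2 * (CP * LB / (x / k)) *
      (Real.pi * (2 * Real.pi * (LA * CR) ^ 2 + C1 ^ 2 * (CH * x)) + 2 * Real.pi * E)) ≤
    2 * CF ^ 2 * CP * k * Real.pi * C1 ^ 2 * CH / LA +
      2 * CF ^ 2 * CP * k * (2 * Real.pi ^ 2 * CR ^ 2 + 144 * Real.pi) / x := by
  have hpi := Real.pi_pos
  have hA : 0 < LA := by linarith
  have hB : 0 < LB := by linarith
  have h1 : 2 / (LA * LB) ^ 2 * (CF ^ 2 * (CP * LB / (x / k)) *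
      (Real.pi * (2 * Real.pi * (LA * CR) ^ 2 + C1 ^ 2 * (CH * x)) + 2 * Real.pi * E)) ≤
      2 / (LA * LB) ^ 2 * (CF ^ 2 * (CP * LB / (x / k)) *
      (Real.pi * (2 * Real.pi * (LA * CR) ^ 2 + C1 ^ 2 * (CH * x)) + 2 * Real.pi * (72 * LA ^ 2))) := by
    gcongr
  refine h1.trans ?_
  have h2 : 2 / (LA * LB) ^ 2 * (CF ^ 2 * (CP * LB / (x / k)) *
      (Real.pi * (2 * Real.pi * (LA * CR) ^ 2 + C1 ^ 2 * (CH * x)) + 2 * Real.pi * (72 * LA ^ 2))) =
      2 * CF ^ 2 * CP * k * Real.pi * C1 ^ 2 * CH / (LA * (LA * LB)) +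
      2 * CF ^ 2 * CP * k * (2 * Real.pi ^ 2 * CR ^ 2 + 144 * Real.pi) / (x * LB) := by
    field_simp
    ring
  rw [h2]
  have h3 : 1 ≤ LA * LB := one_le_mul_of_one_le_of_one_le hLA hLB
  gcongr
  · nlinarith
  · nlinarith

theorem tail_small {LA x : ℝ} (hx : 1 ≤ x) :
    Real.exp (x / 2) * (LA * (1 + 2 * x)) ^ 2 / Real.exp x ≤ 72 * LA ^ 2 := by
  have h1 : Real.exp x = Real.exp (x / 2) * Real.exp (x / 2) := by
    rw [← Real.exp_add]; congr 1; ring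
  have h2 : (x / 2) ^ 2 / 2 ≤ Real.exp (x / 2) := by
    have := Real.quadratic_le_exp_of_nonneg (x := x / 2) (by linarith)
    linarith
  have h3 := Real.exp_pos (x / 2)
  rw [div_le_iff₀ (Real.exp_pos x), h1]
  have h4 : (1 + 2 * x) ^ 2 ≤ 72 * Real.exp (x / 2) := by nlinarith
  have h5 := mul_le_mul_of_nonneg_left h4 (show 0 ≤ Real.exp (x / 2) * LA ^ 2 by positivity)
  rw [mul_pow]
  linarith

theorem div_le_third {P L δ : ℝ} (hδ : 0 < δ) (hL : 0 < L) (h : 3 * P / δ ≤ L) : P / L ≤ δ / 3 := by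
  rw [div_le_iff₀ hδ] at h
  rw [div_le_iff₀ hL]
  linarith

theorem card_pr_le (u v : ℝ) : (pr u v).card ≤ ⌊v⌋₊ := by
  unfold pr
  refine (card_filter_le _ _).trans ?_
  rw [Nat.card_Ioc]
  omega

end Final

open Final

theorem final (h1 : S_M1) (hT : S_TK) (hM : S_MVT) (hF : S_Fourier) (hP : S_SmPrimes)
    (hR : S_SmReg) (hH : S_HM) (hX : S_RxSmall) : S_Final := by
  have _ := hR
  obtain ⟨C0, hC0, hM1⟩ := h1
  obtain ⟨Θ, CF, hCF, hΘc, hΘ, hψ, -⟩ := hF psi (contDiff_psi (n := 2)) compact_psi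
  obtain ⟨CP, hCP, hP⟩ := hP
  obtain ⟨c, CH, XH, hc, hCH, hH⟩ := hH
  refine ⟨min c (1 / 2), lt_min hc (by norm_num), fun f hf hH1 hH2 δ hδ => ?_⟩
  obtain ⟨C1, hC1, hH1⟩ := hH1
  obtain ⟨CR, hCR, hX⟩ := hX f hf hH2
  have hpi := Real.pi_pos
  obtain ⟨b0, hb1, hb2⟩ : ∃ b0 : ℝ, 1 ≤ b0 ∧ 3 * (2 * 14688 * Real.pi) / δ ≤ b0 :=
    ⟨max 1 _, le_max_left _ _, le_max_right _ _⟩
  set k1 : ℝ := 10 * Real.exp (b0 + C0) with hk1
  have hk1' : 10 ≤ k1 := by
    have := Real.one_le_exp (show 0 ≤ b0 + C0 by linarith)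
    linarith
  obtain ⟨a0, ha1, ha2⟩ : ∃ a0 : ℝ, 1 ≤ a0 ∧ 3 * (2 * 14688 * Real.pi * (2 * k1) ^ 2 +
      2 * CF ^ 2 * CP * k1 * Real.pi * C1 ^ 2 * CH) / δ ≤ a0 :=
    ⟨max 1 _, le_max_left _ _, le_max_right _ _⟩
  set k2 : ℝ := k1 * Real.exp (a0 + C0) with hk2
  have hk2' : k1 ≤ k2 := by
    exact le_mul_of_one_le_right (by linarith) (Real.one_le_exp (by linarith))
  obtain ⟨k, hk⟩ := exists_nat_ge (4 * k2)
  obtain ⟨y0, hy0⟩ := hH1 k
  obtain ⟨x0, hx1, hx2, hx3⟩ : ∃ x0 : ℝ, 2 * k2 ≤ x0 ∧ k2 * y0 ≤ x0 ∧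
      3 * (2 * CF ^ 2 * CP * k1 * (2 * Real.pi ^ 2 * CR ^ 2 + 144 * Real.pi)) / δ ≤ x0 :=
    ⟨max (2 * k2) (max _ _), le_max_left _ _, (le_max_left _ _).trans (le_max_right _ _),
      (le_max_right _ _).trans (le_max_right _ _)⟩
  refine ⟨max XH (max 3 ⌈Real.exp x0⌉₊), fun X hXX U hUm hU hvol => ?_⟩
  have hXH : XH ≤ X := (le_max_left _ _).trans hXX
  have hX3 : 3 ≤ X := ((le_max_left _ _).trans (le_max_right _ _)).trans hXX
  have hXe : ⌈Real.exp x0⌉₊ ≤ X := ((le_max_right _ _).trans (le_max_right _ _)).trans hXX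
  have hX0 : (0 : ℝ) < X := by exact_mod_cast (show 0 < X by omega)
  have hX1 : (1 : ℝ) ≤ X := by exact_mod_cast (show 1 ≤ X by omega)
  have hX3' : (3 : ℝ) ≤ X := by exact_mod_cast hX3
  have hxx : x0 ≤ Real.log X := by
    rw [Real.le_log_iff_exp_le hX0]
    exact (Nat.ceil_le.1 hXe)
  obtain ⟨x, hxdef⟩ : ∃ x, x = Real.log X := ⟨_, rfl⟩
  have hXexp : (X : ℝ) = Real.exp x := by rw [hxdef, Real.exp_log hX0]
  rw [← hxdef] at hxx
  have hk10 : 0 < k1 := by linarith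
  have hk20 : 0 < k2 := by linarith
  have hx20 : 20 ≤ x := by linarith
  have hx0 : 0 < x := by linarith
  have hr2 : 2 ≤ x / k2 := by rw [le_div_iff₀ hk20]; linarith
  have hr21 : x / k2 ≤ x / k1 := div_le_div_of_nonneg_left hx0.le hk10 hk2'
  have hr10 : x / k1 ≤ x / 10 := div_le_div_of_nonneg_left hx0.le (by norm_num) hk1'
  have hy2 : 2 ≤ Real.exp (x / k2) := by linarith [Real.add_one_le_exp (x / k2)]
  have hyQ : Real.exp (x / k2) ≤ Real.exp (x / k1) := Real.exp_le_exp.2 hr21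
  have hQW : Real.exp (x / k1) ≤ Real.exp (x / 10) := Real.exp_le_exp.2 hr10
  have hWX : Real.exp (x / 10) ≤ X := by rw [hXexp]; exact Real.exp_le_exp.2 (by linarith)
  set A := pr (Real.exp (x / k2)) (Real.exp (x / k1)) with hAdef
  set B := pr (Real.exp (x / k1)) (Real.exp (x / 10)) with hBdef
  have hmA : ∀ p ∈ A, p.Prime ∧ Real.exp (x / k2) < p ∧ (p : ℝ) ≤ Real.exp (x / k1) :=
    fun p hp => (mem_pr (Real.exp_pos _).le).1 hp
  have hmB : ∀ p ∈ B, p.Prime ∧ Real.exp (x / k1) < p ∧ (p : ℝ) ≤ Real.exp (x / 10) :=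
    fun p hp => (mem_pr (Real.exp_pos _).le).1 hp
  have hlog : ∀ p : ℕ, p.Prime → (p : ℝ) ≤ Real.exp (x / 10) → Real.log p ≤ Real.log X / 10 := by
    intro p hp h
    rw [← hxdef, Real.log_le_iff_le_exp (by exact_mod_cast hp.pos)]
    exact h
  have hA : ∀ p ∈ A, p.Prime ∧ Real.log p ≤ Real.log X / 10 :=
    fun p hp => ⟨(hmA p hp).1, hlog p (hmA p hp).1 ((hmA p hp).2.2.trans hQW)⟩
  have hB : ∀ p ∈ B, p.Prime ∧ Real.log p ≤ Real.log X / 10 :=
    fun p hp => ⟨(hmB p hp).1, hlog p (hmB p hp).1 (hmB p hp).2.2⟩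
  have hAB : Disjoint A B := disjoint_left.2 fun p hp hq =>
    absurd (hmA p hp).2.2 (not_le.2 (hmB p hq).2.1)
  have hLA : a0 ≤ rs A := by
    have h := hM1 _ _ hy2 hyQ
    rw [Real.log_exp, Real.log_exp] at h
    have h2 : x / k1 / (x / k2) = Real.exp (a0 + C0) := by
      rw [hk2]; field_simp
    rw [h2, Real.log_exp] at h
    linarith [(abs_le.1 h).1]
  have hLB : b0 ≤ rs B := by
    have h := hM1 _ _ (hy2.trans hyQ) hQW
    rw [Real.log_exp, Real.log_exp] at h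
    have h2 : x / 10 / (x / k1) = Real.exp (b0 + C0) := by
      rw [hk1]; field_simp
    rw [h2, Real.log_exp] at h
    linarith [(abs_le.1 h).1]
  have hLA1 : 1 ≤ rs A := ha1.trans hLA
  have hLB1 : 1 ≤ rs B := hb1.trans hLB
  have hcard : ∀ u v : ℝ, v ≤ X → (pr u v).card ≤ 8 * X := by
    intro u v hv
    have h2 : ⌊v⌋₊ ≤ X := by simpa using Nat.floor_le_floor hv
    have h3 := card_pr_le u v
    omega
  have hK : ∀ n ∈ Icc 1 (8 * X), om B n ≤ 2 * k1 := by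
    intro n hn
    rw [mem_Icc] at hn
    have h2 := om_le B (fun p hp => (hmB p hp).1) (l := x / k1) (fun p hp => by
      rw [Real.le_log_iff_exp_le (by exact_mod_cast (hmB p hp).1.pos)]
      exact (hmB p hp).2.1.le) hn.1
    have h3 : Real.log n ≤ 2 * x := by
      rw [Real.log_le_iff_le_exp (by exact_mod_cast hn.1), two_mul, Real.exp_add, ← hXexp]
      have h4 : (n : ℝ) ≤ 8 * X := by exact_mod_cast hn.2
      have h5 : (8 : ℝ) ≤ X := by rw [hXexp]; linarith [Real.add_one_le_exp x]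
      exact h4.trans (mul_le_mul_of_nonneg_right h5 hX0.le)
    have h4 : om B n * (x / k1) ≤ 2 * k1 * (x / k1) := by
      have : 2 * k1 * (x / k1) = 2 * x := by field_simp
      linarith
    exact le_of_mul_le_mul_right h4 (div_pos hx0 hk10)
  have hD := diff_bound hT hM A B hf.bd X (by omega) (fun p hp => (hmA p hp).1)
    (fun p hp => (hmB p hp).1) (hcard _ _ (hQW.trans hWX)) (hcard _ _ hWX) (by linarith) hLB1 hK hUm hU
  have hSB : ∀ t, sm B (fun p => f p / p) t ≤ CP * rs B / (x / k1) := by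
    intro t
    have h := hP (Real.exp (x / k1)) B (fun p => f p / p) (hy2.trans hyQ)
      (fun p hp => ⟨(hmB p hp).1, (hmB p hp).2.1⟩) (fun p _ => norm_div_le hf.bd p) t
    rwa [Real.log_exp] at h
  have hC1' : ∀ s : ℝ, 1 ≤ |s| → |s| ≤ 2 * X → ‖Dp A f s‖ ≤ C1 := by
    intro s hs1 hs2
    have h2 : y0 ≤ ⌊Real.exp (x / k2)⌋₊ := by
      apply Nat.le_floor
      have h3 : (y0 : ℝ) ≤ x / k2 := by rw [le_div_iff₀ hk20]; linarith
      linarith [Real.add_one_le_exp (x / k2)]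
    refine hy0 _ _ h2 (Nat.floor_le_floor hyQ) s hs1 (hs2.trans ?_)
    have h3 : Real.exp (x / k2 / 2) ≤ (⌊Real.exp (x / k2)⌋₊ : ℝ) := by
      have h4 := Nat.lt_floor_add_one (Real.exp (x / k2))
      have h5 : Real.exp (x / k2) = Real.exp (x / k2 / 2) * Real.exp (x / k2 / 2) := by
        rw [← Real.exp_add]; congr 1; ring
      have h6 : 2 ≤ Real.exp (x / k2 / 2) := by linarith [Real.add_one_le_exp (x / k2 / 2)]
      have h7 := mul_le_mul_of_nonneg_right h6 (Real.exp_pos (x / k2 / 2)).le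
      linarith
    have h4 := pow_le_pow_left₀ (Real.exp_pos _).le h3 k
    refine le_trans ?_ h4
    rw [← Real.exp_nat_mul]
    have h5 : x + x ≤ k * (x / k2 / 2) := by
      have h6 : 4 * k2 * (x / k2 / 2) = x + x := by field_simp; ring
      rw [← h6]
      exact mul_le_mul_of_nonneg_right hk (by positivity)
    refine le_trans ?_ (Real.exp_le_exp.2 h5)
    rw [Real.exp_add, ← hXexp]
    exact mul_le_mul_of_nonneg_right (by linarith) hX0.le
  have hvol1 : volume.real U ≤ (X : ℝ) ^ c :=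
    hvol.trans (Real.rpow_le_rpow_of_exponent_le hX1 (min_le_left _ _))
  have hvol2 : volume.real U ≤ Real.exp (x / 2) := by
    refine hvol.trans ((Real.rpow_le_rpow_of_exponent_le hX1 (min_le_right _ _)).trans (le_of_eq ?_))
    rw [Real.rpow_def_of_pos hX0, ← hxdef]; congr 1; ring
  have hKH : ∀ u, ∫ t in U, ‖Rx f X (t + u)‖ ^ 2 ≤ CH * x := by
    intro u
    have h := hH X hXH (fun m => f m * nit u m)
      (fun m => by rw [norm_mul, norm_nit, mul_one]; exact hf.bd m) U hUm hU hvol1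
    simp_rw [Rx_shift] at h
    rwa [← hxdef] at h
  have hG := Gx_bound A B hf X (by rw [← hxdef]; exact hx20) hA hB hAB Θ hCF hΘc hΘ hψ hSB hC1'
    (hX X hX3) hUm hU hvol2 hKH
  have hS := split_bound A B f X (L := rs A * rs B) (by positivity) hU
  rw [← hxdef, mul_div_assoc (2 * Real.pi)] at hG
  have hE : Real.exp (x / 2) * (rs A * (1 + 2 * x)) ^ 2 / (X : ℝ) ≤ 72 * rs A ^ 2 := by
    rw [hXexp]; exact tail_small (by linarith)
  have hAr := arith (CF := CF) (CR := CR) (C1 := C1) hLA1 hLB1 hx0 hk10 hCP hCH hE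
  have hG2 := (mul_le_mul_of_nonneg_left hG
    (show 0 ≤ 2 / (rs A * rs B) ^ 2 by positivity)).trans hAr
  have t1 := div_le_third hδ (by linarith) (hb2.trans hLB)
  have t2 := div_le_third hδ (by linarith) (ha2.trans hLA)
  have t3 := div_le_third hδ hx0 (hx3.trans hxx)
  have e1 : 2 * (14688 * Real.pi * (1 / rs B + (2 * k1) ^ 2 / rs A)) +
      2 * CF ^ 2 * CP * k1 * Real.pi * C1 ^ 2 * CH / rs A =
      2 * 14688 * Real.pi / rs B + (2 * 14688 * Real.pi * (2 * k1) ^ 2 +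
      2 * CF ^ 2 * CP * k1 * Real.pi * C1 ^ 2 * CH) / rs A := by ring
  linarith

end Pool.Agent.P.MP_a14ce1_nt.Ch
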