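import Pool.Agent.P.MP_a14ce1_nt.Ch.Defs

/-! Short interval averages: assembly of the three stages. -/

open Finset MeasureTheory

namespace Pool.Agent.P.MP_a14ce1_nt.Ch

namespace MR

theorem dyadic (a : ℕ → ℝ) (R κ : ℝ) (X1 : ℕ) (h0 : ∀ x, 0 ≤ a x) (h1 : ∀ x, a x ≤ R) (hκ : 0 ≤ κ)
    (h : ∀ Y, X1 ≤ Y → ∑ x ∈ Ico Y (2 * Y), a x ≤ κ * Y) (X : ℕ) :
    ∑ x ∈ range X, a x ≤ 3 * κ * X + R * (2 * X1 + 2) := by
  have hR : 0 ≤ R := (h0 0).trans (h1 0)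
  induction X using Nat.strong_induction_on with
  | _ X ih =>
    rcases le_or_gt X (2 * X1 + 2) with hX | hX
    · have h2 : ∑ x ∈ range X, a x ≤ X * R := by
        simpa using sum_le_card_nsmul (range X) a R fun x _ => h1 x
      have h3 : (X : ℝ) ≤ 2 * X1 + 2 := by exact_mod_cast hX
      have h4 : 0 ≤ 3 * κ * X := by positivity
      nlinarith
    · have h2 := ih ((X + 1) / 2) (by omega)
      have h3 := h ((X + 1) / 2) (by omega)
      have h4 : ∑ x ∈ range X, a x ≤ ∑ x ∈ range (2 * ((X + 1) / 2)), a x :=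
        sum_le_sum_of_subset_of_nonneg (range_subset_range.2 (by omega)) fun x _ _ => h0 x
      rw [← sum_range_add_sum_Ico a (show (X + 1) / 2 ≤ 2 * ((X + 1) / 2) by omega)] at h4
      have h5 : 4 * (((X + 1) / 2 : ℕ) : ℝ) ≤ 3 * X := by
        exact_mod_cast (show 4 * ((X + 1) / 2) ≤ 3 * X by omega)
      nlinarith

theorem norm_Fx_le {f : ℕ → ℂ} (X : ℕ) : ∃ B : ℝ, ∀ t, |‖Fx f X t‖ ^ 2| ≤ B := by
  refine ⟨(∑ n ∈ Icc 1 (8 * X), ‖f n * ((psi (Real.log n - Real.log X) / n : ℝ) : ℂ)‖) ^ 2,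
    fun t => ?_⟩
  rw [abs_of_nonneg (by positivity)]
  refine pow_le_pow_left₀ (norm_nonneg _) ((norm_sum_le _ _).trans (le_of_eq ?_)) 2
  exact sum_congr rfl fun n _ => by rw [norm_mul, norm_nit, mul_one]

end MR

theorem mr (hR : S_Reduce) (hS : S_Scales) (hF : S_Final) : S_MR := by
  obtain ⟨C, hC, hR⟩ := hR
  obtain ⟨c, hc, hF⟩ := hF
  intro f hf h1 h2 δ hδ
  set e : ℝ := δ / (12 * C) with he
  have he0 : 0 < e := by positivity
  obtain ⟨h, hh, hS⟩ := hS c (e ^ 2 / 2) hc (by positivity)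
  obtain ⟨X2, hS⟩ := hS h le_rfl
  obtain ⟨X3, hF⟩ := hF f hf h1 h2 (e ^ 2 / 2) (by positivity)
  refine ⟨⌈h / e⌉₊, fun R hR0 => ?_⟩
  have hhR : h ≤ e * R := by
    have : h / e ≤ R := (Nat.le_ceil _).trans (by exact_mod_cast hR0)
    rwa [div_le_iff₀' he0] at this
  set X1 : ℕ := X2 + X3 + ⌈h⌉₊ + R + 2 + ⌈R / e⌉₊ with hX1
  have key : ∀ Y, X1 ≤ Y → ∑ x ∈ Ico Y (2 * Y), ‖∑ j ∈ range R, f (x + j)‖ ≤ δ / 4 * R * Y := by
    intro Y hY
    have hhY : h ≤ Y := (Nat.le_ceil _).trans (by exact_mod_cast (show ⌈h⌉₊ ≤ Y by omega))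
    have hRY : (R : ℝ) ≤ e * Y := by
      have : R / e ≤ Y :=
        (Nat.le_ceil _).trans (by exact_mod_cast (show ⌈(R : ℝ) / e⌉₊ ≤ Y by omega))
      rwa [div_le_iff₀' he0] at this
    have hY0 : (0 : ℝ) < Y := by exact_mod_cast (show 0 < Y by omega)
    obtain ⟨U, hU, hU1, hU2, hU3⟩ := hS Y (by omega) f hf
    have hU4 := hF Y (by omega) U hU hU1 hU2
    obtain ⟨B, hB⟩ := MR.norm_Fx_le (f := f) Y
    have hcont : Continuous fun t => ‖Fx f Y t‖ ^ 2 := (continuous_Fx f Y).norm.pow 2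
    have hint := integrable_cw_mul (T := Y / h) (by positivity) hcont hB
    have h3 : ∫ t in U, cw (Y / h) t * ‖Fx f Y t‖ ^ 2 ≤ ∫ t in U, ‖Fx f Y t‖ ^ 2 :=
      setIntegral_mono hint.integrableOn (hcont.integrableOn_Icc.mono_set hU1) fun t =>
        mul_le_of_le_one_left (by positivity) (cw_le_one _ _)
    have h4 : √(∫ t : ℝ, cw (Y / h) t * ‖Fx f Y t‖ ^ 2) ≤ e := by
      rw [Real.sqrt_le_left he0.le, ← integral_add_compl hU hint]
      linarith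
    refine (hR f Y R h hf.bd hh hhY (by omega) (by omega)).trans ?_
    have h5 : (R : ℝ) * Y * √(∫ t : ℝ, cw (Y / h) t * ‖Fx f Y t‖ ^ 2) ≤ R * Y * e :=
      mul_le_mul_of_nonneg_left h4 (by positivity)
    have h6 : h * Y ≤ e * R * Y := mul_le_mul_of_nonneg_right hhR hY0.le
    have h7 : (R : ℝ) ^ 2 ≤ R * (e * Y) := by
      rw [sq]; exact mul_le_mul_of_nonneg_left hRY (by positivity)
    calc _ ≤ C * (3 * e * R * Y) := mul_le_mul_of_nonneg_left (by linarith) hC.le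
      _ = δ / 4 * R * Y := by rw [he]; field_simp; ring
  refine ⟨⌈4 * (2 * X1 + 2) / δ⌉₊, fun X hX => ?_⟩
  have h3 := MR.dyadic (fun x => ‖∑ j ∈ range R, f (x + j)‖) R (δ / 4 * R) X1
    (fun _ => norm_nonneg _) (fun x => (norm_sum_le _ _).trans (by
      simpa using sum_le_card_nsmul (range R) (fun j => ‖f (x + j)‖) 1 fun j _ => hf.bd _))
    (by positivity) key X
  have h4 : 4 * (2 * (X1 : ℝ) + 2) ≤ δ * X := by
    have : 4 * (2 * (X1 : ℝ) + 2) / δ ≤ X := (Nat.le_ceil _).trans (by exact_mod_cast hX)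
    rwa [div_le_iff₀' hδ] at this
  have h5 : (R : ℝ) * (4 * (2 * (X1 : ℝ) + 2)) ≤ R * (δ * X) :=
    mul_le_mul_of_nonneg_left h4 (by positivity)
  linarith

theorem mrchar (h : S_MR) (h1 : S_H1) (h2 : S_H2) : S_MRchar :=
  fun b _ χ δ hδ => h (lc χ) (lc_CM χ) (h1 b χ) (h2 b χ) δ hδ

end Pool.Agent.P.MP_a14ce1_nt.Ch
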