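import Pool.Agent.P.MP_a14ce1_nt.Ch.Defs

/-! The long smooth Dirichlet polynomial is bounded near the origin. -/

open Finset MeasureTheory

namespace Pool.Agent.P.MP_a14ce1_nt.Ch

namespace RxSmall

theorem sum_rpow_le {η : ℝ} (hη : 0 < η) (N : ℕ) :
    ∑ n ∈ range N, ((n : ℝ) ^ (1 + η))⁻¹ ≤ 1 + 1 / η := by
  have h0 : ∑ n ∈ range N, ((n : ℝ) ^ (1 + η))⁻¹ ≤ ∑ n ∈ range (N + 1 + 1), ((n : ℝ) ^ (1 + η))⁻¹ :=
    sum_le_sum_of_subset_of_nonneg (range_subset_range.2 (by omega)) fun _ _ _ => by positivity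
  refine h0.trans ?_
  have h1 := AntitoneOn.sum_le_integral_Ico (f := fun t : ℝ => t ^ (-(1 + η))) (a := 1)
    (b := N + 1) (by omega) (fun s hs t _ hst => Real.rpow_le_rpow_of_nonpos
      (by have := hs.1; push_cast at this; linarith) hst (by linarith))
  rw [integral_rpow (Or.inr ⟨by linarith, by
    rw [Set.uIcc_of_le (by push_cast; linarith [Nat.cast_nonneg (α := ℝ) N])]; simp⟩),
    sum_Ico_eq_sum_range] at h1
  rw [sum_range_succ', sum_range_succ']
  simp only [Nat.add_sub_cancel, Nat.cast_one, Real.one_rpow] at h1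
  have h2 : ∑ i ∈ range N, (((i + 1 + 1 : ℕ) : ℝ) ^ (1 + η))⁻¹ =
      ∑ i ∈ range N, ((1 + i + 1 : ℕ) : ℝ) ^ (-(1 + η)) :=
    sum_congr rfl fun i _ => by rw [Real.rpow_neg (by positivity), add_comm 1 i]
  have h3 : 0 ≤ ((N + 1 : ℕ) : ℝ) ^ (-(1 + η) + 1) := by positivity
  have h4 : (((N + 1 : ℕ) : ℝ) ^ (-(1 + η) + 1) - 1) / (-(1 + η) + 1) ≤ 1 / η := by
    rw [show -(1 + η) + 1 = -η by ring] at h3 ⊢
    rw [div_neg, ← neg_div]
    exact div_le_div_of_nonneg_right (by linarith) hη.le
  rw [h2]
  simp only [zero_add, Nat.cast_one, Real.one_rpow, inv_one, Nat.cast_zero,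
    Real.zero_rpow (show 1 + η ≠ 0 by linarith), inv_zero, add_zero]
  linarith

theorem norm_term_le {f : ℕ → ℂ} (hf : ∀ n, ‖f n‖ ≤ 1) (σ t : ℝ) (n : ℕ) :
    ‖LSeries.term f (σ + t * Complex.I) n‖ ≤ ((n : ℝ) ^ σ)⁻¹ := by
  rw [LSeries.norm_term_eq]
  split_ifs
  · positivity
  · simp only [Complex.add_re, Complex.ofReal_re, Complex.mul_re, Complex.I_re, mul_zero,
      Complex.ofReal_im, Complex.I_im, mul_one, sub_self, add_zero]
    rw [← one_div]
    exact div_le_div_of_nonneg_right (hf n) (by positivity)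

theorem norm_L_le {f : ℕ → ℂ} (hf : ∀ n, ‖f n‖ ≤ 1) {η : ℝ} (hη : 0 < η) (t : ℝ) :
    ‖LSeries f ((1 + η : ℝ) + t * Complex.I)‖ ≤ 1 + 1 / η := by
  have hs : Summable fun n : ℕ => ((n : ℝ) ^ (1 + η))⁻¹ :=
    Real.summable_nat_rpow_inv.2 (by linarith)
  exact (tsum_of_norm_bounded hs.hasSum (norm_term_le hf _ t)).trans
    (Real.tsum_le_of_sum_range_le (fun _ => by positivity) (sum_rpow_le hη))

theorem term_eq (f : ℕ → ℂ) (σ t : ℝ) {n : ℕ} (hn : n ≠ 0) :
    LSeries.term f (σ + t * Complex.I) n = f n * (Real.exp (-(σ * Real.log n)) : ℝ) * nit t n := by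
  rw [LSeries.term_of_ne_zero hn, Complex.cpow_def_of_ne_zero (by exact_mod_cast hn), div_eq_mul_inv,
    ← Complex.exp_neg, mul_assoc, nit, ex, Complex.ofReal_exp, ← Complex.exp_add,
    ← Complex.natCast_log]
  congr 2
  push_cast
  ring

end RxSmall

theorem rxSmall (hF : S_Fourier) : S_RxSmall := by
  intro f hf ⟨C2, hC2, h2⟩
  obtain ⟨Θ, C, hC, hΘ, hb, hinv, -⟩ := hF (fun v => Phi v * Real.exp v)
    (contDiff_Phi.mul Real.contDiff_exp) compact_Phi.mul_right
  refine ⟨C * C2 * Real.pi + 4 * C * Real.pi, by positivity, fun X hX s hs => ?_⟩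
  set x := Real.log X with hx
  have hx1 : 1 ≤ x := by
    rw [hx, Real.le_log_iff_exp_le (by positivity)]
    have : (3 : ℝ) ≤ X := by exact_mod_cast hX
    linarith [Real.exp_one_lt_d9]
  have hx0 : 0 < x := by linarith
  have hΘi : Integrable Θ :=
    ((integrable_cw one_pos).const_mul C).mono' hΘ.aestronglyMeasurable
      (Filter.Eventually.of_forall hb)
  let F : ℕ → ℝ → ℂ := fun m u =>
    Θ u * LSeries.term f ((1 + 1 / x : ℝ) + (s + u / x : ℝ) * Complex.I) m
  have hFn : ∀ m u, ‖F m u‖ ≤ ‖Θ u‖ * ((m : ℝ) ^ (1 + 1 / x))⁻¹ := fun m u => by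
    rw [norm_mul]
    exact mul_le_mul_of_nonneg_left (RxSmall.norm_term_le hf.bd _ _ m) (norm_nonneg _)
  have hFi : ∀ m, Integrable (F m) := fun m => by
    refine (hΘi.norm.mul_const _).mono' (Continuous.aestronglyMeasurable ?_)
      (Filter.Eventually.of_forall (hFn m))
    rcases eq_or_ne m 0 with rfl | hm
    · simpa [F] using continuous_const
    · simp only [F, RxSmall.term_eq f _ _ hm]
      exact hΘ.mul (continuous_const.mul ((continuous_nit _).comp (by fun_prop)))
  have hs1 : Summable fun m : ℕ => ((m : ℝ) ^ (1 + 1 / x))⁻¹ :=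
    Real.summable_nat_rpow_inv.2 (by have : 0 < 1 / x := by positivity
                                     linarith)
  have hsum : Summable fun m => ∫ u, ‖F m u‖ :=
    Summable.of_nonneg_of_le (fun m => integral_nonneg fun u => norm_nonneg _)
      (fun m => by
        rw [← integral_mul_const]
        exact integral_mono (hFi m).norm (hΘi.norm.mul_const _) (hFn m))
      (hs1.mul_left (∫ u, ‖Θ u‖))
  have hI : ∀ m, ∫ u, F m u = f m * ((Phi (Real.log m / x) / m : ℝ) : ℂ) * nit s m := by
    intro m
    rcases eq_or_ne m 0 with rfl | hm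
    · simp [F]
    · have hm0 : (0 : ℝ) < m := by positivity
      have e1 : ∀ u, F m u = f m * (Real.exp (-((1 + 1 / x) * Real.log m)) : ℝ) * nit s m *
          (Θ u * ex (-(u * (Real.log m / x)))) := fun u => by
        simp only [F, RxSmall.term_eq f _ _ hm, nit_add]
        rw [show nit (u / x) m = ex (-(u * (Real.log m / x))) by unfold nit; congr 1; ring]
        ring
      simp only [e1]
      rw [integral_const_mul, ← hinv]
      have e2 : Phi (Real.log m / x) / m = Real.exp (-((1 + 1 / x) * Real.log m)) *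
          (Phi (Real.log m / x) * Real.exp (Real.log m / x)) := by
        rw [mul_left_comm, ← Real.exp_add, show -((1 + 1 / x) * Real.log m) + Real.log m / x =
          -Real.log m by ring, Real.exp_neg, Real.exp_log hm0, div_eq_mul_inv]
      rw [e2]
      push_cast
      ring
  have hR : Rx f X s = ∫ u, Θ u * LSeries f ((1 + 1 / x : ℝ) + (s + u / x : ℝ) * Complex.I) := by
    have h3 := integral_tsum_of_summable_integral_norm hFi hsum
    simp only [hI] at h3
    simp only [F, tsum_mul_left] at h3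
    rw [Rx, ← hx, ← tsum_eq_sum (L := SummationFilter.unconditional ℕ), h3]
    · rfl
    · intro m hm
      rcases eq_or_ne m 0 with rfl | hm0
      · simp
      · have h4 : X ^ 2 ≤ m := by
          rw [mem_Icc] at hm; omega
        have h5 : 2 * x ≤ Real.log m := by
          have := Real.log_le_log (by positivity) (show ((X : ℝ)) ^ 2 ≤ m by exact_mod_cast h4)
          rwa [Real.log_pow] at this
        rw [Phi_eq_zero (Or.inr (by rw [le_div_iff₀ hx0]; linarith))]
        simp
  have hint : Integrable fun u => C * C2 * cw 1 u + 4 * C / x * cw x u :=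
    ((integrable_cw one_pos).const_mul _).add ((integrable_cw hx0).const_mul _)
  rw [hR]
  refine (norm_integral_le_of_norm_le hint (Filter.Eventually.of_forall fun u => ?_)).trans
    (le_of_eq ?_)
  · rw [norm_mul]
    have c1 := cw_pos 1 u
    have c2 := cw_pos x u
    rcases le_or_gt |u| x with hu | hu
    · have h3 : |s + u / x| ≤ 2 := by
        refine (abs_add_le _ _).trans ?_
        rw [abs_div, abs_of_pos hx0]
        have := (div_le_one hx0).2 hu
        linarith
      have h4 := h2 (1 + 1 / x) (s + u / x) (by have : 0 < 1 / x := by positivity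
                                                linarith)
        (by have := (div_le_one hx0).2 hx1; linarith) h3
      have h5 := mul_le_mul (hb u) h4 (norm_nonneg _) (by positivity)
      have h6 : 0 ≤ 4 * C / x * cw x u := by positivity
      linarith
    · have h4 := RxSmall.norm_L_le hf.bd (η := 1 / x) (by positivity) (s + u / x)
      rw [one_div_one_div] at h4
      have h5 := mul_le_mul (hb u) h4 (norm_nonneg _) (by positivity)
      have h6 : cw 1 u * (1 + x) ≤ 4 / x * cw x u := by
        have h7 : x ^ 2 ≤ u ^ 2 := by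
          rw [← sq_abs u]; exact pow_le_pow_left₀ hx0.le hu.le 2
        unfold cw
        rw [show 4 / x * (1 / (1 + (u / x) ^ 2)) = 4 * x / (x ^ 2 + u ^ 2) by field_simp, div_one,
          one_div_mul_eq_div, div_le_div_iff₀ (by positivity) (by positivity)]
        nlinarith [sq_nonneg u]
      have h7 := mul_le_mul_of_nonneg_left h6 hC.le
      have h8 : 0 ≤ C * C2 * cw 1 u := by positivity
      have h9 : 4 * C / x * cw x u = C * (4 / x * cw x u) := by ring
      linarith
  · rw [integral_add ((integrable_cw one_pos).const_mul _) ((integrable_cw hx0).const_mul _),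
      integral_const_mul, integral_const_mul, integral_cw one_pos, integral_cw hx0]
    field_simp

end Pool.Agent.P.MP_a14ce1_nt.Ch
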