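import Pool.Agent.P.MP_a14ce1_nt.Ch.Defs
import Pool.Agent.Lib.helper9.Sieve

/-! The two sided Brun-Hooley sieve with complex weights. -/

set_option linter.unusedSectionVars false

open Finset

namespace Pool.Agent.P.MP_a14ce1_nt.Ch

namespace Sieve

open Pool.Agent.Lib.H9

variable {ι : Type*} [DecidableEq ι] {κ : Type*} [Fintype κ] [DecidableEq κ]

theorem norm_sum_prod_sform_sub_le {α : Type*} (A : Finset α) (a : α → ℂ) (w : α → ι → ℝ)
    (g : ι → ℝ) (M : ℂ)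
    (B : κ → Finset ι) (hB : Pairwise fun i j => Disjoint (B i) (B j)) (m : κ → ℕ)
    (c : κ → ℕ → ℝ) (hc1 : ∀ j i, |c j i| ≤ 1) (hc0 : ∀ j i, m j < i → c j i = 0) :
    ‖∑ x ∈ A, a x * ((∏ j, sform (B j) (c j) (w x) : ℝ) : ℂ) -
        M * ((∏ j, sform (B j) (c j) g : ℝ) : ℂ)‖ ≤
      ∑ τ ∈ adm B m, ‖∑ x ∈ A, a x * ((∏ i ∈ univ.biUnion τ, w x i : ℝ) : ℂ) -
        M * ((∏ i ∈ univ.biUnion τ, g i : ℝ) : ℂ)‖ := by
  simp_rw [prod_sform_eq B hB]
  have e1 : ∑ x ∈ A, a x * ((∑ τ ∈ Fintype.piFinset (fun j => (B j).powerset),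
        (∏ j, c j (τ j).card) * ∏ i ∈ univ.biUnion τ, w x i : ℝ) : ℂ) -
      M * ((∑ τ ∈ Fintype.piFinset (fun j => (B j).powerset),
        (∏ j, c j (τ j).card) * ∏ i ∈ univ.biUnion τ, g i : ℝ) : ℂ) =
      ∑ τ ∈ Fintype.piFinset (fun j => (B j).powerset), ((∏ j, c j (τ j).card : ℝ) : ℂ) *
        (∑ x ∈ A, a x * ((∏ i ∈ univ.biUnion τ, w x i : ℝ) : ℂ) -
          M * ((∏ i ∈ univ.biUnion τ, g i : ℝ) : ℂ)) := by
    simp_rw [Complex.ofReal_sum, Complex.ofReal_mul, mul_sum, mul_sub, mul_sum]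
    rw [sum_comm, ← sum_sub_distrib]
    refine sum_congr rfl fun τ _ => ?_
    congr 1
    · exact sum_congr rfl fun x _ => by ring
    · ring
  rw [e1]
  refine (norm_sum_le _ _).trans ?_
  unfold adm
  rw [sum_filter]
  refine sum_le_sum fun τ _ => ?_
  rw [norm_mul, Complex.norm_real, Real.norm_eq_abs]
  split_ifs with h
  · have : |∏ j, c j (τ j).card| ≤ 1 := by
      rw [abs_prod]; exact prod_le_one (fun _ _ => abs_nonneg _) (fun j _ => hc1 j _)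
    exact mul_le_of_le_one_left (norm_nonneg _) this
  · push Not at h
    obtain ⟨j, hj⟩ := h
    rw [prod_eq_zero (mem_univ j) (hc0 j _ hj)]; simp

theorem brun_hooley_complex {α : Type*} (A : Finset α) (a : α → ℂ) (w : α → ι → ℝ) (g : ι → ℝ)
    (X : ℝ) (M : ℂ) (hX : 0 ≤ X) (hM : ‖M‖ ≤ X) (ha : ∀ x ∈ A, ‖a x‖ ≤ 1)
    (B : κ → Finset ι) (hB : Pairwise fun i j => Disjoint (B i) (B j)) (k : κ → ℕ)
    (hw : ∀ a ∈ A, ∀ j, ∀ i ∈ B j, 0 ≤ w a i ∧ w a i ≤ 1)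
    (hg : ∀ j, ∀ i ∈ B j, 0 ≤ g i ∧ g i < 1) (δ : ℝ)
    (hz : ∑ j, (∑ i ∈ B j, g i) ^ (2 * k j + 1) / (2 * k j + 1).factorial /
      ∏ i ∈ B j, (1 - g i) ≤ δ) :
    ‖∑ x ∈ A, a x * ((∏ j, ∏ i ∈ B j, (1 - w x i) : ℝ) : ℂ) -
        M * ((∏ j, ∏ i ∈ B j, (1 - g i) : ℝ) : ℂ)‖ ≤
      2 * (δ * Real.exp δ) * X * (∏ j, ∏ i ∈ B j, (1 - g i)) +
      Fintype.card κ * ∑ τ ∈ adm B (fun j => 2 * k j + 1),
        |∑ a ∈ A, ∏ i ∈ univ.biUnion τ, w a i - X * ∏ i ∈ univ.biUnion τ, g i| +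
      ∑ τ ∈ adm B (fun j => 2 * k j + 1),
        ‖∑ x ∈ A, a x * ((∏ i ∈ univ.biUnion τ, w x i : ℝ) : ℂ) -
          M * ((∏ i ∈ univ.biUnion τ, g i : ℝ) : ℂ)‖ := by
  set R := ∑ τ ∈ adm B (fun j => 2 * k j + 1),
        |∑ a ∈ A, ∏ i ∈ univ.biUnion τ, w a i - X * ∏ i ∈ univ.biUnion τ, g i|
  set R' := ∑ τ ∈ adm B (fun j => 2 * k j + 1),
        ‖∑ x ∈ A, a x * ((∏ i ∈ univ.biUnion τ, w x i : ℝ) : ℂ) -
          M * ((∏ i ∈ univ.biUnion τ, g i : ℝ) : ℂ)‖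
  set cy : κ → ℕ → ℝ := fun j => cY (2 * k j + 1)
  set cz : κ → κ → ℕ → ℝ := fun l j => if j = l then cZ (2 * k j + 1) else cY (2 * k j + 1)
  have hcy1 : ∀ j i, |cy j i| ≤ 1 := by
    intro j i; simp only [cy, cY]; split_ifs <;> simp
  have hcy0 : ∀ j i, 2 * k j + 1 < i → cy j i = 0 := by
    intro j i h; simp only [cy, cY]; rw [if_neg (by omega)]
  have hcz1 : ∀ l j i, |cz l j i| ≤ 1 := by
    intro l j i; simp only [cz]; split_ifs
    · simp only [cZ]; split_ifs <;> simp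
    · exact hcy1 j i
  have hcz0 : ∀ l j i, 2 * k j + 1 < i → cz l j i = 0 := by
    intro l j i h; simp only [cz]; split_ifs
    · simp only [cZ]; rw [if_neg (by omega)]
    · exact hcy0 j i h
  have hsplit : ∀ (l : κ) (u : ι → ℝ), ∏ j, sform (B j) (cz l j) u =
      sform (B l) (cZ (2 * k l + 1)) u * ∏ j ∈ univ.erase l, sform (B j) (cy j) u := by
    intro l u
    rw [← mul_prod_erase univ _ (mem_univ l)]
    congr 1
    · simp [cz]
    · refine prod_congr rfl fun j hj => ?_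
      simp [cz, cy, ne_of_mem_erase hj]
  -- pointwise inequalities
  have hpt : ∀ u : ι → ℝ, (∀ j, ∀ i ∈ B j, 0 ≤ u i ∧ u i ≤ 1) →
      0 ≤ ∏ j, sform (B j) (cy j) u - ∏ j, ∏ i ∈ B j, (1 - u i) ∧
      ∏ j, sform (B j) (cy j) u - ∏ j, ∏ i ∈ B j, (1 - u i) ≤
        ∑ l, ∏ j, sform (B j) (cz l j) u := by
    intro u hu
    have h0 : ∀ j, 0 ≤ ∏ i ∈ B j, (1 - u i) :=
      fun j => prod_nonneg fun i hi => by linarith [(hu j i hi).2]
    have h1 := prod_sub_prod_le univ (fun j => ∏ i ∈ B j, (1 - u i))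
      (fun j => sform (B j) (cy j) u) (fun j _ => h0 j)
      (fun j _ => prod_le_sform_cY _ _ (hu j) _)
    have h2 : ∑ l, (sform (B l) (cy l) u - ∏ i ∈ B l, (1 - u i)) *
        ∏ j ∈ univ.erase l, sform (B j) (cy j) u ≤ ∑ l, ∏ j, sform (B j) (cz l j) u := by
      refine sum_le_sum fun l _ => ?_
      rw [hsplit]
      refine mul_le_mul_of_nonneg_right (sform_cY_sub_le _ _ (hu l) _) ?_
      exact prod_nonneg fun j _ => (h0 j).trans (prod_le_sform_cY _ _ (hu j) _)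
    have h3 : ∏ j, ∏ i ∈ B j, (1 - u i) ≤ ∏ j, sform (B j) (cy j) u :=
      prod_le_prod (fun j _ => h0 j) (fun j _ => prod_le_sform_cY _ _ (hu j) _)
    constructor <;> linarith
  have e1 := norm_sum_prod_sform_sub_le A a w g M B hB (fun j => 2 * k j + 1) cy hcy1 hcy0
  have e2 := fun l => abs_sum_prod_sform_sub_le A w g X B hB (fun j => 2 * k j + 1) (cz l)
    (hcz1 l) (hcz0 l)
  have hV : ∀ j, 0 < ∏ i ∈ B j, (1 - g i) :=
    fun j => prod_pos fun i hi => by linarith [(hg j i hi).2]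
  have hg' : ∀ j, ∀ i ∈ B j, 0 ≤ g i ∧ g i ≤ 1 := fun j i hi => ⟨(hg j i hi).1, (hg j i hi).2.le⟩
  have hVy : ∀ j, ∏ i ∈ B j, (1 - g i) ≤ sform (B j) (cy j) g :=
    fun j => prod_le_sform_cY _ _ (hg' j) _
  have hy : ∀ j, 0 < sform (B j) (cy j) g := fun j => (hV j).trans_le (hVy j)
  set dl : κ → ℝ := fun j => (∑ i ∈ B j, g i) ^ (2 * k j + 1) / (2 * k j + 1).factorial /
      ∏ i ∈ B j, (1 - g i) with hdl
  have hZ : ∀ l, sform (B l) (cZ (2 * k l + 1)) g ≤ (∏ i ∈ B l, (1 - g i)) * dl l := by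
    intro l
    have hz1 := sform_cZ_le (B l) g (fun i hi => (hg l i hi).1) (2 * k l + 1)
    refine hz1.trans (le_of_eq ?_)
    simp only [hdl]
    field_simp [(hV l).ne']
  have hdl0 : ∀ l, 0 ≤ dl l := by
    intro l
    have := sum_nonneg (fun i hi => (hg l i hi).1)
    have := (hV l).le
    simp only [hdl]
    positivity
  have hδ0 : 0 ≤ δ := (sum_nonneg fun l _ => hdl0 l).trans hz
  have hYle : ∏ j, sform (B j) (cy j) g ≤ Real.exp δ * ∏ j, ∏ i ∈ B j, (1 - g i) := by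
    calc ∏ j, sform (B j) (cy j) g ≤ ∏ j, (Real.exp (dl j) * ∏ i ∈ B j, (1 - g i)) := by
          refine prod_le_prod (fun j _ => (hy j).le) fun j _ => ?_
          have h1 := sform_cY_sub_le (B j) g (hg' j) (k j)
          have h2 := hZ j
          have h3 := Real.add_one_le_exp (dl j)
          have h4 := mul_le_mul_of_nonneg_right h3 (hV j).le
          simp only [cy]
          nlinarith
      _ = Real.exp (∑ j, dl j) * ∏ j, ∏ i ∈ B j, (1 - g i) := by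
          rw [prod_mul_distrib, Real.exp_sum]
      _ ≤ _ := by
          refine mul_le_mul_of_nonneg_right (Real.exp_le_exp.2 hz) ?_
          exact prod_nonneg fun j _ => (hV j).le
  have hS : ∑ l, ∏ j, sform (B j) (cz l j) g ≤
      δ * Real.exp δ * ∏ j, ∏ i ∈ B j, (1 - g i) := by
    have h1 : ∑ l, ∏ j, sform (B j) (cz l j) g ≤ (∏ j, sform (B j) (cy j) g) * ∑ j, dl j := by
      rw [mul_sum]
      refine sum_le_sum fun l _ => ?_
      rw [hsplit, ← mul_prod_erase univ (fun j => sform (B j) (cy j) g) (mem_univ l)]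
      have hP : 0 ≤ ∏ j ∈ univ.erase l, sform (B j) (cy j) g := prod_nonneg fun j _ => (hy j).le
      rw [mul_right_comm]
      refine mul_le_mul_of_nonneg_right ?_ hP
      exact (hZ l).trans (mul_le_mul_of_nonneg_right (hVy l) (hdl0 l))
    have h3 : 0 ≤ ∏ j, sform (B j) (cy j) g := prod_nonneg fun j _ => (hy j).le
    calc _ ≤ _ := h1
      _ ≤ (∏ j, sform (B j) (cy j) g) * δ := mul_le_mul_of_nonneg_left hz h3
      _ ≤ (Real.exp δ * ∏ j, ∏ i ∈ B j, (1 - g i)) * δ := mul_le_mul_of_nonneg_right hYle hδ0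
      _ = _ := by ring
  -- first piece
  have p1 : ‖∑ x ∈ A, a x * ((∏ j, ∏ i ∈ B j, (1 - w x i) : ℝ) : ℂ) -
      ∑ x ∈ A, a x * ((∏ j, sform (B j) (cy j) (w x) : ℝ) : ℂ)‖ ≤
      X * (δ * Real.exp δ * ∏ j, ∏ i ∈ B j, (1 - g i)) + Fintype.card κ * R := by
    rw [← sum_sub_distrib]
    refine (norm_sum_le _ _).trans ?_
    have h1 : ∀ x ∈ A, ‖a x * ((∏ j, ∏ i ∈ B j, (1 - w x i) : ℝ) : ℂ) -
        a x * ((∏ j, sform (B j) (cy j) (w x) : ℝ) : ℂ)‖ ≤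
        ∑ l, ∏ j, sform (B j) (cz l j) (w x) := by
      intro x hx
      obtain ⟨h2, h3⟩ := hpt (w x) (hw x hx)
      rw [← mul_sub, norm_mul, ← Complex.ofReal_sub, Complex.norm_real, Real.norm_eq_abs,
        abs_sub_comm, abs_of_nonneg h2]
      exact (mul_le_of_le_one_left h2 (ha x hx)).trans h3
    refine (sum_le_sum h1).trans ?_
    rw [sum_comm]
    have e3 : ∑ l, ∑ a ∈ A, ∏ j, sform (B j) (cz l j) (w a) ≤
        ∑ l, (X * ∏ j, sform (B j) (cz l j) g + R) :=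
      sum_le_sum fun l _ => by linarith [(abs_le.1 (e2 l)).2]
    rw [sum_add_distrib, ← mul_sum, sum_const, card_univ, nsmul_eq_mul] at e3
    have := mul_le_mul_of_nonneg_left hS hX
    linarith
  have p3 : ‖M * ((∏ j, sform (B j) (cy j) g : ℝ) : ℂ) -
      M * ((∏ j, ∏ i ∈ B j, (1 - g i) : ℝ) : ℂ)‖ ≤
      X * (δ * Real.exp δ * ∏ j, ∏ i ∈ B j, (1 - g i)) := by
    obtain ⟨h2, h3⟩ := hpt g hg'
    rw [← mul_sub, norm_mul, ← Complex.ofReal_sub, Complex.norm_real, Real.norm_eq_abs,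
      abs_of_nonneg h2]
    exact mul_le_mul hM (h3.trans hS) h2 hX
  have tri := norm_sub_le_norm_sub_add_norm_sub
    (∑ x ∈ A, a x * ((∏ j, ∏ i ∈ B j, (1 - w x i) : ℝ) : ℂ))
    (∑ x ∈ A, a x * ((∏ j, sform (B j) (cy j) (w x) : ℝ) : ℂ))
    (M * ((∏ j, ∏ i ∈ B j, (1 - g i) : ℝ) : ℂ))
  have tri2 := norm_sub_le_norm_sub_add_norm_sub
    (∑ x ∈ A, a x * ((∏ j, sform (B j) (cy j) (w x) : ℝ) : ℂ))
    (M * ((∏ j, sform (B j) (cy j) g : ℝ) : ℂ))
    (M * ((∏ j, ∏ i ∈ B j, (1 - g i) : ℝ) : ℂ))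
  have e1' : ‖∑ x ∈ A, a x * ((∏ j, sform (B j) (cy j) (w x) : ℝ) : ℂ) -
        M * ((∏ j, sform (B j) (cy j) g : ℝ) : ℂ)‖ ≤ R' := e1
  nlinarith

/-- The blocks of primes. -/
def blk (z : ℕ) (P : Finset ℕ) (j : Fin z) : Finset ℕ := P.filter (fun p => bidx z p = j)

theorem blk_disj (z : ℕ) (P : Finset ℕ) : Pairwise fun i j => Disjoint (blk z P i) (blk z P j) := by
  intro i j hij
  rw [disjoint_left]
  intro p hi hj
  exact hij (Fin.ext ((mem_filter.1 hi).2.symm.trans (mem_filter.1 hj).2))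

theorem blk_sub (z : ℕ) (P : Finset ℕ) (j : Fin z) : blk z P j ⊆ P := filter_subset _ _

theorem blk_prod {z : ℕ} {P : Finset ℕ} (hP : ∀ p ∈ P, p.Prime ∧ p ≤ z) (f : ℕ → ℝ) :
    ∏ j, ∏ i ∈ blk z P j, f i = ∏ p ∈ P, f p := by
  unfold blk
  rw [Fin.prod_univ_eq_prod_range (fun j => ∏ i ∈ P.filter (fun p => bidx z p = j), f i) z]
  exact prod_fiberwise_of_maps_to
    (fun p hp => mem_range.2 (bidx_spec (hP p hp).1.two_le (hP p hp).2).2.2) f

theorem blk_sum_le {z : ℕ} {P : Finset ℕ} (hP : ∀ p ∈ P, p.Prime ∧ p ≤ z) (j : Fin z) :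
    ∑ p ∈ blk z P j, (1 : ℝ) / p ≤ 6 := by
  refine sum_inv_block_le _ (fun p hp => (hP p (blk_sub z P j hp)).1) ?_
  intro p hp q hq
  have hp' := bidx_spec (hP p (blk_sub z P j hp)).1.two_le (hP p (blk_sub z P j hp)).2
  have hq' := bidx_spec (hP q (blk_sub z P j hq)).1.two_le (hP q (blk_sub z P j hq)).2
  rw [(mem_filter.1 hp).2] at hp'
  rw [(mem_filter.1 hq).2] at hq'
  have : q ^ 2 ^ (j : ℕ) < (p ^ 2) ^ 2 ^ (j : ℕ) := by
    rw [← pow_mul, ← pow_succ']; omega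
  exact lt_of_pow_lt_pow_left₀ _ (Nat.zero_le _) this

theorem adm_level {z : ℕ} {P : Finset ℕ} (hz : 2 ≤ z) (hP : ∀ p ∈ P, p.Prime ∧ p ≤ z) (k0 : ℕ) :
    ∀ τ ∈ adm (blk z P) (fun j => 2 * (k0 + j) + 1),
      univ.biUnion τ ⊆ P ∧ pv (univ.biUnion τ) ≤ z ^ (4 * k0 + 6) := by
  intro τ hτ
  simp only [adm, mem_filter, Fintype.mem_piFinset, mem_powerset] at hτ
  have hBP := blk_sub z P
  have hB := blk_disj z P
  have hsub : univ.biUnion τ ⊆ P := biUnion_subset.2 fun j _ => (hτ.1 j).trans (hBP j)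
  refine ⟨hsub, ?_⟩
  have hz0 : (0 : ℝ) < z := by positivity
  have hlz : 0 ≤ Real.log z := Real.log_natCast_nonneg z
  have hpos : (0 : ℝ) < ∏ p ∈ univ.biUnion τ, (p : ℝ) :=
    prod_pos fun p hp => by exact_mod_cast (hP p (hsub hp)).1.pos
  have hlog : Real.log (∏ p ∈ univ.biUnion τ, (p : ℝ)) ≤ Real.log ((z : ℝ) ^ (4 * k0 + 6)) := by
    rw [Real.log_prod (fun p hp => by exact_mod_cast (hP p (hsub hp)).1.ne_zero),
      sum_biUnion (fun i _ j _ hij => (hB hij).mono (hτ.1 i) (hτ.1 j)), Real.log_pow]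
    have h1 : ∀ j : Fin z, ∑ p ∈ τ j, Real.log p ≤
        ((2 * k0 + 1 : ℝ) + 2 * (j : ℕ)) / 2 ^ (j : ℕ) * Real.log z := by
      intro j
      have h2 : ∀ p ∈ τ j, Real.log p ≤ Real.log z / 2 ^ (j : ℕ) := by
        intro p hp
        have hpB := hτ.1 j hp
        have hp' := (bidx_spec (hP p (hBP j hpB)).1.two_le (hP p (hBP j hpB)).2).1
        rw [(mem_filter.1 hpB).2] at hp'
        have hp0 : (0 : ℝ) < p := by exact_mod_cast (hP p (hBP j hpB)).1.pos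
        have h3 : Real.log ((p : ℝ) ^ 2 ^ (j : ℕ)) ≤ Real.log z :=
          Real.log_le_log (by positivity) (by exact_mod_cast hp')
        rw [Real.log_pow] at h3
        rw [le_div_iff₀ (by positivity)]
        push_cast at h3
        linarith
      have h4 := sum_le_card_nsmul _ _ _ h2
      rw [nsmul_eq_mul] at h4
      have h5 : ((τ j).card : ℝ) ≤ (2 * k0 + 1 : ℝ) + 2 * (j : ℕ) := by
        have := hτ.2 j
        have h6 : ((τ j).card : ℝ) ≤ ((2 * (k0 + j) + 1 : ℕ) : ℝ) := by exact_mod_cast this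
        push_cast at h6; linarith
      calc _ ≤ _ := h4
        _ ≤ ((2 * k0 + 1 : ℝ) + 2 * (j : ℕ)) * (Real.log z / 2 ^ (j : ℕ)) := by gcongr
        _ = _ := by ring
    refine (sum_le_sum fun j _ => h1 j).trans ?_
    rw [← sum_mul, Fin.sum_univ_eq_sum_range
      (fun j => ((2 * k0 + 1 : ℝ) + 2 * (j : ℕ)) / 2 ^ j) z, sum_lin_div_two_pow]
    refine mul_le_mul_of_nonneg_right ?_ hlz
    have : 0 ≤ (2 * (2 * (k0 : ℝ) + 1) + 4 * z + 4) / 2 ^ z := by positivity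
    push_cast; linarith
  have := (Real.log_le_log_iff hpos (by positivity)).1 hlog
  rw [← Nat.cast_prod] at this
  unfold pv
  exact_mod_cast this

theorem adm_sum_le {z : ℕ} {P : Finset ℕ} (hz : 2 ≤ z) (hP : ∀ p ∈ P, p.Prime ∧ p ≤ z) (k0 : ℕ)
    (F : ℕ → ℝ) (hF : ∀ d, 0 ≤ F d) :
    ∑ τ ∈ adm (blk z P) (fun j => 2 * (k0 + j) + 1), F (pv (univ.biUnion τ)) ≤
      ∑ d ∈ Icc 1 (z ^ (4 * k0 + 6)), F d := by
  have hlev := adm_level hz hP k0
  have hinj : Set.InjOn (fun τ : Fin z → Finset ℕ => pv (univ.biUnion τ))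
      (adm (blk z P) (fun j => 2 * (k0 + j) + 1)) := by
    intro τ hτ σ hσ h
    have h1 := Nat.primeFactors_prod (fun p hp => (hP p ((hlev τ hτ).1 hp)).1)
    have h2 := Nat.primeFactors_prod (fun p hp => (hP p ((hlev σ hσ).1 hp)).1)
    have h3 : univ.biUnion τ = univ.biUnion σ := by
      rw [← h1, ← h2]; exact congrArg _ h
    have aux : ∀ τ ∈ adm (blk z P) (fun j => 2 * (k0 + j) + 1), ∀ j,
        τ j = (univ.biUnion τ).filter (fun p => bidx z p = j) := by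
      intro τ hτ j
      simp only [adm, mem_filter, Fintype.mem_piFinset, mem_powerset] at hτ
      ext p
      simp only [mem_filter, mem_biUnion, mem_univ, true_and]
      constructor
      · intro hp
        exact ⟨⟨j, hp⟩, (mem_filter.1 (hτ.1 j hp)).2⟩
      · rintro ⟨⟨i, hi⟩, hj⟩
        have : i = j := Fin.ext ((mem_filter.1 (hτ.1 i hi)).2.symm.trans hj)
        exact this ▸ hi
    funext j
    rw [aux τ hτ j, aux σ hσ j, h3]
  rw [← sum_image (f := F) hinj]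
  refine sum_le_sum_of_subset_of_nonneg ?_ (fun d _ _ => hF d)
  intro d hd
  obtain ⟨τ, hτ, rfl⟩ := mem_image.1 hd
  have := hlev τ hτ
  rw [mem_Icc]
  exact ⟨Nat.succ_le_of_lt (prod_pos fun p hp => (hP p (this.1 hp)).1.pos), this.2⟩

theorem delta_le {z : ℕ} {P : Finset ℕ} (hP : ∀ p ∈ P, p.Prime ∧ p ≤ z) {κ η : ℝ} (hκ : 0 ≤ κ)
    (hη : 0 < η) (g : ℕ → ℝ) (hg : ∀ p ∈ P, 0 ≤ g p ∧ g p ≤ κ / p ∧ g p ≤ 1 - η) (k0 : ℕ) :
    ∑ j : Fin z, (∑ i ∈ blk z P j, g i) ^ (2 * (k0 + j) + 1) /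
        ((2 * (k0 + j) + 1).factorial : ℝ) / ∏ i ∈ blk z P j, (1 - g i) ≤
      Real.exp (2 * (6 * κ) + 6 * κ / η) / 2 ^ k0 := by
  set L : ℝ := 6 * κ with hL
  have hL0 : 0 ≤ L := by positivity
  have hBP := blk_sub z P
  have hblock : ∀ j, ∑ i ∈ blk z P j, g i ≤ L := by
    intro j
    have h1 := blk_sum_le hP j
    calc ∑ i ∈ blk z P j, g i ≤ ∑ i ∈ blk z P j, κ * (1 / i) :=
          sum_le_sum fun i hi => by rw [mul_one_div]; exact (hg i (hBP j hi)).2.1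
      _ = κ * ∑ i ∈ blk z P j, (1 : ℝ) / i := by rw [mul_sum]
      _ ≤ L := by rw [hL]; nlinarith
  have h1 : ∀ j : Fin z, (∑ i ∈ blk z P j, g i) ^ (2 * (k0 + j) + 1) /
      ((2 * (k0 + j) + 1).factorial : ℝ) / ∏ i ∈ blk z P j, (1 - g i) ≤
      (Real.exp (2 * L + L / η) / 2 ^ k0 / 2) * (1 / 2) ^ (j : ℕ) := by
    intro j
    have hs0 : 0 ≤ ∑ i ∈ blk z P j, g i := sum_nonneg fun i hi => (hg i (hBP j hi)).1
    have hV := exp_neg_le_prod (blk z P j) g hη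
      (fun i hi => ⟨(hg i (hBP j hi)).1, (hg i (hBP j hi)).2.2⟩)
    have hV2 : Real.exp (-(L / η)) ≤ ∏ i ∈ blk z P j, (1 - g i) := by
      refine le_trans (Real.exp_le_exp.2 ?_) hV
      have := hblock j
      gcongr
    set m := 2 * (k0 + j) + 1 with hm
    have h2 : (∑ i ∈ blk z P j, g i) ^ m / (m.factorial : ℝ) ≤ Real.exp (2 * L) / 2 ^ m := by
      calc (∑ i ∈ blk z P j, g i) ^ m / (m.factorial : ℝ) ≤ L ^ m / m.factorial := by
            gcongr; exact hblock j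
        _ = (2 * L) ^ m / m.factorial / 2 ^ m := by rw [mul_pow 2 L]; field_simp
        _ ≤ _ := by gcongr; exact Real.pow_div_factorial_le_exp _ (by positivity) m
    have h3 : (2 : ℝ) ^ k0 * 2 * 2 ^ (j : ℕ) ≤ 2 ^ m := by
      rw [← pow_succ, ← pow_add]
      exact pow_le_pow_right₀ (by norm_num) (by omega)
    calc _ ≤ Real.exp (2 * L) / 2 ^ m / Real.exp (-(L / η)) := by gcongr
      _ = Real.exp (2 * L + L / η) / 2 ^ m := by
        rw [Real.exp_neg, Real.exp_add]; field_simp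
      _ ≤ Real.exp (2 * L + L / η) / (2 ^ k0 * 2 * 2 ^ (j : ℕ)) := by gcongr
      _ = _ := by rw [one_div_pow]; field_simp
  refine (sum_le_sum fun j _ => h1 j).trans ?_
  rw [← mul_sum, Fin.sum_univ_eq_sum_range (fun j => (1 / 2 : ℝ) ^ j) z]
  have := sum_geometric_two_le z
  have h0 : 0 ≤ Real.exp (2 * L + L / η) / 2 ^ k0 / 2 := by positivity
  calc _ ≤ (Real.exp (2 * L + L / η) / 2 ^ k0 / 2) * 2 := mul_le_mul_of_nonneg_left this h0
    _ = _ := by ring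

end Sieve

open Pool.Agent.Lib.H9 Sieve in
theorem sieve : S_Sieve := by
  intro κ η hκ hη
  set E : ℝ := Real.exp (2 * (6 * κ) + 6 * κ / η) with hE
  have hE0 : 0 < E := Real.exp_pos _
  refine ⟨2 * (E * Real.exp E), by positivity, ?_⟩
  intro α A a z k P D _ g X R1 M R2 hz hX hM ha hP hg hR2 h1 h2
  have hR0 : 0 ≤ R1 := (abs_nonneg _).trans (h1 ∅ (empty_subset _)
    (by simp only [pv, prod_empty]; exact Nat.one_le_pow _ _ (by omega)))
  set w : α → ℕ → ℝ := fun a p => if D a p then 1 else 0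
  have key := brun_hooley_complex A a w g X M hX hM ha (blk z P) (blk_disj z P) (fun j => k + j)
    (by intro a _ j i _; simp only [w]; split_ifs <;> norm_num)
    (fun j i hi => ⟨(hg i (blk_sub z P j hi)).1, by linarith [(hg i (blk_sub z P j hi)).2.2]⟩)
    (E / 2 ^ k) (delta_le hP hκ hη g hg k)
  simp_rw [blk_prod hP] at key
  have hw1 : ∀ (x : α) (T : Finset ℕ), ∏ i ∈ T, w x i = if ∀ p ∈ T, D x p then 1 else 0 := by
    intro x T
    split_ifs with h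
    · exact prod_eq_one fun p hp => by simp [w, h p hp]
    · push Not at h
      obtain ⟨p, hp, hD⟩ := h
      exact prod_eq_zero hp (by simp [w, hD])
  have hw2 : ∀ T : Finset ℕ, ∑ x ∈ A, a x * ((∏ i ∈ T, w x i : ℝ) : ℂ) =
      ∑ x ∈ A.filter (fun x => ∀ p ∈ T, D x p), a x := by
    intro T
    rw [sum_filter]
    refine sum_congr rfl fun x _ => ?_
    rw [hw1]
    split_ifs <;> simp
  have e1 : ∑ x ∈ A, a x * ((∏ p ∈ P, (1 - w x p) : ℝ) : ℂ) =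
      ∑ x ∈ A.filter (fun x => ∀ p ∈ P, ¬ D x p), a x := by
    rw [sum_filter]
    refine sum_congr rfl fun x _ => ?_
    split_ifs with h
    · rw [prod_eq_one fun p hp => by simp [w, h p hp]]; simp
    · push Not at h
      obtain ⟨p, hp, hD⟩ := h
      rw [prod_eq_zero hp (by simp [w, hD])]; simp
  rw [e1] at key
  have hlev := adm_level hz hP k
  have e2 : ∑ τ ∈ adm (blk z P) (fun j => 2 * (k + j) + 1),
      |∑ a ∈ A, ∏ i ∈ univ.biUnion τ, w a i - X * ∏ i ∈ univ.biUnion τ, g i| ≤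
      (z : ℝ) ^ (4 * k + 6) * R1 := by
    have h3 := adm_sum_le hz hP k (fun _ => R1) (fun _ => hR0)
    rw [sum_const, sum_const, Nat.card_Icc, nsmul_eq_mul, nsmul_eq_mul, add_tsub_cancel_right,
      Nat.cast_pow] at h3
    refine le_trans ?_ h3
    rw [← nsmul_eq_mul, ← sum_const]
    refine sum_le_sum fun τ hτ => ?_
    have h4 := h1 _ (hlev τ hτ).1 (hlev τ hτ).2
    rw [card_filter] at h4
    push_cast at h4
    simp_rw [hw1]
    exact h4
  have e3 : ∑ τ ∈ adm (blk z P) (fun j => 2 * (k + j) + 1),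
      ‖∑ x ∈ A, a x * ((∏ i ∈ univ.biUnion τ, w x i : ℝ) : ℂ) -
          M * ((∏ i ∈ univ.biUnion τ, g i : ℝ) : ℂ)‖ ≤ ∑ d ∈ Icc 1 (z ^ (4 * k + 6)), R2 d := by
    refine le_trans (sum_le_sum fun τ hτ => ?_) (adm_sum_le hz hP k R2 hR2)
    have h4 := h2 _ (hlev τ hτ).1 (hlev τ hτ).2
    rw [hw2]
    exact h4
  have hz2 : (2 : ℝ) ≤ z := by exact_mod_cast hz
  have e4 : (Fintype.card (Fin z) : ℝ) * ∑ τ ∈ adm (blk z P) (fun j => 2 * (k + j) + 1),
      |∑ a ∈ A, ∏ i ∈ univ.biUnion τ, w a i - X * ∏ i ∈ univ.biUnion τ, g i| ≤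
      (z : ℝ) ^ (4 * k + 8) * R1 := by
    rw [Fintype.card_fin]
    calc _ ≤ (z : ℝ) * ((z : ℝ) ^ (4 * k + 6) * R1) := by gcongr
      _ ≤ (z : ℝ) ^ 2 * ((z : ℝ) ^ (4 * k + 6) * R1) := by
        refine mul_le_mul_of_nonneg_right (by nlinarith) (by positivity)
      _ = _ := by ring
  have hV0 : 0 ≤ ∏ p ∈ P, (1 - g p) := prod_nonneg fun p hp => by linarith [(hg p hp).2.2]
  have e5 : 2 * (E / 2 ^ k * Real.exp (E / 2 ^ k)) * X * ∏ p ∈ P, (1 - g p) ≤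
      2 * (E * Real.exp E) / 2 ^ k * X * ∏ p ∈ P, (1 - g p) := by
    have h3 : Real.exp (E / 2 ^ k) ≤ Real.exp E :=
      Real.exp_le_exp.2 (div_le_self hE0.le (one_le_pow₀ (by norm_num)))
    have h4 : 2 * (E / 2 ^ k * Real.exp (E / 2 ^ k)) ≤ 2 * (E * Real.exp E) / 2 ^ k := by
      calc 2 * (E / 2 ^ k * Real.exp (E / 2 ^ k)) ≤ 2 * (E / 2 ^ k * Real.exp E) := by gcongr
        _ = _ := by ring
    gcongr
  linarith

end Pool.Agent.P.MP_a14ce1_nt.Ch
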