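import Pool.Agent.P.MP_a14ce1_nt.Ch.Defs

/-! Periodic averages used by the main reduction. -/

open Finset

namespace Pool.Agent.P.MP_a14ce1_nt.Ch.Main

/-- the members of G dividing n -/
def Tn (G : Finset ℕ) (n : ℕ) : Finset ℕ := G.filter (fun q => q ∣ n)

theorem Tn_sub (G : Finset ℕ) (n : ℕ) : Tn G n ⊆ G := filter_subset _ _

theorem pv_pos {g : Finset ℕ} (hg : ∀ q ∈ g, q.Prime) : 0 < pv g :=
  prod_pos fun q hq => (hg q hq).pos

theorem dvd_pv {g : Finset ℕ} {q : ℕ} (hq : q ∈ g) : q ∣ pv g := dvd_prod_of_mem _ hq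

theorem pv_dvd_iff {g : Finset ℕ} (hg : ∀ q ∈ g, q.Prime) (n : ℕ) : pv g ∣ n ↔ ∀ q ∈ g, q ∣ n :=
  ⟨fun h _ hq => (dvd_pv hq).trans h, fun h => prod_primes_dvd n (fun q hq => (hg q hq).prime) h⟩

theorem sub_Tn_iff {G g : Finset ℕ} (hG : ∀ q ∈ G, q.Prime) (hg : g ⊆ G) (n : ℕ) :
    g ⊆ Tn G n ↔ pv g ∣ n := by
  rw [pv_dvd_iff (fun q hq => hG q (hg hq))]
  constructor
  · intro h q hq; exact (mem_filter.1 (h hq)).2
  · intro h q hq; exact mem_filter.2 ⟨hg hq, h q hq⟩

theorem Tn_congr {G : Finset ℕ} {m n : ℕ} (h : m ≡ n [MOD pv G]) : Tn G m = Tn G n := by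
  refine filter_congr fun q hq => ?_
  exact (h.of_dvd (dvd_pv hq)).dvd_iff (dvd_refl q)

theorem coprime_pv {G : Finset ℕ} (hG : ∀ q ∈ G, q.Prime) {p : ℕ} (hp : p.Prime) (hpG : p ∉ G) :
    Nat.Coprime p (pv G) := by
  refine Nat.Coprime.prod_right fun q hq => ?_
  exact (Nat.coprime_primes hp (hG q hq)).2 (fun h => hpG (h ▸ hq))

theorem Tn_mul {G : Finset ℕ} (hG : ∀ q ∈ G, q.Prime) {p : ℕ} (hp : p.Prime) (hpG : p ∉ G) (m : ℕ) :
    Tn G (p * m) = Tn G m := by
  refine filter_congr fun q hq => ?_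
  have : Nat.Coprime q p := (Nat.coprime_primes (hG q hq) hp).2 (fun h => hpG (h ▸ hq))
  exact this.dvd_mul_left

theorem sum_range_mul (F : ℕ → ℝ) (a b : ℕ) :
    ∑ n ∈ range (a * b), F n = ∑ j ∈ range a, ∑ i ∈ range b, F (i + b * j) := by
  induction a with
  | zero => simp
  | succ a ih =>
    rw [Nat.succ_mul, sum_range_add, ih, sum_range_succ]
    congr 1
    refine sum_congr rfl fun i _ => ?_
    congr 1; ring

theorem card_dvd_one {q Q : ℕ} (hq : q.Prime) (hc : Nat.Coprime q Q) (t : ℕ) :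
    ((range q).filter (fun j => q ∣ t + Q * j)).card = 1 := by
  have := Fact.mk hq
  have hQ : (Q : ZMod q) ≠ 0 := by
    rw [Ne, ZMod.natCast_eq_zero_iff]
    exact (Nat.Prime.coprime_iff_not_dvd hq).1 hc
  rw [card_eq_one]
  refine ⟨(-(t : ZMod q) / Q).val, ?_⟩
  ext j
  simp only [mem_filter, mem_range, mem_singleton]
  rw [← ZMod.natCast_eq_zero_iff]
  push_cast
  constructor
  · rintro ⟨hj, h⟩
    have : (j : ZMod q) = -(t : ZMod q) / Q := by
      field_simp; linear_combination h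
    rw [← this, ZMod.val_cast_of_lt hj]
  · rintro rfl
    refine ⟨ZMod.val_lt _, ?_⟩
    rw [ZMod.natCast_zmod_val]; field_simp; ring

theorem mu_insert_not {G T : Finset ℕ} {q : ℕ} (hq : q ∉ G) (hT : T ⊆ G) :
    mu (insert q G) T = mu G T * (1 - 1 / q) := by
  unfold mu
  have hqT : q ∉ T := fun h => hq (hT h)
  rw [insert_sdiff_of_notMem _ hqT, prod_insert (fun h => hq (mem_sdiff.1 h).1)]
  ring

theorem mu_insert_in {G T : Finset ℕ} {q : ℕ} (hq : q ∉ G) (hT : T ⊆ G) :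
    mu (insert q G) (insert q T) = mu G T * (1 / q) := by
  unfold mu
  have hqT : q ∉ T := fun h => hq (hT h)
  rw [insert_sdiff_insert, sdiff_insert_of_notMem hq, prod_insert hqT]
  ring

theorem crt_eq (G : Finset ℕ) (hG : ∀ q ∈ G, q.Prime) (φ : Finset ℕ → ℝ) (s : ℕ) :
    ∑ n ∈ range (pv G), φ (Tn G (n + s)) = pv G * ∑ T ∈ G.powerset, mu G T * φ T := by
  induction G using Finset.induction_on generalizing φ with
  | empty => simp [pv, Tn, mu]
  | insert q G hq ih =>
    have hG' : ∀ r ∈ G, r.Prime := fun r hr => hG r (mem_insert_of_mem hr)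
    have hqp : q.Prime := hG q (mem_insert_self _ _)
    have hpv : pv (insert q G) = q * pv G := prod_insert hq
    have hcop := coprime_pv hG' hqp hq
    rw [hpv, sum_range_mul, sum_comm]
    have key : ∀ i, ∑ j ∈ range q, φ (Tn (insert q G) (i + pv G * j + s)) =
        φ (insert q (Tn G (i + s))) + (q - 1) * φ (Tn G (i + s)) := by
      intro i
      have h1 : ∀ j, Tn (insert q G) (i + pv G * j + s) =
          if q ∣ (i + s) + pv G * j then insert q (Tn G (i + s)) else Tn G (i + s) := by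
        intro j
        have e : Tn G (i + pv G * j + s) = Tn G (i + s) := by
          apply Tn_congr
          have : i + pv G * j + s = (i + s) + pv G * j := by ring
          rw [this]
          exact (Nat.modEq_iff_dvd' (Nat.le_add_right _ _)).2 (by simp) |>.symm
        unfold Tn at *
        rw [filter_insert, e, show i + pv G * j + s = (i + s) + pv G * j by ring]
      simp_rw [h1, apply_ite φ]
      rw [sum_ite, sum_const, sum_const, card_dvd_one hqp hcop]
      have h2 := card_filter_add_card_filter_not (s := range q) (fun j => q ∣ (i + s) + pv G * j)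
      rw [card_dvd_one hqp hcop, card_range] at h2
      have h3 : (((range q).filter (fun j => ¬ q ∣ (i + s) + pv G * j)).card : ℝ) = q - 1 := by
        have h4 : ((1 + ((range q).filter (fun j => ¬ q ∣ (i + s) + pv G * j)).card : ℕ) : ℝ) = q := by
          exact_mod_cast h2
        push_cast at h4; linarith
      rw [nsmul_eq_mul, nsmul_eq_mul, h3]; simp
    simp_rw [key]
    rw [ih hG' (fun T => φ (insert q T) + (q - 1) * φ T), sum_powerset_insert hq,
      ← sum_add_distrib, mul_sum, mul_sum]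
    refine sum_congr rfl fun T hT => ?_
    rw [mu_insert_not hq (mem_powerset.1 hT), mu_insert_in hq (mem_powerset.1 hT)]
    have : (q : ℝ) ≠ 0 := by exact_mod_cast hqp.ne_zero
    push_cast; field_simp; ring

theorem mu_nonneg {G T : Finset ℕ} (hG : ∀ q ∈ G, q.Prime) : 0 ≤ mu G T := by
  unfold mu
  refine mul_nonneg (prod_nonneg fun _ _ => by positivity) (prod_nonneg fun q hq => ?_)
  have : (1 : ℝ) ≤ q := by exact_mod_cast (hG q (mem_sdiff.1 hq).1).one_le
  have : (1 : ℝ) / q ≤ 1 := by rw [div_le_one (by linarith)]; exact this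
  linarith

theorem crt_le (G : Finset ℕ) (hG : ∀ q ∈ G, q.Prime) (φ : Finset ℕ → ℝ) (hφ : ∀ T, 0 ≤ φ T)
    (N : ℕ) :
    ∑ n ∈ range N, φ (Tn G n) ≤ (N + pv G) * ∑ T ∈ G.powerset, mu G T * φ T := by
  have hQ := pv_pos hG
  have hE : 0 ≤ ∑ T ∈ G.powerset, mu G T * φ T :=
    sum_nonneg fun T _ => mul_nonneg (mu_nonneg hG) (hφ T)
  have h1 : N ≤ (N / pv G + 1) * pv G := by
    have := Nat.lt_div_mul_add hQ (a := N); rw [add_mul, one_mul]; omega
  calc ∑ n ∈ range N, φ (Tn G n) ≤ ∑ n ∈ range ((N / pv G + 1) * pv G), φ (Tn G n) :=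
        sum_le_sum_of_subset_of_nonneg (range_subset_range.2 h1) (fun _ _ _ => hφ _)
    _ = ((N / pv G + 1 : ℕ) : ℝ) * (pv G * ∑ T ∈ G.powerset, mu G T * φ T) := by
        rw [sum_range_mul]
        simp_rw [crt_eq G hG φ]
        rw [sum_const, card_range, nsmul_eq_mul]
    _ ≤ _ := by
        rw [← mul_assoc]
        refine mul_le_mul_of_nonneg_right ?_ hE
        have : (N / pv G + 1) * pv G ≤ N + pv G := by
          rw [add_mul, one_mul]; exact Nat.add_le_add_right (Nat.div_mul_le_self _ _) _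
        exact_mod_cast this

theorem two_mod {Q1 Q2 : ℕ} (h1 : 0 < Q1) (h2 : 0 < Q2) (hc : Nat.Coprime Q1 Q2)
    (F : ℕ → ℕ → ℝ) (hF : ∀ r y, 0 ≤ F r y) (X : ℕ) :
    (Q1 * Q2 : ℝ) * ∑ x ∈ range X, F (x % Q1) (x % Q2) ≤
      (X + Q1 * Q2) * ∑ y ∈ range Q2, ∑ r ∈ range Q1, F r y := by
  have hQ : 0 < Q1 * Q2 := Nat.mul_pos h1 h2
  have hS : 0 ≤ ∑ y ∈ range Q2, ∑ r ∈ range Q1, F r y :=
    sum_nonneg fun _ _ => sum_nonneg fun _ _ => hF _ _
  have hb : ∑ x ∈ range (Q1 * Q2), F (x % Q1) (x % Q2) ≤ ∑ y ∈ range Q2, ∑ r ∈ range Q1, F r y := by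
    rw [sum_comm, ← sum_product']
    have hinj : Set.InjOn (fun x => (x % Q1, x % Q2)) (range (Q1 * Q2) : Set ℕ) := by
      intro x hx y hy hxy
      simp only [Prod.mk.injEq] at hxy
      have : x ≡ y [MOD Q1 * Q2] := (Nat.modEq_and_modEq_iff_modEq_mul hc).1 ⟨hxy.1, hxy.2⟩
      exact Nat.ModEq.eq_of_lt_of_lt this (by simpa using hx) (by simpa using hy)
    rw [← sum_image (f := fun z : ℕ × ℕ => F z.1 z.2) hinj]
    refine sum_le_sum_of_subset_of_nonneg ?_ (fun _ _ _ => hF _ _)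
    intro z hz
    obtain ⟨x, _, rfl⟩ := mem_image.1 hz
    exact mem_product.2 ⟨mem_range.2 (Nat.mod_lt _ h1), mem_range.2 (Nat.mod_lt _ h2)⟩
  have hle : X ≤ (X / (Q1 * Q2) + 1) * (Q1 * Q2) := by
    have := Nat.lt_div_mul_add hQ (a := X); rw [add_mul, one_mul]; omega
  have h3 : ∑ x ∈ range X, F (x % Q1) (x % Q2) ≤
      ((X / (Q1 * Q2) + 1 : ℕ) : ℝ) * ∑ y ∈ range Q2, ∑ r ∈ range Q1, F r y := by
    calc _ ≤ ∑ x ∈ range ((X / (Q1 * Q2) + 1) * (Q1 * Q2)), F (x % Q1) (x % Q2) :=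
          sum_le_sum_of_subset_of_nonneg (range_subset_range.2 hle) (fun _ _ _ => hF _ _)
      _ = ∑ j ∈ range (X / (Q1 * Q2) + 1), ∑ x ∈ range (Q1 * Q2), F (x % Q1) (x % Q2) := by
          rw [sum_range_mul]
          refine sum_congr rfl fun j _ => sum_congr rfl fun i _ => ?_
          rw [mul_assoc, Nat.add_mul_mod_self_left, mul_left_comm, Nat.add_mul_mod_self_left]
      _ ≤ _ := by
          rw [sum_const, card_range, nsmul_eq_mul]
          exact mul_le_mul_of_nonneg_left hb (by positivity)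
  calc _ ≤ (Q1 * Q2 : ℝ) * (((X / (Q1 * Q2) + 1 : ℕ) : ℝ) *
        ∑ y ∈ range Q2, ∑ r ∈ range Q1, F r y) := mul_le_mul_of_nonneg_left h3 (by positivity)
    _ ≤ _ := by
        rw [← mul_assoc]
        refine mul_le_mul_of_nonneg_right ?_ hS
        have : Q1 * Q2 * (X / (Q1 * Q2) + 1) ≤ X + Q1 * Q2 := by
          rw [mul_add, mul_one]; exact Nat.add_le_add_right (Nat.mul_div_le _ _) _
        exact_mod_cast this

theorem shift_sum (Γ : ℕ → ℝ) (B : ℝ) (hB : ∀ n, |Γ n| ≤ B) (X j : ℕ) :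
    |∑ x ∈ range X, Γ (x + j) - ∑ x ∈ range X, Γ x| ≤ 2 * j * B := by
  induction j with
  | zero => simp
  | succ j ih =>
    have h1 : ∑ x ∈ range X, Γ (x + (j + 1)) =
        ∑ x ∈ range X, Γ (x + j) + (Γ (X + j) - Γ j) := by
      have a := sum_range_succ (fun x => Γ (x + j)) X
      have b := sum_range_succ' (fun x => Γ (x + j)) X
      simp only [zero_add] at b
      have c : ∑ x ∈ range X, Γ (x + (j + 1)) = ∑ x ∈ range X, Γ (x + 1 + j) :=
        sum_congr rfl fun x _ => by congr 1; ring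
      linarith
    rw [h1]
    have := hB (X + j); have := hB j
    rw [abs_le] at *
    push_cast
    constructor <;> linarith

end Pool.Agent.P.MP_a14ce1_nt.Ch.Main
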