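import Pool.Agent.P.MP_a14ce1_nt.Ch.ScalesA

/-!
Scale decomposition, second part: bounded continuous functions and numerical inequalities.
-/

open Finset MeasureTheory

namespace Pool.Agent.P.MP_a14ce1_nt.Ch.Scales

/-- bounded and continuous -/
def BC (g : ℝ → ℝ) : Prop := Continuous g ∧ ∃ B, ∀ t, |g t| ≤ B

theorem BC.int {g : ℝ → ℝ} (h : BC g) {T : ℝ} (hT : 0 < T) : Integrable (fun t => cw T t * g t) := by
  obtain ⟨h1, B, h2⟩ := h
  exact integrable_cw_mul hT h1 h2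

theorem BC.const (c : ℝ) : BC (fun _ => c) := ⟨continuous_const, |c|, fun _ => le_rfl⟩

theorem BC.add {g g' : ℝ → ℝ} (h : BC g) (h' : BC g') : BC (fun t => g t + g' t) := by
  obtain ⟨h1, B, h2⟩ := h
  obtain ⟨h1', B', h2'⟩ := h'
  exact ⟨h1.add h1', B + B', fun t => (abs_add_le _ _).trans (add_le_add (h2 t) (h2' t))⟩

theorem BC.mul {g g' : ℝ → ℝ} (h : BC g) (h' : BC g') : BC (fun t => g t * g' t) := by
  obtain ⟨h1, B, h2⟩ := h
  obtain ⟨h1', B', h2'⟩ := h'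
  refine ⟨h1.mul h1', B * B', fun t => ?_⟩
  rw [abs_mul]
  exact mul_le_mul (h2 t) (h2' t) (abs_nonneg _) ((abs_nonneg _).trans (h2 t))

theorem BC.cmul {g : ℝ → ℝ} (h : BC g) (c : ℝ) : BC (fun t => c * g t) := (BC.const c).mul h

theorem BC.pow {g : ℝ → ℝ} (h : BC g) (l : ℕ) : BC (fun t => g t ^ l) := by
  induction l with
  | zero => simpa using BC.const 1
  | succ l ih => simpa [pow_succ] using ih.mul h

theorem BC.sum {ι : Type*} (s : Finset ι) {g : ι → ℝ → ℝ} (h : ∀ i ∈ s, BC (g i)) :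
    BC (fun t => ∑ i ∈ s, g i t) := by
  classical
  induction s using Finset.induction_on with
  | empty => simpa using BC.const 0
  | insert i s hi ih =>
    simp only [sum_insert hi]
    exact (h i (mem_insert_self _ _)).add (ih fun j hj => h j (mem_insert_of_mem hj))

theorem bc_sm (hR : S_SmReg) (S : Finset ℕ) (a : ℕ → ℂ) : BC (sm S a) :=
  ⟨(hR S a).1, _, fun t => by rw [abs_of_nonneg ((hR S a).2 t).1]; exact ((hR S a).2 t).2⟩

theorem bc_dir (a : ℕ → ℂ) (S : Finset ℕ) : BC (fun t => ‖∑ n ∈ S, a n * nit t n‖ ^ 2) := by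
  refine BC.pow (g := fun t => ‖∑ n ∈ S, a n * nit t n‖) ⟨?_, ∑ n ∈ S, ‖a n‖, fun t => ?_⟩ 2
  · exact (continuous_finsetSum _ fun n _ => continuous_const.mul (continuous_nit _)).norm
  · rw [abs_norm]
    refine (norm_sum_le _ _).trans (le_of_eq (sum_congr rfl fun n _ => ?_))
    rw [norm_mul, norm_nit, mul_one]

/-- the integral against the Cauchy weight -/
noncomputable def I (T : ℝ) (g : ℝ → ℝ) : ℝ := ∫ t, cw T t * g t

theorem I_add {g g' : ℝ → ℝ} (h : BC g) (h' : BC g') {T : ℝ} (hT : 0 < T) :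
    I T (fun t => g t + g' t) = I T g + I T g' := by
  unfold I
  rw [← integral_add (h.int hT) (h'.int hT)]
  simp only [mul_add]

theorem I_cmul (g : ℝ → ℝ) (c T : ℝ) : I T (fun t => c * g t) = c * I T g := by
  unfold I
  rw [← integral_const_mul]
  congr 1; ext t; ring

theorem I_sum {ι : Type*} (s : Finset ι) {g : ι → ℝ → ℝ} (h : ∀ i ∈ s, BC (g i)) {T : ℝ}
    (hT : 0 < T) : I T (fun t => ∑ i ∈ s, g i t) = ∑ i ∈ s, I T (g i) := by
  unfold I
  rw [← integral_finsetSum _ fun i hi => (h i hi).int hT]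
  simp only [mul_sum]

theorem log_small {s : ℝ} (hs : 10 ^ 6 ≤ s) : 500 * Real.log s ≤ s := by
  have h0 : 0 ≤ s := by linarith
  have h1 := Real.log_le_rpow_div h0 (show (0 : ℝ) < 1 / 2 by norm_num)
  rw [← Real.sqrt_eq_rpow] at h1
  have h2 : 1000 ≤ √s := Real.le_sqrt_of_sq_le (by linarith)
  have h3 := Real.mul_self_sqrt h0
  nlinarith

theorem pow_le_exp {l : ℕ} {b c : ℝ} (hb : 0 < b) (h : l * Real.log b ≤ c) : b ^ l ≤ Real.exp c := by
  rw [← Real.exp_log (pow_pos hb l), Real.log_pow]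
  exact Real.exp_le_exp.2 h

/-- the numerical inequality of the intermediate levels -/
theorem num1 {a : ℝ} (ha1 : a ≤ 1) {s v r : ℕ} (hs : 10 ^ 6 ≤ s) (has : 1 / (s : ℝ) ≤ a)
    (hv1 : (s ^ 3) ^ 2 ≤ v) (hv2 : v < (s ^ 3) ^ 4) (hr1 : s ^ 2 ≤ r) (hr2 : r < s ^ 4) :
    Real.exp (-((a - 1 / ((s ^ 3 : ℕ) : ℝ)) * v)) *
      (Real.exp ((a - 1 / (s : ℝ)) * ((r * (v / r + 1) : ℕ) : ℝ)) *
        (80000 * (16 * (2 * ((v / r + 1 : ℕ) : ℝ) + 1) ^ 2) ^ (v / r + 1))) ≤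
      80000 * Real.exp (-((s : ℝ) ^ 5 / 4)) := by
  set l := v / r + 1 with hl
  have hs' : (10 : ℝ) ^ 6 ≤ s := by exact_mod_cast hs
  have hs0 : (0 : ℝ) < s := by linarith
  have hv1' : (s : ℝ) ^ 6 ≤ v := by
    have : s ^ 6 ≤ v := by rw [← pow_mul] at hv1; exact hv1
    exact_mod_cast this
  have hv2' : (v : ℝ) ≤ (s : ℝ) ^ 12 := by
    have : v ≤ s ^ 12 := by rw [← pow_mul] at hv2; exact hv2.le
    exact_mod_cast this
  have hr1' : (s : ℝ) ^ 2 ≤ r := by exact_mod_cast hr1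
  have hr2' : (r : ℝ) ≤ (s : ℝ) ^ 4 := by exact_mod_cast hr2.le
  have hr0 : (0 : ℝ) < r := lt_of_lt_of_le (by positivity) hr1'
  have hv0 : (0 : ℝ) ≤ v := Nat.cast_nonneg v
  have h1 : ((r * l : ℕ) : ℝ) ≤ v + r := by
    have : r * l ≤ v + r := by
      rw [hl, mul_add, mul_one]; exact Nat.add_le_add_right (Nat.mul_div_le v r) r
    exact_mod_cast this
  have hs1 : (1 : ℝ) ≤ s := by linarith
  have h26 : (s : ℝ) ^ 2 ≤ (s : ℝ) ^ 6 := pow_le_pow_right₀ hs1 (by norm_num)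
  have h2 : (l : ℝ) ≤ 2 * (v / (s : ℝ) ^ 2) := by
    have h3 : ((v / r : ℕ) : ℝ) ≤ v / (s : ℝ) ^ 2 :=
      Nat.cast_div_le.trans (by gcongr)
    have h4 : (1 : ℝ) ≤ v / (s : ℝ) ^ 2 := by rw [le_div_iff₀ (by positivity)]; linarith
    rw [hl]; push_cast; linarith
  have h5 : (v : ℝ) / (s : ℝ) ^ 2 ≤ (s : ℝ) ^ 10 := by
    rw [div_le_iff₀ (by positivity), ← pow_add]; exact hv2'
  have h10 : (1 : ℝ) ≤ (s : ℝ) ^ 10 := one_le_pow₀ hs1
  have h6 : 16 * (2 * (l : ℝ) + 1) ^ 2 ≤ (s : ℝ) ^ 21 := by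
    have : 2 * (l : ℝ) + 1 ≤ 5 * (s : ℝ) ^ 10 := by linarith
    calc _ ≤ 16 * (5 * (s : ℝ) ^ 10) ^ 2 := by gcongr
      _ = 400 * (s : ℝ) ^ 20 := by ring
      _ ≤ s * (s : ℝ) ^ 20 := by gcongr; linarith
      _ = _ := by ring
  have hlog := log_small hs'
  have hlog0 : 0 ≤ Real.log s := Real.log_nonneg hs1
  set w : ℝ := v / s with hw
  have hw0 : 0 ≤ w := by positivity
  have hw5 : (s : ℝ) ^ 5 ≤ w := by rw [hw, le_div_iff₀ hs0, ← pow_succ]; exact hv1'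
  have h7 : (16 * (2 * (l : ℝ) + 1) ^ 2) ^ l ≤ Real.exp (w / 8) := by
    refine pow_le_exp (by positivity) ?_
    have h8 : Real.log (16 * (2 * (l : ℝ) + 1) ^ 2) ≤ 21 * Real.log s := by
      refine (Real.log_le_log (by positivity) h6).trans ?_
      rw [Real.log_pow]; norm_num
    calc _ ≤ (2 * (v / (s : ℝ) ^ 2)) * (21 * Real.log s) := by
          refine mul_le_mul h2 h8 (Real.log_nonneg ?_) (by positivity)
          have : (0 : ℝ) ≤ l := Nat.cast_nonneg l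
          nlinarith
      _ = w * (42 * Real.log s / s) := by rw [hw]; field_simp; ring
      _ ≤ w * (1 / 8) := by
          refine mul_le_mul_of_nonneg_left ?_ hw0
          rw [div_le_iff₀ hs0]; linarith
      _ = _ := by ring
  have h9 : -((a - 1 / ((s ^ 3 : ℕ) : ℝ)) * v) + ((a - 1 / (s : ℝ)) * ((r * l : ℕ) : ℝ) + w / 8) ≤
      -((s : ℝ) ^ 5 / 4) := by
    have e1 : (a - 1 / (s : ℝ)) * ((r * l : ℕ) : ℝ) ≤ (a - 1 / (s : ℝ)) * (v + r) :=
      mul_le_mul_of_nonneg_left h1 (by linarith)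
    have e2 : (a - 1 / (s : ℝ)) * r ≤ 1 * r := by
      gcongr
      have : 0 < 1 / (s : ℝ) := by positivity
      linarith
    have e3 : (r : ℝ) ≤ w / 8 := by
      have : 8 * (s : ℝ) ^ 4 ≤ (s : ℝ) ^ 5 := by
        rw [pow_succ (s : ℝ) 4, mul_comm]; gcongr; linarith
      linarith
    have e4 : 1 / ((s ^ 3 : ℕ) : ℝ) * v ≤ w / 2 := by
      push_cast
      have : 1 / (s : ℝ) ^ 3 * v = w * (1 / (s : ℝ) ^ 2) := by rw [hw]; field_simp
      rw [this]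
      have : 1 / (s : ℝ) ^ 2 ≤ 1 / 2 := by
        apply one_div_le_one_div_of_le (by norm_num); nlinarith
      nlinarith
    have e5 : 1 / (s : ℝ) * v = w := by rw [hw]; ring
    nlinarith
  calc _ ≤ Real.exp (-((a - 1 / ((s ^ 3 : ℕ) : ℝ)) * v)) *
        (Real.exp ((a - 1 / (s : ℝ)) * ((r * l : ℕ) : ℝ)) * (80000 * Real.exp (w / 8))) := by gcongr
    _ = 80000 * Real.exp (-((a - 1 / ((s ^ 3 : ℕ) : ℝ)) * v) +
        ((a - 1 / (s : ℝ)) * ((r * l : ℕ) : ℝ) + w / 8)) := by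
        rw [Real.exp_add, Real.exp_add]; ring
    _ ≤ _ := by gcongr

theorem num2 {s : ℝ} (hs : 1 ≤ s) : s ^ 28 * Real.exp (-(s ^ 5 / 4)) ≤ 3000000 / s := by
  have h := Real.pow_div_factorial_le_exp (s ^ 5 / 4) (by positivity) 6
  have hs0 : 0 < s := by linarith
  rw [Real.exp_neg, ← div_eq_mul_inv, div_le_div_iff₀ (Real.exp_pos _) hs0]
  have h29 : s ^ 28 * s ≤ s ^ 30 := by
    rw [← pow_succ]; exact pow_le_pow_right₀ hs (by norm_num)
  have h2 : (s ^ 5 / 4) ^ 6 / ((Nat.factorial 6 : ℕ) : ℝ) = s ^ 30 / 2949120 := by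
    norm_num [Nat.factorial]; ring
  rw [h2] at h
  have : 0 ≤ s ^ 30 := by positivity
  linarith

theorem num3 {s a : ℝ} (hs : 1 ≤ s) (ha : 0 < a) :
    s ^ 8 * Real.exp (-(a / 2 * s ^ 2)) ≤ 3840 / a ^ 5 / s := by
  have h := Real.pow_div_factorial_le_exp (a / 2 * s ^ 2) (by positivity) 5
  have hs0 : 0 < s := by linarith
  rw [Real.exp_neg, ← div_eq_mul_inv, div_le_div_iff₀ (Real.exp_pos _) hs0]
  have h29 : s ^ 8 * s ≤ s ^ 10 := by
    rw [← pow_succ]; exact pow_le_pow_right₀ hs (by norm_num)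
  have h2 : (a / 2 * s ^ 2) ^ 5 / ((Nat.factorial 5 : ℕ) : ℝ) = a ^ 5 / 3840 * s ^ 10 := by
    norm_num [Nat.factorial]; ring
  rw [h2] at h
  calc _ ≤ s ^ 10 := h29
    _ = 3840 / a ^ 5 * (a ^ 5 / 3840 * s ^ 10) := by field_simp
    _ ≤ _ := by gcongr

/-- the numerical inequality for the measure of the exceptional set -/
theorem num4 {a b u : ℝ} (ha : 0 < a) (ha1 : a ≤ 1) (hb : b ≤ a) (hu : 10 ^ 6 ≤ u)
    (hua : 186 / a ≤ u) {v : ℕ} (hv1 : u ^ 2 ≤ v) (hv2 : (v : ℝ) ≤ u ^ 12) :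
    2 * u ^ 12 * (Real.exp (b * ((v * ⌈u ^ 24 / (v * Real.log 2)⌉₊ : ℕ) : ℝ)) *
      (80000 * (16 * (2 * ((⌈u ^ 24 / (v * Real.log 2)⌉₊ : ℕ) : ℝ) + 1) ^ 2) ^
        ⌈u ^ 24 / (v * Real.log 2)⌉₊)) ≤ Real.exp (2 * a * u ^ 24) := by
  set l := ⌈u ^ 24 / (v * Real.log 2)⌉₊ with hl
  have hu0 : 0 < u := by linarith
  have hu1 : 1 ≤ u := by linarith
  have hv0 : (0 : ℝ) < v := lt_of_lt_of_le (by positivity) hv1
  have hl2 : 2 / 3 < Real.log 2 := lt_trans (by norm_num) Real.log_two_gt_d9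
  have h1 : (l : ℝ) ≤ 3 / 2 * (u ^ 24 / v) + 1 := by
    have h := (Nat.ceil_lt_add_one (show 0 ≤ u ^ 24 / (v * Real.log 2) by positivity)).le
    have h' : u ^ 24 / (v * Real.log 2) ≤ u ^ 24 / (v * (2 / 3)) := by gcongr
    have h'' : u ^ 24 / (v * (2 / 3)) = 3 / 2 * (u ^ 24 / v) := by field_simp
    linarith
  have h2 : ((v * l : ℕ) : ℝ) ≤ 3 / 2 * u ^ 24 + u ^ 12 := by
    push_cast
    calc (v : ℝ) * l ≤ v * (3 / 2 * (u ^ 24 / v) + 1) := by gcongr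
      _ = 3 / 2 * u ^ 24 + v := by field_simp
      _ ≤ _ := by linarith
  have h22 : (2 : ℝ) ≤ u ^ 22 := le_trans (by linarith) (le_self_pow₀ hu1 (by norm_num))
  have h3 : (l : ℝ) ≤ 2 * u ^ 22 := by
    have : u ^ 24 / v ≤ u ^ 22 := by
      rw [div_le_iff₀ hv0]
      calc u ^ 24 = u ^ 22 * u ^ 2 := by ring
        _ ≤ _ := by gcongr
    linarith
  have h4 : 16 * (2 * (l : ℝ) + 1) ^ 2 ≤ u ^ 45 := by
    have : 2 * (l : ℝ) + 1 ≤ 5 * u ^ 22 := by linarith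
    calc _ ≤ 16 * (5 * u ^ 22) ^ 2 := by gcongr
      _ = 400 * u ^ 44 := by ring
      _ ≤ u * u ^ 44 := by gcongr; linarith
      _ = _ := by ring
  have h5 : (16 * (2 * (l : ℝ) + 1) ^ 2) ^ l ≤ Real.exp (90 * u ^ 23) := by
    refine pow_le_exp (by positivity) ?_
    have h8 : Real.log (16 * (2 * (l : ℝ) + 1) ^ 2) ≤ 45 * u := by
      refine (Real.log_le_log (by positivity) h4).trans ?_
      rw [Real.log_pow]
      have := Real.log_le_sub_one_of_pos hu0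
      push_cast; linarith
    calc _ ≤ (2 * u ^ 22) * (45 * u) := by
          refine mul_le_mul h3 h8 (Real.log_nonneg ?_) (by positivity)
          have : (0 : ℝ) ≤ l := Nat.cast_nonneg l
          nlinarith
      _ = _ := by ring
  have h6 : Real.exp (b * ((v * l : ℕ) : ℝ)) ≤ Real.exp (3 / 2 * a * u ^ 24 + u ^ 23) := by
    refine Real.exp_le_exp.2 ?_
    have : u ^ 12 ≤ u ^ 23 := pow_le_pow_right₀ hu1 (by norm_num)
    have h0 : 0 ≤ u ^ 12 := by positivity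
    calc _ ≤ a * ((v * l : ℕ) : ℝ) := by gcongr
      _ ≤ a * (3 / 2 * u ^ 24 + u ^ 12) := by gcongr
      _ ≤ _ := by nlinarith
  have h7 : 160000 * u ^ 12 ≤ Real.exp (2 * u ^ 23) := by
    have e1 : 160000 * u ^ 12 ≤ u ^ 23 := by
      calc _ ≤ u * u ^ 12 := by gcongr; linarith
        _ = u ^ 13 := by ring
        _ ≤ _ := pow_le_pow_right₀ hu1 (by norm_num)
    have e2 := Real.add_one_le_exp (2 * u ^ 23)
    have : 0 ≤ u ^ 23 := by positivity
    linarith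
  calc _ = (160000 * u ^ 12) * (Real.exp (b * ((v * l : ℕ) : ℝ)) *
        (16 * (2 * (l : ℝ) + 1) ^ 2) ^ l) := by ring
    _ ≤ Real.exp (2 * u ^ 23) * (Real.exp (3 / 2 * a * u ^ 24 + u ^ 23) * Real.exp (90 * u ^ 23)) := by
        gcongr
    _ = Real.exp (3 / 2 * a * u ^ 24 + 93 * u ^ 23) := by
        rw [← Real.exp_add, ← Real.exp_add]; congr 1; ring
    _ ≤ _ := by
        refine Real.exp_le_exp.2 ?_
        have e1 : 186 ≤ u * a := (div_le_iff₀ ha).1 hua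
        have e2 : 186 * u ^ 23 ≤ u * a * u ^ 23 := by gcongr
        have e3 : u * a * u ^ 23 = a * u ^ 24 := by ring
        linarith

theorem cw_far {X h t : ℝ} (hX : 0 < X) (hh : 1 ≤ h) (ht : X ≤ |t|) :
    cw (X / h) t ≤ 2 / h ^ 2 * cw X t := by
  unfold cw
  have h0 : 0 < h := by linarith
  have h1 : 1 ≤ (t / X) ^ 2 := by
    rw [div_pow, le_div_iff₀ (by positivity), one_mul, ← sq_abs t]
    gcongr
  have h2 : (t / (X / h)) ^ 2 = h ^ 2 * (t / X) ^ 2 := by field_simp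
  rw [h2, div_mul_div_comm, div_le_div_iff₀ (by positivity) (by positivity)]
  have : 0 < h ^ 2 := by positivity
  nlinarith

theorem cw_near {X t : ℝ} (hX : 0 < X) (ht : |t| ≤ X) : 1 / 2 ≤ cw X t := by
  unfold cw
  have h1 : (t / X) ^ 2 ≤ 1 := by
    rw [div_pow, div_le_one (by positivity), ← sq_abs t]
    gcongr
  exact one_div_le_one_div_of_le (by positivity) (by linarith)

end Pool.Agent.P.MP_a14ce1_nt.Ch.Scales
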