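import Pool.Agent.P.MP_a14ce1_nt.Ch.Fourier

open Finset MeasureTheory

namespace Pool.Agent.P.MP_a14ce1_nt.Ch

namespace CauchyAux

open FourierAux

theorem ft_exp {T : ℝ} (hT : 0 < T) (ξ : ℝ) :
    Integrable (fun v : ℝ => ((Real.exp (-(T * |v|)) : ℝ) : ℂ) * ex (-(ξ * v))) ∧
    ft (fun v : ℝ => ((Real.exp (-(T * |v|)) : ℝ) : ℂ)) ξ = ((2 / T * cw T ξ : ℝ) : ℂ) := by
  set F : ℝ → ℂ := fun v => ((Real.exp (-(T * |v|)) : ℝ) : ℂ) * ex (-(ξ * v)) with hF
  have ha : 0 < ((T : ℂ) - ξ * Complex.I).re := by simpa using hT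
  have hb : (-(T : ℂ) - ξ * Complex.I).re < 0 := by simpa using hT
  have e1 : Set.EqOn (fun v : ℝ => Complex.exp (((T : ℂ) - ξ * Complex.I) * v)) F (Set.Iic 0) := by
    intro v hv
    simp only [hF, ex, abs_of_nonpos (Set.mem_Iic.1 hv), Complex.ofReal_exp, ← Complex.exp_add]
    congr 1
    push_cast
    ring
  have e2 : Set.EqOn (fun v : ℝ => Complex.exp ((-(T : ℂ) - ξ * Complex.I) * v)) F (Set.Ioi 0) := by
    intro v hv
    simp only [hF, ex, abs_of_pos (Set.mem_Ioi.1 hv), Complex.ofReal_exp, ← Complex.exp_add]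
    congr 1
    push_cast
    ring
  have i1 : IntegrableOn F (Set.Iic 0) :=
    (integrableOn_exp_mul_complex_Iic ha 0).congr_fun e1 measurableSet_Iic
  have i2 : IntegrableOn F (Set.Ioi 0) :=
    (integrableOn_exp_mul_complex_Ioi hb 0).congr_fun e2 measurableSet_Ioi
  refine ⟨?_, ?_⟩
  · have := i1.union i2
    rwa [Set.Iic_union_Ioi, integrableOn_univ] at this
  · change ∫ v, F v = _
    rw [← intervalIntegral.integral_Iic_add_Ioi i1 i2,
      ← setIntegral_congr_fun measurableSet_Iic e1, ← setIntegral_congr_fun measurableSet_Ioi e2,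
      integral_exp_mul_complex_Iic ha, integral_exp_mul_complex_Ioi hb]
    have h1 : (T : ℂ) - ξ * Complex.I ≠ 0 := fun h => by simp [h] at ha
    have h2 : -(T : ℂ) - ξ * Complex.I ≠ 0 := fun h => by simp [h] at hb
    have h3 : (T : ℂ) ≠ 0 := by exact_mod_cast hT.ne'
    have h4 : 2 / T * cw T ξ = 2 * T / (T ^ 2 + ξ ^ 2) := by
      rw [cw]
      field_simp
    have h5 : ((T : ℂ) ^ 2 + (ξ : ℂ) ^ 2) ≠ 0 := by
      exact_mod_cast (by positivity : T ^ 2 + ξ ^ 2 ≠ 0)
    rw [h4]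
    push_cast
    rw [mul_zero, mul_zero, Complex.exp_zero, div_add_div _ _ h1 h2,
      div_eq_div_iff (mul_ne_zero h1 h2) h5]
    linear_combination (-2 * (T : ℂ) * (ξ : ℂ) ^ 2) * Complex.I_sq

theorem sum_pow_dist_le {q : ℝ} (h0 : 0 ≤ q) (h1 : q < 1) (N n : ℕ) :
    ∑ m ∈ range N, q ^ Nat.dist n m ≤ (1 + q) / (1 - q) := by
  have hg : ∀ k, ∑ j ∈ range k, q ^ j ≤ 1 / (1 - q) := fun k => by
    rw [one_div, ← tsum_geometric_of_lt_one h0 h1]
    exact (summable_geometric_of_lt_one h0 h1).sum_le_tsum _ fun j _ => pow_nonneg h0 j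
  calc ∑ m ∈ range N, q ^ Nat.dist n m ≤ ∑ m ∈ range (n + 1 + N), q ^ Nat.dist n m :=
        sum_le_sum_of_subset_of_nonneg (range_mono (by omega)) fun _ _ _ => pow_nonneg h0 _
    _ = ∑ j ∈ range (n + 1), q ^ j + q * ∑ j ∈ range N, q ^ j := by
        rw [sum_range_add, ← sum_range_reflect, mul_sum]
        congr 1
        · refine sum_congr rfl fun j hj => ?_
          rw [mem_range] at hj
          congr 1
          unfold Nat.dist
          omega
        · refine sum_congr rfl fun j _ => ?_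
          rw [← pow_succ']
          congr 1
          unfold Nat.dist
          omega
    _ ≤ 1 / (1 - q) + q * (1 / (1 - q)) := add_le_add (hg _) (mul_le_mul_of_nonneg_left (hg _) h0)
    _ = _ := by ring

theorem dist_div_le {N m n : ℕ} (hm : m ∈ Icc 1 N) (hn : n ∈ Icc 1 N) :
    (Nat.dist m n : ℝ) / N ≤ |Real.log m - Real.log n| := by
  wlog h : n ≤ m generalizing m n
  · rw [Nat.dist_comm, abs_sub_comm]
    exact this hn hm (le_of_not_ge h)
  rw [mem_Icc] at hm hn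
  have hn0 : (0 : ℝ) < n := by exact_mod_cast hn.1
  have hm0 : (0 : ℝ) < m := by exact_mod_cast hm.1
  have hnm : (n : ℝ) ≤ m := by exact_mod_cast h
  have hmN : (m : ℝ) ≤ N := by exact_mod_cast hm.2
  have h1 := Real.log_le_sub_one_of_pos (div_pos hn0 hm0)
  rw [Real.log_div hn0.ne' hm0.ne'] at h1
  rw [Nat.dist_eq_sub_of_le_right h, Nat.cast_sub h]
  refine le_trans ?_ (le_abs_self _)
  calc ((m : ℝ) - n) / N ≤ ((m : ℝ) - n) / m := by gcongr
    _ = 1 - n / m := by field_simp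
    _ ≤ _ := by linarith

theorem row_le {T : ℝ} (hT : 0 < T) {N m : ℕ} (hm : m ∈ Icc 1 N) :
    T * ∑ n ∈ Icc 1 N, Real.exp (-(T * |Real.log m - Real.log n|)) ≤ T + 2 * N := by
  have hN : (0 : ℝ) < N := by
    have := mem_Icc.1 hm
    exact_mod_cast (by omega : 0 < N)
  set q := Real.exp (-(T / N)) with hq
  have hx : 0 < T / N := by positivity
  have h0 : 0 < q := Real.exp_pos _
  have h1 : q < 1 := Real.exp_lt_one_iff.2 (by linarith)
  have h2 : ∑ n ∈ Icc 1 N, Real.exp (-(T * |Real.log m - Real.log n|)) ≤ (1 + q) / (1 - q) := by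
    refine le_trans ?_ (sum_pow_dist_le h0.le h1 (N + 1) m)
    refine le_trans (sum_le_sum fun n hn => ?_)
      (sum_le_sum_of_subset_of_nonneg (s := Icc 1 N) (fun n hn => ?_) fun _ _ _ => by positivity)
    · rw [hq, ← Real.exp_nat_mul]
      refine Real.exp_le_exp.2 ?_
      have := mul_le_mul_of_nonneg_left (dist_div_le hm hn) hT.le
      calc -(T * |Real.log m - Real.log n|) ≤ -(T * ((Nat.dist m n : ℝ) / N)) := by linarith
        _ = _ := by ring
    · rw [mem_range]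
      have := mem_Icc.1 hn
      omega
  refine (mul_le_mul_of_nonneg_left h2 hT.le).trans ?_
  have h3 : (T / N + 1) * q ≤ 1 := by
    have := Real.add_one_le_exp (T / N)
    rw [hq, Real.exp_neg, ← div_eq_mul_inv, div_le_one (Real.exp_pos _)]
    exact this
  have h4 : (T + N) * q ≤ N := by
    have : T + N = N * (T / N + 1) := by field_simp
    rw [this, mul_assoc]
    exact mul_le_of_le_one_right hN.le h3
  rw [mul_div_assoc', div_le_iff₀ (by linarith)]
  nlinarith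

theorem schur {T : ℝ} (hT : 0 < T) (N : ℕ) (B : ℕ → ℝ) :
    T * ∑ m ∈ Icc 1 N, ∑ n ∈ Icc 1 N, B m * B n * Real.exp (-(T * |Real.log m - Real.log n|)) ≤
      (T + 2 * N) * ∑ m ∈ Icc 1 N, B m ^ 2 := by
  set e : ℕ → ℕ → ℝ := fun m n => Real.exp (-(T * |Real.log m - Real.log n|)) with he
  have hs : ∀ m n, e m n = e n m := fun m n => by simp only [he, abs_sub_comm]
  have h1 : ∑ m ∈ Icc 1 N, ∑ n ∈ Icc 1 N, B m * B n * e m n ≤
      ∑ m ∈ Icc 1 N, ∑ n ∈ Icc 1 N, B m ^ 2 * e m n := by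
    have h2 : ∑ m ∈ Icc 1 N, ∑ n ∈ Icc 1 N, B m ^ 2 * e m n =
        ∑ m ∈ Icc 1 N, ∑ n ∈ Icc 1 N, B n ^ 2 * e m n := by
      rw [sum_comm]
      simp only [hs]
    have h3 : ∑ m ∈ Icc 1 N, ∑ n ∈ Icc 1 N, 2 * (B m * B n * e m n) ≤
        ∑ m ∈ Icc 1 N, ∑ n ∈ Icc 1 N, (B m ^ 2 * e m n + B n ^ 2 * e m n) := by
      refine sum_le_sum fun m _ => sum_le_sum fun n _ => ?_
      have : 0 < e m n := Real.exp_pos _
      nlinarith [mul_nonneg (sq_nonneg (B m - B n)) this.le]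
    simp only [sum_add_distrib, ← mul_sum] at h2 h3 ⊢
    linarith
  refine (mul_le_mul_of_nonneg_left h1 hT.le).trans ?_
  rw [mul_sum, mul_sum]
  refine sum_le_sum fun m hm => ?_
  rw [← mul_sum, mul_left_comm, mul_comm (T + 2 * N)]
  exact mul_le_mul_of_nonneg_left (row_le hT hm) (sq_nonneg _)

end CauchyAux

open CauchyAux FourierAux

theorem cauchy : S_Cauchy := by
  intro T θ hT
  have hi : Integrable fun v : ℝ => ((Real.exp (-(T * |v|)) : ℝ) : ℂ) := by
    simpa [ex_zero] using (ft_exp hT 0).1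
  have hft : ft (fun v : ℝ => ((Real.exp (-(T * |v|)) : ℝ) : ℂ)) =
      fun ξ => ((2 / T * cw T ξ : ℝ) : ℂ) := funext fun ξ => (ft_exp hT ξ).2
  have h := inversion (by fun_prop) hi
    (hft ▸ ((integrable_cw hT).const_mul (2 / T)).ofReal) (-θ)
  rw [hft, abs_neg] at h
  simp only [Complex.ofReal_mul, mul_assoc, integral_const_mul, mul_neg] at h
  have h3 : (T : ℂ) ≠ 0 := by exact_mod_cast hT.ne'
  have h4 : ((2 / T : ℝ) : ℂ) ≠ 0 := by exact_mod_cast (by positivity : 2 / T ≠ 0)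
  refine mul_left_cancel₀ h4 ?_
  rw [h, Complex.ofReal_mul, Complex.ofReal_mul, Complex.ofReal_div]
  push_cast
  field_simp

theorem kernel : S_Kernel := by
  intro ι s b n N T hT _ hn
  set B : ℕ → ℝ := fun m => ∑ i ∈ s with n i = m, b i with hB
  have key : ∀ G : ℕ → ℝ, ∑ i ∈ s, b i * G (n i) = ∑ m ∈ Icc 1 N, B m * G m := fun G => by
    rw [← sum_fiberwise_of_maps_to (s := s) (t := Icc 1 N) (g := n)
      fun i hi => mem_Icc.2 (hn i hi)]
    refine sum_congr rfl fun m _ => ?_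
    rw [hB, sum_mul]
    exact sum_congr rfl fun i hi => by rw [(mem_filter.1 hi).2]
  have key2 : ∀ F : ℕ → ℕ → ℝ, ∑ i ∈ s, ∑ j ∈ s, b i * b j * F (n i) (n j) =
      ∑ m ∈ Icc 1 N, ∑ m' ∈ Icc 1 N, B m * B m' * F m m' := fun F => by
    simp only [mul_assoc, ← mul_sum]
    simp only [key]
    exact key fun m => ∑ m' ∈ Icc 1 N, B m' * F m m'
  have h1 := key2 fun m m' => Real.exp (-(T * |Real.log m - Real.log m'|))
  have h2 := key2 fun m m' => if m = m' then 1 else 0
  simp only [mul_ite, mul_one, mul_zero] at h2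
  rw [h1, h2]
  refine (schur hT N B).trans_eq ?_
  congr 1
  refine sum_congr rfl fun m hm => ?_
  rw [sum_ite_eq, if_pos hm, sq]

theorem mvt : S_MVT := by
  intro a N T hT
  have hint : ∀ θ : ℝ, Integrable fun t : ℝ => (cw T t : ℂ) * ex (-(t * θ)) := fun θ =>
    (integrable_cw hT).ofReal.mul_bdd (c := 1)
      (continuous_ex.comp (by fun_prop)).aestronglyMeasurable
      (Filter.Eventually.of_forall fun t => (norm_ex _).le)
  have h1 : ∀ t : ℝ, ((cw T t * ‖∑ n ∈ Icc 1 N, a n * nit t n‖ ^ 2 : ℝ) : ℂ) =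
      ∑ m ∈ Icc 1 N, ∑ n ∈ Icc 1 N, a m * (starRingEnd ℂ) (a n) *
        ((cw T t : ℂ) * ex (-(t * (Real.log m - Real.log n)))) := fun t => by
    rw [Complex.ofReal_mul, Complex.ofReal_pow, ← Complex.mul_conj', map_sum, sum_mul_sum, mul_sum]
    refine sum_congr rfl fun m _ => ?_
    rw [mul_sum]
    refine sum_congr rfl fun n _ => ?_
    rw [map_mul, nit, nit, conj_ex, show -(t * (Real.log m - Real.log n)) =
      -(t * Real.log m) + - -(t * Real.log n) by ring, ex_add]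
    ring
  have h2 : ((∫ t : ℝ, cw T t * ‖∑ n ∈ Icc 1 N, a n * nit t n‖ ^ 2 : ℝ) : ℂ) =
      ∑ m ∈ Icc 1 N, ∑ n ∈ Icc 1 N, a m * (starRingEnd ℂ) (a n) *
        ((Real.pi * T * Real.exp (-(T * |Real.log m - Real.log n|)) : ℝ) : ℂ) := by
    rw [← integral_complex_ofReal]
    simp only [h1]
    rw [integral_finsetSum _ fun m _ =>
      integrable_finsetSum _ fun n _ => (hint _).const_mul _]
    refine sum_congr rfl fun m _ => ?_
    rw [integral_finsetSum _ fun n _ => (hint _).const_mul _]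
    refine sum_congr rfl fun n _ => ?_
    rw [integral_const_mul, cauchy T _ hT]
  have h3 := schur hT N fun n => ‖a n‖
  calc ∫ t : ℝ, cw T t * ‖∑ n ∈ Icc 1 N, a n * nit t n‖ ^ 2
      ≤ ‖((∫ t : ℝ, cw T t * ‖∑ n ∈ Icc 1 N, a n * nit t n‖ ^ 2 : ℝ) : ℂ)‖ := by
        rw [Complex.norm_real]
        exact le_abs_self _
    _ ≤ ∑ m ∈ Icc 1 N, ∑ n ∈ Icc 1 N, Real.pi * (T * (‖a m‖ * ‖a n‖ *
          Real.exp (-(T * |Real.log m - Real.log n|)))) := by
        rw [h2]
        refine (norm_sum_le _ _).trans (sum_le_sum fun m _ => ?_)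
        refine (norm_sum_le _ _).trans (sum_le_sum fun n _ => le_of_eq ?_)
        rw [norm_mul, norm_mul, Complex.norm_conj, Complex.norm_real,
          Real.norm_of_nonneg (by positivity)]
        ring
    _ ≤ _ := by
        simp only [← mul_sum] at h3 ⊢
        rw [mul_assoc]
        exact mul_le_mul_of_nonneg_left h3 Real.pi_pos.le

end Pool.Agent.P.MP_a14ce1_nt.Ch
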