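import Pool.Agent.P.MP_a14ce1_nt.Ch.Defs

open Finset MeasureTheory

namespace Pool.Agent.P.MP_a14ce1_nt.Ch

namespace Reduce

/-- one-sided exponential kernel -/
noncomputable def kk (T u y : ℝ) : ℝ := if u < y then T * Real.exp (-(T * (y - u))) else 0

variable {T : ℝ}

lemma kk_nonneg (hT : 0 < T) (u y : ℝ) : 0 ≤ kk T u y := by
  unfold kk
  split_ifs <;> positivity

lemma kk_eq (T u : ℝ) : kk T u =
    (Set.Ioi u).indicator fun y => T * Real.exp (T * u) * Real.exp (-T * y) := by
  funext y
  unfold kk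
  by_cases h : u < y
  · rw [if_pos h, Set.indicator_of_mem (show y ∈ Set.Ioi u from h), mul_assoc, ← Real.exp_add]
    congr 2
    ring
  · rw [if_neg h, Set.indicator_of_notMem (show y ∉ Set.Ioi u from h)]

lemma int_kk (hT : 0 < T) (u : ℝ) : Integrable (kk T u) := by
  rw [kk_eq, integrable_indicator_iff measurableSet_Ioi]
  exact (integrableOn_exp_mul_Ioi (by linarith) u).const_mul _

lemma kk_mul_eq (T : ℝ) {u v : ℝ} (h : u ≤ v) : (fun y => kk T u y * kk T v y) =
    (Set.Ioi v).indicator fun y => T ^ 2 * Real.exp (T * (u + v)) * Real.exp (-(2 * T) * y) := by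
  funext y
  unfold kk
  by_cases h' : v < y
  · rw [if_pos h', if_pos (lt_of_le_of_lt h h'),
      Set.indicator_of_mem (show y ∈ Set.Ioi v from h'), mul_assoc (T ^ 2), ← Real.exp_add,
      mul_mul_mul_comm, ← Real.exp_add, sq]
    congr 2
    ring
  · rw [if_neg h', Set.indicator_of_notMem (show y ∉ Set.Ioi v from h'), mul_zero]

lemma kk_mul_le (hT : 0 < T) {u v : ℝ} (h : u ≤ v) :
    Integrable (fun y => kk T u y * kk T v y) ∧
      ∫ y, kk T u y * kk T v y = T / 2 * Real.exp (-(T * |u - v|)) := by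
  rw [kk_mul_eq T h, integrable_indicator_iff measurableSet_Ioi,
    integral_indicator measurableSet_Ioi, integral_const_mul,
    integral_exp_mul_Ioi (by linarith) v, abs_of_nonpos (by linarith)]
  refine ⟨(integrableOn_exp_mul_Ioi (by linarith) v).const_mul _, ?_⟩
  rw [show -(T * -(u - v)) = T * (u + v) + -(2 * T) * v by ring, Real.exp_add]
  field_simp

lemma kk_mul (hT : 0 < T) (u v : ℝ) :
    Integrable (fun y => kk T u y * kk T v y) ∧
      ∫ y, kk T u y * kk T v y = T / 2 * Real.exp (-(T * |u - v|)) := by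
  rcases le_total u v with h | h
  · exact kk_mul_le hT h
  · simp_rw [mul_comm (kk T u _), abs_sub_comm u v]
    exact kk_mul_le hT h

lemma prim_kk (hT : 0 < T) (u y : ℝ) :
    ∫ s in u..y, kk T u s = (if u < y then 1 else 0) - kk T u y / T := by
  by_cases h : u < y
  · have h1 : ∫ s in u..y, kk T u s = ∫ s in u..y, T * Real.exp (-(T * (s - u))) := by
      rw [intervalIntegral.integral_of_le h.le, intervalIntegral.integral_of_le h.le]
      exact setIntegral_congr_fun measurableSet_Ioc fun s hs => if_pos hs.1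
    have h2 : ∀ s, HasDerivAt (fun s => -Real.exp (-(T * (s - u))))
        (T * Real.exp (-(T * (s - u)))) s := fun s => by
      have := (((hasDerivAt_id' s).sub_const u).const_mul T).fun_neg.exp.fun_neg
      exact this.congr_deriv (by ring)
    rw [h1, intervalIntegral.integral_eq_sub_of_hasDerivAt (fun s _ => h2 s)
      (Continuous.intervalIntegrable (by fun_prop) _ _), kk, if_pos h, if_pos h]
    field_simp
    simp
    ring
  · have h0 : ∫ s in Set.Ioc y u, kk T u s = 0 :=
      setIntegral_eq_zero_of_forall_eq_zero fun s hs => if_neg (not_lt.2 hs.2)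
    rw [intervalIntegral.integral_symm, intervalIntegral.integral_of_le (not_lt.1 h), h0, kk,
      if_neg h, if_neg h]
    simp

lemma ind_eq (hT : 0 < T) (u al be : ℝ) :
    ((if u < be then 1 else 0) - (if u < al then 1 else 0) : ℝ)
      = (∫ s in al..be, kk T u s) + (kk T u be - kk T u al) / T := by
  rw [← intervalIntegral.integral_interval_sub_left (a := u) (int_kk hT u).intervalIntegrable
    (int_kk hT u).intervalIntegrable, prim_kk hT, prim_kk hT]
  ring

/-- the smoothed sum in physical space -/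
noncomputable def AA (T : ℝ) (s : Finset ℕ) (a : ℕ → ℂ) (y : ℝ) : ℂ :=
  ∑ n ∈ s, a n * (kk T (Real.log n) y : ℂ)

lemma int_AA (hT : 0 < T) (s : Finset ℕ) (a : ℕ → ℂ) : Integrable (AA T s a) :=
  integrable_finsetSum _ fun _ _ => (int_kk hT _).ofReal.const_mul _

lemma sq_expand (s : Finset ℕ) (a b : ℕ → ℂ) :
    ((‖∑ n ∈ s, a n * b n‖ ^ 2 : ℝ) : ℂ) = ∑ n ∈ s, ∑ m ∈ s,
      a n * (starRingEnd ℂ) (a m) * (b n * (starRingEnd ℂ) (b m)) := by
  rw [← Complex.normSq_eq_norm_sq, ← Complex.mul_conj, map_sum, Finset.sum_mul_sum]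
  refine sum_congr rfl fun n _ => sum_congr rfl fun m _ => ?_
  rw [map_mul]
  ring

lemma parseval (hC : S_Cauchy) (hT : 0 < T) (s : Finset ℕ) (a : ℕ → ℂ) :
    Integrable (fun y => ‖AA T s a y‖ ^ 2) ∧
      2 * Real.pi * ∫ y, ‖AA T s a y‖ ^ 2 = ∫ t, cw T t * ‖∑ n ∈ s, a n * nit t n‖ ^ 2 := by
  have e1 : ∀ y, ((‖AA T s a y‖ ^ 2 : ℝ) : ℂ) = ∑ n ∈ s, ∑ m ∈ s,
      a n * (starRingEnd ℂ) (a m) * ((kk T (Real.log n) y * kk T (Real.log m) y : ℝ) : ℂ) := by
    intro y
    rw [AA, sq_expand]
    simp only [Complex.conj_ofReal, Complex.ofReal_mul]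
  have i1 : ∀ n m : ℕ, Integrable fun y => a n * (starRingEnd ℂ) (a m) *
      ((kk T (Real.log n) y * kk T (Real.log m) y : ℝ) : ℂ) :=
    fun n m => (kk_mul hT _ _).1.ofReal.const_mul _
  have e2 : ∀ t, ((cw T t * ‖∑ n ∈ s, a n * nit t n‖ ^ 2 : ℝ) : ℂ) = ∑ n ∈ s, ∑ m ∈ s,
      a n * (starRingEnd ℂ) (a m) * ((cw T t : ℂ) * ex (-(t * (Real.log n - Real.log m)))) := by
    intro t
    rw [Complex.ofReal_mul, sq_expand, mul_sum]
    refine sum_congr rfl fun n _ => ?_
    rw [mul_sum]
    refine sum_congr rfl fun m _ => ?_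
    rw [nit, nit, conj_ex, ← ex_add,
      show -(t * Real.log n) + - -(t * Real.log m) = -(t * (Real.log n - Real.log m)) by ring]
    ring
  have i2 : ∀ n m : ℕ, Integrable fun t => a n * (starRingEnd ℂ) (a m) *
      ((cw T t : ℂ) * ex (-(t * (Real.log n - Real.log m)))) := fun n m =>
    ((integrable_cw hT).ofReal.mul_bdd (c := 1)
      (continuous_ex.comp (by fun_prop)).aestronglyMeasurable
      (Filter.Eventually.of_forall fun t => (norm_ex _).le)).const_mul _
  constructor
  · have : Integrable fun y => ((‖AA T s a y‖ ^ 2 : ℝ) : ℂ) := by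
      simp_rw [e1]
      exact integrable_finsetSum _ fun n _ => integrable_finsetSum _ fun m _ => i1 n m
    simpa using this.norm
  · apply Complex.ofReal_injective
    rw [Complex.ofReal_mul, ← integral_complex_ofReal, ← integral_complex_ofReal]
    simp_rw [e1, e2]
    rw [integral_finsetSum _ fun n _ => integrable_finsetSum _ fun m _ => i1 n m,
      integral_finsetSum _ fun n _ => integrable_finsetSum _ fun m _ => i2 n m, mul_sum]
    refine sum_congr rfl fun n _ => ?_
    rw [integral_finsetSum _ fun m _ => i1 n m, integral_finsetSum _ fun m _ => i2 n m, mul_sum]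
    refine sum_congr rfl fun m _ => ?_
    rw [integral_const_mul, integral_const_mul, hC T _ hT, integral_complex_ofReal,
      (kk_mul hT _ _).2]
    push_cast
    ring

lemma cs_unit {g : ℝ → ℝ} (h1 : Integrable g) (h2 : Integrable fun y => g y ^ 2) {al be : ℝ}
    (hab : al ≤ be) (hl : be - al ≤ 1) : ∫ y in al..be, g y ≤ √(∫ y, g y ^ 2) := by
  set s := ∫ y in al..be, g y with hs
  have h3 : ∫ y in al..be, 2 * s * g y ≤ ∫ y in al..be, (s ^ 2 + g y ^ 2) :=
    intervalIntegral.integral_mono_on hab (h1.const_mul _).intervalIntegrable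
      (intervalIntegrable_const.add h2.intervalIntegrable) fun y _ => by
        nlinarith [sq_nonneg (s - g y)]
  rw [intervalIntegral.integral_const_mul, ← hs,
    intervalIntegral.integral_add intervalIntegrable_const h2.intervalIntegrable,
    intervalIntegral.integral_const, smul_eq_mul, intervalIntegral.integral_of_le hab] at h3
  have h4 : ∫ y in Set.Ioc al be, g y ^ 2 ≤ ∫ y, g y ^ 2 :=
    setIntegral_le_integral h2 (Filter.Eventually.of_forall fun y => sq_nonneg _)
  exact Real.le_sqrt_of_sq_le (by nlinarith [sq_nonneg s])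

lemma tele (hT : 1 ≤ T) (N : ℕ) :
    ∑ n ∈ Ico 1 (N + 1), T * Real.exp (T * Real.log n) / n
      ≤ Real.exp (T * Real.log ((N + 1 : ℕ) : ℝ)) := by
  induction N with
  | zero => simp
  | succ N ih =>
    rw [sum_Ico_succ_top (by omega)]
    have h0 : (0 : ℝ) < ((N + 1 : ℕ) : ℝ) := by positivity
    set x : ℝ := ((N + 1 : ℕ) : ℝ) with hx
    have e : ((N + 1 + 1 : ℕ) : ℝ) = x * (1 + 1 / x) := by
      rw [Nat.cast_succ (N + 1), ← hx]
      field_simp
    have h1 := one_add_mul_self_le_rpow_one_add (s := 1 / x)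
      (le_trans (by norm_num) (one_div_pos.2 h0).le) hT
    rw [Real.rpow_def_of_pos (by positivity), mul_comm _ T] at h1
    rw [e, Real.log_mul h0.ne' (by positivity), mul_add, Real.exp_add]
    have h2 := mul_le_mul_of_nonneg_left h1 (Real.exp_pos (T * Real.log x)).le
    have h3 : Real.exp (T * Real.log x) * (1 + T * (1 / x))
        = Real.exp (T * Real.log x) + T * Real.exp (T * Real.log x) / x := by ring
    linarith

lemma norm_AA (hT : 1 ≤ T) {s : Finset ℕ} {a : ℕ → ℂ} (hs : ∀ n ∈ s, 1 ≤ n)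
    (ha : ∀ n ∈ s, ‖a n‖ ≤ 1 / n) {N : ℕ} (hN : 1 ≤ N) : ‖AA T s a (Real.log N)‖ ≤ 1 := by
  obtain ⟨N, rfl⟩ : ∃ M, N = M + 1 := ⟨N - 1, by omega⟩
  have hT0 : 0 < T := by linarith
  set L := Real.log ((N + 1 : ℕ) : ℝ) with hL
  calc _ ≤ ∑ n ∈ s, if n < N + 1 then
        T * Real.exp (T * Real.log n) / n * Real.exp (-(T * L)) else 0 := by
        refine norm_sum_le_of_le _ fun n hn => ?_
        have hn0 : (0 : ℝ) < n := by exact_mod_cast hs n hn
        rw [norm_mul, Complex.norm_real, Real.norm_of_nonneg (kk_nonneg hT0 _ _), kk]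
        have hiff : Real.log n < L ↔ n < N + 1 := by
          rw [hL, Real.log_lt_log_iff hn0 (by positivity), Nat.cast_lt]
        by_cases h : n < N + 1
        · rw [if_pos h, if_pos (hiff.2 h)]
          calc _ ≤ 1 / n * (T * Real.exp (-(T * (L - Real.log n)))) := by
                gcongr
                exact ha n hn
            _ = _ := by
                rw [show -(T * (L - Real.log n)) = T * Real.log n + -(T * L) by ring, Real.exp_add]
                ring
        · rw [if_neg h, if_neg (mt hiff.1 h), mul_zero]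
    _ ≤ ∑ n ∈ Ico 1 (N + 1), T * Real.exp (T * Real.log n) / n * Real.exp (-(T * L)) := by
        rw [← sum_filter]
        refine sum_le_sum_of_subset_of_nonneg (fun n hn => ?_) fun n _ _ => by positivity
        rw [mem_filter] at hn
        exact mem_Ico.2 ⟨hs n hn.1, hn.2⟩
    _ ≤ Real.exp (T * L) * Real.exp (-(T * L)) := by
        rw [← sum_mul]
        gcongr
        exact tele hT N
    _ = 1 := by rw [← Real.exp_add]; simp

lemma window (hT : 1 ≤ T) {a : ℕ → ℂ} {M x R : ℕ} (ha : ∀ n ∈ Icc 1 M, ‖a n‖ ≤ 1 / n)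
    (hx : 1 ≤ x) (hM : x + R ≤ M) :
    ‖∑ j ∈ range R, a (x + j)‖ ≤
      (∫ y in Real.log x..Real.log ((x + R : ℕ) : ℝ), ‖AA T (Icc 1 M) a y‖) + 2 / T := by
  have hT0 : 0 < T := by linarith
  have hx0 : (0 : ℝ) < x := by exact_mod_cast hx
  have hxR : (0 : ℝ) < ((x + R : ℕ) : ℝ) := by positivity
  have hs : ∀ n ∈ Icc 1 M, 1 ≤ n := fun n hn => (mem_Icc.1 hn).1
  have e1 : ∑ j ∈ range R, a (x + j) = ∑ n ∈ Icc 1 M, a n *
      (((if Real.log n < Real.log ((x + R : ℕ) : ℝ) then 1 else 0)
        - (if Real.log n < Real.log x then 1 else 0) : ℝ) : ℂ) := by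
    have e0 := sum_Ico_eq_sum_range a x (x + R)
    rw [Nat.add_sub_cancel_left] at e0
    have e3 : Ico x (x + R) = (Icc 1 M).filter fun n => x ≤ n ∧ n < x + R := by
      ext n
      simp only [mem_Ico, mem_filter, mem_Icc]
      omega
    rw [← e0, e3, sum_filter]
    refine sum_congr rfl fun n hn => ?_
    have hn0 : (0 : ℝ) < n := by exact_mod_cast hs n hn
    simp only [Real.log_lt_log_iff hn0 hxR, Real.log_lt_log_iff hn0 hx0, Nat.cast_lt]
    by_cases h1 : n < x
    · rw [if_neg (by omega), if_pos (by omega), if_pos h1]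
      simp
    · by_cases h2 : n < x + R
      · rw [if_pos (by omega), if_pos h2, if_neg h1]
        simp
      · rw [if_neg (by omega), if_neg h2, if_neg h1]
        simp
  have e2 : ∑ j ∈ range R, a (x + j)
      = (∫ y in Real.log x..Real.log ((x + R : ℕ) : ℝ), AA T (Icc 1 M) a y)
        + (AA T (Icc 1 M) a (Real.log ((x + R : ℕ) : ℝ)) - AA T (Icc 1 M) a (Real.log x)) / T := by
    rw [e1]
    unfold AA
    rw [intervalIntegral.integral_finsetSum fun n _ =>
      ((int_kk hT0 _).ofReal.const_mul _).intervalIntegrable, ← sum_sub_distrib, sum_div,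
      ← sum_add_distrib]
    refine sum_congr rfl fun n _ => ?_
    rw [ind_eq hT0, intervalIntegral.integral_const_mul, intervalIntegral.integral_ofReal]
    push_cast
    ring
  rw [e2]
  refine (norm_add_le _ _).trans (add_le_add (intervalIntegral.norm_integral_le_integral_norm
    (Real.log_le_log hx0 (by push_cast; linarith [Nat.cast_nonneg (α := ℝ) R]))) ?_)
  rw [norm_div, Complex.norm_real, Real.norm_of_nonneg hT0.le]
  gcongr
  have h1 := norm_AA hT hs ha (N := x + R) (by omega)
  have h2 := norm_AA hT hs ha hx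
  exact (norm_sub_le _ _).trans (by linarith)

lemma swap_tele (g : ℕ → ℝ) (N R : ℕ) :
    ∑ x ∈ range N, (g (x + R) - g x) = ∑ j ∈ range R, (g (j + N) - g j) := by
  have h1 := sum_range_add g N R
  have h2 := sum_range_add g R N
  rw [add_comm R N] at h2
  simp_rw [sum_sub_distrib, add_comm _ R, add_comm _ N]
  linarith

end Reduce

open Reduce

theorem reduce (hC : S_Cauchy) : S_Reduce := by
  refine ⟨4, by norm_num, fun f X R h hf h1 hX hR h2 => ?_⟩
  have hX0 : (0 : ℝ) < X := by linarith
  have hh : 0 < h := by linarith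
  set T := X / h with hTdef
  have hT : 1 ≤ T := (one_le_div hh).2 hX
  have hT0 : 0 < T := by linarith
  set a : ℕ → ℂ := fun n => f n * ((psi (Real.log n - Real.log X) / n : ℝ) : ℂ) with hadef
  have ha : ∀ n ∈ Icc 1 (8 * X), ‖a n‖ ≤ 1 / n := fun n _ => by
    rw [hadef, norm_mul, Complex.norm_real,
      Real.norm_of_nonneg (div_nonneg (psi_nonneg _) (Nat.cast_nonneg _))]
    calc _ ≤ 1 * (1 / n : ℝ) := by
          gcongr
          exacts [div_nonneg (psi_nonneg _) (Nat.cast_nonneg _), hf n, psi_le_one _]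
      _ = _ := one_mul _
  obtain ⟨i2, hP⟩ := parseval hC hT0 (Icc 1 (8 * X)) a
  set I := ∫ t : ℝ, cw T t * ‖Fx f X t‖ ^ 2 with hI
  set A := AA T (Icc 1 (8 * X)) a with hA
  have hJ : ∫ y, ‖A y‖ ^ 2 ≤ I := by
    have h0 : 0 ≤ ∫ y, ‖A y‖ ^ 2 := integral_nonneg fun y => sq_nonneg _
    have h3 : I = 2 * Real.pi * ∫ y, ‖A y‖ ^ 2 := hP.symm
    nlinarith [Real.two_le_pi]
  have i1 : Integrable fun y => ‖A y‖ := (int_AA hT0 _ a).norm
  set g : ℕ → ℝ := fun n => ∫ y in (0 : ℝ)..Real.log ((X + n : ℕ) : ℝ), ‖A y‖ with hg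
  have hgs : ∀ n m : ℕ, g m - g n
      = ∫ y in Real.log ((X + n : ℕ) : ℝ)..Real.log ((X + m : ℕ) : ℝ), ‖A y‖ := fun n m =>
    intervalIntegral.integral_interval_sub_left i1.intervalIntegrable i1.intervalIntegrable
  have k1 : ∑ x ∈ range X, (g (x + R) - g x) ≤ R * √I := by
    rw [swap_tele]
    calc _ ≤ ∑ _j ∈ range R, √I := by
          refine sum_le_sum fun j _ => ?_
          have p1 : (0 : ℝ) < ((X + j : ℕ) : ℝ) := by positivity
          have p2 : (0 : ℝ) ≤ j := Nat.cast_nonneg j
          rw [hgs]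
          refine (cs_unit i1 i2 (Real.log_le_log p1 (by push_cast; linarith)) ?_).trans
            (Real.sqrt_le_sqrt hJ)
          rw [← Real.log_div (by positivity) p1.ne']
          refine (Real.log_le_sub_one_of_pos (by positivity)).trans ?_
          rw [sub_le_iff_le_add, div_le_iff₀ p1]
          push_cast
          linarith
      _ = _ := by simp
  have k2 : ∀ x ∈ range X, ‖∑ j ∈ range R, f (X + x + j)‖
      ≤ 2 * X * (g (x + R) - g x + 2 / T) + R * (R / X) := by
    intro x hx
    rw [mem_range] at hx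
    have hxX : (x : ℝ) ≤ X := by exact_mod_cast hx.le
    have hRX : (R : ℝ) ≤ X := by exact_mod_cast hR
    have p2 : (0 : ℝ) ≤ x := Nat.cast_nonneg x
    have e : ∑ j ∈ range R, f (X + x + j)
        = ((X + x : ℕ) : ℂ) * ∑ j ∈ range R, a (X + x + j) + ∑ j ∈ range R, j * a (X + x + j) := by
      rw [mul_sum, ← sum_add_distrib]
      refine sum_congr rfl fun j hj => ?_
      have hj' : (j : ℝ) ≤ R := by exact_mod_cast (mem_range.1 hj).le
      have p3 : (0 : ℝ) ≤ j := Nat.cast_nonneg j
      have p1 : (0 : ℝ) < ((X + x + j : ℕ) : ℝ) := by positivity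
      have hpsi : psi (Real.log ((X + x + j : ℕ) : ℝ) - Real.log X) = 1 := by
        refine psi_eq_one (sub_nonneg.2 (Real.log_le_log hX0 (by push_cast; linarith))) ?_
        rw [← Real.log_div p1.ne' hX0.ne']
        refine Real.log_le_log (by positivity) ?_
        rw [div_le_iff₀ hX0]
        push_cast
        linarith
      have p4 : ((X + x + j : ℕ) : ℂ) ≠ 0 := by exact_mod_cast p1.ne'
      simp only [hadef, hpsi]
      push_cast at p4 ⊢
      field_simp
    rw [e]
    refine (norm_add_le _ _).trans (add_le_add ?_ ?_)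
    · rw [norm_mul, Complex.norm_natCast, hgs, ← add_assoc]
      gcongr
      · push_cast
        linarith
      · exact window hT ha (by omega) (by omega)
    · calc _ ≤ ∑ _j ∈ range R, (R / X : ℝ) := by
            refine norm_sum_le_of_le _ fun j hj => ?_
            have hj0 := mem_range.1 hj
            have hj' : (j : ℝ) ≤ R := by exact_mod_cast hj0.le
            have p3 : (0 : ℝ) ≤ j := Nat.cast_nonneg j
            rw [norm_mul, Complex.norm_natCast, div_eq_mul_one_div]
            gcongr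
            refine (ha _ (mem_Icc.2 ⟨by omega, by omega⟩)).trans ?_
            gcongr
            linarith
        _ = _ := by simp
  rw [sum_Ico_eq_sum_range, show 2 * X - X = X by omega]
  refine (sum_le_sum k2).trans ?_
  rw [sum_add_distrib, ← mul_sum, sum_add_distrib, sum_const, sum_const, card_range, nsmul_eq_mul,
    nsmul_eq_mul]
  have e1 : (X : ℝ) * (2 / T) = 2 * h := by
    rw [hTdef]
    field_simp
  have e2 : (X : ℝ) * (R * (R / X)) = R ^ 2 := by field_simp
  have p : 0 ≤ (R : ℝ) * X * √I := by positivity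
  rw [e1, e2]
  nlinarith [mul_le_mul_of_nonneg_left k1 hX0.le, sq_nonneg (R : ℝ)]

end Pool.Agent.P.MP_a14ce1_nt.Ch
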