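import Pool.Agent.P.MP_a14ce1_nt.Ch.SmA

/-!
Cauchy averages of Dirichlet polynomials: the bound over primes and the moment bound.
-/

open Finset MeasureTheory

namespace Pool.Agent.P.MP_a14ce1_nt.Ch

namespace Sm

/-- primes in a multiplicative window around z -/
theorem window_le {C : ℝ} (hC : 0 < C)
    (h2 : ∀ y : ℝ, 1 ≤ y → |∑ p ∈ pr 0 y, Real.log p / p - Real.log y| ≤ C)
    (P : Finset ℕ) (hP : ∀ p ∈ P, p.Prime) (z r : ℝ) (hz : 0 ≤ z) (hr : 0 ≤ r) :
    ∑ q ∈ P.filter (fun q : ℕ => |z - Real.log q| < r), Real.log q / q ≤ 2 * r + 2 * C := by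
  have hnn : ∀ q : ℕ, 0 ≤ Real.log q / q := fun q =>
    div_nonneg (Real.log_natCast_nonneg q) (Nat.cast_nonneg q)
  have hup := (abs_le.1 (h2 (Real.exp (z + r)) (Real.one_le_exp (by linarith)))).2
  rw [Real.log_exp] at hup
  have hmem : ∀ q ∈ P.filter (fun q : ℕ => |z - Real.log q| < r),
      q ∈ pr 0 (Real.exp (z + r)) ∧ Real.exp (z - r) < q := by
    intro q hq
    rw [mem_filter] at hq
    have hq0 : (0 : ℝ) < q := by exact_mod_cast (hP q hq.1).pos
    have h := abs_lt.1 hq.2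
    refine ⟨(mem_pr le_rfl).2 ⟨hP q hq.1, hq0, ?_⟩, ?_⟩
    · rw [← Real.log_le_iff_le_exp hq0]; linarith
    · rw [← Real.lt_log_iff_exp_lt hq0]; linarith
  by_cases hzr : z ≤ r
  · calc _ ≤ ∑ q ∈ pr 0 (Real.exp (z + r)), Real.log q / q :=
          sum_le_sum_of_subset_of_nonneg (fun q hq => (hmem q hq).1) (fun q _ _ => hnn q)
      _ ≤ _ := by linarith
  · have hlo := (abs_le.1 (h2 (Real.exp (z - r)) (Real.one_le_exp (by linarith)))).1
    rw [Real.log_exp] at hlo
    have hsub : pr 0 (Real.exp (z - r)) ⊆ pr 0 (Real.exp (z + r)) := by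
      intro q hq
      rw [mem_pr le_rfl] at hq ⊢
      exact ⟨hq.1, hq.2.1, hq.2.2.trans (Real.exp_le_exp.2 (by linarith))⟩
    have hsd := sum_sdiff (f := fun q : ℕ => Real.log q / q) hsub
    calc _ ≤ ∑ q ∈ pr 0 (Real.exp (z + r)) \ pr 0 (Real.exp (z - r)), Real.log q / q := by
          refine sum_le_sum_of_subset_of_nonneg (fun q hq => ?_) (fun q _ _ => hnn q)
          rw [mem_sdiff]
          refine ⟨(hmem q hq).1, fun h => ?_⟩
          rw [mem_pr le_rfl] at h
          exact absurd (hmem q hq).2 (not_lt.2 h.2.2)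
      _ ≤ _ := by linarith

theorem sum_geom_lin (J : ℕ) : ∑ j ∈ range J, ((j : ℝ) + 1) / 2 ^ j ≤ 4 := by
  have h : ∀ J : ℕ, ∑ j ∈ range J, ((j : ℝ) + 1) / 2 ^ j = 4 - (2 * J + 4) / 2 ^ J := by
    intro J
    induction J with
    | zero => norm_num
    | succ J ih => rw [sum_range_succ, ih]; push_cast; field_simp; ring
  rw [h]
  have : (0 : ℝ) ≤ (2 * J + 4) / 2 ^ J := by positivity
  linarith

theorem exp_neg_le_sum (θ : ℝ) (hθ : 0 ≤ θ) (J : ℕ) (hJ : θ < J) :
    Real.exp (-θ) ≤ ∑ j ∈ range J, if θ < (j : ℝ) + 1 then 1 / (2 : ℝ) ^ j else 0 := by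
  have hj : ⌊θ⌋₊ ∈ range J := by
    rw [mem_range, Nat.floor_lt hθ]; exact hJ
  refine le_trans ?_ (single_le_sum
    (f := fun j : ℕ => if θ < (j : ℝ) + 1 then 1 / (2 : ℝ) ^ j else 0) (fun j _ => by
      split_ifs <;> positivity) hj)
  rw [if_pos (Nat.lt_floor_add_one θ)]
  have h1 : (2 : ℝ) ^ ⌊θ⌋₊ ≤ Real.exp θ := by
    calc (2 : ℝ) ^ ⌊θ⌋₊ ≤ Real.exp 1 ^ ⌊θ⌋₊ := by
          refine pow_le_pow_left₀ (by norm_num) ?_ _
          have := Real.add_one_le_exp (1 : ℝ); linarith
      _ = Real.exp (⌊θ⌋₊ : ℝ) := by rw [← Real.exp_nat_mul, mul_one]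
      _ ≤ Real.exp θ := Real.exp_le_exp.2 (Nat.floor_le hθ)
  rw [Real.exp_neg, ← one_div]
  exact one_div_le_one_div_of_le (by positivity) h1

theorem kernel_primes {C : ℝ} (hC : 0 < C)
    (h2 : ∀ y : ℝ, 1 ≤ y → |∑ p ∈ pr 0 y, Real.log p / p - Real.log y| ≤ C)
    (P : Finset ℕ) (hP : ∀ p ∈ P, p.Prime) (z : ℝ) (hz : 0 ≤ z) :
    ∑ q ∈ P, Real.log q / q * Real.exp (-|z - Real.log q|) ≤ 8 * (1 + C) := by
  obtain ⟨J, hJ⟩ := exists_nat_gt (∑ q ∈ P, |z - Real.log q|)
  have hJ' : ∀ q ∈ P, |z - Real.log q| < J := fun q hq =>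
    lt_of_le_of_lt (single_le_sum (f := fun q : ℕ => |z - Real.log q|)
      (fun q _ => abs_nonneg _) hq) hJ
  have hnn : ∀ q : ℕ, 0 ≤ Real.log q / q := fun q =>
    div_nonneg (Real.log_natCast_nonneg q) (Nat.cast_nonneg q)
  calc _ ≤ ∑ q ∈ P, Real.log q / q * ∑ j ∈ range J,
          if |z - Real.log q| < (j : ℝ) + 1 then 1 / (2 : ℝ) ^ j else 0 :=
        sum_le_sum fun q hq => mul_le_mul_of_nonneg_left
          (exp_neg_le_sum _ (abs_nonneg _) J (hJ' q hq)) (hnn q)
    _ = ∑ j ∈ range J, 1 / (2 : ℝ) ^ j *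
          ∑ q ∈ P.filter (fun q : ℕ => |z - Real.log q| < (j : ℝ) + 1), Real.log q / q := by
        simp_rw [mul_sum]
        rw [sum_comm]
        refine sum_congr rfl fun j _ => ?_
        rw [sum_filter]
        refine sum_congr rfl fun q _ => ?_
        split_ifs <;> ring
    _ ≤ ∑ j ∈ range J, (2 * (1 + C)) * (((j : ℝ) + 1) / 2 ^ j) := by
        refine sum_le_sum fun j _ => ?_
        have h := window_le hC h2 P hP z ((j : ℝ) + 1) hz (by positivity)
        have hj : (0 : ℝ) ≤ j := Nat.cast_nonneg j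
        calc _ ≤ 1 / (2 : ℝ) ^ j * (2 * (1 + C) * ((j : ℝ) + 1)) := by
              refine mul_le_mul_of_nonneg_left (h.trans ?_) (by positivity)
              nlinarith
          _ = _ := by ring
    _ ≤ _ := by
        rw [← mul_sum]
        have := sum_geom_lin J
        nlinarith

theorem om_eq (P : Finset ℕ) (n : ℕ) : om P n = ∑ p ∈ P, if p ∣ n then (1 : ℝ) else 0 := by
  unfold om
  rw [card_filter]; push_cast; rfl

theorem om_nonneg (P : Finset ℕ) (n : ℕ) : 0 ≤ om P n := Nat.cast_nonneg _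

/-- moments of the number of prime divisors, along multiples of a squarefree number -/
theorem om_moment (P : Finset ℕ) (hP : ∀ p ∈ P, p.Prime) (hrs : rs P ≤ 1) (N k : ℕ) :
    ∀ D ⊆ P, ∑ n ∈ (Ioc 0 N).filter (fun n => ∀ p ∈ D, p ∣ n), om P n ^ k ≤
      N / (pv D : ℝ) * ((D.card : ℝ) + k) ^ k := by
  induction k with
  | zero =>
    intro D hD
    simp only [pow_zero, sum_const, nsmul_eq_mul, mul_one]
    have h1 : (Ioc 0 N).filter (fun n => ∀ p ∈ D, p ∣ n) ⊆ (Ioc 0 N).filter (fun n => pv D ∣ n) := by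
      intro n hn
      rw [mem_filter] at hn ⊢
      refine ⟨hn.1, ?_⟩
      unfold pv
      exact Finset.prod_primes_dvd n (fun p hp => (hP p (hD hp)).prime) hn.2
    calc _ ≤ (((Ioc 0 N).filter (fun n => pv D ∣ n)).card : ℝ) := by
          exact_mod_cast card_le_card h1
      _ = ((N / pv D : ℕ) : ℝ) := by rw [Nat.Ioc_filter_dvd_card_eq_div]
      _ ≤ _ := Nat.cast_div_le
  | succ k ih =>
    intro D hD
    have hpv : (0 : ℝ) < pv D := by
      unfold pv
      exact_mod_cast prod_pos fun p hp => (hP p (hD hp)).pos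
    have e1 : ∑ n ∈ (Ioc 0 N).filter (fun n => ∀ p ∈ D, p ∣ n), om P n ^ (k + 1) =
        ∑ q ∈ P, ∑ n ∈ (Ioc 0 N).filter (fun n => ∀ p ∈ insert q D, p ∣ n), om P n ^ k := by
      have : ∀ n, om P n ^ (k + 1) = ∑ q ∈ P, if q ∣ n then om P n ^ k else 0 := by
        intro n
        rw [pow_succ, om_eq P n, mul_sum]
        refine sum_congr rfl fun q _ => ?_
        split_ifs <;> simp
      simp_rw [this]
      rw [sum_comm]
      refine sum_congr rfl fun q _ => ?_
      rw [← sum_filter, filter_filter]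
      refine sum_congr ?_ fun _ _ => rfl
      ext n
      simp only [mem_filter, mem_insert, forall_eq_or_imp]
      tauto
    rw [e1]
    set B : ℝ := N / (pv D : ℝ) * ((D.card : ℝ) + k + 1) ^ k with hB
    have hB0 : 0 ≤ B := by positivity
    have e2 : ∀ q ∈ P, ∑ n ∈ (Ioc 0 N).filter (fun n => ∀ p ∈ insert q D, p ∣ n), om P n ^ k ≤
        B * ((if q ∈ D then 1 else 0) + 1 / (q : ℝ)) := by
      intro q hq
      have h := ih (insert q D) (insert_subset hq hD)
      by_cases hqD : q ∈ D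
      · rw [insert_eq_of_mem hqD] at h ⊢
        rw [if_pos hqD]
        have h3 : ((D.card : ℝ) + k) ^ k ≤ ((D.card : ℝ) + k + 1) ^ k :=
          pow_le_pow_left₀ (by positivity) (by linarith) k
        have h4 : N / (pv D : ℝ) * ((D.card : ℝ) + k) ^ k ≤ B :=
          mul_le_mul_of_nonneg_left h3 (by positivity)
        have h5 : 0 ≤ B * (1 / (q : ℝ)) := by positivity
        nlinarith
      · rw [if_neg hqD, zero_add]
        refine h.trans (le_of_eq ?_)
        rw [card_insert_of_notMem hqD, hB]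
        have : (pv (insert q D) : ℝ) = q * pv D := by
          unfold pv; rw [prod_insert hqD]; push_cast; ring
        rw [this]
        have hq0 : (0 : ℝ) < q := by exact_mod_cast (hP q hq).pos
        push_cast
        rw [show (D.card : ℝ) + 1 + k = D.card + k + 1 by ring]
        field_simp
    refine (sum_le_sum e2).trans ?_
    rw [← mul_sum, sum_add_distrib]
    have e3 : ∑ q ∈ P, (if q ∈ D then (1 : ℝ) else 0) = D.card := by
      rw [← sum_filter, filter_mem_eq_inter, inter_eq_right.2 hD]; simp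
    rw [e3]
    have e4 : (D.card : ℝ) + ∑ q ∈ P, 1 / (q : ℝ) ≤ D.card + k + 1 := by
      have : ∑ q ∈ P, 1 / (q : ℝ) ≤ 1 := hrs
      have hk : (0 : ℝ) ≤ k := Nat.cast_nonneg k
      linarith
    calc _ ≤ B * ((D.card : ℝ) + k + 1) := mul_le_mul_of_nonneg_left e4 hB0
      _ = _ := by rw [hB]; push_cast; ring

theorem om_moment' (P : Finset ℕ) (hP : ∀ p ∈ P, p.Prime) (hrs : rs P ≤ 1) (N k : ℕ) :
    ∑ n ∈ Ioc 0 N, om P n ^ k ≤ N * ((k : ℝ) + 1) ^ k := by
  have h := om_moment P hP hrs N k ∅ (empty_subset _)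
  simp only [notMem_empty, false_imp_iff, implies_true, filter_true, card_empty, pv, prod_empty,
    Nat.cast_one, div_one, Nat.cast_zero, zero_add] at h
  refine h.trans (mul_le_mul_of_nonneg_left ?_ (Nat.cast_nonneg _))
  exact pow_le_pow_left₀ (Nat.cast_nonneg _) (by linarith) k

/-- the integer attached to a tuple of primes and a cofactor -/
def nn {l : ℕ} (i : (Fin l → ℕ) × ℕ) : ℕ := (∏ k, i.1 k) * i.2

theorem ex_sum {ι : Type*} (s : Finset ι) (θ : ι → ℝ) : ex (∑ i ∈ s, θ i) = ∏ i ∈ s, ex (θ i) := by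
  classical
  induction s using Finset.induction_on with
  | empty => simp [ex_zero]
  | insert i s hi ih => rw [sum_insert hi, prod_insert hi, ex_add, ih]

theorem fiber_le (P M : Finset ℕ) (hP : ∀ p ∈ P, p.Prime) (l n : ℕ) :
    ((((Fintype.piFinset fun _ : Fin l => P) ×ˢ M).filter (fun j => nn j = n)).card : ℝ) ≤
      om P n ^ l := by
  have h : (((Fintype.piFinset fun _ : Fin l => P) ×ˢ M).filter (fun j => nn j = n)).card ≤
      (Fintype.piFinset fun _ : Fin l => P.filter (fun p => p ∣ n)).card := by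
    refine card_le_card_of_injOn (fun j => j.1) ?_ ?_
    · intro j hj
      simp only [coe_filter, mem_product, Fintype.mem_piFinset, Set.mem_ofPred_eq] at hj
      simp only [Fintype.coe_piFinset, coe_filter, Set.mem_pi, Set.mem_univ, forall_true_left,
        Set.mem_ofPred_eq]
      intro k
      refine ⟨hj.1.1 k, ?_⟩
      rw [← hj.2]
      exact Dvd.dvd.mul_right (dvd_prod_of_mem _ (mem_univ k)) _
    · intro j hj j' hj' e
      simp only [coe_filter, mem_product, Fintype.mem_piFinset, Set.mem_ofPred_eq] at hj hj'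
      have e' : j.1 = j'.1 := e
      have h0 : 0 < ∏ k, j.1 k := prod_pos fun k _ => (hP _ (hj.1.1 k)).pos
      have h1 : (∏ k, j.1 k) * j.2 = (∏ k, j.1 k) * j'.2 := by
        have := hj.2.trans hj'.2.symm
        unfold nn at this
        rw [← e'] at this
        exact this
      exact Prod.ext e' (Nat.eq_of_mul_eq_mul_left h0 h1)
  rw [Fintype.card_piFinset] at h
  simp only [prod_const, card_univ, Fintype.card_fin] at h
  unfold om
  exact_mod_cast h

end Sm

open Sm

theorem smPrimes (hC : S_Cauchy) (h2 : S_M2) : S_SmPrimes := by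
  obtain ⟨C, hC0, h2⟩ := h2
  refine ⟨Real.pi * (8 * (1 + C)), by positivity, fun y P a hy hP ha t => ?_⟩
  have hly : 0 < Real.log y := Real.log_pos (by linarith)
  have h1 : sm P a t ≤ ∑ p ∈ P, ∑ q ∈ P, 1 / (p : ℝ) * (1 / (q : ℝ)) * kk p q := by
    calc sm P a t ≤ ‖(sm P a t : ℂ)‖ := by rw [Complex.norm_real]; exact le_abs_self _
      _ ≤ _ := by
        rw [sm_expand hC]
        refine (norm_sum_le _ _).trans (sum_le_sum fun p hp => ?_)
        refine (norm_sum_le _ _).trans (sum_le_sum fun q hq => ?_)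
        rw [norm_mul, norm_ex, mul_one, norm_mul, norm_mul, Complex.norm_conj, Complex.norm_real,
          Real.norm_eq_abs, abs_of_nonneg (kk_nonneg _ _)]
        refine mul_le_mul_of_nonneg_right ?_ (kk_nonneg _ _)
        exact mul_le_mul (ha p hp) (ha q hq) (norm_nonneg _) (by positivity)
  refine h1.trans ?_
  have h3 : ∀ p ∈ P, ∑ q ∈ P, 1 / (p : ℝ) * (1 / (q : ℝ)) * kk p q ≤
      1 / (p : ℝ) * (Real.pi * (8 * (1 + C)) / Real.log y) := by
    intro p hp
    have hk := kernel_primes hC0 h2 P (fun q hq => (hP q hq).1) (Real.log p)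
      (Real.log_natCast_nonneg p)
    calc _ ≤ ∑ q ∈ P, 1 / (p : ℝ) * (Real.pi / Real.log y *
            (Real.log q / q * Real.exp (-|Real.log p - Real.log q|))) := by
          refine sum_le_sum fun q hq => ?_
          rw [mul_assoc]
          refine mul_le_mul_of_nonneg_left ?_ (by positivity)
          unfold kk
          have hq1 : Real.log y ≤ Real.log q := Real.log_le_log (by linarith) (hP q hq).2.le
          have hq2 : 1 ≤ Real.log q / Real.log y := (one_le_div hly).2 hq1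
          have hq3 : 0 ≤ 1 / (q : ℝ) * (Real.pi * Real.exp (-|Real.log p - Real.log q|)) := by
            positivity
          calc _ ≤ 1 / (q : ℝ) * (Real.pi * Real.exp (-|Real.log p - Real.log q|)) *
                (Real.log q / Real.log y) := le_mul_of_one_le_right hq3 hq2
            _ = _ := by ring
      _ = 1 / (p : ℝ) * (Real.pi / Real.log y *
            ∑ q ∈ P, Real.log q / q * Real.exp (-|Real.log p - Real.log q|)) := by
          rw [mul_sum, mul_sum]
      _ ≤ 1 / (p : ℝ) * (Real.pi / Real.log y * (8 * (1 + C))) := by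
          refine mul_le_mul_of_nonneg_left ?_ (by positivity)
          exact mul_le_mul_of_nonneg_left hk (by positivity)
      _ = _ := by ring
  refine (sum_le_sum h3).trans (le_of_eq ?_)
  rw [← sum_mul]
  unfold rs
  ring

theorem moment (hC : S_Cauchy) (hK : S_Kernel) : S_Moment := by
  intro T y P M a b M1 M2 l hT hy hP ha hM1 hM hb
  set s : Finset ((Fin l → ℕ) × ℕ) := (Fintype.piFinset fun _ : Fin l => P) ×ˢ M with hs
  set N : ℕ := (2 * y) ^ l * M2 with hN
  have hy0 : (0 : ℝ) < y := by exact_mod_cast hy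
  have hmem : ∀ i ∈ s, (∀ k, i.1 k ∈ P) ∧ i.2 ∈ M := by
    intro i hi
    rw [hs, mem_product, Fintype.mem_piFinset] at hi
    exact hi
  have hm0 : ∀ m ∈ M, 0 < m := fun m hm => by
    have : (0 : ℝ) < m := hM1.trans_le (hM m hm).1
    exact_mod_cast this
  have hnlo : ∀ i ∈ s, (y : ℝ) ^ l * M1 ≤ nn i := by
    intro i hi
    unfold nn
    push_cast
    refine mul_le_mul ?_ (hM _ (hmem i hi).2).1 hM1.le (by positivity)
    calc (y : ℝ) ^ l = ∏ _k : Fin l, (y : ℝ) := by simp
      _ ≤ _ := prod_le_prod (fun _ _ => hy0.le) fun k _ => by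
          exact_mod_cast (hP _ ((hmem i hi).1 k)).2.1
  have hn : ∀ i ∈ s, 1 ≤ nn i ∧ nn i ≤ N := by
    intro i hi
    constructor
    · have : (0 : ℝ) < nn i := lt_of_lt_of_le (by positivity) (hnlo i hi)
      exact_mod_cast this
    · unfold nn
      refine Nat.mul_le_mul ?_ (hM _ (hmem i hi).2).2
      calc ∏ k, i.1 k ≤ ∏ _k : Fin l, (2 * y) :=
            prod_le_prod' fun k _ => (hP _ ((hmem i hi).1 k)).2.2.le
        _ = _ := by simp
  have hlog : ∀ i ∈ s, Real.log (nn i) = ∑ k, Real.log (i.1 k) + Real.log i.2 := by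
    intro i hi
    unfold nn
    have h1 : ∀ k, (i.1 k : ℝ) ≠ 0 := fun k => by
      exact_mod_cast (hP _ ((hmem i hi).1 k)).1.ne_zero
    have h2 : (i.2 : ℝ) ≠ 0 := by exact_mod_cast (hm0 _ (hmem i hi).2).ne'
    push_cast
    rw [Real.log_mul (prod_ne_zero_iff.2 fun k _ => h1 k) h2, Real.log_prod (fun k _ => h1 k)]
  let c : (Fin l → ℕ) × ℕ → (Fin l → ℕ) × ℕ → ℂ := fun i j =>
    (∏ k, a (i.1 k) * (starRingEnd ℂ) (a (j.1 k)) * (kk (i.1 k) (j.1 k) : ℂ)) *
      (b i.2 * (starRingEnd ℂ) (b j.2) * (kk i.2 j.2 : ℂ))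
  have hF : ∀ t, (((sm P a t) ^ l * sm M b t : ℝ) : ℂ) =
      ∑ i ∈ s, ∑ j ∈ s, c i j * ex (-(t * (Real.log (nn i) - Real.log (nn j)))) := by
    intro t
    have e1 : (sm P a t : ℂ) ^ l = ∑ f ∈ Fintype.piFinset fun _ : Fin l => P,
        ∑ g ∈ Fintype.piFinset fun _ : Fin l => P,
          ∏ k, (a (f k) * (starRingEnd ℂ) (a (g k)) * (kk (f k) (g k) : ℂ)) *
            ex (-(t * (Real.log (f k) - Real.log (g k)))) := by
      calc (sm P a t : ℂ) ^ l = ∏ _k : Fin l, (sm P a t : ℂ) := by simp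
        _ = _ := by
          rw [sm_expand hC, prod_univ_sum]
          refine sum_congr rfl fun f _ => ?_
          rw [prod_univ_sum]
    push_cast
    rw [e1, sm_expand hC M, sum_mul_sum, hs, sum_product]
    refine sum_congr rfl fun f hf => sum_congr rfl fun m hm => ?_
    rw [sum_mul_sum, sum_product]
    refine sum_congr rfl fun g hg => sum_congr rfl fun m' hm' => ?_
    have hi : (f, m) ∈ s := by rw [hs]; exact mem_product.2 ⟨hf, hm⟩
    have hj : (g, m') ∈ s := by rw [hs]; exact mem_product.2 ⟨hg, hm'⟩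
    rw [hlog _ hi, hlog _ hj, prod_mul_distrib, ← ex_sum]
    have e2 : ex (-(t * (∑ k, Real.log (f k) + Real.log m - (∑ k, Real.log (g k) + Real.log m')))) =
        ex (∑ k, -(t * (Real.log (f k) - Real.log (g k)))) *
          ex (-(t * (Real.log m - Real.log m'))) := by
      rw [← ex_add]
      congr 1
      rw [sum_neg_distrib, ← mul_sum, sum_sub_distrib]
      ring
    simp only [c]
    rw [e2]
    ring
  have hc : ∀ i ∈ s, ∀ j ∈ s, ‖c i j‖ ≤
      Real.pi ^ (l + 1) * (1 / (nn i : ℝ) * (1 / (nn j : ℝ))) := by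
    intro i hi j hj
    have h1 : ∀ (a : ℕ → ℂ) (p q : ℕ), ‖a p‖ ≤ 1 / (p : ℝ) → ‖a q‖ ≤ 1 / (q : ℝ) →
        ‖a p * (starRingEnd ℂ) (a q) * (kk p q : ℂ)‖ ≤ 1 / (p : ℝ) * (1 / (q : ℝ)) * Real.pi := by
      intro a p q hp hq
      rw [norm_mul, norm_mul, Complex.norm_conj, Complex.norm_real, Real.norm_eq_abs,
        abs_of_nonneg (kk_nonneg _ _)]
      exact mul_le_mul (mul_le_mul hp hq (norm_nonneg _) (by positivity)) (kk_le _ _)
        (kk_nonneg _ _) (by positivity)
    simp only [c]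
    rw [norm_mul, norm_prod]
    calc _ ≤ (∏ k, 1 / (i.1 k : ℝ) * (1 / (j.1 k : ℝ)) * Real.pi) *
          (1 / (i.2 : ℝ) * (1 / (j.2 : ℝ)) * Real.pi) := by
          refine mul_le_mul (prod_le_prod (fun _ _ => norm_nonneg _) fun k _ =>
            h1 a _ _ (ha _ ((hmem i hi).1 k)) (ha _ ((hmem j hj).1 k)))
            (h1 b _ _ (hb _ (hmem i hi).2) (hb _ (hmem j hj).2)) (norm_nonneg _) (by positivity)
      _ = _ := by
          unfold nn
          rw [prod_mul_distrib, prod_mul_distrib]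
          simp only [one_div, prod_inv_distrib, prod_const, card_univ, Fintype.card_fin]
          push_cast
          rw [mul_inv, mul_inv]
          ring
  have h1 := integral_expsum_le hC s c (fun i => Real.log (nn i)) (fun i => 1 / (nn i : ℝ))
    (Real.pi ^ (l + 1)) (fun t => (sm P a t) ^ l * sm M b t) hF hc hT
  have h2 := hK _ s (fun i => 1 / (nn i : ℝ)) nn N T hT (fun i _ => by positivity) hn
  have hrs : rs P ≤ 1 := by
    unfold rs
    have hsub : P ⊆ Ico y (2 * y) := fun p hp => mem_Ico.2 (hP p hp).2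
    calc ∑ p ∈ P, (1 : ℝ) / p ≤ ∑ _p ∈ P, (1 : ℝ) / y :=
          sum_le_sum fun p hp => one_div_le_one_div_of_le hy0 (by exact_mod_cast (hP p hp).2.1)
      _ = P.card / y := by simp [div_eq_mul_inv]
      _ ≤ 1 := by
          rw [div_le_one hy0]
          have := card_le_card hsub
          rw [Nat.card_Ico] at this
          exact_mod_cast (by omega : P.card ≤ y)
  have hW : (0 : ℝ) < (y : ℝ) ^ l * M1 := by positivity
  have h3 : ∑ i ∈ s, ∑ j ∈ s, (if nn i = nn j then 1 / (nn i : ℝ) * (1 / (nn j : ℝ)) else 0) ≤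
      N * (2 * l + 1) ^ (2 * l) / ((y : ℝ) ^ l * M1) ^ 2 := by
    calc _ ≤ ∑ i ∈ s, 1 / ((y : ℝ) ^ l * M1) ^ 2 * om P (nn i) ^ l := by
          refine sum_le_sum fun i hi => ?_
          calc _ ≤ ∑ j ∈ s, (if nn j = nn i then 1 / ((y : ℝ) ^ l * M1) ^ 2 else 0) := by
                refine sum_le_sum fun j hj => ?_
                by_cases h : nn i = nn j
                · rw [if_pos h, if_pos h.symm, sq, ← one_div_mul_one_div]
                  exact mul_le_mul (one_div_le_one_div_of_le hW (hnlo i hi))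
                    (one_div_le_one_div_of_le hW (hnlo j hj)) (by positivity) (by positivity)
                · rw [if_neg h, if_neg (fun h' => h h'.symm)]
            _ = 1 / ((y : ℝ) ^ l * M1) ^ 2 * ((s.filter (fun j => nn j = nn i)).card : ℝ) := by
                rw [← sum_filter, sum_const, nsmul_eq_mul, mul_comm]
            _ ≤ _ := mul_le_mul_of_nonneg_left
                (fiber_le P M (fun p hp => (hP p hp).1) l (nn i)) (by positivity)
      _ = 1 / ((y : ℝ) ^ l * M1) ^ 2 *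
            ∑ n ∈ Ioc 0 N, ∑ i ∈ s.filter (fun i => nn i = n), om P (nn i) ^ l := by
          rw [← mul_sum, sum_fiberwise_of_maps_to (fun i hi => mem_Ioc.2 (hn i hi))]
      _ ≤ 1 / ((y : ℝ) ^ l * M1) ^ 2 * ∑ n ∈ Ioc 0 N, om P n ^ (2 * l) := by
          refine mul_le_mul_of_nonneg_left (sum_le_sum fun n _ => ?_) (by positivity)
          calc _ = ∑ _i ∈ s.filter (fun i => nn i = n), om P n ^ l :=
                sum_congr rfl fun i hi => by rw [(mem_filter.1 hi).2]
            _ = ((s.filter (fun j => nn j = n)).card : ℝ) * om P n ^ l := by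
                rw [sum_const, nsmul_eq_mul]
            _ ≤ om P n ^ l * om P n ^ l := mul_le_mul_of_nonneg_right
                (fiber_le P M (fun p hp => (hP p hp).1) l n) (pow_nonneg (om_nonneg _ _) _)
            _ = _ := by rw [← pow_add, two_mul]
      _ ≤ 1 / ((y : ℝ) ^ l * M1) ^ 2 * (N * (((2 * l : ℕ) : ℝ) + 1) ^ (2 * l)) :=
          mul_le_mul_of_nonneg_left (om_moment' P (fun p hp => (hP p hp).1) hrs N (2 * l))
            (by positivity)
      _ = _ := by push_cast; ring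
  have hNR : (N : ℝ) = (2 * (y : ℝ)) ^ l * M2 := by rw [hN]; push_cast; ring
  calc _ ≤ _ := h1
    _ ≤ Real.pi ^ (l + 1) * Real.pi * ((T + 2 * N) *
          (N * (2 * l + 1) ^ (2 * l) / ((y : ℝ) ^ l * M1) ^ 2)) := by
        refine mul_le_mul_of_nonneg_left (h2.trans ?_) (by positivity)
        exact mul_le_mul_of_nonneg_left h3 (by positivity)
    _ = _ := by rw [hNR]; ring

end Pool.Agent.P.MP_a14ce1_nt.Ch
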