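import Pool.Agent.P.MP_a14ce1_nt.Ch.Defs

/-!
Discrete first derivative test and Weyl differencing with spaced shifts.
-/

open Finset

namespace Pool.Agent.P.MP_a14ce1_nt.Ch.VdC

theorem norm_ex_sub_one_le (d : ℝ) : ‖ex d - 1‖ ≤ |d| := by
  have h := Real.norm_exp_I_mul_ofReal_sub_one_le (x := d)
  unfold ex
  rw [mul_comm]
  simpa using h

theorem norm_ex_sub_le (a b : ℝ) : ‖ex a - ex b‖ ≤ |a - b| := by
  have h : ex a - ex b = ex b * (ex (a - b) - 1) := by
    rw [mul_sub, ← ex_add]; simp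
  rw [h, norm_mul, norm_ex, one_mul]
  exact norm_ex_sub_one_le _

theorem le_norm_ex_sub_one {d : ℝ} (hd : |d| ≤ 1 / 2) : |d| / 2 ≤ ‖ex d - 1‖ := by
  have hn : ‖(d : ℂ) * Complex.I‖ = |d| := by simp
  have h := Complex.norm_exp_sub_one_sub_id_le (x := (d : ℂ) * Complex.I) (by rw [hn]; linarith)
  rw [hn] at h
  have h2 : ‖(d : ℂ) * Complex.I‖ ≤ ‖ex d - 1‖ + ‖ex d - 1 - d * Complex.I‖ := by
    have : (d : ℂ) * Complex.I = (ex d - 1) - (ex d - 1 - d * Complex.I) := by ring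
    calc ‖(d : ℂ) * Complex.I‖ = ‖(ex d - 1) - (ex d - 1 - d * Complex.I)‖ := by rw [← this]
      _ ≤ _ := norm_sub_le _ _
  rw [hn] at h2
  have h3 : ‖ex d - 1 - d * Complex.I‖ ≤ |d| ^ 2 := h
  nlinarith [abs_nonneg d]

/-- first derivative test, variation form -/
theorem first_test (φ : ℕ → ℝ) (n : ℕ) (lam V : ℝ) (hlam : 0 < lam)
    (h1 : ∀ m ≤ n, lam ≤ |φ (m + 1) - φ m| ∧ |φ (m + 1) - φ m| ≤ 1 / 2)
    (h2 : ∀ m < n, |(φ (m + 2) - φ (m + 1)) - (φ (m + 1) - φ m)| ≤ V) :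
    ‖∑ m ∈ range n, ex (φ m)‖ ≤ 4 / lam + n * (4 * V / lam ^ 2) := by
  set w : ℕ → ℂ := fun m => 1 / (ex (φ (m + 1) - φ m) - 1) with hw
  have hlow : ∀ m ≤ n, lam / 2 ≤ ‖ex (φ (m + 1) - φ m) - 1‖ := fun m hm =>
    le_trans (by linarith [(h1 m hm).1]) (le_norm_ex_sub_one (h1 m hm).2)
  have hne : ∀ m ≤ n, ex (φ (m + 1) - φ m) - 1 ≠ 0 := fun m hm h => by
    have := hlow m hm
    rw [h, norm_zero] at this; linarith
  have hwb : ∀ m ≤ n, ‖w m‖ ≤ 2 / lam := fun m hm => by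
    simp only [hw, norm_div, norm_one]
    rw [div_le_div_iff₀ (lt_of_lt_of_le (by linarith) (hlow m hm)) hlam]
    linarith [hlow m hm]
  have hwd : ∀ m < n, ‖w m - w (m + 1)‖ ≤ 4 * V / lam ^ 2 := fun m hm => by
    have e : w m - w (m + 1) = (ex (φ (m + 2) - φ (m + 1)) - ex (φ (m + 1) - φ m)) * w m * w (m + 1) := by
      simp only [hw]
      have a1 := hne m hm.le
      have a2 := hne (m + 1) hm
      field_simp
      ring
    rw [e, norm_mul, norm_mul]
    have b1 := (norm_ex_sub_le (φ (m + 2) - φ (m + 1)) (φ (m + 1) - φ m)).trans (h2 m hm)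
    have b2 := hwb m hm.le
    have b3 := hwb (m + 1) hm
    have hV : 0 ≤ V := le_trans (abs_nonneg _) (h2 m hm)
    calc _ ≤ V * (2 / lam) * (2 / lam) := by gcongr
      _ = _ := by field_simp; ring
  have key : ∀ k ≤ n, ‖∑ m ∈ range k, ex (φ m) - ex (φ k) * w k‖ ≤ 2 / lam + k * (4 * V / lam ^ 2) := by
    intro k
    induction k with
    | zero =>
      intro _
      simp only [range_zero, sum_empty, zero_sub, norm_neg, norm_mul, norm_ex, one_mul]
      simpa using hwb 0 (Nat.zero_le _)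
    | succ k ih =>
      intro hk
      have ih' := ih (Nat.le_of_succ_le hk)
      have e : ∑ m ∈ range (k + 1), ex (φ m) - ex (φ (k + 1)) * w (k + 1) =
          (∑ m ∈ range k, ex (φ m) - ex (φ k) * w k) + ex (φ (k + 1)) * (w k - w (k + 1)) := by
        rw [sum_range_succ]
        have a1 := hne k (Nat.le_of_succ_le hk)
        have a2 : ex (φ (k + 1)) = ex (φ k) * ex (φ (k + 1) - φ k) := by
          rw [← ex_add]; congr 1; ring
        have a3 : ex (φ k) + ex (φ k) * w k = ex (φ (k + 1)) * w k := by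
          rw [a2]; simp only [hw]; field_simp; ring
        linear_combination a3
      rw [e]
      refine (norm_add_le _ _).trans ?_
      rw [norm_mul, norm_ex, one_mul]
      have := hwd k hk
      push_cast
      linarith
  have h := key n le_rfl
  have e : ∑ m ∈ range n, ex (φ m) = (∑ m ∈ range n, ex (φ m) - ex (φ n) * w n) + ex (φ n) * w n := by
    ring
  rw [e]
  refine (norm_add_le _ _).trans ?_
  rw [norm_mul, norm_ex, one_mul]
  have := hwb n le_rfl
  have e2 : 4 / lam = 2 / lam + 2 / lam := by ring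
  linarith

theorem shift_le (z : ℕ → ℂ) (hz : ∀ m, ‖z m‖ ≤ 1) (n s : ℕ) :
    ‖∑ m ∈ range n, z m - ∑ m ∈ range n, z (m + s)‖ ≤ 2 * s := by
  have h1 := Finset.sum_range_add z n s
  have h2 := Finset.sum_range_add z s n
  rw [add_comm s n, h1] at h2
  have e : ∑ m ∈ range n, z m - ∑ m ∈ range n, z (m + s) =
      ∑ m ∈ range s, z m - ∑ m ∈ range s, z (n + m) := by
    have : ∑ m ∈ range n, z (m + s) = ∑ m ∈ range n, z (s + m) :=
      sum_congr rfl fun m _ => by rw [add_comm]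
    rw [this]; linear_combination h2
  rw [e]
  refine (norm_sub_le _ _).trans ?_
  have b : ∀ f : ℕ → ℕ, ‖∑ m ∈ range s, z (f m)‖ ≤ s := fun f =>
    (norm_sum_le _ _).trans ((sum_le_sum fun m _ => hz (f m)).trans (by simp))
  have b1 := b (fun m => m)
  have b2 := b (fun m => n + m)
  linarith

/-- Weyl step with spaced shifts -/
theorem weyl_step (z : ℕ → ℂ) (hz : ∀ m, ‖z m‖ ≤ 1) (n l H : ℕ) (hl : 0 < l) (S : ℝ) (hS0 : 0 ≤ S)
    (hS : ∀ i ∈ range l, ∀ i' ∈ range l, i ≠ i' →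
      ‖∑ m ∈ range n, z (m + i * H) * (starRingEnd ℂ) (z (m + i' * H))‖ ≤ S) :
    ‖∑ m ∈ range n, z m‖ ≤ 2 * (l * H) + √(n * (n / l + S)) := by
  have hl' : (0 : ℝ) < l := by exact_mod_cast hl
  set Y : ℂ := ∑ m ∈ range n, ∑ i ∈ range l, z (m + i * H) with hY
  have hA : ‖(l : ℂ) * ∑ m ∈ range n, z m - Y‖ ≤ l * (2 * (l * H)) := by
    have e : (l : ℂ) * ∑ m ∈ range n, z m - Y =
        ∑ i ∈ range l, (∑ m ∈ range n, z m - ∑ m ∈ range n, z (m + i * H)) := by
      rw [sum_sub_distrib, hY, sum_comm]; simp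
    rw [e]
    refine (norm_sum_le _ _).trans ?_
    refine (sum_le_sum (g := fun _ => (2 * (l * H) : ℝ)) fun i hi => ?_).trans (by simp)
    refine (shift_le z hz n (i * H)).trans ?_
    have : (i : ℝ) ≤ l := by exact_mod_cast (mem_range.1 hi).le
    push_cast
    gcongr
  have hB : ‖Y‖ ^ 2 ≤ (l : ℝ) ^ 2 * (n * (n / l + S)) := by
    have c1 : ‖Y‖ ≤ ∑ m ∈ range n, ‖∑ i ∈ range l, z (m + i * H)‖ := norm_sum_le _ _
    have c2 := sq_sum_le_card_mul_sum_sq (s := range n) (f := fun m => ‖∑ i ∈ range l, z (m + i * H)‖)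
    rw [card_range] at c2
    have c3 : ((∑ m ∈ range n, ‖∑ i ∈ range l, z (m + i * H)‖ ^ 2 : ℝ) : ℂ) =
        ∑ i ∈ range l, ∑ i' ∈ range l, ∑ m ∈ range n,
          z (m + i * H) * (starRingEnd ℂ) (z (m + i' * H)) := by
      push_cast
      have : ∀ m, ((‖∑ i ∈ range l, z (m + i * H)‖ : ℂ)) ^ 2 =
          ∑ i ∈ range l, ∑ i' ∈ range l, z (m + i * H) * (starRingEnd ℂ) (z (m + i' * H)) := by
        intro m
        rw [← Complex.mul_conj', map_sum, sum_mul_sum]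
      simp_rw [this]
      rw [sum_comm]
      exact sum_congr rfl fun i _ => sum_comm
    have c4 : ∑ m ∈ range n, ‖∑ i ∈ range l, z (m + i * H)‖ ^ 2 ≤ l * (n + l * S) := by
      have d1 : ∑ m ∈ range n, ‖∑ i ∈ range l, z (m + i * H)‖ ^ 2 =
          ‖((∑ m ∈ range n, ‖∑ i ∈ range l, z (m + i * H)‖ ^ 2 : ℝ) : ℂ)‖ := by
        rw [Complex.norm_real, Real.norm_eq_abs, abs_of_nonneg (sum_nonneg fun _ _ => by positivity)]
      rw [d1, c3]
      refine (norm_sum_le _ _).trans ?_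
      refine (sum_le_sum (g := fun _ => (n + l * S : ℝ)) fun i hi => ?_).trans
        (by rw [sum_const, card_range, nsmul_eq_mul])
      refine (norm_sum_le _ _).trans ?_
      have d2 : ∀ i' ∈ range l, ‖∑ m ∈ range n, z (m + i * H) * (starRingEnd ℂ) (z (m + i' * H))‖ ≤
          (if i' = i then (n : ℝ) else 0) + S := by
        intro i' hi'
        by_cases h : i' = i
        · rw [if_pos h]
          refine (norm_sum_le _ _).trans ?_
          refine (sum_le_sum (g := fun _ => (1 : ℝ)) fun m _ => ?_).trans (by simp [hS0])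
          rw [norm_mul, RCLike.norm_conj]
          exact mul_le_one₀ (hz _) (norm_nonneg _) (hz _)
        · rw [if_neg h, zero_add]
          exact hS i hi i' hi' (Ne.symm h)
      refine (sum_le_sum d2).trans ?_
      rw [sum_add_distrib, sum_ite_eq' (range l) i, if_pos hi]
      simp
    calc ‖Y‖ ^ 2 ≤ (∑ m ∈ range n, ‖∑ i ∈ range l, z (m + i * H)‖) ^ 2 := by gcongr
      _ ≤ n * (l * (n + l * S)) := c2.trans (by gcongr)
      _ = _ := by field_simp
  have hC : ‖Y‖ ≤ l * √(n * (n / l + S)) := by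
    have := Real.le_sqrt_of_sq_le hB
    rwa [Real.sqrt_mul (by positivity), Real.sqrt_sq hl'.le] at this
  have hD : ‖(l : ℂ) * ∑ m ∈ range n, z m‖ ≤ l * (2 * (l * H)) + l * √(n * (n / l + S)) := by
    have e : (l : ℂ) * ∑ m ∈ range n, z m = ((l : ℂ) * ∑ m ∈ range n, z m - Y) + Y := by ring
    rw [e]
    exact (norm_add_le _ _).trans (add_le_add hA hC)
  rw [norm_mul, Complex.norm_natCast, ← mul_add] at hD
  exact le_of_mul_le_mul_left hD hl'

/-- a chain of successive derivatives on the half line -/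
def Fam (G : ℕ → ℝ → ℝ) : Prop := ∀ i x, 0 ≤ x → HasDerivAt (G i) (G (i + 1) x) x

theorem Fam.mvt_lt {G : ℕ → ℝ → ℝ} (hG : Fam G) (i : ℕ) {y z : ℝ} (hy : 0 ≤ y) (h : y < z) :
    ∃ ξ, y ≤ ξ ∧ ξ ≤ z ∧ G i z - G i y = (z - y) * G (i + 1) ξ := by
  obtain ⟨c, hc, e⟩ := exists_hasDerivAt_eq_slope (G i) (G (i + 1)) h
    (fun x hx => (hG i x (hy.trans hx.1)).continuousAt.continuousWithinAt)
    (fun x hx => hG i x (hy.trans hx.1.le))
  refine ⟨c, hc.1.le, hc.2.le, ?_⟩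
  have : z - y ≠ 0 := sub_ne_zero.2 h.ne'
  rw [e]; field_simp

theorem Fam.mvt {G : ℕ → ℝ → ℝ} (hG : Fam G) (i : ℕ) {y z R : ℝ} (hy : 0 ≤ y) (hy' : y ≤ R)
    (hz : 0 ≤ z) (hz' : z ≤ R) :
    ∃ ξ, 0 ≤ ξ ∧ ξ ≤ R ∧ |G i z - G i y| = |z - y| * |G (i + 1) ξ| := by
  rcases lt_trichotomy y z with h | h | h
  · obtain ⟨ξ, h1, h2, e⟩ := hG.mvt_lt i hy h
    exact ⟨ξ, hy.trans h1, h2.trans hz', by rw [e, abs_mul]⟩
  · subst h
    exact ⟨y, hy, hy', by simp⟩
  · obtain ⟨ξ, h1, h2, e⟩ := hG.mvt_lt i hz h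
    exact ⟨ξ, hz.trans h1, h2.trans hy', by rw [abs_sub_comm, e, abs_mul, abs_sub_comm]⟩

theorem Fam.diff {G : ℕ → ℝ → ℝ} (hG : Fam G) {s t : ℝ} (hs : 0 ≤ s) (ht : 0 ≤ t) :
    Fam (fun i x => G i (x + s) - G i (x + t)) := by
  intro i x hx
  exact ((hG i (x + s) (by linarith)).comp_add_const x s).sub
    ((hG i (x + t) (by linarith)).comp_add_const x t)

/-- two sided bound for the derivative of order j+1 and upper bound for the next one -/
def Bd (G : ℕ → ℝ → ℝ) (j : ℕ) (R lam A N : ℝ) : Prop :=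
  ∀ x, 0 ≤ x → x ≤ R → lam ≤ |G (j + 1) x| ∧ |G (j + 1) x| ≤ A * lam ∧ |G (j + 2) x| ≤ A * lam / N

theorem base (G : ℕ → ℝ → ℝ) (hG : Fam G) (n : ℕ) (lam A N : ℝ) (hlam : 0 < lam) (hA : 0 ≤ A)
    (hN : 0 < N) (hn : (n : ℝ) ≤ N) (hB : Bd G 0 (n + 1) lam A N) (h1 : A * lam ≤ 1 / 2) :
    ‖∑ m ∈ range n, ex (G 0 m)‖ ≤ (4 + 4 * A) / lam := by
  have h := first_test (fun m => G 0 m) n lam (A * lam / N) hlam ?_ ?_
  · refine h.trans ?_
    have : (n : ℝ) * (4 * (A * lam / N) / lam ^ 2) ≤ N * (4 * (A * lam / N) / lam ^ 2) := by gcongr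
    have e : N * (4 * (A * lam / N) / lam ^ 2) = 4 * A / lam := by field_simp
    rw [add_div]; linarith
  · intro m hm
    have hm' : (m : ℝ) ≤ n := by exact_mod_cast hm
    obtain ⟨ξ, a1, a2, e⟩ := hG.mvt 0 (y := m) (z := m + 1) (R := n + 1) (by positivity) (by linarith)
      (by positivity) (by linarith)
    have e' : |G 0 ((m + 1 : ℕ) : ℝ) - G 0 m| = |G 1 ξ| := by
      push_cast; rw [e]; simp
    obtain ⟨b1, b2, -⟩ := hB ξ a1 a2
    simp only [e']
    exact ⟨b1, b2.trans h1⟩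
  · intro m hm
    have hm' : (m : ℝ) + 1 ≤ n := by exact_mod_cast hm
    obtain ⟨ξ, a1, a2, e⟩ := (hG.diff (s := 1) (t := 0) zero_le_one le_rfl).mvt 0 (y := m) (z := m + 1)
      (R := n) (by positivity) (by linarith) (by positivity) hm'
    obtain ⟨ζ, c1, c2, e2⟩ := hG.mvt 1 (y := ξ + 0) (z := ξ + 1) (R := n + 1) (by linarith) (by linarith)
      (by linarith) (by linarith)
    obtain ⟨-, -, b3⟩ := hB ζ c1 c2
    simp only [zero_add] at e b3
    rw [e2] at e
    have e' : |G 0 ((m + 2 : ℕ) : ℝ) - G 0 ((m + 1 : ℕ) : ℝ) - (G 0 ((m + 1 : ℕ) : ℝ) - G 0 m)| = |G 2 ζ| := by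
      push_cast
      have : (m : ℝ) + 2 = m + 1 + 1 := by ring
      rw [this]
      simpa using e
    simp only [e']
    exact b3

theorem weyl (n l H : ℕ) (A N : ℝ) (hl : 0 < l) (hH : 0 < H) (hA : 0 ≤ A) (hN : 0 < N)
    (hn : (n : ℝ) ≤ N) (j : ℕ) : ∀ (G : ℕ → ℝ → ℝ) (lam δ : ℝ), Fam G → 0 < lam → 0 < δ → δ ≤ 1 →
    Bd G j (n + 1 + j * (l * H)) lam A N → A * lam * ((l : ℝ) * H) ^ j ≤ 1 / 2 →
    (4 + 4 * A) / (lam * (H : ℝ) ^ j) ≤ N * δ ^ 2 ^ j → (l : ℝ) * H ≤ N * δ ^ 2 ^ j →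
    1 / (l : ℝ) ≤ δ ^ 2 ^ j → ‖∑ m ∈ range n, ex (G 0 m)‖ ≤ 5 * N * δ := by
  have hl' : (0 : ℝ) < l := by exact_mod_cast hl
  have hH' : (0 : ℝ) < H := by exact_mod_cast hH
  induction j with
  | zero =>
    intro G lam δ hG hlam hδ _ hB h1 h2 _ _
    simp only [Nat.cast_zero, zero_mul, add_zero, pow_zero, mul_one, pow_one] at hB h1 h2
    have := base G hG n lam A N hlam hA hN hn hB h1
    nlinarith [mul_pos hN hδ]
  | succ j ih =>
    intro G lam δ hG hlam hδ hδ1 hB h1 h2 h3 h4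
    have hp : δ ^ 2 ^ (j + 1) = (δ ^ 2) ^ 2 ^ j := by rw [← pow_mul, pow_succ']
    have hδ2 : δ ^ 2 ≤ 1 := pow_le_one₀ hδ.le hδ1
    have hp2 : δ ^ 2 ^ (j + 1) ≤ δ ^ 2 := by
      rw [hp]; exact pow_le_of_le_one (by positivity) hδ2 (by positivity)
    have hp1 : δ ^ 2 ≤ δ := by nlinarith
    have hW := weyl_step (fun m => ex (G 0 m)) (fun m => (norm_ex _).le) n l H hl (5 * N * δ ^ 2)
      (by positivity) ?_
    · refine hW.trans ?_
      have b1 : (l : ℝ) * H ≤ N * δ := h3.trans (by gcongr; exact hp2.trans hp1)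
      have b2 : √(n * (n / l + 5 * N * δ ^ 2)) ≤ 3 * N * δ := by
        rw [Real.sqrt_le_left (by positivity)]
        have c1 : (n : ℝ) / l ≤ N * δ ^ 2 := by
          rw [div_eq_mul_one_div]
          gcongr
          exact h4.trans hp2
        calc (n : ℝ) * (n / l + 5 * N * δ ^ 2) ≤ N * (N * δ ^ 2 + 5 * N * δ ^ 2) := by gcongr
          _ ≤ _ := by nlinarith [sq_nonneg (N * δ)]
      linarith
    · intro i hi i' hi' hne
      have hi1 : (i : ℝ) ≤ l := by exact_mod_cast (mem_range.1 hi).le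
      have hi2 : (i' : ℝ) ≤ l := by exact_mod_cast (mem_range.1 hi').le
      have hs : (0 : ℝ) ≤ i * H := by positivity
      have ht : (0 : ℝ) ≤ i' * H := by positivity
      have hs' : (i : ℝ) * H ≤ l * H := by gcongr
      have ht' : (i' : ℝ) * H ≤ l * H := by gcongr
      set d : ℝ := |(i : ℝ) * H - i' * H| with hd
      have hd1 : (H : ℝ) ≤ d := by
        rw [hd, ← sub_mul, abs_mul, abs_of_pos hH']
        have : (1 : ℝ) ≤ |(i : ℝ) - i'| := by
          have : (1 : ℤ) ≤ |(i : ℤ) - i'| := Int.one_le_abs (sub_ne_zero.2 (by exact_mod_cast hne))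
          exact_mod_cast this
        nlinarith
      have hd2 : d ≤ l * H := by
        rw [hd, abs_le]; constructor <;> linarith
      have hd0 : 0 < d := hH'.trans_le hd1
      have key := ih (fun r x => G r (x + i * H) - G r (x + i' * H)) (d * lam) (δ ^ 2) (hG.diff hs ht)
        (by positivity) (by positivity) hδ2 ?_ ?_ ?_ (hp ▸ h3) (hp ▸ h4)
      · refine le_trans (le_of_eq ?_) key
        congr 1
        refine sum_congr rfl fun m _ => ?_
        rw [conj_ex, ← ex_add]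
        push_cast
        ring_nf
      · intro x hx hx'
        have r1 : x + i * H ≤ n + 1 + ((j + 1 : ℕ) : ℝ) * (l * H) := by push_cast; linarith
        have r2 : x + i' * H ≤ n + 1 + ((j + 1 : ℕ) : ℝ) * (l * H) := by push_cast; linarith
        have ed : |x + i * H - (x + i' * H)| = d := by rw [hd]; congr 1; ring
        obtain ⟨ξ, a1, a2, e⟩ := hG.mvt (j + 1) (y := x + i' * H) (z := x + i * H) (by linarith) r2
          (by linarith) r1
        obtain ⟨ζ, c1, c2, e2⟩ := hG.mvt (j + 2) (y := x + i' * H) (z := x + i * H) (by linarith) r2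
          (by linarith) r1
        rw [ed] at e e2
        obtain ⟨b1, b2, -⟩ := hB ξ a1 a2
        obtain ⟨-, -, b3⟩ := hB ζ c1 c2
        simp only [e, e2]
        refine ⟨by gcongr, ?_, ?_⟩
        · calc d * |G (j + 1 + 1) ξ| ≤ d * (A * lam) := by gcongr
            _ = _ := by ring
        · calc d * |G (j + 2 + 1) ζ| ≤ d * (A * lam / N) := by gcongr
            _ = _ := by ring
      · calc A * (d * lam) * ((l : ℝ) * H) ^ j ≤ A * (l * H * lam) * ((l : ℝ) * H) ^ j := by gcongr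
          _ = A * lam * ((l : ℝ) * H) ^ (j + 1) := by ring
          _ ≤ _ := h1
      · rw [← hp]
        refine le_trans ?_ h2
        have : lam * (H : ℝ) ^ (j + 1) ≤ d * lam * (H : ℝ) ^ j := by
          calc lam * (H : ℝ) ^ (j + 1) = H * lam * (H : ℝ) ^ j := by ring
            _ ≤ _ := by gcongr
        gcongr

end Pool.Agent.P.MP_a14ce1_nt.Ch.VdC
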