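import Pool.Agent.P.MP_a14ce1_nt.Ch.VdCA

/-!
The van der Corput bound for the sums of (m + beta) ^ (-i u).
-/

open Finset MeasureTheory

namespace Pool.Agent.P.MP_a14ce1_nt.Ch

namespace VdC

/-- the successive derivatives of  - u log (x + c) -/
noncomputable def LG (u c : ℝ) : ℕ → ℝ → ℝ
  | 0, x => -(u * Real.log (x + c))
  | (i + 1), x => -u * (-1) ^ i * (i.factorial : ℝ) * ((x + c) ^ (i + 1))⁻¹

theorem fam_LG (u c : ℝ) (hc : 0 < c) : Fam (LG u c) := by
  intro i x hx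
  have hxc : x + c ≠ 0 := by linarith
  have h0 : HasDerivAt (fun y : ℝ => y + c) 1 x := (hasDerivAt_id x).add_const c
  cases i with
  | zero =>
    have h := ((h0.log hxc).const_mul u).neg
    refine HasDerivAt.congr_deriv h ?_
    simp [LG]
  | succ i =>
    have h := ((h0.pow (i + 1)).inv (pow_ne_zero _ hxc)).const_mul (-u * (-1) ^ i * (i.factorial : ℝ))
    refine HasDerivAt.congr_deriv h ?_
    simp only [LG, Nat.factorial_succ, Pi.pow_apply, Nat.add_sub_cancel]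
    push_cast
    field_simp
    ring

theorem abs_LG (u c x : ℝ) (hxc : 0 < x + c) (i : ℕ) :
    |LG u c (i + 1) x| = |u| * i.factorial / (x + c) ^ (i + 1) := by
  simp only [LG, abs_mul, abs_neg, abs_pow, abs_one, one_pow, mul_one, abs_inv, Nat.abs_cast,
    abs_of_pos hxc]
  rw [div_eq_mul_inv]

theorem bd_LG (u c a R : ℝ) (j : ℕ) (ha : 0 < a) (hc : a ≤ c) (hR : R + c ≤ 6 * a) :
    Bd (LG u c) j R (|u| * j.factorial / (6 * a) ^ (j + 1)) ((j + 1) * 6 ^ (j + 1)) a := by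
  intro x hx hx'
  have h1 : a ≤ x + c := by linarith
  have h2 : x + c ≤ 6 * a := by linarith
  have h0 : 0 < x + c := by linarith
  rw [abs_LG u c x h0 j, abs_LG u c x h0 (j + 1)]
  refine ⟨by gcongr, ?_, ?_⟩
  · calc |u| * j.factorial / (x + c) ^ (j + 1) ≤ |u| * j.factorial / a ^ (j + 1) := by gcongr
      _ = 1 * 6 ^ (j + 1) * (|u| * j.factorial / (6 * a) ^ (j + 1)) := by
          rw [mul_pow]; field_simp
      _ ≤ _ := by gcongr; linarith [Nat.cast_nonneg (α := ℝ) j]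
  · calc |u| * (j + 1).factorial / (x + c) ^ (j + 1 + 1) ≤ |u| * (j + 1).factorial / a ^ (j + 1 + 1) := by
          gcongr
      _ = _ := by
          rw [mul_pow, Nat.factorial_succ]; push_cast; field_simp; ring

/-- the exponential sum bound on a dyadic block, large frequency -/
theorem large (k a n : ℕ) (u β s : ℝ) (ha : 1 ≤ a) (hn : n ≤ a) (hβ0 : 0 ≤ β) (hβ1 : β ≤ 1)
    (hsa : (s ^ 2 ^ (k + 1)) ^ (8 * (k + 1)) = a)
    (hu1 : (s ^ 2 ^ (k + 1)) ^ (4 * (k + 1)) ≤ |u|) (hu2 : |u| ≤ (a : ℝ) ^ k)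
    (hs1 : ((k + 1).factorial : ℝ) ≤ s) (hs2 : 144 * ((k : ℝ) + 1) ≤ s)
    (hs3 : 2 * ((((k + 1 : ℕ) : ℝ) + 1) * 6 ^ (k + 1 + 1)) * 4 ^ (k + 1) ≤ s)
    (hs4 : 4 + 4 * ((((k + 1 : ℕ) : ℝ) + 1) * 6 ^ (k + 1 + 1)) ≤ s) :
    ‖∑ m ∈ range n, ex (LG u (a + 1 + β) 0 m)‖ ≤ 720 * (a / s) := by
  set j := k + 1 with hj
  set A : ℝ := ((j : ℝ) + 1) * 6 ^ (j + 1) with hA
  set t : ℝ := s ^ 2 ^ j with ht
  have hk0 : (0 : ℝ) ≤ k := Nat.cast_nonneg k
  have hs144 : 144 ≤ s := by linarith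
  have hs0 : 0 < s := by linarith
  have hts : s ≤ t := le_self_pow₀ (by linarith) (by positivity)
  have ht1 : 1 ≤ t := by linarith
  have ht0 : 0 < t := by linarith
  have ha0 : (0 : ℝ) < a := by exact_mod_cast ha
  have ha1 : (1 : ℝ) ≤ a := by exact_mod_cast ha
  have hA0 : 0 ≤ A := by positivity
  have hu0 : 0 < |u| := lt_of_lt_of_le (by positivity) hu1
  have hf1 : (1 : ℝ) ≤ j.factorial := by exact_mod_cast j.factorial_pos
  set lam : ℝ := |u| * j.factorial / (6 * a) ^ (j + 1) with hlam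
  have hlam0 : 0 < lam := by positivity
  have hj0 : j ≠ 0 := Nat.succ_ne_zero k
  set y : ℝ := (1 / (lam * t ^ (6 * j))) ^ ((j : ℝ)⁻¹) with hy
  have hy0 : 0 < y := by positivity
  have hyj : y ^ j = 1 / (lam * t ^ (6 * j)) := Real.rpow_inv_natCast_pow (by positivity) hj0
  have hyj' : y ^ j * lam * t ^ (6 * j) = 1 := by rw [hyj]; field_simp
  have hy1 : 1 ≤ y := by
    have h1 : lam * t ^ (6 * j) ≤ 1 := by
      have e1 : lam ≤ j.factorial / (a : ℝ) ^ 2 := by
        calc lam ≤ (a : ℝ) ^ k * j.factorial / (1 * a) ^ (j + 1) := by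
              rw [hlam]; gcongr; norm_num
          _ = _ := by rw [hj]; field_simp; ring
      have e2 : (a : ℝ) ^ 2 = t ^ (6 * j) * t ^ (10 * j) := by rw [← hsa]; ring
      have e3 : t ≤ t ^ (10 * j) := le_self_pow₀ ht1 (by omega)
      calc lam * t ^ (6 * j) ≤ j.factorial / (a : ℝ) ^ 2 * t ^ (6 * j) := by gcongr
        _ = j.factorial / t ^ (10 * j) := by rw [e2]; field_simp
        _ ≤ 1 := by rw [div_le_one (by positivity)]; linarith
    have h2 : 1 ≤ y ^ j := by rw [hyj, le_div_iff₀ (by positivity)]; linarith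
    exact (one_le_pow_iff_of_nonneg hy0.le hj0).1 h2
  have hy2 : y * t ^ 2 ≤ 36 * a := by
    refine (pow_le_pow_iff_left₀ (by positivity) (by positivity) hj0).1 ?_
    have e1 : t ^ (4 * j) / (6 * a) ^ (j + 1) ≤ lam := by
      rw [hlam]; gcongr
      calc t ^ (4 * j) ≤ |u| := hu1
        _ = |u| * 1 := (mul_one _).symm
        _ ≤ _ := by gcongr
    have e2 : (y * t ^ 2) ^ j = 1 / (lam * t ^ (4 * j)) := by
      rw [mul_pow, hyj]; field_simp; ring
    have e3 : (6 : ℝ) ^ (j + 1) ≤ 36 ^ j := by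
      calc (6 : ℝ) ^ (j + 1) ≤ 6 ^ (2 * j) := pow_le_pow_right₀ (by norm_num) (by omega)
        _ = 36 ^ j := by rw [pow_mul]; norm_num
    have e4 : t ^ (4 * j) * t ^ (4 * j) = a := by rw [← hsa]; ring
    calc (y * t ^ 2) ^ j = 1 / (lam * t ^ (4 * j)) := e2
      _ ≤ 1 / (t ^ (4 * j) / (6 * a) ^ (j + 1) * t ^ (4 * j)) := by gcongr
      _ = (6 * a) ^ (j + 1) / (t ^ (4 * j) * t ^ (4 * j)) := by field_simp
      _ = 6 ^ (j + 1) * (a : ℝ) ^ j := by rw [e4, mul_pow]; field_simp; ring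
      _ ≤ 36 ^ j * (a : ℝ) ^ j := by gcongr
      _ = _ := by rw [mul_pow]
  set l : ℕ := ⌈t⌉₊ with hl
  set H : ℕ := ⌈y⌉₊ with hH
  have hl1 : t ≤ l := Nat.le_ceil t
  have hl2 : (l : ℝ) ≤ 2 * t := by have := Nat.ceil_lt_add_one ht0.le; linarith
  have hH1 : y ≤ H := Nat.le_ceil y
  have hH2 : (H : ℝ) ≤ 2 * y := by have := Nat.ceil_lt_add_one hy0.le; linarith
  have hl0 : 0 < l := Nat.ceil_pos.2 ht0
  have hH0 : 0 < H := Nat.ceil_pos.2 hy0
  have hlH : (l : ℝ) * H ≤ 4 * (t * y) := by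
    calc (l : ℝ) * H ≤ 2 * t * (2 * y) := by gcongr
      _ = _ := by ring
  have hlH2 : (l : ℝ) * H ≤ a * (144 / t) := by
    refine hlH.trans ?_
    rw [← mul_div_assoc, le_div_iff₀ ht0]
    nlinarith
  have hδ : 144 / t ≤ (144 / s) ^ 2 ^ j := by
    rw [div_pow, ← ht]
    gcongr
    exact le_self_pow₀ (by norm_num) (by positivity)
  have hn' : (n : ℝ) ≤ a := by exact_mod_cast hn
  have hW := weyl n l H A a hl0 hH0 hA0 ha0 hn' j (LG u (a + 1 + β)) lam (144 / s)
    (fam_LG u _ (by positivity)) hlam0 (by positivity) (by rw [div_le_one hs0]; exact hs144)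
    (bd_LG u _ a _ j ha0 (by linarith) ?_) ?_ ?_ (hlH2.trans (by gcongr)) ?_
  · refine hW.trans (le_of_eq ?_)
    ring
  · have e1 : (j : ℝ) * (l * H) ≤ a := by
      have : (j : ℝ) * (144 / t) ≤ 1 := by
        rw [← mul_div_assoc, div_le_one ht0, hj]; push_cast; linarith
      calc (j : ℝ) * (l * H) ≤ j * (a * (144 / t)) := by gcongr
        _ = a * (j * (144 / t)) := by ring
        _ ≤ a * 1 := by gcongr
        _ = a := mul_one _
    linarith
  · have e1 : t ≤ t ^ (5 * j) := le_self_pow₀ ht1 (by omega)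
    have e2 : lam * (4 * (t * y)) ^ j * t ^ (5 * j) = 4 ^ j := by
      calc lam * (4 * (t * y)) ^ j * t ^ (5 * j) = 4 ^ j * (y ^ j * lam * t ^ (6 * j)) := by ring
        _ = _ := by rw [hyj', mul_one]
    have e3 : lam * (4 * (t * y)) ^ j = 4 ^ j / t ^ (5 * j) := by
      rw [eq_div_iff (by positivity)]; exact e2
    calc A * lam * ((l : ℝ) * H) ^ j ≤ A * lam * (4 * (t * y)) ^ j := by gcongr
      _ = A * (4 ^ j / t ^ (5 * j)) := by rw [mul_assoc, e3]
      _ ≤ 1 / 2 := by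
        rw [← mul_div_assoc, div_le_div_iff₀ (by positivity) (by norm_num)]
        linarith
  · have e1 : 1 / t ^ (6 * j) ≤ lam * (H : ℝ) ^ j := by
      calc 1 / t ^ (6 * j) = lam * y ^ j := by rw [hyj]; field_simp
        _ ≤ _ := by gcongr
    have e2 : t ^ 2 ≤ t ^ (2 * j) := pow_le_pow_right₀ ht1 (by omega)
    have e3 : (a : ℝ) = t ^ (6 * j) * t ^ (2 * j) := by rw [← hsa]; ring
    calc (4 + 4 * A) / (lam * (H : ℝ) ^ j) ≤ t / (1 / t ^ (6 * j)) := by gcongr; linarith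
      _ = t ^ (6 * j) * t ^ 2 * (1 / t) := by field_simp
      _ ≤ t ^ (6 * j) * t ^ (2 * j) * (144 / t) := by gcongr; norm_num
      _ ≤ a * (144 / s) ^ 2 ^ j := by rw [← e3]; gcongr
  · calc 1 / (l : ℝ) ≤ 144 / t := by gcongr; norm_num
      _ ≤ _ := hδ

theorem contOn (u β : ℝ) (hβ : 0 ≤ β) :
    ContinuousOn (fun s : ℝ => nit u (s + β)) (Set.Ioi 0) := by
  unfold nit
  refine continuous_ex.comp_continuousOn ?_
  refine (continuousOn_const.mul (ContinuousOn.log (by fun_prop) fun s hs => ?_)).neg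
  have : 0 < s := hs
  linarith

theorem intInt (u β : ℝ) (hβ : 0 ≤ β) {a b : ℝ} (ha : 0 < a) (hb : 0 < b) :
    IntervalIntegrable (fun s : ℝ => nit u (s + β)) volume a b := by
  refine ((contOn u β hβ).mono fun s hs => ?_).intervalIntegrable
  exact lt_of_lt_of_le (lt_min ha hb) hs.1

/-- the error functional -/
noncomputable def Er (u β : ℝ) (M N : ℕ) : ℂ :=
  ∑ m ∈ Ioc M N, nit u (m + β) - ∫ s in (M : ℝ)..N, nit u (s + β)

theorem Er_add (u β : ℝ) (hβ : 0 ≤ β) {M K N : ℕ} (hM : 1 ≤ M) (h1 : M ≤ K) (h2 : K ≤ N) :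
    Er u β M N = Er u β M K + Er u β K N := by
  have a1 : (0 : ℝ) < M := by exact_mod_cast hM
  have a2 : (0 : ℝ) < K := by exact_mod_cast (hM.trans h1)
  have a3 : (0 : ℝ) < N := by exact_mod_cast (hM.trans (h1.trans h2))
  unfold Er
  rw [← sum_Ioc_consecutive _ h1 h2,
    ← intervalIntegral.integral_add_adjacent_intervals (intInt u β hβ a1 a2) (intInt u β hβ a2 a3)]
  ring

theorem Er_step (u β : ℝ) (hβ : 0 ≤ β) {b : ℕ} (hb : 1 ≤ b) : ‖Er u β b (b + 1)‖ ≤ |u| / b := by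
  have a1 : (0 : ℝ) < b := by exact_mod_cast hb
  unfold Er
  rw [Nat.Ioc_succ_singleton, sum_singleton]
  push_cast
  have e : nit u ((b : ℝ) + 1 + β) - ∫ s in (b : ℝ)..(b + 1), nit u (s + β) =
      ∫ s in (b : ℝ)..(b + 1), (nit u ((b : ℝ) + 1 + β) - nit u (s + β)) := by
    rw [intervalIntegral.integral_sub intervalIntegrable_const (intInt u β hβ a1 (by linarith))]
    simp
  rw [e]
  refine (intervalIntegral.norm_integral_le_of_norm_le_const (C := |u| / b) fun s hs => ?_).trans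
    (by simp)
  rw [Set.uIoc_of_le (by linarith)] at hs
  obtain ⟨h1, h2⟩ := hs
  have hs0 : 0 < s + β := by linarith
  refine (norm_ex_sub_le _ _).trans ?_
  have e1 : -(u * Real.log ((b : ℝ) + 1 + β)) - -(u * Real.log (s + β)) =
      -u * Real.log ((b + 1 + β) / (s + β)) := by
    rw [Real.log_div (by linarith) hs0.ne']; ring
  have h3 : 1 ≤ ((b : ℝ) + 1 + β) / (s + β) := by rw [le_div_iff₀ hs0]; linarith
  rw [e1, abs_mul, abs_neg, abs_of_nonneg (Real.log_nonneg h3), div_eq_mul_one_div |u|]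
  gcongr
  refine (Real.log_le_sub_one_of_pos (by linarith)).trans ?_
  rw [div_sub_one hs0.ne', div_le_div_iff₀ hs0 a1]
  nlinarith

theorem Er_small (u β : ℝ) (hβ : 0 ≤ β) {a : ℕ} (ha : 1 ≤ a) (n : ℕ) :
    ‖Er u β a (a + n)‖ ≤ n * (|u| / a) := by
  have a1 : (0 : ℝ) < a := by exact_mod_cast ha
  induction n with
  | zero => simp [Er]
  | succ n ih =>
    rw [← add_assoc, Er_add u β hβ ha (Nat.le_add_right a n) (Nat.le_succ _)]
    refine (norm_add_le _ _).trans ?_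
    have h := Er_step u β hβ (b := a + n) (by omega)
    have h2 : |u| / ((a + n : ℕ) : ℝ) ≤ |u| / a := by
      gcongr; exact Nat.le_add_right a n
    push_cast at h h2 ⊢
    linarith

theorem int_large (u β : ℝ) (hβ : 0 ≤ β) (hu : u ≠ 0) {a b : ℝ} (ha : 0 < a) (hab : a ≤ b) :
    ‖∫ s in a..b, nit u (s + β)‖ ≤ ((a + β) + (b + β)) / |u| := by
  have hw : |u| ≤ ‖(1 : ℂ) - u * Complex.I‖ := by
    have := Complex.abs_im_le_norm ((1 : ℂ) - u * Complex.I)
    simpa using this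
  have hu0 : 0 < |u| := abs_pos.2 hu
  have hw0 : (1 : ℂ) - u * Complex.I ≠ 0 := norm_pos_iff.1 (hu0.trans_le hw)
  have hd : ∀ s ∈ Set.uIcc a b, HasDerivAt
      (fun s : ℝ => ((s + β : ℝ) : ℂ) * nit u (s + β) / (1 - u * Complex.I)) (nit u (s + β)) s := by
    intro s hs
    rw [Set.uIcc_of_le hab] at hs
    have hs0 : s + β ≠ 0 := by linarith [hs.1]
    have h0 : HasDerivAt (fun y : ℝ => y + β) 1 s := (hasDerivAt_id s).add_const β
    have h1 := (((h0.log hs0).const_mul u).neg.ofReal_comp.mul_const Complex.I).cexp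
    have h2 := (h0.ofReal_comp.mul h1).div_const (1 - u * Complex.I)
    refine HasDerivAt.congr_deriv h2 ?_
    have hs0' : ((s : ℂ) + β) ≠ 0 := by exact_mod_cast hs0
    simp only [nit, ex, Pi.neg_apply]
    push_cast
    field_simp
    ring
  rw [intervalIntegral.integral_eq_sub_of_hasDerivAt hd (intInt u β hβ ha (by linarith))]
  refine (norm_sub_le _ _).trans ?_
  have b1 : ∀ x : ℝ, 0 < x → ‖((x + β : ℝ) : ℂ) * nit u (x + β) / (1 - u * Complex.I)‖ ≤ (x + β) / |u| := by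
    intro x hx
    rw [norm_div, norm_mul, norm_nit, mul_one, Complex.norm_real, Real.norm_eq_abs,
      abs_of_pos (by linarith)]
    gcongr
  have c1 := b1 a ha
  have c2 := b1 b (by linarith)
  rw [add_div (a + β)]
  linarith

theorem sum_eq (u β : ℝ) (a n : ℕ) :
    ∑ m ∈ Ioc a (a + n), nit u (m + β) = ∑ m ∈ range n, ex (LG u (a + 1 + β) 0 m) := by
  induction n with
  | zero => simp
  | succ n ih =>
    rw [← add_assoc, sum_Ioc_succ_top (Nat.le_add_right a n), ih, sum_range_succ]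
    congr 1
    simp only [nit, LG]
    push_cast
    ring_nf

theorem block (k : ℕ) : ∃ c C : ℝ, 0 < c ∧ c ≤ 1 / 2 ∧ 0 < C ∧ ∀ (a b : ℕ) (u β : ℝ),
    1 ≤ a → a ≤ b → b ≤ 2 * a → |u| ≤ (a : ℝ) ^ k → 0 ≤ β → β ≤ 1 →
    ‖Er u β a b‖ ≤ C * (a : ℝ) ^ (1 - c) := by
  set q : ℕ := 2 ^ (k + 1) * (8 * (k + 1)) with hq
  have hq2 : 2 ≤ q := by
    have : 1 ≤ 2 ^ (k + 1) := Nat.one_le_two_pow
    rw [hq]; nlinarith
  have hq0 : q ≠ 0 := by omega
  set A : ℝ := (((k + 1 : ℕ) : ℝ) + 1) * 6 ^ (k + 1 + 1) with hA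
  have hA0 : 0 ≤ A := by positivity
  set T0 : ℝ := (k + 1).factorial + 144 * ((k : ℝ) + 1) + 2 * A * 4 ^ (k + 1) + (4 + 4 * A) with hT0
  have hT00 : 0 ≤ T0 := by positivity
  refine ⟨(q : ℝ)⁻¹, 726 + T0, by positivity, ?_, by positivity, ?_⟩
  · rw [one_div]
    exact inv_anti₀ (by norm_num) (by exact_mod_cast hq2)
  intro a b u β ha hab hb hu hβ0 hβ1
  obtain ⟨n, rfl⟩ := Nat.exists_eq_add_of_le hab
  have hn : n ≤ a := by omega
  have hn' : (n : ℝ) ≤ a := by exact_mod_cast hn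
  have ha0 : (0 : ℝ) < a := by exact_mod_cast ha
  have ha1 : (1 : ℝ) ≤ a := by exact_mod_cast ha
  set s : ℝ := (a : ℝ) ^ ((q : ℝ)⁻¹) with hs
  have hs1 : 1 ≤ s := Real.one_le_rpow ha1 (by positivity)
  have hs0 : 0 < s := by linarith
  have hsa : (s ^ 2 ^ (k + 1)) ^ (8 * (k + 1)) = a := by
    rw [← pow_mul]; exact Real.rpow_inv_natCast_pow ha0.le hq0
  have hpow : (a : ℝ) ^ (1 - (q : ℝ)⁻¹) = a / s := by rw [Real.rpow_sub ha0, Real.rpow_one]
  rw [hpow]
  set r : ℝ := (s ^ 2 ^ (k + 1)) ^ (4 * (k + 1)) with hr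
  have hrs : s ≤ r := by
    rw [hr, ← pow_mul]; exact le_self_pow₀ hs1 (by positivity)
  have hr0 : 0 < r := by linarith
  have hrr : r * r = a := by rw [← hsa, hr]; ring
  have has : 0 ≤ (a : ℝ) / s := by positivity
  rcases le_total |u| r with h | h
  · refine (Er_small u β hβ0 ha n).trans ?_
    have e1 : (n : ℝ) * (|u| / a) ≤ a * (r / a) := by gcongr
    have e2 : (a : ℝ) * (r / a) = r := by field_simp
    have e3 : r ≤ a / s := by rw [le_div_iff₀ hs0, ← hrr]; gcongr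
    nlinarith
  · have hu0 : 0 < |u| := hr0.trans_le h
    have hI := int_large u β hβ0 (abs_pos.1 hu0) ha0 (b := ((a + n : ℕ) : ℝ)) (by exact_mod_cast hab)
    have hI2 : ((a + β) + (((a + n : ℕ) : ℝ) + β)) / |u| ≤ 6 * (a / s) := by
      rw [← mul_div_assoc]
      gcongr
      · push_cast; linarith
      · linarith
    have hS : ‖∑ m ∈ Ioc a (a + n), nit u (m + β)‖ ≤ (720 + T0) * (a / s) := by
      rw [sum_eq]
      rcases le_total s T0 with h' | h'
      · have c1 : ‖∑ m ∈ range n, ex (LG u (a + 1 + β) 0 m)‖ ≤ n :=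
          (norm_sum_le _ _).trans (by simp [norm_ex])
        have c2 : (a : ℝ) ≤ T0 * (a / s) := by
          rw [← mul_div_assoc, le_div_iff₀ hs0, mul_comm]; gcongr
        nlinarith
      · have p1 : (0 : ℝ) ≤ (k + 1).factorial := by positivity
        have p2 : (0 : ℝ) ≤ 144 * ((k : ℝ) + 1) := by positivity
        have p3 : (0 : ℝ) ≤ 2 * A * 4 ^ (k + 1) := by positivity
        have := large k a n u β s ha hn hβ0 hβ1 hsa h hu (by linarith) (by linarith) (by linarith)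
          (by linarith)
        nlinarith
    unfold Er
    refine (norm_sub_le _ _).trans ?_
    linarith

end VdC

open VdC in
theorem vdc : S_VdC := by
  intro k
  obtain ⟨c, C, hc0, hc1, hC, hb⟩ := block k
  refine ⟨c, 5 * C, hc0, hc1, by positivity, ?_⟩
  intro M N u β hM hMN hu hβ0 hβ1
  change ‖Er u β M N‖ ≤ _
  have hM1 : (1 : ℝ) ≤ M := by exact_mod_cast hM
  induction N using Nat.strong_induction_on with
  | _ N ih =>
    rcases le_or_gt N (2 * M) with h | h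
    · refine (hb M N u β hM hMN h hu hβ0 hβ1).trans ?_
      have h1 : (M : ℝ) ^ (1 - c) ≤ (N : ℝ) ^ (1 - c) :=
        Real.rpow_le_rpow (by positivity) (by exact_mod_cast hMN) (by linarith)
      have h2 : 0 ≤ (N : ℝ) ^ (1 - c) := by positivity
      nlinarith
    · set K := (N + 1) / 2 with hK
      have k1 : M ≤ K := by omega
      have k2 : K < N := by omega
      have k3 : N ≤ 2 * K := by omega
      have k4 : 3 * K ≤ 2 * N := by omega
      rw [Er_add u β hβ0 hM k1 k2.le]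
      refine (norm_add_le _ _).trans ?_
      have b1 := ih K k2 k1
      have b2 := hb K N u β (hM.trans k1) k2.le k3
        (hu.trans (pow_le_pow_left₀ (by positivity) (by exact_mod_cast k1) k)) hβ0 hβ1
      have b3 : (K : ℝ) ^ (1 - c) ≤ 5 / 6 * (N : ℝ) ^ (1 - c) := by
        have e1 : (K : ℝ) ≤ 2 / 3 * N := by
          have : (3 : ℝ) * K ≤ 2 * N := by exact_mod_cast k4
          linarith
        have e2 : (2 / 3 : ℝ) ^ (1 - c) ≤ 5 / 6 := by
          calc (2 / 3 : ℝ) ^ (1 - c) ≤ (2 / 3 : ℝ) ^ (1 / 2 : ℝ) :=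
                Real.rpow_le_rpow_of_exponent_ge (by norm_num) (by norm_num) (by linarith)
            _ = √(2 / 3) := (Real.sqrt_eq_rpow _).symm
            _ ≤ 5 / 6 := by rw [Real.sqrt_le_left (by norm_num)]; norm_num
        calc (K : ℝ) ^ (1 - c) ≤ (2 / 3 * N : ℝ) ^ (1 - c) :=
              Real.rpow_le_rpow (by positivity) e1 (by linarith)
          _ = (2 / 3 : ℝ) ^ (1 - c) * (N : ℝ) ^ (1 - c) := Real.mul_rpow (by norm_num) (by positivity)
          _ ≤ _ := by gcongr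
      nlinarith

end Pool.Agent.P.MP_a14ce1_nt.Ch
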