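import Mathlib

/-!
Definitions and interface statements for the unweighted two-point correlation theorem.
Every piece of the proof is a theorem of the shape  S_a → S_b → S_c  in a file importing only this one.
-/

open Finset MeasureTheory

namespace Pool.Agent.P.MP_a14ce1_nt.Ch

/-- The Liouville function, real valued. -/
noncomputable def lam (n : ℕ) : ℝ := (-1 : ℝ) ^ ArithmeticFunction.cardFactors n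

/-- exp (i θ) -/
noncomputable def ex (θ : ℝ) : ℂ := Complex.exp (θ * Complex.I)

/-- y ^ (-i t) -/
noncomputable def nit (t y : ℝ) : ℂ := ex (-(t * Real.log y))

/-- primes in (u, v] -/
noncomputable def pr (u v : ℝ) : Finset ℕ := (Finset.Ioc ⌊u⌋₊ ⌊v⌋₊).filter Nat.Prime

/-- sum of reciprocals -/
noncomputable def rs (P : Finset ℕ) : ℝ := ∑ p ∈ P, (1 : ℝ) / p

/-- number of members of P dividing n -/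
noncomputable def om (P : Finset ℕ) (n : ℕ) : ℝ := ((P.filter (fun p => p ∣ n)).card : ℝ)

/-- Cauchy weight at scale T -/
noncomputable def cw (T t : ℝ) : ℝ := 1 / (1 + (t / T) ^ 2)

noncomputable def psiB : ContDiffBump (1 / 2 : ℝ) := ⟨3 / 5, 3 / 2, by norm_num, by norm_num⟩
noncomputable def PhiB : ContDiffBump (1 : ℝ) := ⟨1 / 4, 1 / 2, by norm_num, by norm_num⟩

/-- smooth cut-off, equal to 1 on [0, log 3], zero outside (-1, 2) -/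
noncomputable def psi (v : ℝ) : ℝ := psiB v
/-- smooth cut-off, equal to 1 on [3/4, 5/4], zero outside (1/2, 3/2) -/
noncomputable def Phi (v : ℝ) : ℝ := PhiB v

/-- completely multiplicative and bounded by one -/
structure CM (f : ℕ → ℂ) : Prop where
  mul : ∀ m n, m ≠ 0 → n ≠ 0 → f (m * n) = f m * f n
  bd : ∀ n, ‖f n‖ ≤ 1

def H1 (f : ℕ → ℂ) : Prop :=
  ∃ C : ℝ, 0 < C ∧ ∀ k : ℕ, ∃ y0 : ℕ, ∀ y Q : ℕ, y0 ≤ y → y ≤ Q → ∀ t : ℝ, 1 ≤ |t| → |t| ≤ (y : ℝ) ^ k →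
    ‖∑ p ∈ (Ioc y Q).filter Nat.Prime, f p / p * nit t p‖ ≤ C

def H2 (f : ℕ → ℂ) : Prop :=
  ∃ C : ℝ, 0 < C ∧ ∀ σ t : ℝ, 1 < σ → σ ≤ 2 → |t| ≤ 2 → ‖LSeries f (σ + t * Complex.I)‖ ≤ C

/-- Liouville times a Dirichlet character -/
noncomputable def lc {b : ℕ} (χ : DirichletCharacter ℂ b) (n : ℕ) : ℂ :=
  (lam n : ℂ) * χ (n : ZMod b)

/-- a character restricted to integers without prime factors up to y -/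
noncomputable def rc {b : ℕ} (χ : DirichletCharacter ℂ b) (y n : ℕ) : ℂ :=
  if Nat.Coprime n (primorial y) then χ (n : ZMod b) else 0

/-- the smoothed Dirichlet polynomial of f at scale X -/
noncomputable def Fx (f : ℕ → ℂ) (X : ℕ) (t : ℝ) : ℂ :=
  ∑ n ∈ Icc 1 (8 * X), f n * ((psi (Real.log n - Real.log X) / n : ℝ) : ℂ) * nit t n

/-- the long smooth Dirichlet polynomial of the last stage -/
noncomputable def Rx (a : ℕ → ℂ) (X : ℕ) (t : ℝ) : ℂ :=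
  ∑ m ∈ Icc 1 (X ^ 2), a m * ((Phi (Real.log m / Real.log X) / m : ℝ) : ℂ) * nit t m

/-- Cauchy average of the square of a Dirichlet polynomial -/
noncomputable def sm (S : Finset ℕ) (a : ℕ → ℂ) (t : ℝ) : ℝ :=
  ∫ u : ℝ, cw 1 u * ‖∑ n ∈ S, a n * nit (t + u) n‖ ^ 2

/-- product of a finite set of naturals -/
def pv (g : Finset ℕ) : ℕ := ∏ q ∈ g, q

/-- probability that the set of members of G dividing a random integer is T -/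
noncomputable def mu (G T : Finset ℕ) : ℝ := (∏ q ∈ T, (1 : ℝ) / q) * ∏ q ∈ G \ T, (1 - (1 : ℝ) / q)

noncomputable def Zc (G : Finset ℕ) : ℝ := ∏ q ∈ G, (1 + (63 : ℝ) / q)

noncomputable def Vw (G T : Finset ℕ) : ℝ := (64 : ℝ) ^ T.card / Zc G

noncomputable def deg (s : ℝ) (T : Finset ℕ) : ℝ :=
  ∑ g ∈ T.powerset.filter (fun g => s ≤ (pv g : ℝ) ∧ (pv g : ℝ) < 2 * s), (63 : ℝ) ^ g.card

/-! ### M. Mertens -/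

def S_M1 : Prop := ∃ C : ℝ, 0 < C ∧ ∀ u v : ℝ, 2 ≤ u → u ≤ v →
  |rs (pr u v) - Real.log (Real.log v / Real.log u)| ≤ C

def S_M2 : Prop := ∃ C : ℝ, 0 < C ∧ ∀ y : ℝ, 1 ≤ y →
  |∑ p ∈ pr 0 y, Real.log p / p - Real.log y| ≤ C

def S_M6 : Prop := ∃ C : ℝ, 0 < C ∧ ∀ η : ℝ, 0 < η → η ≤ 1 → ∀ N : ℕ,
  ∑ n ∈ Icc 1 N, ArithmeticFunction.vonMangoldt n / (n : ℝ) ^ (1 + η) ≤ C / η

def S_TK : Prop := ∀ (P : Finset ℕ) (N : ℕ), (∀ p ∈ P, p.Prime) → P.card ≤ N → 0 < rs P →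
  ∑ n ∈ Icc 1 N, (1 - om P n / rs P) ^ 2 ≤ 3 * N / rs P

/-! ### T. Trace lemma -/

def S_Trace : Prop := ∀ (ι : Type) [Fintype ι] [DecidableEq ι] (pos : ι → ℤ) (I : Finset ℕ) (H : ℕ)
  (K : ℕ → ι → ι → ℝ) (V : ι → ℝ) (A η : ℝ) (i : ℕ),
  (∀ p ∈ I, p.Prime ∧ H ≤ p) → 1 ≤ rs I → (∀ v, 0 < V v) → 0 < A → 0 ≤ η →
  (∀ p v v', K p v v' = K p v' v) →
  (∀ p ∈ I, ∀ v, ∑ v', |K p v v'| ≤ A * V v) →
  (∀ p ∈ I, ∀ p' ∈ I, p' ≠ p → ∀ v, ∀ c : ℤ,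
    ∑ v' ∈ univ.filter (fun v' => pos v' ≡ c [ZMOD p']), |K p v v'| ≤ η * A * V v) →
  (∀ p ∈ I, ∀ v v', K p v v' ≠ 0 → pos v ≡ pos v' [ZMOD p]) →
  2 * 2 ^ i * η ≤ 1 → 4 * 2 ^ i ≤ H → Fintype.card ι ≤ 4 ^ 2 ^ i →
  ∃ β : ℕ → ℝ, (∀ x, 0 ≤ β x) ∧
    (∀ (x : ℕ) (F : ι → ℝ), (∀ v, |F v| ≤ 1) →
      |∑ v, ∑ v', F v * F v' *
        ∑ p ∈ I, K p v v' * ((if (p : ℤ) ∣ x + pos v then 1 else 0) - 1 / (p : ℝ))| ≤ β x) ∧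
    ∑ x ∈ range (pv I), β x ≤ (pv I : ℝ) * (32 * A * √(rs I) * ∑ v, V v)

/-! ### A. The cofactor system -/

def S_L2 : Prop := ∀ CG : ℝ, ∃ C1 : ℝ, 0 < C1 ∧ ∀ (G : Finset ℕ) (x : ℝ), 1 ≤ x →
  (∀ q ∈ G, q.Prime ∧ 128 ≤ q) →
  (∀ t : ℝ, 2 ≤ t → 4 / 5 * Real.log (x / Real.log t) - CG ≤ rs (G.filter (fun q => t < (q : ℝ)))) →
  ∀ s : ℝ, 0 < s →
    ∑ T ∈ G.powerset, mu G T * (deg s T) ^ 2 / Vw G T ≤ C1 * (Zc G / x) ^ 2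

def S_First : Prop := ∃ C0 c x0 : ℝ, 2 ≤ C0 ∧ 0 < c ∧ ∀ (G : Finset ℕ) (x : ℝ), x0 ≤ x →
  (∀ q ∈ G, q.Prime ∧ (q : ℝ) ≤ Real.exp x) →
  (∀ q : ℕ, q.Prime → Real.exp (x / 2) < q → (q : ℝ) ≤ Real.exp x → q ∈ G) →
  ∀ s : ℝ, Real.exp (3 * x / 4) ≤ s → C0 * s ≤ Real.exp x →
    c * Zc G / x ≤
      ∑ g ∈ G.powerset.filter (fun g => s < (pv g : ℝ) ∧ (pv g : ℝ) ≤ C0 * s), (63 : ℝ) ^ g.card / pv g

/-- The finite data used by the main reduction. -/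
structure Sys (a h : ℕ) (ε c ρ M L0 Kc : ℝ) (P0 : ℕ) where
  I : Finset ℕ
  G : Finset ℕ
  H : ℕ
  D : ℝ
  c0 : ℕ
  E : Finset (ℕ × Finset ℕ)
  w : Finset ℕ → ℝ
  V : Finset ℕ → ℝ
  gd : ℕ → Finset ℕ → Finset (Finset ℕ)
  η : ℝ
  i : ℕ
  hI : ∀ p ∈ I, p.Prime ∧ H ≤ p
  hG : ∀ q ∈ G, q.Prime
  disj : Disjoint I G
  hP0 : P0 ≤ H
  hh : h < H
  hL : L0 ≤ rs I
  hD : 0 < D
  hE : E ⊆ I ×ˢ G.powerset
  win : ∀ e ∈ E, D ≤ ((e.1 * pv e.2 : ℕ) : ℝ) ∧ ((e.1 * pv e.2 : ℕ) : ℝ) < (1 + ε) * D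
  cong : ∀ e ∈ E, e.1 * pv e.2 ≡ c0 [MOD a]
  cop : Nat.Coprime c0 a
  w_nonneg : ∀ g, 0 ≤ w g
  mass : c * rs I ≤ ∑ e ∈ E, w e.2 / ((e.1 * pv e.2 : ℕ) : ℝ)
  total : ∑ g ∈ G.powerset, w g / (pv g : ℝ) ≤ Kc * Real.log H
  V_pos : ∀ T, 0 < V T
  V_mean : ∑ T ∈ G.powerset, mu G T * V T ≤ 1
  gd_sub : ∀ p T, gd p T ⊆ T.powerset.filter (fun g => (p, g) ∈ E)
  row : ∀ p ∈ I, ∀ T ⊆ G, ∑ g ∈ gd p T, w g ≤ M * V T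
  cls : ∀ p ∈ I, ∀ p' ∈ I, ∀ T ⊆ G, ∀ r : ℕ,
    ∑ g ∈ (gd p T).filter (fun g => pv g ≡ r [MOD p']), w g ≤ η * M * V T
  removed : ∀ p ∈ I, ∑ T ∈ G.powerset,
    mu G T * ∑ g ∈ (T.powerset.filter (fun g => (p, g) ∈ E)) \ gd p T, w g ≤ ρ
  η_nonneg : 0 ≤ η
  hm1 : 2 * 2 ^ i * η ≤ 1
  hm2 : 4 * 2 ^ i ≤ H
  hm3 : 8 * h * D + 4 ≤ 4 ^ 2 ^ i

def S_Sys : Prop := ∀ (a h : ℕ) (ε : ℝ), 0 < a → 0 < h → 0 < ε → ε ≤ 1 / 2 →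
  ∃ c : ℝ, 0 < c ∧ ∀ ρ : ℝ, 0 < ρ → ∃ M : ℝ, 0 < M ∧ ∀ L0 : ℝ, ∃ Kc : ℝ, 0 < Kc ∧ ∀ P0 : ℕ,
    Nonempty (Sys a h ε c ρ M L0 Kc P0)

/-! ### Sieve and part B -/

def S_Sieve : Prop := ∀ κ η : ℝ, 0 ≤ κ → 0 < η → ∃ C : ℝ, 0 < C ∧
  ∀ (α : Type) (A : Finset α) (a : α → ℂ) (z k : ℕ) (P : Finset ℕ) (D : α → ℕ → Prop)
    [∀ x p, Decidable (D x p)] (g : ℕ → ℝ) (X R1 : ℝ) (M : ℂ) (R2 : ℕ → ℝ),
    2 ≤ z → 0 ≤ X → ‖M‖ ≤ X → (∀ x ∈ A, ‖a x‖ ≤ 1) → (∀ p ∈ P, p.Prime ∧ p ≤ z) →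
    (∀ p ∈ P, 0 ≤ g p ∧ g p ≤ κ / p ∧ g p ≤ 1 - η) → (∀ d, 0 ≤ R2 d) →
    (∀ T ⊆ P, pv T ≤ z ^ (4 * k + 6) →
      |((A.filter (fun x => ∀ p ∈ T, D x p)).card : ℝ) - X * ∏ p ∈ T, g p| ≤ R1) →
    (∀ T ⊆ P, pv T ≤ z ^ (4 * k + 6) →
      ‖∑ x ∈ A.filter (fun x => ∀ p ∈ T, D x p), a x - M * ((∏ p ∈ T, g p : ℝ) : ℂ)‖ ≤ R2 (pv T)) →
    ‖∑ x ∈ A.filter (fun x => ∀ p ∈ P, ¬ D x p), a x - M * ((∏ p ∈ P, (1 - g p) : ℝ) : ℂ)‖ ≤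
      C / 2 ^ k * X * ∏ p ∈ P, (1 - g p) + (z : ℝ) ^ (4 * k + 8) * R1 +
        ∑ d ∈ Icc 1 (z ^ (4 * k + 6)), R2 d

def S_Energy : Prop := ∃ C : ℝ, 0 < C ∧ ∀ P : ℕ, 2 ≤ P →
  (((((Ioc P (2 * P)).filter Nat.Prime ×ˢ (Ioc P (2 * P)).filter Nat.Prime) ×ˢ
      ((Ioc P (2 * P)).filter Nat.Prime ×ˢ (Ioc P (2 * P)).filter Nat.Prime)).filter
      (fun q => q.1.1 + q.1.2 = q.2.1 + q.2.2)).card : ℝ) ≤ C * (P : ℝ) ^ 3 / (Real.log P) ^ 4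

def S_MRchar : Prop := ∀ (b : ℕ) [NeZero b] (χ : DirichletCharacter ℂ b) (δ : ℝ), 0 < δ →
  ∃ R0 : ℕ, ∀ R : ℕ, R0 ≤ R → ∃ X0 : ℕ, ∀ X : ℕ, X0 ≤ X →
    ∑ x ∈ range X, ‖∑ j ∈ range R, lc χ (x + j)‖ ≤ δ * R * X

def S_Classes : Prop := ∀ (b : ℕ) (δ : ℝ), 0 < b → 0 < δ →
  ∃ R0 : ℕ, ∀ R : ℕ, R0 ≤ R → ∀ c : ℕ, ∃ X0 : ℕ, ∀ X : ℕ, X0 ≤ X →
    ∑ x ∈ range X, |∑ j ∈ (range R).filter (fun j => x + j ≡ c [MOD b]), lam (x + j)| ≤ δ * R * X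

def S_ShortExp : Prop := ∀ δ : ℝ, 0 < δ →
  ∃ R0 : ℕ, ∀ R : ℕ, R0 ≤ R → ∀ α : ℝ, ∃ X0 : ℕ, ∀ X : ℕ, X0 ≤ X →
    ∑ x ∈ range X, ‖∑ j ∈ range R, (lam (x + j) : ℂ) * ex (α * j)‖ ≤ δ * R * X

def S_LemmaB : Prop := ∀ (h : ℕ) (δ : ℝ), 0 < h → 0 < δ →
  ∃ P0 : ℕ, ∀ P : ℕ, P0 ≤ P → ∃ X0 : ℕ, ∀ X : ℕ, X0 ≤ X → ∀ c : ℕ → ℝ, (∀ p, |c p| ≤ 1) →
    ∑ m ∈ Icc 1 X, |∑ p ∈ (Ioc P (2 * P)).filter Nat.Prime, c p * lam (m + h * p)| ≤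
      δ * X * P / Real.log P

/-! ### C. Short interval averages -/

/-- Fourier transform of the Cauchy weight -/
def S_Cauchy : Prop := ∀ T θ : ℝ, 0 < T →
  ∫ t : ℝ, (cw T t : ℂ) * ex (-(t * θ)) = ((Real.pi * T * Real.exp (-(T * |θ|)) : ℝ) : ℂ)

/-- the kernel form of the mean value theorem -/
def S_Kernel : Prop := ∀ (ι : Type) (s : Finset ι) (b : ι → ℝ) (n : ι → ℕ) (N : ℕ) (T : ℝ), 0 < T →
  (∀ i ∈ s, 0 ≤ b i) → (∀ i ∈ s, 1 ≤ n i ∧ n i ≤ N) →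
  T * ∑ i ∈ s, ∑ j ∈ s, b i * b j * Real.exp (-(T * |Real.log (n i) - Real.log (n j)|)) ≤
    (T + 2 * N) * ∑ i ∈ s, ∑ j ∈ s, if n i = n j then b i * b j else 0

def S_MVT : Prop := ∀ (a : ℕ → ℂ) (N : ℕ) (T : ℝ), 0 < T →
  ∫ t : ℝ, cw T t * ‖∑ n ∈ Icc 1 N, a n * nit t n‖ ^ 2 ≤
    Real.pi * (T + 2 * N) * ∑ n ∈ Icc 1 N, ‖a n‖ ^ 2

def S_Fourier : Prop := ∀ g : ℝ → ℝ, ContDiff ℝ 2 g → HasCompactSupport g →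
  ∃ (Θ : ℝ → ℂ) (C : ℝ), 0 < C ∧ Continuous Θ ∧ (∀ u, ‖Θ u‖ ≤ C * cw 1 u) ∧
    (∀ v, (g v : ℂ) = ∫ u : ℝ, Θ u * ex (-(u * v))) ∧
    (∀ ξ, ‖∫ v : ℝ, (g v : ℂ) * ex (-(ξ * v))‖ ≤ C * cw 1 ξ)

def S_Separate : Prop := ∃ C : ℝ, 0 < C ∧ ∀ (P M : Finset ℕ) (a b : ℕ → ℂ) (x t : ℝ),
  (∀ p ∈ P, 1 ≤ p) → (∀ m ∈ M, 1 ≤ m) →
  ‖∑ p ∈ P, ∑ m ∈ M, a p * b m * ((psi (Real.log ((p * m : ℕ) : ℝ) - x) : ℝ) : ℂ) *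
      nit t ((p * m : ℕ) : ℝ)‖ ^ 2 ≤ C * (sm P a t * sm M b t)

def S_Moment : Prop := ∀ (T : ℝ) (y : ℕ) (P M : Finset ℕ) (a b : ℕ → ℂ) (M1 : ℝ) (M2 l : ℕ),
  0 < T → 1 ≤ y → (∀ p ∈ P, p.Prime ∧ y ≤ p ∧ p < 2 * y) → (∀ p ∈ P, ‖a p‖ ≤ 1 / (p : ℝ)) →
  0 < M1 → (∀ m ∈ M, M1 ≤ (m : ℝ) ∧ m ≤ M2) → (∀ m ∈ M, ‖b m‖ ≤ 1 / (m : ℝ)) →
  ∫ t : ℝ, cw T t * ((sm P a t) ^ l * sm M b t) ≤
    Real.pi ^ (l + 2) * (T + 2 * ((2 * y) ^ l * M2)) * ((2 * y) ^ l * M2) * (2 * l + 1) ^ (2 * l) /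
      ((y : ℝ) ^ l * M1) ^ 2

def S_SmPrimes : Prop := ∃ C : ℝ, 0 < C ∧ ∀ (y : ℝ) (P : Finset ℕ) (a : ℕ → ℂ), 2 ≤ y →
  (∀ p ∈ P, p.Prime ∧ y < (p : ℝ)) → (∀ p ∈ P, ‖a p‖ ≤ 1 / (p : ℝ)) →
  ∀ t : ℝ, sm P a t ≤ C * rs P / Real.log y

/-- basic regularity of the Cauchy average -/
def S_SmReg : Prop := ∀ (S : Finset ℕ) (a : ℕ → ℂ),
  Continuous (sm S a) ∧ ∀ t, 0 ≤ sm S a t ∧ sm S a t ≤ Real.pi * (∑ n ∈ S, ‖a n‖) ^ 2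

def S_Reduce : Prop := ∃ C : ℝ, 0 < C ∧ ∀ (f : ℕ → ℂ) (X R : ℕ) (h : ℝ), (∀ n, ‖f n‖ ≤ 1) →
  1 ≤ h → h ≤ X → R ≤ X → 2 ≤ X →
  ∑ x ∈ Ico X (2 * X), ‖∑ j ∈ range R, f (x + j)‖ ≤
    C * (R * X * √(∫ t : ℝ, cw (X / h) t * ‖Fx f X t‖ ^ 2) + h * X + (R : ℝ) ^ 2)

def S_Scales : Prop := ∀ α δ : ℝ, 0 < α → 0 < δ →
  ∃ h0 : ℝ, 1 ≤ h0 ∧ ∀ h : ℝ, h0 ≤ h → ∃ X0 : ℕ, ∀ X : ℕ, X0 ≤ X → ∀ f : ℕ → ℂ, CM f →
    ∃ U : Set ℝ, MeasurableSet U ∧ U ⊆ Set.Icc (-(X : ℝ)) X ∧ volume.real U ≤ (X : ℝ) ^ α ∧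
      ∫ t in Uᶜ, cw (X / h) t * ‖Fx f X t‖ ^ 2 ≤ δ

def S_HM : Prop := ∃ (c C : ℝ) (X0 : ℕ), 0 < c ∧ 0 < C ∧ ∀ X : ℕ, X0 ≤ X → ∀ a : ℕ → ℂ,
  (∀ m, ‖a m‖ ≤ 1) → ∀ U : Set ℝ, MeasurableSet U → U ⊆ Set.Icc (-(X : ℝ)) X →
    volume.real U ≤ (X : ℝ) ^ c → ∫ t in U, ‖Rx a X t‖ ^ 2 ≤ C * Real.log X

/-- the long polynomial is bounded near the origin -/
def S_RxSmall : Prop := ∀ f : ℕ → ℂ, CM f → H2 f → ∃ C : ℝ, 0 < C ∧ ∀ X : ℕ, 3 ≤ X →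
  ∀ s : ℝ, |s| ≤ 1 → ‖Rx f X s‖ ≤ C

def S_Final : Prop := ∃ c : ℝ, 0 < c ∧ ∀ f : ℕ → ℂ, CM f → H1 f → H2 f → ∀ δ : ℝ, 0 < δ →
  ∃ X0 : ℕ, ∀ X : ℕ, X0 ≤ X → ∀ U : Set ℝ, MeasurableSet U → U ⊆ Set.Icc (-(X : ℝ)) X →
    volume.real U ≤ (X : ℝ) ^ c → ∫ t in U, ‖Fx f X t‖ ^ 2 ≤ δ

def S_MR : Prop := ∀ f : ℕ → ℂ, CM f → H1 f → H2 f → ∀ δ : ℝ, 0 < δ →
  ∃ R0 : ℕ, ∀ R : ℕ, R0 ≤ R → ∃ X0 : ℕ, ∀ X : ℕ, X0 ≤ X →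
    ∑ x ∈ range X, ‖∑ j ∈ range R, f (x + j)‖ ≤ δ * R * X

/-! ### D. Zeta inputs -/

def S_VdC : Prop := ∀ k : ℕ, ∃ c C : ℝ, 0 < c ∧ c ≤ 1 / 2 ∧ 0 < C ∧ ∀ (M N : ℕ) (u β : ℝ),
  1 ≤ M → M ≤ N → |u| ≤ (M : ℝ) ^ k → 0 ≤ β → β ≤ 1 →
  ‖∑ m ∈ Ioc M N, nit u (m + β) - ∫ s in (M : ℝ)..N, nit u (s + β)‖ ≤ C * (N : ℝ) ^ (1 - c)

def S_Rough : Prop := ∀ (b : ℕ) [NeZero b], ∃ C : ℝ, 0 < C ∧ ∀ k : ℕ, ∃ y0 : ℕ, ∀ y : ℕ, y0 ≤ y →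
  ∀ (χ : DirichletCharacter ℂ b) (t : ℝ), |t| ≤ (y : ℝ) ^ k →
    ∃ κ : ℂ, ‖κ‖ ≤ C / Real.log y ∧ ∀ N : ℕ, y ≤ N →
      ‖∑ n ∈ Ioc y N, rc χ y n * nit t n - κ * ∫ s in (y : ℝ)..N, nit t s‖ ≤
        C * N * (Real.log y) ^ 2 / (Real.log N) ^ 3

def S_RoughL : Prop := ∀ (b : ℕ) [NeZero b], ∃ C : ℝ, 0 < C ∧ ∀ k : ℕ, ∃ y0 : ℕ, ∀ y : ℕ, y0 ≤ y →
  ∀ (χ : DirichletCharacter ℂ b) (σ t : ℝ), 1 < σ → σ ≤ 2 → |t| ≤ (y : ℝ) ^ k →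
    ‖LSeries (rc χ y) (σ + t * Complex.I)‖ ≤ C * (1 + 1 / ((σ - 1) * Real.log y)) ∧
    (1 ≤ |t| → ‖LSeries (rc χ y) (σ + t * Complex.I)‖ ≤ C ∧
      ‖deriv (LSeries (rc χ y)) (σ + t * Complex.I)‖ ≤ C * Real.log y)

def S_H1 : Prop := ∀ (b : ℕ) [NeZero b] (χ : DirichletCharacter ℂ b), H1 (lc χ)

def S_H2 : Prop := ∀ (b : ℕ) [NeZero b] (χ : DirichletCharacter ℂ b), H2 (lc χ)

/-! ### The target -/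

def S_Core : Prop := ∀ a b h : ℕ, 0 < a → 0 < h →
  Asymptotics.IsLittleO Filter.atTop
    (fun Y : ℕ => ∑ m ∈ (Icc 1 Y).filter (fun m => m ≡ b [MOD a]), lam m * lam (m + h))
    (fun Y : ℕ => (Y : ℝ))

/-! ### Small facts -/

theorem lam_mul {m n : ℕ} (hm : m ≠ 0) (hn : n ≠ 0) : lam (m * n) = lam m * lam n := by
  unfold lam
  rw [ArithmeticFunction.cardFactors_mul hm hn, pow_add]

theorem abs_lam (n : ℕ) : |lam n| = 1 := by simp [lam]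

theorem lam_sq (n : ℕ) : lam n * lam n = 1 := by
  unfold lam; rw [← mul_pow]; simp

theorem lam_prime {p : ℕ} (hp : p.Prime) : lam p = -1 := by
  simp [lam, ArithmeticFunction.cardFactors_apply_prime hp]

theorem norm_ex (θ : ℝ) : ‖ex θ‖ = 1 := Complex.norm_exp_ofReal_mul_I θ

theorem ex_add (a b : ℝ) : ex (a + b) = ex a * ex b := by
  unfold ex; rw [← Complex.exp_add]; congr 1; push_cast; ring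

theorem ex_zero : ex 0 = 1 := by simp [ex]

theorem conj_ex (a : ℝ) : (starRingEnd ℂ) (ex a) = ex (-a) := by
  unfold ex; rw [← Complex.exp_conj]; congr 1; simp

theorem continuous_ex : Continuous ex := by unfold ex; fun_prop

theorem norm_nit (t y : ℝ) : ‖nit t y‖ = 1 := norm_ex _

theorem nit_add (s t y : ℝ) : nit (s + t) y = nit s y * nit t y := by
  unfold nit; rw [← ex_add]; congr 1; ring

theorem nit_mul (t : ℝ) {y z : ℝ} (hy : y ≠ 0) (hz : z ≠ 0) : nit t (y * z) = nit t y * nit t z := by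
  unfold nit; rw [← ex_add, Real.log_mul hy hz]; congr 1; ring

theorem continuous_nit (y : ℝ) : Continuous (fun t => nit t y) := by
  unfold nit; exact continuous_ex.comp (by fun_prop)

theorem mem_pr {u v : ℝ} (hu : 0 ≤ u) {p : ℕ} : p ∈ pr u v ↔ p.Prime ∧ u < p ∧ (p : ℝ) ≤ v := by
  unfold pr
  rw [mem_filter, mem_Ioc, Nat.floor_lt hu]
  constructor
  · rintro ⟨⟨h1, h2⟩, h3⟩
    exact ⟨h3, h1, (Nat.le_floor_iff' h3.ne_zero).1 h2⟩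
  · rintro ⟨h3, h1, h2⟩
    exact ⟨⟨h1, Nat.le_floor h2⟩, h3⟩

theorem pr_nat (u v : ℕ) : pr u v = (Ioc u v).filter Nat.Prime := by simp [pr]

theorem rs_nonneg (P : Finset ℕ) : 0 ≤ rs P := sum_nonneg fun _ _ => by positivity

theorem cw_pos (T t : ℝ) : 0 < cw T t := by unfold cw; positivity

theorem cw_le_one (T t : ℝ) : cw T t ≤ 1 := by
  unfold cw; rw [div_le_one (by positivity)]; nlinarith [sq_nonneg (t / T)]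

theorem continuous_cw (T : ℝ) : Continuous (cw T) := by
  unfold cw
  exact continuous_const.div (by fun_prop) (fun t => by positivity)

theorem integrable_cw {T : ℝ} (hT : 0 < T) : Integrable (cw T) := by
  have h := integrable_inv_one_add_sq.comp_div hT.ne'
  refine h.congr (Filter.Eventually.of_forall fun t => ?_)
  simp [cw]

theorem integral_cw {T : ℝ} (hT : 0 < T) : ∫ t, cw T t = Real.pi * T := by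
  have h := Measure.integral_comp_div (fun x : ℝ => (1 + x ^ 2)⁻¹) T
  rw [integral_univ_inv_one_add_sq, abs_of_pos hT, smul_eq_mul] at h
  rw [mul_comm, ← h]
  simp [cw]

/-- a bounded continuous function times the Cauchy weight is integrable -/
theorem integrable_cw_mul {T : ℝ} (hT : 0 < T) {g : ℝ → ℝ} (hg : Continuous g) {B : ℝ}
    (hB : ∀ t, |g t| ≤ B) : Integrable (fun t => cw T t * g t) :=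
  (integrable_cw hT).mul_bdd (c := B) hg.aestronglyMeasurable
    (Filter.Eventually.of_forall fun t => by simpa using hB t)

theorem psi_nonneg (v : ℝ) : 0 ≤ psi v := psiB.nonneg
theorem psi_le_one (v : ℝ) : psi v ≤ 1 := psiB.le_one
theorem Phi_nonneg (v : ℝ) : 0 ≤ Phi v := PhiB.nonneg
theorem Phi_le_one (v : ℝ) : Phi v ≤ 1 := PhiB.le_one
theorem contDiff_psi {n : ℕ∞} : ContDiff ℝ n psi := psiB.contDiff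
theorem contDiff_Phi {n : ℕ∞} : ContDiff ℝ n Phi := PhiB.contDiff
theorem compact_psi : HasCompactSupport psi := psiB.hasCompactSupport
theorem compact_Phi : HasCompactSupport Phi := PhiB.hasCompactSupport

theorem psi_eq_one {v : ℝ} (h0 : 0 ≤ v) (h1 : v ≤ Real.log 3) : psi v = 1 := by
  apply psiB.one_of_mem_closedBall
  have h3 : Real.log 3 ≤ 11 / 10 := by
    rw [Real.log_le_iff_le_exp (by norm_num)]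
    have h := Real.sum_le_exp_of_nonneg (x := 11 / 10) (by norm_num) 7
    refine le_trans ?_ h
    simp [Finset.sum_range_succ, Nat.factorial]; norm_num
  rw [Metric.mem_closedBall, Real.dist_eq, abs_le]
  change _ ≤ _ ∧ _ ≤ (3 / 5 : ℝ)
  constructor
  · change -(3 / 5 : ℝ) ≤ _; linarith
  · linarith

theorem psi_eq_zero {v : ℝ} (h : v ≤ -1 ∨ 2 ≤ v) : psi v = 0 := by
  apply psiB.zero_of_le_dist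
  rw [Real.dist_eq]
  change (3 / 2 : ℝ) ≤ _
  rcases h with h | h
  · exact le_abs.2 (Or.inr (by linarith))
  · exact le_abs.2 (Or.inl (by linarith))

theorem Phi_eq_one {v : ℝ} (h0 : 3 / 4 ≤ v) (h1 : v ≤ 5 / 4) : Phi v = 1 := by
  apply PhiB.one_of_mem_closedBall
  rw [Metric.mem_closedBall, Real.dist_eq, abs_le]
  change _ ≤ _ ∧ _ ≤ (1 / 4 : ℝ)
  constructor
  · change -(1 / 4 : ℝ) ≤ _; linarith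
  · linarith

theorem Phi_eq_zero {v : ℝ} (h : v ≤ 1 / 2 ∨ 3 / 2 ≤ v) : Phi v = 0 := by
  apply PhiB.zero_of_le_dist
  rw [Real.dist_eq]
  change (1 / 2 : ℝ) ≤ _
  rcases h with h | h
  · exact le_abs.2 (Or.inr (by linarith))
  · exact le_abs.2 (Or.inl (by linarith))

theorem lc_CM {b : ℕ} (χ : DirichletCharacter ℂ b) : CM (lc χ) := by
  constructor
  · intro m n hm hn
    unfold lc
    rw [lam_mul hm hn, Nat.cast_mul, map_mul]; push_cast; ring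
  · intro n
    unfold lc
    rw [norm_mul, Complex.norm_real, Real.norm_eq_abs, abs_lam, one_mul]
    exact χ.norm_le_one _

theorem continuous_Fx (f : ℕ → ℂ) (X : ℕ) : Continuous (Fx f X) := by
  unfold Fx
  exact continuous_finsetSum _ fun n _ => continuous_const.mul (continuous_nit _)

theorem continuous_Rx (f : ℕ → ℂ) (X : ℕ) : Continuous (Rx f X) := by
  unfold Rx
  exact continuous_finsetSum _ fun n _ => continuous_const.mul (continuous_nit _)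

end Pool.Agent.P.MP_a14ce1_nt.Ch
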