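import Pool.Agent.P.MP_a14ce1_nt.Ch.Defs

/-!
The Dirichlet series of Liouville times a character is bounded near the point one:
it equals L(chi^2, 2s) / L(chi, s).
-/

open Finset Complex

namespace Pool.Agent.P.MP_a14ce1_nt.Ch

namespace HTwo

noncomputable def hom {b : ℕ} (χ : DirichletCharacter ℂ b) {s : ℂ} (hs : s ≠ 0) : ℕ →*₀ ℂ where
  toFun n := (lam n : ℂ) * dirichletSummandHom χ hs n
  map_zero' := by simp
  map_one' := by simp [lam]
  map_mul' m n := by
    rcases eq_or_ne m 0 with rfl | hm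
    · simp
    rcases eq_or_ne n 0 with rfl | hn
    · simp
    rw [lam_mul hm hn, map_mul]; push_cast; ring

theorem hom_apply {b : ℕ} (χ : DirichletCharacter ℂ b) {s : ℂ} (hs : s ≠ 0) (n : ℕ) :
    hom χ hs n = (lam n : ℂ) * (χ n * (n : ℂ) ^ (-s)) := rfl

theorem summable_hom {b : ℕ} (χ : DirichletCharacter ℂ b) {s : ℂ} (hs : 1 < s.re) :
    Summable (fun n => ‖hom χ (ne_zero_of_one_lt_re hs) n‖) := by
  refine (summable_dirichletSummand χ hs).congr fun n => ?_
  change _ = ‖(lam n : ℂ) * dirichletSummandHom χ (ne_zero_of_one_lt_re hs) n‖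
  rw [norm_mul, Complex.norm_real, Real.norm_eq_abs, abs_lam, one_mul]

theorem tsum_hom {b : ℕ} (χ : DirichletCharacter ℂ b) {s : ℂ} (hs : 1 < s.re) :
    ∑' n, hom χ (ne_zero_of_one_lt_re hs) n = LSeries (lc χ) s := by
  simp only [hom_apply, LSeries, LSeries.term_of_ne_zero' (ne_zero_of_one_lt_re hs), cpow_neg,
    div_eq_mul_inv, lc, mul_assoc]

theorem prod_eq {b : ℕ} (χ : DirichletCharacter ℂ b) {s : ℂ} (hs : 1 < s.re) :
    LSeries (lc χ) s * LSeries (fun n : ℕ => χ n) s = LSeries (fun n : ℕ => (χ ^ 2) n) (2 * s) := by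
  have h1 := EulerProduct.eulerProduct_completely_multiplicative_hasProd (summable_hom χ hs)
  rw [tsum_hom χ hs] at h1
  have h2 := DirichletCharacter.LSeries_eulerProduct_hasProd χ hs
  have hs2 : 1 < (2 * s).re := by simp; linarith
  have h3 := DirichletCharacter.LSeries_eulerProduct_hasProd (χ ^ 2) hs2
  refine (h1.mul h2).unique ?_
  convert h3 using 2 with p
  have hp : ((p : ℕ) : ℂ) ≠ 0 := Nat.cast_ne_zero.2 p.prop.ne_zero
  rw [hom_apply, lam_prime p.prop, ← mul_inv]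
  congr 1
  have e : ((p : ℕ) : ℂ) ^ (-(2 * s)) = ((p : ℕ) : ℂ) ^ (-s) * ((p : ℕ) : ℂ) ^ (-s) := by
    rw [← cpow_add _ _ hp]; congr 1; ring
  rw [e, MulChar.pow_apply' χ two_ne_zero]
  push_cast; ring

theorem bound_sq : ∃ B : ℝ, 0 < B ∧ ∀ (b : ℕ) (ψ : DirichletCharacter ℂ b) (w : ℂ), 2 ≤ w.re →
    ‖LSeries (fun n : ℕ => ψ n) w‖ ≤ B := by
  have hsum : LSeriesSummable (fun _ : ℕ => (1 : ℂ)) (2 : ℂ) :=
    LSeriesSummable_of_bounded_of_one_lt_re (m := 1) (fun n _ => by simp) (by simp)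
  have hn : Summable (fun n => ‖LSeries.term (fun _ : ℕ => (1 : ℂ)) (2 : ℂ) n‖) :=
    summable_norm_iff.2 hsum
  refine ⟨(∑' n, ‖LSeries.term (fun _ : ℕ => (1 : ℂ)) (2 : ℂ) n‖) + 1, by positivity, ?_⟩
  intro b ψ w hw
  have hle : ∀ n, ‖LSeries.term (fun n : ℕ => ψ n) w n‖ ≤
      ‖LSeries.term (fun _ : ℕ => (1 : ℂ)) (2 : ℂ) n‖ := fun n =>
    (LSeries.norm_term_le_of_re_le_re _ (s := 2) (by simpa using hw) n).trans
      (LSeries.norm_term_le _ (by simpa using ψ.norm_le_one n))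
  have := tsum_of_norm_bounded hn.hasSum hle
  unfold LSeries
  linarith

theorem inv_bound (b : ℕ) [NeZero b] (χ : DirichletCharacter ℂ b) :
    ∃ B : ℝ, 0 < B ∧ ∀ s : ℂ, 1 < s.re → s.re ≤ 2 → |s.im| ≤ 2 →
      ‖(LSeries (fun n : ℕ => χ n) s)⁻¹‖ ≤ B := by
  have hK : IsCompact (Set.Icc (1 : ℝ) 2 ×ℂ Set.Icc (-2 : ℝ) 2) :=
    isCompact_Icc.reProdIm isCompact_Icc
  obtain ⟨g, hg, hgs⟩ : ∃ g : ℂ → ℂ, ContinuousOn g (Set.Icc (1 : ℝ) 2 ×ℂ Set.Icc (-2 : ℝ) 2) ∧
      ∀ s : ℂ, 1 < s.re → g s = (χ.LFunction s)⁻¹ := by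
    by_cases hχ : χ = 1
    · subst hχ
      refine ⟨fun s => (s - 1) / DirichletCharacter.LFunctionTrivChar₁ b s, ?_, ?_⟩
      · refine ContinuousOn.div (by fun_prop)
          (DirichletCharacter.differentiable_LFunctionTrivChar₁ b).continuous.continuousOn ?_
        intro s hs
        rcases eq_or_ne s 1 with rfl | h1
        · exact DirichletCharacter.LFunctionTrivChar₁_apply_one_ne_zero b
        · rw [DirichletCharacter.LFunctionTrivChar₁, Function.update_of_ne h1]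
          exact mul_ne_zero (sub_ne_zero_of_ne h1)
            (DirichletCharacter.LFunction_ne_zero_of_one_le_re _ (.inr h1) hs.1.1)
      · intro s hs
        have h1 : s ≠ 1 := by rintro rfl; simp at hs
        have h2 : s - 1 ≠ 0 := sub_ne_zero_of_ne h1
        simp only [DirichletCharacter.LFunctionTrivChar₁, Function.update_of_ne h1]
        rw [div_mul_eq_div_div, div_self h2, one_div]
    · refine ⟨fun s => (χ.LFunction s)⁻¹, ?_, fun _ _ => rfl⟩
      refine ContinuousOn.inv₀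
        (DirichletCharacter.differentiable_LFunction hχ).continuous.continuousOn ?_
      intro s hs
      exact DirichletCharacter.LFunction_ne_zero_of_one_le_re _ (.inl hχ) hs.1.1
  obtain ⟨B, hB⟩ := hK.exists_bound_of_continuousOn hg
  refine ⟨|B| + 1, by positivity, fun s h1 h2 h3 => ?_⟩
  have := hB s ⟨⟨h1.le, h2⟩, abs_le.1 h3⟩
  rw [hgs s h1, DirichletCharacter.LFunction_eq_LSeries χ h1] at this
  linarith [le_abs_self B]

end HTwo

theorem htwo : S_H2 := by
  intro b _ χ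
  obtain ⟨B1, hB1, h1⟩ := HTwo.bound_sq
  obtain ⟨B2, hB2, h2⟩ := HTwo.inv_bound b χ
  refine ⟨B1 * B2, by positivity, fun σ t hσ hσ2 ht => ?_⟩
  set s : ℂ := σ + t * Complex.I with hs
  have hre : s.re = σ := by simp [hs]
  have him : s.im = t := by simp [hs]
  have hs1 : 1 < s.re := by rw [hre]; exact hσ
  have hne : LSeries (fun n : ℕ => χ n) s ≠ 0 := DirichletCharacter.LSeries_ne_zero_of_one_lt_re χ hs1
  have e : LSeries (lc χ) s =
      LSeries (fun n : ℕ => (χ ^ 2) n) (2 * s) * (LSeries (fun n : ℕ => χ n) s)⁻¹ := by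
    rw [← HTwo.prod_eq χ hs1, mul_assoc, mul_inv_cancel₀ hne, mul_one]
  rw [e, norm_mul]
  refine mul_le_mul (h1 b (χ ^ 2) (2 * s) ?_) (h2 s hs1 (by rw [hre]; exact hσ2) (by rw [him]; exact ht))
    (norm_nonneg _) hB1.le
  simp; linarith

end Pool.Agent.P.MP_a14ce1_nt.Ch
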