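import Pool.Agent.P.MP_a14ce1_nt.Ch.Defs

/-! From characters to residue classes. -/

open Finset Filter

namespace Pool.Agent.P.MP_a14ce1_nt.Ch

namespace Classes

theorem coprime_class (h : S_MRchar) (b : ℕ) (hb : 0 < b) (δ : ℝ) (hδ : 0 < δ) :
    ∀ᶠ R : ℕ in atTop, ∀ᶠ X : ℕ in atTop, ∀ c : ℕ, Nat.Coprime c b →
      ∑ x ∈ range X, |∑ j ∈ (range R).filter (fun j => x + j ≡ c [MOD b]), lam (x + j)| ≤
        δ * R * X := by
  have : NeZero b := ⟨hb.ne'⟩
  have h1 : ∀ᶠ R : ℕ in atTop, ∀ χ : DirichletCharacter ℂ b, ∀ᶠ X : ℕ in atTop,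
      ∑ x ∈ range X, ‖∑ j ∈ range R, lc χ (x + j)‖ ≤ δ * R * X :=
    eventually_all.2 fun χ => by simpa only [eventually_atTop, ge_iff_le] using h b χ δ hδ
  filter_upwards [h1] with R hR
  filter_upwards [eventually_all.2 hR] with X hX c hc
  have hu : IsUnit (c : ZMod b) := (ZMod.isUnit_iff_coprime c b).2 hc
  have hφ : (0 : ℝ) < b.totient := by exact_mod_cast Nat.totient_pos.2 hb
  have key : ∀ x : ℕ, (b.totient : ℝ) *
      |∑ j ∈ (range R).filter (fun j => x + j ≡ c [MOD b]), lam (x + j)| ≤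
      ∑ χ : DirichletCharacter ℂ b, ‖∑ j ∈ range R, lc χ (x + j)‖ := by
    intro x
    have e : ((b.totient * ∑ j ∈ (range R).filter (fun j => x + j ≡ c [MOD b]), lam (x + j) : ℝ) : ℂ)
        = ∑ χ : DirichletCharacter ℂ b, χ (c : ZMod b)⁻¹ * ∑ j ∈ range R, lc χ (x + j) := by
      simp only [mul_sum, lc]
      rw [sum_comm, sum_filter]
      push_cast
      refine sum_congr rfl fun j _ => ?_
      have := DirichletCharacter.sum_char_inv_mul_char_eq ℂ hu ((x + j : ℕ) : ZMod b)
      simp only [mul_left_comm _ (lam (x + j) : ℂ), ← mul_sum]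
      push_cast at this
      rw [this, ← Nat.cast_add]
      simp only [ZMod.natCast_eq_natCast_iff]
      by_cases h : x + j ≡ c [MOD b]
      · simp [h, h.symm, mul_comm]
      · have h' : ¬c ≡ x + j [MOD b] := fun h' => h h'.symm
        simp [h, h']
    rw [← abs_of_pos hφ, ← abs_mul, ← Real.norm_eq_abs, ← Complex.norm_real, e]
    refine (norm_sum_le _ _).trans (sum_le_sum fun χ _ => ?_)
    rw [norm_mul]
    exact mul_le_of_le_one_left (norm_nonneg _) (χ.norm_le_one _)
  refine le_of_mul_le_mul_left ?_ hφ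
  rw [mul_sum]
  refine (sum_le_sum fun x _ => key x).trans ?_
  rw [sum_comm]
  refine (sum_le_sum fun χ _ => hX χ).trans (le_of_eq ?_)
  rw [sum_const, card_univ, ← Nat.card_eq_fintype_card,
    DirichletCharacter.card_eq_totient_of_hasEnoughRootsOfUnity, nsmul_eq_mul]

theorem point (d b c R x : ℕ) (hd : 0 < d) (hx : 0 < x) :
    |∑ j ∈ (range R).filter (fun j => x + j ≡ d * c [MOD d * b]), lam (x + j)| ≤
      |∑ j ∈ (range (R / d)).filter (fun j => (x + d - 1) / d + j ≡ c [MOD b]),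
        lam ((x + d - 1) / d + j)| + 1 := by
  set y := (x + d - 1) / d with hy
  set z := (x + R + d - 1) / d with hz
  have hy' : ∀ n, y ≤ n ↔ x ≤ d * n := fun n => by
    rw [hy, Nat.div_le_iff_le_mul_add_pred hd]; omega
  have hz' : ∀ n, z ≤ n ↔ x + R ≤ d * n := fun n => by
    rw [hz, Nat.div_le_iff_le_mul_add_pred hd]; omega
  clear_value y z
  have h4 := Nat.mul_div_le R d
  have h5 := Nat.div_add_mod R d
  have h6 := Nat.mod_lt R hd
  generalize R / d = r at *
  have hy0 : 0 < y := by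
    by_contra h
    have := (hy' 0).1 (by omega)
    omega
  have h1 : y + r ≤ z := by
    by_contra h
    have h2 := (hz' (y + r - 1)).1 (by omega)
    have h3 := (hy' (y - 1)).not.1 (by omega)
    rw [show y + r - 1 = (y - 1) + r by omega, mul_add] at h2
    omega
  have h2 : z ≤ y + r + 1 := by
    rw [hz', mul_add, mul_add]
    have h3 := (hy' y).1 le_rfl
    omega
  have e1 : ∑ j ∈ (range R).filter (fun j => x + j ≡ d * c [MOD d * b]), lam (x + j) =
      lam d * ∑ n ∈ (Ico y z).filter (fun n => n ≡ c [MOD b]), lam n := by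
    rw [mul_sum]
    symm
    refine sum_bij (fun n _ => d * n - x) (fun n hn => ?_) (fun n hn n' hn' e => ?_)
      (fun j hj => ?_) fun n hn => ?_
    · simp only [mem_filter, mem_Ico, mem_range] at hn ⊢
      have h3 := (hy' n).1 hn.1.1
      have h4 := (hz' n).not.1 (by omega)
      refine ⟨by omega, ?_⟩
      rw [show x + (d * n - x) = d * n by omega]
      exact hn.2.mul_left' d
    · simp only [mem_filter, mem_Ico] at hn hn'
      have h3 := (hy' n).1 hn.1.1
      have h4 := (hy' n').1 hn'.1.1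
      exact Nat.eq_of_mul_eq_mul_left hd (by omega)
    · simp only [mem_filter, mem_range] at hj
      obtain ⟨n, hn⟩ : d ∣ x + j :=
        (Nat.modEq_zero_iff_dvd).1 ((hj.2.of_mul_right b).trans
          (Nat.modEq_zero_iff_dvd.2 (dvd_mul_right d c)))
      refine ⟨n, ?_, by omega⟩
      simp only [mem_filter, mem_Ico]
      refine ⟨⟨(hy' n).2 (by omega), not_le.1 ((hz' n).not.2 (by omega))⟩, ?_⟩
      have := hj.2
      rw [hn] at this
      exact Nat.ModEq.mul_left_cancel' hd.ne' this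
    · simp only [mem_filter, mem_Ico] at hn
      have h3 := (hy' n).1 hn.1.1
      rw [show x + (d * n - x) = d * n by omega, lam_mul hd.ne' (by omega)]
  have e2 : ∑ j ∈ (range r).filter (fun j => y + j ≡ c [MOD b]), lam (y + j) =
      ∑ n ∈ (Ico y (y + r)).filter (fun n => n ≡ c [MOD b]), lam n := by
    rw [sum_filter, sum_filter, sum_Ico_eq_sum_range, Nat.add_sub_cancel_left]
  rw [e1, e2, abs_mul, abs_lam, one_mul, sum_filter, sum_filter]
  rcases h1.eq_or_lt with h | h
  · rw [h]; linarith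
  · rw [show z = y + r + 1 by omega, sum_Ico_succ_top (by omega)]
    refine (abs_add_le _ _).trans (add_le_add_right ?_ _)
    split_ifs
    · exact (abs_lam _).le
    · simp

theorem sum_ceil (F : ℕ → ℝ) (hF : ∀ y, 0 ≤ F y) (d X : ℕ) (hd : 0 < d) :
    ∑ x ∈ range X, F ((x + d - 1) / d) ≤ d * ∑ y ∈ range X, F y := by
  have hmap : ∀ x ∈ range X, (x + d - 1) / d ∈ range X := fun x hx => by
    refine mem_range.2 (lt_of_le_of_lt ?_ (mem_range.1 hx))
    rw [Nat.div_le_iff_le_mul_add_pred hd]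
    have := Nat.le_mul_of_pos_left x hd
    omega
  rw [← sum_fiberwise_of_maps_to hmap, mul_sum]
  refine sum_le_sum fun y _ => ?_
  rw [sum_congr rfl fun x hx => by rw [(mem_filter.1 hx).2], sum_const, nsmul_eq_mul]
  refine mul_le_mul_of_nonneg_right ?_ (hF y)
  have : ((range X).filter fun x => (x + d - 1) / d = y) ⊆ Ico (d * y + 1 - d) (d * y + 1) := by
    intro x hx
    have h1 := (mem_filter.1 hx).2
    have h2 := Nat.div_add_mod (x + d - 1) d
    have h3 := Nat.mod_lt (x + d - 1) hd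
    rw [h1] at h2
    exact mem_Ico.2 (by omega)
  have h := card_le_card this
  rw [Nat.card_Ico] at h
  exact_mod_cast h.trans (by omega)

theorem scaled_class (h : S_MRchar) (d b : ℕ) (hd : 0 < d) (hb : 0 < b) (δ : ℝ) (hδ : 0 < δ) :
    ∀ᶠ R : ℕ in atTop, ∀ᶠ X : ℕ in atTop, ∀ c : ℕ, Nat.Coprime c b →
      ∑ x ∈ range X, |∑ j ∈ (range R).filter (fun j => x + j ≡ d * c [MOD d * b]), lam (x + j)| ≤
        δ * R * X := by
  have h1 := (Nat.tendsto_div_const_atTop hd.ne').eventually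
    (coprime_class h b hb (δ / 3) (by positivity))
  have h2 : ∀ᶠ R : ℕ in atTop, 3 / δ ≤ (R : ℝ) :=
    tendsto_natCast_atTop_atTop.eventually_ge_atTop _
  filter_upwards [h1, h2] with R hR hR'
  filter_upwards [hR, h2] with X hX hX' c hc
  rw [div_le_iff₀' hδ] at hR' hX'
  let F : ℕ → ℝ := fun y => |∑ j ∈ (range (R / d)).filter (fun j => y + j ≡ c [MOD b]), lam (y + j)|
  have h3 : ∀ x ∈ range X,
      |∑ j ∈ (range R).filter (fun j => x + j ≡ d * c [MOD d * b]), lam (x + j)| ≤
        F ((x + d - 1) / d) + 1 + if x = 0 then (R : ℝ) else 0 := by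
    intro x _
    split_ifs with hx
    · refine (abs_sum_le_sum_abs _ _).trans ?_
      simp only [abs_lam, sum_const, nsmul_eq_mul, mul_one]
      have : (((range R).filter (fun j => x + j ≡ d * c [MOD d * b])).card : ℝ) ≤ R := by
        exact_mod_cast (card_filter_le _ _).trans (card_range R).le
      have : 0 ≤ F ((x + d - 1) / d) := abs_nonneg _
      linarith
    · rw [add_zero]; exact point d b c R x hd (Nat.pos_of_ne_zero hx)
  refine (sum_le_sum h3).trans ?_
  rw [sum_add_distrib, sum_add_distrib, sum_ite_eq']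
  have h4 := sum_ceil F (fun _ => abs_nonneg _) d X hd
  have h5 : (d : ℝ) * ∑ y ∈ range X, F y ≤ d * (δ / 3 * (R / d : ℕ) * X) :=
    mul_le_mul_of_nonneg_left (hX c hc) (by positivity)
  have h6 : (d : ℝ) * (R / d : ℕ) ≤ R := by exact_mod_cast Nat.mul_div_le R d
  have h7 : (d : ℝ) * (R / d : ℕ) * (δ / 3 * X) ≤ R * (δ / 3 * X) :=
    mul_le_mul_of_nonneg_right h6 (by positivity)
  have h8 : (if 0 ∈ range X then (R : ℝ) else 0) ≤ R := by
    split_ifs
    · exact le_rfl
    · positivity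
  have h9 : (R : ℝ) * 3 ≤ R * (δ * X) := mul_le_mul_of_nonneg_left hX' (by positivity)
  have h10 : (X : ℝ) * 3 ≤ X * (δ * R) := mul_le_mul_of_nonneg_left hR' (by positivity)
  simp only [sum_const, card_range, nsmul_eq_mul, mul_one]
  nlinarith

end Classes

theorem classes (h : S_MRchar) : S_Classes := by
  intro b δ hb hδ
  have h1 : ∀ᶠ R : ℕ in atTop, ∀ d ∈ b.divisors, ∀ᶠ X : ℕ in atTop, ∀ c : ℕ,
      Nat.Coprime c (b / d) → ∑ x ∈ range X,
        |∑ j ∈ (range R).filter (fun j => x + j ≡ d * c [MOD d * (b / d)]), lam (x + j)| ≤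
        δ * R * X :=
    (eventually_all_finset _).2 fun d hd => Classes.scaled_class h d (b / d)
      (Nat.pos_of_mem_divisors hd) (Nat.div_pos (Nat.divisor_le hd) (Nat.pos_of_mem_divisors hd))
      δ hδ
  obtain ⟨R0, hR0⟩ := eventually_atTop.1 h1
  refine ⟨R0, fun R hR c => ?_⟩
  obtain ⟨X0, hX0⟩ := eventually_atTop.1
    (hR0 R hR (Nat.gcd c b) (Nat.mem_divisors.2 ⟨Nat.gcd_dvd_right c b, hb.ne'⟩))
  refine ⟨X0, fun X hX => ?_⟩
  have := hX0 X hX (c / Nat.gcd c b) (Nat.coprime_div_gcd_div_gcd (Nat.gcd_pos_of_pos_right c hb))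
  rwa [Nat.mul_div_cancel' (Nat.gcd_dvd_left c b), Nat.mul_div_cancel' (Nat.gcd_dvd_right c b)]
    at this

end Pool.Agent.P.MP_a14ce1_nt.Ch
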