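import Pool.Agent.P.MP_a14ce1_nt.Ch.Defs

/-! Additive energy of the primes in a dyadic interval, by the upper bound sieve. -/

open Finset

namespace Pool.Agent.P.MP_a14ce1_nt.Ch

namespace Energy

theorem card_crt {a b : ℕ} (h : a.Coprime b) (ha : 0 < a) (hb : 0 < b) (p q : ℕ → Prop)
    [DecidablePred p] [DecidablePred q] (hp : ∀ n, p (n % a) ↔ p n) (hq : ∀ n, q (n % b) ↔ q n) :
    ((range (a * b)).filter (fun n => p n ∧ q n)).card =
      ((range a).filter p).card * ((range b).filter q).card := by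
  rw [← card_product]
  apply card_nbij (fun n => (n % a, n % b))
  · intro n hn
    simp only [coe_filter, mem_range, Set.mem_setOf_eq] at hn
    simp only [coe_product, coe_filter, mem_range, Set.mem_prod, Set.mem_setOf_eq]
    exact ⟨⟨Nat.mod_lt _ ha, (hp n).2 hn.2.1⟩, Nat.mod_lt _ hb, (hq n).2 hn.2.2⟩
  · intro n hn m hm e
    simp only [coe_filter, mem_range, Set.mem_setOf_eq] at hn hm
    have e' : n ≡ m [MOD a * b] := (Nat.modEq_and_modEq_iff_modEq_mul h).1
      ⟨congrArg Prod.fst e, congrArg Prod.snd e⟩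
    exact Nat.ModEq.eq_of_lt_of_lt e' hn.1 hm.1
  · rintro ⟨u, v⟩ huv
    simp only [coe_product, coe_filter, mem_range, Set.mem_prod, Set.mem_setOf_eq] at huv
    obtain ⟨n, h1, h2⟩ := Nat.chineseRemainder h u v
    have e1 : n % (a * b) % a = u := by
      rw [Nat.mod_mul_right_mod, h1, Nat.mod_eq_of_lt huv.1.1]
    have e2 : n % (a * b) % b = v := by
      rw [Nat.mod_mul_left_mod, h2, Nat.mod_eq_of_lt huv.2.1]
    refine ⟨n % (a * b), ?_, by simp only [e1, e2]⟩
    simp only [coe_filter, mem_range, Set.mem_setOf_eq]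
    refine ⟨Nat.mod_lt _ (Nat.mul_pos ha hb), (hp _).1 ?_, (hq _).1 ?_⟩
    · rw [e1]; exact huv.1.2
    · rw [e2]; exact huv.2.2

theorem dvd_mod_iff' {q d : ℕ} (h : q ∣ d) (k n : ℕ) :
    q ∣ n % d * (n % d + k) ↔ q ∣ n * (n + k) := by
  have e : n % d ≡ n [MOD q] := (Nat.mod_modEq n d).of_dvd h
  exact (e.mul (e.add_right k)).dvd_iff dvd_rfl

theorem card_one {q k : ℕ} (hq : q.Prime) (hk : ¬ q ∣ k) :
    ((range q).filter (fun n => q ∣ n * (n + k))).card = 2 := by
  have h0 : k % q ≠ 0 := fun e => hk (Nat.dvd_of_mod_eq_zero e)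
  have h1 : k % q < q := Nat.mod_lt _ hq.pos
  have e : (range q).filter (fun n => q ∣ n * (n + k)) = {0, q - k % q} := by
    ext n
    simp only [mem_filter, mem_range, mem_insert, mem_singleton, hq.dvd_mul]
    have e2 : q ∣ n + k ↔ q ∣ n + k % q :=
      (((Nat.mod_modEq k q).add_left n).dvd_iff dvd_rfl).symm
    rw [e2]
    constructor
    · rintro ⟨hn, h | h⟩
      · exact Or.inl (Nat.eq_zero_of_dvd_of_lt h hn)
      · have := Nat.eq_of_dvd_of_lt_two_mul (by omega) h (by omega)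
        omega
    · rintro (rfl | rfl)
      · exact ⟨hq.pos, Or.inl (dvd_zero _)⟩
      · refine ⟨by omega, Or.inr ?_⟩
        rw [Nat.sub_add_cancel h1.le]
  rw [e, card_pair (by omega)]

theorem pv_pos {T : Finset ℕ} (hT : ∀ q ∈ T, q.Prime) : 0 < pv T :=
  prod_pos fun q hq => (hT q hq).pos

theorem card_roots (k : ℕ) (T : Finset ℕ) (hT : ∀ q ∈ T, q.Prime ∧ ¬ q ∣ k) :
    ((range (pv T)).filter (fun n => ∀ q ∈ T, q ∣ n * (n + k))).card = 2 ^ T.card := by
  induction T using Finset.induction_on with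
  | empty => simp [pv]
  | insert q T hqT ih =>
    have hq := hT q (mem_insert_self _ _)
    have hT' : ∀ q ∈ T, q.Prime ∧ ¬ q ∣ k := fun r hr => hT r (mem_insert_of_mem hr)
    have e : pv (insert q T) = q * pv T := prod_insert hqT
    have hc : q.Coprime (pv T) := Nat.Coprime.prod_right fun r hr =>
      (Nat.coprime_primes hq.1 (hT' r hr).1).2 fun e => hqT (e ▸ hr)
    simp only [e, forall_mem_insert]
    rw [card_crt hc hq.1.pos (pv_pos fun r hr => (hT' r hr).1) (fun n => q ∣ n * (n + k))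
      (fun n => ∀ r ∈ T, r ∣ n * (n + k)) (fun n => dvd_mod_iff' dvd_rfl k n)
      (fun n => forall₂_congr fun r hr => dvd_mod_iff' (dvd_prod_of_mem _ hr) k n),
      card_one hq.1 hq.2, ih hT', card_insert_of_notMem hqT, pow_succ']

theorem card_split (p : ℕ → Prop) [DecidablePred p] (a u v : ℕ) :
    ((Ico a (a + (u + v))).filter p).card =
      ((Ico a (a + u)).filter p).card + ((Ico (a + u) (a + u + v)).filter p).card := by
  rw [← add_assoc, ← Ico_union_Ico_eq_Ico (Nat.le_add_right a u) (Nat.le_add_right (a + u) v),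
    filter_union, card_union_of_disjoint
      (disjoint_filter_filter (Ico_disjoint_Ico_consecutive _ _ _))]

theorem card_periodic (p : ℕ → Prop) [DecidablePred p] {d : ℕ} (hd : 0 < d)
    (hp : Function.Periodic p d) (a L : ℕ) :
    |(((Ico a (a + L)).filter p).card : ℝ) - L * (((range d).filter p).card / d)| ≤ d := by
  set N := ((range d).filter p).card with hN
  have hNd : N ≤ d := (card_filter_le _ _).trans (card_range d).le
  have h1 : ∀ m, ((Ico a (a + d * m)).filter p).card = m * N := by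
    intro m
    induction m with
    | zero => simp
    | succ m ih =>
      rw [mul_add_one, card_split, ih, Nat.filter_Ico_card_eq_of_periodic _ _ _ hp,
        Nat.count_eq_card_filter_range, add_one_mul]
  have h2 : ((Ico (a + d * (L / d)) (a + d * (L / d) + L % d)).filter p).card ≤ L % d :=
    (card_filter_le _ _).trans (by simp)
  have h3 : L % d < d := Nat.mod_lt _ hd
  have h4 : (L : ℝ) = d * (L / d : ℕ) + (L % d : ℕ) := by exact_mod_cast (Nat.div_add_mod L d).symm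
  have h5 := card_split p a (d * (L / d)) (L % d)
  rw [Nat.div_add_mod, h1] at h5
  rw [h5, h4]
  have hd' : (0 : ℝ) < d := by exact_mod_cast hd
  have h6 : (0 : ℝ) ≤ (N : ℝ) / d := by positivity
  have h7 : (N : ℝ) / d ≤ 1 := (div_le_one hd').2 (by exact_mod_cast hNd)
  have h8 : (d : ℝ) * (L / d : ℕ) * (N / d) = (L / d : ℕ) * N := by field_simp
  have h9 : ((L % d : ℕ) : ℝ) ≤ d := by exact_mod_cast h3.le
  have h10 : (((Ico (a + d * (L / d)) (a + d * (L / d) + L % d)).filter p).card : ℝ) ≤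
    (L % d : ℕ) := by exact_mod_cast h2
  have h11 : (0 : ℝ) ≤ ((Ico (a + d * (L / d)) (a + d * (L / d) + L % d)).filter p).card :=
    Nat.cast_nonneg _
  have h12 : (0 : ℝ) ≤ (L % d : ℕ) := Nat.cast_nonneg _
  push_cast
  rw [add_mul, h8, abs_le]
  constructor <;> nlinarith

theorem remainder (k P : ℕ) (T : Finset ℕ) (hT : ∀ q ∈ T, q.Prime ∧ ¬ q ∣ k) :
    |(((Ioc P (2 * P)).filter (fun n => ∀ q ∈ T, q ∣ n * (n + k))).card : ℝ) -
      P * ∏ q ∈ T, (2 : ℝ) / q| ≤ pv T := by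
  have hper : Function.Periodic (fun n => ∀ q ∈ T, q ∣ n * (n + k)) (pv T) := by
    intro n
    apply propext
    refine forall₂_congr fun q hq => ?_
    have e : n + pv T ≡ n [MOD q] :=
      (Nat.modEq_iff_dvd' (Nat.le_add_right _ _)).2
        (by rw [Nat.add_sub_cancel_left]; exact dvd_prod_of_mem _ hq) |>.symm
    exact (e.mul (e.add_right k)).dvd_iff dvd_rfl
  have h := card_periodic _ (pv_pos fun q hq => (hT q hq).1) hper (P + 1) P
  have e : Ico (P + 1) (P + 1 + P) = Ioc P (2 * P) := by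
    ext n; simp only [mem_Ico, mem_Ioc]; omega
  rw [e, card_roots k T hT] at h
  have e2 : ∏ q ∈ T, (2 : ℝ) / q = ((2 ^ T.card : ℕ) : ℝ) / pv T := by
    rw [prod_div_distrib, prod_const, pv]; push_cast; rfl
  rwa [e2]

/-- primes in the window whose translate is prime -/
def Sk (P k : ℕ) : Finset ℕ := (Ioc P (2 * P)).filter fun p => p.Prime ∧ (p + k).Prime

/-- the local factor -/
noncomputable def lf (k : ℕ) : ℝ := ∑ q ∈ k.primeFactors, (1 : ℝ) / q

theorem card_Sk_le (P k : ℕ) : (Sk P k).card ≤ P :=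
  (card_filter_le _ _).trans (by simp; omega)

theorem sieve_bound (h1 : S_M1) (hS : S_Sieve) : ∃ C : ℝ, 0 < C ∧ ∀ P z k : ℕ, 2 ≤ z → z ≤ P →
    k ≠ 0 → ((Sk P k).card : ℝ) ≤
      C * P / (Real.log z) ^ 2 * Real.exp (2 * lf k) + 2 * (z : ℝ) ^ 14 := by
  obtain ⟨C1, hC1, h1⟩ := h1
  obtain ⟨C, hC, hS⟩ := hS 2 (1 / 3) (by norm_num) (by norm_num)
  refine ⟨(C + 1) * Real.exp (2 * C1), by positivity, fun P z k hz hzP hk => ?_⟩
  set Q := ((Ioc 2 z).filter Nat.Prime).filter fun q => ¬ q ∣ k with hQ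
  have hQm : ∀ q ∈ Q, q.Prime ∧ 2 < q ∧ q ≤ z ∧ ¬ q ∣ k := fun q hq => by
    simp only [hQ, mem_filter, mem_Ioc] at hq
    tauto
  have hz1 : (1 : ℝ) ≤ z := by exact_mod_cast (by omega : 1 ≤ z)
  have hrem : ∀ T ⊆ Q, pv T ≤ z ^ (4 * 0 + 6) →
      |(((Ioc P (2 * P)).filter (fun n => ∀ q ∈ T, q ∣ n * (n + k))).card : ℝ) -
        P * ∏ q ∈ T, (2 : ℝ) / q| ≤ (z : ℝ) ^ 6 := fun T hT hv =>
    (remainder k P T fun q hq => ⟨(hQm q (hT hq)).1, (hQm q (hT hq)).2.2.2⟩).trans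
      (by exact_mod_cast hv)
  have key := hS ℕ (Ioc P (2 * P)) (fun _ => 1) z 0 Q (fun n q => q ∣ n * (n + k))
    (fun q => 2 / q) P ((z : ℝ) ^ 6) P (fun _ => (z : ℝ) ^ 6) hz (Nat.cast_nonneg _) (by simp)
    (by simp) (fun q hq => ⟨(hQm q hq).1, (hQm q hq).2.2.1⟩) (fun q hq => ?_)
    (fun _ => by positivity) hrem (fun T hT hv => ?_)
  rotate_left
  · have h3 : (3 : ℝ) ≤ q := by exact_mod_cast (hQm q hq).2.1
    refine ⟨by positivity, le_rfl, ?_⟩
    rw [div_le_iff₀ (by linarith)]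
    linarith
  · have := hrem T hT hv
    rw [sum_const, nsmul_eq_mul, mul_one, ← Real.norm_eq_abs, ← Complex.norm_real] at *
    simpa using this
  set V := ∏ q ∈ Q, (1 - (2 : ℝ) / q) with hV
  set N := ((Ioc P (2 * P)).filter fun n => ∀ q ∈ Q, ¬ q ∣ n * (n + k)).card with hN
  have k1 : (N : ℝ) ≤ (C + 1) * P * V + 2 * (z : ℝ) ^ 14 := by
    have e : (∑ x ∈ (Ioc P (2 * P)).filter (fun n => ∀ q ∈ Q, ¬ q ∣ n * (n + k)), (1 : ℂ)) -
        (P : ℂ) * (V : ℂ) = (((N : ℝ) - P * V : ℝ) : ℂ) := by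
      rw [sum_const, nsmul_eq_mul, mul_one]; push_cast; rfl
    rw [e, Complex.norm_real, Real.norm_eq_abs, sum_const, Nat.card_Icc, nsmul_eq_mul] at key
    have e2 := (le_abs_self _).trans key
    have e3 : (z : ℝ) ^ 6 * (z : ℝ) ^ 6 ≤ (z : ℝ) ^ 14 := by
      rw [← pow_add]; exact pow_le_pow_right₀ hz1 (by norm_num)
    simp only [mul_zero, zero_add, pow_zero, div_one, add_tsub_cancel_right, Nat.cast_pow] at e2
    nlinarith
  have k2 : (Sk P k).card ≤ N := by
    apply card_le_card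
    intro p hp
    simp only [Sk, mem_filter, mem_Ioc] at hp ⊢
    refine ⟨hp.1, fun q hq hd => ?_⟩
    obtain ⟨q1, -, q3, -⟩ := hQm q hq
    rcases (Nat.Prime.dvd_mul q1).1 hd with h | h
    · have := (Nat.prime_dvd_prime_iff_eq q1 hp.2.1).1 h; omega
    · have := (Nat.prime_dvd_prime_iff_eq q1 hp.2.2).1 h; omega
  have k3 : V ≤ Real.exp (-(2 * rs Q)) := by
    rw [rs, mul_sum, ← sum_neg_distrib, Real.exp_sum]
    refine prod_le_prod (fun q hq => ?_) fun q hq => ?_
    · have h3 : (2 : ℝ) ≤ q := by exact_mod_cast (hQm q hq).2.1.le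
      rw [sub_nonneg, div_le_one (by linarith)]
      exact h3
    · have := Real.add_one_le_exp (-(2 * (1 / (q : ℝ))))
      rw [mul_one_div] at this ⊢
      linarith
  have k4 : rs (pr 2 z) ≤ rs Q + lf k := by
    have e : pr 2 z = (Ioc 2 z).filter Nat.Prime := by exact_mod_cast pr_nat 2 z
    rw [e, rs, ← sum_filter_not_add_sum_filter _ (fun q => q ∣ k)]
    refine add_le_add le_rfl (sum_le_sum_of_subset_of_nonneg (fun q hq => ?_)
      fun _ _ _ => by positivity)
    simp only [mem_filter] at hq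
    exact Nat.mem_primeFactors.2 ⟨hq.1.2, hq.2, hk⟩
  have hz2 : (2 : ℝ) ≤ z := by exact_mod_cast hz
  have k5 := (abs_le.1 (h1 2 z le_rfl hz2)).1
  have hl2 : 0 < Real.log 2 := Real.log_pos (by norm_num)
  have hl1 : Real.log 2 ≤ 1 := by
    have := Real.log_le_sub_one_of_pos (x := 2) (by norm_num); linarith
  have hlz : 0 < Real.log z := Real.log_pos (by linarith)
  have k6 : Real.log (Real.log z) ≤ Real.log (Real.log z / Real.log 2) :=
    Real.log_le_log hlz (by rw [le_div_iff₀ hl2]; nlinarith)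
  have k7 : V ≤ Real.exp (2 * C1) / (Real.log z) ^ 2 * Real.exp (2 * lf k) := by
    have e : (Real.log z) ^ 2 = Real.exp (2 * Real.log (Real.log z)) := by
      rw [two_mul, Real.exp_add, Real.exp_log hlz, sq]
    rw [e, ← Real.exp_sub, ← Real.exp_add]
    exact k3.trans (Real.exp_le_exp.2 (by linarith))
  calc ((Sk P k).card : ℝ) ≤ N := by exact_mod_cast k2
    _ ≤ (C + 1) * P * V + 2 * (z : ℝ) ^ 14 := k1
    _ ≤ (C + 1) * P * (Real.exp (2 * C1) / (Real.log z) ^ 2 * Real.exp (2 * lf k)) +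
        2 * (z : ℝ) ^ 14 := by gcongr
    _ = _ := by ring

theorem exp_le_one_add {x : ℝ} (h0 : 0 ≤ x) (h4 : x ≤ 4) :
    Real.exp x ≤ 1 + Real.exp 4 * x := by
  have h1 := Real.add_one_le_exp (-x)
  have h2 : Real.exp x * Real.exp (-x) = 1 := by rw [← Real.exp_add]; simp
  have h3 : Real.exp x ≤ Real.exp 4 := Real.exp_le_exp.2 h4
  have h5 := Real.exp_pos x
  nlinarith

theorem sum_lf : ∃ C : ℝ, 0 < C ∧ ∀ P : ℕ, ∑ k ∈ Ioc 0 P, Real.exp (4 * lf k) ≤ C * P := by
  set c : ℝ := Real.exp 4 * 4 with hc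
  have hc0 : 0 < c := by positivity
  refine ⟨Real.exp (c * 2), Real.exp_pos _, fun P => ?_⟩
  set Q := (Ioc 0 P).filter Nat.Prime with hQ
  have h1 : ∀ k ∈ Ioc 0 P, Real.exp (4 * lf k) ≤
      ∑ T ∈ Q.powerset, if pv T ∣ k then ∏ q ∈ T, c / q else 0 := by
    intro k hk
    have hk' := mem_Ioc.1 hk
    calc Real.exp (4 * lf k) = ∏ q ∈ k.primeFactors, Real.exp (4 * (1 / q)) := by
          rw [lf, mul_sum, Real.exp_sum]
      _ ≤ ∏ q ∈ k.primeFactors, (1 + c / q) := by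
          refine prod_le_prod (fun _ _ => (Real.exp_pos _).le) fun q hq => ?_
          have hq1 : (1 : ℝ) ≤ q := by exact_mod_cast (Nat.prime_of_mem_primeFactors hq).one_le
          have h4 : 1 / (q : ℝ) ≤ 1 := (div_le_one (by linarith)).2 hq1
          refine (exp_le_one_add (by positivity) (by linarith)).trans_eq ?_
          rw [hc]; ring
      _ = ∑ T ∈ k.primeFactors.powerset, ∏ q ∈ T, c / q := prod_one_add _
      _ = ∑ T ∈ k.primeFactors.powerset, if pv T ∣ k then ∏ q ∈ T, c / q else 0 := by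
          refine sum_congr rfl fun T hT => ?_
          rw [if_pos]
          exact (prod_dvd_prod_of_subset _ _ _ (mem_powerset.1 hT)).trans
            (Nat.prod_primeFactors_dvd k)
      _ ≤ _ := by
          refine sum_le_sum_of_subset_of_nonneg (powerset_mono.2 fun q hq => ?_) fun T _ _ => ?_
          · have hp := Nat.prime_of_mem_primeFactors hq
            exact mem_filter.2 ⟨mem_Ioc.2 ⟨hp.pos, (Nat.le_of_mem_primeFactors hq).trans hk'.2⟩, hp⟩
          · split_ifs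
            · exact prod_nonneg fun _ _ => by positivity
            · exact le_rfl
  refine (sum_le_sum h1).trans ?_
  rw [sum_comm]
  have h2 : ∀ T ∈ Q.powerset, (∑ k ∈ Ioc 0 P, if pv T ∣ k then ∏ q ∈ T, c / q else 0) ≤
      (∏ q ∈ T, c * ((q : ℝ) ^ 2)⁻¹) * P := by
    intro T hT
    rw [← sum_filter, sum_const, Nat.Ioc_filter_dvd_card_eq_div, nsmul_eq_mul]
    have e : (∏ q ∈ T, c * ((q : ℝ) ^ 2)⁻¹) * P = P / (pv T : ℕ) * ∏ q ∈ T, c / q := by
      rw [pv, Nat.cast_prod, div_eq_mul_inv, ← prod_inv_distrib, mul_assoc, ← prod_mul_distrib,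
        mul_comm]
      congr 1
      refine prod_congr rfl fun q _ => ?_
      rw [sq, mul_inv, div_eq_mul_inv]; ring
    rw [e]
    exact mul_le_mul_of_nonneg_right Nat.cast_div_le (prod_nonneg fun _ _ => by positivity)
  refine (sum_le_sum h2).trans ?_
  rw [← sum_mul, ← prod_one_add]
  refine mul_le_mul_of_nonneg_right ((Real.prod_one_add_le_exp_sum _ fun _ => by positivity).trans
    (Real.exp_le_exp.2 ?_)) (Nat.cast_nonneg _)
  rw [← mul_sum]
  refine mul_le_mul_of_nonneg_left ?_ hc0.le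
  have h3 := sum_Ioo_inv_sq_le (α := ℝ) 0 (P + 1)
  refine le_trans (sum_le_sum_of_subset_of_nonneg (fun q hq => ?_) fun _ _ _ => by positivity)
    (h3.trans (by norm_num))
  have := mem_Ioc.1 (mem_filter.1 hq).1
  exact mem_Ioo.2 ⟨this.1, by omega⟩

theorem count_le (P : ℕ) :
    ((((Ioc P (2 * P)).filter Nat.Prime ×ˢ (Ioc P (2 * P)).filter Nat.Prime) ×ˢ
      ((Ioc P (2 * P)).filter Nat.Prime ×ˢ (Ioc P (2 * P)).filter Nat.Prime)).filter
      (fun q => q.1.1 + q.1.2 = q.2.1 + q.2.2)).card ≤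
      2 * ∑ k ∈ range (P + 1), (Sk P k).card ^ 2 := by
  set W := ((((Ioc P (2 * P)).filter Nat.Prime ×ˢ (Ioc P (2 * P)).filter Nat.Prime) ×ˢ
      ((Ioc P (2 * P)).filter Nat.Prime ×ˢ (Ioc P (2 * P)).filter Nat.Prime)).filter
      (fun q => q.1.1 + q.1.2 = q.2.1 + q.2.2)) with hW
  set B := (range (P + 1)).sigma fun k => Sk P k ×ˢ Sk P k with hB
  have hBc : B.card = ∑ k ∈ range (P + 1), (Sk P k).card ^ 2 := by
    rw [hB, card_sigma]
    exact sum_congr rfl fun k _ => by rw [card_product, sq]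
  rw [← hBc, ← card_filter_add_card_filter_not (s := W) (fun q => q.2.1 ≤ q.1.1), two_mul]
  apply add_le_add
  · apply card_le_card_of_injOn (fun q => ⟨q.1.1 - q.2.1, (q.2.1, q.1.2)⟩)
    · rintro ⟨⟨a, b⟩, c, d⟩ hq
      simp only [hW, coe_filter, mem_filter, mem_product, mem_Ioc, Set.mem_setOf_eq] at hq
      obtain ⟨⟨⟨⟨ha, hb⟩, hc, hd⟩, e⟩, hle⟩ := hq
      simp only [hB, Sk, mem_coe, mem_sigma, mem_range, mem_product, mem_filter, mem_Ioc]
      have e1 : c + (a - c) = a := by omega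
      have e2 : b + (a - c) = d := by omega
      rw [e1, e2]
      exact ⟨by omega, ⟨hc.1, hc.2, ha.2⟩, hb.1, hb.2, hd.2⟩
    · rintro ⟨⟨a, b⟩, c, d⟩ hq ⟨⟨a', b'⟩, c', d'⟩ hq' e
      simp only [hW, coe_filter, mem_filter, mem_product, mem_Ioc, Set.mem_setOf_eq] at hq hq'
      simp only [Sigma.mk.injEq, heq_eq_eq, Prod.mk.injEq] at e ⊢
      omega
  · apply card_le_card_of_injOn (fun q => ⟨q.2.1 - q.1.1, (q.1.1, q.2.2)⟩)
    · rintro ⟨⟨a, b⟩, c, d⟩ hq
      simp only [hW, coe_filter, mem_filter, mem_product, mem_Ioc, Set.mem_setOf_eq] at hq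
      obtain ⟨⟨⟨⟨ha, hb⟩, hc, hd⟩, e⟩, hle⟩ := hq
      simp only [hB, Sk, mem_coe, mem_sigma, mem_range, mem_product, mem_filter, mem_Ioc]
      have e1 : a + (c - a) = c := by omega
      have e2 : d + (c - a) = b := by omega
      rw [e1, e2]
      exact ⟨by omega, ⟨ha.1, ha.2, hc.2⟩, hd.1, hd.2, hb.2⟩
    · rintro ⟨⟨a, b⟩, c, d⟩ hq ⟨⟨a', b'⟩, c', d'⟩ hq' e
      simp only [hW, coe_filter, mem_filter, mem_product, mem_Ioc, Set.mem_setOf_eq] at hq hq'
      simp only [Sigma.mk.injEq, heq_eq_eq, Prod.mk.injEq] at e ⊢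
      omega

theorem log_pow_four_le {x : ℝ} (hx : 1 ≤ x) : (Real.log x) ^ 4 ≤ 24 * x := by
  have h := Real.pow_div_factorial_le_exp (Real.log x) (Real.log_nonneg hx) 4
  rw [Real.exp_log (by linarith), div_le_iff₀ (by positivity)] at h
  simpa [Nat.factorial, mul_comm] using h

theorem sq_bound (h1 : S_M1) (hS : S_Sieve) : ∃ C : ℝ, 0 < C ∧ ∀ P k : ℕ, 2 ≤ P → k ≠ 0 →
    ((Sk P k).card : ℝ) ^ 2 ≤ C * ((P : ℝ) ^ 2 / (Real.log P) ^ 4) * Real.exp (4 * lf k) := by
  obtain ⟨C, hC, h⟩ := sieve_bound h1 hS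
  refine ⟨2 * (C * 56 ^ 2) ^ 2 + 8 * 24 + 24 * 2 ^ 28, by positivity, fun P k hP hk => ?_⟩
  have hP2 : (2 : ℝ) ≤ P := by exact_mod_cast hP
  have hl : 0 < Real.log P := Real.log_pos (by linarith)
  have hl4 := log_pow_four_le (x := P) (by linarith)
  have hlf : 0 ≤ lf k := sum_nonneg fun _ _ => by positivity
  have hE : 1 ≤ Real.exp (4 * lf k) := Real.one_le_exp (by positivity)
  set Y := (P : ℝ) ^ 2 / (Real.log P) ^ 4 with hY
  have hY0 : 0 < Y := by positivity
  have hYE : Y ≤ Y * Real.exp (4 * lf k) := le_mul_of_one_le_right hY0.le hE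
  have hPY : (P : ℝ) ≤ 24 * Y := by
    rw [hY, ← mul_div_assoc, le_div_iff₀ (by positivity)]
    nlinarith
  by_cases hs : P < 2 ^ 28
  · have e1 : ((Sk P k).card : ℝ) ≤ P := by exact_mod_cast card_Sk_le P k
    have e2 : (P : ℝ) ≤ 2 ^ 28 := by exact_mod_cast hs.le
    have e3 : ((Sk P k).card : ℝ) ^ 2 ≤ (P : ℝ) ^ 2 := by gcongr
    have e4 : (P : ℝ) ^ 2 ≤ 2 ^ 28 * (24 * Y) := by rw [sq]; gcongr
    have e5 : 0 ≤ (C * 56 ^ 2) ^ 2 * (Y * Real.exp (4 * lf k)) := by positivity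
    nlinarith
  · set z := Nat.nthRoot 28 P with hz
    have hz2 : 2 ≤ z := (Nat.le_nthRoot_iff (by norm_num)).2 (not_lt.1 hs)
    have hzP : z ^ 28 ≤ P := Nat.pow_nthRoot_le_iff.2 (Or.inl (by norm_num))
    have hPz : P < (z + 1) ^ 28 := Nat.lt_pow_nthRoot_add_one (by norm_num) P
    have hzP' : z ≤ P := (Nat.le_self_pow (by norm_num) z).trans hzP
    have hPz' : P ≤ z ^ 56 := by
      refine hPz.le.trans ?_
      rw [show 56 = 2 * 28 by norm_num, pow_mul]
      refine Nat.pow_le_pow_left ?_ _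
      clear_value z
      clear hPz hzP hzP' hs
      nlinarith
    have hz2' : (2 : ℝ) ≤ z := by exact_mod_cast hz2
    have hlz : 0 < Real.log z := Real.log_pos (by linarith)
    have hlog : Real.log P ≤ 56 * Real.log z := by
      have := Real.log_le_log (by linarith : (0 : ℝ) < P) (by exact_mod_cast hPz' : (P : ℝ) ≤ z ^ 56)
      simpa using this
    have e1 := h P z k hz2 hzP' hk
    have e2 : C * P / (Real.log z) ^ 2 ≤ C * 56 ^ 2 * P / (Real.log P) ^ 2 := by
      rw [div_le_div_iff₀ (by positivity) (by positivity)]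
      have : (Real.log P) ^ 2 ≤ (56 * Real.log z) ^ 2 := by gcongr
      calc C * P * (Real.log P) ^ 2 ≤ C * P * (56 * Real.log z) ^ 2 := by gcongr
        _ = _ := by ring
    set a := C * 56 ^ 2 * P / (Real.log P) ^ 2 * Real.exp (2 * lf k) with ha
    set b := 2 * (z : ℝ) ^ 14 with hb
    have e3 : ((Sk P k).card : ℝ) ≤ a + b := e1.trans
      (add_le_add (mul_le_mul_of_nonneg_right e2 (Real.exp_pos _).le) le_rfl)
    have e4 : ((Sk P k).card : ℝ) ^ 2 ≤ 2 * a ^ 2 + 2 * b ^ 2 :=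
      (pow_le_pow_left₀ (Nat.cast_nonneg _) e3 2).trans (add_sq_le.trans_eq (mul_add _ _ _))
    have e5 : a ^ 2 = (C * 56 ^ 2) ^ 2 * (Y * Real.exp (4 * lf k)) := by
      rw [ha, hY, show 4 * lf k = 2 * lf k + 2 * lf k by ring, Real.exp_add]
      field_simp
    have e6 : b ^ 2 ≤ 4 * P := by
      have : (z : ℝ) ^ 28 ≤ P := by exact_mod_cast hzP
      calc b ^ 2 = 4 * (z : ℝ) ^ 28 := by rw [hb]; ring
        _ ≤ _ := by linarith
    have e7 : 0 ≤ Y * Real.exp (4 * lf k) := by positivity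
    rw [mul_assoc]
    generalize Y * Real.exp (4 * lf k) = u at *
    generalize (C * 56 ^ 2) ^ 2 = c at *
    linarith

end Energy

open Energy in
theorem energy (h1 : S_M1) (hS : S_Sieve) : S_Energy := by
  obtain ⟨C, hC, h⟩ := sq_bound h1 hS
  obtain ⟨D, hD, hd⟩ := sum_lf
  refine ⟨2 * (C * D + 24), by positivity, fun P hP => ?_⟩
  have hP2 : (2 : ℝ) ≤ P := by exact_mod_cast hP
  have hl : 0 < Real.log P := Real.log_pos (by linarith)
  have hl4 := log_pow_four_le (x := P) (by linarith)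
  set Y := (P : ℝ) ^ 2 / (Real.log P) ^ 4 with hY
  have hY0 : 0 < Y := by positivity
  have hPY : (P : ℝ) ≤ 24 * Y := by
    rw [hY, ← mul_div_assoc, le_div_iff₀ (by positivity)]
    nlinarith
  have e0 : range (P + 1) = insert 0 (Ioc 0 P) := by
    ext k; simp only [mem_range, mem_insert, mem_Ioc]; omega
  have e1 : ∑ k ∈ Ioc 0 P, ((Sk P k).card : ℝ) ^ 2 ≤ C * Y * (D * P) := by
    refine (sum_le_sum fun k hk => h P k hP (mem_Ioc.1 hk).1.ne').trans ?_
    rw [← mul_sum]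
    exact mul_le_mul_of_nonneg_left (hd P) (by positivity)
  have e2 : ((Sk P 0).card : ℝ) ^ 2 ≤ 24 * Y * P := by
    have : ((Sk P 0).card : ℝ) ≤ P := by exact_mod_cast card_Sk_le P 0
    calc ((Sk P 0).card : ℝ) ^ 2 ≤ (P : ℝ) ^ 2 := by gcongr
      _ ≤ 24 * Y * P := by rw [sq]; gcongr
  have e3 := count_le P
  rw [e0, sum_insert (by simp)] at e3
  refine le_trans (by exact_mod_cast e3 : _ ≤ 2 * (((Sk P 0).card : ℝ) ^ 2 +
    ∑ k ∈ Ioc 0 P, ((Sk P k).card : ℝ) ^ 2)) ?_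
  calc _ ≤ 2 * (24 * Y * P + C * Y * (D * P)) := by gcongr
    _ = _ := by rw [hY]; ring

end Pool.Agent.P.MP_a14ce1_nt.Ch
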