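import Pool.Agent.P.MP_a14ce1_nt.Ch.Defs

open Finset MeasureTheory

namespace Pool.Agent.P.MP_a14ce1_nt.Ch

namespace First

noncomputable def wt (g : Finset ℕ) : ℝ := (63 : ℝ) ^ g.card / pv g

lemma wt_nonneg (g : Finset ℕ) : 0 ≤ wt g := by
  unfold wt
  positivity

lemma pv_insert {q : ℕ} {g : Finset ℕ} (h : q ∉ g) : pv (insert q g) = q * pv g :=
  prod_insert h

lemma wt_insert {q : ℕ} {g : Finset ℕ} (h : q ∉ g) : wt (insert q g) = 63 / q * wt g := by
  rw [wt, wt, pv_insert h, card_insert_of_notMem h, pow_succ, Nat.cast_mul, div_mul_div_comm,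
    mul_comm (63 : ℝ)]

lemma pv_pos {g : Finset ℕ} (h : ∀ q ∈ g, q.Prime) : 0 < pv g :=
  prod_pos fun q hq => (h q hq).pos

lemma Zc_pos (G : Finset ℕ) : 0 < Zc G := prod_pos fun q _ => by positivity

lemma sum_wt (G : Finset ℕ) : ∑ g ∈ G.powerset, wt g = Zc G := by
  rw [Zc, prod_one_add]
  refine sum_congr rfl fun g _ => ?_
  rw [wt, pv, prod_div_distrib, prod_const, Nat.cast_prod]

lemma sum_wt_log (G : Finset ℕ) (hG : ∀ q ∈ G, q.Prime) :
    ∑ g ∈ G.powerset, wt g * Real.log (pv g) ≤ Zc G * (63 * ∑ q ∈ G, Real.log q / q) := by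
  induction G using Finset.induction_on with
  | empty => simp [pv]
  | insert a s ha ih =>
    have hs : ∀ q ∈ s, q.Prime := fun q hq => hG q (mem_insert_of_mem hq)
    have ha0 : (0 : ℝ) < a := by exact_mod_cast (hG a (mem_insert_self _ _)).pos
    have ih := ih hs
    have e : ∑ g ∈ s.powerset, wt (insert a g) * Real.log (pv (insert a g))
        = 63 / a * (Real.log a * Zc s + ∑ g ∈ s.powerset, wt g * Real.log (pv g)) := by
      rw [← sum_wt, mul_sum, ← sum_add_distrib, mul_sum]
      refine sum_congr rfl fun g hg => ?_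
      have hg' := mem_powerset.1 hg
      have h1 : a ∉ g := fun h => ha (hg' h)
      have h2 : (0 : ℝ) < pv g := by exact_mod_cast pv_pos fun q hq => hs q (hg' hq)
      rw [wt_insert h1, pv_insert h1, Nat.cast_mul, Real.log_mul ha0.ne' h2.ne']
      ring
    have eZ : Zc (insert a s) = (1 + 63 / a) * Zc s := prod_insert ha
    rw [sum_powerset_insert ha, e, eZ, sum_insert ha]
    have hZ := Zc_pos s
    have hl : 0 ≤ Real.log a := Real.log_natCast_nonneg a
    have h3 : (0 : ℝ) ≤ 63 / a := by positivity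
    have h4 := mul_le_mul_of_nonneg_left ih h3
    have h5 : 0 ≤ 63 / a * (63 / a) * (Real.log a * Zc s) := by positivity
    have e2 : Real.log a / a = 63 / a * Real.log a / 63 := by ring
    rw [e2]
    nlinarith

lemma window {C : ℝ} (h2 : ∀ y : ℝ, 1 ≤ y → |∑ p ∈ pr 0 y, Real.log p / p - Real.log y| ≤ C)
    {u v : ℝ} (hu : 1 ≤ u) (huv : u ≤ v) :
    Real.log v - Real.log u - 2 * C ≤ ∑ p ∈ pr u v, Real.log p / p := by
  have e : pr u v = pr 0 v \ pr 0 u := by
    ext p
    rw [mem_sdiff, mem_pr le_rfl, mem_pr le_rfl, mem_pr (by linarith)]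
    constructor
    · rintro ⟨a, b, c⟩
      exact ⟨⟨a, by linarith, c⟩, fun h => by linarith [h.2.2]⟩
    · rintro ⟨⟨a, b, c⟩, d⟩
      exact ⟨a, not_le.1 fun h => d ⟨a, b, h⟩, c⟩
  have hsub : pr 0 u ⊆ pr 0 v := fun p hp => by
    rw [mem_pr le_rfl] at hp ⊢
    exact ⟨hp.1, hp.2.1, hp.2.2.trans huv⟩
  rw [e, sum_sdiff_eq_sub hsub]
  linarith [(abs_le.1 (h2 u hu)).2, (abs_le.1 (h2 v (hu.trans huv))).1]

end First

open First

theorem first (h1 : S_M1) (h2 : S_M2) : S_First := by
  obtain ⟨C1, hC1, h1⟩ := h1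
  obtain ⟨C2, hC2, h2⟩ := h2
  set B := Real.exp (63 * (Real.log 1024 + C1)) with hB
  have hB0 : 0 < B := Real.exp_pos _
  have hC0 : 2 ≤ Real.exp (2 * C2 + 1) := by linarith [Real.add_one_le_exp (2 * C2 + 1)]
  refine ⟨Real.exp (2 * C2 + 1), 1 / (2 * B), 1024 * (C2 + 1), hC0, by positivity,
    fun G x hx hG hG' s hs hs' => ?_⟩
  set C0 := Real.exp (2 * C2 + 1) with hC0def
  have hx0 : 0 < x := by linarith
  have hs0 : 0 < s := (Real.exp_pos _).trans_le hs
  have hy : 2 ≤ Real.exp (x / 1024) := by linarith [Real.add_one_le_exp (x / 1024)]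
  set G' := G.filter fun q : ℕ => (q : ℝ) ≤ Real.exp (x / 1024) with hG'def
  have hG'p : ∀ q ∈ G', q.Prime := fun q hq => (hG q (mem_filter.1 hq).1).1
  have hZ := Zc_pos G'
  -- comparison of the two products
  have a1 : Zc G ≤ B * Zc G' := by
    rw [Zc, ← prod_filter_not_mul_prod_filter G fun q : ℕ => (q : ℝ) ≤ Real.exp (x / 1024)]
    refine mul_le_mul_of_nonneg_right ?_ hZ.le
    calc _ ≤ ∏ q ∈ G.filter fun q : ℕ => ¬ (q : ℝ) ≤ Real.exp (x / 1024),
        Real.exp (63 * (1 / q)) := by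
          refine prod_le_prod (fun q _ => by positivity) fun q _ => ?_
          rw [mul_one_div, add_comm]
          exact Real.add_one_le_exp _
      _ ≤ B := by
          rw [← Real.exp_sum, ← mul_sum, hB]
          gcongr
          have k := (abs_le.1 (h1 _ (Real.exp x) hy (Real.exp_le_exp.2 (by linarith)))).2
          rw [Real.log_exp, Real.log_exp, show x / (x / 1024) = 1024 by field_simp] at k
          refine le_trans (sum_le_sum_of_subset_of_nonneg (fun q hq => ?_)
            fun q _ _ => by positivity) (show rs (pr (Real.exp (x / 1024)) (Real.exp x)) ≤ _ by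
              linarith)
          rw [mem_filter] at hq
          exact (mem_pr (by positivity)).2 ⟨(hG q hq.1).1, not_le.1 hq.2, (hG q hq.1).2⟩
  -- Markov
  set Gd := G'.powerset.filter fun g => Real.log (pv g) ≤ x / 4 with hGd
  have a2 : Zc G' / 2 ≤ ∑ g ∈ Gd, wt g := by
    have k1 := sum_wt_log G' hG'p
    have k2 : ∑ q ∈ G', Real.log q / q ≤ x / 1024 + C2 := by
      have k := (abs_le.1 (h2 (Real.exp (x / 1024)) (by linarith))).2
      rw [Real.log_exp] at k
      refine le_trans (sum_le_sum_of_subset_of_nonneg (fun q hq => ?_)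
        fun q _ _ => div_nonneg (Real.log_natCast_nonneg q) (Nat.cast_nonneg q))
        (show ∑ p ∈ pr 0 (Real.exp (x / 1024)), Real.log p / p ≤ _ by linarith)
      exact (mem_pr le_rfl).2 ⟨hG'p q hq, by exact_mod_cast (hG'p q hq).pos, (mem_filter.1 hq).2⟩
    have k3 : x / 4 * ∑ g ∈ G'.powerset.filter (fun g => ¬ Real.log (pv g) ≤ x / 4), wt g
        ≤ ∑ g ∈ G'.powerset, wt g * Real.log (pv g) := by
      rw [mul_sum]
      refine le_trans (sum_le_sum fun g hg => ?_) (sum_le_sum_of_subset_of_nonneg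
        (filter_subset _ _) fun g _ _ => mul_nonneg (wt_nonneg g) (Real.log_natCast_nonneg _))
      rw [mul_comm]
      exact mul_le_mul_of_nonneg_left (not_le.1 (mem_filter.1 hg).2).le (wt_nonneg g)
    have k4 := sum_filter_add_sum_filter_not G'.powerset (fun g => Real.log (pv g) ≤ x / 4) wt
    rw [sum_wt] at k4
    have k5 : Zc G' * (63 * ∑ q ∈ G', Real.log q / q) ≤ Zc G' * (x / 8) := by
      gcongr
      linarith
    have k6 : x / 4 * ∑ g ∈ G'.powerset.filter (fun g => ¬ Real.log (pv g) ≤ x / 4), wt g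
        ≤ x / 4 * (Zc G' / 2) := by linarith
    have k7 := le_of_mul_le_mul_left k6 (by positivity)
    linarith
  -- the last prime
  have b0 : ∀ g ∈ Gd, (0 : ℝ) < pv g ∧ Real.exp (x / 2) ≤ s / pv g := fun g hg => by
    rw [hGd, mem_filter, mem_powerset] at hg
    have k : (0 : ℝ) < pv g := by exact_mod_cast pv_pos fun q hq => hG'p q (hg.1 hq)
    refine ⟨k, ?_⟩
    rw [le_div_iff₀ k]
    calc _ ≤ Real.exp (x / 2) * Real.exp (x / 4) := by
          gcongr
          exact (Real.log_le_iff_le_exp k).1 hg.2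
      _ = Real.exp (3 * x / 4) := by rw [← Real.exp_add]; congr 1; ring
      _ ≤ s := hs
  have b1 : ∀ g ∈ Gd, ∀ q ∈ pr (s / pv g) (C0 * s / pv g),
      q.Prime ∧ q ∈ G ∧ q ∉ G' ∧ (q : ℝ) ≤ Real.exp x ∧ s < q * pv g ∧ q * pv g ≤ C0 * s := by
    intro g hg q hq
    obtain ⟨k1, k2⟩ := b0 g hg
    obtain ⟨p1, p2, p3⟩ := (mem_pr (by positivity)).1 hq
    have k3 : (1 : ℝ) ≤ pv g := by exact_mod_cast (Nat.cast_pos.1 k1)
    have k4 : (q : ℝ) ≤ Real.exp x := p3.trans ((div_le_self (by positivity) k3).trans hs')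
    refine ⟨p1, hG' q p1 (k2.trans_lt p2) k4, fun h => ?_, k4, (div_lt_iff₀ k1).1 p2,
      (le_div_iff₀ k1).1 p3⟩
    have := Real.exp_le_exp.2 (show x / 1024 ≤ x / 2 by linarith)
    linarith [(mem_filter.1 h).2]
  have b2 : ∀ g ∈ Gd, g ⊆ G' := fun g hg => mem_powerset.1 (mem_filter.1 hg).1
  have a3 : ∀ g ∈ Gd, wt g / x ≤ ∑ q ∈ pr (s / pv g) (C0 * s / pv g), wt (insert q g) := by
    intro g hg
    obtain ⟨k1, k2⟩ := b0 g hg
    have k3 : 1 ≤ s / pv g := (Real.one_le_exp (by positivity)).trans k2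
    have k4 := window h2 k3 (v := C0 * s / pv g) (by gcongr; nlinarith)
    rw [mul_div_assoc, Real.log_mul (by positivity) (by positivity), hC0def, Real.log_exp,
      ← hC0def, ← mul_div_assoc] at k4
    calc wt g / x = wt g / x * 1 := (mul_one _).symm
      _ ≤ wt g / x * ∑ q ∈ pr (s / pv g) (C0 * s / pv g), Real.log q / q := by
          have := wt_nonneg g
          gcongr
          linarith
      _ ≤ _ := by
          rw [mul_sum]
          refine sum_le_sum fun q hq => ?_
          obtain ⟨p1, -, p3, p4, -⟩ := b1 g hg q hq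
          have hq0 : (0 : ℝ) < q := by exact_mod_cast p1.pos
          have p5 : Real.log q ≤ x := (Real.log_le_iff_le_exp hq0).2 p4
          have := wt_nonneg g
          rw [wt_insert fun h => p3 (b2 g hg h)]
          calc _ ≤ wt g / x * (63 * x / q) := by
                gcongr
                linarith
            _ = _ := by field_simp
  calc 1 / (2 * B) * Zc G / x ≤ 1 / (2 * B) * (B * Zc G') / x := by gcongr
    _ = Zc G' / 2 / x := by field_simp
    _ ≤ (∑ g ∈ Gd, wt g) / x := by gcongr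
    _ ≤ ∑ g ∈ Gd, ∑ q ∈ pr (s / pv g) (C0 * s / pv g), wt (insert q g) := by
        rw [sum_div]
        exact sum_le_sum a3
    _ = ∑ e ∈ Gd.sigma fun g => pr (s / pv g) (C0 * s / pv g), wt (insert e.2 e.1) :=
        sum_sigma' _ _ _
    _ = ∑ g ∈ (Gd.sigma fun g => pr (s / pv g) (C0 * s / pv g)).image
          (fun e => insert e.2 e.1), wt g := by
        rw [sum_image]
        rintro ⟨g, q⟩ he ⟨g', q'⟩ he' h
        rw [mem_coe, mem_sigma] at he he'
        have p := (b1 g he.1 q he.2).2.2.1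
        have p' := (b1 g' he'.1 q' he'.2).2.2.1
        dsimp only at h p p'
        have hq : q = q' := by
          have : q ∈ insert q' g' := h ▸ mem_insert_self q g
          exact (mem_insert.1 this).resolve_right fun k => p (b2 g' he'.1 k)
        subst hq
        have hg : g = g' := by
          rw [← erase_insert fun k => p (b2 g he.1 k), h, erase_insert fun k => p (b2 g' he'.1 k)]
        rw [hg]
    _ ≤ _ := by
        refine sum_le_sum_of_subset_of_nonneg (fun g hg => ?_) fun g _ _ => wt_nonneg g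
        obtain ⟨⟨g, q⟩, he, rfl⟩ := mem_image.1 hg
        rw [mem_sigma] at he
        obtain ⟨-, p2, p3, -, p5, p6⟩ := b1 g he.1 q he.2
        rw [mem_filter, mem_powerset, pv_insert fun k => p3 (b2 g he.1 k), Nat.cast_mul]
        exact ⟨insert_subset p2 ((b2 g he.1).trans (filter_subset _ _)), p5, p6⟩

end Pool.Agent.P.MP_a14ce1_nt.Ch
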