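import Pool.Agent.P.MP_a14ce1_nt.Ch.Defs

open Finset MeasureTheory FourierTransform

namespace Pool.Agent.P.MP_a14ce1_nt.Ch

namespace FourierAux

/-- The transform in the normalisation without the factor two pi. -/
noncomputable def ft (f : ℝ → ℂ) (ξ : ℝ) : ℂ := ∫ v : ℝ, f v * ex (-(ξ * v))

theorem fourier_eq_ft (f : ℝ → ℂ) (w : ℝ) : 𝓕 f w = ft f (2 * Real.pi * w) := by
  rw [Real.fourier_real_eq_integral_exp_smul, ft]
  refine integral_congr_ae (Filter.Eventually.of_forall fun v => ?_)
  simp only [ex, smul_eq_mul]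
  rw [mul_comm, show -2 * Real.pi * v * w = -(2 * Real.pi * w * v) by ring]

theorem inversion {f : ℝ → ℂ} (hc : Continuous f) (hf : Integrable f) (hG : Integrable (ft f))
    (v : ℝ) : ∫ ξ : ℝ, ft f ξ * ex (ξ * v) = 2 * Real.pi * f v := by
  have hpi : (2 * Real.pi : ℝ) ≠ 0 := by positivity
  have h1 : 𝓕 f = fun w => ft f (2 * Real.pi * w) := funext (fourier_eq_ft f)
  have h2 := congrFun (hc.fourierInv_fourier_eq hf (h1 ▸ hG.comp_mul_left' hpi)) v
  rw [Real.fourierInv_eq', h1] at h2
  have h3 := Measure.integral_comp_mul_left (fun ξ : ℝ => ft f ξ * ex (ξ * v)) (2 * Real.pi)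
  have h4 : ∫ w : ℝ, ft f (2 * Real.pi * w) * ex (2 * Real.pi * w * v) = f v := by
    rw [← h2]
    refine integral_congr_ae (Filter.Eventually.of_forall fun w => ?_)
    simp only [ex, smul_eq_mul]
    rw [mul_comm, show 2 * Real.pi * inner ℝ w v = 2 * Real.pi * w * v by
      simp only [RCLike.inner_apply, conj_trivial]; ring]
  rw [h4, abs_of_pos (by positivity), Complex.real_smul] at h3
  rw [h3, ← mul_assoc]
  have : ((2 * Real.pi : ℝ) : ℂ) ≠ 0 := by exact_mod_cast hpi
  push_cast at this ⊢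
  rw [mul_inv_cancel₀ this, one_mul]

theorem norm_ft_le (f : ℝ → ℂ) (ξ : ℝ) : ‖ft f ξ‖ ≤ ∫ v, ‖f v‖ := by
  refine (norm_integral_le_integral_norm _).trans_eq ?_
  simp [norm_ex]

theorem continuous_ft {f : ℝ → ℂ} (hf : Integrable f) : Continuous (ft f) := by
  refine continuous_of_dominated (bound := fun v => ‖f v‖) (fun ξ => ?_) (fun ξ => ?_) hf.norm ?_
  · exact hf.aestronglyMeasurable.mul (continuous_ex.comp (by fun_prop)).aestronglyMeasurable
  · exact Filter.Eventually.of_forall fun v => by simp [norm_ex]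
  · exact Filter.Eventually.of_forall fun v =>
      continuous_const.mul (continuous_ex.comp (by fun_prop))

theorem norm_ft_deriv {f : ℝ → ℂ} (hf : Integrable f) (hd : Differentiable ℝ f)
    (hf' : Integrable (deriv f)) (ξ : ℝ) : ‖ft (deriv f) ξ‖ = |ξ| * ‖ft f ξ‖ := by
  have hpi : (2 * Real.pi : ℝ) ≠ 0 := by positivity
  have h := congrFun (Real.fourier_deriv hf hd hf') (ξ / (2 * Real.pi))
  simp only [fourier_eq_ft, mul_div_cancel₀ _ hpi] at h
  rw [h, norm_smul]
  congr 1
  have : (2 * Real.pi * Complex.I * ((ξ / (2 * Real.pi) : ℝ) : ℂ)) = (ξ : ℂ) * Complex.I := by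
    have : ((2 * Real.pi : ℝ) : ℂ) ≠ 0 := by exact_mod_cast hpi
    push_cast at this ⊢
    field_simp
  rw [this]
  simp

end FourierAux

open FourierAux in
theorem fourier : S_Fourier := by
  intro g hg hs
  let f : ℝ → ℂ := fun v => (g v : ℂ)
  have hf2 : ContDiff ℝ 2 f := Complex.ofRealCLM.contDiff.comp hg
  have hfs : HasCompactSupport f := hs.comp_left (g := fun x : ℝ => (x : ℂ)) (by simp)
  have hf1 : ContDiff ℝ 1 (deriv f) := (show ContDiff ℝ (1 + 1) f from hf2).deriv'
  have hf0 : Continuous (deriv (deriv f)) := hf1.continuous_deriv le_rfl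
  have i0 : Integrable f := hf2.continuous.integrable_of_hasCompactSupport hfs
  have i1 : Integrable (deriv f) := hf1.continuous.integrable_of_hasCompactSupport hfs.deriv
  have i2 : Integrable (deriv (deriv f)) := hf0.integrable_of_hasCompactSupport hfs.deriv.deriv
  set C : ℝ := (∫ v, ‖f v‖) + (∫ v, ‖deriv (deriv f) v‖) + 1 with hC
  have hA : 0 ≤ ∫ v, ‖f v‖ := integral_nonneg fun v => norm_nonneg _
  have hB : 0 ≤ ∫ v, ‖deriv (deriv f) v‖ := integral_nonneg fun v => norm_nonneg _
  have hb : ∀ ξ, ‖ft f ξ‖ ≤ C * cw 1 ξ := fun ξ => by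
    have h1 := norm_ft_le f ξ
    have h2 := norm_ft_le (deriv (deriv f)) ξ
    rw [norm_ft_deriv i1 (hf1.differentiable one_ne_zero) i2,
      norm_ft_deriv i0 (hf2.differentiable two_ne_zero) i1, ← mul_assoc, abs_mul_abs_self] at h2
    rw [cw, mul_one_div, div_one, le_div_iff₀ (by positivity)]
    nlinarith
  have hC0 : 0 < C := by positivity
  have hG : Integrable (ft f) :=
    ((integrable_cw one_pos).const_mul C).mono' (continuous_ft i0).aestronglyMeasurable
      (Filter.Eventually.of_forall hb)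
  have hpi : 1 ≤ 2 * Real.pi := by linarith [Real.pi_gt_three]
  refine ⟨fun u => ((2 * Real.pi)⁻¹ : ℝ) * ft f (-u), C, hC0,
    continuous_const.mul ((continuous_ft i0).comp continuous_neg), fun u => ?_, fun v => ?_, hb⟩
  · have h1 : cw 1 (-u) = cw 1 u := by simp [cw]
    rw [norm_mul, ← h1, Complex.norm_real, Real.norm_of_nonneg (by positivity)]
    refine (mul_le_of_le_one_left (norm_nonneg _) (inv_le_one_of_one_le₀ hpi)).trans (hb _)
  · have h1 := inversion hf2.continuous i0 hG v
    rw [← integral_neg_eq_self] at h1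
    simp only [mul_assoc, integral_const_mul, ← neg_mul]
    rw [h1]
    have : ((2 * Real.pi : ℝ) : ℂ) ≠ 0 := by
      exact_mod_cast (by positivity : (2 * Real.pi : ℝ) ≠ 0)
    push_cast at this ⊢
    field_simp
    rfl

end Pool.Agent.P.MP_a14ce1_nt.Ch
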