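import Pool.Agent.P.MP_a14ce1_nt.Ch.Defs

/-!
The Halasz-Montgomery inequality for the long smooth Dirichlet polynomial.
-/

open Finset MeasureTheory

namespace Pool.Agent.P.MP_a14ce1_nt.Ch

namespace HM

theorem conj_nit (t y : ℝ) : (starRingEnd ℂ) (nit t y) = nit (-t) y := by
  unfold nit; rw [conj_ex]; congr 1; ring

/-- the kernel -/
noncomputable def Kk (s : Finset ℕ) (w : ℕ → ℝ) (u : ℝ) : ℂ := ∑ m ∈ s, (w m : ℂ) * nit u m

theorem continuous_Kk (s : Finset ℕ) (w : ℕ → ℝ) : Continuous (Kk s w) := by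
  unfold Kk
  exact continuous_finsetSum _ fun n _ => continuous_const.mul (continuous_nit _)

theorem norm_Kk_neg (s : Finset ℕ) (w : ℕ → ℝ) (u : ℝ) : ‖Kk s w (-u)‖ = ‖Kk s w u‖ := by
  rw [← Complex.norm_conj (Kk s w u)]
  unfold Kk
  rw [map_sum]
  congr 1
  refine sum_congr rfl fun m _ => ?_
  rw [map_mul, conj_nit, Complex.conj_ofReal]

theorem norm_Kk_le (s : Finset ℕ) (w : ℕ → ℝ) (hw : ∀ m, 0 ≤ w m) (u : ℝ) :
    ‖Kk s w u‖ ≤ ∑ m ∈ s, w m := by
  unfold Kk
  refine (norm_sum_le _ _).trans (le_of_eq (sum_congr rfl fun m _ => ?_))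
  rw [norm_mul, norm_nit, mul_one, Complex.norm_real, Real.norm_of_nonneg (hw m)]

theorem integrable_of_bdd {α E : Type} [TopologicalSpace α] [MeasurableSpace α]
    [OpensMeasurableSpace α] [SecondCountableTopology α] [NormedAddCommGroup E]
    (μ : Measure α) [IsFiniteMeasure μ] {f : α → E} (hf : Continuous f) (B : ℝ)
    (hB : ∀ x, ‖f x‖ ≤ B) : Integrable f μ :=
  Integrable.of_bound hf.aestronglyMeasurable B (Filter.Eventually.of_forall hB)

/-- Schur test -/
theorem schur (μ : Measure ℝ) [IsFiniteMeasure μ] (G k : ℝ → ℝ) (hG : Continuous G)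
    (hk : Continuous k) (B : ℝ) (hGB : ∀ t, |G t| ≤ B) (hkB : ∀ t, |k t| ≤ B) (hk0 : ∀ t, 0 ≤ k t)
    (hev : ∀ t, k (-t) = k t) (S : ℝ) (hS : ∀ᵐ t ∂μ, ∫ t', k (t - t') ∂μ ≤ S) :
    ∫ t', G t' * (∫ t, G t * k (t - t') ∂μ) ∂μ ≤ S * ∫ t, G t ^ 2 ∂μ := by
  have hB0 : 0 ≤ B := (abs_nonneg _).trans (hGB 0)
  have bd : ∀ a b c : ℝ, |G a * G b * k c| ≤ B * B * B := fun a b c => by
    rw [abs_mul, abs_mul]
    exact mul_le_mul (mul_le_mul (hGB _) (hGB _) (abs_nonneg _) hB0) (hkB _) (abs_nonneg _)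
      (by positivity)
  have i1 : Integrable (fun p : ℝ × ℝ => G p.1 * G p.2 * k (p.2 - p.1)) (μ.prod μ) :=
    integrable_of_bdd _ (by fun_prop) (B * B * B) fun p => bd _ _ _
  have i2 : Integrable (fun p : ℝ × ℝ => G p.1 * G p.1 * k (p.1 - p.2)) (μ.prod μ) :=
    integrable_of_bdd _ (by fun_prop) (B * B * B) fun p => bd _ _ _
  have i3 : Integrable (fun p : ℝ × ℝ => G p.2 * G p.2 * k (p.2 - p.1)) (μ.prod μ) :=
    integrable_of_bdd _ (by fun_prop) (B * B * B) fun p => bd _ _ _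
  have e1 : ∫ t', G t' * (∫ t, G t * k (t - t') ∂μ) ∂μ =
      ∫ p : ℝ × ℝ, G p.1 * G p.2 * k (p.2 - p.1) ∂(μ.prod μ) := by
    rw [integral_prod _ i1]
    refine integral_congr_ae (Filter.Eventually.of_forall fun t' => ?_)
    simp only [mul_assoc]
    rw [integral_const_mul]
  have e3 : ∫ p : ℝ × ℝ, G p.2 * G p.2 * k (p.2 - p.1) ∂(μ.prod μ) =
      ∫ p : ℝ × ℝ, G p.1 * G p.1 * k (p.1 - p.2) ∂(μ.prod μ) :=
    integral_prod_swap (μ := μ) (ν := μ) (fun p : ℝ × ℝ => G p.1 * G p.1 * k (p.1 - p.2))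
  have e2 : ∫ p : ℝ × ℝ, G p.1 * G p.1 * k (p.1 - p.2) ∂(μ.prod μ) ≤ S * ∫ t, G t ^ 2 ∂μ := by
    rw [integral_prod _ i2, ← integral_const_mul]
    refine integral_mono_ae i2.integral_prod_left ?_ ?_
    · refine (integrable_of_bdd μ (f := fun t => G t ^ 2) (by fun_prop) (B ^ 2) fun t => ?_).const_mul S
      rw [Real.norm_eq_abs, abs_pow]
      exact pow_le_pow_left₀ (abs_nonneg _) (hGB t) 2
    · filter_upwards [hS] with t ht
      rw [integral_const_mul]
      nlinarith [mul_self_nonneg (G t)]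
  have e4 : ∫ p : ℝ × ℝ, G p.1 * G p.2 * k (p.2 - p.1) ∂(μ.prod μ) ≤
      ∫ p : ℝ × ℝ, (1 / 2 * (G p.1 * G p.1 * k (p.1 - p.2)) + 1 / 2 * (G p.2 * G p.2 * k (p.2 - p.1)))
        ∂(μ.prod μ) := by
    refine integral_mono i1 ((i2.const_mul _).add (i3.const_mul _)) fun p => ?_
    have h1 : k (p.1 - p.2) = k (p.2 - p.1) := by rw [← hev]; congr 1; ring
    simp only [h1]
    nlinarith [mul_nonneg (hk0 (p.2 - p.1)) (sq_nonneg (G p.1 - G p.2))]
  rw [integral_add (i2.const_mul _) (i3.const_mul _), integral_const_mul, integral_const_mul, e3] at e4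
  rw [e1]
  linarith

/-- the duality argument -/
theorem duality (μ : Measure ℝ) [IsFiniteMeasure μ] (s : Finset ℕ) (w : ℕ → ℝ) (hw : ∀ m, 0 ≤ w m)
    (a : ℕ → ℂ) (ha : ∀ m, ‖a m‖ ≤ 1) (S : ℝ) (hS0 : 0 ≤ S)
    (hS : ∀ᵐ t ∂μ, ∫ t', ‖Kk s w (t - t')‖ ∂μ ≤ S) :
    ∫ t, ‖∑ m ∈ s, a m * (w m : ℂ) * nit t m‖ ^ 2 ∂μ ≤ (∑ m ∈ s, w m) * S := by
  set g : ℝ → ℂ := fun t => ∑ m ∈ s, a m * (w m : ℂ) * nit t m with hg
  set W : ℝ := ∑ m ∈ s, w m with hW
  have hW0 : 0 ≤ W := sum_nonneg fun m _ => hw m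
  have gc : Continuous g :=
    continuous_finsetSum _ fun n _ => continuous_const.mul (continuous_nit _)
  have gb : ∀ t, ‖g t‖ ≤ W := fun t => by
    refine (norm_sum_le _ _).trans (sum_le_sum fun m _ => ?_)
    rw [norm_mul, norm_mul, norm_nit, mul_one, Complex.norm_real, Real.norm_of_nonneg (hw m)]
    exact mul_le_of_le_one_left (hw m) (ha m)
  set I : ℝ := ∫ t, ‖g t‖ ^ 2 ∂μ with hI
  have hI0 : 0 ≤ I := integral_nonneg fun t => by positivity
  set B : ℕ → ℂ := fun m => ∫ t, (starRingEnd ℂ) (g t) * nit t m ∂μ with hB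
  have cc : Continuous fun t => (starRingEnd ℂ) (g t) := Complex.continuous_conj.comp gc
  have iB : ∀ m : ℕ, Integrable (fun t => (starRingEnd ℂ) (g t) * nit t m) μ := fun m =>
    integrable_of_bdd μ (cc.mul (continuous_nit _)) W fun t => by
      rw [norm_mul, norm_nit, mul_one, Complex.norm_conj]; exact gb t
  have iB' : ∀ m : ℕ, Integrable (fun t => g t * nit (-t) m) μ := fun m =>
    integrable_of_bdd μ (gc.mul ((continuous_nit _).comp continuous_neg)) W fun t => by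
      rw [norm_mul, norm_nit, mul_one]; exact gb t
  have s1 : (I : ℂ) = ∑ m ∈ s, a m * (w m : ℂ) * B m := by
    rw [hI, ← integral_complex_ofReal]
    simp only [hB, ← integral_const_mul]
    rw [← integral_finsetSum _ fun m _ => (iB m).const_mul _]
    refine integral_congr_ae (Filter.Eventually.of_forall fun t => ?_)
    simp only
    rw [Complex.ofReal_pow, ← Complex.conj_mul', hg]
    simp only
    rw [mul_sum]
    exact sum_congr rfl fun m _ => by ring
  have s2 : I ≤ ∑ m ∈ s, w m * ‖B m‖ := by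
    have : I = ‖(I : ℂ)‖ := by rw [Complex.norm_real, Real.norm_of_nonneg hI0]
    rw [this, s1]
    refine (norm_sum_le _ _).trans (sum_le_sum fun m _ => ?_)
    rw [norm_mul, norm_mul, Complex.norm_real, Real.norm_of_nonneg (hw m)]
    exact mul_le_mul_of_nonneg_right (mul_le_of_le_one_left (hw m) (ha m)) (norm_nonneg _)
  set Q : ℝ := ∑ m ∈ s, w m * ‖B m‖ ^ 2 with hQ
  have s3 : (∑ m ∈ s, w m * ‖B m‖) ^ 2 ≤ W * Q := by
    refine sum_sq_le_sum_mul_sum_of_sq_le_mul s (fun m _ => hw m)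
      (fun m _ => mul_nonneg (hw m) (by positivity)) fun m _ => le_of_eq (by ring)
  have s4 : (Q : ℂ) = ∫ t', g t' * ∫ t, (starRingEnd ℂ) (g t) * Kk s w (t - t') ∂μ ∂μ := by
    have h1 : ∀ m : ℕ, (starRingEnd ℂ) (B m) = ∫ t', g t' * nit (-t') m ∂μ := fun m => by
      rw [hB]
      simp only
      rw [← integral_conj]
      refine integral_congr_ae (Filter.Eventually.of_forall fun t => ?_)
      simp only
      rw [map_mul, Complex.conj_conj, conj_nit]
    have h2 : ∀ t', ∫ t, (starRingEnd ℂ) (g t) * Kk s w (t - t') ∂μ =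
        ∑ m ∈ s, (w m : ℂ) * B m * nit (-t') m := fun t' => by
      simp only [hB, ← integral_const_mul, ← integral_mul_const]
      rw [← integral_finsetSum _ fun m _ => ((iB m).const_mul _).mul_const _]
      refine integral_congr_ae (Filter.Eventually.of_forall fun t => ?_)
      simp only [Kk]
      rw [mul_sum]
      refine sum_congr rfl fun m _ => ?_
      rw [sub_eq_add_neg, nit_add]; ring
    simp only [h2]
    rw [hQ, Complex.ofReal_sum]
    have h3 : ∀ m ∈ s, ((w m * ‖B m‖ ^ 2 : ℝ) : ℂ) =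
        ∫ t', (w m : ℂ) * B m * (g t' * nit (-t') m) ∂μ := fun m _ => by
      rw [integral_const_mul, ← h1, Complex.ofReal_mul, Complex.ofReal_pow, ← Complex.mul_conj']
      ring
    rw [sum_congr rfl h3, ← integral_finsetSum _ fun m _ => (iB' m).const_mul _]
    refine integral_congr_ae (Filter.Eventually.of_forall fun t => ?_)
    simp only
    rw [mul_sum]
    exact sum_congr rfl fun m _ => by ring
  have hQ0 : 0 ≤ Q := sum_nonneg fun m _ => mul_nonneg (hw m) (by positivity)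
  have kc0 := continuous_Kk s w
  have kc := kc0.norm
  have s5 : Q ≤ S * I := by
    have h0 : Q = ‖(Q : ℂ)‖ := by rw [Complex.norm_real, Real.norm_of_nonneg hQ0]
    have h1 := schur μ (fun t => ‖g t‖) (fun u => ‖Kk s w u‖) gc.norm kc W
      (fun t => by rw [abs_norm]; exact gb t)
      (fun t => by rw [abs_norm]; exact norm_Kk_le s w hw t) (fun t => norm_nonneg _)
      (norm_Kk_neg s w) S hS
    refine le_trans ?_ h1
    rw [h0, s4]
    refine (norm_integral_le_integral_norm _).trans ?_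
    have i1 : Integrable (fun p : ℝ × ℝ => ‖g p.1‖ * (‖g p.2‖ * ‖Kk s w (p.2 - p.1)‖)) (μ.prod μ) :=
      integrable_of_bdd _ (by fun_prop) (W * (W * W)) fun p => by
        rw [Real.norm_of_nonneg (by positivity)]
        exact mul_le_mul (gb _) (mul_le_mul (gb _) (norm_Kk_le s w hw _) (norm_nonneg _) hW0)
          (by positivity) hW0
    have i2 := i1.integral_prod_left
    simp only [integral_const_mul] at i2
    refine integral_mono_of_nonneg (Filter.Eventually.of_forall fun t => norm_nonneg _) i2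
      (Filter.Eventually.of_forall fun t' => ?_)
    simp only
    rw [norm_mul]
    refine mul_le_mul_of_nonneg_left ((norm_integral_le_integral_norm _).trans (le_of_eq ?_))
      (norm_nonneg _)
    simp only [norm_mul, Complex.norm_conj]
  have s6 : I ^ 2 ≤ W * (S * I) :=
    ((pow_le_pow_left₀ hI0 s2 2).trans s3).trans (mul_le_mul_of_nonneg_left s5 hW0)
  rcases hI0.eq_or_lt with h | h
  · rw [← h]; positivity
  · have : I * I ≤ (W * S) * I := by nlinarith
    exact le_of_mul_le_mul_right this h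

/-- the weight -/
noncomputable def ph (x y : ℝ) : ℝ := Phi (Real.log y / x) / y

theorem ph_lip : ∃ L : ℝ, 0 < L ∧ ∀ x s y : ℝ, 1 ≤ x → 0 < s → s ≤ y → y ≤ s + 1 →
    |ph x y - ph x s| ≤ L / s ^ 2 := by
  obtain ⟨L, hL⟩ := ContDiff.lipschitzWith_of_hasCompactSupport compact_Phi
    (contDiff_Phi (n := 1)) (by simp)
  refine ⟨L + 1, by positivity, fun x s y hx hs hsy hy => ?_⟩
  have hy0 : 0 < y := hs.trans_le hsy
  have h1 : |Phi (Real.log y / x) - Phi (Real.log s / x)| ≤ L * (1 / s) := by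
    have := hL.dist_le_mul (Real.log y / x) (Real.log s / x)
    rw [Real.dist_eq, Real.dist_eq] at this
    refine this.trans (mul_le_mul_of_nonneg_left ?_ L.2)
    have h2 : Real.log s ≤ Real.log y := Real.log_le_log hs hsy
    have h3 : Real.log y - Real.log s ≤ 1 / s := by
      rw [← Real.log_div hy0.ne' hs.ne']
      refine (Real.log_le_sub_one_of_pos (by positivity)).trans ?_
      rw [div_sub_one hs.ne']
      exact div_le_div_of_nonneg_right (by linarith) hs.le
    rw [← sub_div, abs_of_nonneg (div_nonneg (by linarith) (by linarith))]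
    exact (div_le_self (by linarith) hx).trans h3
  have e : ph x y - ph x s = (Phi (Real.log y / x) - Phi (Real.log s / x)) / y
      - Phi (Real.log s / x) * ((y - s) / (y * s)) := by
    unfold ph; field_simp; ring
  rw [e]
  refine (abs_sub _ _).trans ?_
  have h4 : |(Phi (Real.log y / x) - Phi (Real.log s / x)) / y| ≤ L / s ^ 2 := by
    rw [abs_div, abs_of_pos hy0]
    calc _ ≤ L * (1 / s) / s := div_le_div₀ (by positivity) h1 hs hsy
      _ = L / s ^ 2 := by field_simp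
  have h5 : |Phi (Real.log s / x) * ((y - s) / (y * s))| ≤ 1 / s ^ 2 := by
    have h6 : 0 ≤ (y - s) / (y * s) := div_nonneg (by linarith) (by positivity)
    rw [abs_of_nonneg (mul_nonneg (Phi_nonneg _) h6)]
    refine (mul_le_of_le_one_left h6 (Phi_le_one _)).trans ?_
    exact div_le_div₀ zero_le_one (by linarith) (by positivity) (by nlinarith)
  rw [add_div]
  linarith

/-- Abel summation -/
theorem abel (φ : ℕ → ℂ) (e : ℕ → ℂ) (M N : ℕ) (h : M ≤ N) :
    ∑ m ∈ Ioc M N, φ m * e m = φ N * ∑ m ∈ Ioc M N, e m -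
      ∑ n ∈ Ico M N, (φ (n + 1) - φ n) * ∑ m ∈ Ioc M n, e m := by
  induction N, h using Nat.le_induction with
  | base => simp
  | succ n hn ih =>
    rw [sum_Ioc_succ_top hn, sum_Ioc_succ_top hn, sum_Ico_succ_top hn, ih]
    ring

theorem sum_int (F : ℝ → ℂ) (M N : ℕ) (hM : 1 ≤ M) (h : M ≤ N)
    (hF : ContinuousOn F (Set.Ioi 0)) :
    ∑ n ∈ Ico M N, ∫ s in (n : ℝ)..((n + 1 : ℕ) : ℝ), F s = ∫ s in (M : ℝ)..N, F s := by
  refine intervalIntegral.sum_integral_adjacent_intervals_Ico (a := fun n : ℕ => (n : ℝ)) h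
    fun k hk => ?_
  refine (hF.mono fun y hy => ?_).intervalIntegrable
  have hk1 : (1 : ℝ) ≤ k := by exact_mod_cast hM.trans hk.1
  rw [Set.uIcc_of_le (by push_cast; linarith)] at hy
  exact lt_of_lt_of_le (by linarith) hy.1

theorem contOn_nit (u : ℝ) : ContinuousOn (fun s => nit u s) (Set.Ioi 0) := by
  unfold nit
  refine continuous_ex.comp_continuousOn ?_
  exact (continuousOn_const.mul (Real.continuousOn_log.mono fun y hy => ne_of_gt hy)).neg

theorem contOn_ph (x : ℝ) : ContinuousOn (fun s => ph x s) (Set.Ioi 0) := by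
  unfold ph
  refine ContinuousOn.div ?_ continuousOn_id fun y hy => ne_of_gt hy
  exact (contDiff_Phi (n := 0)).continuous.comp_continuousOn
    ((Real.continuousOn_log.mono fun y hy => ne_of_gt hy).div_const _)

/-- the main term -/
theorem main_term (x u a b : ℝ) (hx : 0 < x) (ha : 0 < a) (hab : a ≤ b)
    (h1 : Real.log a / x ≤ 1 / 2) (h2 : 3 / 2 ≤ Real.log b / x) :
    ∫ s in a..b, (ph x s : ℂ) * nit u s =
      (x : ℂ) * ∫ v : ℝ, (Phi v : ℂ) * ex (-((x * u) * v)) := by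
  set G : ℝ → ℂ := fun v => (x : ℂ) * ((Phi v : ℂ) * ex (-((x * u) * v))) with hG
  have Gc : Continuous G := by
    have := (contDiff_Phi (n := 0)).continuous
    have := continuous_ex
    rw [hG]; fun_prop
  have pos : ∀ s ∈ Set.uIcc a b, 0 < s := fun s hs => by
    rw [Set.uIcc_of_le hab] at hs
    exact ha.trans_le hs.1
  have key := intervalIntegral.integral_deriv_smul_comp (a := a) (b := b)
    (f := fun s => Real.log s / x) (f' := fun s => s⁻¹ / x) (g := G)
    (fun s hs => (Real.hasDerivAt_log (pos s hs).ne').div_const x)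
    ((continuousOn_inv₀.mono fun s hs => (pos s hs).ne').div_const x) Gc
  rw [← integral_const_mul, ← intervalIntegral.integral_eq_integral_of_support_subset
    (a := Real.log a / x) (b := Real.log b / x), ← key]
  · refine intervalIntegral.integral_congr fun s hs => ?_
    have hs0 := pos s hs
    simp only [Function.comp, hG, ph, nit, Complex.real_smul]
    have : x * u * (Real.log s / x) = u * Real.log s := by field_simp
    rw [this]
    have hx' : (x : ℂ) ≠ 0 := by exact_mod_cast hx.ne'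
    have hs' : (s : ℂ) ≠ 0 := by exact_mod_cast hs0.ne'
    push_cast
    field_simp
  · intro v hv
    by_contra c
    apply hv
    have : Phi v = 0 := by
      apply Phi_eq_zero
      rw [Set.mem_Ioc, not_and_or, not_lt, not_le] at c
      rcases c with c | c
      · left; linarith
      · right; linarith
    simp [this]

theorem sum_rpow_le {c : ℝ} (hc : 0 < c) : ∃ Z : ℝ, 0 < Z ∧ ∀ M N : ℕ, 1 ≤ M →
    ∑ n ∈ Ico M N, (n : ℝ) ^ (-1 - c) ≤ Z * (M : ℝ) ^ (-(c / 2)) := by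
  have hs : Summable fun n : ℕ => (n : ℝ) ^ (-1 - c / 2) :=
    Real.summable_nat_rpow.2 (by linarith)
  refine ⟨(∑' n : ℕ, (n : ℝ) ^ (-1 - c / 2)) + 1,
    add_pos_of_nonneg_of_pos (tsum_nonneg fun n => by positivity) one_pos, fun M N hM => ?_⟩
  have hM0 : (0 : ℝ) < M := by exact_mod_cast hM
  calc ∑ n ∈ Ico M N, (n : ℝ) ^ (-1 - c)
      ≤ ∑ n ∈ Ico M N, (n : ℝ) ^ (-1 - c / 2) * (M : ℝ) ^ (-(c / 2)) := by
        refine sum_le_sum fun n hn => ?_
        have h1 : (M : ℝ) ≤ n := by exact_mod_cast (mem_Ico.1 hn).1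
        have h2 : (0 : ℝ) < n := hM0.trans_le h1
        have : (-1 - c) = (-1 - c / 2) + (-(c / 2)) := by ring
        rw [this, Real.rpow_add h2]
        exact mul_le_mul_of_nonneg_left
          (Real.rpow_le_rpow_of_nonpos hM0 h1 (by linarith)) (by positivity)
    _ = (∑ n ∈ Ico M N, (n : ℝ) ^ (-1 - c / 2)) * (M : ℝ) ^ (-(c / 2)) := by rw [sum_mul]
    _ ≤ _ := by
        refine mul_le_mul_of_nonneg_right ?_ (by positivity)
        have := hs.sum_le_tsum (Ico M N) fun n _ => by positivity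
        linarith

/-- the sum is close to the integral -/
theorem sum_close (hV : S_VdC) : ∃ c C : ℝ, 0 < c ∧ 0 < C ∧ ∀ (M N : ℕ) (x u : ℝ), 1 ≤ M → M ≤ N →
    1 ≤ x → |u| ≤ (M : ℝ) ^ 5 → ph x N = 0 →
    ‖∑ m ∈ Ioc M N, (ph x m : ℂ) * nit u m - ∫ s in (M : ℝ)..N, (ph x s : ℂ) * nit u s‖ ≤
      C * (M : ℝ) ^ (-c) := by
  obtain ⟨c, C, hc, hc2, hC, hV⟩ := hV 5
  obtain ⟨L, hL, hlip⟩ := ph_lip
  obtain ⟨Z, hZ, hsum⟩ := sum_rpow_le hc
  refine ⟨c / 2, L * (C + 1) * Z, by positivity, by positivity, fun M N x u hM hMN hx hu hN => ?_⟩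
  set J : ℕ → ℂ := fun n => ∫ s in (n : ℝ)..((n + 1 : ℕ) : ℝ), nit u s with hJ
  set e : ℕ → ℂ := fun m => nit u m - J (m - 1) with he
  have shift : ∀ (F : ℕ → ℂ) (n : ℕ), ∑ m ∈ Ioc M n, F m = ∑ m ∈ Ico M n, F (m + 1) := by
    intro F n
    rw [sum_Ico_add' F M n 1]
    congr 1
    ext m
    rw [mem_Ioc, mem_Ico]
    omega
  have hE : ∀ n, M ≤ n → ‖∑ m ∈ Ioc M n, e m‖ ≤ C * (n : ℝ) ^ (1 - c) := fun n hn => by
    have := hV M n u 0 hM hn hu le_rfl zero_le_one
    simp only [add_zero] at this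
    convert this using 2
    rw [he, sum_sub_distrib, ← sum_int _ M n hM hn (contOn_nit u), shift (fun m => J (m - 1))]
    simp [hJ]
  have cF : ContinuousOn (fun s => (ph x s : ℂ) * nit u s) (Set.Ioi 0) :=
    (Complex.continuous_ofReal.comp_continuousOn (contOn_ph x)).mul (contOn_nit u)
  have split : ∑ m ∈ Ioc M N, (ph x m : ℂ) * nit u m - ∫ s in (M : ℝ)..N, (ph x s : ℂ) * nit u s =
      ∑ m ∈ Ioc M N, (ph x m : ℂ) * e m + ∑ n ∈ Ico M N,
        ((ph x (n + 1 : ℕ) : ℂ) * J n - ∫ s in (n : ℝ)..((n + 1 : ℕ) : ℝ), (ph x s : ℂ) * nit u s) := by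
    rw [sum_sub_distrib, sum_int _ M N hM hMN cF]
    simp only [he, mul_sub]
    rw [sum_sub_distrib, shift (fun m => (ph x m : ℂ) * J (m - 1))]
    simp only [Nat.add_sub_cancel]
    ring
  have pw : ∀ n ∈ Ico M N, (0 : ℝ) < n ∧ 1 / (n : ℝ) ^ 2 * (n : ℝ) ^ (1 - c) = (n : ℝ) ^ (-1 - c) ∧
      1 / (n : ℝ) ^ 2 ≤ (n : ℝ) ^ (-1 - c) := fun n hn => by
    have h1 : (1 : ℝ) ≤ n := by exact_mod_cast hM.trans (mem_Ico.1 hn).1
    have h0 : (0 : ℝ) < n := by linarith
    have h2 : 1 / (n : ℝ) ^ 2 = (n : ℝ) ^ (-2 : ℝ) := by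
      rw [Real.rpow_neg h0.le, one_div]; norm_num
    refine ⟨h0, ?_, ?_⟩
    · rw [h2, ← Real.rpow_add h0]; congr 1; ring
    · rw [h2]; exact Real.rpow_le_rpow_of_exponent_le h1 (by linarith)
  have b1 : ‖∑ m ∈ Ioc M N, (ph x m : ℂ) * e m‖ ≤ L * C * ∑ n ∈ Ico M N, (n : ℝ) ^ (-1 - c) := by
    rw [abel (fun m => (ph x m : ℂ)) e M N hMN, hN]
    simp only [Complex.ofReal_zero, zero_mul, zero_sub, norm_neg]
    rw [mul_sum]
    refine (norm_sum_le _ _).trans (sum_le_sum fun n hn => ?_)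
    obtain ⟨h0, h1, -⟩ := pw n hn
    rw [norm_mul, ← Complex.ofReal_sub, Complex.norm_real, Real.norm_eq_abs, ← h1]
    have h3 := hlip x n (n + 1 : ℕ) hx h0 (by push_cast; linarith) (by push_cast; linarith)
    calc _ ≤ L / (n : ℝ) ^ 2 * (C * (n : ℝ) ^ (1 - c)) :=
          mul_le_mul h3 (hE n (mem_Ico.1 hn).1) (norm_nonneg _) (by positivity)
      _ = _ := by ring
  have b2 : ‖∑ n ∈ Ico M N, ((ph x (n + 1 : ℕ) : ℂ) * J n -
      ∫ s in (n : ℝ)..((n + 1 : ℕ) : ℝ), (ph x s : ℂ) * nit u s)‖ ≤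
      L * ∑ n ∈ Ico M N, (n : ℝ) ^ (-1 - c) := by
    rw [mul_sum]
    refine (norm_sum_le _ _).trans (sum_le_sum fun n hn => ?_)
    obtain ⟨h0, -, h2⟩ := pw n hn
    have hle : (n : ℝ) ≤ ((n + 1 : ℕ) : ℝ) := by push_cast; linarith
    have sub : Set.uIcc (n : ℝ) ((n + 1 : ℕ) : ℝ) ⊆ Set.Ioi 0 := fun y hy => by
      rw [Set.uIcc_of_le hle] at hy
      exact h0.trans_le hy.1
    rw [hJ]
    simp only
    rw [← intervalIntegral.integral_const_mul, ← intervalIntegral.integral_sub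
      (((contOn_nit u).mono sub).intervalIntegrable.const_mul _) (cF.mono sub).intervalIntegrable]
    have h4 := intervalIntegral.norm_integral_le_of_norm_le_const (a := (n : ℝ))
      (b := ((n + 1 : ℕ) : ℝ)) (C := L * (n : ℝ) ^ (-1 - c))
      (f := fun s => (ph x (n + 1 : ℕ) : ℂ) * nit u s - (ph x s : ℂ) * nit u s) fun s hs => by
        rw [Set.uIoc_of_le hle] at hs
        rw [← sub_mul, norm_mul, norm_nit, mul_one, ← Complex.ofReal_sub, Complex.norm_real,
          Real.norm_eq_abs]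
        have h5 := hs.1
        have h3 := hlip x s (n + 1 : ℕ) hx (h0.trans h5) hs.2 (by push_cast; linarith)
        refine h3.trans ?_
        calc L / s ^ 2 ≤ L / (n : ℝ) ^ 2 :=
              div_le_div_of_nonneg_left hL.le (by positivity) (pow_le_pow_left₀ h0.le h5.le 2)
          _ = L * (1 / (n : ℝ) ^ 2) := by ring
          _ ≤ _ := mul_le_mul_of_nonneg_left h2 hL.le
    refine h4.trans (le_of_eq ?_)
    push_cast
    simp
  rw [split]
  have b3 := hsum M N hM
  calc _ ≤ L * C * ∑ n ∈ Ico M N, (n : ℝ) ^ (-1 - c) + L * ∑ n ∈ Ico M N, (n : ℝ) ^ (-1 - c) :=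
        (norm_add_le _ _).trans (add_le_add b1 b2)
    _ = L * (C + 1) * ∑ n ∈ Ico M N, (n : ℝ) ^ (-1 - c) := by ring
    _ ≤ L * (C + 1) * (Z * (M : ℝ) ^ (-(c / 2))) := mul_le_mul_of_nonneg_left b3 (by positivity)
    _ = _ := by ring

/-- the kernel bound -/
theorem kernel_bound (hV : S_VdC) (hF : S_Fourier) : ∃ c C : ℝ, 0 < c ∧ 0 < C ∧ ∀ X : ℕ, 4 ≤ X →
    ∀ u : ℝ, |u| ≤ 2 * X →
    ‖Kk (Icc 1 (X ^ 2)) (fun m => ph (Real.log X) m) u‖ ≤
      C * Real.log X * cw (1 / Real.log X) u + C * (X : ℝ) ^ (-c) := by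
  obtain ⟨c, C, hc, hC, h⟩ := sum_close hV
  obtain ⟨-, C', hC', -, -, -, hft⟩ := hF Phi contDiff_Phi compact_Phi
  refine ⟨c / 4, C + C', by positivity, by positivity, fun X hX u hu => ?_⟩
  set x := Real.log X with hx
  set M := Nat.sqrt X with hM
  have hX4 : (4 : ℝ) ≤ X := by exact_mod_cast hX
  have hx1 : 1 ≤ x := by
    rw [hx, Real.le_log_iff_exp_le (by linarith)]
    exact Real.exp_one_lt_three.le.trans (by linarith)
  have hM2 : 2 ≤ M := Nat.le_sqrt.2 hX
  have hMX : M * M ≤ X := Nat.sqrt_le X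
  have hXM : X < (M + 1) * (M + 1) := Nat.lt_succ_sqrt X
  have hMN : M ≤ X ^ 2 := (Nat.sqrt_le_self X).trans (Nat.le_self_pow two_ne_zero X)
  have hM2' : (2 : ℝ) ≤ M := by exact_mod_cast hM2
  have hXM' : (X : ℝ) ≤ (M : ℝ) ^ 4 := by
    have : (X : ℝ) < (M + 1) * (M + 1) := by exact_mod_cast hXM
    nlinarith [mul_le_mul hM2' hM2' zero_le_two (by linarith : (0 : ℝ) ≤ M),
      sq_nonneg ((M : ℝ) ^ 2 - 4), sq_nonneg ((M : ℝ) - 2)]
  have small : ∀ m : ℕ, 1 ≤ m → m ≤ M → Real.log m / x ≤ 1 / 2 := fun m h1 h2 => by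
    have h3 : (0 : ℝ) < m := by exact_mod_cast h1
    have h4 : ((m : ℝ)) ^ 2 ≤ X := by
      have : m * m ≤ X := (Nat.mul_le_mul h2 h2).trans hMX
      rw [sq]; exact_mod_cast this
    have h5 := Real.log_le_log (by positivity) h4
    rw [Real.log_pow] at h5
    rw [div_le_iff₀ (by linarith)]
    push_cast at h5
    linarith
  have big : 3 / 2 ≤ Real.log ((X ^ 2 : ℕ) : ℝ) / x := by
    rw [le_div_iff₀ (by linarith)]
    push_cast
    rw [Real.log_pow]
    push_cast
    linarith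
  have e1 : Kk (Icc 1 (X ^ 2)) (fun m => ph x m) u = ∑ m ∈ Ioc M (X ^ 2), (ph x m : ℂ) * nit u m := by
    unfold Kk
    symm
    refine sum_subset (fun m hm => ?_) fun m h1 h2 => ?_
    · rw [mem_Ioc] at hm; rw [mem_Icc]; omega
    · rw [mem_Icc] at h1; rw [mem_Ioc] at h2
      have : ph x m = 0 := by
        unfold ph
        rw [Phi_eq_zero (Or.inl (small m h1.1 (by omega))), zero_div]
      simp [this]
  have h1 := h M (X ^ 2) x u (by omega) hMN hx1 (hu.trans (by nlinarith)) (by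
    unfold ph; rw [Phi_eq_zero (Or.inr big), zero_div])
  have h2 := main_term x u M ((X ^ 2 : ℕ) : ℝ) (by linarith) (by linarith) (by exact_mod_cast hMN)
    (small M (by omega) le_rfl) big
  rw [h2, ← e1] at h1
  have h3 : ‖(x : ℂ) * ∫ v : ℝ, (Phi v : ℂ) * ex (-((x * u) * v))‖ ≤ C' * x * cw (1 / x) u := by
    rw [norm_mul, Complex.norm_real, Real.norm_of_nonneg (by linarith)]
    have h4 : cw 1 (x * u) = cw (1 / x) u := by
      unfold cw; congr 3; field_simp
    have := hft (x * u)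
    rw [h4] at this
    nlinarith
  have h5 : (M : ℝ) ^ (-c) ≤ (X : ℝ) ^ (-(c / 4)) := by
    have : (M : ℝ) ^ (-c) = ((M : ℝ) ^ 4) ^ (-(c / 4)) := by
      rw [← Real.rpow_natCast, ← Real.rpow_mul (by linarith)]; congr 1; push_cast; ring
    rw [this]
    exact Real.rpow_le_rpow_of_nonpos (by linarith) hXM' (by linarith)
  have h6 := norm_le_insert' (Kk (Icc 1 (X ^ 2)) (fun m => ph x m) u)
    ((x : ℂ) * ∫ v : ℝ, (Phi v : ℂ) * ex (-((x * u) * v)))
  have h7 : 0 ≤ x * cw (1 / x) u := mul_nonneg (by linarith) (cw_pos _ _).le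
  have h8 : (0 : ℝ) ≤ (X : ℝ) ^ (-(c / 4)) := by positivity
  nlinarith [mul_le_mul_of_nonneg_left h5 hC.le, mul_nonneg hC.le h7, mul_nonneg hC'.le h8]

end HM

open HM in
theorem hm (hV : S_VdC) (hF : S_Fourier) : S_HM := by
  obtain ⟨c, C, hc, hC, hK⟩ := kernel_bound hV hF
  refine ⟨c, 2 * C * (C * Real.pi + C), 4, hc, by positivity, fun X hX a ha U hU hUX hvol => ?_⟩
  set x := Real.log X with hx
  have hX4 : (4 : ℝ) ≤ X := by exact_mod_cast hX
  have hx1 : 1 ≤ x := by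
    rw [hx, Real.le_log_iff_exp_le (by linarith)]
    exact Real.exp_one_lt_three.le.trans (by linarith)
  have hfin : volume U ≠ ⊤ :=
    ((measure_mono hUX).trans_lt (by rw [Real.volume_Icc]; exact ENNReal.ofReal_lt_top)).ne
  have : IsFiniteMeasure (volume.restrict U) := isFiniteMeasure_restrict.2 hfin
  have hw : ∀ m : ℕ, 0 ≤ ph x m := fun m => div_nonneg (Phi_nonneg _) (Nat.cast_nonneg m)
  have hXc : (X : ℝ) ^ (-c) ≤ 1 := Real.rpow_le_one_of_one_le_of_nonpos (by linarith) (by linarith)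
  have hT : 0 < 1 / x := by positivity
  have hW : ∑ m ∈ Icc 1 (X ^ 2), ph x m ≤ 2 * C * x := by
    have h1 := hK X hX 0 (by simp)
    have h2 : Kk (Icc 1 (X ^ 2)) (fun m => ph x m) 0 = ((∑ m ∈ Icc 1 (X ^ 2), ph x m : ℝ) : ℂ) := by
      simp [Kk, nit, ex_zero]
    rw [h2, Complex.norm_real, Real.norm_of_nonneg (sum_nonneg fun m _ => hw m)] at h1
    have h3 := cw_le_one (1 / x) 0
    have h4 : C * x * cw (1 / x) 0 ≤ C * x := mul_le_of_le_one_right (by positivity) h3
    nlinarith [mul_le_mul_of_nonneg_left hXc hC.le]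
  have hS : ∀ᵐ t ∂(volume.restrict U),
      ∫ t', ‖Kk (Icc 1 (X ^ 2)) (fun m => ph x m) (t - t')‖ ∂(volume.restrict U) ≤
        C * Real.pi + C := by
    filter_upwards [ae_restrict_mem hU] with t ht
    have i1 : Integrable (fun t' => C * x * cw (1 / x) (t - t')) :=
      ((integrable_cw hT).comp_sub_left t).const_mul _
    have h1 : ∫ t' in U, ‖Kk (Icc 1 (X ^ 2)) (fun m => ph x m) (t - t')‖ ≤
        ∫ t' in U, (C * x * cw (1 / x) (t - t') + C * (X : ℝ) ^ (-c)) := by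
      refine integral_mono_of_nonneg (Filter.Eventually.of_forall fun t => norm_nonneg _)
        (i1.integrableOn.add (integrable_const _)) ?_
      filter_upwards [ae_restrict_mem hU] with t' ht'
      refine hK X hX _ ?_
      have h2 := hUX ht
      have h3 := hUX ht'
      rw [abs_le]
      constructor <;> linarith [h2.1, h2.2, h3.1, h3.2]
    rw [integral_add i1.integrableOn (integrable_const _), setIntegral_const, smul_eq_mul] at h1
    have h2 : ∫ t' in U, C * x * cw (1 / x) (t - t') ≤ C * Real.pi := by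
      refine (setIntegral_le_integral i1 (Filter.Eventually.of_forall fun t' =>
        mul_nonneg (by positivity) (cw_pos _ _).le)).trans (le_of_eq ?_)
      rw [integral_const_mul, integral_sub_left_eq_self (cw (1 / x)) volume t, integral_cw hT]
      field_simp
    have h3 : volume.real U * (C * (X : ℝ) ^ (-c)) ≤ C := by
      calc _ ≤ (X : ℝ) ^ c * (C * (X : ℝ) ^ (-c)) :=
            mul_le_mul_of_nonneg_right hvol (by positivity)
        _ = C * ((X : ℝ) ^ c * (X : ℝ) ^ (-c)) := by ring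
        _ = C := by rw [← Real.rpow_add (by linarith)]; simp
    linarith
  have key := duality (volume.restrict U) (Icc 1 (X ^ 2)) (fun m => ph x m) hw a ha
    (C * Real.pi + C) (by positivity) hS
  calc ∫ t in U, ‖Rx a X t‖ ^ 2 ≤ (∑ m ∈ Icc 1 (X ^ 2), ph x m) * (C * Real.pi + C) := key
    _ ≤ 2 * C * x * (C * Real.pi + C) := mul_le_mul_of_nonneg_right hW (by positivity)
    _ = _ := by ring

end Pool.Agent.P.MP_a14ce1_nt.Ch
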