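import Pool.Agent.P.MP_a14ce1_nt.Ch.Defs

open Finset ArithmeticFunction

namespace Pool.Agent.P.MP_a14ce1_nt.Ch

namespace HOne

lemma rc_eq {b : ℕ} (χ : DirichletCharacter ℂ b) (y : ℕ) :
    (fun n : ℕ => (DirichletCharacter.changeLevel (dvd_mul_right b (primorial y)) χ)
      (n : ZMod (b * primorial y))) = rc χ y := by
  funext n
  unfold rc
  by_cases h : Nat.Coprime n (b * primorial y)
  · rw [if_pos (Nat.Coprime.coprime_mul_left_right h)]
    have h' : IsCoprime (n : ℤ) ((b * primorial y : ℕ) : ℤ) := Nat.isCoprime_iff_coprime.2 h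
    have := DirichletCharacter.changeLevel_eq_cast_of_dvd' χ (dvd_mul_right b (primorial y)) h'
    simpa using this
  · rw [MulChar.map_nonunit _ (by rwa [ZMod.isUnit_iff_coprime])]
    split_ifs with h2
    · rw [MulChar.map_nonunit]
      rw [ZMod.isUnit_iff_coprime]
      exact fun h3 => h (Nat.Coprime.mul_right h3 h2)
    · rfl

lemma norm_rc_le {b : ℕ} (χ : DirichletCharacter ℂ b) (y n : ℕ) : ‖rc χ y n‖ ≤ 1 := by
  unfold rc
  split_ifs
  · exact χ.norm_le_one _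
  · simp

lemma three_four_one {b : ℕ} (χ : DirichletCharacter ℂ b) (y : ℕ) {σ : ℝ} (hσ : 1 < σ) (t : ℝ) :
    1 ≤ ‖LSeries (rc (1 : DirichletCharacter ℂ b) y) (σ + (0 : ℝ) * Complex.I)‖ ^ 3 *
      ‖LSeries (rc χ y) (σ + t * Complex.I)‖ ^ 4 *
      ‖LSeries (rc (χ ^ 2) y) (σ + (2 * t : ℝ) * Complex.I)‖ := by
  have h := DirichletCharacter.norm_LSeries_product_ge_one
    (DirichletCharacter.changeLevel (dvd_mul_right b (primorial y)) χ) (x := σ - 1) (by linarith) t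
  rw [← rc_eq, ← rc_eq, ← rc_eq, map_one, map_pow]
  rw [norm_mul, norm_mul, norm_pow, norm_pow] at h
  have e0 : (σ : ℂ) + (0 : ℝ) * Complex.I = 1 + ((σ - 1 : ℝ) : ℂ) := by push_cast; ring
  have e1 : (σ : ℂ) + t * Complex.I = 1 + ((σ - 1 : ℝ) : ℂ) + Complex.I * t := by push_cast; ring
  have e2 : (σ : ℂ) + (2 * t : ℝ) * Complex.I = 1 + ((σ - 1 : ℝ) : ℂ) + 2 * Complex.I * t := by
    push_cast; ring
  rw [e0, e1, e2]
  exact h

lemma absc_lt {f : ℕ → ℂ} (hf : ∀ n, ‖f n‖ ≤ 1) {σ : ℝ} (hσ : 1 < σ) (t : ℝ) :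
    LSeries.abscissaOfAbsConv f < ((σ + t * Complex.I : ℂ).re : EReal) := by
  have h : LSeries.abscissaOfAbsConv f ≤ 1 :=
    LSeries.abscissaOfAbsConv_le_of_le_const ⟨1, fun n _ => hf n⟩
  refine lt_of_le_of_lt h ?_
  have : (σ + t * Complex.I : ℂ).re = σ := by simp
  rw [this]
  exact_mod_cast hσ

lemma seg {F : ℂ → ℂ} {a c t K : ℝ} (hac : a ≤ c)
    (hF : ∀ σ : ℝ, a ≤ σ → σ ≤ c → DifferentiableAt ℂ F (σ + t * Complex.I))
    (hK : ∀ σ : ℝ, a ≤ σ → σ ≤ c → ‖deriv F (σ + t * Complex.I)‖ ≤ K) :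
    ‖F (c + t * Complex.I) - F (a + t * Complex.I)‖ ≤ K * (c - a) := by
  have h := norm_image_sub_le_of_norm_deriv_le_segment'
    (f := fun σ : ℝ => F (σ + t * Complex.I)) (f' := fun σ : ℝ => deriv F (σ + t * Complex.I))
    (a := a) (b := c) (C := K) ?_ (fun σ hσ => hK σ hσ.1 hσ.2.le) c ⟨hac, le_rfl⟩
  · exact h
  · intro σ hσ
    have h1 : HasDerivAt (fun w : ℂ => F (w + t * Complex.I))
        (deriv F (σ + t * Complex.I)) (σ : ℂ) :=
      HasDerivAt.comp_add_const _ _ (hF σ hσ.1 hσ.2).hasDerivAt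
    exact h1.comp_ofReal.hasDerivWithinAt

lemma lower {b : ℕ} (χ : DirichletCharacter ℂ b) (y : ℕ) {C l t : ℝ} (hC : 1 ≤ C) (hl : 1 ≤ l)
    (hA : ∀ σ : ℝ, 1 < σ → σ ≤ 2 →
      ‖LSeries (rc (1 : DirichletCharacter ℂ b) y) (σ + (0 : ℝ) * Complex.I)‖ ≤
        C * (1 + 1 / ((σ - 1) * l)))
    (hB : ∀ σ : ℝ, 1 < σ → σ ≤ 2 → ‖LSeries (rc (χ ^ 2) y) (σ + (2 * t : ℝ) * Complex.I)‖ ≤ C)
    (hD : ∀ σ : ℝ, 1 < σ → σ ≤ 2 → ‖deriv (LSeries (rc χ y)) (σ + t * Complex.I)‖ ≤ C * l)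
    {σ : ℝ} (h1 : 1 < σ) (h2 : σ ≤ 1 + 1 / l) :
    (1 / (4 * C ^ 2)) ^ 3 / (4 * C) ≤ ‖LSeries (rc χ y) (σ + t * Complex.I)‖ := by
  set δ : ℝ := 1 / (4 * C ^ 2) with hδ
  have hC0 : 0 < C := by linarith
  have hl0 : 0 < l := by linarith
  have hδ0 : 0 < δ := by positivity
  have hδ1 : δ ≤ 1 := by
    rw [hδ, div_le_one (by positivity)]; nlinarith
  have hu0 : 0 < δ ^ 4 := by positivity
  have hu1 : δ ^ 4 ≤ 1 := pow_le_one₀ hδ0.le hδ1
  have hl1 : 1 / l ≤ 1 := by rw [div_le_one hl0]; exact hl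
  have step : ∀ τ : ℝ, 1 + δ ^ 4 / l ≤ τ → τ ≤ 2 →
      δ ^ 3 / (2 * C) ≤ ‖LSeries (rc χ y) (τ + t * Complex.I)‖ := by
    intro τ hτ1 hτ2
    have hp : 0 < δ ^ 4 / l := by positivity
    have hτ : 1 < τ := by linarith
    have e1 : δ ^ 4 ≤ (τ - 1) * l := by
      rw [← div_le_iff₀ hl0]; linarith
    have e2 : 1 / ((τ - 1) * l) ≤ 1 / δ ^ 4 := one_div_le_one_div_of_le hu0 e1
    have e3 : 1 ≤ 1 / δ ^ 4 := by rw [le_div_iff₀ hu0]; linarith
    have a1 : ‖LSeries (rc (1 : DirichletCharacter ℂ b) y) (τ + (0 : ℝ) * Complex.I)‖ ≤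
        2 * C / δ ^ 4 := by
      refine (hA τ hτ hτ2).trans ?_
      rw [show 2 * C / δ ^ 4 = C * (1 / δ ^ 4 + 1 / δ ^ 4) by ring]
      gcongr
    have a2 := hB τ hτ hτ2
    have a3 := three_four_one χ y hτ t
    set A := ‖LSeries (rc χ y) (τ + t * Complex.I)‖
    have hA0 : 0 ≤ A := norm_nonneg _
    have a4 : 1 ≤ (2 * C / δ ^ 4) ^ 3 * A ^ 4 * C := a3.trans (by gcongr)
    have a5 : (δ ^ 3 / (2 * C)) ^ 4 ≤ A ^ 4 := by
      have e : (2 * C / δ ^ 4) ^ 3 * A ^ 4 * C = A ^ 4 / (2 * (δ ^ 3 / (2 * C)) ^ 4) := by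
        field_simp
      rw [e, le_div_iff₀ (by positivity)] at a4
      have : 0 ≤ (δ ^ 3 / (2 * C)) ^ 4 := by positivity
      linarith
    exact (pow_le_pow_iff_left₀ (by positivity) hA0 (by norm_num)).1 a5
  have hpos : 0 ≤ δ ^ 3 / (4 * C) := by positivity
  have hhalf : δ ^ 3 / (2 * C) = δ ^ 3 / (4 * C) + δ ^ 3 / (4 * C) := by field_simp; ring
  rcases le_or_gt (1 + δ ^ 4 / l) σ with h | h
  · have := step σ h (by linarith)
    linarith
  · have hd : δ ^ 4 / l ≤ 1 / l := by gcongr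
    have s1 := step (1 + δ ^ 4 / l) le_rfl (by linarith)
    have s2 := seg (F := LSeries (rc χ y)) (t := t) (K := C * l) h.le
      (fun τ h3 _ => (LSeries_hasDerivAt (absc_lt (norm_rc_le χ y) (by linarith) t)).differentiableAt)
      (fun τ h3 h4 => hD τ (by linarith) (by linarith))
    have s3 : C * l * (1 + δ ^ 4 / l - σ) ≤ δ ^ 3 / (4 * C) := by
      calc C * l * (1 + δ ^ 4 / l - σ) ≤ C * l * (δ ^ 4 / l) := by gcongr; linarith
        _ = δ ^ 3 * (C * δ) := by field_simp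
        _ = δ ^ 3 / (4 * C) := by rw [hδ]; field_simp
    have s4 := norm_sub_norm_le (LSeries (rc χ y) (((1 + δ ^ 4 / l : ℝ) : ℂ) + t * Complex.I))
      (LSeries (rc χ y) (σ + t * Complex.I))
    linarith

/-- the coefficients of the logarithm of the sifted series -/
noncomputable def aa {b : ℕ} (χ : DirichletCharacter ℂ b) (y n : ℕ) : ℂ :=
  rc χ y n * ((vonMangoldt n / Real.log n : ℝ) : ℂ)

lemma div_log_nonneg (n : ℕ) : 0 ≤ vonMangoldt n / Real.log n :=
  div_nonneg vonMangoldt_nonneg (Real.log_natCast_nonneg n)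

lemma norm_aa_le {b : ℕ} (χ : DirichletCharacter ℂ b) (y n : ℕ) :
    ‖aa χ y n‖ ≤ vonMangoldt n / Real.log n := by
  unfold aa
  rw [norm_mul, Complex.norm_real, Real.norm_of_nonneg (div_log_nonneg n)]
  exact mul_le_of_le_one_left (div_log_nonneg n) (norm_rc_le χ y n)

lemma norm_aa_le_one {b : ℕ} (χ : DirichletCharacter ℂ b) (y n : ℕ) : ‖aa χ y n‖ ≤ 1 :=
  (norm_aa_le χ y n).trans (div_le_one_of_le₀ vonMangoldt_le_log (Real.log_natCast_nonneg n))

lemma aa_eq_zero {b : ℕ} (χ : DirichletCharacter ℂ b) {y n : ℕ} (h : n ≤ y) : aa χ y n = 0 := by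
  unfold aa
  by_cases hp : IsPrimePow n
  · have h1 : n ≠ 1 := hp.ne_one
    have h2 : n.minFac.Prime := Nat.minFac_prime h1
    have h3 : n.minFac ≤ y := (Nat.minFac_le hp.pos).trans h
    have : ¬ Nat.Coprime n (primorial y) :=
      Nat.Prime.not_coprime_iff_dvd.2 ⟨_, h2, Nat.minFac_dvd n, h2.dvd_primorial_iff.2 h3⟩
    simp [rc, this]
  · simp [vonMangoldt_eq_zero_iff.2 hp]

lemma norm_aa_le' {b : ℕ} (χ : DirichletCharacter ℂ b) (y n : ℕ) {z : ℕ} (hz : 2 ≤ z)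
    (h : n ≤ y ∨ z ≤ n) : ‖aa χ y n‖ ≤ vonMangoldt n / Real.log z := by
  have hz' : 0 < Real.log z := Real.log_pos (by exact_mod_cast hz)
  rcases h with h | h
  · rw [aa_eq_zero χ h, norm_zero]
    exact div_nonneg vonMangoldt_nonneg hz'.le
  · refine (norm_aa_le χ y n).trans (div_le_div_of_nonneg_left vonMangoldt_nonneg hz' ?_)
    exact Real.log_le_log (by positivity) (by exact_mod_cast h)

lemma deriv_aa {b : ℕ} (χ : DirichletCharacter ℂ b) (y : ℕ) {σ : ℝ} (hσ : 1 < σ) (t : ℝ) :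
    deriv (LSeries (aa χ y)) (σ + t * Complex.I) =
      deriv (LSeries (rc χ y)) (σ + t * Complex.I) / LSeries (rc χ y) (σ + t * Complex.I) := by
  rw [LSeries_deriv (absc_lt (norm_aa_le_one χ y) hσ t)]
  have h := DirichletCharacter.LSeries_twist_vonMangoldt_eq
    (DirichletCharacter.changeLevel (dvd_mul_right b (primorial y)) χ)
    (s := σ + t * Complex.I) (by simpa using hσ)
  rw [rc_eq] at h
  rw [neg_eq_iff_eq_neg, ← neg_div, ← h]
  apply LSeries_congr
  intro n hn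
  unfold LSeries.logMul aa
  simp only [Pi.mul_apply]
  rcases eq_or_ne n 1 with rfl | h1
  · simp
  · have h2 : Real.log n ≠ 0 := by
      refine (Real.log_pos ?_).ne'
      have : 2 ≤ n := by omega
      exact_mod_cast this
    have h3 : (Real.log n : ℂ) ≠ 0 := by exact_mod_cast h2
    rw [← Complex.natCast_log]
    push_cast
    rw [← Complex.natCast_log]
    field_simp

lemma norm_tsum_le {f : ℕ → ℂ} (hf : Summable f) {C : ℝ}
    (h : ∀ N, ∑ n ∈ range N, ‖f n‖ ≤ C) : ‖∑' n, f n‖ ≤ C :=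
  le_of_tendsto' hf.hasSum.tendsto_sum_nat.norm (fun N => (norm_sum_le _ _).trans (h N))

lemma sum_vm_le {C η : ℝ}
    (h : ∀ N : ℕ, ∑ n ∈ Icc 1 N, vonMangoldt n / (n : ℝ) ^ (1 + η) ≤ C / η) (N : ℕ) :
    ∑ n ∈ range N, vonMangoldt n / (n : ℝ) ^ (1 + η) ≤ C / η := by
  refine le_trans ?_ (h N)
  have e : range (N + 1) = insert 0 (Icc 1 N) := by
    ext n; simp only [mem_range, mem_insert, mem_Icc]; omega
  calc ∑ n ∈ range N, vonMangoldt n / (n : ℝ) ^ (1 + η)
      ≤ ∑ n ∈ range (N + 1), vonMangoldt n / (n : ℝ) ^ (1 + η) :=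
        sum_le_sum_of_subset_of_nonneg (range_mono (Nat.le_succ N)) fun n _ _ =>
          div_nonneg vonMangoldt_nonneg (by positivity)
    _ = _ := by rw [e, sum_insert (by simp)]; simp

lemma norm_term {f : ℕ → ℂ} (σ t : ℝ) {n : ℕ} (hn : n ≠ 0) :
    ‖LSeries.term f (σ + t * Complex.I) n‖ = ‖f n‖ / (n : ℝ) ^ σ := by
  rw [LSeries.norm_term_eq, if_neg hn]; simp

lemma term_eq (f : ℕ → ℂ) (σ t : ℝ) {n : ℕ} (hn : n ≠ 0) :
    LSeries.term f (σ + t * Complex.I) n = f n * (((n : ℝ) ^ (-σ) : ℝ) : ℂ) * nit t n := by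
  have h0 : (n : ℂ) ≠ 0 := by exact_mod_cast hn
  have h1 : (0 : ℝ) < n := by positivity
  rw [LSeries.term_of_ne_zero hn, div_eq_mul_inv, ← Complex.cpow_neg, mul_assoc,
    Complex.cpow_def_of_ne_zero h0, Real.rpow_def_of_pos h1]
  unfold nit ex
  rw [Complex.ofReal_exp, ← Complex.exp_add, ← Complex.natCast_log]
  congr 2
  push_cast
  ring

lemma top_bound {b : ℕ} (χ : DirichletCharacter ℂ b) {y : ℕ} (hy : 2 ≤ y) {C : ℝ} (t : ℝ)
    (h : ∀ N : ℕ, ∑ n ∈ Icc 1 N, vonMangoldt n / (n : ℝ) ^ (1 + 1 / Real.log y) ≤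
      C / (1 / Real.log y)) :
    ‖LSeries (aa χ y) (((1 + 1 / Real.log y : ℝ) : ℂ) + t * Complex.I)‖ ≤ C := by
  have hl : 0 < Real.log y := Real.log_pos (by exact_mod_cast hy)
  have hσ : (1 : ℝ) < 1 + 1 / Real.log y := by
    have : 0 < 1 / Real.log y := by positivity
    linarith
  refine norm_tsum_le
    (LSeriesSummable_of_abscissaOfAbsConv_lt_re (absc_lt (norm_aa_le_one χ y) hσ t)) fun N => ?_
  have h1 := sum_vm_le h N
  calc ∑ n ∈ range N, ‖LSeries.term (aa χ y) (((1 + 1 / Real.log y : ℝ) : ℂ) + t * Complex.I) n‖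
      ≤ ∑ n ∈ range N, vonMangoldt n / (n : ℝ) ^ (1 + 1 / Real.log y) * (1 / Real.log y) := by
        refine sum_le_sum fun n _ => ?_
        rcases eq_or_ne n 0 with rfl | hn
        · simp
        · rw [norm_term _ _ hn]
          have := norm_aa_le' χ y n hy (le_total n y)
          calc ‖aa χ y n‖ / (n : ℝ) ^ (1 + 1 / Real.log y)
              ≤ vonMangoldt n / Real.log y / (n : ℝ) ^ (1 + 1 / Real.log y) := by gcongr
            _ = _ := by ring
    _ ≤ C / (1 / Real.log y) * (1 / Real.log y) := by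
        rw [← sum_mul]; gcongr
    _ = C := by field_simp

/-- the non-prime part of the von Mangoldt sum -/
noncomputable def np (n : ℕ) : ℝ := (if n.Prime then 0 else vonMangoldt n) / n

lemma np_nonneg (n : ℕ) : 0 ≤ np n := by
  unfold np
  split_ifs
  · simp
  · exact div_nonneg vonMangoldt_nonneg (Nat.cast_nonneg n)

lemma summable_np : Summable np := by
  have h := vonMangoldt.summable_residueClass_non_primes_div (0 : ZMod 1)
  refine h.congr fun n => ?_
  have e : vonMangoldt.residueClass (0 : ZMod 1) n = vonMangoldt n :=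
    Set.indicator_of_mem (s := {n : ℕ | (n : ZMod 1) = 0}) (Subsingleton.elim (n : ZMod 1) 0) _
  unfold np
  rw [e]

lemma compare {b : ℕ} (χ : DirichletCharacter ℂ b) {y Q : ℕ} (hy : 3 ≤ y) (hQ : y ≤ Q)
    {C C2 : ℝ} (t : ℝ) (hC2 : 0 ≤ C2)
    (h : ∀ N : ℕ, ∑ n ∈ Icc 1 N, vonMangoldt n / (n : ℝ) ^ (1 + 1 / Real.log Q) ≤
      C / (1 / Real.log Q))
    (h2 : ∑ p ∈ pr 0 Q, Real.log p / p ≤ Real.log Q + C2) :
    ‖LSeries (aa χ y) (((1 + 1 / Real.log Q : ℝ) : ℂ) + t * Complex.I) -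
      ∑ p ∈ (Ioc y Q).filter Nat.Prime, χ (p : ZMod b) / p * nit t p‖ ≤
      C + ∑' n, np n + (1 + C2) := by
  have log3 : ∀ z : ℕ, 3 ≤ z → 1 ≤ Real.log z := fun z hz => by
    rw [Real.le_log_iff_exp_le (by positivity)]
    have : (3 : ℝ) ≤ z := by exact_mod_cast hz
    linarith [Real.exp_one_lt_d9]
  have hq : 1 ≤ Real.log Q := log3 Q (by omega)
  have hl : 1 ≤ Real.log y := log3 y hy
  set q := Real.log Q with hq'
  have hq0 : 0 < 1 / q := by positivity
  have hσ : (1 : ℝ) < 1 + 1 / q := by linarith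
  set S := (Ioc y Q).filter Nat.Prime with hS
  set s : ℂ := ((1 + 1 / q : ℝ) : ℂ) + t * Complex.I with hs
  set g : ℕ → ℂ := fun p => if p ∈ S then χ (p : ZMod b) / p * nit t p else 0 with hg
  have hg0 : ∀ n ∉ S, g n = 0 := fun n hn => if_neg hn
  have hsum : Summable (LSeries.term (aa χ y) s) :=
    LSeriesSummable_of_abscissaOfAbsConv_lt_re (absc_lt (norm_aa_le_one χ y) hσ t)
  have hgs : Summable g := summable_of_ne_finset_zero hg0
  have e1 : ∑ p ∈ S, χ (p : ZMod b) / p * nit t p = ∑' n, g n := by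
    rw [tsum_eq_sum hg0]
    exact sum_congr rfl fun p hp => (if_pos hp).symm
  rw [e1, LSeries, ← hsum.tsum_sub hgs]
  refine norm_tsum_le (hsum.sub hgs) fun N => ?_
  have key : ∀ n, ‖LSeries.term (aa χ y) s n - g n‖ ≤
      vonMangoldt n / (n : ℝ) ^ (1 + 1 / q) * (1 / q) + np n +
        (if n ∈ pr 0 Q then Real.log n / n * (1 / q) else 0) := by
    intro n
    have p1 : 0 ≤ vonMangoldt n / (n : ℝ) ^ (1 + 1 / q) * (1 / q) :=
      mul_nonneg (div_nonneg vonMangoldt_nonneg (by positivity)) hq0.le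
    have p2 := np_nonneg n
    have p3 : 0 ≤ (if n ∈ pr 0 Q then Real.log n / n * (1 / q) else 0) := by
      split_ifs
      · exact mul_nonneg (div_nonneg (Real.log_natCast_nonneg n) (Nat.cast_nonneg n)) hq0.le
      · exact le_rfl
    rcases eq_or_ne n 0 with rfl | hn
    · rw [hg0 0 (by simp [hS]), LSeries.term_zero, sub_zero, norm_zero]
      positivity
    have hn0 : (0 : ℝ) < n := by positivity
    have hn1 : (1 : ℝ) ≤ n := by exact_mod_cast Nat.pos_of_ne_zero hn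
    by_cases hnS : n ∈ S
    · obtain ⟨h3, h4⟩ := mem_filter.1 hnS
      obtain ⟨h5, h6⟩ := mem_Ioc.1 h3
      have hmem : n ∈ pr 0 Q := (mem_pr le_rfl).2 ⟨h4, hn0, by exact_mod_cast h6⟩
      have hcop : Nat.Coprime n (primorial y) :=
        (Nat.Prime.coprime_iff_not_dvd h4).2 (fun h7 => by
          have := h4.dvd_primorial_iff.1 h7; omega)
      have hlog : 0 < Real.log n := Real.log_pos (by exact_mod_cast h4.one_lt)
      have ha : aa χ y n = χ (n : ZMod b) := by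
        unfold aa rc
        rw [if_pos hcop, vonMangoldt_apply_prime h4, div_self hlog.ne']; simp
      have e2 : LSeries.term (aa χ y) s n - g n =
          χ (n : ZMod b) * nit t n * (((n : ℝ) ^ (-(1 + 1 / q)) - 1 / n : ℝ) : ℂ) := by
        rw [hs, term_eq _ _ _ hn, ha, hg]
        simp only [if_pos hnS]
        push_cast
        ring
      have e3 : |(n : ℝ) ^ (-(1 + 1 / q)) - 1 / n| ≤ Real.log n / n * (1 / q) := by
        have e4 : (n : ℝ) ^ (-(1 + 1 / q)) = 1 / n * Real.exp (-(Real.log n * (1 / q))) := by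
          rw [Real.rpow_def_of_pos hn0, show Real.log n * -(1 + 1 / q) =
            -Real.log n + -(Real.log n * (1 / q)) by ring, Real.exp_add, Real.exp_neg,
            Real.exp_log hn0, one_div (n : ℝ)]
        have e5 := Real.add_one_le_exp (-(Real.log n * (1 / q)))
        have e6 : Real.exp (-(Real.log n * (1 / q))) ≤ 1 :=
          Real.exp_le_one_iff.2 (by have := mul_pos hlog hq0; linarith)
        have e7 : 0 < 1 / (n : ℝ) := by positivity
        rw [e4, abs_le]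
        have e8 : Real.log n / n * (1 / q) = 1 / n * (Real.log n * (1 / q)) := by ring
        rw [e8]
        constructor <;> nlinarith [mul_pos hlog hq0]
      rw [e2, norm_mul, norm_mul, norm_nit, mul_one, Complex.norm_real, Real.norm_eq_abs,
        if_pos hmem]
      have e9 := χ.norm_le_one (n : ZMod b)
      have e10 := abs_nonneg ((n : ℝ) ^ (-(1 + 1 / q)) - 1 / n)
      nlinarith
    · rw [hg0 n hnS, sub_zero, hs, norm_term _ _ hn]
      rcases le_or_gt n y with h3 | h3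
      · rw [aa_eq_zero χ h3, norm_zero, zero_div]; positivity
      rcases le_or_gt n Q with h4 | h4
      · have h5 : ¬ n.Prime := fun h6 => hnS (mem_filter.2 ⟨mem_Ioc.2 ⟨h3, h4⟩, h6⟩)
        have h6 := norm_aa_le' χ y n (z := y) (by omega) (Or.inr h3.le)
        have h7 : vonMangoldt n / Real.log y ≤ vonMangoldt n :=
          div_le_self vonMangoldt_nonneg hl
        have h8 : (n : ℝ) ≤ (n : ℝ) ^ (1 + 1 / q) := Real.self_le_rpow_of_one_le hn1 hσ.le
        have h9 : ‖aa χ y n‖ / (n : ℝ) ^ (1 + 1 / q) ≤ np n := by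
          unfold np
          rw [if_neg h5]
          exact div_le_div₀ vonMangoldt_nonneg (h6.trans h7) hn0 h8
        linarith
      · have h6 := norm_aa_le' χ y n (z := Q) (by omega) (Or.inr h4.le)
        have h9 : ‖aa χ y n‖ / (n : ℝ) ^ (1 + 1 / q) ≤
            vonMangoldt n / (n : ℝ) ^ (1 + 1 / q) * (1 / q) := by
          calc ‖aa χ y n‖ / (n : ℝ) ^ (1 + 1 / q)
              ≤ vonMangoldt n / q / (n : ℝ) ^ (1 + 1 / q) := by gcongr
            _ = _ := by ring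
        linarith
  refine (sum_le_sum fun n _ => key n).trans ?_
  rw [sum_add_distrib, sum_add_distrib]
  have b1 : ∑ n ∈ range N, vonMangoldt n / (n : ℝ) ^ (1 + 1 / q) * (1 / q) ≤ C := by
    rw [← sum_mul]
    calc _ ≤ C / (1 / q) * (1 / q) := by gcongr; exact sum_vm_le h N
      _ = C := by field_simp
  have b2 : ∑ n ∈ range N, np n ≤ ∑' n, np n :=
    summable_np.sum_le_tsum _ fun n _ => np_nonneg n
  have b3 : ∑ n ∈ range N, (if n ∈ pr 0 Q then Real.log n / n * (1 / q) else 0) ≤ 1 + C2 := by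
    rw [← sum_filter]
    calc ∑ n ∈ (range N).filter (· ∈ pr 0 Q), Real.log n / n * (1 / q)
        ≤ ∑ n ∈ pr 0 Q, Real.log n / n * (1 / q) :=
          sum_le_sum_of_subset_of_nonneg (fun n hn => (mem_filter.1 hn).2) fun n _ _ =>
            mul_nonneg (div_nonneg (Real.log_natCast_nonneg n) (Nat.cast_nonneg n)) hq0.le
      _ ≤ (q + C2) * (1 / q) := by rw [← sum_mul]; gcongr
      _ = 1 + C2 / q := by field_simp
      _ ≤ 1 + C2 := by have := div_le_self hC2 hq; linarith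
  linarith

end HOne

open HOne in
theorem hone (h2 : S_M2) (h6 : S_M6) (h : S_RoughL) : S_H1 := by
  intro b _ χ
  obtain ⟨C2, hC2, h2⟩ := h2
  obtain ⟨C6, hC6, h6⟩ := h6
  obtain ⟨C0, hC0, h⟩ := h b
  set C : ℝ := C0 + 1 with hC
  have hC1 : 1 ≤ C := by linarith
  set c : ℝ := (1 / (4 * C ^ 2)) ^ 3 / (4 * C) with hc
  have hc0 : 0 < c := by positivity
  have hnp : 0 ≤ ∑' n, np n := tsum_nonneg np_nonneg
  refine ⟨C6 + C / c + (C6 + ∑' n, np n + (1 + C2)), by positivity, fun k => ?_⟩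
  obtain ⟨y0, hy0⟩ := h (k + 1)
  refine ⟨max y0 3, fun y Q hy hQ t ht1 ht2 => ?_⟩
  have hy3 : 3 ≤ y := le_of_max_le_right hy
  have hy3' : (3 : ℝ) ≤ y := by exact_mod_cast hy3
  have hR := hy0 y (le_of_max_le_left hy)
  have hl : 1 ≤ Real.log y := by
    rw [Real.le_log_iff_exp_le (by positivity)]
    linarith [Real.exp_one_lt_d9]
  have hQ' : (y : ℝ) ≤ Q := by exact_mod_cast hQ
  have hq : Real.log y ≤ Real.log Q := Real.log_le_log (by positivity) hQ'
  have hyk : 0 ≤ (y : ℝ) ^ k := by positivity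
  have ht3 : |t| ≤ (y : ℝ) ^ (k + 1) := by rw [pow_succ]; nlinarith
  have ht4 : |2 * t| ≤ (y : ℝ) ^ (k + 1) := by
    rw [abs_mul, abs_two, pow_succ]; nlinarith
  have ht5 : 1 ≤ |2 * t| := by rw [abs_mul, abs_two]; linarith
  have hD : ∀ σ : ℝ, 1 < σ → σ ≤ 2 →
      ‖deriv (LSeries (rc χ y)) (σ + t * Complex.I)‖ ≤ C * Real.log y := fun σ a1 a2 =>
    (((hR χ σ t a1 a2 ht3).2 ht1).2).trans (by gcongr; linarith)
  have hlow : ∀ σ : ℝ, 1 < σ → σ ≤ 1 + 1 / Real.log y →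
      c ≤ ‖LSeries (rc χ y) (σ + t * Complex.I)‖ := fun σ a1 a2 =>
    lower χ y hC1 hl
      (fun τ a3 a4 => ((hR 1 τ 0 a3 a4 (by simp)).1).trans (by
        have : 0 < τ - 1 := by linarith
        gcongr; linarith))
      (fun τ a3 a4 => (((hR (χ ^ 2) τ (2 * t) a3 a4 ht4).2 ht5).1).trans (by linarith))
      hD a1 a2
  have hq0 : 0 < 1 / Real.log Q := by
    have : 0 < Real.log Q := by linarith
    positivity
  have hl1 : 1 / Real.log y ≤ 1 := by rw [div_le_one (by linarith)]; exact hl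
  have hql : 1 / Real.log Q ≤ 1 / Real.log y := one_div_le_one_div_of_le (by linarith) hq
  have s1 := top_bound χ (y := y) (by omega) t (h6 _ (by positivity) hl1)
  have s2 := compare χ hy3 hQ t hC2.le (h6 _ hq0 (hql.trans hl1))
    (by have := (abs_le.1 (h2 Q (by linarith))).2; linarith)
  have s3 := seg (F := LSeries (aa χ y)) (t := t) (K := C * Real.log y / c)
    (a := 1 + 1 / Real.log Q) (c := 1 + 1 / Real.log y) (by linarith)
    (fun τ a1 _ =>
      (LSeries_hasDerivAt (absc_lt (norm_aa_le_one χ y) (by linarith) t)).differentiableAt)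
    (fun τ a1 a2 => by
      rw [deriv_aa χ y (by linarith) t, norm_div]
      exact div_le_div₀ (by positivity) (hD τ (by linarith) (by linarith)) hc0
        (hlow τ (by linarith) a2))
  have s4 : C * Real.log y / c * (1 + 1 / Real.log y - (1 + 1 / Real.log Q)) ≤ C / c := by
    calc C * Real.log y / c * (1 + 1 / Real.log y - (1 + 1 / Real.log Q))
        ≤ C * Real.log y / c * (1 / Real.log y) := by gcongr; linarith
      _ = C / c := by field_simp
  have e : ∑ p ∈ (Ioc y Q).filter Nat.Prime, lc χ p / p * nit t p =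
      -∑ p ∈ (Ioc y Q).filter Nat.Prime, χ (p : ZMod b) / p * nit t p := by
    rw [← sum_neg_distrib]
    refine sum_congr rfl fun p hp => ?_
    unfold lc
    rw [lam_prime (mem_filter.1 hp).2]
    push_cast; ring
  rw [e, norm_neg]
  set A := LSeries (aa χ y) (((1 + 1 / Real.log Q : ℝ) : ℂ) + t * Complex.I)
  set B := LSeries (aa χ y) (((1 + 1 / Real.log y : ℝ) : ℂ) + t * Complex.I)
  set S := ∑ p ∈ (Ioc y Q).filter Nat.Prime, χ (p : ZMod b) / p * nit t p
  calc ‖S‖ = ‖B - (B - A) - (A - S)‖ := by congr 1; ring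
    _ ≤ ‖B‖ + ‖B - A‖ + ‖A - S‖ :=
        (norm_sub_le _ _).trans (by gcongr; exact norm_sub_le _ _)
    _ ≤ _ := by linarith

end Pool.Agent.P.MP_a14ce1_nt.Ch
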