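import Pool.Agent.P.MP_a14ce1_nt.Ch.Defs

/-! Second moment of the weighted divisor windows. -/

open Finset

namespace Pool.Agent.P.MP_a14ce1_nt.Ch

namespace L2

/-- product weight of a subset -/
noncomputable def wt (α : ℕ → ℝ) (A : Finset ℕ) : ℝ := ∏ q ∈ A, α q

/-- total weight -/
noncomputable def PP (α : ℕ → ℝ) (S : Finset ℕ) : ℝ := ∏ q ∈ S, (1 + α q)

theorem PP_eq (α : ℕ → ℝ) (S : Finset ℕ) : PP α S = ∑ A ∈ S.powerset, wt α A := by
  unfold PP wt; exact prod_one_add S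

theorem wt_nonneg {α : ℕ → ℝ} {G A : Finset ℕ} (h : ∀ q ∈ G, 0 ≤ α q) (hA : A ⊆ G) :
    0 ≤ wt α A := prod_nonneg fun q hq => h q (hA hq)

theorem PP_pos {α : ℕ → ℝ} {G : Finset ℕ} (h : ∀ q ∈ G, 0 ≤ α q) : 0 < PP α G :=
  prod_pos fun q hq => by linarith [h q hq]

theorem pv_pos {G A : Finset ℕ} (hG : ∀ q ∈ G, q.Prime ∧ 128 ≤ q) (hA : A ⊆ G) : 0 < pv A :=
  prod_pos fun q hq => (hG q (hA hq)).1.pos

theorem le_pv {G A : Finset ℕ} (hG : ∀ q ∈ G, q.Prime ∧ 128 ≤ q) (hA : A ⊆ G) {q : ℕ}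
    (hq : q ∈ A) : q ≤ pv A :=
  Nat.le_of_dvd (pv_pos hG hA) (dvd_prod_of_mem _ hq)

theorem pv_ge {G A : Finset ℕ} (hG : ∀ q ∈ G, q.Prime ∧ 128 ≤ q) (hA : A ⊆ G) (h : A ≠ ∅) :
    (128 : ℝ) ≤ pv A := by
  obtain ⟨q, hq⟩ := nonempty_iff_ne_empty.2 h
  exact_mod_cast (hG q (hA hq)).2.trans (le_pv hG hA hq)

theorem m2_window (h2 : S_M2) : ∃ C : ℝ, 0 < C ∧ ∀ (S : Finset ℕ) (y : ℝ), 0 < y →
    (∀ q ∈ S, q.Prime ∧ y ≤ q ∧ (q : ℝ) < 2 * y) → ∑ q ∈ S, Real.log q / q ≤ C := by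
  obtain ⟨C, hC, h⟩ := h2
  have hl4 : Real.log 4 ≤ 3 := by
    have := Real.log_le_sub_one_of_pos (show (0 : ℝ) < 4 by norm_num); linarith
  have nn : ∀ q : ℕ, 0 ≤ Real.log q / q := fun q =>
    div_nonneg (Real.log_natCast_nonneg q) (Nat.cast_nonneg q)
  refine ⟨3 + 2 * C, by positivity, fun S y hy hS => ?_⟩
  rcases le_or_gt 2 y with h2y | h2y
  · have a1 := (abs_le.1 (h (2 * y) (by linarith))).2
    have a2 := (abs_le.1 (h (y / 2) (by linarith))).1
    have a3 : ∑ q ∈ S, Real.log q / q + ∑ p ∈ pr 0 (y / 2), Real.log p / p ≤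
        ∑ p ∈ pr 0 (2 * y), Real.log p / p := by
      rw [← sum_union]
      · refine sum_le_sum_of_subset_of_nonneg ?_ fun q _ _ => nn q
        intro q hq
        rw [mem_pr le_rfl]
        rcases mem_union.1 hq with hq | hq
        · obtain ⟨b1, b2, b3⟩ := hS q hq
          exact ⟨b1, by linarith, b3.le⟩
        · obtain ⟨b1, b2, b3⟩ := (mem_pr le_rfl).1 hq
          exact ⟨b1, b2, by linarith⟩
      · rw [disjoint_left]
        intro q hq hq'
        have := (hS q hq).2.1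
        have := ((mem_pr le_rfl).1 hq').2.2
        linarith
    have a4 : Real.log (2 * y) = Real.log 4 + Real.log (y / 2) := by
      rw [← Real.log_mul (by norm_num) (by positivity)]; congr 1; ring
    linarith
  · have a1 := (abs_le.1 (h 4 (by norm_num))).2
    have a3 : ∑ q ∈ S, Real.log q / q ≤ ∑ p ∈ pr 0 4, Real.log p / p := by
      refine sum_le_sum_of_subset_of_nonneg ?_ fun q _ _ => nn q
      intro q hq
      obtain ⟨b1, b2, b3⟩ := hS q hq
      exact (mem_pr le_rfl).2 ⟨b1, by linarith, by linarith⟩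
    linarith

theorem window {C2 : ℝ} (hC : ∀ (S : Finset ℕ) (y : ℝ), 0 < y →
      (∀ q ∈ S, q.Prime ∧ y ≤ q ∧ (q : ℝ) < 2 * y) → ∑ q ∈ S, Real.log q / q ≤ C2)
    {G : Finset ℕ} (hG : ∀ q ∈ G, q.Prime ∧ 128 ≤ q) {α : ℕ → ℝ} {c : ℝ} (hc : 0 ≤ c)
    (hα : ∀ q ∈ G, 0 ≤ α q ∧ α q ≤ c / q) {t : ℝ} (ht : 0 < t) :
    Real.log t * ∑ A ∈ G.powerset.filter (fun A => t ≤ (pv A : ℝ) ∧ (pv A : ℝ) < 2 * t), wt α A ≤
      c * C2 * PP α (G.filter (fun q => ¬ 2 * t < (q : ℝ))) := by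
  set W := G.powerset.filter (fun A => t ≤ (pv A : ℝ) ∧ (pv A : ℝ) < 2 * t)
  set G' := G.filter (fun q : ℕ => ¬ 2 * t < (q : ℝ))
  have hα0 : ∀ q ∈ G, 0 ≤ α q := fun q hq => (hα q hq).1
  have hW : ∀ A ∈ W, A ⊆ G ∧ t ≤ (pv A : ℝ) ∧ (pv A : ℝ) < 2 * t := fun A hA => by
    rw [mem_filter, mem_powerset] at hA; exact hA
  set F : (Σ _ : Finset ℕ, ℕ) → ℝ := fun z => wt α z.1 * (c * (Real.log z.2 / z.2))
  set S : Finset ℕ → Finset ℕ := fun A' =>
    G.filter (fun q => t / pv A' ≤ q ∧ (q : ℝ) < 2 * (t / pv A'))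
  have s1 : Real.log t * ∑ A ∈ W, wt α A ≤
      ∑ z ∈ W.sigma (fun A => A), F ⟨z.1.erase z.2, z.2⟩ := by
    rw [mul_sum, sum_sigma]
    refine sum_le_sum fun A hA => ?_
    obtain ⟨b1, b2, b3⟩ := hW A hA
    have l1 : Real.log t ≤ ∑ q ∈ A, Real.log q := by
      rw [← Real.log_prod (fun q hq => by exact_mod_cast (hG q (b1 hq)).1.ne_zero)]
      refine Real.log_le_log ht (b2.trans (le_of_eq ?_))
      unfold pv; push_cast; rfl
    calc Real.log t * wt α A ≤ (∑ q ∈ A, Real.log q) * wt α A := by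
          gcongr; exact wt_nonneg hα0 b1
      _ = ∑ q ∈ A, Real.log q * wt α A := sum_mul _ _ _
      _ ≤ _ := by
        refine sum_le_sum fun q hq => ?_
        simp only [F]
        have e1 : wt α A = α q * wt α (A.erase q) := (mul_prod_erase A α hq).symm
        have n1 := wt_nonneg hα0 ((erase_subset q A).trans b1)
        have n2 := Real.log_natCast_nonneg q
        rw [e1]
        calc _ ≤ Real.log q * (c / q * wt α (A.erase q)) := by gcongr; exact (hα q (b1 hq)).2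
          _ = _ := by ring
  have s2 : ∑ z ∈ W.sigma (fun A => A), F ⟨z.1.erase z.2, z.2⟩ ≤
      ∑ z ∈ G'.powerset.sigma S, F z := by
    have hinj : Set.InjOn (fun z : (Σ _ : Finset ℕ, ℕ) => (⟨z.1.erase z.2, z.2⟩ : Σ _ : Finset ℕ, ℕ))
        (W.sigma (fun A => A) : Finset _) := by
      rintro ⟨A, q⟩ h1 ⟨A', q'⟩ h2 h
      simp only [coe_sigma, Set.mem_sigma_iff, mem_coe] at h1 h2
      simp only [Sigma.mk.injEq, heq_eq_eq] at h
      obtain ⟨h3, rfl⟩ := h
      rw [← insert_erase h1.2, h3, insert_erase h2.2]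
    rw [← sum_image (f := F) hinj]
    refine sum_le_sum_of_subset_of_nonneg ?_ ?_
    · intro z hz
      obtain ⟨⟨A, q⟩, h1, rfl⟩ := mem_image.1 hz
      rw [mem_sigma] at h1
      obtain ⟨b1, b2, b3⟩ := hW A h1.1
      have hq : q ∈ A := h1.2
      have e1 : (pv A : ℝ) = q * pv (A.erase q) := by
        unfold pv; rw [← mul_prod_erase A (fun q => q) hq]; push_cast; rfl
      have p1 : (0 : ℝ) < pv (A.erase q) := by
        exact_mod_cast pv_pos hG ((erase_subset q A).trans b1)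
      rw [mem_sigma, mem_powerset]
      refine ⟨fun r hr => ?_, ?_⟩
      · have hr' := mem_of_mem_erase hr
        have : (r : ℝ) ≤ pv A := by exact_mod_cast le_pv hG b1 hr'
        exact mem_filter.2 ⟨b1 hr', by push Not; linarith⟩
      · refine mem_filter.2 ⟨b1 hq, ?_, ?_⟩
        · rw [div_le_iff₀ p1]; linarith
        · rw [← mul_div_assoc, lt_div_iff₀ p1]; linarith
    · intro z hz _
      rw [mem_sigma, mem_powerset] at hz
      have n1 := wt_nonneg hα0 (hz.1.trans (filter_subset _ _))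
      have n2 := Real.log_natCast_nonneg z.2
      simp only [F]; positivity
  refine s1.trans (s2.trans ?_)
  rw [sum_sigma, PP_eq, mul_sum]
  refine sum_le_sum fun A' hA' => ?_
  have hA'G : A' ⊆ G := (mem_powerset.1 hA').trans (filter_subset _ _)
  simp only [F]
  rw [← mul_sum, ← mul_sum, mul_comm]
  have p1 : (0 : ℝ) < pv A' := by exact_mod_cast pv_pos hG hA'G
  have := hC (S A') (t / pv A') (by positivity) fun q hq => by
    rw [mem_filter] at hq; exact ⟨(hG q hq.1).1, hq.2⟩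
  have n1 := wt_nonneg hα0 hA'G
  gcongr

theorem tail {G : Finset ℕ} {α : ℕ → ℝ} {θ : ℝ} (hθ : 0 ≤ θ) (hθ2 : θ ≤ 2)
    (hG : ∀ q ∈ G, q.Prime ∧ 128 ≤ q) (hα : ∀ q ∈ G, θ / q + (θ / q) ^ 2 ≤ α q) (u : ℝ) :
    PP α (G.filter (fun q => ¬ u < (q : ℝ))) *
      Real.exp (θ * rs (G.filter (fun q => u < (q : ℝ)))) ≤ PP α G := by
  have hα0 : ∀ q ∈ G, 0 ≤ α q := fun q hq => le_trans (by positivity) (hα q hq)
  have e1 : PP α G = PP α (G.filter (fun q => ¬ u < (q : ℝ))) *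
      PP α (G.filter (fun q => u < (q : ℝ))) := by
    unfold PP; rw [mul_comm, prod_filter_mul_prod_filter_not]
  rw [e1]
  have := PP_pos (α := α) (G := G.filter (fun q => ¬ u < (q : ℝ)))
    fun q hq => hα0 q (mem_of_mem_filter q hq)
  gcongr
  unfold rs PP
  rw [mul_sum, Real.exp_sum]
  refine prod_le_prod (fun _ _ => by positivity) fun q hq => ?_
  have hq' := mem_of_mem_filter q hq
  have h128 : (128 : ℝ) ≤ q := by exact_mod_cast (hG q hq').2
  have h1 : |θ / q| ≤ 1 := by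
    rw [abs_of_nonneg (by positivity), div_le_one (by linarith)]; linarith
  have h2 := (abs_le.1 (Real.abs_exp_sub_one_sub_id_le h1)).2
  rw [mul_one_div]
  linarith [hα q hq']

/-- weight on common prime factors -/
noncomputable def aa (q : ℕ) : ℝ := 63 ^ 2 / (64 * q - 63)
/-- weight on the other prime factors -/
noncomputable def bb (q : ℕ) : ℝ := 63 / (64 * q - 63)

theorem aa_bd {q : ℕ} (hq : 128 ≤ q) :
    (0 ≤ aa q ∧ aa q ≤ 63 / q) ∧ 5 / 4 / (q : ℝ) + (5 / 4 / (q : ℝ)) ^ 2 ≤ aa q := by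
  have h : (128 : ℝ) ≤ q := by exact_mod_cast hq
  unfold aa
  have h1 : (0 : ℝ) < 64 * q - 63 := by linarith
  refine ⟨⟨by positivity, ?_⟩, ?_⟩
  · rw [div_le_div_iff₀ h1 (by linarith)]; nlinarith
  · rw [le_div_iff₀ h1]
    field_simp
    nlinarith

theorem bb_bd {q : ℕ} (hq : 128 ≤ q) :
    (0 ≤ bb q ∧ bb q ≤ 1 / q) ∧ 15 / 16 / (q : ℝ) + (15 / 16 / (q : ℝ)) ^ 2 ≤ bb q := by
  have h : (128 : ℝ) ≤ q := by exact_mod_cast hq
  unfold bb
  have h1 : (0 : ℝ) < 64 * q - 63 := by linarith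
  refine ⟨⟨by positivity, ?_⟩, ?_⟩
  · rw [div_le_div_iff₀ h1 (by linarith)]; nlinarith
  · rw [le_div_iff₀ h1]
    field_simp
    nlinarith

section main

variable {CG C2 x : ℝ} {G : Finset ℕ}

theorem tail_a (hx : 1 ≤ x) (hG : ∀ q ∈ G, q.Prime ∧ 128 ≤ q)
    (h1 : ∀ t : ℝ, 2 ≤ t → 4 / 5 * Real.log (x / Real.log t) - CG ≤
      rs (G.filter (fun q => t < (q : ℝ)))) {u : ℝ} (hu : 2 ≤ u) :
    PP aa (G.filter (fun q => ¬ u < (q : ℝ))) * x ≤
      Real.exp (5 / 4 * CG) * Real.log u * PP aa G := by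
  have t1 := tail (θ := 5 / 4) (α := aa) (by norm_num) (by norm_num) hG
    (fun q hq => (aa_bd (hG q hq).2).2) u
  have hl : 0 < Real.log u := Real.log_pos (by linarith)
  have t2 : x ≤ Real.exp (5 / 4 * CG) * Real.log u *
      Real.exp (5 / 4 * rs (G.filter (fun q => u < (q : ℝ)))) := by
    have : x / Real.log u ≤ Real.exp (5 / 4 * CG) *
        Real.exp (5 / 4 * rs (G.filter (fun q => u < (q : ℝ)))) := by
      rw [← Real.exp_add, ← Real.exp_log (show 0 < x / Real.log u by positivity),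
        Real.exp_le_exp]
      linarith [h1 u hu]
    rw [div_le_iff₀ hl] at this
    linarith
  have p := PP_pos (α := aa) (G := G.filter (fun q => ¬ u < (q : ℝ)))
    fun q hq => (aa_bd (hG q (mem_of_mem_filter q hq)).2).1.1
  calc _ ≤ PP aa (G.filter (fun q => ¬ u < (q : ℝ))) * (Real.exp (5 / 4 * CG) * Real.log u *
      Real.exp (5 / 4 * rs (G.filter (fun q => u < (q : ℝ))))) := by gcongr
    _ = Real.exp (5 / 4 * CG) * Real.log u * (PP aa (G.filter (fun q => ¬ u < (q : ℝ))) *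
      Real.exp (5 / 4 * rs (G.filter (fun q => u < (q : ℝ))))) := by ring
    _ ≤ _ := by gcongr

theorem tail_b (_hx : 1 ≤ x) (hG : ∀ q ∈ G, q.Prime ∧ 128 ≤ q)
    (h1 : ∀ t : ℝ, 2 ≤ t → 4 / 5 * Real.log (x / Real.log t) - CG ≤
      rs (G.filter (fun q => t < (q : ℝ)))) {u r : ℝ} (hu : 2 ≤ u) (hr : 0 < r)
    (hru : r ^ 4 * Real.log u ≤ x) :
    PP bb (G.filter (fun q => ¬ u < (q : ℝ))) * r ^ 3 ≤ Real.exp (15 / 16 * CG) * PP bb G := by
  have t1 := tail (θ := 15 / 16) (α := bb) (by norm_num) (by norm_num) hG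
    (fun q hq => (bb_bd (hG q hq).2).2) u
  have hl : 0 < Real.log u := Real.log_pos (by linarith)
  have t2 : r ^ 3 ≤ Real.exp (15 / 16 * CG) *
      Real.exp (15 / 16 * rs (G.filter (fun q => u < (q : ℝ)))) := by
    rw [← Real.exp_add, ← Real.exp_log (show 0 < r ^ 3 by positivity), Real.exp_le_exp]
    have l1 : Real.log (r ^ 4) ≤ Real.log (x / Real.log u) :=
      Real.log_le_log (by positivity) (by rwa [le_div_iff₀ hl])
    rw [Real.log_pow] at l1 ⊢
    push_cast at l1 ⊢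
    linarith [h1 u hu]
  have p := PP_pos (α := bb) (G := G.filter (fun q => ¬ u < (q : ℝ)))
    fun q hq => (bb_bd (hG q (mem_of_mem_filter q hq)).2).1.1
  calc _ ≤ PP bb (G.filter (fun q => ¬ u < (q : ℝ))) * (Real.exp (15 / 16 * CG) *
      Real.exp (15 / 16 * rs (G.filter (fun q => u < (q : ℝ))))) := by gcongr
    _ = Real.exp (15 / 16 * CG) * (PP bb (G.filter (fun q => ¬ u < (q : ℝ))) *
      Real.exp (15 / 16 * rs (G.filter (fun q => u < (q : ℝ))))) := by ring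
    _ ≤ _ := by gcongr

theorem small_window {α : ℕ → ℝ} (hG : ∀ q ∈ G, q.Prime ∧ 128 ≤ q) (S : Finset (Finset ℕ))
    (hS : ∀ A ∈ S, A ⊆ G ∧ (pv A : ℝ) < 128) : ∑ A ∈ S, wt α A ≤ 1 := by
  have : S ⊆ {∅} := fun A hA => by
    rw [mem_singleton]
    by_contra h
    linarith [pv_ge hG (hS A hA).1 h, (hS A hA).2]
  rcases subset_singleton_iff.1 this with rfl | rfl <;> simp [wt]

theorem one_le_PP {α : ℕ → ℝ} (h : ∀ q ∈ G, 0 ≤ α q) : 1 ≤ PP α G :=
  (prod_le_prod (f := fun _ => (1 : ℝ)) (fun _ _ => zero_le_one)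
    fun q hq => by linarith [h q hq]).trans' (by simp)

theorem win_a (hC2 : 0 < C2) (hC : ∀ (S : Finset ℕ) (y : ℝ), 0 < y →
      (∀ q ∈ S, q.Prime ∧ y ≤ q ∧ (q : ℝ) < 2 * y) → ∑ q ∈ S, Real.log q / q ≤ C2)
    (hx : 1 ≤ x) (hG : ∀ q ∈ G, q.Prime ∧ 128 ≤ q)
    (h1 : ∀ t : ℝ, 2 ≤ t → 4 / 5 * Real.log (x / Real.log t) - CG ≤
      rs (G.filter (fun q => t < (q : ℝ)))) {t : ℝ} (ht : 0 < t) :
    ∑ A ∈ G.powerset.filter (fun A => t ≤ (pv A : ℝ) ∧ (pv A : ℝ) < 2 * t), wt aa A ≤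
      (126 * C2 + 1) * Real.exp (5 / 4 * CG) * PP aa G / x := by
  have pa := PP_pos (α := aa) (G := G) fun q hq => (aa_bd (hG q hq).2).1.1
  rw [le_div_iff₀ (by linarith)]
  set Sw := ∑ A ∈ G.powerset.filter (fun A => t ≤ (pv A : ℝ) ∧ (pv A : ℝ) < 2 * t), wt aa A
  have hE := Real.exp_pos (5 / 4 * CG)
  rcases le_or_gt 2 t with h2 | h2
  · have w1 := window hC hG (c := 63) (by norm_num) (fun q hq => (aa_bd (hG q hq).2).1) ht
    have w2 := tail_a hx hG h1 (u := 2 * t) (by linarith)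
    have hl : 0 < Real.log t := Real.log_pos (by linarith)
    have l2 : Real.log (2 * t) ≤ 2 * Real.log t := by
      rw [Real.log_mul (by norm_num) (by linarith)]
      linarith [Real.log_le_log (by norm_num) h2]
    have w3 : Real.log t * (Sw * x) ≤
        Real.log t * (126 * C2 * Real.exp (5 / 4 * CG) * PP aa G) := by
      calc Real.log t * (Sw * x) = (Real.log t * Sw) * x := by ring
        _ ≤ (63 * C2 * PP aa (G.filter (fun q => ¬ 2 * t < (q : ℝ)))) * x := by gcongr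
        _ = 63 * C2 * (PP aa (G.filter (fun q => ¬ 2 * t < (q : ℝ))) * x) := by ring
        _ ≤ 63 * C2 * (Real.exp (5 / 4 * CG) * Real.log (2 * t) * PP aa G) := by gcongr
        _ ≤ 63 * C2 * (Real.exp (5 / 4 * CG) * (2 * Real.log t) * PP aa G) := by gcongr
        _ = _ := by ring
    have w4 := le_of_mul_le_mul_left w3 hl
    nlinarith [mul_pos hE pa]
  · have w1 : Sw ≤ 1 := small_window hG _ fun A hA => by
      rw [mem_filter, mem_powerset] at hA
      exact ⟨hA.1, by linarith [hA.2.2]⟩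
    have w2 := tail_a hx hG h1 (u := 2) le_rfl
    have w3 := one_le_PP (α := aa) (G := G.filter (fun q => ¬ (2 : ℝ) < (q : ℝ)))
      fun q hq => (aa_bd (hG q (mem_of_mem_filter q hq)).2).1.1
    have l2 : Real.log 2 ≤ 1 := by
      linarith [Real.log_le_sub_one_of_pos (show (0 : ℝ) < 2 by norm_num)]
    have w4 : x ≤ Real.exp (5 / 4 * CG) * PP aa G := by
      calc x ≤ PP aa (G.filter (fun q => ¬ (2 : ℝ) < (q : ℝ))) * x := by nlinarith
        _ ≤ _ := w2
        _ ≤ Real.exp (5 / 4 * CG) * 1 * PP aa G := by gcongr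
        _ = _ := by ring
    have : Sw * x ≤ x := by nlinarith
    nlinarith [mul_pos hE pa, mul_pos hC2 (mul_pos hE pa)]

theorem win_b (hC2 : 0 < C2) (hC : ∀ (S : Finset ℕ) (y : ℝ), 0 < y →
      (∀ q ∈ S, q.Prime ∧ y ≤ q ∧ (q : ℝ) < 2 * y) → ∑ q ∈ S, Real.log q / q ≤ C2)
    (hx : 1 ≤ x) (hG : ∀ q ∈ G, q.Prime ∧ 128 ≤ q)
    (h1 : ∀ t : ℝ, 2 ≤ t → 4 / 5 * Real.log (x / Real.log t) - CG ≤
      rs (G.filter (fun q => t < (q : ℝ)))) {P r : ℝ} (hP : 128 ≤ P) (hr : 0 < r)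
    (hrP : r ^ 4 * Real.log P = x) :
    ∑ B ∈ G.powerset.filter (fun B => P < 2 * (pv B : ℝ) ∧ (pv B : ℝ) < 2 * P), wt bb B ≤
      32 * C2 * Real.exp (15 / 16 * CG) * PP bb G * r / x := by
  have hb0 : ∀ q ∈ G, 0 ≤ bb q := fun q hq => (bb_bd (hG q hq).2).1.1
  have pb := PP_pos hb0
  have hE := Real.exp_pos (15 / 16 * CG)
  have hl : 0 < Real.log P := Real.log_pos (by linarith)
  have l2 : Real.log 2 ≤ Real.log P / 2 := by
    have : Real.log (2 ^ 2) ≤ Real.log P := Real.log_le_log (by norm_num) (by linarith)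
    rw [Real.log_pow] at this; push_cast at this; linarith
  have key : ∀ t : ℝ, P / 2 ≤ t → t ≤ P →
      ∑ A ∈ G.powerset.filter (fun A => t ≤ (pv A : ℝ) ∧ (pv A : ℝ) < 2 * t), wt bb A ≤
      16 * C2 * Real.exp (15 / 16 * CG) * PP bb G * r / x := by
    intro t t1 t2
    set Sw := ∑ A ∈ G.powerset.filter (fun A => t ≤ (pv A : ℝ) ∧ (pv A : ℝ) < 2 * t), wt bb A
    have hw0 : 0 ≤ Sw := sum_nonneg fun A hA =>
      wt_nonneg hb0 (mem_powerset.1 (mem_of_mem_filter A hA))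
    have w1 := window hC hG (c := 1) (by norm_num) (fun q hq => (bb_bd (hG q hq).2).1)
      (show 0 < t by linarith)
    have l3 : Real.log P / 2 ≤ Real.log t := by
      have : Real.log (P / 2) ≤ Real.log t := Real.log_le_log (by linarith) t1
      rw [Real.log_div (by linarith) (by norm_num)] at this; linarith
    have l4 : Real.log (2 * t) ≤ 2 * Real.log P := by
      rw [Real.log_mul (by norm_num) (by linarith)]
      linarith [Real.log_le_log (by linarith) t2]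
    have w2 := tail_b hx hG h1 (u := 2 * t) (r := r / 2) (by linarith) (by positivity) (by
      calc (r / 2) ^ 4 * Real.log (2 * t) ≤ (r / 2) ^ 4 * (2 * Real.log P) := by gcongr
        _ = r ^ 4 * Real.log P / 8 := by ring
        _ ≤ x := by rw [hrP]; linarith)
    rw [le_div_iff₀ (by linarith), ← hrP]
    calc Sw * (r ^ 4 * Real.log P) = 16 * r * ((Real.log P / 2 * Sw) * (r / 2) ^ 3) := by ring
      _ ≤ 16 * r * ((Real.log t * Sw) * (r / 2) ^ 3) := by gcongr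
      _ ≤ 16 * r * ((1 * C2 * PP bb (G.filter (fun q => ¬ 2 * t < (q : ℝ)))) * (r / 2) ^ 3) := by
        gcongr
      _ = 16 * r * C2 * (PP bb (G.filter (fun q => ¬ 2 * t < (q : ℝ))) * (r / 2) ^ 3) := by ring
      _ ≤ 16 * r * C2 * (Real.exp (15 / 16 * CG) * PP bb G) := by gcongr
      _ = _ := by ring
  have k1 := key (P / 2) le_rfl (by linarith)
  have k2 := key P (by linarith) le_rfl
  have sub : G.powerset.filter (fun B => P < 2 * (pv B : ℝ) ∧ (pv B : ℝ) < 2 * P) ⊆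
      G.powerset.filter (fun A => P / 2 ≤ (pv A : ℝ) ∧ (pv A : ℝ) < 2 * (P / 2)) ∪
      G.powerset.filter (fun A => P ≤ (pv A : ℝ) ∧ (pv A : ℝ) < 2 * P) := by
    intro B hB
    simp only [mem_filter, mem_union] at hB ⊢
    rcases lt_or_ge (pv B : ℝ) P with h | h
    · exact Or.inl ⟨hB.1, by linarith [hB.2.1], by linarith⟩
    · exact Or.inr ⟨hB.1, h, hB.2.2⟩
  refine (sum_le_sum_of_subset_of_nonneg sub fun A hA _ => wt_nonneg hb0 ?_).trans ?_
  · rcases mem_union.1 hA with h | h <;> exact mem_powerset.1 (mem_of_mem_filter A h)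
  · rw [sum_union]
    · have : 32 * C2 * Real.exp (15 / 16 * CG) * PP bb G * r / x =
          16 * C2 * Real.exp (15 / 16 * CG) * PP bb G * r / x +
          16 * C2 * Real.exp (15 / 16 * CG) * PP bb G * r / x := by ring
      linarith
    · rw [disjoint_left]
      intro A h3 h4
      linarith [(mem_filter.1 h3).2.2, (mem_filter.1 h4).2.1]

/-- the fourth root of `x / log P` -/
noncomputable def rt (x : ℝ) (B : Finset ℕ) : ℝ := √(√(x / Real.log (pv B)))

theorem rt_spec (hx : 1 ≤ x) {B : Finset ℕ} (hB : (128 : ℝ) ≤ pv B) :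
    0 < rt x B ∧ rt x B ^ 4 * Real.log (pv B) = x := by
  have hl : 0 < Real.log (pv B) := Real.log_pos (by linarith)
  have h0 : 0 < x / Real.log (pv B) := by positivity
  refine ⟨Real.sqrt_pos.2 (Real.sqrt_pos.2 h0), ?_⟩
  unfold rt
  rw [show (4 : ℕ) = 2 * 2 from rfl, pow_mul, Real.sq_sqrt (Real.sqrt_nonneg _),
    Real.sq_sqrt h0.le]
  field_simp

theorem sum_rt (hx : 1 ≤ x) (hG : ∀ q ∈ G, q.Prime ∧ 128 ≤ q)
    (h1 : ∀ t : ℝ, 2 ≤ t → 4 / 5 * Real.log (x / Real.log t) - CG ≤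
      rs (G.filter (fun q => t < (q : ℝ)))) :
    ∑ B ∈ G.powerset.erase ∅, wt bb B * rt x B ≤ (1 + 4 * Real.exp (15 / 16 * CG)) * PP bb G := by
  have hb0 : ∀ q ∈ G, 0 ≤ bb q := fun q hq => (bb_bd (hG q hq).2).1.1
  have pb := PP_pos hb0
  have hE := Real.exp_pos (15 / 16 * CG)
  set n := ⌈x⌉₊
  have hmem : ∀ B ∈ G.powerset.erase ∅, B ⊆ G ∧ (128 : ℝ) ≤ pv B := fun B hB =>
    ⟨mem_powerset.1 (mem_of_mem_erase hB),
      pv_ge hG (mem_powerset.1 (mem_of_mem_erase hB)) (ne_of_mem_erase hB)⟩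
  have l128 : ∀ P : ℝ, 128 ≤ P → 1 ≤ Real.log P := fun P hP => by
    rw [Real.le_log_iff_exp_le (by linarith)]
    linarith [Real.exp_one_lt_d9]
  have s1 : ∀ B ∈ G.powerset.erase ∅, wt bb B * rt x B ≤ wt bb B +
      ∑ i ∈ range n, if (2 : ℝ) ^ i ≤ rt x B then 2 ^ (i + 1) * wt bb B else 0 := by
    intro B hB
    obtain ⟨b1, b2⟩ := hmem B hB
    have w0 := wt_nonneg hb0 b1
    obtain ⟨r0, r1⟩ := rt_spec hx b2
    have s0 : ∀ i ∈ range n,
        0 ≤ if (2 : ℝ) ^ i ≤ rt x B then 2 ^ (i + 1) * wt bb B else 0 := fun i _ => by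
      split_ifs <;> positivity
    rcases le_or_gt (rt x B) 1 with h | h
    · have := sum_nonneg s0
      nlinarith
    · obtain ⟨i, i1, i2⟩ := exists_nat_pow_near h.le (one_lt_two (α := ℝ))
      have hi : i ∈ range n := by
        rw [mem_range]
        have a1 : rt x B ≤ x := by
          have := l128 _ b2
          have a2 : rt x B ≤ rt x B ^ 4 := le_self_pow₀ h.le (by norm_num)
          have a3 : rt x B ^ 4 ≤ rt x B ^ 4 * Real.log (pv B) :=
            le_mul_of_one_le_right (by positivity) this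
          linarith
        have a2 : (i : ℝ) < 2 ^ i := by exact_mod_cast Nat.lt_two_pow_self
        have a3 : x ≤ n := Nat.le_ceil x
        exact_mod_cast (show (i : ℝ) < n by linarith)
      have := single_le_sum s0 hi
      rw [if_pos i1] at this
      nlinarith
  refine (sum_le_sum s1).trans ?_
  rw [sum_add_distrib, sum_comm]
  have s2 : ∑ B ∈ G.powerset.erase ∅, wt bb B ≤ PP bb G := by
    rw [PP_eq]
    exact sum_le_sum_of_subset_of_nonneg (erase_subset _ _)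
      fun A hA _ => wt_nonneg hb0 (mem_powerset.1 hA)
  have s3 : ∀ i ∈ range n, ∑ B ∈ G.powerset.erase ∅,
      (if (2 : ℝ) ^ i ≤ rt x B then 2 ^ (i + 1) * wt bb B else 0) ≤
      2 * Real.exp (15 / 16 * CG) * PP bb G * (1 / 2) ^ i := by
    intro i _
    rw [← sum_filter, ← mul_sum]
    set S := (G.powerset.erase ∅).filter (fun B => (2 : ℝ) ^ i ≤ rt x B)
    set u := Real.exp (x / (2 ^ i) ^ 4)
    have hS : ∀ B ∈ S, (pv B : ℝ) ≤ u := fun B hB => by
      rw [mem_filter] at hB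
      obtain ⟨b1, b2⟩ := hmem B hB.1
      obtain ⟨r0, r1⟩ := rt_spec hx b2
      rw [← Real.log_le_iff_le_exp (by linarith), le_div_iff₀ (by positivity), ← r1, mul_comm]
      have := l128 _ b2
      gcongr
      exact hB.2
    rcases S.eq_empty_or_nonempty with h | ⟨B0, hB0⟩
    · rw [h, sum_empty, mul_zero]; positivity
    · have hu : 2 ≤ u := by linarith [hS B0 hB0, (hmem B0 (mem_of_mem_filter B0 hB0)).2]
      have t1 := tail_b hx hG h1 (r := 2 ^ i) hu (by positivity) (by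
        simp only [u]; rw [Real.log_exp]; field_simp; rfl)
      have t2 : ∑ B ∈ S, wt bb B ≤ PP bb (G.filter (fun q => ¬ u < (q : ℝ))) := by
        rw [PP_eq]
        refine sum_le_sum_of_subset_of_nonneg ?_
          fun A hA _ => wt_nonneg hb0 ((mem_powerset.1 hA).trans (filter_subset _ _))
        intro B hB
        have b1 := (hmem B (mem_of_mem_filter B hB)).1
        rw [mem_powerset]
        intro q hq
        have : (q : ℝ) ≤ pv B := by exact_mod_cast le_pv hG b1 hq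
        exact mem_filter.2 ⟨b1 hq, by push Not; linarith [hS B hB]⟩
      have t0 : 0 ≤ ∑ B ∈ S, wt bb B := sum_nonneg fun B hB =>
        wt_nonneg hb0 (hmem B (mem_of_mem_filter B hB)).1
      have p1 : (1 : ℝ) ≤ 2 ^ i := one_le_pow₀ (by norm_num)
      have t3 : (∑ B ∈ S, wt bb B) * (2 ^ i) ^ 2 ≤ Real.exp (15 / 16 * CG) * PP bb G := by
        calc _ ≤ (∑ B ∈ S, wt bb B) * (2 ^ i) ^ 3 := by gcongr; norm_num
          _ ≤ PP bb (G.filter (fun q => ¬ u < (q : ℝ))) * (2 ^ i) ^ 3 := by gcongr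
          _ ≤ _ := t1
      rw [one_div, inv_pow, ← div_eq_mul_inv, le_div_iff₀ (by positivity), pow_succ]
      nlinarith
  have s4 := sum_le_sum s3
  rw [← mul_sum] at s4
  have s5 : ∑ i ∈ range n, (1 / 2 : ℝ) ^ i ≤ 2 := sum_geometric_two_le n
  have s6 : 2 * Real.exp (15 / 16 * CG) * PP bb G * ∑ i ∈ range n, (1 / 2 : ℝ) ^ i ≤
      2 * Real.exp (15 / 16 * CG) * PP bb G * 2 := by gcongr
  linarith

theorem pairs_b (hC2 : 0 < C2) (hC : ∀ (S : Finset ℕ) (y : ℝ), 0 < y →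
      (∀ q ∈ S, q.Prime ∧ y ≤ q ∧ (q : ℝ) < 2 * y) → ∑ q ∈ S, Real.log q / q ≤ C2)
    (hx : 1 ≤ x) (hG : ∀ q ∈ G, q.Prime ∧ 128 ≤ q)
    (h1 : ∀ t : ℝ, 2 ≤ t → 4 / 5 * Real.log (x / Real.log t) - CG ≤
      rs (G.filter (fun q => t < (q : ℝ)))) :
    ∑ B' ∈ G.powerset, ∑ B ∈ G.powerset.filter
        (fun B => (pv B' : ℝ) < 2 * (pv B : ℝ) ∧ (pv B : ℝ) < 2 * pv B'), wt bb B' * wt bb B ≤
      (Real.exp (15 / 16 * CG) ^ 2 +
        32 * C2 * Real.exp (15 / 16 * CG) * (1 + 4 * Real.exp (15 / 16 * CG))) * PP bb G ^ 2 / x := by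
  have hb0 : ∀ q ∈ G, 0 ≤ bb q := fun q hq => (bb_bd (hG q hq).2).1.1
  have pb := PP_pos hb0
  have hE := Real.exp_pos (15 / 16 * CG)
  rw [← sum_erase_add _ _ (empty_mem_powerset G)]
  have s1 : ∑ B ∈ G.powerset.filter
      (fun B => (pv ∅ : ℝ) < 2 * (pv B : ℝ) ∧ (pv B : ℝ) < 2 * pv ∅), wt bb ∅ * wt bb B ≤
      Real.exp (15 / 16 * CG) ^ 2 * PP bb G ^ 2 / x := by
    have w1 : ∑ B ∈ G.powerset.filter
        (fun B => (pv ∅ : ℝ) < 2 * (pv B : ℝ) ∧ (pv B : ℝ) < 2 * pv ∅), wt bb B ≤ 1 :=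
      small_window hG _ fun A hA => by
        rw [mem_filter, mem_powerset] at hA
        have := hA.2.2
        simp only [pv, prod_empty, Nat.cast_one] at this
        exact ⟨hA.1, by simp only [pv]; linarith⟩
    have e0 : wt bb ∅ = 1 := by simp [wt]
    simp only [e0, one_mul]
    refine w1.trans ?_
    set r := √(√x)
    have r1 : 1 ≤ r := Real.one_le_sqrt.2 (Real.one_le_sqrt.2 hx)
    have r4 : r ^ 4 = x := by
      simp only [r]
      rw [show (4 : ℕ) = 2 * 2 from rfl, pow_mul, Real.sq_sqrt (Real.sqrt_nonneg _),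
        Real.sq_sqrt (by linarith)]
    have l2 : Real.log 2 ≤ 1 := by
      linarith [Real.log_le_sub_one_of_pos (show (0 : ℝ) < 2 by norm_num)]
    have w2 := tail_b hx hG h1 (u := 2) (r := r) le_rfl (by linarith) (by rw [r4]; nlinarith)
    have w3 := one_le_PP (α := bb) (G := G.filter (fun q => ¬ (2 : ℝ) < (q : ℝ)))
      fun q hq => hb0 q (mem_of_mem_filter q hq)
    have w4 : r ^ 2 ≤ Real.exp (15 / 16 * CG) * PP bb G := by
      calc r ^ 2 ≤ 1 * r ^ 3 := by rw [one_mul]; exact pow_le_pow_right₀ r1 (by norm_num)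
        _ ≤ _ := by gcongr
        _ ≤ _ := w2
    rw [le_div_iff₀ (by linarith), one_mul, ← r4, ← mul_pow,
      show r ^ 4 = (r ^ 2) ^ 2 by ring]
    gcongr
  have s2 : ∀ B' ∈ G.powerset.erase ∅, ∑ B ∈ G.powerset.filter
      (fun B => (pv B' : ℝ) < 2 * (pv B : ℝ) ∧ (pv B : ℝ) < 2 * pv B'), wt bb B' * wt bb B ≤
      32 * C2 * Real.exp (15 / 16 * CG) * PP bb G / x * (wt bb B' * rt x B') := by
    intro B' hB'
    have b1 := mem_powerset.1 (mem_of_mem_erase hB')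
    have b2 := pv_ge hG b1 (ne_of_mem_erase hB')
    obtain ⟨r0, r1⟩ := rt_spec hx b2
    have := win_b hC2 hC hx hG h1 b2 r0 r1
    have w0 := wt_nonneg hb0 b1
    rw [← mul_sum]
    calc _ ≤ wt bb B' * (32 * C2 * Real.exp (15 / 16 * CG) * PP bb G * rt x B' / x) := by gcongr
      _ = _ := by ring
  have s3 := sum_le_sum s2
  rw [← mul_sum] at s3
  have s4 := sum_rt hx hG h1
  have s5 : 32 * C2 * Real.exp (15 / 16 * CG) * PP bb G / x *
      ∑ B ∈ G.powerset.erase ∅, wt bb B * rt x B ≤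
      32 * C2 * Real.exp (15 / 16 * CG) * PP bb G / x *
        ((1 + 4 * Real.exp (15 / 16 * CG)) * PP bb G) := by
    have : 0 < x := by linarith
    gcongr
  refine (add_le_add (s3.trans s5) s1).trans (le_of_eq ?_)
  ring

theorem sum_above (hG : ∀ q ∈ G, q.Prime ∧ 128 ≤ q) {u : Finset ℕ} (hu : u ⊆ G) :
    ∑ T ∈ G.powerset.filter (fun T => u ⊆ T), mu G T / 64 ^ T.card =
      (∏ q ∈ G, (1 - 63 / (64 * (q : ℝ)))) * ∏ q ∈ u, 1 / (64 * (q : ℝ) - 63) := by
  have key : ∏ q ∈ G, ((1 / (64 * (q : ℝ))) + (if q ∈ u then 0 else 1 - 1 / (q : ℝ))) =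
      ∑ T ∈ G.powerset.filter (fun T => u ⊆ T), mu G T / 64 ^ T.card := by
    rw [prod_add, sum_filter]
    refine sum_congr rfl fun T hT => ?_
    split_ifs with h
    · unfold mu
      have e1 : ∏ q ∈ T, (1 / (64 * (q : ℝ))) = (∏ q ∈ T, (1 : ℝ) / q) / 64 ^ T.card := by
        rw [← prod_const, ← prod_div_distrib]
        exact prod_congr rfl fun q _ => by rw [div_div, mul_comm]
      have e2 : ∏ q ∈ G \ T, (if q ∈ u then 0 else 1 - 1 / (q : ℝ)) =
          ∏ q ∈ G \ T, (1 - 1 / (q : ℝ)) :=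
        prod_congr rfl fun q hq => if_neg fun hq' => (mem_sdiff.1 hq).2 (h hq')
      rw [e1, e2]; ring
    · obtain ⟨q, q1, q2⟩ := not_subset.1 h
      rw [prod_eq_zero (f := fun q : ℕ => if q ∈ u then (0 : ℝ) else 1 - 1 / (q : ℝ))
        (mem_sdiff.2 ⟨hu q1, q2⟩) (if_pos q1), mul_zero]
  rw [← key]
  have e3 : ∏ q ∈ u, 1 / (64 * (q : ℝ) - 63) =
      ∏ q ∈ G, if q ∈ u then 1 / (64 * (q : ℝ) - 63) else 1 := by
    rw [prod_ite_mem, inter_eq_right.2 hu]
  rw [e3, ← prod_mul_distrib]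
  refine prod_congr rfl fun q hq => ?_
  have h : (128 : ℝ) ≤ q := by exact_mod_cast (hG q hq).2
  have h1 : (64 : ℝ) * q - 63 ≠ 0 := by linarith
  have h2 : (q : ℝ) ≠ 0 := by linarith
  split_ifs
  · field_simp; ring
  · field_simp; ring

theorem pair_wt (g g' : Finset ℕ) :
    (63 : ℝ) ^ g.card * 63 ^ g'.card * ∏ q ∈ g ∪ g', 1 / (64 * (q : ℝ) - 63) =
      wt bb (g' \ g) * wt bb (g \ g') * wt aa (g ∩ g') := by
  have e1 : g ∪ g' = (g' \ g) ∪ ((g \ g') ∪ (g ∩ g')) := by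
    ext q; simp only [mem_union, mem_sdiff, mem_inter]; tauto
  have d1 : Disjoint (g \ g') (g ∩ g') := by
    rw [disjoint_left]; intro q; simp only [mem_sdiff, mem_inter]; tauto
  have d2 : Disjoint (g' \ g) ((g \ g') ∪ (g ∩ g')) := by
    rw [disjoint_left]; intro q; simp only [mem_union, mem_sdiff, mem_inter]; tauto
  have c1 : g.card = (g \ g').card + (g ∩ g').card := (card_sdiff_add_card_inter g g').symm
  have c2 : g'.card = (g' \ g).card + (g ∩ g').card := by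
    rw [inter_comm]; exact (card_sdiff_add_card_inter g' g).symm
  have wb : ∀ S : Finset ℕ, wt bb S = 63 ^ S.card * ∏ q ∈ S, 1 / (64 * (q : ℝ) - 63) := by
    intro S; unfold wt bb
    rw [← prod_const, ← prod_mul_distrib]
    exact prod_congr rfl fun q _ => by ring
  have wa : ∀ S : Finset ℕ, wt aa S = (63 ^ 2) ^ S.card * ∏ q ∈ S, 1 / (64 * (q : ℝ) - 63) := by
    intro S; unfold wt aa
    rw [← prod_const, ← prod_mul_distrib]
    exact prod_congr rfl fun q _ => by ring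
  rw [e1, prod_union d2, prod_union d1, wb, wb, wa, c1, c2, ← pow_mul]
  ring

theorem euler (hG : ∀ q ∈ G, q.Prime ∧ 128 ≤ q) :
    (∏ q ∈ G, (1 - 63 / (64 * (q : ℝ)))) * PP aa G * PP bb G ^ 2 ≤ Real.exp 128 * Zc G := by
  have s1 : ∑ q ∈ G, ((q : ℝ) ^ 2)⁻¹ ≤ 1 := by
    have h := sum_Ioo_inv_sq_le (α := ℝ) 1 (G.sup id + 1)
    refine le_trans (sum_le_sum_of_subset_of_nonneg ?_ fun _ _ _ => by positivity)
      (h.trans (by norm_num))
    intro q hq
    have := le_sup (f := id) hq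
    have := (hG q hq).2
    rw [mem_Ioo]; simp only [id] at *; omega
  have s2 : Real.exp (∑ q ∈ G, 128 * ((q : ℝ) ^ 2)⁻¹) ≤ Real.exp 128 := by
    rw [Real.exp_le_exp, ← mul_sum]; linarith
  have z0 : 0 ≤ Zc G := prod_nonneg fun q _ => by positivity
  refine le_trans ?_ (mul_le_mul_of_nonneg_right s2 z0)
  unfold PP Zc
  rw [Real.exp_sum, ← prod_pow, ← prod_mul_distrib, ← prod_mul_distrib, ← prod_mul_distrib]
  refine prod_le_prod (fun q hq => ?_) fun q hq => ?_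
  · have h : (128 : ℝ) ≤ q := by exact_mod_cast (hG q hq).2
    have := (aa_bd (hG q hq).2).1.1
    have := (bb_bd (hG q hq).2).1.1
    have : 0 ≤ 1 - 63 / (64 * (q : ℝ)) := by
      rw [sub_nonneg, div_le_one (by linarith)]; linarith
    positivity
  · have h : (128 : ℝ) ≤ q := by exact_mod_cast (hG q hq).2
    obtain ⟨a0, a1⟩ := (aa_bd (hG q hq).2).1
    obtain ⟨b0, b1⟩ := (bb_bd (hG q hq).2).1
    have k0 : 0 ≤ 1 - 63 / (64 * (q : ℝ)) := by
      rw [sub_nonneg, div_le_one (by linarith)]; linarith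
    have k1 : 1 - 63 / (64 * (q : ℝ)) ≤ 1 := by
      have : 0 ≤ 63 / (64 * (q : ℝ)) := by positivity
      linarith
    have e1 : (1 - 63 / (64 * (q : ℝ))) * (1 + aa q + 2 * bb q) = 1 + 63 / q := by
      unfold aa bb
      have h1 : (64 : ℝ) * q - 63 ≠ 0 := by linarith
      have h2 : (q : ℝ) ≠ 0 := by linarith
      field_simp; ring
    set v : ℝ := 1 / q with hv
    have v0 : 0 ≤ v := by positivity
    have v1 : v ≤ 1 / 128 := by rw [hv]; gcongr
    have a2 : aa q ≤ 63 * v := by rw [hv, mul_one_div]; exact a1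
    have e2 : ((q : ℝ) ^ 2)⁻¹ = v ^ 2 := by rw [hv, one_div, inv_pow]
    have r1 : bb q ^ 2 + 2 * aa q * bb q + aa q * bb q ^ 2 ≤ 128 * v ^ 2 := by
      have c1 : bb q ^ 2 ≤ v ^ 2 := by gcongr
      have c2 : aa q * bb q ≤ 63 * v * v := by gcongr
      have c3 : aa q * bb q ^ 2 ≤ 63 * v * v ^ 2 := by gcongr
      nlinarith [sq_nonneg v]
    have r2 := Real.add_one_le_exp (128 * v ^ 2)
    have r3 : (0 : ℝ) ≤ 63 / q := by positivity
    rw [e2]
    calc (1 - 63 / (64 * (q : ℝ))) * (1 + aa q) * (1 + bb q) ^ 2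
        = (1 - 63 / (64 * (q : ℝ))) * (1 + aa q + 2 * bb q) + (1 - 63 / (64 * (q : ℝ))) *
          (bb q ^ 2 + 2 * aa q * bb q + aa q * bb q ^ 2) := by ring
      _ ≤ (1 + 63 / q) + 1 * (128 * v ^ 2) := by rw [e1]; gcongr
      _ ≤ (128 * v ^ 2 + 1) * (1 + 63 / q) := by nlinarith [sq_nonneg v]
      _ ≤ _ := by gcongr

end main

end L2

open L2 in
theorem l2 (h2 : S_M2) : S_L2 := by
  intro CG
  obtain ⟨C2, hC2, hC⟩ := m2_window h2
  set Ca := (126 * C2 + 1) * Real.exp (5 / 4 * CG)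
  set Cb := Real.exp (15 / 16 * CG) ^ 2 +
    32 * C2 * Real.exp (15 / 16 * CG) * (1 + 4 * Real.exp (15 / 16 * CG))
  have hCa : 0 < Ca := by positivity
  have hCb : 0 < Cb := by positivity
  refine ⟨Real.exp 128 * Ca * Cb, by positivity, fun G x hx hG h1 s hs => ?_⟩
  have ha0 : ∀ q ∈ G, 0 ≤ aa q := fun q hq => (aa_bd (hG q hq).2).1.1
  have hb0 : ∀ q ∈ G, 0 ≤ bb q := fun q hq => (bb_bd (hG q hq).2).1.1
  have pa := PP_pos ha0
  have pb := PP_pos hb0
  have z0 : 0 < Zc G := prod_pos fun q _ => by positivity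
  set W := G.powerset.filter (fun g => s ≤ (pv g : ℝ) ∧ (pv g : ℝ) < 2 * s)
  set K0 := ∏ q ∈ G, (1 - 63 / (64 * (q : ℝ)))
  have k0 : 0 ≤ K0 := prod_nonneg fun q hq => by
    have h : (128 : ℝ) ≤ q := by exact_mod_cast (hG q hq).2
    rw [sub_nonneg, div_le_one (by linarith)]; linarith
  have e1 : ∑ T ∈ G.powerset, mu G T * (deg s T) ^ 2 / Vw G T =
      Zc G * K0 * ∑ z ∈ W ×ˢ W, wt bb (z.2 \ z.1) * wt bb (z.1 \ z.2) * wt aa (z.1 ∩ z.2) := by
    have e2 : ∀ T ∈ G.powerset, mu G T * (deg s T) ^ 2 / Vw G T =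
        ∑ z ∈ W ×ˢ W, if z.1 ∪ z.2 ⊆ T then
          Zc G * (63 ^ z.1.card * 63 ^ z.2.card) * (mu G T / 64 ^ T.card) else 0 := by
      intro T hT
      have e3 : deg s T = ∑ g ∈ W, if g ⊆ T then (63 : ℝ) ^ g.card else 0 := by
        unfold deg
        rw [← sum_filter]
        refine sum_congr ?_ fun _ _ => rfl
        ext g
        simp only [W, mem_filter, mem_powerset]
        exact ⟨fun h => ⟨⟨h.1.trans (mem_powerset.1 hT), h.2⟩, h.1⟩, fun h => ⟨h.2, h.1.2⟩⟩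
      rw [e3, sq, sum_mul_sum, ← sum_product', mul_sum, sum_div]
      refine sum_congr rfl fun z _ => ?_
      unfold Vw
      by_cases a1 : z.1 ⊆ T <;> by_cases a2 : z.2 ⊆ T <;> simp [union_subset_iff, a1, a2]
      field_simp
    rw [sum_congr rfl e2, sum_comm, mul_sum]
    refine sum_congr rfl fun z hz => ?_
    rw [mem_product] at hz
    have hu : z.1 ∪ z.2 ⊆ G := union_subset (mem_powerset.1 (mem_of_mem_filter _ hz.1))
      (mem_powerset.1 (mem_of_mem_filter _ hz.2))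
    rw [← sum_filter, ← mul_sum, sum_above hG hu, ← pair_wt]
    ring
  set F : (Σ _ : (Σ _ : Finset ℕ, Finset ℕ), Finset ℕ) → ℝ :=
    fun y => wt bb y.1.1 * wt bb y.1.2 * wt aa y.2
  set S1 := G.powerset.sigma (fun B' => G.powerset.filter
    (fun B => (pv B' : ℝ) < 2 * (pv B : ℝ) ∧ (pv B : ℝ) < 2 * pv B'))
  set S2 := S1.sigma (fun y => G.powerset.filter
    (fun A => s / pv y.2 ≤ (pv A : ℝ) ∧ (pv A : ℝ) < 2 * (s / pv y.2)))
  have e4 : ∑ z ∈ W ×ˢ W, wt bb (z.2 \ z.1) * wt bb (z.1 \ z.2) * wt aa (z.1 ∩ z.2) ≤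
      ∑ y ∈ S2, F y := by
    set φ : Finset ℕ × Finset ℕ → (Σ _ : (Σ _ : Finset ℕ, Finset ℕ), Finset ℕ) :=
      fun z => ⟨⟨z.2 \ z.1, z.1 \ z.2⟩, z.1 ∩ z.2⟩
    have hinj : Set.InjOn φ (W ×ˢ W : Finset _) := by
      rintro ⟨g1, g2⟩ _ ⟨g3, g4⟩ _ h
      simp only [φ, Sigma.mk.injEq, heq_eq_eq] at h
      obtain ⟨⟨a1, a2⟩, a3⟩ := h
      have b1 : g1 = g3 := by
        rw [← sdiff_union_inter g1 g2, a2, a3, sdiff_union_inter]
      have b2 : g2 = g4 := by
        rw [← sdiff_union_inter g2 g1, a1, inter_comm, a3, inter_comm, sdiff_union_inter]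
      rw [b1, b2]
    have : ∑ z ∈ W ×ˢ W, wt bb (z.2 \ z.1) * wt bb (z.1 \ z.2) * wt aa (z.1 ∩ z.2) =
        ∑ z ∈ W ×ˢ W, F (φ z) := rfl
    rw [this, ← sum_image (f := F) hinj]
    refine sum_le_sum_of_subset_of_nonneg ?_ ?_
    · intro y hy
      obtain ⟨⟨g, g'⟩, hz, rfl⟩ := mem_image.1 hy
      simp only [W, mem_product, mem_filter, mem_powerset] at hz
      obtain ⟨⟨a1, a2, a3⟩, a4, a5, a6⟩ := hz
      have p1 : (pv g : ℝ) = pv (g \ g') * pv (g ∩ g') := by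
        unfold pv
        rw [← Nat.cast_mul, ← prod_union (disjoint_sdiff_inter g g'), sdiff_union_inter]
      have p2 : (pv g' : ℝ) = pv (g' \ g) * pv (g ∩ g') := by
        unfold pv
        rw [inter_comm, ← Nat.cast_mul, ← prod_union (disjoint_sdiff_inter g' g),
          sdiff_union_inter]
      have q1 : (0 : ℝ) < pv (g \ g') := by exact_mod_cast pv_pos hG (sdiff_subset.trans a1)
      have q2 : (0 : ℝ) < pv (g ∩ g') := by
        exact_mod_cast pv_pos hG (inter_subset_left.trans a1)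
      simp only [S2, S1, φ, mem_sigma, mem_filter, mem_powerset]
      refine ⟨⟨sdiff_subset.trans a4, sdiff_subset.trans a1, ?_, ?_⟩,
        inter_subset_left.trans a1, ?_, ?_⟩
      · refine lt_of_mul_lt_mul_right ?_ q2.le; nlinarith
      · refine lt_of_mul_lt_mul_right ?_ q2.le; nlinarith
      · rw [div_le_iff₀ q1]; linarith
      · rw [← mul_div_assoc, lt_div_iff₀ q1]; linarith
    · intro y hy _
      simp only [S2, S1, mem_sigma, mem_filter, mem_powerset] at hy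
      have := wt_nonneg hb0 hy.1.1
      have := wt_nonneg hb0 hy.1.2.1
      have := wt_nonneg ha0 hy.2.1
      simp only [F]; positivity
  have e5 : ∑ y ∈ S2, F y ≤ Cb * PP bb G ^ 2 / x * (Ca * PP aa G / x) := by
    have hb := pairs_b hC2 hC hx hG h1
    rw [sum_sigma'] at hb
    calc ∑ y ∈ S2, F y ≤ ∑ y ∈ S1, wt bb y.1 * wt bb y.2 * (Ca * PP aa G / x) := by
          rw [sum_sigma]
          refine sum_le_sum fun y hy => ?_
          simp only [S1, mem_sigma, mem_filter, mem_powerset] at hy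
          have := wt_nonneg hb0 hy.1
          have := wt_nonneg hb0 hy.2.1
          have q1 : (0 : ℝ) < pv y.2 := by exact_mod_cast pv_pos hG hy.2.1
          have := win_a hC2 hC hx hG h1 (t := s / pv y.2) (by positivity)
          simp only [F]
          rw [← mul_sum]
          gcongr
      _ ≤ _ := by
          rw [← sum_mul]
          have : 0 < x := by linarith
          gcongr
  have e6 := euler hG
  have hx0 : 0 < x := by linarith
  rw [e1]
  calc _ ≤ Zc G * K0 * (Cb * PP bb G ^ 2 / x * (Ca * PP aa G / x)) := by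
        gcongr; exact e4.trans e5
    _ = Zc G * Ca * Cb / x ^ 2 * (K0 * PP aa G * PP bb G ^ 2) := by ring
    _ ≤ Zc G * Ca * Cb / x ^ 2 * (Real.exp 128 * Zc G) := by gcongr
    _ = _ := by ring

end Pool.Agent.P.MP_a14ce1_nt.Ch
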