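import Pool.Agent.P.MP_a14ce1_nt.Ch.Defs

/-!
Package 9: the dual form of the short interval exponential sum bound (discrete Fourier analysis).
-/

open Finset

namespace Pool.Agent.P.MP_a14ce1_nt.Ch

namespace LemmaB

/-- the frequency 2 pi k / M -/
noncomputable def fr (M k : ℕ) : ℝ := 2 * Real.pi * k / M

theorem ex_nat_mul (θ : ℝ) (k : ℕ) : ex (k * θ) = ex θ ^ k := by
  unfold ex
  rw [← Complex.exp_nat_mul]; congr 1; push_cast; ring

theorem orth (M : ℕ) (hM : 0 < M) (d : ℤ) (hd : |d| < M) :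
    ∑ k ∈ range M, ex (fr M k * d) = if d = 0 then (M : ℂ) else 0 := by
  have hM' : (M : ℝ) ≠ 0 := by positivity
  split_ifs with h0
  · subst h0; simp [ex_zero]
  · have h1 : ∀ k : ℕ, ex (fr M k * d) = ex (2 * Real.pi * d / M) ^ k := by
      intro k; rw [← ex_nat_mul]; congr 1; unfold fr; ring
    simp_rw [h1]
    have hz : ex (2 * Real.pi * d / M) ≠ 1 := by
      intro h
      unfold ex at h
      rw [Complex.exp_eq_one_iff] at h
      obtain ⟨n, hn⟩ := h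
      have h2 : ((2 * Real.pi * d / M : ℝ) : ℂ) = ((n * (2 * Real.pi) : ℝ) : ℂ) := by
        apply mul_right_cancel₀ Complex.I_ne_zero
        rw [hn]; push_cast; ring
      have h3 : (2 * Real.pi * d / M : ℝ) = n * (2 * Real.pi) := by exact_mod_cast h2
      have hpi := Real.pi_pos
      have h4 : (d : ℝ) = n * M := by
        field_simp at h3
        linarith
      have h5 : d = n * M := by exact_mod_cast h4
      have hn0 : n ≠ 0 := by rintro rfl; simp at h5; exact h0 h5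
      rw [h5, abs_mul, abs_of_nonneg (by positivity : (0 : ℤ) ≤ M)] at hd
      have : 1 ≤ |n| := Int.one_le_abs hn0
      have hM2 : (0 : ℤ) < M := by exact_mod_cast hM
      nlinarith
    have hp : ex (2 * Real.pi * d / M) ^ M = 1 := by
      rw [← ex_nat_mul]
      have : (M : ℝ) * (2 * Real.pi * d / M) = d * (2 * Real.pi) := by field_simp
      rw [this]; unfold ex
      rw [Complex.exp_eq_one_iff]; exact ⟨d, by push_cast; ring⟩
    rw [geom_sum_eq hz, hp]; simp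

theorem pars {ι : Type*} (M : ℕ) (hM : 0 < M) (s : Finset ι) (a : ι → ℂ) (n : ι → ℤ)
    (hn : ∀ i ∈ s, ∀ j ∈ s, |n i - n j| < M) :
    ∑ k ∈ range M, ‖∑ i ∈ s, a i * ex (fr M k * n i)‖ ^ 2 ≤
      M * ∑ i ∈ s, ∑ j ∈ s, if n i = n j then ‖a i‖ * ‖a j‖ else 0 := by
  have h1 : ∀ k : ℕ, ((‖∑ i ∈ s, a i * ex (fr M k * n i)‖ ^ 2 : ℝ) : ℂ) =
      ∑ i ∈ s, ∑ j ∈ s, a i * (starRingEnd ℂ) (a j) * ex (fr M k * ((n i - n j : ℤ) : ℝ)) := by
    intro k
    rw [← Complex.normSq_eq_norm_sq, ← Complex.mul_conj, map_sum, sum_mul_sum]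
    refine sum_congr rfl fun i _ => sum_congr rfl fun j _ => ?_
    rw [map_mul, conj_ex]
    have : ex (fr M k * ((n i - n j : ℤ) : ℝ)) = ex (fr M k * n i) * ex (-(fr M k * n j)) := by
      rw [← ex_add]; congr 1; push_cast; ring
    rw [this]; ring
  have h2 : ((∑ k ∈ range M, ‖∑ i ∈ s, a i * ex (fr M k * n i)‖ ^ 2 : ℝ) : ℂ) =
      ∑ i ∈ s, ∑ j ∈ s, a i * (starRingEnd ℂ) (a j) * (if n i = n j then (M : ℂ) else 0) := by
    rw [Complex.ofReal_sum]
    simp_rw [h1]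
    rw [sum_comm]
    refine sum_congr rfl fun i hi => ?_
    rw [sum_comm]
    refine sum_congr rfl fun j hj => ?_
    rw [← mul_sum, orth M hM _ (hn i hi j hj)]
    simp only [sub_eq_zero]
  have h3 : ∑ k ∈ range M, ‖∑ i ∈ s, a i * ex (fr M k * n i)‖ ^ 2 =
      ‖((∑ k ∈ range M, ‖∑ i ∈ s, a i * ex (fr M k * n i)‖ ^ 2 : ℝ) : ℂ)‖ := by
    rw [Complex.norm_real, Real.norm_eq_abs, abs_of_nonneg (sum_nonneg fun _ _ => by positivity)]
  rw [h3, h2, mul_sum]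
  refine (norm_sum_le _ _).trans (sum_le_sum fun i _ => ?_)
  rw [mul_sum]
  refine (norm_sum_le _ _).trans (sum_le_sum fun j _ => ?_)
  split_ifs
  · rw [norm_mul, norm_mul, Complex.norm_conj, Complex.norm_natCast]; linarith
  · simp

/-- Parseval for an injective frequency map on a range -/
theorem pars_range (M : ℕ) (hM : 0 < M) (b : ℕ → ℂ) (e : ℤ) (he : e = 1 ∨ e = -1) :
    ∑ k ∈ range M, ‖∑ i ∈ range M, b i * ex (fr M k * ((e * i : ℤ) : ℝ))‖ ^ 2 ≤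
      M * ∑ i ∈ range M, ‖b i‖ ^ 2 := by
  refine (pars M hM (range M) b (fun i => e * i) ?_).trans (le_of_eq ?_)
  · intro i hi j hj
    rw [mem_range] at hi hj
    rcases he with rfl | rfl <;> rw [abs_lt] <;> constructor <;> omega
  · congr 1
    refine sum_congr rfl fun i hi => ?_
    rw [sum_eq_single i]
    · simp [sq]
    · intro j _ hj
      rw [if_neg]
      rcases he with rfl | rfl <;> omega
    · intro h; exact absurd hi h

noncomputable def Gx (M x k : ℕ) : ℂ := ∑ j ∈ range M, (lam (x + j) : ℂ) * ex (fr M k * j)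

noncomputable def ch (M h : ℕ) (S : Finset ℕ) (c : ℕ → ℝ) (k : ℕ) : ℂ :=
  ∑ p ∈ S, (c p : ℂ) * ex (fr M k * ((-(h * p : ℤ) : ℤ) : ℝ))

theorem inversion (M h x j : ℕ) (hM : 0 < M) (S : Finset ℕ) (c : ℕ → ℝ)
    (hS : ∀ p ∈ S, j + h * p < M) :
    (M : ℂ) * ((∑ p ∈ S, c p * lam (x + j + h * p) : ℝ) : ℂ) =
      ∑ k ∈ range M, (Gx M x k * ch M h S c k) * ex (fr M j * ((-1 * k : ℤ) : ℝ)) := by
  have h1 : ∀ k : ℕ, (Gx M x k * ch M h S c k) * ex (fr M j * ((-1 * k : ℤ) : ℝ)) =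
      ∑ p ∈ S, ∑ i ∈ range M, (c p : ℂ) * (lam (x + i) : ℂ) *
        ex (fr M k * (((i : ℤ) - (j + h * p : ℕ) : ℤ) : ℝ)) := by
    intro k
    unfold Gx ch
    rw [mul_comm (∑ j ∈ range M, _), sum_mul_sum, sum_mul]
    refine sum_congr rfl fun p _ => ?_
    rw [sum_mul]
    refine sum_congr rfl fun i _ => ?_
    have : ex (fr M k * (((i : ℤ) - (j + h * p : ℕ) : ℤ) : ℝ)) =
        ex (fr M k * ((-(h * p : ℤ) : ℤ) : ℝ)) * ex (fr M k * i) *
          ex (fr M j * ((-1 * k : ℤ) : ℝ)) := by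
      rw [← ex_add, ← ex_add]; congr 1; unfold fr; push_cast; ring
    rw [this]; ring
  simp_rw [h1]
  rw [sum_comm, Complex.ofReal_sum, mul_sum]
  refine sum_congr rfl fun p hp => ?_
  rw [sum_comm]
  have hp' := hS p hp
  have h2 : ∀ i ∈ range M, ∑ k ∈ range M, (c p : ℂ) * (lam (x + i) : ℂ) *
        ex (fr M k * (((i : ℤ) - (j + h * p : ℕ) : ℤ) : ℝ)) =
      if i = j + h * p then (c p : ℂ) * (lam (x + i) : ℂ) * M else 0 := by
    intro i hi
    rw [mem_range] at hi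
    rw [← mul_sum, orth M hM _ (by rw [abs_lt]; constructor <;> omega)]
    by_cases hij : i = j + h * p
    · rw [if_pos hij, if_pos (by omega)]
    · rw [if_neg hij, if_neg (by omega), mul_zero]
  rw [sum_congr rfl h2, sum_ite_eq' (range M) (j + h * p), if_pos (mem_range.2 hp')]
  push_cast
  rw [add_assoc]; ring

theorem local_bound (M R h x : ℕ) (hM : 0 < M) (hR : R ≤ M) (S : Finset ℕ) (c : ℕ → ℝ)
    (hS : ∀ p ∈ S, R + h * p ≤ M) :
    (M : ℝ) * ∑ j ∈ range R, (∑ p ∈ S, c p * lam (x + j + h * p)) ^ 2 ≤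
      ∑ k ∈ range M, ‖Gx M x k‖ ^ 2 * ‖ch M h S c k‖ ^ 2 := by
  have hM' : (0 : ℝ) < M := by exact_mod_cast hM
  have h1 := pars_range M hM (fun k => Gx M x k * ch M h S c k) (-1) (Or.inr rfl)
  have h2 : ∑ j ∈ range R, (M : ℝ) ^ 2 * (∑ p ∈ S, c p * lam (x + j + h * p)) ^ 2 ≤
      ∑ j ∈ range M, ‖∑ k ∈ range M, (Gx M x k * ch M h S c k) *
        ex (fr M j * ((-1 * k : ℤ) : ℝ))‖ ^ 2 := by
    refine le_trans (le_of_eq (sum_congr rfl fun j hj => ?_))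
      (sum_le_sum_of_subset_of_nonneg (range_subset_range.2 hR) fun _ _ _ => by positivity)
    rw [mem_range] at hj
    rw [← inversion M h x j hM S c (fun p hp => by have := hS p hp; omega), norm_mul,
      Complex.norm_natCast, Complex.norm_real, Real.norm_eq_abs, mul_pow, sq_abs]
  rw [← mul_sum] at h2
  have h3 := h2.trans h1
  simp_rw [norm_mul, mul_pow] at h3
  rw [sq, mul_assoc] at h3
  exact le_of_mul_le_mul_left h3 hM'

theorem Gx_le (M x k : ℕ) : ‖Gx M x k‖ ≤ M := by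
  unfold Gx
  refine (norm_sum_le _ _).trans ?_
  simp [norm_ex, abs_lam]

theorem Gx_sq (M x : ℕ) (hM : 0 < M) : ∑ k ∈ range M, ‖Gx M x k‖ ^ 2 ≤ (M : ℝ) * M := by
  have h1 := pars_range M hM (fun j => (lam (x + j) : ℂ)) 1 (Or.inl rfl)
  simpa [Gx, abs_lam] using h1

theorem ch_four (M h : ℕ) (hM : 0 < M) (hh : 0 < h) (S : Finset ℕ) (c : ℕ → ℝ)
    (hc : ∀ p, |c p| ≤ 1) (hS : ∀ p ∈ S, 2 * (h * p) < M) :
    ∑ k ∈ range M, ‖ch M h S c k‖ ^ 4 ≤
      M * ((((S ×ˢ S) ×ˢ (S ×ˢ S)).filter (fun q => q.1.1 + q.1.2 = q.2.1 + q.2.2)).card : ℝ) := by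
  have h1 := pars M hM (S ×ˢ S) (fun q => (c q.1 : ℂ) * c q.2)
    (fun q => -(h * q.1 + h * q.2 : ℕ)) (by
      intro i hi j hj
      rw [mem_product] at hi hj
      have := hS _ hi.1; have := hS _ hi.2; have := hS _ hj.1; have := hS _ hj.2
      rw [abs_lt]; constructor <;> omega)
  have h2 : ∀ k : ℕ, ‖ch M h S c k‖ ^ 4 =
      ‖∑ q ∈ S ×ˢ S, (c q.1 : ℂ) * c q.2 * ex (fr M k * ((-(h * q.1 + h * q.2 : ℕ) : ℤ) : ℝ))‖ ^ 2 := by
    intro k
    have : ∑ q ∈ S ×ˢ S, (c q.1 : ℂ) * c q.2 * ex (fr M k * ((-(h * q.1 + h * q.2 : ℕ) : ℤ) : ℝ)) =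
        ch M h S c k * ch M h S c k := by
      unfold ch
      rw [sum_mul_sum, sum_product]
      refine sum_congr rfl fun p _ => sum_congr rfl fun p' _ => ?_
      have : ex (fr M k * ((-(h * p + h * p' : ℕ) : ℤ) : ℝ)) =
          ex (fr M k * ((-(h * p : ℤ) : ℤ) : ℝ)) * ex (fr M k * ((-(h * p' : ℤ) : ℤ) : ℝ)) := by
        rw [← ex_add]; congr 1; push_cast; ring
      simp only
      rw [this]; ring
    rw [this, norm_mul]; ring
  simp_rw [h2]
  refine h1.trans (mul_le_mul_of_nonneg_left ?_ (by positivity))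
  rw [card_filter, sum_product (s := S ×ˢ S) (t := S ×ˢ S), Nat.cast_sum]
  refine sum_le_sum fun i _ => ?_
  rw [Nat.cast_sum]
  refine sum_le_sum fun j _ => ?_
  by_cases hij : i.1 + i.2 = j.1 + j.2
  · have hb : ∀ q : ℕ × ℕ, ‖(c q.1 : ℂ) * c q.2‖ ≤ 1 := by
      intro q
      rw [norm_mul, Complex.norm_real, Complex.norm_real, Real.norm_eq_abs, Real.norm_eq_abs]
      exact mul_le_one₀ (hc _) (abs_nonneg _) (hc _)
    simp only [hij, if_true, Nat.cast_one]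
    split_ifs
    · exact mul_le_one₀ (hb _) (norm_nonneg _) (hb _)
    · norm_num
  · rw [if_neg, if_neg hij]
    · simp
    · intro he
      apply hij
      have h3 : h * i.1 + h * i.2 = h * j.1 + h * j.2 := by omega
      rw [← mul_add, ← mul_add] at h3
      exact Nat.eq_of_mul_eq_mul_left hh h3

/-- the averaged L2 bound -/
theorem avg_bound (M R h X : ℕ) (hM : 0 < M) (hR : R ≤ M) (S : Finset ℕ) (c : ℕ → ℝ)
    (hS : ∀ p ∈ S, R + h * p ≤ M) (δ u W : ℝ) (hu : 0 < u) (hδ : 0 ≤ δ)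
    (hG : ∀ k ∈ range M, ∑ x ∈ range X, ‖Gx M x k‖ ≤ δ * M * X)
    (hW : ∑ k ∈ range M, ‖ch M h S c k‖ ^ 4 ≤ W) :
    ∑ x ∈ range X, ∑ j ∈ range R, (∑ p ∈ S, c p * lam (x + j + h * p)) ^ 2 ≤
      M * X * (u + δ * W / u) := by
  have hM' : (0 : ℝ) < M := by exact_mod_cast hM
  have h1 : (M : ℝ) * ∑ x ∈ range X, ∑ j ∈ range R, (∑ p ∈ S, c p * lam (x + j + h * p)) ^ 2 ≤
      ∑ k ∈ range M, (∑ x ∈ range X, ‖Gx M x k‖ ^ 2) * ‖ch M h S c k‖ ^ 2 := by
    rw [mul_sum]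
    refine (sum_le_sum fun x _ => local_bound M R h x hM hR S c hS).trans (le_of_eq ?_)
    rw [sum_comm]
    exact sum_congr rfl fun k _ => by rw [sum_mul]
  have h2 : ∀ k ∈ range M, ∑ x ∈ range X, ‖Gx M x k‖ ^ 2 ≤ M * (δ * M * X) := by
    intro k hk
    refine le_trans ?_ (mul_le_mul_of_nonneg_left (hG k hk) hM'.le)
    rw [mul_sum]
    refine sum_le_sum fun x _ => ?_
    rw [sq]
    exact mul_le_mul_of_nonneg_right (Gx_le M x k) (norm_nonneg _)
  have h3 : ∑ k ∈ range M, ∑ x ∈ range X, ‖Gx M x k‖ ^ 2 ≤ X * ((M : ℝ) * M) := by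
    rw [sum_comm]
    refine (sum_le_sum fun x _ => Gx_sq M x hM).trans (le_of_eq ?_)
    simp
  have h4 : ∀ k ∈ range M, (∑ x ∈ range X, ‖Gx M x k‖ ^ 2) * ‖ch M h S c k‖ ^ 2 ≤
      u * (∑ x ∈ range X, ‖Gx M x k‖ ^ 2) + (M * (δ * M * X) / u) * ‖ch M h S c k‖ ^ 4 := by
    intro k hk
    have hE0 : 0 ≤ ∑ x ∈ range X, ‖Gx M x k‖ ^ 2 := sum_nonneg fun _ _ => by positivity
    have hE1 := h2 k hk
    set E := ∑ x ∈ range X, ‖Gx M x k‖ ^ 2
    set a := ‖ch M h S c k‖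
    have h5 : a ^ 2 ≤ u + a ^ 4 / u := by
      have : u + a ^ 4 / u - a ^ 2 = ((u - a ^ 2) ^ 2 + u * a ^ 2) / u := by field_simp; ring
      have h6 : 0 ≤ ((u - a ^ 2) ^ 2 + u * a ^ 2) / u := by positivity
      linarith
    calc E * a ^ 2 ≤ E * (u + a ^ 4 / u) := mul_le_mul_of_nonneg_left h5 hE0
      _ = u * E + E * (a ^ 4 / u) := by ring
      _ ≤ u * E + (M * (δ * M * X)) * (a ^ 4 / u) := by gcongr
      _ = _ := by ring
  have h5 := h1.trans (sum_le_sum h4)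
  rw [sum_add_distrib, ← mul_sum, ← mul_sum] at h5
  have h6 : u * ∑ k ∈ range M, ∑ x ∈ range X, ‖Gx M x k‖ ^ 2 +
      (M * (δ * M * X) / u) * ∑ k ∈ range M, ‖ch M h S c k‖ ^ 4 ≤
      u * (X * ((M : ℝ) * M)) + (M * (δ * M * X) / u) * W := by gcongr
  have h7 : u * (X * ((M : ℝ) * M)) + (M * (δ * M * X) / u) * W =
      M * (M * X * (u + δ * W / u)) := by ring
  exact le_of_mul_le_mul_left (h5.trans (h6.trans h7.le)) hM'

/-- sliding windows -/
theorem slide (f : ℕ → ℝ) (B : ℝ) (hf0 : ∀ n, 0 ≤ f n) (hf : ∀ n, f n ≤ B) (R X : ℕ) :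
    (R : ℝ) * ∑ m ∈ range X, f m ≤ ∑ x ∈ range X, ∑ j ∈ range R, f (x + j) + R * (R * B) := by
  have hB : 0 ≤ B := (hf0 0).trans (hf 0)
  have h1 : ∀ j ∈ range R, ∑ m ∈ range X, f m ≤ ∑ x ∈ range X, f (x + j) + R * B := by
    intro j hj
    rw [mem_range] at hj
    have h2 : ∑ m ∈ range X, f m ≤ ∑ m ∈ range (j + X), f m :=
      sum_le_sum_of_subset_of_nonneg (range_subset_range.2 (by omega)) fun _ _ _ => hf0 _
    rw [sum_range_add] at h2
    have h3 : ∑ m ∈ range j, f m ≤ j * B := by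
      refine (sum_le_sum fun m _ => hf m).trans (le_of_eq ?_); simp
    have h4 : (j : ℝ) * B ≤ R * B := by gcongr
    simp_rw [add_comm j] at h2
    linarith
  have h2 := sum_le_sum h1
  rw [sum_add_distrib, sum_const, sum_const, card_range, nsmul_eq_mul, nsmul_eq_mul,
    sum_comm] at h2
  exact h2

end LemmaB

open LemmaB in
theorem lemmaB (hE : S_Energy) (hS : S_ShortExp) : S_LemmaB := by
  intro h δ hh hδ
  obtain ⟨C, hC, hEn⟩ := hE
  have hh' : (0 : ℝ) < h := by exact_mod_cast hh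
  set η : ℝ := δ ^ 2 / 9 with hη
  have hη0 : 0 < η := by positivity
  set δ' : ℝ := η ^ 2 / (6 * h * C) with hδ'
  have hδ'0 : 0 < δ' := by positivity
  obtain ⟨R0, hR0⟩ := hS δ' hδ'0
  refine ⟨max R0 2, fun P hP => ?_⟩
  have hP2 : 2 ≤ P := le_of_max_le_right hP
  have hPR : R0 ≤ P := le_of_max_le_left hP
  have hP' : (2 : ℝ) ≤ P := by exact_mod_cast hP2
  have hlog : 0 < Real.log P := Real.log_pos (by linarith)
  set R : ℕ := 2 * (h * P) + 1 with hR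
  set M : ℕ := 2 * R with hM
  have hhP : P ≤ h * P := Nat.le_mul_of_pos_left P hh
  have hM0 : 0 < M := by omega
  have hMR : R0 ≤ M := by omega
  choose X1 hX1 using hR0 M hMR
  set Q : ℝ := P / Real.log P with hQ
  have hQ0 : 0 < Q := by positivity
  obtain ⟨X2, hX2⟩ := exists_nat_ge ((R : ℝ) * (P : ℝ) ^ 2 / (η * Q ^ 2))
  refine ⟨max (max 1 X2) ((range M).sup fun k => X1 (fr M k)), fun X hX c hc => ?_⟩
  have hX1' : 1 ≤ X := le_of_max_le_left (le_of_max_le_left hX)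
  have hX2' : X2 ≤ X := le_of_max_le_right (le_of_max_le_left hX)
  have hX3 : ∀ k ∈ range M, X1 (fr M k) ≤ X + 1 := fun k hk =>
    ((le_sup (f := fun k => X1 (fr M k)) hk).trans (le_of_max_le_right hX)).trans (Nat.le_succ X)
  set S := (Ioc P (2 * P)).filter Nat.Prime with hSd
  have hSm : ∀ p ∈ S, h * p ≤ 2 * (h * P) := by
    intro p hp
    have := (mem_Ioc.1 (mem_filter.1 hp).1).2
    calc h * p ≤ h * (2 * P) := Nat.mul_le_mul_left h this
      _ = 2 * (h * P) := by ring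
  have hW := (ch_four M h hM0 hh S c hc (fun p hp => by have := hSm p hp; omega)).trans
    (mul_le_mul_of_nonneg_left (hEn P hP2) (Nat.cast_nonneg M))
  have hA := avg_bound M R h (X + 1) hM0 (by omega) S c (fun p hp => by have := hSm p hp; omega)
    δ' (η * Q ^ 2) _ (by positivity) hδ'0.le (fun k hk => hX1 (fr M k) (X + 1) (hX3 k hk)) hW
  set A : ℕ → ℝ := fun m => ∑ p ∈ S, c p * lam (m + h * p) with hAd
  have hAb : ∀ m, (A m) ^ 2 ≤ (P : ℝ) ^ 2 := by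
    intro m
    rw [← sq_abs]
    refine pow_le_pow_left₀ (abs_nonneg _) ?_ 2
    refine (abs_sum_le_sum_abs _ _).trans ?_
    have h1 : ∀ p ∈ S, |c p * lam (m + h * p)| ≤ 1 := by
      intro p _; rw [abs_mul, abs_lam, mul_one]; exact hc p
    refine (sum_le_sum h1).trans ?_
    have h2 : S.card ≤ P := by
      refine (card_filter_le _ _).trans (le_of_eq ?_)
      rw [Nat.card_Ioc]; omega
    simpa using h2
  have hsl := slide (fun m => (A m) ^ 2) _ (fun m => sq_nonneg _) hAb R (X + 1)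
  have hR0' : (0 : ℝ) < R := by rw [hR]; positivity
  have hMR' : (M : ℝ) = 2 * R := by rw [hM]; push_cast; ring
  have hM6 : (M : ℝ) ≤ 6 * h * P := by
    have : M ≤ 6 * (h * P) := by omega
    have h2 : (M : ℝ) ≤ ((6 * (h * P) : ℕ) : ℝ) := by exact_mod_cast this
    push_cast at h2; linarith
  have hX' : (1 : ℝ) ≤ X := by exact_mod_cast hX1'
  have hk : δ' * (M * (C * (P : ℝ) ^ 3 / Real.log P ^ 4)) / (η * Q ^ 2) ≤ η * Q ^ 2 := by
    rw [div_le_iff₀ (by positivity)]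
    calc δ' * (M * (C * (P : ℝ) ^ 3 / Real.log P ^ 4))
        ≤ δ' * ((6 * h * P) * (C * (P : ℝ) ^ 3 / Real.log P ^ 4)) := by gcongr
      _ = η * Q ^ 2 * (η * Q ^ 2) := by rw [hδ', hQ]; field_simp
  have hB1 : ∑ x ∈ range (X + 1), ∑ j ∈ range R, (A (x + j)) ^ 2 ≤ R * (8 * η * X * Q ^ 2) := by
    refine hA.trans ?_
    calc (M : ℝ) * ((X + 1 : ℕ) : ℝ) * (η * Q ^ 2 + δ' * (M * (C * (P : ℝ) ^ 3 / Real.log P ^ 4)) / (η * Q ^ 2))
        ≤ (M : ℝ) * (2 * X) * (η * Q ^ 2 + η * Q ^ 2) := by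
          gcongr
          push_cast; linarith
      _ = R * (8 * η * X * Q ^ 2) := by rw [hMR']; ring
  have hB2 : (R : ℝ) * (P : ℝ) ^ 2 ≤ η * X * Q ^ 2 := by
    have h1 : (X2 : ℝ) ≤ X := by exact_mod_cast hX2'
    have h2 := hX2.trans h1
    rw [div_le_iff₀ (by positivity)] at h2
    linarith
  have hB3 : ∑ m ∈ range (X + 1), (A m) ^ 2 ≤ δ ^ 2 * X * Q ^ 2 := by
    have h1 : (R : ℝ) * ∑ m ∈ range (X + 1), (A m) ^ 2 ≤ R * (8 * η * X * Q ^ 2 + η * X * Q ^ 2) := by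
      refine hsl.trans ?_
      rw [mul_add]
      gcongr
    have h2 := le_of_mul_le_mul_left h1 hR0'
    refine h2.trans (le_of_eq ?_)
    rw [hη]; ring
  have hB4 : ∑ m ∈ Icc 1 X, (A m) ^ 2 ≤ δ ^ 2 * X * Q ^ 2 := by
    refine le_trans (sum_le_sum_of_subset_of_nonneg ?_ fun _ _ _ => sq_nonneg _) hB3
    intro m hm
    rw [mem_Icc] at hm; rw [mem_range]; omega
  have ht : 0 < δ * Q := by positivity
  have hB5 : ∀ m ∈ Icc 1 X, |A m| ≤ δ * Q / 2 + (A m) ^ 2 / (2 * (δ * Q)) := by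
    intro m _
    rw [← sq_abs]
    have : δ * Q / 2 + |A m| ^ 2 / (2 * (δ * Q)) - |A m| = (δ * Q - |A m|) ^ 2 / (2 * (δ * Q)) := by
      field_simp; ring
    have h6 : 0 ≤ (δ * Q - |A m|) ^ 2 / (2 * (δ * Q)) := by positivity
    linarith
  refine (sum_le_sum hB5).trans ?_
  rw [sum_add_distrib, ← sum_div, ← sum_div]
  have h7 : (∑ m ∈ Icc 1 X, (A m) ^ 2) / (2 * (δ * Q)) ≤ δ ^ 2 * X * Q ^ 2 / (2 * (δ * Q)) := by gcongr
  have h8 : δ ^ 2 * X * Q ^ 2 / (2 * (δ * Q)) = δ * X * Q / 2 := by field_simp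
  have h9 : δ * X * P / Real.log P = δ * X * Q := by rw [hQ]; ring
  rw [h9]
  simp only [sum_const, Nat.card_Icc, add_tsub_cancel_right, nsmul_eq_mul]
  linarith

end Pool.Agent.P.MP_a14ce1_nt.Ch
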