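import Pool.Agent.P.MP_a14ce1_nt.Ch.RoughB

/-! Twisted character sums over integers free of small prime factors. -/

open Finset MeasureTheory

namespace Pool.Agent.P.MP_a14ce1_nt.Ch

open Rough

theorem rough (h1 : S_M1) (hS : S_Sieve) (hV : S_VdC) : S_Rough := by
  intro b _
  have hb : 0 < b := NeZero.pos b
  have hb' : (1 : ℝ) ≤ b := by exact_mod_cast hb
  obtain ⟨Cb, hCb, hVle⟩ := V_le h1 hb
  obtain ⟨K, hK, hcount⟩ := count_le h1 hS hb
  obtain ⟨Cs, hCs, hsieve⟩ := sieve_Ioc hS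
  refine ⟨Cb + 64 ^ 3 * (K + Cb) + (108 * 32 ^ 3 * Cs * Cb + 1), by positivity, fun k => ?_⟩
  obtain ⟨c, C, hc, hc2, hC, hvdc⟩ := hV k
  obtain ⟨N0, hN0⟩ := small_rem hc (K := b * C + 6 * b) (by positivity)
  refine ⟨max (max (2 ^ 16) b) N0, fun y hy χ t ht => ?_⟩
  have y1 : 2 ^ 16 ≤ y := le_of_max_le_left (le_of_max_le_left hy)
  have y2 : b ≤ y := le_of_max_le_right (le_of_max_le_left hy)
  have y3 : N0 ≤ y := le_of_max_le_right hy
  have y4 : 2 ≤ y := le_trans (by norm_num) y1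
  have y1' : (2 : ℝ) ^ 16 ≤ y := by exact_mod_cast y1
  have y0 : (0 : ℝ) < y := by linarith [show (0 : ℝ) < 2 ^ 16 by norm_num]
  have ly : 1 ≤ Real.log y := by
    rw [Real.le_log_iff_exp_le y0]
    linarith [Real.exp_one_lt_d9, show (3 : ℝ) < 2 ^ 16 by norm_num]
  set V : ℝ := ∏ p ∈ PP b y, (1 - (1 : ℝ) / p) with hVdef
  have V0 : 0 ≤ V := V_nonneg b y
  have V1 : V ≤ Cb / Real.log y := hVle y y4
  have hκ : ‖k0 χ * (V : ℂ)‖ ≤ Cb / Real.log y := by
    rw [norm_mul, Complex.norm_real, Real.norm_eq_abs, abs_of_nonneg V0]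
    exact (mul_le_of_le_one_left V0 (norm_k0 χ)).trans V1
  have pos1 : 0 ≤ 64 ^ 3 * (K + Cb) := by positivity
  have pos2 : 0 ≤ 108 * 32 ^ 3 * Cs * Cb := by positivity
  refine ⟨k0 χ * (V : ℂ), hκ.trans (div_le_div_of_nonneg_right (by linarith) (by linarith)),
    fun N hN => ?_⟩
  have hN' : (y : ℝ) ≤ N := by exact_mod_cast hN
  have N0' : (0 : ℝ) < N := by linarith
  have lN : Real.log y ≤ Real.log N := Real.log_le_log y0 hN'
  have hI : ‖∫ s in (y : ℝ)..N, nit t s‖ ≤ (N : ℝ) - y :=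
    (norm_int_nit t y N).trans (abs_of_nonneg (by linarith)).le
  have hA : ∀ n : ℕ, ‖χ (n : ZMod b) * nit t n‖ ≤ 1 := fun n => by
    rw [norm_mul, norm_nit, mul_one]; exact χ.norm_le_one _
  set ℓ := Nat.log y N with hℓ
  have l1 : y ^ ℓ ≤ N := Nat.pow_log_le_self y (by omega)
  have l2 : Real.log N ≤ (ℓ + 1) * Real.log y := by
    have e : (N : ℝ) ≤ (y : ℝ) ^ (ℓ + 1) := by
      exact_mod_cast (Nat.lt_pow_succ_log_self (by omega) N).le
    have := Real.log_le_log N0' e
    rw [Real.log_pow] at this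
    exact_mod_cast this
  have conv : ∀ U : ℝ, Real.log N ≤ U * Real.log y →
      N / Real.log y ≤ U ^ 3 * (N * Real.log y ^ 2 / Real.log N ^ 3) := by
    intro U hU
    rw [← mul_div_assoc, div_le_div_iff₀ (by linarith) (pow_pos (by linarith) _)]
    calc N * Real.log N ^ 3 ≤ N * (U * Real.log y) ^ 3 := by gcongr
      _ = _ := by ring
  have Q0 : 0 ≤ N * Real.log y ^ 2 / Real.log N ^ 3 :=
    div_nonneg (by positivity) (pow_nonneg (by linarith) _)
  rw [sum_rc, mul_assoc _ (N : ℝ), mul_div_assoc]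
  rcases lt_or_ge ℓ 64 with hl | hl
  · have e1 := conv 64 (l2.trans (by
      gcongr
      exact_mod_cast hl))
    have e2 : ‖∑ n ∈ (Ioc y N).filter (fun n => ∀ p ∈ PP b y, ¬ p ∣ n),
        χ (n : ZMod b) * nit t n‖ ≤ K * N / Real.log y := by
      refine (norm_sum_le _ _).trans ((sum_le_sum fun n _ => hA n).trans ?_)
      simpa using hcount y N y1 hN
    have e3 : ‖k0 χ * (V : ℂ) * ∫ s in (y : ℝ)..N, nit t s‖ ≤ Cb / Real.log y * N := by
      rw [norm_mul]
      exact mul_le_mul hκ (by linarith) (norm_nonneg _) (by positivity)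
    refine (norm_sub_le _ _).trans ((add_le_add e2 e3).trans ?_)
    calc K * N / Real.log y + Cb / Real.log y * N = (K + Cb) * (N / Real.log y) := by ring
      _ ≤ (K + Cb) * (64 ^ 3 * (N * Real.log y ^ 2 / Real.log N ^ 3)) := by gcongr
      _ = 64 ^ 3 * (K + Cb) * (N * Real.log y ^ 2 / Real.log N ^ 3) := by ring
      _ ≤ _ := by
          gcongr
          linarith [show 0 ≤ 108 * 32 ^ 3 * Cs * Cb by positivity]
  · obtain ⟨j, hj⟩ : ∃ j, ℓ / 32 = j + 2 := ⟨ℓ / 32 - 2, by omega⟩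
    have hyp : ∀ m, m ≤ ℓ → y ^ m ≤ N := fun m hm =>
      (Nat.pow_le_pow_right (by omega) hm).trans l1
    have s1 : y ≤ N.sqrt := Nat.le_sqrt'.2 (hyp 2 (by omega))
    have key := hsieve b y N y j (fun n => χ (n : ZMod b) * nit t n)
      (k0 χ * ∫ s in (y : ℝ)..N, nit t s)
      (fun d => (b * C + 6 * b) * ((N : ℝ) ^ (1 - c / 2) / d)) hN y4
      (by rw [norm_mul]; exact (mul_le_of_le_one_left (norm_nonneg _) (norm_k0 χ)).trans hI) hA
      (fun d => by positivity) (by
        intro d hd hdb hdy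
        have d1 : d ^ 4 ≤ N := by
          refine (Nat.pow_le_pow_left hdy 4).trans ?_
          rw [← pow_mul]; exact hyp _ (by omega)
        have d2 : N.sqrt < N / d / b := by
          rw [Nat.div_div_eq_div_mul, Nat.lt_iff_add_one_le,
            Nat.le_div_iff_mul_le (Nat.mul_pos hd hb)]
          have e1 : 2 * (d * b) ≤ N.sqrt := by
            rw [Nat.le_sqrt']
            calc (2 * (d * b)) ^ 2 ≤ (y * (y ^ (4 * j + 6) * y)) ^ 2 := by gcongr
              _ = y ^ (8 * j + 16) := by ring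
              _ ≤ N := hyp _ (by omega)
          have e2 := Nat.sqrt_le N
          nlinarith
        have d3 := rem_bound hc hc2 hd (by omega) d1 (J := N / d / b) (Nat.div_le_self _ _)
        refine (ap_all hvdc χ hd hdb (by omega) s1 d2 (ht.trans (by gcongr))).trans ?_
        calc _ ≤ b * (C * ((N : ℝ) ^ (1 - c / 2) / d))
              + 2 * (b * (3 * ((N : ℝ) ^ (1 - c / 2) / d))) := by
              gcongr
              exacts [d3.1, d3.2]
          _ = _ := by ring)
    rw [mul_right_comm, ← hVdef] at key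
    refine key.trans ?_
    have r1 : ∑ d ∈ Icc 1 (y ^ (4 * j + 6)), (b * C + 6 * b) * ((N : ℝ) ^ (1 - c / 2) / d)
        ≤ (b * C + 6 * b) * (N : ℝ) ^ (1 - c / 2) * (1 + Real.log N) := by
      have e1 : ∑ d ∈ Icc 1 (y ^ (4 * j + 6)), ((d : ℝ))⁻¹ ≤ 1 + Real.log N := by
        have := harmonic_le_one_add_log N
        rw [harmonic_eq_sum_Icc] at this
        push_cast at this
        exact (sum_le_sum_of_subset_of_nonneg (Icc_subset_Icc_right (hyp _ (by omega)))
          fun _ _ _ => by positivity).trans this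
      simp only [div_eq_mul_inv ((N : ℝ) ^ (1 - c / 2)), ← mul_assoc, ← mul_sum]
      gcongr
    have r2 : (y : ℝ) ^ (4 * j + 8) ≤ (b * C + 6 * b) * (N : ℝ) ^ (1 - c / 2) := by
      have d3 := (rem_bound hc hc2 (d := 1) (N := N) (J := 0) one_pos (by omega) (by omega)
        (Nat.zero_le _)).2
      have e1 : y ^ (4 * j + 8) ≤ N.sqrt := by
        rw [Nat.le_sqrt', ← pow_mul]; exact hyp _ (by omega)
      have e2 : (y : ℝ) ^ (4 * j + 8) ≤ N.sqrt := by exact_mod_cast e1
      have e3 : 0 ≤ (N : ℝ) ^ (1 - c / 2) := by positivity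
      have e4 : 0 ≤ b * C := by positivity
      rw [Nat.cast_one, div_one] at d3
      nlinarith
    have r3 := hN0 N (y3.trans hN)
    have r4 : N / Real.log N ^ 3 ≤ N * Real.log y ^ 2 / Real.log N ^ 3 := by
      exact div_le_div_of_nonneg_right (le_mul_of_one_le_right N0'.le (one_le_pow₀ ly))
        (pow_nonneg (by linarith) _)
    have r5 : Cs / 2 ^ j * N * V
        ≤ 108 * 32 ^ 3 * Cs * Cb * (N * Real.log y ^ 2 / Real.log N ^ 3) := by
      have e1 := conv (32 * (((j + 2 : ℕ) : ℝ) + 1)) (l2.trans (by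
        gcongr
        exact_mod_cast (by omega : ℓ + 1 ≤ 32 * (j + 2 + 1))))
      have e2 := cube_le (j + 2)
      calc Cs / 2 ^ j * N * V ≤ Cs / 2 ^ j * N * (Cb / Real.log y) := by gcongr
        _ = Cs * Cb / 2 ^ j * (N / Real.log y) := by ring
        _ ≤ Cs * Cb / 2 ^ j * ((32 * (((j + 2 : ℕ) : ℝ) + 1)) ^ 3
            * (N * Real.log y ^ 2 / Real.log N ^ 3)) := by gcongr
        _ ≤ Cs * Cb / 2 ^ j * ((32 ^ 3 * (27 * 2 ^ (j + 2)))
            * (N * Real.log y ^ 2 / Real.log N ^ 3)) := by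
            rw [mul_pow]; gcongr
        _ = _ := by field_simp; ring
    have r6 : 0 ≤ (Cb + 64 ^ 3 * (K + Cb)) * (N * Real.log y ^ 2 / Real.log N ^ 3) := by
      positivity
    linarith

end Pool.Agent.P.MP_a14ce1_nt.Ch
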