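import Pool.Agent.P.MP_a14ce1_nt.Ch.Defs

/-! From partial sums over rough numbers to bounds for the L-series. -/

open Finset MeasureTheory Filter Topology

namespace Pool.Agent.P.MP_a14ce1_nt.Ch

namespace RoughL

lemma one_le_log {s : ℝ} (hs : 3 ≤ s) : 1 ≤ Real.log s := by
  rw [Real.le_log_iff_exp_le (by linarith)]
  linarith [Real.exp_one_lt_d9]

lemma log_cube_le {s : ℝ} (hs : 1 ≤ s) : Real.log s ^ 3 ≤ 6 * s := by
  have h := Real.pow_div_factorial_le_exp (Real.log s) (Real.log_nonneg hs) 3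
  rw [Real.exp_log (by linarith)] at h
  norm_num [Nat.factorial] at h
  linarith

lemma log_succ_le {s : ℝ} (hs : 3 ≤ s) : Real.log (s + 1) ≤ 2 * Real.log s := by
  have h : Real.log (s + 1) ≤ Real.log (s ^ 2) := Real.log_le_log (by linarith) (by nlinarith)
  simpa using h

lemma telescope {s : ℝ} (hs : 3 ≤ s) :
    1 / (s * Real.log s ^ 2) ≤ 4 * (1 / Real.log s - 1 / Real.log (s + 1)) := by
  have hu := one_le_log hs
  have hv := log_succ_le hs
  have h1 : 1 / (2 * s) ≤ Real.log (s + 1) - Real.log s := by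
    rw [← Real.log_div (by linarith) (by linarith)]
    refine le_trans ?_ (Real.one_sub_inv_le_log_of_pos (by positivity))
    rw [inv_div, le_sub_iff_add_le, div_add_div _ _ (by linarith) (by linarith),
      div_le_one (by positivity)]
    nlinarith
  have h2 : 0 < 1 / (2 * s) := by positivity
  set u := Real.log s
  set v := Real.log (s + 1)
  rw [div_sub_div _ _ (by linarith) (by linarith), one_mul, mul_one]
  calc 1 / (s * u ^ 2) = 4 * (1 / (2 * s) / (u * (2 * u))) := by field_simp; ring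
    _ ≤ 4 * ((v - u) / (u * v)) := by
      have : 0 < v := by linarith
      gcongr
      linarith

/-- Summation by parts against a slowly varying weight. -/
lemma abel {y : ℕ} (hy : 3 ≤ y) {a : ℕ → ℂ} {φ g g' : ℝ → ℂ} {κ : ℂ} {C : ℝ} (hC : 0 < C)
    (hφ : ContinuousOn φ (Set.Ioi 0)) (hφ1 : ∀ s, ‖φ s‖ ≤ 1)
    (hg : ∀ s, 0 < s → HasDerivAt g (g' s) s)
    (hg0 : ∀ s : ℝ, y ≤ s → ‖g s‖ ≤ Real.log s / (Real.log y * s))
    (hg1 : ∀ s : ℝ, y ≤ s → ‖g' s‖ ≤ 3 * Real.log s / (Real.log y * s ^ 2))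
    (hκ : ‖κ‖ ≤ C / Real.log y)
    (hE : ∀ N : ℕ, y ≤ N → ‖∑ n ∈ Ioc y N, a n - κ * ∫ s in (y : ℝ)..N, φ s‖ ≤
      C * N * Real.log y ^ 2 / Real.log N ^ 3) (N : ℕ) (hN : y ≤ N) :
    ‖∑ n ∈ Ioc y N, a n * g n - κ * ∫ s in (y : ℝ)..N, φ s * g s‖ ≤ 169 * C := by
  have hy' : (3 : ℝ) ≤ y := by exact_mod_cast hy
  have hL := one_le_log hy'
  have hi : ∀ {f : ℝ → ℂ}, ContinuousOn f (Set.Ioi 0) → ∀ {p q : ℝ}, 0 < p → 0 < q →
      IntervalIntegrable f volume p q := fun hf p q hp hq =>
    (hf.mono fun s hs => lt_of_lt_of_le (lt_min hp hq) hs.1).intervalIntegrable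
  have hgc : ContinuousOn g (Set.Ioi 0) := fun s hs => (hg s hs).continuousAt.continuousWithinAt
  set L := Real.log y with hLdef
  set E : ℕ → ℂ := fun N => ∑ n ∈ Ioc y N, a n - κ * ∫ s in (y : ℝ)..N, φ s with hEdef
  have key : ∀ N : ℕ, y ≤ N →
      ‖(∑ n ∈ Ioc y N, a n * g n - κ * ∫ s in (y : ℝ)..N, φ s * g s) - E N * g N‖ ≤
        168 * C * L * (1 / L - 1 / Real.log N) := by
    intro N hN
    induction N, hN using Nat.le_induction with
    | base => simp [hEdef, hLdef]
    | succ N hN ih =>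
      have hN' : (y : ℝ) ≤ N := by exact_mod_cast hN
      have hN3 : (3 : ℝ) ≤ N := hy'.trans hN'
      have hu := one_le_log hN3
      have hM : ∀ s ∈ Set.Icc (N : ℝ) (N + 1),
          ‖g (N + 1) - g s‖ ≤ 6 * Real.log N / (L * N ^ 2) := by
        intro s hs
        have h1 := Convex.norm_image_sub_le_of_norm_hasDerivWithin_le
          (C := 6 * Real.log N / (L * N ^ 2)) (s := Set.Icc (N : ℝ) (N + 1))
          (fun x hx => (hg x (by linarith [hx.1])).hasDerivWithinAt) (fun x hx => by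
            refine (hg1 x (hN'.trans hx.1)).trans ?_
            have h2 := (Real.log_le_log (by linarith [hx.1]) hx.2).trans (log_succ_le hN3)
            have h3 := hx.1
            gcongr ?_ / (L * ?_ ^ 2)
            linarith) (convex_Icc _ _) hs (Set.right_mem_Icc.2 (by linarith))
        refine h1.trans (mul_le_of_le_one_right (by positivity) ?_)
        rw [Real.norm_of_nonneg (by linarith [hs.2])]
        linarith [hs.1]
      have i1 := hi hφ (p := y) (q := N) (by linarith) (by linarith)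
      have i2 := hi hφ (p := N) (q := N + 1) (by linarith) (by linarith)
      have i3 := hi (hφ.fun_mul hgc) (p := y) (q := N) (by linarith) (by linarith)
      have i4 := hi (hφ.fun_mul hgc) (p := N) (q := N + 1) (by linarith) (by linarith)
      have e1 : (∑ n ∈ Ioc y (N + 1), a n * g n - κ * ∫ s in (y : ℝ)..(N + 1 : ℕ), φ s * g s) -
          E (N + 1) * g (N + 1 : ℕ) =
          ((∑ n ∈ Ioc y N, a n * g n - κ * ∫ s in (y : ℝ)..N, φ s * g s) - E N * g N) +
          (κ * (∫ s in (N : ℝ)..(N + 1), φ s * (g (N + 1) - g s)) - E N * (g (N + 1) - g N)) := by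
        simp only [hEdef, Finset.sum_Ioc_succ_top hN, Nat.cast_add, Nat.cast_one, mul_sub (φ _)]
        rw [← intervalIntegral.integral_add_adjacent_intervals i1 i2,
          ← intervalIntegral.integral_add_adjacent_intervals i3 i4,
          intervalIntegral.integral_sub (i2.mul_const _) i4, intervalIntegral.integral_mul_const]
        ring
      have h2 : ‖∫ s in (N : ℝ)..(N + 1), φ s * (g (N + 1) - g s)‖ ≤
          6 * Real.log N / (L * N ^ 2) := by
        have := intervalIntegral.norm_integral_le_of_norm_le_const (a := N) (b := N + 1)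
          (f := fun s => φ s * (g (N + 1) - g s)) (C := 6 * Real.log N / (L * N ^ 2))
          fun s hs => by
            rw [Set.uIoc_of_le (by linarith)] at hs
            rw [norm_mul]
            exact (mul_le_of_le_one_left (norm_nonneg _) (hφ1 s)).trans
              (hM s (Set.Ioc_subset_Icc_self hs))
        simpa using this
      have h3 : ‖κ‖ ≤ 6 * (C * N * L ^ 2 / Real.log N ^ 3) := by
        refine hκ.trans ((div_le_self hC.le hL).trans ?_)
        rw [mul_div_assoc', le_div_iff₀ (by positivity)]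
        have h4 := log_cube_le (s := N) (by linarith)
        have h5 : 1 ≤ L ^ 2 := one_le_pow₀ hL
        calc C * Real.log N ^ 3 ≤ C * (6 * N) * 1 := by rw [mul_one]; gcongr
          _ ≤ C * (6 * N) * L ^ 2 := by gcongr
          _ = _ := by ring
      have h6 := telescope hN3
      rw [e1]
      refine (norm_add_le _ _).trans ((add_le_add ih ((norm_sub_le _ _).trans (add_le_add
        ((norm_mul_le _ _).trans (mul_le_mul h3 h2 (norm_nonneg _) (by positivity)))
        ((norm_mul_le _ _).trans (mul_le_mul (hE N hN) (hM N (Set.left_mem_Icc.2 (by linarith)))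
          (norm_nonneg _) (by positivity)))))).trans ?_)
      have e2 : 6 * (C * N * L ^ 2 / Real.log N ^ 3) * (6 * Real.log N / (L * N ^ 2)) +
          C * N * L ^ 2 / Real.log N ^ 3 * (6 * Real.log N / (L * N ^ 2)) =
          42 * C * L * (1 / (N * Real.log N ^ 2)) := by
        field_simp
        ring
      have h7 := mul_le_mul_of_nonneg_left h6 (show 0 ≤ 42 * C * L by positivity)
      rw [e2]
      push_cast
      linarith
  have hN' : (y : ℝ) ≤ N := by exact_mod_cast hN
  have hLN : L ≤ Real.log N := Real.log_le_log (by linarith) hN'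
  have h1 : ‖E N * g N‖ ≤ C := by
    refine (norm_mul_le _ _).trans ((mul_le_mul (hE N hN) (hg0 N hN') (norm_nonneg _)
      (by have := hL.trans hLN; positivity)).trans ?_)
    have h2 : 0 < (N : ℝ) := by linarith
    have h3 : 0 < Real.log N := by linarith
    have e : C * N * L ^ 2 / Real.log N ^ 3 * (Real.log N / (L * N)) =
        C * (L / Real.log N ^ 2) := by field_simp
    rw [e]
    refine mul_le_of_le_one_right hC.le ((div_le_one (by positivity)).2 ?_)
    nlinarith
  have h2 : 168 * C * L * (1 / L - 1 / Real.log N) ≤ 168 * C := by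
    have h3 : 0 < 1 / Real.log N := by have := hL.trans hLN; positivity
    calc _ ≤ 168 * C * L * (1 / L) := by gcongr; linarith
      _ = _ := by field_simp
  have h3 := norm_add_le ((∑ n ∈ Ioc y N, a n * g n - κ * ∫ s in (y : ℝ)..N, φ s * g s) -
    E N * g N) (E N * g N)
  rw [sub_add_cancel] at h3
  linarith [key N hN]

/-- The power function. -/
noncomputable def pw (z : ℂ) (s : ℝ) : ℂ := Complex.exp (z * Real.log s)

lemma hasDerivAt_log {s : ℝ} (hs : 0 < s) :
    HasDerivAt (fun s : ℝ => (Real.log s : ℂ)) ((s : ℂ)⁻¹) s := by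
  simpa using (Real.hasDerivAt_log hs.ne').ofReal_comp

lemma hasDerivAt_P (z : ℂ) {s : ℝ} (hs : 0 < s) : HasDerivAt (pw z) (pw z s * (z * (s : ℂ)⁻¹)) s :=
  ((hasDerivAt_log hs).const_mul z).cexp

lemma P_add (z w : ℂ) (s : ℝ) : pw (z + w) s = pw z s * pw w s := by
  rw [pw, add_mul, Complex.exp_add, pw, pw]

lemma P_one_sub (w : ℂ) {s : ℝ} (hs : 0 < s) : pw (1 - w) s = s * pw (-w) s := by
  rw [sub_eq_add_neg, P_add, pw, one_mul, ← Complex.ofReal_exp, Real.exp_log hs]

lemma norm_P (z : ℂ) (s : ℝ) : ‖pw z s‖ = Real.exp (z.re * Real.log s) := by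
  simp [pw, Complex.norm_exp]

lemma norm_P_le {z : ℂ} (hz : z.re ≤ 0) {s : ℝ} (hs : 1 ≤ s) : ‖pw z s‖ ≤ 1 := by
  rw [norm_P, Real.exp_le_one_iff]
  exact mul_nonpos_of_nonpos_of_nonneg hz (Real.log_nonneg hs)

lemma norm_P_neg {σ s : ℝ} (hσ : 1 < σ) (hs : 1 ≤ s) : ‖pw (-σ) s‖ ≤ s⁻¹ := by
  have h1 := norm_P_le (z := 1 - σ) (by simpa using hσ.le) hs
  rw [P_one_sub _ (by linarith), norm_mul, Complex.norm_real,
    Real.norm_of_nonneg (by linarith)] at h1
  rw [← one_div, le_div_iff₀' (by linarith)]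
  exact h1

lemma nit_mul_P (σ t s : ℝ) : nit t s * pw (-σ) s = pw (-(σ + t * Complex.I)) s := by
  rw [nit, ex, pw, pw, ← Complex.exp_add]
  congr 1
  push_cast
  ring

lemma continuousOn_nit (t : ℝ) : ContinuousOn (nit t) (Set.Ioi 0) :=
  continuous_ex.comp_continuousOn ((continuousOn_const.mul
    (Real.continuousOn_log.mono fun _ hs => ne_of_gt hs)).neg)

lemma term_eq (f : ℕ → ℂ) (w : ℂ) {n : ℕ} (hn : n ≠ 0) : LSeries.term f w n = f n * pw (-w) n := by
  rw [LSeries.term_of_ne_zero hn, Complex.cpow_def_of_ne_zero (by exact_mod_cast hn),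
    div_eq_mul_inv, ← Complex.exp_neg, pw, ← Complex.natCast_log]
  congr 2
  ring

lemma integral_eq {F f : ℝ → ℂ} (hF : ∀ s, 0 < s → HasDerivAt F (f s) s)
    (hf : ContinuousOn f (Set.Ioi 0)) {p q : ℝ} (hp : 0 < p) (hq : 0 < q) :
    ∫ s in p..q, f s = F q - F p :=
  intervalIntegral.integral_eq_sub_of_hasDerivAt
    (fun s hs => hF s (lt_of_lt_of_le (lt_min hp hq) hs.1))
    (hf.mono fun _ hs => lt_of_lt_of_le (lt_min hp hq) hs.1).intervalIntegrable

lemma continuousOn_P (z : ℂ) : ContinuousOn (pw z) (Set.Ioi 0) := fun _ hs =>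
  (hasDerivAt_P z hs).continuousAt.continuousWithinAt

lemma norm_int_P {w : ℂ} (hw : 1 < w.re) {p q : ℝ} (hp : 1 ≤ p) (hq : 1 ≤ q) :
    ‖∫ s in p..q, pw (-w) s‖ ≤ 2 / ‖1 - w‖ := by
  have hw0 : 1 - w ≠ 0 := fun h => by
    have := congrArg Complex.re h
    simp at this
    linarith
  have hre : (1 - w).re ≤ 0 := by simpa using hw.le
  rw [integral_eq (F := fun s => pw (1 - w) s / (1 - w)) (fun s hs => by
      refine ((hasDerivAt_P (1 - w) hs).div_const (1 - w)).congr_deriv ?_
      have : (s : ℂ) ≠ 0 := by exact_mod_cast hs.ne'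
      rw [P_one_sub _ hs]
      field_simp) (continuousOn_P _) (by linarith) (by linarith), ← sub_div, norm_div]
  gcongr
  linarith [norm_sub_le (pw (1 - w) q) (pw (1 - w) p), norm_P_le hre hp, norm_P_le hre hq]

lemma norm_int_log_P {w : ℂ} (hw : 1 < w.re) (h1 : 1 ≤ ‖1 - w‖) {p q : ℝ} (hp : 1 ≤ p)
    (hq : 1 ≤ q) : ‖∫ s in p..q, (Real.log s : ℂ) * pw (-w) s‖ ≤
      Real.log q / q ^ (w.re - 1) + Real.log p + 2 := by
  have hw0 : 1 - w ≠ 0 := norm_pos_iff.1 (by linarith)
  have hre : (1 - w).re ≤ 0 := by simpa using hw.le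
  rw [integral_eq (F := fun s => (Real.log s : ℂ) * pw (1 - w) s / (1 - w) -
      pw (1 - w) s / (1 - w) ^ 2) (fun s hs => by
      refine ((((hasDerivAt_log hs).fun_mul (hasDerivAt_P (1 - w) hs)).div_const (1 - w)).fun_sub
        ((hasDerivAt_P (1 - w) hs).div_const ((1 - w) ^ 2))).congr_deriv ?_
      have : (s : ℂ) ≠ 0 := by exact_mod_cast hs.ne'
      rw [P_one_sub _ hs]
      field_simp
      ring) (ContinuousOn.fun_mul (fun s hs => (hasDerivAt_log hs).continuousAt.continuousWithinAt)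
        (continuousOn_P _)) (by linarith) (by linarith)]
  have h2 : ∀ s : ℝ, 1 ≤ s → ‖(Real.log s : ℂ) * pw (1 - w) s / (1 - w) -
      pw (1 - w) s / (1 - w) ^ 2‖ ≤ Real.log s * ‖pw (1 - w) s‖ + 1 := fun s hs => by
    refine (norm_sub_le _ _).trans (add_le_add ?_ ?_)
    · rw [norm_div, norm_mul, Complex.norm_real, Real.norm_of_nonneg (Real.log_nonneg hs)]
      exact div_le_self (mul_nonneg (Real.log_nonneg hs) (norm_nonneg _)) h1
    · rw [norm_div, norm_pow]
      exact (div_le_self (norm_nonneg _) (one_le_pow₀ h1)).trans (norm_P_le hre hs)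
  have h3 : ‖pw (1 - w) q‖ = (q ^ (w.re - 1))⁻¹ := by
    rw [norm_P, Real.rpow_def_of_pos (by linarith), ← Real.exp_neg]
    congr 1
    simp only [Complex.sub_re, Complex.one_re]
    ring
  have h4 := mul_le_of_le_one_right (Real.log_nonneg hp) (norm_P_le hre hp)
  refine (norm_sub_le _ _).trans ?_
  have h5 := h2 q hq
  rw [h3, ← div_eq_mul_inv] at h5
  linarith [h2 p hp]

lemma tail_le {f : ℕ → ℂ} {w : ℂ} (hf : LSeriesSummable f w) (y : ℕ) {B : ℕ → ℝ} {B0 : ℝ}
    (hB : Tendsto B atTop (𝓝 B0))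
    (h : ∀ N, y ≤ N → ‖∑ n ∈ Ioc y N, f n * pw (-w) n‖ ≤ B N) :
    ‖LSeries f w - ∑ n ∈ range (y + 1), LSeries.term f w n‖ ≤ B0 := by
  have h1 := ((hf.hasSum.tendsto_sum_nat.comp (tendsto_add_atTop_nat 1)).sub_const
    (∑ n ∈ range (y + 1), LSeries.term f w n)).norm
  refine le_of_tendsto_of_tendsto h1 hB ?_
  filter_upwards [eventually_ge_atTop y] with N hN
  rw [Function.comp_apply, ← Finset.sum_Ico_eq_sub _ (by omega), Finset.Ico_add_one_add_one_eq_Ioc,
    Finset.sum_congr rfl fun n hn => term_eq f w (by have := (Finset.mem_Ioc.1 hn).1; omega)]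
  exact h N hN

lemma rc_eq_zero {b : ℕ} (χ : DirichletCharacter ℂ b) {y n : ℕ} (h1 : n ≠ 1) (h0 : n ≠ 0)
    (hn : n ≤ y) : rc χ y n = 0 := by
  refine if_neg fun h => ?_
  have hp := Nat.minFac_prime h1
  exact hp.one_lt.ne' (Nat.eq_one_of_dvd_coprimes h (Nat.minFac_dvd n)
    (hp.dvd_primorial_iff.2 ((Nat.minFac_le (Nat.pos_of_ne_zero h0)).trans hn)))

lemma norm_rc_le {b : ℕ} (χ : DirichletCharacter ℂ b) (y n : ℕ) : ‖rc χ y n‖ ≤ 1 := by
  unfold rc
  split_ifs
  · exact χ.norm_le_one _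
  · simp

lemma head_eq {f : ℕ → ℂ} {y : ℕ} (hy : 1 ≤ y) (h : ∀ n, n ≠ 1 → n ≠ 0 → n ≤ y → f n = 0) (w : ℂ) :
    ∑ n ∈ range (y + 1), LSeries.term f w n = f 1 := by
  rw [Finset.sum_eq_single_of_mem 1 (Finset.mem_range.2 (by omega)) fun n hn h1 => ?_]
  · simp
  · rcases eq_or_ne n 0 with rfl | h0
    · simp
    · rw [LSeries.term_of_ne_zero h0, h n h1 h0 (by simpa [Nat.lt_succ_iff] using hn), zero_div]

end RoughL

open RoughL

theorem roughL (h : S_Rough) : S_RoughL := by
  intro b _
  obtain ⟨C, hC, h⟩ := h b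
  refine ⟨172 * C + 1, by positivity, fun k => ?_⟩
  obtain ⟨y0, h⟩ := h k
  refine ⟨max y0 3, fun y hy χ σ t hσ hσ2 ht => ?_⟩
  obtain ⟨κ, hκ, hE⟩ := h y ((le_max_left _ _).trans hy) χ t ht
  have hy3 : 3 ≤ y := (le_max_right _ _).trans hy
  have hy' : (3 : ℝ) ≤ y := by exact_mod_cast hy3
  have hL := one_le_log hy'
  set L := Real.log y with hLdef
  set w : ℂ := σ + t * Complex.I with hw
  have hre : w.re = σ := by simp [hw]
  have hw1 : 1 < w.re := hre ▸ hσ
  have hlog : ∀ s : ℝ, y ≤ s → L ≤ Real.log s := fun s hs => Real.log_le_log (by linarith) hs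
  have hP : ∀ s : ℝ, y ≤ s → ‖pw (-σ) s‖ ≤ s⁻¹ := fun s hs => norm_P_neg hσ (by linarith)
  have hP' : ∀ s : ℝ, y ≤ s → ‖pw (-σ) s * (-σ * (s : ℂ)⁻¹)‖ ≤ 2 / s ^ 2 := fun s hs => by
    have hs0 : 0 < s := by linarith
    rw [norm_mul, norm_mul, norm_neg, norm_inv, Complex.norm_real, Complex.norm_real,
      Real.norm_of_nonneg (by linarith), Real.norm_of_nonneg hs0.le]
    calc _ ≤ s⁻¹ * (2 * s⁻¹) := by gcongr; exact hP s hs
      _ = _ := by field_simp
  have habs : LSeries.abscissaOfAbsConv (rc χ y) < w.re :=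
    (LSeries.abscissaOfAbsConv_le_of_le_const ⟨1, fun n _ => norm_rc_le χ y n⟩).trans_lt
      (by exact_mod_cast hw1)
  have hA : ‖LSeries (rc χ y) w‖ ≤ 1 + 169 * C + C / L * (2 / ‖1 - w‖) := by
    have h1 := tail_le (LSeriesSummable_of_bounded_of_one_lt_re (fun n _ => norm_rc_le χ y n) hw1)
      y (tendsto_const_nhds (x := 169 * C + C / L * (2 / ‖1 - w‖))) fun N hN => by
        have hN' : (y : ℝ) ≤ N := by exact_mod_cast hN
        have h2 := abel hy3 hC (continuousOn_nit t) (fun s => (norm_nit t s).le)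
          (fun s hs => hasDerivAt_P (-σ) hs) (fun s hs => (hP s hs).trans (by
            have := hlog s hs
            have hs0 : 0 < s := by linarith
            rw [le_div_iff₀ (by positivity), mul_comm L, inv_mul_cancel_left₀ hs0.ne']
            exact this)) (fun s hs => (hP' s hs).trans (by
            have := hlog s hs
            have hs0 : 0 < s := by linarith
            rw [← div_div]
            gcongr
            rw [le_div_iff₀ (by linarith)]
            linarith)) hκ hE N hN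
        simp only [mul_assoc, nit_mul_P, ← hw] at h2
        have h3 := (norm_mul_le κ _).trans (mul_le_mul hκ (norm_int_P hw1 (p := y) (q := N)
          (by linarith) (by linarith)) (norm_nonneg _) (by positivity))
        linarith [norm_le_norm_add_norm_sub' (∑ n ∈ Ioc y N, rc χ y n * pw (-w) n)
          (κ * ∫ s in (y : ℝ)..N, pw (-w) s)]
    rw [head_eq (by omega) fun n h1 h0 hn => rc_eq_zero χ h1 h0 hn] at h1
    linarith [norm_le_norm_add_norm_sub' (LSeries (rc χ y) w) (rc χ y 1), norm_rc_le χ y 1]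
  refine ⟨hA.trans ?_, fun ht1 => ?_⟩
  · have h1 : σ - 1 ≤ ‖1 - w‖ := by
      refine le_trans ?_ (Complex.abs_re_le_norm _)
      rw [Complex.sub_re, hre, Complex.one_re, abs_sub_comm]
      exact le_abs_self _
    have h2 : 0 < σ - 1 := by linarith
    have h3 : C / L * (2 / ‖1 - w‖) ≤ 2 * C * (1 / ((σ - 1) * L)) := by
      calc _ ≤ C / L * (2 / (σ - 1)) := by gcongr
        _ = _ := by field_simp
    have h4 : 0 < 1 / ((σ - 1) * L) := by positivity
    nlinarith
  have h1 : 1 ≤ ‖1 - w‖ := by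
    refine le_trans ?_ (Complex.abs_im_le_norm _)
    simpa [hw] using ht1
  have hCL : C / L ≤ C := div_le_self hC.le hL
  refine ⟨hA.trans ?_, ?_⟩
  · have h2 : C / L * (2 / ‖1 - w‖) ≤ C * 2 :=
      mul_le_mul hCL (div_le_self zero_le_two h1) (by positivity) hC.le
    linarith
  have hlim : Tendsto (fun N : ℕ => 169 * C * L + C / L * (Real.log N / (N : ℝ) ^ (w.re - 1) + L + 2))
      atTop (𝓝 (169 * C * L + C / L * (0 + L + 2))) :=
    ((((((isLittleO_log_rpow_atTop (by linarith : 0 < w.re - 1)).tendsto_div_nhds_zero).comp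
      tendsto_natCast_atTop_atTop).add_const L).add_const 2).const_mul _).const_add _
  have hL0 : (L : ℂ) ≠ 0 := by exact_mod_cast (by linarith : L ≠ 0)
  have nL : ‖(L : ℂ)‖ = L := by rw [Complex.norm_real, Real.norm_of_nonneg (by linarith)]
  have h2 := tail_le (LSeriesSummable_logMul_of_lt_re habs) y hlim fun N hN => by
    have hN' : (y : ℝ) ≤ N := by exact_mod_cast hN
    have h2 := abel hy3 hC (continuousOn_nit t) (fun s => (norm_nit t s).le)
      (g := fun s => (Real.log s : ℂ) * pw (-σ) s / L)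
      (fun s hs => ((hasDerivAt_log hs).mul (hasDerivAt_P (-σ) hs)).div_const (L : ℂ))
      (fun s hs => by
        have := hlog s hs
        rw [norm_div, norm_mul, nL, Complex.norm_real, Real.norm_of_nonneg (by linarith),
          mul_comm L, ← div_div, div_eq_mul_inv _ s]
        gcongr
        · linarith
        · exact hP s hs) (fun s hs => by
        have := hlog s hs
        have hs0 : 0 < s := by linarith
        rw [norm_div, nL, mul_comm L, ← div_div]
        gcongr
        refine (norm_add_le _ _).trans ?_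
        rw [norm_mul, norm_mul, norm_inv, Complex.norm_real, Complex.norm_real,
          Real.norm_of_nonneg hs0.le, Real.norm_of_nonneg (by linarith)]
        calc _ ≤ s⁻¹ * s⁻¹ + Real.log s * (2 / s ^ 2) := by
              gcongr
              · exact hP s hs
              · linarith
              · exact hP' s hs
          _ = (1 + 2 * Real.log s) / s ^ 2 := by field_simp
          _ ≤ _ := by gcongr; linarith) hκ hE N hN
    have e1 : ∀ s : ℝ, nit t s * ((Real.log s : ℂ) * pw (-σ) s / L) =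
        (Real.log s : ℂ) * pw (-w) s / L := fun s => by
      rw [hw, ← nit_mul_P]
      ring
    simp only [mul_assoc, e1] at h2
    have e2 : ∑ n ∈ Ioc y N, LSeries.logMul (rc χ y) n * pw (-w) n =
        (∑ n ∈ Ioc y N, rc χ y n * ((Real.log n : ℂ) * pw (-w) n / L) -
          κ * ∫ s in (y : ℝ)..N, (Real.log s : ℂ) * pw (-w) s / L) * L +
          κ * ∫ s in (y : ℝ)..N, (Real.log s : ℂ) * pw (-w) s := by
      rw [intervalIntegral.integral_div, sub_mul, mul_assoc, div_mul_cancel₀ _ hL0,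
        sub_add_cancel, Finset.sum_mul]
      refine Finset.sum_congr rfl fun n _ => ?_
      rw [LSeries.logMul, ← Complex.natCast_log]
      field_simp
    rw [e2]
    refine (norm_add_le _ _).trans (add_le_add ?_ ((norm_mul_le κ _).trans (mul_le_mul hκ
      (norm_int_log_P hw1 h1 (by linarith) (by linarith)) (norm_nonneg _) (by positivity))))
    rw [norm_mul, nL]
    gcongr
  rw [head_eq (by omega) fun n h1 h0 hn => by
    rw [LSeries.logMul, rc_eq_zero χ h1 h0 hn, mul_zero]] at h2
  rw [LSeries_deriv habs, norm_neg]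
  simp only [LSeries.logMul, Nat.cast_one, Complex.log_one, zero_mul, sub_zero] at h2
  refine h2.trans ?_
  have h3 : C / L * (0 + L + 2) ≤ C * (3 * L) :=
    mul_le_mul hCL (by linarith) (by linarith) hC.le
  nlinarith

end Pool.Agent.P.MP_a14ce1_nt.Ch
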