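import Pool.Agent.P.MP_a14ce1_nt.Ch.ScalesB

/-!
Scale decomposition: assembly.
-/

open Finset MeasureTheory

namespace Pool.Agent.P.MP_a14ce1_nt.Ch

namespace Scales

/-- the scales -/
def sc (s j : ℕ) : ℕ := s ^ 3 ^ j

theorem sc_succ (s j : ℕ) : sc s (j + 1) = sc s j ^ 3 := by
  unfold sc; rw [← pow_mul, pow_succ]

theorem le_sc {s : ℕ} (_hs : 1 ≤ s) (j : ℕ) : s ≤ sc s j :=
  Nat.le_self_pow (by positivity) s

theorem sc_mono {s : ℕ} (hs : 1 ≤ s) {i j : ℕ} (h : i ≤ j) : sc s i ≤ sc s j :=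
  Nat.pow_le_pow_right hs (Nat.pow_le_pow_right (by norm_num) h)

theorem log_sc (s j : ℕ) : Real.log (sc s j) = 3 ^ j * Real.log s := by
  unfold sc; push_cast; rw [Real.log_pow]; push_cast; rfl

/-- the index set of level j -/
def W (s j : ℕ) : Finset ℕ := Ico (sc s j ^ 2) (sc s j ^ 4)

noncomputable def bt (a : ℝ) (s j : ℕ) : ℝ := a - 1 / (sc s j : ℝ)

def Good (f : ℕ → ℂ) (a : ℝ) (s j : ℕ) (t : ℝ) : Prop :=
  ∀ v ∈ W s j, phi f v t ≤ Real.exp (-(bt a s j * v))

noncomputable def Q (f : ℕ → ℂ) (X : ℕ) (a : ℝ) (s : ℕ) : ℕ → ℕ → ℝ → ℝ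
  | 0, v, t => phi f 0 t ^ 0 * rr f X v t
  | j + 1, v, t => ∑ r ∈ W s j, Real.exp (bt a s j * ((r * (v / r + 1) : ℕ) : ℝ)) *
      (phi f r t ^ (v / r + 1) * rr f X v t)

noncomputable def g (C : ℝ) (f : ℕ → ℂ) (X : ℕ) (a : ℝ) (s j : ℕ) (t : ℝ) : ℝ :=
  2 * ‖Dv f X (Pb (sc s j ^ 2) (sc s j ^ 4)) t‖ ^ 2 +
    2 * C * ((sc s j ^ 4 : ℕ) : ℝ) * ∑ v ∈ W s j, Real.exp (-(bt a s j * v)) * Q f X a s j v t

theorem phi_nonneg (hR : S_SmReg) (f : ℕ → ℂ) (v : ℕ) (t : ℝ) : 0 ≤ phi f v t := ((hR _ _).2 t).1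

theorem rr_nonneg (hR : S_SmReg) (f : ℕ → ℂ) (X v : ℕ) (t : ℝ) : 0 ≤ rr f X v t := ((hR _ _).2 t).1

theorem bc_pr (hR : S_SmReg) (f : ℕ → ℂ) (X r v l : ℕ) : BC (fun t => phi f r t ^ l * rr f X v t) :=
  ((bc_sm hR _ _).pow l).mul (bc_sm hR _ _)

theorem bc_Q (hR : S_SmReg) (f : ℕ → ℂ) (X : ℕ) (a : ℝ) (s j v : ℕ) : BC (Q f X a s j v) := by
  cases j with
  | zero => exact bc_pr hR f X 0 v 0
  | succ j => exact BC.sum _ fun r _ => (bc_pr hR f X r v _).cmul _

theorem Q_nonneg (hR : S_SmReg) (f : ℕ → ℂ) (X : ℕ) (a : ℝ) (s j v : ℕ) (t : ℝ) :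
    0 ≤ Q f X a s j v t := by
  have h1 := phi_nonneg hR f
  have h2 := rr_nonneg hR f X v t
  cases j with
  | zero => unfold Q; positivity
  | succ j => exact sum_nonneg fun r _ => by have := h1 r t; positivity

theorem bc_g (hR : S_SmReg) (C : ℝ) (f : ℕ → ℂ) (X : ℕ) (a : ℝ) (s j : ℕ) : BC (g C f X a s j) :=
  ((bc_dir _ _).cmul 2).add ((BC.sum _ fun v _ => (bc_Q hR f X a s j v).cmul _).cmul _)

theorem g_nonneg (hR : S_SmReg) {C : ℝ} (hC : 0 < C) (f : ℕ → ℂ) (X : ℕ) (a : ℝ) (s j : ℕ) (t : ℝ) :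
    0 ≤ g C f X a s j t := by
  have : 0 ≤ ∑ v ∈ W s j, Real.exp (-(bt a s j * v)) * Q f X a s j v t :=
    sum_nonneg fun v _ => mul_nonneg (Real.exp_pos _).le (Q_nonneg hR f X a s j v t)
  unfold g; positivity

theorem one_le_of_bad {b x : ℝ} {r l : ℕ} (h : Real.exp (-(b * r)) < x) :
    1 ≤ Real.exp (b * ((r * l : ℕ) : ℝ)) * x ^ l := by
  have h1 : Real.exp (b * ((r * l : ℕ) : ℝ)) = Real.exp (b * r) ^ l := by
    rw [← Real.exp_nat_mul]; congr 1; push_cast; ring
  rw [h1, ← mul_pow]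
  refine one_le_pow₀ ?_
  rw [Real.exp_neg, inv_lt_iff_one_lt_mul₀ (Real.exp_pos _)] at h
  linarith

theorem rr_le_Q (hR : S_SmReg) {f : ℕ → ℂ} {X : ℕ} {a : ℝ} {s j : ℕ} {t : ℝ}
    (h : ∀ i < j, ¬ Good f a s i t) (v : ℕ) : rr f X v t ≤ Q f X a s j v t := by
  cases j with
  | zero => unfold Q; simp
  | succ j =>
    have h1 := h j (Nat.lt_succ_self j)
    unfold Good at h1
    push Not at h1
    obtain ⟨r, hr, h2⟩ := h1
    have h3 := rr_nonneg hR f X v t
    unfold Q
    refine le_trans ?_ (single_le_sum (f := fun r => Real.exp (bt a s j * ((r * (v / r + 1) : ℕ) : ℝ)) *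
      (phi f r t ^ (v / r + 1) * rr f X v t)) (fun r _ => by have := phi_nonneg hR f r t; positivity) hr)
    have h4 := one_le_of_bad (l := v / r + 1) h2
    rw [← mul_assoc]
    exact le_mul_of_one_le_left h3 h4

theorem card_W (s j : ℕ) : ((W s j).card : ℝ) ≤ (sc s j : ℝ) ^ 4 := by
  unfold W
  rw [Nat.card_Ico]
  exact_mod_cast Nat.sub_le _ _

theorem int_Q (hMo : S_Moment) (hR : S_SmReg) {f : ℕ → ℂ} (hf : CM f) {X : ℕ} (hX : 1 ≤ X) {a h : ℝ}
    (ha : 0 < a) (ha1 : a ≤ 1) {s : ℕ} (hs : 10 ^ 6 ≤ s) (has : 2 / a ≤ s) (hh : 2 ^ s ^ 4 ≤ h) (j : ℕ) :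
    ((sc s j ^ 4 : ℕ) : ℝ) * ∑ v ∈ W s j, Real.exp (-(bt a s j * v)) * I (X / h) (Q f X a s j v) ≤
      80000 * (9000000 + 3840 / a ^ 5) / Real.log (sc s j) := by
  have hX' : (0 : ℝ) < X := by exact_mod_cast hX
  have hh1 : 1 ≤ h := le_trans (one_le_pow₀ (by norm_num)) hh
  have hT0 : 0 < X / h := by positivity
  have hs1 : 1 ≤ s := by omega
  have hs' : (10 : ℝ) ^ 6 ≤ s := by exact_mod_cast hs
  have hlog : ∀ i, 0 < Real.log (sc s i) ∧ Real.log (sc s i) ≤ sc s i := by
    intro i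
    have : (s : ℝ) ≤ sc s i := by exact_mod_cast le_sc hs1 i
    exact ⟨Real.log_pos (by linarith), (Real.log_le_sub_one_of_pos (by linarith)).trans (by linarith)⟩
  have hinv : 1 / (s : ℝ) ≤ a / 2 := by
    rw [div_le_iff₀ ha] at has
    rw [div_le_iff₀ (by linarith)]; linarith
  cases j with
  | zero =>
    have e0 : sc s 0 = s := by simp [sc]
    have h1 : ∀ v ∈ W s 0, Real.exp (-(bt a s 0 * v)) * I (X / h) (Q f X a s 0 v) ≤
        Real.exp (-(a / 2 * (s : ℝ) ^ 2)) * 80000 := by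
      intro v hv
      unfold W at hv
      rw [e0, mem_Ico] at hv
      have h2 := mom hMo hf hX 0 v 0 hT0 (by
        have : (2 : ℝ) ^ v ≤ h := le_trans (pow_le_pow_right₀ (by norm_num) hv.2.le) hh
        rw [div_mul_eq_mul_div, div_le_iff₀ (by linarith)]
        simp only [mul_zero, pow_zero, one_mul]
        gcongr)
      rw [pow_zero (16 * (2 * ((0 : ℕ) : ℝ) + 1) ^ 2), mul_one] at h2
      refine mul_le_mul ?_ h2 (integral_nonneg fun t =>
        mul_nonneg (cw_pos _ _).le (Q_nonneg hR f X a s 0 v t)) (Real.exp_pos _).le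
      refine Real.exp_le_exp.2 (neg_le_neg ?_)
      unfold bt
      rw [e0]
      have : (s : ℝ) ^ 2 ≤ v := by exact_mod_cast hv.1
      exact mul_le_mul (by linarith) this (by positivity) (by linarith)
    have h2 := (sum_le_card_nsmul _ _ _ h1).trans_eq (nsmul_eq_mul _ _)
    have h3 := card_W s 0
    have h4 := num3 (s := s) (by linarith) ha
    have h5 := hlog 0
    rw [e0] at h3 h5 ⊢
    calc _ ≤ ((s ^ 4 : ℕ) : ℝ) * ((s : ℝ) ^ 4 * (Real.exp (-(a / 2 * (s : ℝ) ^ 2)) * 80000)) := by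
          refine mul_le_mul_of_nonneg_left (h2.trans ?_) (by positivity)
          gcongr
      _ = 80000 * ((s : ℝ) ^ 8 * Real.exp (-(a / 2 * (s : ℝ) ^ 2))) := by push_cast; ring
      _ ≤ 80000 * ((9000000 + 3840 / a ^ 5) / Real.log s) := by
          refine mul_le_mul_of_nonneg_left (h4.trans ?_) (by norm_num)
          exact div_le_div₀ (by positivity) (by linarith) h5.1 h5.2
      _ = _ := by ring
  | succ j =>
    set u := sc s j with hu
    have hu1 : s ≤ u := le_sc hs1 j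
    have hu1' : (s : ℝ) ≤ u := by exact_mod_cast hu1
    have h1 : ∀ v ∈ W s (j + 1), Real.exp (-(bt a s (j + 1) * v)) * I (X / h) (Q f X a s (j + 1) v) ≤
        (u : ℝ) ^ 4 * (80000 * Real.exp (-((u : ℝ) ^ 5 / 4))) := by
      intro v hv
      unfold W at hv
      rw [sc_succ, mem_Ico, ← hu] at hv
      have e1 : I (X / h) (Q f X a s (j + 1) v) = ∑ r ∈ W s j,
          Real.exp (bt a s j * ((r * (v / r + 1) : ℕ) : ℝ)) *
            I (X / h) (fun t => phi f r t ^ (v / r + 1) * rr f X v t) := by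
        rw [← sum_congr rfl fun r _ => I_cmul _ _ _]
        exact I_sum _ (fun r _ => (bc_pr hR f X r v _).cmul _) hT0
      rw [e1, mul_sum]
      refine (sum_le_card_nsmul _ _ (80000 * Real.exp (-((u : ℝ) ^ 5 / 4))) fun r hr => ?_).trans ?_
      · unfold W at hr
        rw [mem_Ico, ← hu] at hr
        have hr0 : 0 < r := lt_of_lt_of_le (Nat.pow_pos (by omega)) hr.1
        have h2 := mom hMo hf hX r v (v / r + 1) hT0 (by
          have e2 : v ≤ r * (v / r + 1) := (Nat.lt_mul_div_succ v hr0).le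
          have e3 : (2 : ℝ) ^ v ≤ 2 ^ (r * (v / r + 1)) := pow_le_pow_right₀ (by norm_num) e2
          have e4 : X / h ≤ X := div_le_self hX'.le hh1
          rw [mul_comm]
          gcongr)
        refine le_trans ?_ (num1 ha1 (hs.trans hu1)
          (le_trans (one_div_le_one_div_of_le (by linarith) hu1') (by linarith)) hv.1 hv.2 hr.1 hr.2)
        unfold bt
        rw [sc_succ, ← hu]
        gcongr
        exact h2
      · rw [nsmul_eq_mul]
        have := card_W s j
        gcongr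
    have h2 := (sum_le_card_nsmul _ _ _ h1).trans_eq (nsmul_eq_mul _ _)
    have h3 := card_W s (j + 1)
    have h4 := num2 (s := u) (by linarith)
    have h5 := hlog j
    rw [← hu] at h5
    have h6 : Real.log (sc s (j + 1)) = 3 * Real.log u := by
      rw [sc_succ, ← hu]; push_cast; rw [Real.log_pow]; norm_num
    rw [h6]
    rw [sc_succ, ← hu] at h3 ⊢
    calc _ ≤ (((u ^ 3) ^ 4 : ℕ) : ℝ) * ((((u ^ 3 : ℕ) : ℝ)) ^ 4 *
          ((u : ℝ) ^ 4 * (80000 * Real.exp (-((u : ℝ) ^ 5 / 4))))) := by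
          refine mul_le_mul_of_nonneg_left (h2.trans ?_) (by positivity)
          gcongr
      _ = 80000 * ((u : ℝ) ^ 28 * Real.exp (-((u : ℝ) ^ 5 / 4))) := by push_cast; ring
      _ ≤ 80000 * ((9000000 + 3840 / a ^ 5) / (3 * Real.log u)) := by
          refine mul_le_mul_of_nonneg_left (h4.trans ?_) (by norm_num)
          have e1 : (3000000 : ℝ) / u = 9000000 / (3 * u) := by
            have : (u : ℝ) ≠ 0 := by linarith
            field_simp; norm_num
          have e2 : 0 ≤ 3840 / a ^ 5 := by positivity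
          rw [e1]
          exact div_le_div₀ (by positivity) (by linarith) (by linarith) (by linarith)
      _ = _ := by ring

theorem vol_le (hMo : S_Moment) (hR : S_SmReg) {f : ℕ → ℂ} (hf : CM f) {X : ℕ} (hX : 1 ≤ X) {a u : ℝ}
    (ha : 0 < a) (ha1 : a ≤ 1) (hu : 10 ^ 6 ≤ u) (hua : 186 / a ≤ u) (hx : u ^ 24 = Real.log X)
    {s J : ℕ} (h1 : u ≤ sc s J) (h2 : (sc s J : ℝ) ≤ u ^ 3) {U : Set ℝ} (hU : MeasurableSet U)
    (hU' : ∀ t ∈ U, |t| ≤ X ∧ ¬ Good f a s J t) :
    volume.real U ≤ Real.exp (2 * a * u ^ 24) := by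
  have hX' : (0 : ℝ) < X := by exact_mod_cast hX
  have hu0 : 0 < u := by linarith
  set l : ℕ → ℕ := fun v => ⌈u ^ 24 / (v * Real.log 2)⌉₊ with hl
  have hb : ∀ v, BC (fun t => Real.exp (bt a s J * ((v * l v : ℕ) : ℝ)) * phi f v t ^ l v) :=
    fun v => ((bc_sm hR _ _).pow _).cmul _
  have hnn : ∀ v t, 0 ≤ Real.exp (bt a s J * ((v * l v : ℕ) : ℝ)) * phi f v t ^ l v :=
    fun v t => by have := phi_nonneg hR f v t; positivity
  have e1 : volume.real U ≤ I X (fun t => 2 * ∑ v ∈ W s J,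
      Real.exp (bt a s J * ((v * l v : ℕ) : ℝ)) * phi f v t ^ l v) := by
    rw [← integral_indicator_one hU]
    refine integral_mono_of_nonneg (Filter.Eventually.of_forall fun t => ?_)
      (((BC.sum _ fun v _ => hb v).cmul 2).int hX') (Filter.Eventually.of_forall fun t => ?_)
    · exact Set.indicator_nonneg (fun _ _ => zero_le_one) t
    · have h0 : 0 ≤ ∑ v ∈ W s J, Real.exp (bt a s J * ((v * l v : ℕ) : ℝ)) * phi f v t ^ l v :=
        sum_nonneg fun v _ => hnn v t
      by_cases ht : t ∈ U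
      · rw [Set.indicator_of_mem ht]
        obtain ⟨h3, h4⟩ := hU' t ht
        unfold Good at h4
        push Not at h4
        obtain ⟨r, hr, h4⟩ := h4
        have h5 := (one_le_of_bad (l := l r) h4).trans (single_le_sum (f := fun v =>
          Real.exp (bt a s J * ((v * l v : ℕ) : ℝ)) * phi f v t ^ l v) (fun v _ => hnn v t) hr)
        have h6 := cw_near hX' h3
        change (1 : ℝ) ≤ _
        nlinarith
      · rw [Set.indicator_of_notMem ht]
        have := cw_pos X t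
        positivity
  rw [I_cmul, I_sum _ (fun v _ => hb v) hX'] at e1
  have h12 : (sc s J : ℝ) ^ 4 ≤ u ^ 12 := by
    calc _ ≤ (u ^ 3) ^ 4 := by gcongr
      _ = _ := by ring
  have e2 : ∀ v ∈ W s J, I X (fun t => Real.exp (bt a s J * ((v * l v : ℕ) : ℝ)) * phi f v t ^ l v) ≤
      Real.exp (2 * a * u ^ 24) / (2 * u ^ 12) := by
    intro v hv
    unfold W at hv
    rw [mem_Ico] at hv
    have hv1 : u ^ 2 ≤ v := by
      have : (sc s J : ℝ) ^ 2 ≤ v := by exact_mod_cast hv.1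
      exact le_trans (by gcongr) this
    have hv2 : (v : ℝ) ≤ u ^ 12 := by
      have : (v : ℝ) ≤ (sc s J : ℝ) ^ 4 := by exact_mod_cast hv.2.le
      exact this.trans h12
    have hv0 : (0 : ℝ) < v := lt_of_lt_of_le (by positivity) hv1
    have hl2 : 0 < Real.log 2 := Real.log_pos (by norm_num)
    rw [I_cmul, le_div_iff₀' (by positivity)]
    refine le_trans ?_ (num4 (b := bt a s J) ha ha1 ?_ hu hua hv1 hv2)
    · have := mom1 hMo hf v (l v) hX' (by
        rw [← Real.log_le_log_iff hX' (by positivity), Real.log_pow, ← hx]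
        have := Nat.le_ceil (u ^ 24 / (v * Real.log 2))
        rw [div_le_iff₀ (by positivity)] at this
        push_cast
        linarith)
      gcongr
      exact this
    · unfold bt
      have : 0 ≤ 1 / (sc s J : ℝ) := by positivity
      linarith
  have e3 := (sum_le_card_nsmul _ _ _ e2).trans_eq (nsmul_eq_mul _ _)
  have e4 := (card_W s J).trans h12
  calc _ ≤ 2 * (u ^ 12 * (Real.exp (2 * a * u ^ 24) / (2 * u ^ 12))) := by
        refine e1.trans (mul_le_mul_of_nonneg_left (e3.trans ?_) (by norm_num))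
        gcongr
    _ = _ := by field_simp

theorem exists_J {s : ℕ} (hs : 2 ≤ s) {u : ℝ} (hu : s ≤ u) :
    ∃ J, u ≤ sc s J ∧ (sc s J : ℝ) ≤ u ^ 3 := by
  have hs' : (2 : ℝ) ≤ s := by exact_mod_cast hs
  have hex : ∃ j, u ≤ sc s j := by
    refine ⟨⌈u⌉₊, (Nat.le_ceil u).trans ?_⟩
    have h1 : ⌈u⌉₊ < 3 ^ ⌈u⌉₊ := Nat.lt_pow_self (by norm_num)
    have h2 : 3 ^ ⌈u⌉₊ < s ^ 3 ^ ⌈u⌉₊ := Nat.lt_pow_self (by omega)
    exact_mod_cast (h1.trans h2).le
  classical
  refine ⟨Nat.find hex, Nat.find_spec hex, ?_⟩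
  rcases h : Nat.find hex with _ | k
  · have : sc s 0 = s := by simp [sc]
    rw [this]
    exact hu.trans (le_self_pow₀ (by linarith) (by norm_num))
  · have := Nat.find_min hex (show k < Nat.find hex by omega)
    rw [sc_succ]; push_cast
    gcongr
    exact (not_le.1 this).le

end Scales

open Scales in
theorem scales (h1 : S_M1) (hT : S_TK) (hM : S_MVT) (hS : S_Separate) (hMo : S_Moment)
    (hR : S_SmReg) : S_Scales := by
  obtain ⟨C1, hC1, h1⟩ := h1
  obtain ⟨C, hC, hS⟩ := hS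
  intro α δ hα hδ
  set a : ℝ := min α 1 / 2 with ha
  have ha0 : 0 < a := by have := lt_min hα one_pos; positivity
  have ha1 : a ≤ 1 := by have := min_le_right α 1; linarith
  have ha2 : 2 * a ≤ α := by have := min_le_left α 1; linarith
  set K : ℝ := 60000 + 2 * C * (80000 * (9000000 + 3840 / a ^ 5)) with hK
  have hK0 : 60000 ≤ K := by
    have : 0 ≤ 2 * C * (80000 * (9000000 + 3840 / a ^ 5)) := by positivity
    linarith
  obtain ⟨s, hs⟩ := exists_nat_ge (max (max (10 ^ 6) (2 / a))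
    (max (Real.exp (2 * C1 + 2)) (Real.exp (3 * K / δ))))
  simp only [max_le_iff] at hs
  obtain ⟨⟨hs1, hs2⟩, hs3, hs4⟩ := hs
  have hs1' : 10 ^ 6 ≤ s := by exact_mod_cast hs1
  have hs0 : (0 : ℝ) < s := by linarith
  have hl1 : 2 * C1 + 2 ≤ Real.log s := (Real.le_log_iff_exp_le hs0).2 hs3
  have hl2 : 3 * K / δ ≤ Real.log s := (Real.le_log_iff_exp_le hs0).2 hs4
  refine ⟨2 ^ s ^ 4, one_le_pow₀ (by norm_num), fun h hh => ?_⟩
  have hh1 : 1 ≤ h := le_trans (one_le_pow₀ (by norm_num)) hh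
  have hsh : Real.log s ≤ h := by
    have e1 : s < 2 ^ s ^ 4 := lt_of_le_of_lt (Nat.le_self_pow (by norm_num) s) Nat.lt_two_pow_self
    have e2 : (s : ℝ) ≤ 2 ^ s ^ 4 := by exact_mod_cast e1.le
    have := Real.log_le_sub_one_of_pos hs0
    linarith
  set u0 : ℝ := max (s : ℝ) (186 / a) with hu0
  have hu00 : 0 ≤ u0 := le_trans hs0.le (le_max_left _ _)
  refine ⟨⌈Real.exp (u0 ^ 24)⌉₊, fun X hX f hf => ?_⟩
  have hX0 : Real.exp (u0 ^ 24) ≤ X := Nat.ceil_le.1 hX
  have hX' : (0 : ℝ) < X := lt_of_lt_of_le (Real.exp_pos _) hX0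
  have hX1 : 1 ≤ X := by exact_mod_cast hX'
  have hx : u0 ^ 24 ≤ Real.log X := (Real.le_log_iff_exp_le hX').2 hX0
  have hx0 : 0 ≤ Real.log X := le_trans (by positivity) hx
  set u : ℝ := Real.log X ^ ((24 : ℕ) : ℝ)⁻¹ with hu
  have hu24 : u ^ 24 = Real.log X := Real.rpow_inv_natCast_pow hx0 (by norm_num)
  have huu : u0 ≤ u := by
    rw [← pow_le_pow_iff_left₀ hu00 (Real.rpow_nonneg hx0 _) (show 24 ≠ 0 by norm_num), hu24]
    exact hx
  have hsu : (s : ℝ) ≤ u := (le_max_left _ _).trans huu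
  have hau : 186 / a ≤ u := (le_max_right _ _).trans huu
  obtain ⟨J, hJ1, hJ2⟩ := exists_J (by omega) hsu
  have hT0 : 0 < X / h := by positivity
  set U : Set ℝ := Set.Icc (-(X : ℝ)) X ∩
    ⋃ v ∈ W s J, {t | Real.exp (-(bt a s J * v)) < phi f v t} with hU
  have hUm : MeasurableSet U :=
    measurableSet_Icc.inter (Finset.measurableSet_biUnion _ fun v _ =>
      (isOpen_lt continuous_const (hR _ _).1).measurableSet)
  have hUi : ∀ t, t ∈ U ↔ |t| ≤ X ∧ ¬ Good f a s J t := by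
    intro t
    unfold Good
    rw [hU, Set.mem_inter_iff, Set.mem_Icc, abs_le]
    simp
  refine ⟨U, hUm, Set.inter_subset_left, ?_, ?_⟩
  · refine (vol_le hMo hR hf hX1 ha0 ha1 (hs1.trans hsu) hau hu24 hJ1 hJ2 hUm
      (fun t ht => (hUi t).1 ht)).trans ?_
    rw [Real.rpow_def_of_pos hX', hu24, mul_comm]
    exact Real.exp_le_exp.2 (mul_le_mul_of_nonneg_left ha2 hx0)
  have hL : ∀ j, Real.log (sc s j) / 2 ≤ rs (Pb (sc s j ^ 2) (sc s j ^ 4)) ∧ 2 ≤ Real.log (sc s j) := by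
    intro j
    have e1 := le_sc (show 1 ≤ s by omega) j
    have e2 := rs_block h1 (show 2 ≤ sc s j by omega)
    have e3 : Real.log s ≤ Real.log (sc s j) := Real.log_le_log hs0 (by exact_mod_cast e1)
    constructor <;> linarith
  have hbF : BC (fun t => ‖Fx f X t‖ ^ 2) := bc_dir _ _
  have hbg : BC (fun t => ∑ j ∈ range (J + 1), g C f X a s j t) :=
    BC.sum _ fun j _ => bc_g hR C f X a s j
  have e1 : ∫ t in Uᶜ, cw (X / h) t * ‖Fx f X t‖ ^ 2 ≤
      ∫ t, (2 / h ^ 2 * (cw X t * ‖Fx f X t‖ ^ 2) +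
        cw (X / h) t * ∑ j ∈ range (J + 1), g C f X a s j t) := by
    rw [← integral_indicator hUm.compl]
    refine integral_mono_of_nonneg (Filter.Eventually.of_forall fun t => ?_)
      (((hbF.int hX').const_mul _).add (hbg.int hT0)) (Filter.Eventually.of_forall fun t => ?_)
    · exact Set.indicator_nonneg (fun t _ => mul_nonneg (cw_pos _ _).le (by positivity)) t
    · have p1 : 0 ≤ 2 / h ^ 2 * (cw X t * ‖Fx f X t‖ ^ 2) := by have := cw_pos X t; positivity
      have p2 : 0 ≤ ∑ j ∈ range (J + 1), g C f X a s j t :=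
        sum_nonneg fun j _ => g_nonneg hR hC f X a s j t
      have p3 := cw_pos (X / h) t
      beta_reduce
      by_cases ht : t ∈ Uᶜ
      · rw [Set.indicator_of_mem ht]
        rw [Set.mem_compl_iff, hUi, not_and_or, not_le, not_not] at ht
        rcases ht with ht | ht
        · have := mul_le_mul_of_nonneg_right (cw_far hX' hh1 ht.le) (sq_nonneg ‖Fx f X t‖)
          have p4 := mul_nonneg p3.le p2
          nlinarith
        · classical
          have hex : ∃ j, Good f a s j t := ⟨J, ht⟩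
          set j := Nat.find hex with hj
          have hjJ : j ≤ J := Nat.find_min' hex ht
          have hg : Good f a s j t := Nat.find_spec hex
          have q1 := point hS hf hX1 (A := sc s j ^ 2) (B := sc s j ^ 4)
            (Nat.pow_le_pow_right (by have := le_sc (show 1 ≤ s by omega) j; omega) (by norm_num))
            (by linarith [(hL j).1, (hL j).2]) t
          have q2 : ‖Fx f X t‖ ^ 2 ≤ g C f X a s j t := by
            refine q1.trans ?_
            unfold g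
            refine add_le_add le_rfl (mul_le_mul_of_nonneg_left (sum_le_sum fun v hv => ?_)
              (by positivity))
            exact mul_le_mul (hg v hv) (rr_le_Q hR (fun i hi => Nat.find_min hex hi) v)
              (rr_nonneg hR f X v t) (Real.exp_pos _).le
          have q3 := q2.trans (single_le_sum (f := fun j => g C f X a s j t)
            (fun j _ => g_nonneg hR hC f X a s j t) (mem_range.2 (Nat.lt_succ_of_le hjJ)))
          have := mul_le_mul_of_nonneg_left q3 p3.le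
          linarith
      · rw [Set.indicator_of_notMem ht]
        have p4 := mul_nonneg p3.le p2
        linarith
  rw [integral_add ((hbF.int hX').const_mul _) (hbg.int hT0), integral_const_mul] at e1
  have e2 := I_sum (range (J + 1)) (fun j _ => bc_g hR C f X a s j) hT0
  have hls : 0 < Real.log s := by linarith
  have e3 : ∀ j ∈ range (J + 1), I (X / h) (g C f X a s j) ≤ K / Real.log s * (1 / 2) ^ j := by
    intro j hj
    have hjJ : j ≤ J := Nat.lt_succ_iff.1 (mem_range.1 hj)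
    have hB : 2 ^ sc s j ^ 4 ≤ X := by
      have r1 : (sc s j : ℝ) ≤ u ^ 3 :=
        le_trans (by exact_mod_cast sc_mono (show 1 ≤ s by omega) hjJ) hJ2
      have r2 : (sc s j : ℝ) ^ 4 ≤ u ^ 24 := by
        calc _ ≤ (u ^ 3) ^ 4 := by gcongr
          _ = u ^ 12 := by ring
          _ ≤ _ := pow_le_pow_right₀ (by linarith) (by norm_num)
      have r3 : (2 : ℝ) ^ sc s j ^ 4 ≤ X := by
        rw [← Real.exp_log hX', ← hu24]
        refine pow_le_exp (by norm_num) ?_
        have : Real.log 2 ≤ 1 := by have := Real.log_two_lt_d9; linarith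
        have r4 : (0 : ℝ) ≤ (sc s j : ℝ) ^ 4 := by positivity
        push_cast
        nlinarith
      exact_mod_cast r3
    have r5 := int_Dv hT hM hf hX1 (A := sc s j ^ 2) hB (by linarith [(hL j).1, (hL j).2]) hT0
      (div_le_self hX'.le hh1)
    have r6 := int_Q hMo hR hf hX1 ha0 ha1 hs1' hs2 hh j
    have r7 : I (X / h) (g C f X a s j) =
        2 * I (X / h) (fun t => ‖Dv f X (Pb (sc s j ^ 2) (sc s j ^ 4)) t‖ ^ 2) +
        2 * C * (((sc s j ^ 4 : ℕ) : ℝ) * ∑ v ∈ W s j,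
          Real.exp (-(bt a s j * v)) * I (X / h) (Q f X a s j v)) := by
      have hD : BC (fun t => ‖Dv f X (Pb (sc s j ^ 2) (sc s j ^ 4)) t‖ ^ 2) := bc_dir _ _
      unfold g
      rw [I_add (hD.cmul 2) ((BC.sum _ fun v _ => (bc_Q hR f X a s j v).cmul _).cmul _) hT0,
        I_cmul, I_cmul, I_sum _ (fun v _ => (bc_Q hR f X a s j v).cmul _) hT0,
        sum_congr rfl fun v _ => I_cmul _ _ _]
      ring
    have r8 : 15000 / rs (Pb (sc s j ^ 2) (sc s j ^ 4)) ≤ 30000 / Real.log (sc s j) := by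
      rw [div_le_div_iff₀ (by linarith [(hL j).1, (hL j).2]) (by linarith [(hL j).2])]
      linarith [(hL j).1]
    have r9 : K / Real.log (sc s j) ≤ K / Real.log s * (1 / 2) ^ j := by
      rw [log_sc, one_div, inv_pow, ← div_eq_mul_inv, div_div, mul_comm (Real.log s)]
      gcongr
      norm_num
    refine le_trans ?_ r9
    rw [r7, hK, add_div]
    refine add_le_add ?_ ?_
    · have : I (X / h) (fun t => ‖Dv f X (Pb (sc s j ^ 2) (sc s j ^ 4)) t‖ ^ 2) ≤ _ := r5.trans r8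
      have e : (60000 : ℝ) / Real.log (sc s j) = 2 * (30000 / Real.log (sc s j)) := by ring
      linarith
    · rw [mul_div_assoc]
      exact mul_le_mul_of_nonneg_left r6 (by positivity)
  have e4 : ∑ j ∈ range (J + 1), I (X / h) (g C f X a s j) ≤ K / Real.log s * 2 := by
    refine (sum_le_sum e3).trans ?_
    rw [← mul_sum]
    exact mul_le_mul_of_nonneg_left (sum_geometric_two_le _) (by positivity)
  have e5 : 2 / h ^ 2 * ∫ t, cw X t * ‖Fx f X t‖ ^ 2 ≤ K / Real.log s := by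
    calc _ ≤ 2 / h ^ 2 * 5000 := by
          gcongr
          exact int_Fx hM hf hX1
      _ = 10000 / h ^ 2 := by ring
      _ ≤ _ := div_le_div₀ (by linarith) (by linarith) hls (by nlinarith)
  have e6 : 3 * (K / Real.log s) ≤ δ := by
    rw [← mul_div_assoc, div_le_iff₀ hls]
    rw [div_le_iff₀ hδ] at hl2
    linarith
  unfold I at e2
  rw [e2] at e1
  unfold I at e4
  linarith

end Pool.Agent.P.MP_a14ce1_nt.Ch
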