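import Pool.Agent.P.MP_a14ce1_nt.Ch.SysC

/-!
Construction of the cofactor system.
-/

open Finset Filter

namespace Pool.Agent.P.MP_a14ce1_nt.Ch

namespace SysP

theorem coprime_of_lt {a : ℕ} (ha : 0 < a) {p : ℕ} {g : Finset ℕ} (hp : p.Prime) (hpa : a < p)
    (hg : ∀ q ∈ g, q.Prime ∧ a < q) : Nat.Coprime (p * pv g) a := by
  refine Nat.Coprime.mul_left (Nat.coprime_of_lt_prime ha.ne' hpa hp).symm.symm ?_
  unfold pv
  exact Nat.Coprime.prod_left fun q hq =>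
    (Nat.coprime_of_lt_prime ha.ne' (hg q hq).2 (hg q hq).1).symm.symm

/-- the construction at a fixed large scale x = 2 ^ n -/
theorem build {C C2 C0 cF C1 : ℝ} (hC : 0 < C) (hC0 : 2 ≤ C0) (hcF : 0 < cF)
    (hC1 : 0 < C1)
    (M1 : ∀ u v : ℝ, 2 ≤ u → u ≤ v → |rs (pr u v) - Real.log (Real.log v / Real.log u)| ≤ C)
    (M2 : ∀ y : ℝ, 1 ≤ y → |∑ p ∈ pr 0 y, Real.log p / p - Real.log y| ≤ C2)
    (hL2 : ∀ (G : Finset ℕ) (x : ℝ), 1 ≤ x → (∀ q ∈ G, q.Prime ∧ 128 ≤ q) →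
      (∀ t : ℝ, 2 ≤ t → 4 / 5 * Real.log (x / Real.log t) - (2 * C + 1) ≤
        rs (G.filter (fun q => t < (q : ℝ)))) →
      ∀ s : ℝ, 0 < s → ∑ T ∈ G.powerset, mu G T * (deg s T) ^ 2 / Vw G T ≤ C1 * (Zc G / x) ^ 2)
    {a h : ℕ} {ε : ℝ} (ha : 0 < a) (hh : 0 < h) (hε : 0 < ε) (hε2 : ε ≤ 1 / 2)
    {J : ℕ} (hJ0 : 0 < J) (hJ : C0 < (1 + ε) ^ J) {ρ M L0 K δ : ℝ} (hρ : 0 < ρ) (hM : M = 3 * C1 / ρ)
    (hK : 2 ≤ K) (hKL : |L0| + 1 + C ≤ Real.log K) (hδ : 0 < δ) (hδ1 : δ ≤ 1)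
    (hδ2 : δ ≤ ρ / (576 * M)) {T0 : ℕ} (hT0 : 0 < T0)
    (hT : (Real.log (1 / (δ / K ^ 9)) + C) / T0 ≤ δ) (P0 : ℕ) {x : ℝ} {n : ℕ} (hxn : x = 2 ^ n)
    (hFirst : ∀ (G : Finset ℕ), (∀ q ∈ G, q.Prime ∧ (q : ℝ) ≤ Real.exp x) →
      (∀ q : ℕ, q.Prime → Real.exp (x / 2) < q → (q : ℝ) ≤ Real.exp x → q ∈ G) →
      ∀ s : ℝ, Real.exp (3 * x / 4) ≤ s → C0 * s ≤ Real.exp x → cF * Zc G / x ≤
        ∑ g ∈ G.powerset.filter (fun g => s < (pv g : ℝ) ∧ (pv g : ℝ) ≤ C0 * s),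
          (63 : ℝ) ^ g.card / pv g)
    (e2 : (43 : ℝ) + a ≤ x) (e3 : (16 + P0 + h + a + C0) * x ≤ Real.exp (x / K ^ 9))
    (e4 : Real.log (Real.log (3 * x)) + Real.log K ≤ Real.log x / 5)
    (e5 : K ^ 9 / δ ≤ x) (e6 : C2 * K ^ 9 / δ ≤ x)
    (e7 : Real.exp (C + 1) * ((C1 + 1) / 2) * Real.exp (-(1 / 20 * Real.log x)) ≤ ρ / 3)
    (e8 : 4 * 2 ^ T0 / M * Real.exp (-(1 / 10 * Real.log x)) ≤ 1)
    (e9 : 8 * h * (1 + ε) ^ J + 4 ≤ x) :
    Nonempty (Sys a h ε (cF / (J * a)) ρ M L0 (K ^ 9) P0) := by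
  have a0 : (0 : ℝ) ≤ a := Nat.cast_nonneg a
  have h1r : (1 : ℝ) ≤ h := by exact_mod_cast hh
  have P00 : (0 : ℝ) ≤ P0 := Nat.cast_nonneg P0
  have hx : 1 ≤ x := by linarith
  have hx0 : 0 < x := by linarith
  have hM0 : 0 < M := by rw [hM]; positivity
  have hK9 : 0 < K ^ 9 := by positivity
  have hK91 : 1 ≤ K ^ 9 := one_le_pow₀ (by linarith)
  have hy : 0 < x / K ^ 9 := by positivity
  have big : ∀ B : ℝ, B ≤ 16 + P0 + h + a + C0 → B ≤ Real.exp (x / K ^ 9) := fun B hB => by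
    have : 16 + P0 + h + a + C0 ≤ (16 + P0 + h + a + C0) * x := by
      have : (0 : ℝ) ≤ 16 + P0 + h + a + C0 := by linarith
      exact le_mul_of_one_le_right this hx
    linarith
  have h16 : 16 * x ≤ Real.exp (x / K ^ 9) := by
    have : 16 * x ≤ (16 + P0 + h + a + C0) * x := by
      have : (16 : ℝ) ≤ 16 + P0 + h + a + C0 := by linarith
      gcongr
    linarith
  have h3 : 3 * x ≤ Real.exp (x / K ^ 9) := by linarith
  have h98 := div9_le_div8 hK hx0.le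
  have h84 := div8_le hK hx0.le
  have hGp : ∀ q ∈ GG K x, q.Prime := fun q hq => ((mem_GG hx0.le).1 hq).1.1
  have hGx : ∀ q ∈ GG K x, q.Prime ∧ (q : ℝ) ≤ Real.exp x := fun q hq =>
    ⟨hGp q hq, ((mem_GG hx0.le).1 hq).1.2.2⟩
  have hG3 : ∀ q ∈ GG K x, 3 * x < (q : ℝ) := fun q hq => ((mem_GG hx0.le).1 hq).1.2.1
  have hG1 := G1 hC M1 hK hx h3 e4
  have hL := hL2 (GG K x) x hx (fun q hq => ⟨hGp q hq, by
    have := hG3 q hq
    have h128 : (128 : ℝ) ≤ q := by linarith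
    exact_mod_cast h128⟩) hG1
  have hF := hFirst (GG K x) hGx (fun q hq b1 b2 => by
    have c1 : Real.exp (x / K ^ 8) ≤ Real.exp (x / 2) := Real.exp_le_exp.2 (by linarith)
    have c2 := Real.exp_le_exp.2 h98
    refine (mem_GG hx0.le).2 ⟨⟨hq, by linarith, b2⟩, fun hq' => ?_⟩
    have := (mem_II.1 hq').2.2
    linarith)
  have hI0 : ∀ p ∈ II K x, C0 ≤ (p : ℝ) ∧ (p : ℝ) ≤ Real.exp (x / 4) := fun p hp => by
    obtain ⟨_, b2, b3⟩ := mem_II.1 hp
    exact ⟨(big C0 (by linarith)).trans b2.le, b3.trans (Real.exp_le_exp.2 h84)⟩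
  obtain ⟨j, c0, E, hj, hE, hwin, hcong, hmass⟩ :=
    mass (II K x) (GG K x) hx0 hε hJ0 hJ ha (by linarith) hI0 hF
  have hrs := (abs_le.1 (rsI M1 hK hx h3)).1
  have hrs1 : |L0| + 1 ≤ rs (II K x) := by linarith
  have hL0 := le_abs_self L0
  have hL00 := abs_nonneg L0
  set D := Real.exp x * (1 + ε) ^ j with hD
  have hD0 : 0 < D := by positivity
  have hpw : (1 + ε) ^ j ≤ (1 + ε) ^ J := pow_le_pow_right₀ (by linarith) hj.le
  have hpJ : 0 < (1 + ε) ^ J := by positivity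
  have hxe : x ≤ Real.exp x := by linarith [Real.add_one_le_exp x]
  have hex := Real.exp_pos x
  have hDle : D ≤ Real.exp x * (1 + ε) ^ J := by rw [hD]; gcongr
  set N := Real.exp (7 / 20 * Real.log x) with hN
  have hN0 : 0 < N := Real.exp_pos _
  set Y := Real.exp (δ / K ^ 9 * x) with hY
  have hH : Real.exp (x / K ^ 9) < ((⌊Real.exp (x / K ^ 9)⌋₊ + 1 : ℕ) : ℝ) := by
    rw [Nat.cast_add, Nat.cast_one]; exact Nat.lt_floor_add_one _
  have hEI : ∀ p g, (p, g) ∈ E → p ∈ II K x ∧ g ⊆ GG K x := fun p g he => by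
    have := mem_product.1 (hE he)
    exact ⟨this.1, mem_powerset.1 this.2⟩
  have hP : ∀ p ∈ II K x, ∀ g, (p, g) ∈ E → D / p ≤ (pv g : ℝ) ∧ (pv g : ℝ) < 2 * (D / p) := by
    intro p hp g he
    have p0 : (0 : ℝ) < p := by exact_mod_cast (mem_II.1 hp).1.pos
    obtain ⟨w1, w2⟩ := hwin _ he
    simp only [Nat.cast_mul] at w1 w2
    rw [div_le_iff₀ p0, ← mul_div_assoc, lt_div_iff₀ p0]
    have w3 : (1 + ε) * D ≤ 2 * D := mul_le_mul_of_nonneg_right (by linarith) hD0.le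
    constructor
    · linarith
    · linarith
  have hcop : Nat.Coprime c0 a := by
    have hne : E.Nonempty := by
      rw [nonempty_iff_ne_empty]
      intro he
      rw [he, sum_empty] at hmass
      have j0 : (0 : ℝ) < J := by exact_mod_cast hJ0
      have a1 : (0 : ℝ) < a := by exact_mod_cast ha
      have : 0 < cF / (J * a) * rs (II K x) := mul_pos (by positivity) (by linarith)
      linarith
    obtain ⟨⟨p, g⟩, he⟩ := hne
    obtain ⟨b1, b2⟩ := hEI p g he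
    have c1 : Nat.Coprime (p * pv g) a := by
      refine coprime_of_lt ha (mem_II.1 b1).1 ?_ (fun q hq => ⟨hGp q (b2 hq), ?_⟩)
      · have := (big a (by linarith)).trans_lt (mem_II.1 b1).2.1
        exact_mod_cast this
      · have := hG3 q (b2 hq)
        have c2 : (a : ℝ) < q := by linarith
        exact_mod_cast c2
    have c2 := hcong _ he
    unfold Nat.Coprime
    rw [← Nat.ModEq.gcd_eq c2]
    exact c1
  have h2i : (2 : ℝ) ^ (n + 1) = 2 * x := by rw [hxn, pow_succ]; ring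
  refine ⟨{
    I := II K x
    G := GG K x
    H := ⌊Real.exp (x / K ^ 9)⌋₊ + 1
    D := D
    c0 := c0
    E := E
    w := wt (GG K x) x
    V := Vw (GG K x)
    gd := fun p T => gdd (GG K x) x (D / p) M N Y (x / K ^ 9) T0 (fun g => (p, g) ∈ E) T
    η := 2 ^ T0 * (x / N ^ 6) / M
    i := n + 1
    hI := fun p hp => ⟨(mem_II.1 hp).1, (Nat.floor_lt (Real.exp_pos _).le).2 (mem_II.1 hp).2.1⟩
    hG := hGp
    disj := disjoint_sdiff
    hP0 := ?_
    hh := ?_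
    hL := by linarith
    hD := hD0
    hE := hE
    win := hwin
    cong := hcong
    cop := hcop
    w_nonneg := wt_nonneg _ hx0
    mass := hmass
    total := ?_
    V_pos := Vw_pos _
    V_mean := (V_mean _).le
    gd_sub := fun p T => gdd_sub _ _ _ _ _ _ _ _ _ _
    row := fun p hp T _ => row_le _ hx0 _ hM0 _ _ _ _ _ (hP p hp) T
    cls := ?_
    removed := ?_
    η_nonneg := by positivity
    hm1 := ?_
    hm2 := ?_
    hm3 := ?_ }⟩
  · have := (big P0 (by linarith)).trans hH.le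
    exact_mod_cast this
  · have := (big h (by linarith)).trans_lt hH
    exact_mod_cast this
  · have e : ∑ g ∈ (GG K x).powerset, wt (GG K x) x g / (pv g : ℝ) = x := by
      have hz := Zc_pos (GG K x)
      have : ∑ g ∈ (GG K x).powerset, wt (GG K x) x g / (pv g : ℝ) =
          x / Zc (GG K x) * ∑ g ∈ (GG K x).powerset, (63 : ℝ) ^ g.card / (pv g : ℝ) := by
        rw [mul_sum]
        exact sum_congr rfl fun g _ => by unfold wt; ring
      rw [this, total]; field_simp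
    rw [e]
    have := Real.log_le_log (Real.exp_pos _) hH.le
    rw [Real.log_exp, div_le_iff₀ hK9] at this
    linarith
  · intro p _ p' hp' T hT r
    have := cls_le hGp hx0 (D / p) M hN0 Y hy hT0 (fun g => (p, g) ∈ E) (mem_II.1 hp').1
      (fun hq => ((mem_GG hx0.le).1 hq).2 hp') (mem_II.1 hp').2.1.le hT r
    refine this.trans (le_of_eq ?_)
    field_simp
  · intro p hp
    have p0 : (0 : ℝ) < p := by exact_mod_cast (mem_II.1 hp).1.pos
    have p1 : (1 : ℝ) ≤ p := by exact_mod_cast (mem_II.1 hp).1.pos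
    have hP1 : ∀ g, (p, g) ∈ E → rs g ≤ 1 := fun g he => by
      have b2 := (hEI p g he).2
      refine rs_le_one hx (fun q hq => ⟨hGp q (b2 hq), hG3 q (b2 hq)⟩) ?_
      have c1 := (hP p hp g he).2
      have c2 : D / p ≤ D := div_le_self hD0.le p1
      have c0' : 1 * (1 + ε) ^ J ≤ h * (1 + ε) ^ J := mul_le_mul_of_nonneg_right h1r hpJ.le
      have c3 : 2 * (1 + ε) ^ J ≤ x := by linarith
      have c4 : Real.exp x * Real.exp x ≤ Real.exp (3 * x) := by
        rw [← Real.exp_add]; exact Real.exp_le_exp.2 (by linarith)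
      have c5 : Real.exp x * (2 * (1 + ε) ^ J) ≤ Real.exp x * Real.exp x := by
        gcongr; linarith
      linarith
    have hr := removed_le (GG K x) hx0 (D / p) hM0 hN0 Y hy T0 (fun g => (p, g) ∈ E) (hP p hp) hP1 C1
      (hL _ (by positivity))
    refine hr.trans ?_
    have t1 : C1 / M = ρ / 3 := by rw [hM]; field_simp
    have t2 : N * (Real.exp (-(rs (GG K x) - 1) / 2) * ((C1 + 1) / 2)) ≤ ρ / 3 := by
      have b1 := hG1 (Real.exp 1) (by linarith [Real.add_one_le_exp 1])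
      rw [Real.log_exp, div_one] at b1
      have b2 := b1.trans (rs_mono (filter_subset _ _))
      have b3 : N * Real.exp (-(rs (GG K x) - 1) / 2) ≤
          Real.exp (C + 1) * Real.exp (-(1 / 20 * Real.log x)) := by
        rw [hN, ← Real.exp_add, ← Real.exp_add]
        exact Real.exp_le_exp.2 (by linarith)
      calc N * (Real.exp (-(rs (GG K x) - 1) / 2) * ((C1 + 1) / 2))
          = N * Real.exp (-(rs (GG K x) - 1) / 2) * ((C1 + 1) / 2) := by ring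
        _ ≤ Real.exp (C + 1) * Real.exp (-(1 / 20 * Real.log x)) * ((C1 + 1) / 2) := by gcongr
        _ = Real.exp (C + 1) * ((C1 + 1) / 2) * Real.exp (-(1 / 20 * Real.log x)) := by ring
        _ ≤ ρ / 3 := e7
    have t3 : M * (64 * ∑ q ∈ GG K x, cost Y (x / K ^ 9) T0 q / q) ≤ ρ / 3 := by
      have g0 : 0 < δ / K ^ 9 := by positivity
      have g1 : δ / K ^ 9 ≤ 1 := (div_le_one hK9).2 (by linarith)
      have g2 : 1 ≤ δ / K ^ 9 * x := by
        rw [div_le_iff₀ hδ] at e5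
        rw [div_mul_eq_mul_div, le_div_iff₀ hK9]; linarith
      have g3 : 2 ≤ Real.exp (δ / K ^ 9 * x) := by linarith [Real.add_one_le_exp (δ / K ^ 9 * x)]
      have b1 := cost_sum M1 M2 hx0 g0 g1 g3 hy hGx T0
      have b2 : (δ / K ^ 9 * x + C2) / (x / K ^ 9) ≤ 2 * δ := by
        rw [div_le_iff₀ hδ] at e6
        rw [div_le_iff₀ hy]
        have : C2 ≤ δ * (x / K ^ 9) := by
          rw [← mul_div_assoc, le_div_iff₀ hK9]; linarith
        have e : δ / K ^ 9 * x = δ * (x / K ^ 9) := by ring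
        rw [e]; linarith
      have b3 : ∑ q ∈ GG K x, cost Y (x / K ^ 9) T0 q / q ≤ 3 * δ := by linarith
      rw [le_div_iff₀ (by positivity)] at hδ2
      calc M * (64 * ∑ q ∈ GG K x, cost Y (x / K ^ 9) T0 q / q) ≤ M * (64 * (3 * δ)) := by gcongr
        _ ≤ ρ / 3 := by linarith
    linarith
  · rw [h2i]
    have e : x * (x / N ^ 6) = Real.exp (-(1 / 10 * Real.log x)) := by
      rw [hN, ← Real.exp_nat_mul, ← mul_div_assoc, div_eq_iff (Real.exp_pos _).ne', ← Real.exp_add]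
      have : -(1 / 10 * Real.log x) + ((6 : ℕ) : ℝ) * (7 / 20 * Real.log x) = Real.log x + Real.log x := by
        push_cast; ring
      rw [this, Real.exp_add, Real.exp_log hx0]
    calc 2 * (2 * x) * (2 ^ T0 * (x / N ^ 6) / M) = 4 * 2 ^ T0 / M * (x * (x / N ^ 6)) := by ring
      _ ≤ 1 := by rw [e]; exact e8
  · have : (4 : ℝ) * 2 ^ (n + 1) ≤ ((⌊Real.exp (x / K ^ 9)⌋₊ + 1 : ℕ) : ℝ) := by
      rw [h2i]; linarith
    exact_mod_cast this
  · have b1 : Real.exp x * Real.exp x ≤ (4 : ℝ) ^ 2 ^ (n + 1) := by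
      have c1 : Real.exp x * Real.exp x = Real.exp 1 ^ 2 ^ (n + 1) := by
        rw [← Real.exp_add, ← Real.exp_nat_mul]
        congr 1
        push_cast
        rw [h2i]; ring
      rw [c1]
      have := Real.exp_one_lt_d9
      exact pow_le_pow_left₀ (Real.exp_pos _).le (by linarith) _
    have b2 : 8 * h * D ≤ 8 * h * (Real.exp x * (1 + ε) ^ J) := by gcongr
    have b3 : (8 * h * (1 + ε) ^ J + 4) * Real.exp x ≤ Real.exp x * Real.exp x := by
      gcongr; linarith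
    have b4 : 1 ≤ Real.exp x := by linarith
    linarith

end SysP

open SysP in
theorem sys (h1 : S_M1) (h2 : S_M2) (hL : S_L2) (hF : S_First) : S_Sys := by
  obtain ⟨C, hC, M1⟩ := h1
  obtain ⟨C2, _, M2⟩ := h2
  obtain ⟨C0, cF, x0, hC0, hcF, hFirst⟩ := hF
  obtain ⟨C1, hC1, hL2⟩ := hL (2 * C + 1)
  intro a h ε ha hh hε hε2
  obtain ⟨J, hJ⟩ := pow_unbounded_of_one_lt C0 (by linarith : 1 < 1 + ε)
  have hJ0 : 0 < J := by
    rcases Nat.eq_zero_or_pos J with e | e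
    · rw [e, pow_zero] at hJ; linarith
    · exact e
  have j0 : (0 : ℝ) < J := by exact_mod_cast hJ0
  have a0 : (0 : ℝ) < a := by exact_mod_cast ha
  refine ⟨cF / (J * a), by positivity, fun ρ hρ => ⟨3 * C1 / ρ, by positivity, fun L0 => ?_⟩⟩
  set K := Real.exp (|L0| + 1 + C) with hKdef
  have hK : 2 ≤ K := by
    have := Real.add_one_le_exp (|L0| + 1 + C)
    have := abs_nonneg L0
    linarith
  have hKL : |L0| + 1 + C ≤ Real.log K := by rw [hKdef, Real.log_exp]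
  refine ⟨K ^ 9, by positivity, fun P0 => ?_⟩
  set δ := min 1 (ρ / (576 * (3 * C1 / ρ))) with hδdef
  have hδ : 0 < δ := lt_min one_pos (by positivity)
  set T0 := ⌈(Real.log (1 / (δ / K ^ 9)) + C) / δ⌉₊ + 1 with hT0def
  have hT0 : 0 < T0 := Nat.succ_pos _
  have hT : (Real.log (1 / (δ / K ^ 9)) + C) / T0 ≤ δ := by
    have t0 : (0 : ℝ) < T0 := by exact_mod_cast hT0
    have b1 := Nat.le_ceil ((Real.log (1 / (δ / K ^ 9)) + C) / δ)
    have b2 : ((⌈(Real.log (1 / (δ / K ^ 9)) + C) / δ⌉₊ : ℕ) : ℝ) ≤ T0 := by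
      rw [hT0def]; push_cast; linarith
    have b3 := b1.trans b2
    rw [div_le_iff₀ hδ] at b3
    rw [div_le_iff₀ t0]; linarith
  have hev : ∀ᶠ x : ℝ in atTop, x0 ≤ x ∧ (43 : ℝ) + a ≤ x ∧
      (16 + P0 + h + a + C0) * x ≤ Real.exp (x / K ^ 9) ∧
      Real.log (Real.log (3 * x)) + Real.log K ≤ Real.log x / 5 ∧
      K ^ 9 / δ ≤ x ∧ C2 * K ^ 9 / δ ≤ x ∧
      Real.exp (C + 1) * ((C1 + 1) / 2) * Real.exp (-(1 / 20 * Real.log x)) ≤ ρ / 3 ∧
      4 * 2 ^ T0 / (3 * C1 / ρ) * Real.exp (-(1 / 10 * Real.log x)) ≤ 1 ∧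
      8 * h * (1 + ε) ^ J + 4 ≤ x :=
    (eventually_ge_atTop _).and <| (eventually_ge_atTop _).and <| (ev_lin _ (by positivity)).and <|
      (ev_loglog _).and <| (eventually_ge_atTop _).and <| (eventually_ge_atTop _).and <|
      (ev_exp_log _ (by norm_num) (by positivity)).and <|
      (ev_exp_log _ (by norm_num) one_pos).and (eventually_ge_atTop _)
  obtain ⟨n, e1, e2, e3, e4, e5, e6, e7, e8, e9⟩ :=
    ((tendsto_pow_atTop_atTop_of_one_lt (one_lt_two (α := ℝ))).eventually hev).exists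
  exact build hC hC0 hcF hC1 M1 M2 hL2 ha hh hε hε2 hJ0 hJ hρ rfl hK hKL hδ (min_le_left _ _)
    (min_le_right _ _) hT0 hT P0 rfl (fun G => hFirst G _ e1) e2 e3 e4 e5 e6 e7 e8 e9

end Pool.Agent.P.MP_a14ce1_nt.Ch
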