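import Pool.Agent.P.MP_a14ce1_nt.Ch.Defs

/-! The Turan-Kubilius inequality for the number of prime divisors in a set. -/

open Finset

namespace Pool.Agent.P.MP_a14ce1_nt.Ch

namespace TK

theorem om_eq (P : Finset ℕ) (n : ℕ) : om P n = ∑ p ∈ P, if p ∣ n then (1 : ℝ) else 0 := by
  rw [om, ← sum_filter]; simp

theorem count (N d : ℕ) : ∑ n ∈ Icc 1 N, (if d ∣ n then (1 : ℝ) else 0) = ((N / d : ℕ) : ℝ) := by
  have hI : Icc 1 N = Ioc 0 N := by ext n; simp only [mem_Icc, mem_Ioc]; omega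
  rw [hI, ← sum_filter, ← Nat.Ioc_filter_dvd_card_eq_div]
  simp

theorem first (P : Finset ℕ) (N : ℕ) (hP : ∀ p ∈ P, p.Prime) :
    N * rs P - P.card ≤ ∑ n ∈ Icc 1 N, om P n := by
  simp only [om_eq]
  rw [sum_comm, rs, mul_sum, card_eq_sum_ones, Nat.cast_sum, ← sum_sub_distrib]
  refine sum_le_sum fun p hp => ?_
  rw [count]
  have hp0 := (hP p hp).pos
  have hp1 : (0 : ℝ) < p := by exact_mod_cast hp0
  have : (N : ℝ) / p ≤ ((N / p : ℕ) : ℝ) + 1 := by
    rw [div_le_iff₀ hp1]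
    have := Nat.lt_div_mul_add (a := N) hp0
    have h' : (N : ℝ) < ((N / p : ℕ) : ℝ) * p + p := by exact_mod_cast this
    linarith
  rw [mul_one_div]
  push_cast
  linarith

theorem second (P : Finset ℕ) (N : ℕ) (hP : ∀ p ∈ P, p.Prime) :
    ∑ n ∈ Icc 1 N, (om P n) ^ 2 ≤ N * (rs P) ^ 2 + N * rs P := by
  have h1 : ∀ n, (om P n) ^ 2 = ∑ p ∈ P, ∑ q ∈ P,
      (if p ∣ n then (1 : ℝ) else 0) * (if q ∣ n then (1 : ℝ) else 0) := fun n => by
    rw [om_eq, sq, sum_mul_sum]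
  have h2 : N * (rs P) ^ 2 + N * rs P = ∑ p ∈ P, ∑ q ∈ P,
      ((N : ℝ) * (1 / p * (1 / q)) + if q = p then (N : ℝ) * (1 / p) else 0) := by
    simp only [sum_add_distrib]
    congr 1
    · rw [rs, sq, sum_mul_sum, mul_sum]
      exact sum_congr rfl fun p _ => by rw [mul_sum]
    · rw [rs, mul_sum]
      exact sum_congr rfl fun p hp => by rw [sum_ite_eq' P p, if_pos hp]
  simp only [h1]
  rw [h2, sum_comm]
  refine sum_le_sum fun p hp => ?_
  rw [sum_comm]
  refine sum_le_sum fun q hq => ?_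
  by_cases h : q = p
  · subst h
    rw [if_pos rfl]
    have e : ∀ n, (if q ∣ n then (1 : ℝ) else 0) * (if q ∣ n then (1 : ℝ) else 0) =
        if q ∣ n then (1 : ℝ) else 0 := fun n => by split_ifs <;> simp
    simp only [e]
    rw [count]
    have h3 : ((N / q : ℕ) : ℝ) ≤ (N : ℝ) / q := Nat.cast_div_le
    have h4 : 0 ≤ (N : ℝ) * (1 / q * (1 / q)) := by positivity
    rw [mul_one_div (N : ℝ) q]
    linarith
  · rw [if_neg h, add_zero]
    have hc : Nat.Coprime p q := (Nat.coprime_primes (hP p hp) (hP q hq)).2 (Ne.symm h)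
    have e : ∀ n, (if p ∣ n then (1 : ℝ) else 0) * (if q ∣ n then (1 : ℝ) else 0) =
        if p * q ∣ n then (1 : ℝ) else 0 := fun n => by
      by_cases h1 : p ∣ n
      · by_cases h2 : q ∣ n
        · simp [h1, h2, hc.mul_dvd_of_dvd_of_dvd h1 h2]
        · have : ¬ p * q ∣ n := fun x => h2 (dvd_of_mul_left_dvd x)
          simp [h2, this]
      · have : ¬ p * q ∣ n := fun x => h1 (dvd_of_mul_right_dvd x)
        simp [h1, this]
    simp only [e]
    rw [count]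
    calc ((N / (p * q) : ℕ) : ℝ) ≤ (N : ℝ) / ((p * q : ℕ) : ℝ) := Nat.cast_div_le
      _ = _ := by push_cast; ring

end TK

theorem tk : S_TK := by
  intro P N hP hc hL
  have h1 := TK.first P N hP
  have h2 := TK.second P N hP
  have h3 : (P.card : ℝ) ≤ N := by exact_mod_cast hc
  have e : ∑ n ∈ Icc 1 N, (1 - om P n / rs P) ^ 2 =
      N - 2 / rs P * ∑ n ∈ Icc 1 N, om P n + 1 / (rs P) ^ 2 * ∑ n ∈ Icc 1 N, (om P n) ^ 2 := by
    have : (N : ℝ) = ∑ _n ∈ Icc 1 N, (1 : ℝ) := by simp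
    rw [mul_sum, mul_sum, this, ← sum_sub_distrib, ← sum_add_distrib]
    refine sum_congr rfl fun n _ => ?_
    field_simp
    ring
  rw [e]
  have h4 : 2 / rs P * (N * rs P - N) ≤ 2 / rs P * ∑ n ∈ Icc 1 N, om P n :=
    mul_le_mul_of_nonneg_left (by linarith) (by positivity)
  have h5 : 1 / (rs P) ^ 2 * ∑ n ∈ Icc 1 N, (om P n) ^ 2 ≤
      1 / (rs P) ^ 2 * (N * (rs P) ^ 2 + N * rs P) :=
    mul_le_mul_of_nonneg_left h2 (by positivity)
  have e2 : 3 * N / rs P =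
      N - 2 / rs P * (N * rs P - N) + 1 / (rs P) ^ 2 * (N * (rs P) ^ 2 + N * rs P) := by
    field_simp
    ring
  rw [e2]
  linarith

end Pool.Agent.P.MP_a14ce1_nt.Ch
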