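import Pool.Agent.P.MP_a14ce1_nt.Ch.TraceB

/-! Trace lemma: sums over walks, the potential, and the statement `S_Trace`. -/

open Finset

namespace Pool.Agent.P.MP_a14ce1_nt.Ch.Trace

variable {ι : Type} [Fintype ι]

/-- sum over walks with j more steps -/
noncomputable def W (I : Finset ℕ) (k : ℕ → ι → ι → ℝ) (f : List (ℕ × ι) → ι → ℝ) :
    ℕ → ι → List (ℕ × ι) → ℝ
  | 0, v, h => f h v
  | j + 1, v, h => ∑ p ∈ I, ∑ v', k p v v' * W I k f j v' ((p, v) :: h)

lemma W_pow [DecidableEq ι] (pos : ι → ℤ) (x : ℕ) (I : Finset ℕ) (k : ℕ → ι → ι → ℝ)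
    (M : Matrix ι ι ℝ) (hM : ∀ v w, M v w = ∑ p ∈ I, k p v w * cc pos x (p, v)) (w : ι) (j : ℕ) :
    ∀ v h, (M ^ j) v w * cp pos x h =
      W I k (fun h' v' => if v' = w then cp pos x h' else 0) j v h := by
  induction j with
  | zero => intro v h; simp [W, Matrix.one_apply]
  | succ j ih =>
    intro v h
    simp only [W, ← ih]
    rw [pow_succ', Matrix.mul_apply, sum_comm, sum_mul]
    refine sum_congr rfl fun v' _ => ?_
    rw [hM, sum_mul, sum_mul]
    refine sum_congr rfl fun p _ => ?_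
    simp only [cp]
    ring

lemma W_sum (I : Finset ℕ) (k : ℕ → ι → ι → ℝ) (X : Finset ℕ) (f : ℕ → List (ℕ × ι) → ι → ℝ)
    (j : ℕ) : ∀ v h, ∑ x ∈ X, W I k (f x) j v h = W I k (fun h' v' => ∑ x ∈ X, f x h' v') j v h := by
  induction j with
  | zero => intro v h; rfl
  | succ j ih =>
    intro v h
    simp only [W, ← ih, mul_sum]
    rw [sum_comm]
    exact sum_congr rfl fun p _ => sum_comm

lemma W_abs (I : Finset ℕ) (k : ℕ → ι → ι → ℝ) (f g : List (ℕ × ι) → ι → ℝ) (n : ℕ)
    (hfg : ∀ h v, h.length = n → (∀ s ∈ h, s.1 ∈ I) → |f h v| ≤ g h v) (j : ℕ) :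
    ∀ v h, h.length + j = n → (∀ s ∈ h, s.1 ∈ I) →
      |W I k f j v h| ≤ W I (fun p v v' => |k p v v'|) g j v h := by
  induction j with
  | zero => intro v h h1 h2; exact hfg h v h1 h2
  | succ j ih =>
    intro v h h1 h2
    simp only [W]
    refine (abs_sum_le_sum_abs _ _).trans (sum_le_sum fun p hp => ?_)
    refine (abs_sum_le_sum_abs _ _).trans (sum_le_sum fun v' _ => ?_)
    rw [abs_mul]
    refine mul_le_mul_of_nonneg_left (ih v' _ (by simp; omega) ?_) (abs_nonneg _)
    intro s hs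
    rcases List.mem_cons.1 hs with rfl | hs
    · exact hp
    · exact h2 s hs

omit [Fintype ι] in
/-- number of coincidences with primes other than q -/
noncomputable def Rc (pos : ι → ℤ) (q : ℕ) (v : ι) : List (ℕ × ι) → ℝ
  | [] => 0
  | u :: t => (if u.1 ≠ q ∧ pos v ≡ pos u.2 [ZMOD u.1] then 1 else 0) + Rc pos q v t

omit [Fintype ι] in
lemma Rc_nonneg (pos : ι → ℤ) (q : ℕ) (v : ι) (h : List (ℕ × ι)) : 0 ≤ Rc pos q v h := by
  induction h with
  | nil => exact le_rfl
  | cons u t ih => unfold Rc; split_ifs <;> positivity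

lemma sum_Rc (pos : ι → ℤ) (I : Finset ℕ) (q : ℕ) (κ : ι → ℝ) (b : ℝ)
    (hb : ∀ p' ∈ I, p' ≠ q → ∀ c : ℤ, ∑ v' ∈ univ.filter (fun v' => pos v' ≡ c [ZMOD p']), κ v' ≤ b)
    (hb0 : 0 ≤ b) (h : List (ℕ × ι)) (hh : ∀ s ∈ h, s.1 ∈ I) :
    ∑ v', κ v' * Rc pos q v' h ≤ h.length * b := by
  induction h with
  | nil => simp [Rc]
  | cons u t ih =>
    have h1 := ih fun s hs => hh s (List.mem_cons_of_mem _ hs)
    simp only [Rc, mul_add, sum_add_distrib, List.length_cons]
    push_cast
    have h2 : ∑ v', κ v' * (if u.1 ≠ q ∧ pos v' ≡ pos u.2 [ZMOD u.1] then 1 else 0) ≤ b := by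
      by_cases hq : u.1 = q
      · simpa [hq] using hb0
      · have := hb u.1 (hh u List.mem_cons_self) hq (pos u.2)
        rw [sum_filter] at this
        simpa [hq] using this
    linarith

omit [Fintype ι] in
open Classical in
lemma sum_coinc (pos : ι → ℤ) (I : Finset ℕ) (q : ℕ) (v : ι) (h : List (ℕ × ι)) :
    ∑ p ∈ I.erase q, (if ∃ u ∈ h, u.1 = p ∧ pos u.2 ≡ pos v [ZMOD p] then (1 : ℝ) else 0) ≤
      Rc pos q v h := by
  induction h with
  | nil => simp [Rc]
  | cons u t ih =>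
    have h1 : ∑ p ∈ I.erase q, (if u.1 = p ∧ pos u.2 ≡ pos v [ZMOD p] then (1 : ℝ) else 0) ≤
        (if u.1 ≠ q ∧ pos v ≡ pos u.2 [ZMOD u.1] then 1 else 0) := by
      simp only [ite_and]
      rw [sum_ite_eq]
      by_cases h2 : u.1 ∈ I.erase q
      · rw [if_pos h2, if_pos (ne_of_mem_erase h2)]
        by_cases h3 : pos u.2 ≡ pos v [ZMOD u.1]
        · rw [if_pos h3, if_pos h3.symm]
        · rw [if_neg h3]; split_ifs <;> norm_num
      · rw [if_neg h2]; split_ifs <;> norm_num
    simp only [Rc]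
    refine le_trans ?_ (add_le_add h1 ih)
    rw [← sum_add_distrib]
    refine sum_le_sum fun p _ => ?_
    by_cases h2 : ∃ u' ∈ u :: t, u'.1 = p ∧ pos u'.2 ≡ pos v [ZMOD p]
    · rw [if_pos h2]
      obtain ⟨u', hu', h3⟩ := h2
      rcases List.mem_cons.1 hu' with rfl | hu'
      · rw [if_pos h3]; split_ifs <;> norm_num
      · rw [if_pos (⟨u', hu', h3⟩ : ∃ u' ∈ t, u'.1 = p ∧ pos u'.2 ≡ pos v [ZMOD p])]
        split_ifs <;> norm_num
    · rw [if_neg h2]; split_ifs <;> norm_num

omit [Fintype ι] in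
lemma sum_ph' (pos : ι → ℤ) (I : Finset ℕ) (H : ℕ) (hI : ∀ p ∈ I, H ≤ p) (hL : 1 ≤ rs I) (q : ℕ)
    (v : ι) (h : List (ℕ × ι)) (hH : 0 < H) (hl : 2 * h.length ≤ H) :
    ∑ p ∈ I, ph' pos (rs I) (p, v) h ≤ 4 * (1 + Rc pos q v h) := by
  classical
  have hH' : (0 : ℝ) < H := by exact_mod_cast hH
  have h1 : ∀ p ∈ I, ph' pos (rs I) (p, v) h ≤ 2 / rs I * (1 / p) +
      (if p ∈ (h.map Prod.fst).toFinset then 2 / (H : ℝ) else 0) +
      (if ∃ u ∈ h, u.1 = p ∧ pos u.2 ≡ pos v [ZMOD p] then (1 : ℝ) else 0) := by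
    intro p hp
    have h2 : (H : ℝ) ≤ p := by exact_mod_cast hI p hp
    have h3 : 0 ≤ 2 / rs I * (1 / (p : ℝ)) := by positivity
    unfold ph' ph
    by_cases h4 : p ∈ h.map Prod.fst
    · rw [if_pos h4, if_pos (List.mem_toFinset.2 h4)]
      have : 2 / (p : ℝ) ≤ 2 / H := by gcongr
      simp only
      linarith
    · have h5 : ¬ ∃ u ∈ h, u.1 = p ∧ pos u.2 ≡ pos v [ZMOD p] := by
        rintro ⟨u, hu, h5, -⟩
        exact h4 (List.mem_map.2 ⟨u, hu, h5⟩)
      rw [if_neg h4, if_neg (fun e => h4 (List.mem_toFinset.1 e))]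
      simp only [if_neg h5]
      exact le_of_eq (by ring)
  refine (sum_le_sum h1).trans ?_
  rw [sum_add_distrib, sum_add_distrib, ← mul_sum]
  have h2 : 2 / rs I * ∑ p ∈ I, 1 / (p : ℝ) = 2 := by
    have : rs I ≠ 0 := by linarith
    change 2 / rs I * rs I = 2
    field_simp
  have h3 : ∑ p ∈ I, (if p ∈ (h.map Prod.fst).toFinset then 2 / (H : ℝ) else 0) ≤ 1 := by
    rw [← sum_filter, sum_const, nsmul_eq_mul]
    have h4 : (I.filter (fun p => p ∈ (h.map Prod.fst).toFinset)).card ≤ h.length :=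
      (card_le_card fun p hp => (mem_filter.1 hp).2).trans
        ((List.toFinset_card_le _).trans (List.length_map _).le)
    have h5 : ((I.filter (fun p => p ∈ (h.map Prod.fst).toFinset)).card : ℝ) * 2 ≤ H := by
      exact_mod_cast (by omega)
    rw [← mul_div_assoc, div_le_one hH']
    exact h5
  have h4 : ∑ p ∈ I, (if ∃ u ∈ h, u.1 = p ∧ pos u.2 ≡ pos v [ZMOD p] then (1 : ℝ) else 0) ≤
      1 + Rc pos q v h := by
    refine le_trans ?_ (add_le_add_right (sum_coinc pos I q v h) 1)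
    by_cases hq : q ∈ I
    · rw [← add_sum_erase I _ hq]
      gcongr
      split_ifs <;> norm_num
    · rw [erase_eq_of_notMem hq]; linarith
  have := Rc_nonneg pos q v h
  linarith

lemma potential (pos : ι → ℤ) (I : Finset ℕ) (H : ℕ) (hI : ∀ p ∈ I, H ≤ p) (hL : 1 ≤ rs I)
    (κ : ℕ → ι → ι → ℝ) (hκ : ∀ p v v', 0 ≤ κ p v v') (A b : ℝ) (n : ℕ) (hb0 : 0 ≤ b)
    (hrow : ∀ p ∈ I, ∀ v, ∑ v', κ p v v' ≤ A)
    (hcl : ∀ p ∈ I, ∀ p' ∈ I, p' ≠ p → ∀ v, ∀ c : ℤ,
      ∑ v' ∈ univ.filter (fun v' => pos v' ≡ c [ZMOD p']), κ p v v' ≤ b)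
    (hnb : n * b ≤ A) (hH : 0 < H) (hn : 2 * n ≤ H) (C : ℝ) (hC : 0 ≤ C) (j : ℕ) :
    ∀ v h q, h.length + j ≤ n → (∀ s ∈ h, s.1 ∈ I) →
      W I κ (fun h' _ => C * Ph' pos (rs I) h') j v h ≤
        C * Ph' pos (rs I) h * (8 * A) ^ j * (1 + Rc pos q v h) := by
  have hL0 : 0 ≤ rs I := zero_le_one.trans hL
  have hA : 0 ≤ A := le_trans (by positivity) hnb
  induction j with
  | zero =>
    intro v h q _ _
    have h1 := Rc_nonneg pos q v h
    have h2 := mul_nonneg hC (Ph'_nonneg pos hL0 h)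
    simp only [W]
    nlinarith
  | succ j ih =>
    intro v h q h1 h2
    have h3 := Ph'_nonneg pos hL0 h
    simp only [W]
    calc ∑ p ∈ I, ∑ v', κ p v v' * W I κ (fun h' _ => C * Ph' pos (rs I) h') j v' ((p, v) :: h)
        ≤ ∑ p ∈ I, C * Ph' pos (rs I) h * (8 * A) ^ j * (2 * A) * ph' pos (rs I) (p, v) h := by
          refine sum_le_sum fun p hp => ?_
          have h4 : ∀ s ∈ (p, v) :: h, s.1 ∈ I := by
            intro s hs
            rcases List.mem_cons.1 hs with rfl | hs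
            · exact hp
            · exact h2 s hs
          have h5 := ph'_nonneg pos hL0 (p, v) h
          have h6 := sum_Rc pos I p (κ p v) b (fun p' hp' e c => hcl p hp p' hp' e v c) hb0 _ h4
          have h7 : (((p, v) :: h).length : ℝ) * b ≤ A := by
            refine le_trans (mul_le_mul_of_nonneg_right ?_ hb0) hnb
            exact_mod_cast (by simp; omega : ((p, v) :: h).length ≤ n)
          have h8 := hrow p hp v
          calc ∑ v', κ p v v' * W I κ (fun h' _ => C * Ph' pos (rs I) h') j v' ((p, v) :: h)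
              ≤ ∑ v', κ p v v' * (C * Ph' pos (rs I) ((p, v) :: h) * (8 * A) ^ j *
                  (1 + Rc pos p v' ((p, v) :: h))) :=
                sum_le_sum fun v' _ => mul_le_mul_of_nonneg_left
                  (ih v' _ p (by simp; omega) h4) (hκ p v v')
            _ = C * Ph' pos (rs I) h * (8 * A) ^ j * ph' pos (rs I) (p, v) h *
                  (∑ v', κ p v v' + ∑ v', κ p v v' * Rc pos p v' ((p, v) :: h)) := by
                rw [← sum_add_distrib, mul_sum]
                refine sum_congr rfl fun v' _ => ?_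
                simp only [Ph']
                ring
            _ ≤ C * Ph' pos (rs I) h * (8 * A) ^ j * ph' pos (rs I) (p, v) h * (2 * A) := by
                gcongr; linarith
            _ = _ := by ring
      _ ≤ C * Ph' pos (rs I) h * (8 * A) ^ j * (2 * A) * (4 * (1 + Rc pos q v h)) := by
          rw [← mul_sum]
          exact mul_le_mul_of_nonneg_left (sum_ph' pos I H hI hL q v h hH (by omega))
            (by positivity)
      _ = _ := by ring

end Pool.Agent.P.MP_a14ce1_nt.Ch.Trace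

namespace Pool.Agent.P.MP_a14ce1_nt.Ch

open Trace

theorem trace : S_Trace := by
  intro ι _ _ pos I H K V A η i hI hL hV hA hη hsym hrow hcl hsupp hη2 hH hcard
  set m := 2 ^ i with hm
  have hm0 : 0 < m := by positivity
  set L := rs I with hLdef
  have hL0 : 0 < L := by linarith
  let k : ℕ → ι → ι → ℝ := fun p v w => K p v w / V v
  let M : ℕ → Matrix ι ι ℝ := fun x v w => ∑ p ∈ I, k p v w * cc pos x (p, v)
  have hMV : ∀ x v w, V v * M x v w = ∑ p ∈ I, K p v w * cc pos x (p, v) := by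
    intro x v w
    simp only [M, k, mul_sum]
    refine sum_congr rfl fun p _ => ?_
    have := (hV v).ne'
    field_simp
  have hsa : ∀ x v w, V v * M x v w = V w * M x w v := by
    intro x v w
    rw [hMV, hMV]
    refine sum_congr rfl fun p hp => ?_
    rw [hsym p w v]
    by_cases h0 : K p v w = 0
    · simp [h0]
    · have h1 : (x : ℤ) + pos v ≡ x + pos w [ZMOD p] := (hsupp p hp v w h0).add_left _
      have e : ((p : ℤ) ∣ x + pos v) ↔ (p : ℤ) ∣ x + pos w :=
        ⟨fun h => Int.modEq_zero_iff_dvd.1 (h1.symm.trans (Int.modEq_zero_iff_dvd.2 h)),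
          fun h => Int.modEq_zero_iff_dvd.1 (h1.trans (Int.modEq_zero_iff_dvd.2 h))⟩
      simp only [cc, e]
  set S := ∑ v, V v with hS
  have hS0 : 0 ≤ S := sum_nonneg fun v _ => (hV v).le
  set τ := 16 * A * √L with hτ
  have hτ0 : 0 < τ := by positivity
  have hT := fun x => trace_nonneg V hV (M x) (hsa x) m
  refine ⟨fun x => S * τ * (1 + (∑ v, (M x ^ (2 * m)) v v) / τ ^ (2 * m)), fun x => ?_,
    fun x F hF => ?_, ?_⟩
  · have := hT x
    positivity
  · have h1 := form_le_trace V hV (M x) (hsa x) F i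
    have h2 : ∑ v, V v * F v * F v ≤ S := sum_le_sum fun v _ => by
      have h3 : F v * F v ≤ 1 := by
        have := abs_le.1 (hF v)
        nlinarith
      rw [mul_assoc]
      exact mul_le_of_le_one_right (hV v).le h3
    have h3 : 0 ≤ ∑ v, V v * F v * F v := sum_nonneg fun v _ => by
      rw [mul_assoc]; exact mul_nonneg (hV v).le (mul_self_nonneg _)
    have h4 : ∑ v, ∑ v', F v * F v' *
        ∑ p ∈ I, K p v v' * ((if (p : ℤ) ∣ x + pos v then 1 else 0) - 1 / (p : ℝ)) =
        ∑ v, V v * F v * (M x).mulVec F v := by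
      refine sum_congr rfl fun v _ => ?_
      simp only [Matrix.mulVec, dotProduct, mul_sum (f := fun w => M x v w * F w)]
      refine sum_congr rfl fun w _ => ?_
      have := hMV x v w
      simp only [cc] at this
      rw [← this]
      ring
    rw [h4]
    refine root_bound (n := 2 * m) (by omega) (abs_nonneg _) hS0 (hT x) hτ0 (h1.trans ?_)
    exact mul_le_mul_of_nonneg_right (pow_le_pow_left₀ h3 h2 _) (hT x)
  · have hN : (0 : ℝ) ≤ pv I := by positivity
    have key : ∀ w, ∑ x ∈ range (pv I), (M x ^ (2 * m)) w w ≤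
        (pv I : ℝ) * L ^ m * (8 * A) ^ (2 * m) := by
      intro w
      have h1 : ∀ x, (M x ^ (2 * m)) w w =
          W I k (fun h' v' => if v' = w then cp pos x h' else 0) (2 * m) w [] := by
        intro x
        rw [← W_pow pos x I k (M x) (fun _ _ => rfl) w (2 * m) w []]
        simp [cp]
      simp only [h1]
      rw [W_sum]
      refine (le_abs_self _).trans ((W_abs I k _
        (fun h' _ => (pv I : ℝ) * L ^ m * Ph' pos L h') (2 * m) ?_ (2 * m) w [] (by simp)
        (by simp)).trans ?_)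
      · intro h v hl hh
        by_cases hv : v = w
        · simp only [if_pos hv]
          exact expect pos I (fun p hp => (hI p hp).1) hL m h hl hh
        · have := Ph'_nonneg pos hL0.le h
          simp only [if_neg hv, sum_const_zero, abs_zero]
          positivity
      · refine (potential pos I H (fun p hp => (hI p hp).2) hL (fun p v v' => |k p v v'|)
          (fun _ _ _ => abs_nonneg _) A (η * A) (2 * m) (by positivity) ?_ ?_ ?_ (by omega)
          (by omega) _ (by positivity) (2 * m) w [] 0 (by simp) (by simp)).trans ?_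
        · intro p hp v
          simp only [k, abs_div, abs_of_pos (hV v)]
          rw [← sum_div, div_le_iff₀ (hV v)]
          exact hrow p hp v
        · intro p hp p' hp' e v c
          simp only [k, abs_div, abs_of_pos (hV v)]
          rw [← sum_div, div_le_iff₀ (hV v)]
          exact hcl p hp p' hp' e v c
        · rw [hm]
          push_cast
          nlinarith
        · simp [Ph', Rc]
    have hτ2 : τ ^ (2 * m) = 4 ^ m * (L ^ m * (8 * A) ^ (2 * m)) := by
      rw [hτ, show 16 * A * √L = 2 * (√L * (8 * A)) by ring, mul_pow, mul_pow, pow_mul √L,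
        Real.sq_sqrt hL0.le, pow_mul 2]
      norm_num
    have hsum : ∑ x ∈ range (pv I), ∑ v, (M x ^ (2 * m)) v v ≤ (pv I : ℝ) * τ ^ (2 * m) := by
      rw [sum_comm]
      refine (sum_le_sum fun w _ => key w).trans ?_
      rw [sum_const, card_univ, nsmul_eq_mul, hτ2]
      have : (Fintype.card ι : ℝ) ≤ 4 ^ m := by exact_mod_cast hcard
      calc (Fintype.card ι : ℝ) * ((pv I : ℝ) * L ^ m * (8 * A) ^ (2 * m))
          ≤ 4 ^ m * ((pv I : ℝ) * L ^ m * (8 * A) ^ (2 * m)) := by gcongr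
        _ = _ := by ring
    rw [← mul_sum, sum_add_distrib, ← sum_div, sum_const, card_range, nsmul_eq_mul, mul_one]
    have h5 : (∑ x ∈ range (pv I), ∑ v, (M x ^ (2 * m)) v v) / τ ^ (2 * m) ≤ pv I :=
      (div_le_iff₀ (by positivity)).2 hsum
    calc S * τ * ((pv I : ℝ) + (∑ x ∈ range (pv I), ∑ v, (M x ^ (2 * m)) v v) / τ ^ (2 * m))
        ≤ S * τ * ((pv I : ℝ) + pv I) := by gcongr
      _ = _ := by rw [hτ]; ring

end Pool.Agent.P.MP_a14ce1_nt.Ch
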