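import Pool.Agent.P.MP_a14ce1_nt.Ch.Main
import Pool.Agent.P.MP_a14ce1_nt.Ch.Mertens
import Pool.Agent.P.MP_a14ce1_nt.Ch.TK
import Pool.Agent.P.MP_a14ce1_nt.Ch.Trace
import Pool.Agent.P.MP_a14ce1_nt.Ch.L2
import Pool.Agent.P.MP_a14ce1_nt.Ch.First
import Pool.Agent.P.MP_a14ce1_nt.Ch.Sys
import Pool.Agent.P.MP_a14ce1_nt.Ch.Sieve
import Pool.Agent.P.MP_a14ce1_nt.Ch.HTwo
import Pool.Agent.P.MP_a14ce1_nt.Ch.Energy
import Pool.Agent.P.MP_a14ce1_nt.Ch.ShortExp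
import Pool.Agent.P.MP_a14ce1_nt.Ch.LemmaB
import Pool.Agent.P.MP_a14ce1_nt.Ch.Classes
import Pool.Agent.P.MP_a14ce1_nt.Ch.MR
import Pool.Agent.P.MP_a14ce1_nt.Ch.RxSmall
import Pool.Agent.P.MP_a14ce1_nt.Ch.Cauchy
import Pool.Agent.P.MP_a14ce1_nt.Ch.Fourier
import Pool.Agent.P.MP_a14ce1_nt.Ch.Sm
import Pool.Agent.P.MP_a14ce1_nt.Ch.Reduce
import Pool.Agent.P.MP_a14ce1_nt.Ch.Scales
import Pool.Agent.P.MP_a14ce1_nt.Ch.HM
import Pool.Agent.P.MP_a14ce1_nt.Ch.Final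
import Pool.Agent.P.MP_a14ce1_nt.Ch.VdC
import Pool.Agent.P.MP_a14ce1_nt.Ch.Rough
import Pool.Agent.P.MP_a14ce1_nt.Ch.RoughL
import Pool.Agent.P.MP_a14ce1_nt.Ch.HOne

/-! Assembly of all pieces. -/

namespace Pool.Agent.P.MP_a14ce1_nt.Ch

theorem mr_all : S_MR :=
  mr (reduce cauchy) (scales m1 tk mvt (separate fourier) (moment cauchy kernel) smReg)
    (final m1 tk mvt fourier (smPrimes cauchy m2) smReg (hm vdc fourier) (rxSmall fourier))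

theorem mrchar_all : S_MRchar :=
  mrchar mr_all (hone m2 m6 (roughL (rough m1 sieve vdc))) htwo

theorem lemmaB_all : S_LemmaB :=
  lemmaB (energy m1 sieve) (shortExp m1 tk (classes mrchar_all))

theorem core_all : S_Core :=
  core trace (sys m1 m2 (l2 m2) (first m1 m2)) lemmaB_all

end Pool.Agent.P.MP_a14ce1_nt.Ch
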