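import Pool.Agent.P.MP_a14ce1_nt.Ch.Defs

/-!
Last stage of the short interval theorem, part A: the two-prime factorisation and its integral form.
-/

open Finset MeasureTheory

namespace Pool.Agent.P.MP_a14ce1_nt.Ch
namespace Final

/-- Dirichlet polynomial over a set of primes -/
noncomputable def Dp (S : Finset ℕ) (f : ℕ → ℂ) (s : ℝ) : ℂ := ∑ p ∈ S, f p / p * nit s p

/-- the smoothed polynomial weighted by the number of prime factors in A and in B -/
noncomputable def Gx (A B : Finset ℕ) (f : ℕ → ℂ) (X : ℕ) (t : ℝ) : ℂ :=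
  ∑ n ∈ Icc 1 (8 * X), ((om A n * om B n : ℝ) : ℂ) *
    (f n * ((psi (Real.log n - Real.log X) / n : ℝ) : ℂ) * nit t n)

theorem continuous_Dp (S : Finset ℕ) (f : ℕ → ℂ) : Continuous (Dp S f) := by
  unfold Dp
  exact continuous_finsetSum _ fun n _ => continuous_const.mul (continuous_nit _)

theorem continuous_Gx (A B : Finset ℕ) (f : ℕ → ℂ) (X : ℕ) : Continuous (Gx A B f X) := by
  unfold Gx
  exact continuous_finsetSum _ fun n _ =>
    continuous_const.mul (continuous_const.mul (continuous_nit _))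

theorem norm_div_le {f : ℕ → ℂ} (hf : ∀ n, ‖f n‖ ≤ 1) (p : ℕ) : ‖f p / p‖ ≤ 1 / (p : ℝ) := by
  rw [norm_div, Complex.norm_natCast]
  exact div_le_div_of_nonneg_right (hf p) (Nat.cast_nonneg _)

theorem norm_Dp_le (S : Finset ℕ) {f : ℕ → ℂ} (hf : ∀ n, ‖f n‖ ≤ 1) (s : ℝ) :
    ‖Dp S f s‖ ≤ rs S := by
  unfold Dp rs
  refine (norm_sum_le _ _).trans (sum_le_sum fun p _ => ?_)
  rw [norm_mul, norm_nit, mul_one]
  exact norm_div_le hf p

theorem norm_Rx_le {a : ℕ → ℂ} (ha : ∀ n, ‖a n‖ ≤ 1) (X : ℕ) (s : ℝ) :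
    ‖Rx a X s‖ ≤ 1 + 2 * Real.log X := by
  unfold Rx
  have h1 : ∑ m ∈ Icc 1 (X ^ 2), (1 : ℝ) / m ≤ 1 + Real.log ((X ^ 2 : ℕ) : ℝ) := by
    have h := harmonic_le_one_add_log (X ^ 2)
    rw [harmonic_eq_sum_Icc] at h
    push_cast at h ⊢
    simpa [one_div] using h
  have h2 : Real.log ((X ^ 2 : ℕ) : ℝ) = 2 * Real.log X := by
    push_cast; rw [Real.log_pow]; norm_num
  rw [← h2]
  refine (norm_sum_le _ _).trans (le_trans (sum_le_sum fun m _ => ?_) h1)
  rw [norm_mul, norm_mul, norm_nit, mul_one, Complex.norm_real, Real.norm_eq_abs,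
    abs_of_nonneg (div_nonneg (Phi_nonneg _) (Nat.cast_nonneg _))]
  have h3 : Phi (Real.log m / Real.log X) / m ≤ 1 / (m : ℝ) :=
    div_le_div_of_nonneg_right (Phi_le_one _) (Nat.cast_nonneg _)
  have h4 : 0 ≤ Phi (Real.log m / Real.log X) / m := div_nonneg (Phi_nonneg _) (Nat.cast_nonneg _)
  calc ‖a m‖ * (Phi (Real.log m / Real.log X) / m) ≤ 1 * (Phi (Real.log m / Real.log X) / m) :=
        mul_le_mul_of_nonneg_right (ha m) h4
    _ ≤ 1 / (m : ℝ) := by rw [one_mul]; exact h3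

theorem Rx_shift (f : ℕ → ℂ) (X : ℕ) (u t : ℝ) :
    Rx (fun m => f m * nit u m) X t = Rx f X (t + u) := by
  unfold Rx
  refine sum_congr rfl fun m _ => ?_
  rw [nit_add]; ring

theorem om_mul_om (A B : Finset ℕ) (hA : ∀ p ∈ A, p.Prime) (hB : ∀ p ∈ B, p.Prime)
    (hAB : Disjoint A B) (n : ℕ) :
    om A n * om B n = ∑ p ∈ A, ∑ q ∈ B, if p * q ∣ n then (1 : ℝ) else 0 := by
  unfold om
  rw [card_filter, card_filter]
  push_cast
  rw [sum_mul_sum]
  refine sum_congr rfl fun p hp => sum_congr rfl fun q hq => ?_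
  have hne : p ≠ q := fun h => (disjoint_left.1 hAB hp) (h ▸ hq)
  have hc : Nat.Coprime p q := (Nat.coprime_primes (hA p hp) (hB q hq)).2 hne
  by_cases h1 : p ∣ n
  · by_cases h2 : q ∣ n
    · simp [h1, h2, hc.mul_dvd_of_dvd_of_dvd h1 h2]
    · have : ¬ p * q ∣ n := fun h => h2 (dvd_trans (Dvd.intro_left p rfl) h)
      simp [h2, this]
  · have : ¬ p * q ∣ n := fun h => h1 (dvd_trans (Dvd.intro q rfl) h)
    simp [h1, this]

theorem sum_dvd_eq (F : ℕ → ℂ) (N M d : ℕ) (hd : 1 ≤ d) (hNM : N ≤ M)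
    (hF : ∀ n, N < n → F n = 0) :
    ∑ n ∈ Icc 1 N, (if d ∣ n then F n else 0) = ∑ m ∈ Icc 1 M, F (d * m) := by
  rw [← sum_filter]
  have h1 : ∑ m ∈ Icc 1 M, F (d * m) = ∑ m ∈ (Icc 1 M).filter (fun m => d * m ≤ N), F (d * m) := by
    symm
    refine sum_filter_of_ne fun m _ hm => ?_
    by_contra h
    exact hm (hF _ (not_le.1 h))
  rw [h1]
  symm
  refine sum_bij (fun m _ => d * m) ?_ ?_ ?_ ?_
  · intro m hm
    rw [mem_filter, mem_Icc] at hm ⊢
    exact ⟨⟨Nat.mul_pos hd hm.1.1, hm.2⟩, Dvd.intro _ rfl⟩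
  · intro a _ b _ h
    exact Nat.eq_of_mul_eq_mul_left hd h
  · intro n hn
    rw [mem_filter, mem_Icc] at hn
    obtain ⟨⟨h1, h2⟩, m, rfl⟩ := hn
    refine ⟨m, ?_, rfl⟩
    rw [mem_filter, mem_Icc]
    refine ⟨⟨?_, ?_⟩, h2⟩
    · rcases Nat.eq_zero_or_pos m with h | h
      · simp [h] at h1
      · exact h
    · exact le_trans (Nat.le_mul_of_pos_left m hd) (h2.trans hNM)
  · intro m _
    rfl

theorem two_le_log_eight : (2 : ℝ) ≤ Real.log 8 := by
  have h : Real.log 8 = 3 * Real.log 2 := by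
    rw [show (8 : ℝ) = 2 ^ 3 by norm_num, Real.log_pow]; norm_num
  have := Real.log_two_gt_d9
  rw [h]; linarith

/-- the factorised form of Gx -/
theorem Gx_eq_sum (A B : Finset ℕ) {f : ℕ → ℂ} (hf : CM f) (X : ℕ) (hx : 20 ≤ Real.log X)
    (hA : ∀ p ∈ A, p.Prime ∧ Real.log p ≤ Real.log X / 10)
    (hB : ∀ p ∈ B, p.Prime ∧ Real.log p ≤ Real.log X / 10) (hAB : Disjoint A B) (t : ℝ) :
    Gx A B f X t = ∑ p ∈ A, ∑ q ∈ B, ∑ m ∈ Icc 1 (X ^ 2),
      (f p / p * nit t p) * (f q / q * nit t q) *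
        (f m * ((Phi (Real.log m / Real.log X) / m : ℝ) : ℂ) * nit t m) *
        ((psi (Real.log p + Real.log q + Real.log m - Real.log X) : ℝ) : ℂ) := by
  have hX0 : (0 : ℝ) < X := by
    rcases Nat.eq_zero_or_pos X with h | h
    · rw [h] at hx; simp at hx; linarith
    · exact_mod_cast h
  have hX8 : 8 ≤ X := by
    by_contra h
    have h1 : (X : ℝ) ≤ 8 := by exact_mod_cast (not_le.1 h).le
    have h2 := Real.log_le_sub_one_of_pos hX0
    linarith
  set F : ℕ → ℂ := fun n => f n * ((psi (Real.log n - Real.log X) / n : ℝ) : ℂ) * nit t n with hF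
  have hF0 : ∀ n, 8 * X < n → F n = 0 := by
    intro n hn
    have h1 : (8 : ℝ) * X ≤ n := by exact_mod_cast hn.le
    have h2 : Real.log 8 + Real.log X ≤ Real.log n := by
      rw [← Real.log_mul (by norm_num) hX0.ne']
      exact Real.log_le_log (by positivity) h1
    have h3 : psi (Real.log n - Real.log X) = 0 :=
      psi_eq_zero (Or.inr (by linarith [two_le_log_eight]))
    simp [hF, h3]
  have h1 : Gx A B f X t = ∑ p ∈ A, ∑ q ∈ B, ∑ n ∈ Icc 1 (8 * X), if p * q ∣ n then F n else 0 := by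
    unfold Gx
    simp_rw [om_mul_om A B (fun p hp => (hA p hp).1) (fun p hp => (hB p hp).1) hAB]
    push_cast
    simp_rw [sum_mul]
    rw [sum_comm]
    refine sum_congr rfl fun p _ => ?_
    rw [sum_comm]
    refine sum_congr rfl fun q _ => sum_congr rfl fun n _ => ?_
    split_ifs <;> simp [hF]
  rw [h1]
  refine sum_congr rfl fun p hp => sum_congr rfl fun q hq => ?_
  have hp0 := (hA p hp).1.pos
  have hq0 := (hB q hq).1.pos
  rw [sum_dvd_eq F (8 * X) (X ^ 2) (p * q) (Nat.mul_pos hp0 hq0) (by nlinarith) hF0]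
  refine sum_congr rfl fun m hm => ?_
  have hm0 : 0 < m := (mem_Icc.1 hm).1
  have hpR : (p : ℝ) ≠ 0 := by exact_mod_cast hp0.ne'
  have hqR : (q : ℝ) ≠ 0 := by exact_mod_cast hq0.ne'
  have hmR : (m : ℝ) ≠ 0 := by exact_mod_cast hm0.ne'
  have hpC : (p : ℂ) ≠ 0 := by exact_mod_cast hp0.ne'
  have hqC : (q : ℂ) ≠ 0 := by exact_mod_cast hq0.ne'
  have hmC : (m : ℂ) ≠ 0 := by exact_mod_cast hm0.ne'
  have hlog : Real.log ((p * q * m : ℕ) : ℝ) = Real.log p + Real.log q + Real.log m := by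
    push_cast
    rw [Real.log_mul (mul_ne_zero hpR hqR) hmR, Real.log_mul hpR hqR]
  have hnit : nit t ((p * q * m : ℕ) : ℝ) = nit t p * nit t q * nit t m := by
    push_cast
    rw [nit_mul t (mul_ne_zero hpR hqR) hmR, nit_mul t hpR hqR]
  have hfm : f (p * q * m) = f p * f q * f m := by
    rw [hf.mul _ _ (Nat.mul_pos hp0 hq0).ne' hm0.ne', hf.mul _ _ hp0.ne' hq0.ne']
  simp only [hF]
  rw [hlog, hnit, hfm]
  by_cases hψ : psi (Real.log p + Real.log q + Real.log m - Real.log X) = 0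
  · simp [hψ]
  · have hlo : -1 < Real.log p + Real.log q + Real.log m - Real.log X := by
      by_contra h
      exact hψ (psi_eq_zero (Or.inl (not_lt.1 h)))
    have hhi : Real.log p + Real.log q + Real.log m - Real.log X < 2 := by
      by_contra h
      exact hψ (psi_eq_zero (Or.inr (not_lt.1 h)))
    have hp1 := Real.log_natCast_nonneg p
    have hq1 := Real.log_natCast_nonneg q
    have hp2 := (hA p hp).2
    have hq2 := (hB q hq).2
    have hΦ : Phi (Real.log m / Real.log X) = 1 := by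
      apply Phi_eq_one
      · rw [le_div_iff₀ (by linarith)]; linarith
      · rw [div_le_iff₀ (by linarith)]; linarith
    rw [hΦ]
    push_cast
    field_simp

/-- the integral form of Gx -/
theorem Gx_eq_int (A B : Finset ℕ) {f : ℕ → ℂ} (hf : CM f) (X : ℕ) (hx : 20 ≤ Real.log X)
    (hA : ∀ p ∈ A, p.Prime ∧ Real.log p ≤ Real.log X / 10)
    (hB : ∀ p ∈ B, p.Prime ∧ Real.log p ≤ Real.log X / 10) (hAB : Disjoint A B)
    (Θ : ℝ → ℂ) (hΘ : Integrable Θ) (hψ : ∀ v, (psi v : ℂ) = ∫ u : ℝ, Θ u * ex (-(u * v))) (t : ℝ) :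
    Gx A B f X t =
      ∫ u : ℝ, Θ u * ex (u * Real.log X) * (Dp A f (t + u) * Dp B f (t + u) * Rx f X (t + u)) := by
  have hint : ∀ (c : ℂ) (v : ℝ), Integrable (fun u : ℝ => c * (Θ u * ex (-(u * v)))) := by
    intro c v
    refine Integrable.const_mul ?_ c
    refine hΘ.mul_bdd (c := 1) ?_ (Filter.Eventually.of_forall fun u => (norm_ex _).le)
    exact (continuous_ex.comp (by fun_prop)).aestronglyMeasurable
  rw [Gx_eq_sum A B hf X hx hA hB hAB t]
  simp_rw [hψ, ← integral_const_mul]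
  have e1 : ∀ p ∈ A, ∀ q ∈ B, ∑ m ∈ Icc 1 (X ^ 2), ∫ u : ℝ,
      (f p / p * nit t p) * (f q / q * nit t q) *
        (f m * ((Phi (Real.log m / Real.log X) / m : ℝ) : ℂ) * nit t m) *
        (Θ u * ex (-(u * (Real.log p + Real.log q + Real.log m - Real.log X)))) =
      ∫ u : ℝ, ∑ m ∈ Icc 1 (X ^ 2), (f p / p * nit t p) * (f q / q * nit t q) *
        (f m * ((Phi (Real.log m / Real.log X) / m : ℝ) : ℂ) * nit t m) *
        (Θ u * ex (-(u * (Real.log p + Real.log q + Real.log m - Real.log X)))) :=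
    fun p _ q _ => (integral_finsetSum _ fun m _ => hint _ _).symm
  rw [sum_congr rfl fun p hp => sum_congr rfl fun q hq => e1 p hp q hq]
  rw [sum_congr rfl fun p _ => (integral_finsetSum _ fun q _ =>
    integrable_finsetSum _ fun m _ => hint _ _).symm]
  rw [← integral_finsetSum _ fun p _ => integrable_finsetSum _ fun q _ =>
    integrable_finsetSum _ fun m _ => hint _ _]
  refine integral_congr_ae (Filter.Eventually.of_forall fun u => ?_)
  unfold Dp Rx
  simp only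
  rw [sum_mul_sum, sum_mul, mul_sum]
  refine sum_congr rfl fun p _ => ?_
  rw [sum_mul, mul_sum]
  refine sum_congr rfl fun q _ => ?_
  rw [mul_sum, mul_sum]
  refine sum_congr rfl fun m _ => ?_
  have e2 : ex (-(u * (Real.log p + Real.log q + Real.log m - Real.log X))) =
      ex (u * Real.log X) * nit u p * nit u q * nit u m := by
    unfold nit
    rw [← ex_add, ← ex_add, ← ex_add]; congr 1; ring
  rw [e2, nit_add, nit_add, nit_add]
  ring

end Final
end Pool.Agent.P.MP_a14ce1_nt.Ch
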