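import Pool.Agent.P.MP_a14ce1_nt.Ch.FinalA

/-!
Last stage of the short interval theorem, part B: the two mean square bounds.
-/

open Finset MeasureTheory

namespace Pool.Agent.P.MP_a14ce1_nt.Ch
namespace Final

/-- Cauchy-Schwarz against the Cauchy weight -/
theorem cs_cw {a b : ℝ → ℝ} (ha : Continuous a) (hb : Continuous b) {Ba Bb : ℝ}
    (hBa : ∀ u, |a u| ≤ Ba) (hBb : ∀ u, |b u| ≤ Bb) :
    (∫ u, cw 1 u * (a u * b u)) ^ 2 ≤ (∫ u, cw 1 u * a u ^ 2) * ∫ u, cw 1 u * b u ^ 2 := by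
  have hprod : ∀ {g h : ℝ → ℝ} {C D : ℝ}, (∀ u, |g u| ≤ C) → (∀ u, |h u| ≤ D) →
      ∀ u, |g u * h u| ≤ C * D := by
    intro g h C D hg hh u
    rw [abs_mul]
    exact mul_le_mul (hg u) (hh u) (abs_nonneg _) ((abs_nonneg _).trans (hg u))
  have i1 : Integrable (fun u => cw 1 u * (a u * b u)) :=
    integrable_cw_mul one_pos (ha.mul hb) (hprod hBa hBb)
  have i2 : Integrable (fun u => cw 1 u * a u ^ 2) := by
    refine integrable_cw_mul one_pos (ha.pow 2) (B := Ba * Ba) fun u => ?_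
    rw [sq]; exact hprod hBa hBa u
  have i3 : Integrable (fun u => cw 1 u * b u ^ 2) := by
    refine integrable_cw_mul one_pos (hb.pow 2) (B := Bb * Bb) fun u => ?_
    rw [sq]; exact hprod hBb hBb u
  have key : ∀ s : ℝ, 0 ≤ (∫ u, cw 1 u * a u ^ 2) * (s * s) +
      (-2 * ∫ u, cw 1 u * (a u * b u)) * s + ∫ u, cw 1 u * b u ^ 2 := by
    intro s
    have h0 : 0 ≤ ∫ u, cw 1 u * (s * a u - b u) ^ 2 :=
      integral_nonneg fun u => mul_nonneg (cw_pos _ _).le (sq_nonneg _)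
    have h1 : ∫ u, cw 1 u * (s * a u - b u) ^ 2 = ∫ u, ((s * s) * (cw 1 u * a u ^ 2) +
        (-2 * s) * (cw 1 u * (a u * b u))) + cw 1 u * b u ^ 2 :=
      integral_congr_ae (Filter.Eventually.of_forall fun u => by simp only; ring)
    have i4 : Integrable (fun u => (s * s) * (cw 1 u * a u ^ 2) +
        (-2 * s) * (cw 1 u * (a u * b u))) := (i2.const_mul _).add (i1.const_mul _)
    rw [h1, integral_add i4 i3,
      integral_add (i2.const_mul _) (i1.const_mul _), integral_const_mul, integral_const_mul] at h0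
    linarith
  have h := discrim_le_zero key
  unfold discrim at h
  nlinarith

theorem finite_of_subset {U : Set ℝ} {X : ℝ} (hU : U ⊆ Set.Icc (-X) X) : volume U < ⊤ :=
  lt_of_le_of_lt (measure_mono hU) measure_Icc_lt_top

theorem integrableOn_of_cont {U : Set ℝ} {X : ℝ} (hU : U ⊆ Set.Icc (-X) X) {g : ℝ → ℝ}
    (hg : Continuous g) : IntegrableOn g U :=
  (hg.continuousOn.integrableOn_compact isCompact_Icc).mono_set hU

/-- averaging a shifted function against the Cauchy weight over a set of finite measure -/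
theorem fubini_bound {U : Set ℝ} {X : ℝ} (hX : 0 < X) (hU : U ⊆ Set.Icc (-X) X) {g : ℝ → ℝ}
    (hg : Continuous g) {B K1 K2 : ℝ} (hB : ∀ s, |g s| ≤ B) (hK1 : 0 ≤ K1) (hK2 : 0 ≤ K2)
    (h1 : ∀ u, |u| ≤ X → ∫ t in U, g (t + u) ≤ K1) (h2 : ∀ u, ∫ t in U, g (t + u) ≤ K2) :
    IntegrableOn (fun t => ∫ u, cw 1 u * g (t + u)) U ∧
    ∫ t in U, ∫ u, cw 1 u * g (t + u) ≤ Real.pi * K1 + 2 * Real.pi * K2 / X := by
  have : IsFiniteMeasure (volume.restrict U) := ⟨by simpa using finite_of_subset hU⟩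
  have hi : Integrable (Function.uncurry fun t u => cw 1 u * g (t + u))
      ((volume.restrict U).prod volume) := by
    have h0 : Integrable (fun z : ℝ × ℝ => B * cw 1 z.2) ((volume.restrict U).prod volume) :=
      Integrable.mul_prod (integrable_const B) (integrable_cw one_pos)
    refine h0.mono' ?_ (Filter.Eventually.of_forall fun z => ?_)
    · have hc : Continuous (Function.uncurry fun t u => cw 1 u * g (t + u)) :=
        ((continuous_cw 1).comp continuous_snd).mul (hg.comp (continuous_fst.add continuous_snd))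
      exact hc.aestronglyMeasurable
    · change ‖cw 1 z.2 * g (z.1 + z.2)‖ ≤ _
      rw [Real.norm_eq_abs, abs_mul, abs_of_pos (cw_pos _ _), mul_comm]
      exact mul_le_mul_of_nonneg_right (hB _) (cw_pos _ _).le
  refine ⟨hi.integral_prod_left, ?_⟩
  rw [integral_integral_swap hi]
  have hle : ∀ u, ∫ t in U, cw 1 u * g (t + u) ≤ K1 * cw 1 u + (2 * K2 / X ^ 2) * cw X u := by
    intro u
    rw [integral_const_mul]
    have c1 := cw_pos 1 u
    have cX := cw_pos X u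
    by_cases hu : |u| ≤ X
    · have := mul_le_mul_of_nonneg_left (h1 u hu) c1.le
      have h3 : 0 ≤ (2 * K2 / X ^ 2) * cw X u := by positivity
      linarith
    · have h4 : X ^ 2 ≤ u ^ 2 := by
        rw [← sq_abs u]; exact pow_le_pow_left₀ hX.le (not_le.1 hu).le 2
      have h5 : cw 1 u ≤ 2 / X ^ 2 * cw X u := by
        unfold cw
        rw [div_one, div_pow, div_mul_div_comm, div_le_div_iff₀ (by positivity) (by positivity)]
        have : X ^ 2 * (1 + u ^ 2 / X ^ 2) = X ^ 2 + u ^ 2 := by field_simp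
        rw [this]; nlinarith
      have h6 := mul_le_mul_of_nonneg_left (h2 u) c1.le
      have h7 := mul_le_mul_of_nonneg_right h5 hK2
      have h8 : 0 ≤ K1 * cw 1 u := by positivity
      have h9 : 2 / X ^ 2 * cw X u * K2 = (2 * K2 / X ^ 2) * cw X u := by ring
      linarith
  have i1 : Integrable (fun u => K1 * cw 1 u) := (integrable_cw one_pos).const_mul _
  have i2 : Integrable (fun u => (2 * K2 / X ^ 2) * cw X u) := (integrable_cw hX).const_mul _
  have i3 : Integrable (fun u => K1 * cw 1 u + (2 * K2 / X ^ 2) * cw X u) := i1.add i2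
  refine (integral_mono hi.integral_prod_right i3 hle).trans (le_of_eq ?_)
  rw [integral_add i1 i2, integral_const_mul, integral_const_mul, integral_cw one_pos,
    integral_cw hX]
  field_simp

/-- mean square of Gx -/
theorem Gx_bound (A B : Finset ℕ) {f : ℕ → ℂ} (hf : CM f) (X : ℕ) (hx : 20 ≤ Real.log X)
    (hA : ∀ p ∈ A, p.Prime ∧ Real.log p ≤ Real.log X / 10)
    (hB : ∀ p ∈ B, p.Prime ∧ Real.log p ≤ Real.log X / 10) (hAB : Disjoint A B)
    (Θ : ℝ → ℂ) {CF : ℝ} (hCF : 0 < CF) (hΘc : Continuous Θ) (hΘ : ∀ u, ‖Θ u‖ ≤ CF * cw 1 u)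
    (hψ : ∀ v, (psi v : ℂ) = ∫ u : ℝ, Θ u * ex (-(u * v)))
    {SB C1 CR KH vol : ℝ} (hSB : ∀ t, sm B (fun p => f p / p) t ≤ SB)
    (hC1 : ∀ s : ℝ, 1 ≤ |s| → |s| ≤ 2 * X → ‖Dp A f s‖ ≤ C1)
    (hCR : ∀ s, |s| ≤ 1 → ‖Rx f X s‖ ≤ CR)
    {U : Set ℝ} (hUm : MeasurableSet U) (hU : U ⊆ Set.Icc (-(X : ℝ)) X) (hvol : volume.real U ≤ vol)
    (hKH : ∀ u, ∫ t in U, ‖Rx f X (t + u)‖ ^ 2 ≤ KH) :
    ∫ t in U, ‖Gx A B f X t‖ ^ 2 ≤ CF ^ 2 * SB * (Real.pi * (2 * Real.pi * (rs A * CR) ^ 2 + C1 ^ 2 * KH)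
      + 2 * Real.pi * (vol * (rs A * (1 + 2 * Real.log X)) ^ 2) / X) := by
  have hX0 : (0 : ℝ) < X := by
    rcases Nat.eq_zero_or_pos X with h | h
    · rw [h] at hx; simp at hx; linarith
    · exact_mod_cast h
  have : IsFiniteMeasure (volume.restrict U) := ⟨by simpa using finite_of_subset hU⟩
  have hΘi : Integrable Θ :=
    ((integrable_cw one_pos).const_mul CF).mono' hΘc.aestronglyMeasurable
      (Filter.Eventually.of_forall hΘ)
  set g : ℝ → ℝ := fun s => ‖Dp A f s‖ * ‖Rx f X s‖ with hg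
  have hgc : Continuous g := (continuous_Dp A f).norm.mul (continuous_Rx f X).norm
  have hg0 : ∀ s, 0 ≤ g s := fun s => mul_nonneg (norm_nonneg _) (norm_nonneg _)
  have hgB : ∀ s, g s ≤ rs A * (1 + 2 * Real.log X) := fun s =>
    mul_le_mul (norm_Dp_le A hf.bd s) (norm_Rx_le hf.bd X s) (norm_nonneg _) (rs_nonneg _)
  have hgB' : ∀ s, |g s| ≤ rs A * (1 + 2 * Real.log X) := fun s => by
    rw [abs_of_nonneg (hg0 s)]; exact hgB s
  have hg2 : ∀ s, g s ^ 2 ≤ (rs A * (1 + 2 * Real.log X)) ^ 2 := fun s =>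
    pow_le_pow_left₀ (hg0 s) (hgB s) 2
  have hDB : ∀ s, |‖Dp B f s‖| ≤ rs B := fun s => by
    rw [abs_of_nonneg (norm_nonneg _)]; exact norm_Dp_le B hf.bd s
  have hSB0 : 0 ≤ SB := le_trans
    (integral_nonneg fun u => mul_nonneg (cw_pos _ _).le (sq_nonneg _)) (hSB 0)
  have hKH0 : 0 ≤ KH := le_trans (integral_nonneg fun u => sq_nonneg _) (hKH 0)
  have hvol0 : 0 ≤ vol := le_trans measureReal_nonneg hvol
  have hpt : ∀ t, ‖Gx A B f X t‖ ^ 2 ≤ CF ^ 2 * SB * ∫ u, cw 1 u * g (t + u) ^ 2 := by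
    intro t
    have c1 : Continuous fun u => ‖Dp B f (t + u)‖ :=
      (continuous_Dp B f).norm.comp (continuous_const.add continuous_id)
    have c2 : Continuous fun u => g (t + u) := hgc.comp (continuous_const.add continuous_id)
    have i1 : Integrable (fun u => cw 1 u * (‖Dp B f (t + u)‖ * g (t + u))) := by
      refine integrable_cw_mul one_pos (c1.mul c2) (B := rs B * (rs A * (1 + 2 * Real.log X)))
        fun u => ?_
      rw [abs_mul]
      exact mul_le_mul (hDB _) (hgB' _) (abs_nonneg _) (rs_nonneg _)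
    have h1 : ‖Gx A B f X t‖ ≤ CF * ∫ u, cw 1 u * (‖Dp B f (t + u)‖ * g (t + u)) := by
      rw [Gx_eq_int A B hf X hx hA hB hAB Θ hΘi hψ t, ← integral_const_mul]
      refine norm_integral_le_of_norm_le (i1.const_mul CF) (Filter.Eventually.of_forall fun u => ?_)
      rw [norm_mul, norm_mul, norm_ex, mul_one, norm_mul, norm_mul]
      have h2 : 0 ≤ ‖Dp A f (t + u)‖ * ‖Dp B f (t + u)‖ * ‖Rx f X (t + u)‖ := by positivity
      refine (mul_le_mul_of_nonneg_right (hΘ u) h2).trans (le_of_eq ?_)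
      simp only [hg]; ring
    have h2 := cs_cw c1 c2 (fun u => hDB _) (fun u => hgB' _)
    have h3 : ∫ u, cw 1 u * ‖Dp B f (t + u)‖ ^ 2 ≤ SB := hSB t
    have h4 : 0 ≤ ∫ u, cw 1 u * g (t + u) ^ 2 :=
      integral_nonneg fun u => mul_nonneg (cw_pos _ _).le (sq_nonneg _)
    calc ‖Gx A B f X t‖ ^ 2 ≤ (CF * ∫ u, cw 1 u * (‖Dp B f (t + u)‖ * g (t + u))) ^ 2 :=
          pow_le_pow_left₀ (norm_nonneg _) h1 2
      _ = CF ^ 2 * (∫ u, cw 1 u * (‖Dp B f (t + u)‖ * g (t + u))) ^ 2 := by ring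
      _ ≤ CF ^ 2 * (SB * ∫ u, cw 1 u * g (t + u) ^ 2) :=
          mul_le_mul_of_nonneg_left (h2.trans (mul_le_mul_of_nonneg_right h3 h4)) (sq_nonneg _)
      _ = _ := by ring
  have hK2 : ∀ u, ∫ t in U, g (t + u) ^ 2 ≤ vol * (rs A * (1 + 2 * Real.log X)) ^ 2 := by
    intro u
    have i1 : IntegrableOn (fun t => g (t + u) ^ 2) U :=
      integrableOn_of_cont hU ((hgc.comp (continuous_id.add continuous_const)).pow 2)
    refine (integral_mono i1 (integrable_const _) fun t => hg2 _).trans ?_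
    rw [integral_const, smul_eq_mul]
    refine mul_le_mul_of_nonneg_right ?_ (sq_nonneg _)
    simpa using hvol
  have hK1 : ∀ u : ℝ, |u| ≤ X →
      ∫ t in U, g (t + u) ^ 2 ≤ 2 * Real.pi * (rs A * CR) ^ 2 + C1 ^ 2 * KH := by
    intro u hu
    have i1 : IntegrableOn (fun t => g (t + u) ^ 2) U :=
      integrableOn_of_cont hU ((hgc.comp (continuous_id.add continuous_const)).pow 2)
    have i2 : Integrable (fun t => cw 1 (t + u)) := (integrable_cw one_pos).comp_add_right u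
    have i3 : IntegrableOn (fun t => ‖Rx f X (t + u)‖ ^ 2) U :=
      integrableOn_of_cont hU
        (((continuous_Rx f X).norm.comp (continuous_id.add continuous_const)).pow 2)
    have i4 : IntegrableOn (fun t => 2 * (rs A * CR) ^ 2 * cw 1 (t + u)) U :=
      (i2.const_mul _).integrableOn
    have i5 : IntegrableOn (fun t => C1 ^ 2 * ‖Rx f X (t + u)‖ ^ 2) U := i3.const_mul _
    have hle : ∀ t ∈ U, g (t + u) ^ 2 ≤
        2 * (rs A * CR) ^ 2 * cw 1 (t + u) + C1 ^ 2 * ‖Rx f X (t + u)‖ ^ 2 := by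
      intro t ht
      have hc := cw_pos 1 (t + u)
      by_cases hs : |t + u| ≤ 1
      · have h1 : g (t + u) ≤ rs A * CR :=
          mul_le_mul (norm_Dp_le A hf.bd _) (hCR _ hs) (norm_nonneg _) (rs_nonneg _)
        have h2 : g (t + u) ^ 2 ≤ (rs A * CR) ^ 2 := pow_le_pow_left₀ (hg0 _) h1 2
        have h3 : 1 ≤ 2 * cw 1 (t + u) := by
          unfold cw
          have h4 : (t + u) ^ 2 ≤ 1 := by rw [← sq_abs]; nlinarith [abs_nonneg (t + u)]
          rw [div_one, mul_one_div, le_div_iff₀ (by positivity)]; linarith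
        have h5 : 0 ≤ C1 ^ 2 * ‖Rx f X (t + u)‖ ^ 2 := by positivity
        nlinarith [sq_nonneg (rs A * CR)]
      · have h1 : |t + u| ≤ 2 * X := by
          have h2 : |t| ≤ X := abs_le.2 ⟨(hU ht).1, (hU ht).2⟩
          have := abs_add_le t u
          linarith
        have h2 := hC1 _ (not_le.1 hs).le h1
        have h3 : g (t + u) ≤ C1 * ‖Rx f X (t + u)‖ := mul_le_mul_of_nonneg_right h2 (norm_nonneg _)
        have h4 : g (t + u) ^ 2 ≤ (C1 * ‖Rx f X (t + u)‖) ^ 2 := pow_le_pow_left₀ (hg0 _) h3 2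
        have h5 : 0 ≤ 2 * (rs A * CR) ^ 2 * cw 1 (t + u) := by positivity
        rw [mul_pow] at h4
        linarith
    have i6 : IntegrableOn (fun t => 2 * (rs A * CR) ^ 2 * cw 1 (t + u) +
        C1 ^ 2 * ‖Rx f X (t + u)‖ ^ 2) U := i4.add i5
    refine (setIntegral_mono_on i1 i6 hUm hle).trans ?_
    rw [integral_add i4 i5, integral_const_mul, integral_const_mul]
    have h6 : ∫ t in U, cw 1 (t + u) ≤ Real.pi := by
      refine (setIntegral_le_integral i2
        (Filter.Eventually.of_forall fun t => (cw_pos _ _).le)).trans (le_of_eq ?_)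
      rw [integral_add_right_eq_self (cw 1) u, integral_cw one_pos, mul_one]
    have h7 := mul_le_mul_of_nonneg_left h6 (show 0 ≤ 2 * (rs A * CR) ^ 2 by positivity)
    have h8 := mul_le_mul_of_nonneg_left (hKH u) (sq_nonneg C1)
    linarith
  obtain ⟨i1, h1⟩ := fubini_bound hX0 hU (g := fun s => g s ^ 2) (hgc.pow 2)
    (B := (rs A * (1 + 2 * Real.log X)) ^ 2)
    (fun s => by rw [abs_of_nonneg (sq_nonneg _)]; exact hg2 s)
    (by positivity) (by positivity) hK1 hK2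
  have i2 : IntegrableOn (fun t => ‖Gx A B f X t‖ ^ 2) U :=
    integrableOn_of_cont hU ((continuous_Gx A B f X).norm.pow 2)
  refine (integral_mono i2 (i1.const_mul _) hpt).trans ?_
  rw [integral_const_mul]
  exact mul_le_mul_of_nonneg_left h1 (by positivity)

/-- the number of large prime factors -/
theorem om_le (B : Finset ℕ) (hB : ∀ p ∈ B, p.Prime) {l : ℝ} (hl : ∀ p ∈ B, l ≤ Real.log p)
    {n : ℕ} (hn : 1 ≤ n) : om B n * l ≤ Real.log n := by
  unfold om
  have hd : ∏ p ∈ B.filter (fun p => p ∣ n), p ∣ n :=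
    Finset.prod_primes_dvd n (fun p hp => (hB p (mem_filter.1 hp).1).prime)
      (fun p hp => (mem_filter.1 hp).2)
  have h1 : ((∏ p ∈ B.filter (fun p => p ∣ n), p : ℕ) : ℝ) ≤ n := by
    exact_mod_cast Nat.le_of_dvd hn hd
  have hpos : ∀ p ∈ B.filter (fun p => p ∣ n), (p : ℝ) ≠ 0 := fun p hp => by
    exact_mod_cast (hB p (mem_filter.1 hp).1).ne_zero
  have h2 : Real.log ((∏ p ∈ B.filter (fun p => p ∣ n), p : ℕ) : ℝ) =
      ∑ p ∈ B.filter (fun p => p ∣ n), Real.log p := by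
    push_cast; exact Real.log_prod hpos
  have h3 : ((B.filter (fun p => p ∣ n)).card : ℝ) * l ≤
      ∑ p ∈ B.filter (fun p => p ∣ n), Real.log p := by
    have := card_nsmul_le_sum (B.filter (fun p => p ∣ n)) (fun p => Real.log p) l
      (fun p hp => hl p (mem_filter.1 hp).1)
    simpa using this
  have h4 : (0 : ℝ) < ((∏ p ∈ B.filter (fun p => p ∣ n), p : ℕ) : ℝ) := by
    exact_mod_cast Nat.pos_of_dvd_of_pos hd hn
  exact h3.trans (h2 ▸ Real.log_le_log h4 h1)

/-- mean square of the difference, by Turan-Kubilius and the mean value theorem -/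
theorem diff_bound (hT : S_TK) (hM : S_MVT) (A B : Finset ℕ) {f : ℕ → ℂ} (hf : ∀ n, ‖f n‖ ≤ 1)
    (X : ℕ) (hX : 1 ≤ X) (hA : ∀ p ∈ A, p.Prime) (hB : ∀ p ∈ B, p.Prime)
    (hAc : A.card ≤ 8 * X) (hBc : B.card ≤ 8 * X) (hLA : 0 < rs A) (hLB : 1 ≤ rs B) {K : ℝ}
    (hK : ∀ n ∈ Icc 1 (8 * X), om B n ≤ K)
    {U : Set ℝ} (hUm : MeasurableSet U) (hU : U ⊆ Set.Icc (-(X : ℝ)) X) :
    ∫ t in U, ‖Fx f X t - Gx A B f X t / ((rs A * rs B : ℝ) : ℂ)‖ ^ 2 ≤
      14688 * Real.pi * (1 / rs B + K ^ 2 / rs A) := by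
  have hX0 : (0 : ℝ) < X := by exact_mod_cast hX
  have hLB0 : 0 < rs B := by linarith
  set a : ℕ → ℂ := fun n => ((1 - om A n / rs A * (om B n / rs B) : ℝ) : ℂ) *
    (f n * ((psi (Real.log n - Real.log X) / n : ℝ) : ℂ)) with ha
  have hD : ∀ t, Fx f X t - Gx A B f X t / ((rs A * rs B : ℝ) : ℂ) =
      ∑ n ∈ Icc 1 (8 * X), a n * nit t n := by
    intro t
    unfold Fx Gx
    rw [sum_div, ← sum_sub_distrib]
    refine sum_congr rfl fun n _ => ?_
    have h1 : (rs A : ℂ) ≠ 0 := by exact_mod_cast hLA.ne'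
    have h2 : (rs B : ℂ) ≠ 0 := by exact_mod_cast hLB0.ne'
    simp only [ha]
    push_cast
    field_simp
  simp_rw [hD]
  have hc : Continuous fun t => ‖∑ n ∈ Icc 1 (8 * X), a n * nit t n‖ ^ 2 :=
    (continuous_finsetSum _ fun n _ => continuous_const.mul (continuous_nit _)).norm.pow 2
  have hbd : ∀ t, |‖∑ n ∈ Icc 1 (8 * X), a n * nit t n‖ ^ 2| ≤ (∑ n ∈ Icc 1 (8 * X), ‖a n‖) ^ 2 := by
    intro t
    rw [abs_of_nonneg (sq_nonneg _)]
    refine pow_le_pow_left₀ (norm_nonneg _) ((norm_sum_le _ _).trans (le_of_eq ?_)) 2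
    exact sum_congr rfl fun n _ => by rw [norm_mul, norm_nit, mul_one]
  have i1 := integrable_cw_mul hX0 hc hbd
  have h1 : ∫ t in U, ‖∑ n ∈ Icc 1 (8 * X), a n * nit t n‖ ^ 2 ≤
      2 * ∫ t, cw X t * ‖∑ n ∈ Icc 1 (8 * X), a n * nit t n‖ ^ 2 := by
    rw [← integral_const_mul]
    refine le_trans (setIntegral_mono_on (integrableOn_of_cont hU hc)
      (i1.const_mul 2).integrableOn hUm fun t ht => ?_)
      (setIntegral_le_integral (i1.const_mul 2) (Filter.Eventually.of_forall fun t =>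
        mul_nonneg (by norm_num) (mul_nonneg (cw_pos _ _).le (sq_nonneg _))))
    have h3 : 1 ≤ 2 * cw X t := by
      unfold cw
      have h2 : |t| ≤ X := abs_le.2 ⟨(hU ht).1, (hU ht).2⟩
      have h4 : (t / X) ^ 2 ≤ 1 := by
        rw [div_pow, div_le_one (by positivity), ← sq_abs]
        exact pow_le_pow_left₀ (abs_nonneg _) h2 2
      rw [mul_one_div, le_div_iff₀ (by positivity)]; linarith
    nlinarith [sq_nonneg ‖∑ n ∈ Icc 1 (8 * X), a n * nit t n‖]
  have h2 := hM a (8 * X) X hX0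
  have h3 : ∀ n ∈ Icc 1 (8 * X), ‖a n‖ ^ 2 ≤ 9 / (X : ℝ) ^ 2 *
      (2 * (1 - om B n / rs B) ^ 2 + 2 * K ^ 2 * (1 - om A n / rs A) ^ 2) := by
    intro n hn
    have hn0 : (0 : ℝ) < n := by exact_mod_cast (mem_Icc.1 hn).1
    have h4 : psi (Real.log n - Real.log X) / n ≤ 3 / X := by
      by_cases hψ : Real.log n - Real.log X ≤ -1
      · rw [psi_eq_zero (Or.inl hψ), zero_div]; positivity
      · have h5 : Real.log X < Real.log (3 * n) := by
          rw [Real.log_mul (by norm_num) hn0.ne']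
          have : 1 ≤ Real.log 3 := by
            rw [Real.le_log_iff_exp_le (by norm_num)]
            exact Real.exp_one_lt_d9.le.trans (by norm_num)
          linarith
        have h6 : (X : ℝ) < 3 * n := (Real.log_lt_log_iff hX0 (by positivity)).1 h5
        rw [div_le_div_iff₀ hn0 hX0]
        nlinarith [psi_le_one (Real.log n - Real.log X)]
    have h5 : 0 ≤ psi (Real.log n - Real.log X) / n := div_nonneg (psi_nonneg _) hn0.le
    have h6 : ‖a n‖ ≤ |1 - om A n / rs A * (om B n / rs B)| * (3 / X) := by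
      simp only [ha]
      rw [norm_mul, norm_mul, Complex.norm_real, Complex.norm_real, Real.norm_eq_abs,
        Real.norm_eq_abs, abs_of_nonneg h5]
      refine mul_le_mul_of_nonneg_left ?_ (abs_nonneg _)
      calc ‖f n‖ * (psi (Real.log n - Real.log X) / n) ≤ 1 * (psi (Real.log n - Real.log X) / n) :=
            mul_le_mul_of_nonneg_right (hf n) h5
        _ ≤ 3 / X := by rw [one_mul]; exact h4
    have h7 := pow_le_pow_left₀ (norm_nonneg _) h6 2
    rw [mul_pow, sq_abs] at h7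
    have hb0 : 0 ≤ om B n / rs B := div_nonneg (Nat.cast_nonneg _) hLB0.le
    have hbK : om B n / rs B ≤ K :=
      (div_le_self (Nat.cast_nonneg _) hLB).trans (hK n hn)
    have hb2 : (om B n / rs B) ^ 2 ≤ K ^ 2 := pow_le_pow_left₀ hb0 hbK 2
    set α := om A n / rs A
    set β := om B n / rs B
    have h8 : (1 - α * β) ^ 2 ≤ 2 * (1 - β) ^ 2 + 2 * K ^ 2 * (1 - α) ^ 2 := by
      have h9 := mul_le_mul_of_nonneg_right hb2 (sq_nonneg (1 - α))
      nlinarith [sq_nonneg ((1 - β) - β * (1 - α))]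
    calc ‖a n‖ ^ 2 ≤ (1 - α * β) ^ 2 * (3 / X) ^ 2 := h7
      _ ≤ (2 * (1 - β) ^ 2 + 2 * K ^ 2 * (1 - α) ^ 2) * (3 / X) ^ 2 :=
          mul_le_mul_of_nonneg_right h8 (sq_nonneg _)
      _ = _ := by ring
  have h4 := sum_le_sum h3
  rw [← mul_sum, sum_add_distrib, ← mul_sum, ← mul_sum] at h4
  have h5 := hT A (8 * X) hA hAc hLA
  have h6 := hT B (8 * X) hB hBc hLB0
  have h7 : ∑ n ∈ Icc 1 (8 * X), ‖a n‖ ^ 2 ≤ 9 / (X : ℝ) ^ 2 *
      (2 * (3 * ((8 * X : ℕ) : ℝ) / rs B) + 2 * K ^ 2 * (3 * ((8 * X : ℕ) : ℝ) / rs A)) := by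
    refine h4.trans (mul_le_mul_of_nonneg_left ?_ (by positivity))
    have := mul_le_mul_of_nonneg_left h5 (show 0 ≤ 2 * K ^ 2 by positivity)
    linarith
  have h8 := mul_le_mul_of_nonneg_left h7
    (show 0 ≤ Real.pi * ((X : ℝ) + 2 * ((8 * X : ℕ) : ℝ)) by positivity)
  refine h1.trans ((mul_le_mul_of_nonneg_left (h2.trans h8) (by norm_num)).trans (le_of_eq ?_))
  push_cast
  field_simp
  ring

end Final
end Pool.Agent.P.MP_a14ce1_nt.Ch
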