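import Pool.Agent.P.MP_a14ce1_nt.Ch.MainC

/-! The main reduction. -/

open Finset

namespace Pool.Agent.P.MP_a14ce1_nt.Ch

namespace Main

theorem SS_diff (a b h : ℕ) {Y Y' : ℕ} (hY : Y' ≤ Y) :
    |SS a b h Y - SS a b h Y'| ≤ (Y : ℝ) - Y' := by
  induction Y, hY using Nat.le_induction with
  | base => simp
  | succ Y hY ih =>
    have h1 : |SS a b h (Y + 1) - SS a b h Y| ≤ 1 := by
      unfold SS
      rw [sum_filter, sum_filter, sum_Icc_succ_top (by omega), add_sub_cancel_left]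
      split_ifs
      · rw [abs_mul, abs_lam, abs_lam, one_mul]
      · simp
    have h2 := abs_sub_le (SS a b h (Y + 1)) (SS a b h Y) (SS a b h Y')
    push_cast; linarith

end Main

open Main in
theorem core (hT : S_Trace) (hS : S_Sys) (hB : S_LemmaB) : S_Core := by
  intro a b h ha hh
  rw [Asymptotics.isLittleO_iff]
  intro ε0 hε0
  set ε := min (ε0 / 5) (1 / 2) with hεdef
  have hε : 0 < ε := lt_min (by linarith) (by norm_num)
  have hε1 : ε ≤ 1 / 2 := min_le_right _ _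
  have hε2 : 5 * ε ≤ ε0 := by have := min_le_left (ε0 / 5) (1 / 2); linarith
  obtain ⟨c, hc, h1⟩ := hS a h ε ha hh hε hε1
  obtain ⟨M, hM, h2⟩ := h1 (ε * c / 4) (by positivity)
  obtain ⟨Kc, hK, h3⟩ := h2 (max 1 ((64 * M / (ε * c)) ^ 2))
  obtain ⟨PB, hPB⟩ := hB h (ε * c / (2 * Kc)) hh (by positivity)
  obtain ⟨σ⟩ := h3 (2 * PB + 6)
  set L := rs σ.I with hLdef
  have hL1 : 1 ≤ L := (le_max_left _ _).trans σ.hL
  have hL2 : 64 * M * √L ≤ ε * c * L := by
    have h4 : 64 * M / (ε * c) ≤ √L := Real.le_sqrt_of_sq_le ((le_max_right _ _).trans σ.hL)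
    rw [div_le_iff₀ (by positivity)] at h4
    have h5 : √L * √L = L := Real.mul_self_sqrt (by linarith)
    calc 64 * M * √L ≤ √L * (ε * c) * √L := by gcongr
      _ = ε * c * (√L * √L) := by ring
      _ = _ := by rw [h5]
  have hD := σ.hD
  set R := ⌈2 * h * σ.D⌉₊ with hRdef
  have hhr : (0 : ℝ) < h := by exact_mod_cast hh
  have hR0 : 0 < R := Nat.ceil_pos.2 (by positivity)
  have hR : ∀ e ∈ σ.E, h * e.1 * pv e.2 ≤ R := by
    intro e he
    have h4 := (σ.win e he).2
    have h5 : ((h * e.1 * pv e.2 : ℕ) : ℝ) ≤ R := by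
      refine le_trans ?_ (Nat.le_ceil _)
      rw [mul_assoc, Nat.cast_mul]
      have h6 : ((e.1 * pv e.2 : ℕ) : ℝ) ≤ 2 * σ.D := by nlinarith
      calc _ ≤ (h : ℝ) * (2 * σ.D) := by gcongr
        _ = _ := by ring
    exact_mod_cast h5
  have hR4 : 4 * R ≤ 4 ^ 2 ^ σ.i := by
    have h4 : (R : ℝ) < 2 * h * σ.D + 1 := Nat.ceil_lt_add_one (by positivity)
    have h5 := σ.hm3
    have h6 : ((4 * R : ℕ) : ℝ) ≤ ((4 ^ 2 ^ σ.i : ℕ) : ℝ) := by push_cast; linarith
    exact_mod_cast h6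
  set F1 := F0 a (σ.c0 * b) with hF1
  have hF : ∀ n, |F1 n| ≤ 1 := abs_F0 _ _
  obtain ⟨B1, hB1⟩ := good_bound hT σ hh hM hL1 R hR0 hR hR4 F1 hF
  obtain ⟨B2, hB2⟩ := bad_bound σ R hR F1 hF
  have hB3 := nc_bound σ hε1 (δ := ε * c / (2 * Kc)) (by positivity) le_rfl hPB F1 hF
    (by simp [hF1, F0])
  set B := |64 * M * √L + B1 + B2| with hBdef
  have hB0 : 0 ≤ B := abs_nonneg _
  have hTot : ∀ᶠ X : ℕ in Filter.atTop,
      |∑ e ∈ σ.E, σ.w e.2 * SS a b h (X / (e.1 * pv e.2))| ≤ 3 * ε * c * L * X + B := by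
    filter_upwards [hB3] with X hX
    rw [← signal]
    simp_rw [Tot_eq, sum_add_distrib]
    have a1 := hB1 (X + 1)
    have a2 := hB2 X
    have a3 : 2 * (ε * c / (2 * Kc)) * Kc * X ≤ ε * c * L * X := by
      have : 2 * (ε * c / (2 * Kc)) * Kc = ε * c * 1 := by field_simp
      rw [this]; gcongr
    have a4 : 64 * M * √L * X ≤ ε * c * L * X := by gcongr
    have a5 := le_abs_self (64 * M * √L + B1 + B2)
    push_cast at a1
    refine (abs_add_three _ _ _).trans ?_
    nlinarith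
  have htend : Filter.Tendsto (fun Y : ℕ => ⌊σ.D * Y⌋₊) Filter.atTop Filter.atTop :=
    tendsto_nat_floor_atTop.comp (tendsto_natCast_atTop_atTop.const_mul_atTop hD)
  have hW1 : σ.D * (c * L) ≤ ∑ e ∈ σ.E, σ.w e.2 := by
    refine (mul_le_mul_of_nonneg_left σ.mass hD.le).trans ?_
    rw [mul_sum]
    refine sum_le_sum fun e he => ?_
    have h4 := (σ.win e he).1
    rw [mul_div_assoc', div_le_iff₀ (by linarith), mul_comm]
    exact mul_le_mul_of_nonneg_left h4 (σ.w_nonneg _)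
  set W1 := ∑ e ∈ σ.E, σ.w e.2
  have hDcL : 0 < σ.D * (c * L) := by positivity
  have hW0 : 0 < W1 := hDcL.trans_le hW1
  filter_upwards [htend.eventually hTot,
    tendsto_natCast_atTop_atTop (R := ℝ).eventually_ge_atTop ((2 + B / (σ.D * (c * L))) / ε)]
    with Y hY1 hY2
  set X := ⌊σ.D * Y⌋₊
  have hX1 : (X : ℝ) ≤ σ.D * Y := Nat.floor_le (by positivity)
  have hX2 : σ.D * Y < X + 1 := Nat.lt_floor_add_one _
  have hY0 : (0 : ℝ) ≤ Y := by positivity
  have hdiff : ∀ e ∈ σ.E, |SS a b h Y - SS a b h (X / (e.1 * pv e.2))| ≤ ε * Y + 2 := by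
    intro e he
    obtain ⟨h4, h5⟩ := σ.win e he
    obtain ⟨_, _, hp, hg, _⟩ := E_facts σ he
    set d := e.1 * pv e.2
    have hd : 0 < d := Nat.mul_pos hp.pos hg
    have hdr : (1 : ℝ) ≤ d := by exact_mod_cast hd
    have h6 : X / d ≤ Y := by
      refine Nat.div_le_of_le_mul ?_
      have : (X : ℝ) ≤ d * Y := hX1.trans (by gcongr)
      exact_mod_cast this
    refine (SS_diff a b h h6).trans ?_
    have h7 : (X : ℝ) < (X / d : ℕ) * d + d := by exact_mod_cast Nat.lt_div_mul_add hd (a := X)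
    have h8 : (1 - ε) * d ≤ σ.D := by nlinarith [mul_pos hε hε, mul_pos (mul_pos hε hε) hD]
    have h9 : ((1 - ε) * Y - 2) * d ≤ (X / d : ℕ) * d := by nlinarith
    have h10 := le_of_mul_le_mul_right h9 (by linarith)
    linarith
  have hkey : W1 * |SS a b h Y| ≤ W1 * (5 * ε * Y) := by
    have h4 : |W1 * SS a b h Y - ∑ e ∈ σ.E, σ.w e.2 * SS a b h (X / (e.1 * pv e.2))| ≤
        W1 * (ε * Y + 2) := by
      simp only [W1]
      rw [sum_mul, sum_mul, ← sum_sub_distrib]
      refine (abs_sum_le_sum_abs _ _).trans (sum_le_sum fun e he => ?_)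
      rw [← mul_sub, abs_mul, abs_of_nonneg (σ.w_nonneg _)]
      exact mul_le_mul_of_nonneg_left (hdiff e he) (σ.w_nonneg _)
    have h5 := abs_sub_abs_le_abs_sub (W1 * SS a b h Y)
      (∑ e ∈ σ.E, σ.w e.2 * SS a b h (X / (e.1 * pv e.2)))
    rw [abs_mul, abs_of_pos hW0] at h5
    have h6 : 3 * ε * c * L * X ≤ W1 * (3 * ε * Y) := by
      calc 3 * ε * c * L * X ≤ 3 * ε * c * L * (σ.D * Y) := by gcongr
        _ = σ.D * (c * L) * (3 * ε * Y) := by ring
        _ ≤ _ := by gcongr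
    have h7 : B ≤ W1 * (B / (σ.D * (c * L))) := by
      calc B = σ.D * (c * L) * (B / (σ.D * (c * L))) := by field_simp
        _ ≤ _ := by gcongr
    rw [div_le_iff₀ hε] at hY2
    have h8 : W1 * (2 + B / (σ.D * (c * L))) ≤ W1 * (Y * ε) := by gcongr
    nlinarith
  have h9 := le_of_mul_le_mul_left hkey hW0
  rw [Real.norm_eq_abs, Real.norm_eq_abs, abs_of_nonneg hY0]
  exact h9.trans (by gcongr)

/-- the affine form of the core statement -/
theorem affine (hC : S_Core) (a b h : ℕ) (ha : 0 < a) (hh : 0 < h) :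
    Asymptotics.IsLittleO Filter.atTop
      (fun N : ℕ => ∑ n ∈ Icc 1 N, lam (a * n + b) * lam (a * n + b + h))
      (fun N : ℕ => (N : ℝ)) := by
  have h1 := hC a b h ha hh
  have ht : Filter.Tendsto (fun N : ℕ => a * N + b) Filter.atTop Filter.atTop :=
    Filter.tendsto_atTop_mono (fun N => by
      have := Nat.le_mul_of_pos_left N ha; simp only [id]; omega) Filter.tendsto_id
  have h2 := h1.comp_tendsto ht
  have h3 : Asymptotics.IsBigO Filter.atTop (fun N : ℕ => ((a * N + b : ℕ) : ℝ))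
      (fun N : ℕ => (N : ℝ)) := by
    refine Asymptotics.IsBigO.of_bound (a + b) ?_
    filter_upwards [Filter.eventually_ge_atTop 1] with N hN
    have : (1 : ℝ) ≤ N := by exact_mod_cast hN
    rw [Real.norm_eq_abs, Real.norm_eq_abs, abs_of_nonneg (by positivity),
      abs_of_nonneg (by positivity)]
    push_cast
    nlinarith [show (0 : ℝ) ≤ b by positivity]
  have h4 := h2.trans_isBigO h3
  have h5 : Asymptotics.IsLittleO Filter.atTop (fun _ : ℕ => Main.SS a b h b)
      (fun N : ℕ => (N : ℝ)) :=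
    Asymptotics.isLittleO_const_left.2 (Or.inr (by
      simpa [Function.comp_def] using tendsto_natCast_atTop_atTop (R := ℝ)))
  refine (h4.sub h5).congr_left fun N => ?_
  change Main.SS a b h (a * N + b) - Main.SS a b h b = _
  induction N with
  | zero => simp
  | succ N ih =>
    rw [sum_Icc_succ_top (by omega), ← ih]
    have key : Main.SS a b h (a * (N + 1) + b) = Main.SS a b h (a * N + b) +
        lam (a * (N + 1) + b) * lam (a * (N + 1) + b + h) := by
      unfold Main.SS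
      have e : (Icc 1 (a * (N + 1) + b)).filter (fun m => m ≡ b [MOD a]) =
          insert (a * (N + 1) + b) ((Icc 1 (a * N + b)).filter (fun m => m ≡ b [MOD a])) := by
        ext m
        simp only [mem_filter, mem_Icc, mem_insert]
        have e1 : a * (N + 1) + b = a * N + b + a := by ring
        constructor
        · rintro ⟨⟨h6, h7⟩, h8⟩
          by_cases h9 : m ≤ a * N + b
          · exact Or.inr ⟨⟨h6, h9⟩, h8⟩
          · left
            have h10 : a * N + b ≡ m [MOD a] :=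
              ((Nat.modEq_iff_dvd' (Nat.le_add_left b (a * N))).2 (by simp)).symm.trans h8.symm
            have h11 := Nat.le_of_dvd (by omega) ((Nat.modEq_iff_dvd' (by omega)).1 h10)
            omega
        · rintro (rfl | ⟨⟨h6, h7⟩, h8⟩)
          · exact ⟨⟨by omega, le_rfl⟩,
              ((Nat.modEq_iff_dvd' (Nat.le_add_left b _)).2 (by simp)).symm⟩
          · exact ⟨⟨h6, by omega⟩, h8⟩
      rw [e, sum_insert, add_comm]
      intro hm
      have := (mem_Icc.1 (mem_filter.1 hm).1).2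
      have e1 : a * (N + 1) + b = a * N + b + a := by ring
      omega
    rw [key]; ring

theorem two_point_lt (hC : S_Core) (a1 a2 b1 b2 : ℕ) (h1 : 0 < a1) (h2 : 0 < a2)
    (h : a2 * b1 < a1 * b2) :
    Asymptotics.IsLittleO Filter.atTop
      (fun N : ℕ => ∑ n ∈ Icc 1 N, lam (a1 * n + b1) * lam (a2 * n + b2))
      (fun N : ℕ => (N : ℝ)) := by
  have h3 := (affine hC (a1 * a2) (a2 * b1) (a1 * b2 - a2 * b1) (Nat.mul_pos h1 h2)
    (by omega)).const_mul_left (lam a1 * lam a2)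
  refine h3.congr_left fun N => ?_
  rw [mul_sum]
  refine sum_congr rfl fun n hn => ?_
  have hn0 : 0 < n := (mem_Icc.1 hn).1
  have e1 : a1 * a2 * n + a2 * b1 = a2 * (a1 * n + b1) := by ring
  have e2 : a1 * a2 * n + a2 * b1 + (a1 * b2 - a2 * b1) = a1 * (a2 * n + b2) := by
    rw [add_assoc, Nat.add_sub_cancel' h.le]; ring
  have p1 : a1 * n + b1 ≠ 0 := by have := Nat.mul_pos h1 hn0; omega
  have p2 : a2 * n + b2 ≠ 0 := by have := Nat.mul_pos h2 hn0; omega
  rw [e2, e1, lam_mul h2.ne' p1, lam_mul h1.ne' p2]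
  linear_combination (lam (a1 * n + b1) * lam (a2 * n + b2) * lam a2 * lam a2) * lam_sq a1 +
    (lam (a1 * n + b1) * lam (a2 * n + b2)) * lam_sq a2

theorem two_point (hC : S_Core) (a1 a2 b1 b2 : ℕ) (h1 : 0 < a1) (h2 : 0 < a2)
    (h : a1 * b2 ≠ a2 * b1) :
    Asymptotics.IsLittleO Filter.atTop
      (fun N : ℕ => ∑ n ∈ Icc 1 N, lam (a1 * n + b1) * lam (a2 * n + b2))
      (fun N : ℕ => (N : ℝ)) := by
  rcases lt_or_gt_of_ne h with h3 | h3
  · refine (two_point_lt hC a2 a1 b2 b1 h2 h1 h3).congr_left fun N => ?_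
    exact sum_congr rfl fun n _ => mul_comm _ _
  · exact two_point_lt hC a1 a2 b1 b2 h1 h2 h3

end Pool.Agent.P.MP_a14ce1_nt.Ch
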