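import Pool.Agent.P.MP_a14ce1_nt.Ch.MainA

/-! The centred good part of the main reduction. -/

open Finset

namespace Pool.Agent.P.MP_a14ce1_nt.Ch.Main

variable {a h : ℕ} {ε c ρ M L0 Kc : ℝ} {P0 : ℕ}

/-- centred divisibility indicator -/
noncomputable def ind (p n : ℕ) : ℝ := (if p ∣ n then 1 else 0) - 1 / (p : ℝ)

theorem abs_ind_le {p : ℕ} (hp : p.Prime) (n : ℕ) : |ind p n| ≤ 1 := by
  have h1 : (1 : ℝ) ≤ p := by exact_mod_cast hp.one_le
  have h2 : (1 : ℝ) / p ≤ 1 := by rw [div_le_one (by linarith)]; exact h1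
  have h3 : (0 : ℝ) ≤ 1 / p := by positivity
  unfold ind; rw [abs_le]; split_ifs <;> constructor <;> linarith

/-- the cofactors that are good at both ends of the edge -/
def gd2 (σ : Sys a h ε c ρ M L0 Kc P0) (p n : ℕ) : Finset (Finset ℕ) :=
  (σ.gd p (Tn σ.G n)).filter (fun g => g ∈ σ.gd p (Tn σ.G (n + h * p * pv g)))

noncomputable def Gam (σ : Sys a h ε c ρ M L0 Kc P0) (F1 : ℕ → ℝ) (n : ℕ) : ℝ :=
  ∑ p ∈ σ.I, ∑ g ∈ gd2 σ p n, σ.w g * ind p n * (F1 n * lam (n + h * p * pv g))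

noncomputable def kk (σ : Sys a h ε c ρ M L0 Kc P0) (R y p j j' : ℕ) : ℝ :=
  ∑ g ∈ (σ.gd p (Tn σ.G (y + j))).filter
    (fun g => j < R ∧ j' = j + h * p * pv g ∧ g ∈ σ.gd p (Tn σ.G (y + j'))), σ.w g

noncomputable def KK (σ : Sys a h ε c ρ M L0 Kc P0) (R y p : ℕ) (v v' : Fin (2 * R) × Bool) : ℝ :=
  if v.2 = false ∧ v'.2 = true then kk σ R y p v.1 v'.1
  else if v.2 = true ∧ v'.2 = false then kk σ R y p v'.1 v.1 else 0

def sg (b : Bool) : ℤ := if b then -1 else 1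

theorem kk_nonneg (σ : Sys a h ε c ρ M L0 Kc P0) (R y p j j' : ℕ) : 0 ≤ kk σ R y p j j' :=
  sum_nonneg fun g _ => σ.w_nonneg g

theorem KK_nonneg (σ : Sys a h ε c ρ M L0 Kc P0) (R y p : ℕ) (v v' : Fin (2 * R) × Bool) :
    0 ≤ KK σ R y p v v' := by
  unfold KK; split_ifs
  · exact kk_nonneg ..
  · exact kk_nonneg ..
  · exact le_rfl

theorem KK_symm (σ : Sys a h ε c ρ M L0 Kc P0) (R y p : ℕ) (v v' : Fin (2 * R) × Bool) :
    KK σ R y p v v' = KK σ R y p v' v := by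
  obtain ⟨j, b⟩ := v; obtain ⟨j', b'⟩ := v'
  cases b <;> cases b' <;> simp [KK]

theorem KK_le (σ : Sys a h ε c ρ M L0 Kc P0) (R y p : ℕ) (v v' : Fin (2 * R) × Bool) :
    KK σ R y p v v' ≤ ∑ g ∈ σ.gd p (Tn σ.G (y + v.1)),
      if v'.2 = !v.2 ∧ ((v'.1 : ℕ) : ℤ) = ((v.1 : ℕ) : ℤ) + sg v.2 * (h * p * pv g : ℕ) then σ.w g
      else 0 := by
  obtain ⟨j, b⟩ := v; obtain ⟨j', b'⟩ := v'
  rw [← sum_filter]
  cases b <;> cases b'
  · simp [KK]
  · simp only [KK, and_self, if_true, kk]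
    refine sum_le_sum_of_subset_of_nonneg ?_ (fun g _ _ => σ.w_nonneg g)
    intro g hg
    obtain ⟨h1, _, h3, _⟩ := mem_filter.1 hg
    refine mem_filter.2 ⟨h1, by simp, ?_⟩
    rw [h3]; simp [sg]
  · simp only [KK, Bool.true_eq_false, and_self, if_true, kk]
    refine sum_le_sum_of_subset_of_nonneg ?_ (fun g _ _ => σ.w_nonneg g)
    intro g hg
    obtain ⟨_, _, h3, h4⟩ := mem_filter.1 hg
    refine mem_filter.2 ⟨h4, by simp, ?_⟩
    rw [h3]; simp [sg]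
  · simp [KK]

theorem sum_KK_le (σ : Sys a h ε c ρ M L0 Kc P0) (R y p : ℕ) (v : Fin (2 * R) × Bool)
    (S : Finset (Fin (2 * R) × Bool)) (Q : Finset ℕ → Prop) [DecidablePred Q]
    (hQ : ∀ g, ∀ v' ∈ S,
      ((v'.1 : ℕ) : ℤ) = ((v.1 : ℕ) : ℤ) + sg v.2 * (h * p * pv g : ℕ) → Q g) :
    ∑ v' ∈ S, |KK σ R y p v v'| ≤ ∑ g ∈ (σ.gd p (Tn σ.G (y + v.1))).filter Q, σ.w g := by
  simp_rw [abs_of_nonneg (KK_nonneg σ R y p v _)]
  refine (sum_le_sum fun v' _ => KK_le σ R y p v v').trans ?_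
  rw [sum_comm, sum_filter]
  refine sum_le_sum fun g _ => ?_
  rw [← sum_filter, sum_const, nsmul_eq_mul]
  have hc : (S.filter (fun v' => v'.2 = !v.2 ∧
      ((v'.1 : ℕ) : ℤ) = ((v.1 : ℕ) : ℤ) + sg v.2 * (h * p * pv g : ℕ))).card ≤ 1 := by
    rw [card_le_one]
    intro u hu u' hu'
    obtain ⟨_, h1, h2⟩ := mem_filter.1 hu
    obtain ⟨_, h3, h4⟩ := mem_filter.1 hu'
    refine Prod.ext (Fin.ext ?_) (h1.trans h3.symm)
    exact_mod_cast h2.trans h4.symm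
  split_ifs with hq
  · have : ((S.filter (fun v' => v'.2 = !v.2 ∧
      ((v'.1 : ℕ) : ℤ) = ((v.1 : ℕ) : ℤ) + sg v.2 * (h * p * pv g : ℕ))).card : ℝ) ≤ 1 := by
      exact_mod_cast hc
    nlinarith [σ.w_nonneg g]
  · rw [filter_eq_empty_iff.2 (fun v' hv' hh => hq (hQ g v' hv' hh.2))]
    simp

theorem KK_sup (σ : Sys a h ε c ρ M L0 Kc P0) (R y p : ℕ) (v v' : Fin (2 * R) × Bool)
    (hne : KK σ R y p v v' ≠ 0) : ((v.1 : ℕ) : ℤ) ≡ ((v'.1 : ℕ) : ℤ) [ZMOD p] := by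
  by_contra hc
  apply hne
  refine le_antisymm ((KK_le σ R y p v v').trans (le_of_eq ?_)) (KK_nonneg ..)
  refine sum_eq_zero fun g _ => if_neg ?_
  rintro ⟨_, h2⟩
  apply hc
  rw [h2, Int.modEq_iff_dvd]
  exact ⟨sg v.2 * (h * pv g), by push_cast; ring⟩

theorem KK_cls (σ : Sys a h ε c ρ M L0 Kc P0) (hh : 0 < h) (hM : 0 < M) (R y : ℕ) {p p' : ℕ}
    (hp : p ∈ σ.I) (hp' : p' ∈ σ.I) (hne : p' ≠ p) (v : Fin (2 * R) × Bool) (r : ℤ) :
    ∑ v' ∈ univ.filter (fun v' : Fin (2 * R) × Bool => ((v'.1 : ℕ) : ℤ) ≡ r [ZMOD p']),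
      |KK σ R y p v v'| ≤ σ.η * M * σ.V (Tn σ.G (y + v.1)) := by
  refine (sum_KK_le σ R y p v _
    (fun g => ((v.1 : ℕ) : ℤ) + sg v.2 * (h * p * pv g : ℕ) ≡ r [ZMOD p']) ?_).trans ?_
  · intro g v' hv' he
    rw [← he]; exact (mem_filter.1 hv').2
  · rcases ((σ.gd p (Tn σ.G (y + v.1))).filter
      (fun g => ((v.1 : ℕ) : ℤ) + sg v.2 * (h * p * pv g : ℕ) ≡ r [ZMOD p'])).eq_empty_or_nonempty
      with he | ⟨g0, hg0⟩
    · rw [he, sum_empty]
      exact mul_nonneg (mul_nonneg σ.η_nonneg hM.le) (σ.V_pos _).le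
    · refine le_trans ?_ (σ.cls p hp p' hp' _ (Tn_sub _ _) (pv g0))
      refine sum_le_sum_of_subset_of_nonneg ?_ (fun g _ _ => σ.w_nonneg g)
      intro g hg
      obtain ⟨h1, h2⟩ := mem_filter.1 hg
      refine mem_filter.2 ⟨h1, ?_⟩
      have h3 := (h2.trans (mem_filter.1 hg0).2.symm).add_left_cancel' _
      have hp'p := (σ.hI p' hp').1
      have hcop : Nat.Coprime p' (h * p) := by
        refine Nat.Coprime.mul_right ?_ ((Nat.coprime_primes hp'p (σ.hI p hp).1).2 hne)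
        refine (Nat.Prime.coprime_iff_not_dvd hp'p).2 (fun hd => ?_)
        have := Nat.le_of_dvd hh hd
        have := σ.hh; have := (σ.hI p' hp').2
        omega
      have h4 : ((h * p * pv g : ℕ) : ℤ) ≡ ((h * p * pv g0 : ℕ) : ℤ) [ZMOD p'] := by
        have := h3.mul_left (sg v.2)
        have e : sg v.2 * sg v.2 = 1 := by cases v.2 <;> simp [sg]
        rwa [← mul_assoc, ← mul_assoc, e, one_mul, one_mul] at this
      have h5 : h * p * pv g ≡ h * p * pv g0 [MOD p'] := Int.natCast_modEq_iff.1 h4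
      exact Nat.ModEq.cancel_left_of_coprime hcop h5

theorem gd_mem_E (σ : Sys a h ε c ρ M L0 Kc P0) {p : ℕ} {T g : Finset ℕ} (hg : g ∈ σ.gd p T) :
    g ⊆ T ∧ (p, g) ∈ σ.E := by
  have := mem_filter.1 (σ.gd_sub p T hg)
  exact ⟨mem_powerset.1 this.1, this.2⟩

theorem form_eq (σ : Sys a h ε c ρ M L0 Kc P0) (R : ℕ) (hR : ∀ e ∈ σ.E, h * e.1 * pv e.2 ≤ R)
    (F1 : ℕ → ℝ) (x : ℕ) :
    ∑ v : Fin (2 * R) × Bool, ∑ v' : Fin (2 * R) × Bool,
      (if v.2 then lam (x + v.1) else F1 (x + v.1)) *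
        (if v'.2 then lam (x + v'.1) else F1 (x + v'.1)) *
        ∑ p ∈ σ.I, KK σ R (x % pv σ.G) p v v' *
          ((if (p : ℤ) ∣ ((x % pv σ.I : ℕ) : ℤ) + ((v.1 : ℕ) : ℤ) then 1 else 0) - 1 / (p : ℝ)) =
      2 * ∑ j ∈ range R, Gam σ F1 (x + j) := by
  have hT : ∀ j, Tn σ.G (x % pv σ.G + j) = Tn σ.G (x + j) :=
    fun j => Tn_congr ((Nat.mod_modEq x _).add_right j)
  have hI : ∀ p ∈ σ.I, ∀ j : ℕ,
      ((if (p : ℤ) ∣ ((x % pv σ.I : ℕ) : ℤ) + (j : ℤ) then 1 else 0) - 1 / (p : ℝ)) =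
        ind p (x + j) := by
    intro p hp j
    unfold ind
    have : (p : ℤ) ∣ ((x % pv σ.I : ℕ) : ℤ) + (j : ℤ) ↔ p ∣ x + j := by
      rw [← Nat.cast_add, Int.natCast_dvd_natCast]
      exact (((Nat.mod_modEq x _).add_right j).of_dvd (dvd_pv hp)).dvd_iff (dvd_refl p)
    simp only [this]
  set W : ℕ → ℕ → ℝ := fun j j' =>
    F1 (x + j) * lam (x + j') * ∑ p ∈ σ.I, kk σ R (x % pv σ.G) p j j' * ind p (x + j) with hW
  have hswap : ∀ p j j', kk σ R (x % pv σ.G) p j j' * ind p (x + j') =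
      kk σ R (x % pv σ.G) p j j' * ind p (x + j) := by
    intro p j j'
    unfold kk
    rw [sum_mul, sum_mul]
    refine sum_congr rfl fun g hg => ?_
    obtain ⟨_, _, h3, _⟩ := mem_filter.1 hg
    have : p ∣ x + j' ↔ p ∣ x + j := by
      rw [h3, ← add_assoc]
      exact (Nat.dvd_add_iff_left ⟨h * pv g, by ring⟩).symm
    simp only [ind, this]
  have h1 : ∑ j ∈ range (2 * R), ∑ j' ∈ range (2 * R), W j j' =
      ∑ j ∈ range R, Gam σ F1 (x + j) := by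
    have h2 : ∀ j, ∑ j' ∈ range (2 * R), W j j' = if j < R then Gam σ F1 (x + j) else 0 := by
      intro j
      split_ifs with hj
      · simp only [hW, mul_sum, Gam]
        rw [sum_comm]
        refine sum_congr rfl fun p _ => ?_
        simp only [kk, hT, sum_filter, gd2, sum_mul, mul_sum]
        rw [sum_comm]
        refine sum_congr rfl fun g hg => ?_
        have hle : h * p * pv g ≤ R := hR _ (gd_mem_E σ hg).2
        rw [sum_eq_single (j + h * p * pv g)]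
        · simp only [hj, true_and, add_assoc]
          split_ifs <;> ring
        · intro j' _ hne
          rw [if_neg (fun hh => hne hh.2.1)]; simp
        · intro hn; exact absurd (mem_range.2 (by omega)) hn
      · refine sum_eq_zero fun j' _ => ?_
        simp [hW, kk, hj]
    simp_rw [h2]
    rw [← sum_filter]
    congr 1
    ext j; simp only [mem_filter, mem_range]; omega
  rw [← h1, two_mul (∑ j ∈ range (2 * R), ∑ j' ∈ range (2 * R), W j j')]
  simp only [Fintype.sum_prod_type, Fintype.sum_bool]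
  simp only [KK, Bool.true_eq_false, Bool.false_eq_true, and_self, and_false, and_true,
    if_true, if_false, zero_mul, sum_const_zero, mul_zero, zero_add, add_zero, sum_add_distrib]
  congr 1
  · rw [sum_comm (s := range (2 * R)),
      ← Fin.sum_univ_eq_sum_range (fun j' => ∑ j ∈ range (2 * R), W j j')]
    refine sum_congr rfl fun j' _ => ?_
    rw [← Fin.sum_univ_eq_sum_range (fun j => W j j')]
    refine sum_congr rfl fun j _ => ?_
    simp only [hW]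
    rw [mul_comm (lam _)]
    congr 1
    refine sum_congr rfl fun p hp => ?_
    rw [hI p hp, hswap]
  · rw [← Fin.sum_univ_eq_sum_range (fun j => ∑ j' ∈ range (2 * R), W j j')]
    refine sum_congr rfl fun j _ => ?_
    rw [← Fin.sum_univ_eq_sum_range (fun j' => W j j')]
    refine sum_congr rfl fun j' _ => ?_
    simp only [hW]
    congr 1
    refine sum_congr rfl fun p hp => ?_
    rw [hI p hp]

theorem abs_Gam_le (σ : Sys a h ε c ρ M L0 Kc P0) (F1 : ℕ → ℝ) (hF : ∀ n, |F1 n| ≤ 1) (n : ℕ) :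
    |Gam σ F1 n| ≤ ∑ _p ∈ σ.I, ∑ g ∈ σ.G.powerset, σ.w g := by
  refine (abs_sum_le_sum_abs _ _).trans (sum_le_sum fun p hp => ?_)
  refine (abs_sum_le_sum_abs _ _).trans ?_
  refine le_trans (sum_le_sum (g := fun g => σ.w g) fun g _ => ?_)
    (sum_le_sum_of_subset_of_nonneg ?_ (fun g _ _ => σ.w_nonneg g))
  · rw [abs_mul, abs_mul, abs_mul, abs_lam, abs_of_nonneg (σ.w_nonneg g), mul_one, mul_assoc]
    exact mul_le_of_le_one_right (σ.w_nonneg g)
      (mul_le_one₀ (abs_ind_le (σ.hI p hp).1 n) (abs_nonneg _) (hF n))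
  · intro g hg
    exact mem_powerset.2 ((gd_mem_E σ (mem_filter.1 hg).1).1.trans (Tn_sub _ _))

theorem good_bound (hT : S_Trace) (σ : Sys a h ε c ρ M L0 Kc P0) (hh : 0 < h) (hM : 0 < M)
    (hL : 1 ≤ rs σ.I) (R : ℕ) (hR0 : 0 < R) (hR : ∀ e ∈ σ.E, h * e.1 * pv e.2 ≤ R)
    (hR4 : 4 * R ≤ 4 ^ 2 ^ σ.i) (F1 : ℕ → ℝ) (hF : ∀ n, |F1 n| ≤ 1) :
    ∃ B : ℝ, ∀ X : ℕ, |∑ n ∈ range X, Gam σ F1 n| ≤ 64 * M * √(rs σ.I) * X + B := by
  have htr := fun y : ℕ => hT (Fin (2 * R) × Bool) (fun v => ((v.1 : ℕ) : ℤ)) σ.I σ.H (KK σ R y)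
    (fun v => σ.V (Tn σ.G (y + v.1))) M σ.η σ.i σ.hI hL (fun v => σ.V_pos _) hM σ.η_nonneg
    (KK_symm σ R y)
    (fun p hp v => by
      refine (sum_KK_le σ R y p v univ (fun _ => True) (fun _ _ _ _ => trivial)).trans ?_
      rw [filter_true]
      exact σ.row p hp _ (Tn_sub _ _))
    (fun p hp p' hp' hne v r => KK_cls σ hh hM R y hp hp' hne v r)
    (fun p _ v v' hne => KK_sup σ R y p v v' hne) σ.hm1 σ.hm2
    (by simp only [Fintype.card_prod, Fintype.card_fin, Fintype.card_bool]; omega)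
  choose β hβ0 hβ1 hβ2 using htr
  have hQI : 0 < pv σ.I := pv_pos fun p hp => (σ.hI p hp).1
  have hQG : 0 < pv σ.G := pv_pos σ.hG
  have hcop : Nat.Coprime (pv σ.I) (pv σ.G) :=
    Nat.Coprime.prod_left fun p hp =>
      coprime_pv σ.hG (σ.hI p hp).1 (fun hG => disjoint_left.1 σ.disj hp hG)
  set W0 := ∑ _p ∈ σ.I, ∑ g ∈ σ.G.powerset, σ.w g
  have hW := abs_Gam_le σ F1 hF
  have hW0 : 0 ≤ W0 := (abs_nonneg _).trans (hW 0)
  set A := M * √(rs σ.I) with hA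
  have hA0 : 0 ≤ A := by positivity
  -- total mass of β
  have hmass : ∑ y ∈ range (pv σ.G), ∑ r ∈ range (pv σ.I), β y r ≤
      (pv σ.I * pv σ.G : ℝ) * (128 * A * R) := by
    refine (sum_le_sum fun y _ => hβ2 y).trans ?_
    rw [← mul_sum, ← mul_sum, sum_comm]
    have : ∑ v : Fin (2 * R) × Bool, ∑ y ∈ range (pv σ.G), σ.V (Tn σ.G (y + v.1)) ≤
        ∑ _v : Fin (2 * R) × Bool, (pv σ.G : ℝ) := by
      refine sum_le_sum fun v _ => ?_
      rw [crt_eq σ.G σ.hG σ.V]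
      exact mul_le_of_le_one_right (by positivity) σ.V_mean
    rw [sum_const, card_univ, nsmul_eq_mul] at this
    simp only [Fintype.card_prod, Fintype.card_fin, Fintype.card_bool] at this
    push_cast at this
    calc _ ≤ (pv σ.I : ℝ) * (32 * M * √(rs σ.I) * (2 * R * 2 * pv σ.G)) := by gcongr
      _ = _ := by rw [hA]; ring
  refine ⟨64 * A * (pv σ.I * pv σ.G) + 2 * R * W0, fun X => ?_⟩
  have h1 := two_mod hQI hQG hcop (fun r y => β y r) (fun r y => hβ0 y r) X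
  have hQ : (0 : ℝ) < pv σ.I * pv σ.G := by positivity
  have h2 : ∑ x ∈ range X, β (x % pv σ.G) (x % pv σ.I) ≤
      (X + pv σ.I * pv σ.G) * (128 * A * R) := by
    have h3 := h1.trans (mul_le_mul_of_nonneg_left hmass (by positivity))
    rw [mul_left_comm] at h3
    exact le_of_mul_le_mul_left h3 hQ
  have h4 : ∀ x, 2 * |∑ j ∈ range R, Gam σ F1 (x + j)| ≤ β (x % pv σ.G) (x % pv σ.I) := by
    intro x
    have h5 := hβ1 (x % pv σ.G) (x % pv σ.I)
      (fun v => if v.2 then lam (x + v.1) else F1 (x + v.1))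
      (fun v => by split_ifs; exacts [(abs_lam _).le, hF _])
    rw [form_eq σ R hR F1 x, abs_mul, abs_two] at h5
    exact h5
  have h6 : |∑ j ∈ range R, ∑ x ∈ range X, Gam σ F1 (x + j)| ≤
      (X + pv σ.I * pv σ.G) * (64 * A * R) := by
    rw [sum_comm]
    refine (abs_sum_le_sum_abs _ _).trans ?_
    have := sum_le_sum (s := range X) fun x _ => h4 x
    rw [← mul_sum] at this
    linarith
  have h7 : |∑ j ∈ range R, ∑ x ∈ range X, Gam σ F1 (x + j) - R * ∑ x ∈ range X, Gam σ F1 x| ≤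
      R * (2 * R * W0) := by
    have e : (R : ℝ) * ∑ x ∈ range X, Gam σ F1 x = ∑ _j ∈ range R, ∑ x ∈ range X, Gam σ F1 x := by
      rw [sum_const, card_range, nsmul_eq_mul]
    rw [e, ← sum_sub_distrib]
    refine (abs_sum_le_sum_abs _ _).trans ?_
    refine (sum_le_sum (g := fun _ => 2 * R * W0) fun j hj => ?_).trans ?_
    · refine (shift_sum _ W0 hW X j).trans ?_
      have : (j : ℝ) ≤ R := by exact_mod_cast (mem_range.1 hj).le
      gcongr
    · rw [sum_const, card_range, nsmul_eq_mul]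
  have hRp : (0 : ℝ) < R := by exact_mod_cast hR0
  have h8 : R * |∑ x ∈ range X, Gam σ F1 x| ≤
      R * (64 * A * X + (64 * A * (pv σ.I * pv σ.G) + 2 * R * W0)) := by
    have := abs_sub_abs_le_abs_sub (R * ∑ x ∈ range X, Gam σ F1 x)
      (∑ j ∈ range R, ∑ x ∈ range X, Gam σ F1 (x + j))
    rw [abs_sub_comm, abs_mul, abs_of_pos hRp] at this
    nlinarith
  have h9 := le_of_mul_le_mul_left h8 hRp
  rw [hA] at h9 ⊢
  linarith

end Pool.Agent.P.MP_a14ce1_nt.Ch.Main
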