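import Pool.Agent.P.MP_a14ce1_nt.Ch.MainB

/-! The bad part, the non-centred part and the signal of the main reduction. -/

open Finset

namespace Pool.Agent.P.MP_a14ce1_nt.Ch.Main

variable {a h : ℕ} {ε c ρ M L0 Kc : ℝ} {P0 : ℕ}

def Eg (σ : Sys a h ε c ρ M L0 Kc P0) (p : ℕ) (T : Finset ℕ) : Finset (Finset ℕ) :=
  T.powerset.filter (fun g => (p, g) ∈ σ.E)

noncomputable def Tot (σ : Sys a h ε c ρ M L0 Kc P0) (F1 : ℕ → ℝ) (n : ℕ) : ℝ :=
  ∑ p ∈ σ.I, ∑ g ∈ Eg σ p (Tn σ.G n),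
    σ.w g * (if p ∣ n then 1 else 0) * (F1 n * lam (n + h * p * pv g))

noncomputable def Bad (σ : Sys a h ε c ρ M L0 Kc P0) (F1 : ℕ → ℝ) (n : ℕ) : ℝ :=
  ∑ p ∈ σ.I, ∑ g ∈ Eg σ p (Tn σ.G n) \ gd2 σ p n,
    σ.w g * ind p n * (F1 n * lam (n + h * p * pv g))

noncomputable def NC (σ : Sys a h ε c ρ M L0 Kc P0) (F1 : ℕ → ℝ) (n : ℕ) : ℝ :=
  ∑ p ∈ σ.I, ∑ g ∈ Eg σ p (Tn σ.G n), σ.w g * (1 / (p : ℝ)) * (F1 n * lam (n + h * p * pv g))

theorem Tot_eq (σ : Sys a h ε c ρ M L0 Kc P0) (F1 : ℕ → ℝ) (n : ℕ) :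
    Tot σ F1 n = Gam σ F1 n + Bad σ F1 n + NC σ F1 n := by
  unfold Tot Gam Bad NC
  rw [← sum_add_distrib, ← sum_add_distrib]
  refine sum_congr rfl fun p _ => ?_
  have hs : gd2 σ p n ⊆ Eg σ p (Tn σ.G n) := (filter_subset _ _).trans (σ.gd_sub _ _)
  rw [add_comm (∑ g ∈ gd2 σ p n, _), sum_sdiff hs, ← sum_add_distrib]
  refine sum_congr rfl fun g _ => ?_
  unfold ind; ring

theorem sum_dvd_range (f : ℕ → ℝ) {d : ℕ} (hd : 0 < d) (X : ℕ) :
    ∑ n ∈ range (X + 1), (if d ∣ n then f n else 0) = ∑ m ∈ range (X / d + 1), f (d * m) := by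
  rw [← sum_filter]
  refine sum_nbij' (fun n => n / d) (fun m => d * m) ?_ ?_ ?_ ?_ ?_
  · intro n hn
    have := mem_range.1 (mem_filter.1 hn).1
    exact mem_range.2 (Nat.lt_succ_of_le (Nat.div_le_div_right (by omega)))
  · intro m hm
    have h1 := Nat.le_of_lt_succ (mem_range.1 hm)
    refine mem_filter.2 ⟨mem_range.2 (Nat.lt_succ_of_le ?_), Dvd.intro _ rfl⟩
    exact (Nat.mul_le_mul_left d h1).trans (Nat.mul_div_le _ _)
  · intro n hn; exact Nat.mul_div_cancel' (mem_filter.1 hn).2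
  · intro m _; exact Nat.mul_div_cancel_left m hd
  · intro n hn; rw [Nat.mul_div_cancel' (mem_filter.1 hn).2]

theorem sum_Eg (σ : Sys a h ε c ρ M L0 Kc P0) (φ : ℕ → Finset ℕ → ℝ) (n : ℕ) :
    ∑ p ∈ σ.I, ∑ g ∈ Eg σ p (Tn σ.G n), φ p g =
      ∑ e ∈ σ.E, if pv e.2 ∣ n then φ e.1 e.2 else 0 := by
  have h1 : ∀ p, Eg σ p (Tn σ.G n) = σ.G.powerset.filter (fun g => (p, g) ∈ σ.E ∧ pv g ∣ n) := by
    intro p; ext g
    simp only [Eg, mem_filter, mem_powerset]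
    constructor
    · rintro ⟨h1, h2⟩
      have hG := h1.trans (Tn_sub _ _)
      exact ⟨hG, h2, (sub_Tn_iff σ.hG hG n).1 h1⟩
    · rintro ⟨h1, h2, h3⟩
      exact ⟨(sub_Tn_iff σ.hG h1 n).2 h3, h2⟩
  simp_rw [h1, sum_filter]
  rw [← sum_product' (f := fun p g => if (p, g) ∈ σ.E ∧ pv g ∣ n then φ p g else 0)]
  symm
  refine sum_subset_zero_on_sdiff σ.hE ?_ ?_
  · intro e he
    rw [if_neg (fun hh => (mem_sdiff.1 he).2 hh.1)]
  · intro e he
    simp [he]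

/-- the class-restricted Liouville function, zero at the origin -/
noncomputable def F0 (a r n : ℕ) : ℝ := if n ≠ 0 ∧ n ≡ r [MOD a] then lam n else 0

theorem abs_F0 (a r n : ℕ) : |F0 a r n| ≤ 1 := by
  unfold F0; split_ifs
  · exact (abs_lam n).le
  · simp

noncomputable def SS (a b h Y : ℕ) : ℝ :=
  ∑ m ∈ (Icc 1 Y).filter (fun m => m ≡ b [MOD a]), lam m * lam (m + h)

theorem E_facts (σ : Sys a h ε c ρ M L0 Kc P0) {e : ℕ × Finset ℕ} (he : e ∈ σ.E) :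
    e.1 ∈ σ.I ∧ e.2 ⊆ σ.G ∧ e.1.Prime ∧ 0 < pv e.2 ∧ Nat.Coprime e.1 (pv e.2) := by
  obtain ⟨h1, h2⟩ := mem_product.1 (σ.hE he)
  have h3 := mem_powerset.1 h2
  have h4 : ∀ q ∈ e.2, q.Prime := fun q hq => σ.hG q (h3 hq)
  exact ⟨h1, h3, (σ.hI _ h1).1, pv_pos h4,
    coprime_pv h4 (σ.hI _ h1).1 (fun hh => disjoint_left.1 σ.disj h1 (h3 hh))⟩

theorem signal (σ : Sys a h ε c ρ M L0 Kc P0) (b X : ℕ) :
    ∑ n ∈ range (X + 1), Tot σ (F0 a (σ.c0 * b)) n =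
      ∑ e ∈ σ.E, σ.w e.2 * SS a b h (X / (e.1 * pv e.2)) := by
  unfold Tot
  simp_rw [sum_Eg]
  rw [sum_comm]
  refine sum_congr rfl fun e he => ?_
  obtain ⟨_, _, hp, hg, hc⟩ := E_facts σ he
  have hd : 0 < e.1 * pv e.2 := Nat.mul_pos hp.pos hg
  have h1 : ∀ n, (if pv e.2 ∣ n then σ.w e.2 * (if e.1 ∣ n then 1 else 0) *
      (F0 a (σ.c0 * b) n * lam (n + h * e.1 * pv e.2)) else 0) =
      if e.1 * pv e.2 ∣ n then σ.w e.2 * (F0 a (σ.c0 * b) n * lam (n + h * e.1 * pv e.2))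
      else 0 := by
    intro n
    by_cases h2 : e.1 * pv e.2 ∣ n
    · rw [if_pos h2, if_pos (Dvd.dvd.trans (Dvd.intro_left _ rfl) h2),
        if_pos (Dvd.dvd.trans (Dvd.intro _ rfl) h2), mul_one]
    · rw [if_neg h2]
      split_ifs with h3 h4
      · exact absurd (hc.mul_dvd_of_dvd_of_dvd h4 h3) h2
      · simp
      · rfl
  simp_rw [h1]
  rw [sum_dvd_range _ hd, ← mul_sum]
  congr 1
  unfold SS
  rw [sum_filter, range_eq_Ico, sum_eq_sum_Ico_succ_bot (Nat.succ_pos _)]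
  have h0 : F0 a (σ.c0 * b) (e.1 * pv e.2 * 0) = 0 := by simp [F0]
  rw [h0, zero_mul, zero_add]
  refine sum_congr (by ext m; simp) fun m hm => ?_
  have hm0 : m ≠ 0 := by have := (mem_Icc.1 hm).1; omega
  have hiff : e.1 * pv e.2 * m ≡ σ.c0 * b [MOD a] ↔ m ≡ b [MOD a] := by
    have h3 := (σ.cong e he).mul_right m
    constructor
    · intro h4
      exact Nat.ModEq.cancel_left_of_coprime σ.cop.symm (h3.symm.trans h4)
    · intro h4
      exact h3.trans (h4.mul_left _)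
  have e2 : e.1 * pv e.2 * m + h * e.1 * pv e.2 = e.1 * pv e.2 * (m + h) := by ring
  unfold F0
  simp only [hiff, Ne, Nat.mul_ne_zero hd.ne' hm0, not_false_eq_true, true_and]
  split_ifs
  · rw [e2, lam_mul hd.ne' hm0, lam_mul hd.ne' (by omega)]
    have := lam_sq (e.1 * pv e.2)
    linear_combination (lam m * lam (m + h)) * this
  · simp

theorem sum_u (G : Finset ℕ) (hG : ∀ q ∈ G, q.Prime) {p : ℕ} (hp : p.Prime) (hpG : p ∉ G)
    (φ : Finset ℕ → ℝ) (hφ : ∀ T, 0 ≤ φ T) {r : ℝ} (hr : ∑ T ∈ G.powerset, mu G T * φ T ≤ r)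
    (X : ℕ) :
    ∑ n ∈ range (X + 1), φ (Tn G n) * ((if p ∣ n then 1 else 0) + 1 / (p : ℝ)) ≤
      (2 * X * (1 / p) + (2 + 2 * pv G)) * r := by
  have hE : 0 ≤ ∑ T ∈ G.powerset, mu G T * φ T :=
    sum_nonneg fun T _ => mul_nonneg (mu_nonneg hG) (hφ T)
  have hr0 : 0 ≤ r := hE.trans hr
  have hp1 : (1 : ℝ) ≤ p := by exact_mod_cast hp.one_le
  simp_rw [mul_add, sum_add_distrib, ← sum_mul, mul_ite, mul_one, mul_zero]
  rw [sum_dvd_range (fun n => φ (Tn G n)) hp.pos]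
  simp_rw [Tn_mul hG hp hpG]
  have h1 := crt_le G hG φ hφ (X / p + 1)
  have h2 := crt_le G hG φ hφ (X + 1)
  have h3 : ((X / p : ℕ) : ℝ) ≤ X * (1 / p) := by rw [mul_one_div]; exact Nat.cast_div_le
  push_cast at h1 h2
  have h4 : (1 : ℝ) / p ≤ 1 := by rw [div_le_one (by linarith)]; exact hp1
  have h5 : (0 : ℝ) ≤ 1 / p := by positivity
  calc _ ≤ (X * (1 / p) + 1 + pv G) * r + (X + 1 + pv G) * r * (1 / p) := by
        refine add_le_add (h1.trans (by gcongr)) ?_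
        exact mul_le_mul_of_nonneg_right (h2.trans (by gcongr)) h5
    _ = (2 * X * (1 / p) + (1 + pv G)) * r + (1 + pv G) * r * (1 / p) := by ring
    _ ≤ (2 * X * (1 / p) + (1 + pv G)) * r + (1 + pv G) * r * 1 := by gcongr
    _ = _ := by ring

theorem bad_bound (σ : Sys a h ε c ρ M L0 Kc P0) (R : ℕ)
    (hR : ∀ e ∈ σ.E, h * e.1 * pv e.2 ≤ R) (F1 : ℕ → ℝ) (hF : ∀ n, |F1 n| ≤ 1) :
    ∃ B : ℝ, ∀ X : ℕ, |∑ n ∈ range (X + 1), Bad σ F1 n| ≤ 4 * rs σ.I * ρ * X + B := by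
  refine ⟨4 * rs σ.I * ρ * R + 2 * σ.I.card * ((2 + 2 * pv σ.G) * ρ), fun X => ?_⟩
  set u : ℕ → ℕ → ℝ := fun p n => (if p ∣ n then 1 else 0) + 1 / (p : ℝ) with hu
  have hu0 : ∀ p n, 0 ≤ u p n := fun p n => by
    simp only [hu]; split_ifs <;> positivity
  set ψ : ℕ → Finset ℕ → ℕ → ℝ := fun p g n =>
    if g ∈ Eg σ p (Tn σ.G n) \ σ.gd p (Tn σ.G n) then σ.w g * u p n else 0 with hψ
  have hψ0 : ∀ p g n, 0 ≤ ψ p g n := fun p g n => by
    simp only [hψ]; split_ifs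
    · exact mul_nonneg (σ.w_nonneg g) (hu0 p n)
    · exact le_rfl
  have hsum : ∀ p ∈ σ.I, ∑ g ∈ σ.G.powerset, ∑ n ∈ range (X + R + 1), ψ p g n ≤
      (2 * ((X + R : ℕ) : ℝ) * (1 / p) + (2 + 2 * pv σ.G)) * ρ := by
    intro p hp
    refine le_trans (le_of_eq ?_) (sum_u σ.G σ.hG (σ.hI p hp).1
      (fun hh => disjoint_left.1 σ.disj hp hh)
      (fun T => ∑ g ∈ Eg σ p T \ σ.gd p T, σ.w g)
      (fun T => sum_nonneg fun g _ => σ.w_nonneg g) (σ.removed p hp) (X + R))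
    rw [sum_comm]
    refine sum_congr rfl fun n _ => ?_
    simp only [hψ]
    rw [← sum_filter, filter_mem_eq_inter, inter_eq_right.2, sum_mul]
    intro g hg
    exact mem_powerset.2 ((mem_powerset.1 (mem_filter.1 (mem_sdiff.1 hg).1).1).trans (Tn_sub _ _))
  have hpt : ∀ n, |Bad σ F1 n| ≤
      ∑ p ∈ σ.I, ∑ g ∈ σ.G.powerset, (ψ p g n + if (p, g) ∈ σ.E then ψ p g (n + h * p * pv g) else 0) := by
    intro n
    refine (abs_sum_le_sum_abs _ _).trans (sum_le_sum fun p hp => ?_)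
    refine (abs_sum_le_sum_abs _ _).trans ?_
    refine le_trans (sum_le_sum fun g hg => ?_) (sum_le_sum_of_subset_of_nonneg
      (s := Eg σ p (Tn σ.G n) \ gd2 σ p n) ?_ (fun g _ _ => ?_))
    · obtain ⟨h1, h2⟩ := mem_sdiff.1 hg
      obtain ⟨h3, h4⟩ := mem_filter.1 h1
      have hb : |σ.w g * ind p n * (F1 n * lam (n + h * p * pv g))| ≤ σ.w g * u p n := by
        rw [abs_mul, abs_mul, abs_mul, abs_lam, abs_of_nonneg (σ.w_nonneg g), mul_one, mul_assoc]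
        refine mul_le_mul_of_nonneg_left ?_ (σ.w_nonneg g)
        refine (mul_le_of_le_one_right (abs_nonneg _) (hF n)).trans ?_
        have : (0 : ℝ) ≤ 1 / p := by positivity
        simp only [hu, ind]; rw [abs_le]; split_ifs <;> constructor <;> linarith
      rw [if_pos h4]
      by_cases h5 : g ∈ σ.gd p (Tn σ.G n)
      · have h6 : g ∉ σ.gd p (Tn σ.G (n + h * p * pv g)) := fun hh => h2 (mem_filter.2 ⟨h5, hh⟩)
        have hG : g ⊆ σ.G := (mem_powerset.1 h3).trans (Tn_sub _ _)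
        have h7 : g ⊆ Tn σ.G (n + h * p * pv g) := by
          rw [sub_Tn_iff σ.hG hG]
          exact dvd_add ((sub_Tn_iff σ.hG hG n).1 (mem_powerset.1 h3)) (Dvd.intro_left _ rfl)
        have h8 : ψ p g (n + h * p * pv g) = σ.w g * u p n := by
          simp only [hψ]
          have h9 : g ∈ Eg σ p (Tn σ.G (n + h * p * pv g)) := mem_filter.2 ⟨mem_powerset.2 h7, h4⟩
          rw [if_pos (mem_sdiff.2 ⟨h9, h6⟩)]
          have : p ∣ n + h * p * pv g ↔ p ∣ n :=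
            (Nat.dvd_add_iff_left ⟨h * pv g, by ring⟩).symm
          simp only [hu, this]
        linarith [hψ0 p g n]
      · have h8 : ψ p g n = σ.w g * u p n := by
          simp only [hψ]; rw [if_pos (mem_sdiff.2 ⟨h1, h5⟩)]
        linarith [hψ0 p g (n + h * p * pv g)]
    · intro g hg
      exact mem_powerset.2 ((mem_powerset.1 (mem_filter.1 (mem_sdiff.1 hg).1).1).trans (Tn_sub _ _))
    · refine add_nonneg (hψ0 ..) ?_
      split_ifs
      · exact hψ0 ..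
      · exact le_rfl
  refine (abs_sum_le_sum_abs _ _).trans ((sum_le_sum fun n _ => hpt n).trans ?_)
  rw [sum_comm]
  have hp2 : ∀ p ∈ σ.I, ∑ n ∈ range (X + 1), ∑ g ∈ σ.G.powerset,
      (ψ p g n + if (p, g) ∈ σ.E then ψ p g (n + h * p * pv g) else 0) ≤
      2 * ((2 * ((X + R : ℕ) : ℝ) * (1 / p) + (2 + 2 * pv σ.G)) * ρ) := by
    intro p hp
    rw [sum_comm]
    refine le_trans (sum_le_sum (g := fun g => 2 * ∑ n ∈ range (X + R + 1), ψ p g n)
      fun g _ => ?_) ?_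
    · rw [sum_add_distrib, two_mul]
      refine add_le_add (sum_le_sum_of_subset_of_nonneg (range_subset_range.2 (by omega))
        (fun n _ _ => hψ0 ..)) ?_
      split_ifs with he
      · have hle : h * p * pv g ≤ R := hR _ he
        have e1 := sum_range_add (ψ p g) (h * p * pv g) (X + 1)
        have e2 : ∑ n ∈ range (h * p * pv g + (X + 1)), ψ p g n ≤
            ∑ n ∈ range (X + R + 1), ψ p g n :=
          sum_le_sum_of_subset_of_nonneg (range_subset_range.2 (by omega)) (fun n _ _ => hψ0 ..)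
        have e3 : 0 ≤ ∑ n ∈ range (h * p * pv g), ψ p g n := sum_nonneg fun n _ => hψ0 ..
        simp_rw [add_comm _ (h * p * pv g)]
        linarith
      · rw [sum_const_zero]; exact sum_nonneg fun n _ => hψ0 ..
    · rw [← mul_sum]
      linarith [hsum p hp]
  refine (sum_le_sum hp2).trans (le_of_eq ?_)
  rw [← mul_sum, ← sum_mul, sum_add_distrib, ← mul_sum, sum_const, nsmul_eq_mul]
  unfold rs; push_cast; ring

theorem nc_one (σ : Sys a h ε c ρ M L0 Kc P0) (hε : ε ≤ 1 / 2) {δ : ℝ} (hδ : 0 < δ) {PB : ℕ}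
    (hP0 : 2 * PB + 6 ≤ P0)
    (hB : ∀ P : ℕ, PB ≤ P → ∃ X0 : ℕ, ∀ X : ℕ, X0 ≤ X → ∀ c : ℕ → ℝ, (∀ p, |c p| ≤ 1) →
      ∑ m ∈ Icc 1 X, |∑ p ∈ (Ioc P (2 * P)).filter Nat.Prime, c p * lam (m + h * p)| ≤
        δ * X * P / Real.log P) {g : Finset ℕ} (hg : g ⊆ σ.G) :
    ∀ᶠ X : ℕ in Filter.atTop, ∑ m ∈ Icc 1 (X / pv g),
      |∑ p ∈ σ.I.filter (fun p => (p, g) ∈ σ.E), 1 / (p : ℝ) * lam (m + h * p)| ≤
        2 * δ * X / Real.log σ.H * (1 / pv g) := by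
  have hH : 6 ≤ σ.H := by have := σ.hP0; omega
  have hlH : 0 < Real.log σ.H := Real.log_pos (by exact_mod_cast (by omega : 1 < σ.H))
  have hg0 : 0 < pv g := pv_pos fun q hq => σ.hG q (hg hq)
  have hgr : (0 : ℝ) < pv g := by exact_mod_cast hg0
  rcases (σ.I.filter (fun p => (p, g) ∈ σ.E)).eq_empty_or_nonempty with he | ⟨p0, hp0⟩
  · refine Filter.Eventually.of_forall fun X => ?_
    rw [he]; simp only [sum_empty, abs_zero, sum_const_zero]; positivity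
  set P := ⌈σ.D / pv g⌉₊ - 1 with hP
  have hc1 : 1 ≤ ⌈σ.D / pv g⌉₊ := Nat.one_le_ceil_iff.2 (div_pos σ.hD hgr)
  have hPp : ∀ p ∈ σ.I.filter (fun p => (p, g) ∈ σ.E), P < p ∧ 2 * p < 3 * P + 3 ∧ σ.H ≤ p := by
    intro p hp
    obtain ⟨h1, h2⟩ := mem_filter.1 hp
    obtain ⟨h3, h4⟩ := σ.win _ h2
    push_cast at h3 h4
    refine ⟨?_, ?_, (σ.hI p h1).2⟩
    · have : ⌈σ.D / pv g⌉₊ ≤ p := Nat.ceil_le.2 (by rw [div_le_iff₀ hgr]; exact h3)
      omega
    · have h5 : σ.D / pv g ≤ ((P + 1 : ℕ) : ℝ) := by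
        rw [show P + 1 = ⌈σ.D / pv g⌉₊ by omega]; exact Nat.le_ceil _
      rw [div_le_iff₀ hgr] at h5
      have h6 : (2 * p : ℝ) * pv g < (3 * P + 3) * pv g := by
        push_cast at h5; nlinarith [σ.hD]
      exact_mod_cast lt_of_mul_lt_mul_right h6 hgr.le
  obtain ⟨a1, a2, a3⟩ := hPp p0 hp0
  have hP4 : 4 ≤ P := by omega
  have hHP : σ.H ≤ 2 * P := by omega
  obtain ⟨X0, hX0⟩ := hB P (by have := σ.hP0; omega)
  have hPr : (0 : ℝ) < P := by exact_mod_cast (by omega : 0 < P)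
  have hlP : Real.log σ.H ≤ 2 * Real.log P := by
    have h1 : (σ.H : ℝ) ≤ (P : ℝ) ^ 2 := by exact_mod_cast hHP.trans (by nlinarith)
    have h2 := Real.log_le_log (by exact_mod_cast (by omega : 0 < σ.H)) h1
    rwa [Real.log_pow] at h2
  filter_upwards [Filter.eventually_ge_atTop (X0 * pv g)] with X hX
  have h1 := hX0 (X / pv g) ((Nat.le_div_iff_mul_le hg0).2 hX)
    (fun p => if p ∈ σ.I.filter (fun p => (p, g) ∈ σ.E) then (P : ℝ) / p else 0) (fun p => by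
      split_ifs with hp
      · have : (P : ℝ) ≤ p := by exact_mod_cast (hPp p hp).1.le
        rw [abs_of_nonneg (by positivity), div_le_one (by linarith)]; exact this
      · simp)
  have h2 : ∀ m, ∑ p ∈ (Ioc P (2 * P)).filter Nat.Prime,
      (if p ∈ σ.I.filter (fun p => (p, g) ∈ σ.E) then (P : ℝ) / p else 0) * lam (m + h * p) =
      P * ∑ p ∈ σ.I.filter (fun p => (p, g) ∈ σ.E), 1 / (p : ℝ) * lam (m + h * p) := by
    intro m
    simp_rw [ite_mul, zero_mul]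
    rw [← sum_filter, filter_mem_eq_inter, inter_eq_right.2, mul_sum]
    · exact sum_congr rfl fun p _ => by ring
    · intro p hp
      obtain ⟨b1, b2, b3⟩ := hPp p hp
      exact mem_filter.2 ⟨mem_Ioc.2 ⟨b1, by omega⟩, (σ.hI p (mem_filter.1 hp).1).1⟩
  simp_rw [h2, abs_mul, abs_of_pos hPr] at h1
  rw [← mul_sum] at h1
  have h3 : ((X / pv g : ℕ) : ℝ) ≤ X * (1 / pv g) := by rw [mul_one_div]; exact Nat.cast_div_le
  have hlP0 : 0 < Real.log P := by linarith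
  refine le_of_mul_le_mul_left (h1.trans ?_) hPr
  calc δ * ((X / pv g : ℕ) : ℝ) * P / Real.log P ≤ δ * (X * (1 / pv g)) * P / (Real.log σ.H / 2) := by
        gcongr; linarith
    _ = _ := by field_simp

theorem nc_bound (σ : Sys a h ε c ρ M L0 Kc P0) (hε : ε ≤ 1 / 2) {δ : ℝ} (hδ : 0 < δ) {PB : ℕ}
    (hP0 : 2 * PB + 6 ≤ P0)
    (hB : ∀ P : ℕ, PB ≤ P → ∃ X0 : ℕ, ∀ X : ℕ, X0 ≤ X → ∀ c : ℕ → ℝ, (∀ p, |c p| ≤ 1) →
      ∑ m ∈ Icc 1 X, |∑ p ∈ (Ioc P (2 * P)).filter Nat.Prime, c p * lam (m + h * p)| ≤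
        δ * X * P / Real.log P) (F1 : ℕ → ℝ) (hF : ∀ n, |F1 n| ≤ 1) (hF0 : F1 0 = 0) :
    ∀ᶠ X : ℕ in Filter.atTop, |∑ n ∈ range (X + 1), NC σ F1 n| ≤ 2 * δ * Kc * X := by
  have hH : 6 ≤ σ.H := by have := σ.hP0; omega
  have hlH : 0 < Real.log σ.H := Real.log_pos (by exact_mod_cast (by omega : 1 < σ.H))
  have hall := (Filter.eventually_all_finset σ.G.powerset).2
    (fun g hg => nc_one σ hε hδ hP0 hB (mem_powerset.1 hg))
  filter_upwards [hall] with X hX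
  have h1 : ∀ n, NC σ F1 n = ∑ g ∈ σ.G.powerset, σ.w g * if pv g ∣ n then
      F1 n * ∑ p ∈ σ.I.filter (fun p => (p, g) ∈ σ.E), 1 / (p : ℝ) * lam (n + h * p * pv g)
      else 0 := by
    intro n
    unfold NC
    rw [sum_Eg, ← sum_subset_zero_on_sdiff (f := fun e => if pv e.2 ∣ n then
      σ.w e.2 * (1 / (e.1 : ℝ)) * (F1 n * lam (n + h * e.1 * pv e.2)) else 0)
      (g := fun e => if e ∈ σ.E then (if pv e.2 ∣ n then
      σ.w e.2 * (1 / (e.1 : ℝ)) * (F1 n * lam (n + h * e.1 * pv e.2)) else 0) else 0) σ.hE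
      (fun e he => if_neg (mem_sdiff.1 he).2) (fun e he => (if_pos he).symm) |>.symm,
      sum_product_right]
    refine sum_congr rfl fun g _ => ?_
    rw [← sum_filter]
    split_ifs
    · rw [mul_sum, mul_sum]; exact sum_congr rfl fun p _ => by ring
    · simp
  simp_rw [h1]
  rw [sum_comm]
  refine (abs_sum_le_sum_abs _ _).trans ?_
  refine le_trans (sum_le_sum (g := fun g => 2 * δ * X / Real.log σ.H * (σ.w g / pv g))
    fun g hg => ?_) ?_
  · have hg0 : 0 < pv g := pv_pos fun q hq => σ.hG q (mem_powerset.1 hg hq)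
    rw [← mul_sum, abs_mul, abs_of_nonneg (σ.w_nonneg g), sum_dvd_range _ hg0, range_eq_Ico,
      sum_eq_sum_Ico_succ_bot (Nat.succ_pos _), mul_zero, hF0, zero_mul, zero_add]
    have e : 2 * δ * X / Real.log σ.H * (σ.w g / pv g) =
        σ.w g * (2 * δ * X / Real.log σ.H * (1 / pv g)) := by ring
    rw [e]
    refine mul_le_mul_of_nonneg_left ((abs_sum_le_sum_abs _ _).trans (le_trans ?_ (hX g hg)))
      (σ.w_nonneg g)
    refine le_trans (le_of_eq (sum_congr (s₂ := Icc 1 (X / pv g))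
      (by ext m; simp) fun _ _ => rfl)) (sum_le_sum fun m hm => ?_)
    have hm0 : m ≠ 0 := by have := (mem_Icc.1 hm).1; omega
    have e2 : ∀ p, lam (pv g * m + h * p * pv g) = lam (pv g) * lam (m + h * p) := by
      intro p
      rw [← lam_mul hg0.ne' (by omega)]; congr 1; ring
    simp_rw [e2, mul_left_comm _ (lam (pv g))]
    rw [← mul_sum, abs_mul, abs_mul, abs_lam, one_mul]
    exact mul_le_of_le_one_left (abs_nonneg _) (hF _)
  · rw [← mul_sum]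
    calc _ ≤ 2 * δ * X / Real.log σ.H * (Kc * Real.log σ.H) := by gcongr; exact σ.total
      _ = _ := by field_simp

end Pool.Agent.P.MP_a14ce1_nt.Ch.Main
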