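import Pool.Agent.P.MP_a14ce1_nt.Ch.Defs

/-! Twisted sums over multiples of `d` in residue classes. -/

open Finset MeasureTheory

namespace Pool.Agent.P.MP_a14ce1_nt.Ch.Rough

lemma ii_nit (t a b : ℝ) : IntervalIntegrable (nit t) volume a b := by
  have hm : Measurable (nit t) := by
    unfold nit
    exact continuous_ex.measurable.comp (by fun_prop)
  refine (intervalIntegrable_const (c := (1 : ℝ))).mono_fun' hm.aestronglyMeasurable ?_
  exact Filter.Eventually.of_forall fun s => (norm_nit t s).le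

lemma norm_int_nit (t a b : ℝ) : ‖∫ s in a..b, nit t s‖ ≤ |b - a| := by
  have := intervalIntegral.norm_integral_le_of_norm_le_const (a := a) (b := b) (C := 1)
    (f := nit t) fun s _ => (norm_nit t s).le
  rwa [one_mul] at this

lemma int_shift (t a b a' b' : ℝ) :
    ‖(∫ s in a..b, nit t s) - ∫ s in a'..b', nit t s‖ ≤ |a' - a| + |b - b'| := by
  rw [← intervalIntegral.integral_add_adjacent_intervals (ii_nit t a a') (ii_nit t a' b),
    ← intervalIntegral.integral_add_adjacent_intervals (ii_nit t a' b') (ii_nit t b' b)]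
  have e : ∀ x y z : ℂ, x + (y + z) - y = x + z := fun x y z => by ring
  rw [e]
  exact (norm_add_le _ _).trans (add_le_add (norm_int_nit _ _ _) (norm_int_nit _ _ _))

/-- one arithmetic progression -/
lemma ap_one {c C : ℝ} {k : ℕ}
    (hV : ∀ (M N : ℕ) (u β : ℝ), 1 ≤ M → M ≤ N → |u| ≤ (M : ℝ) ^ k → 0 ≤ β → β ≤ 1 →
      ‖∑ m ∈ Ioc M N, nit u (m + β) - ∫ s in (M : ℝ)..N, nit u (s + β)‖ ≤ C * (N : ℝ) ^ (1 - c))
    {q r J0 J1 : ℕ} {t : ℝ} (hq : 0 < q) (hr : r ≤ q) (h0 : 1 ≤ J0) (h1 : J0 ≤ J1)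
    (ht : |t| ≤ (J0 : ℝ) ^ k) :
    ‖∑ j ∈ Ioc J0 J1, nit t ((q * j + r : ℕ) : ℝ)
      - (q : ℂ)⁻¹ * ∫ s in ((q : ℝ) * J0 + r)..((q : ℝ) * J1 + r), nit t s‖
      ≤ C * (J1 : ℝ) ^ (1 - c) := by
  have hq' : (0 : ℝ) < q := by exact_mod_cast hq
  have hβ : (0 : ℝ) ≤ r / q := by positivity
  have key : ∀ s : ℝ, 0 < s → nit t (q * s + r) = nit t q * nit t (s + r / q) := by
    intro s hs
    rw [← nit_mul t hq'.ne' (by positivity)]
    congr 1
    field_simp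
  have e1 : ∑ j ∈ Ioc J0 J1, nit t ((q * j + r : ℕ) : ℝ)
      = nit t q * ∑ j ∈ Ioc J0 J1, nit t (j + r / q) := by
    rw [mul_sum]
    refine sum_congr rfl fun j hj => ?_
    have : 0 < j := lt_of_lt_of_le h0 (mem_Ioc.1 hj).1.le
    rw [← key j (by exact_mod_cast this)]
    push_cast; rfl
  have e2 : (q : ℂ)⁻¹ * ∫ s in ((q : ℝ) * J0 + r)..((q : ℝ) * J1 + r), nit t s
      = nit t q * ∫ s in (J0 : ℝ)..J1, nit t (s + r / q) := by
    have e3 := intervalIntegral.integral_comp_mul_add (a := (J0 : ℝ)) (b := J1) (nit t) hq'.ne'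
      (r : ℝ)
    rw [Complex.real_smul] at e3
    push_cast at e3
    rw [← e3, ← intervalIntegral.integral_const_mul]
    refine intervalIntegral.integral_congr fun s hs => key s ?_
    rw [Set.uIcc_of_le (by exact_mod_cast h1)] at hs
    have : (1 : ℝ) ≤ J0 := by exact_mod_cast h0
    linarith [hs.1]
  rw [e1, e2, ← mul_sub, norm_mul, norm_nit, one_mul]
  exact hV J0 J1 t _ h0 h1 ht hβ ((div_le_one hq').2 (by exact_mod_cast hr))

lemma sum_mult (f : ℕ → ℂ) {d : ℕ} (hd : 0 < d) (y N : ℕ) :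
    ∑ n ∈ (Ioc y N).filter (fun n => d ∣ n), f n = ∑ m ∈ Ioc (y / d) (N / d), f (d * m) := by
  symm
  refine sum_bij (fun m _ => d * m) ?_ ?_ ?_ fun _ _ => rfl
  · intro m hm
    obtain ⟨h1, h2⟩ := mem_Ioc.1 hm
    rw [Nat.div_lt_iff_lt_mul hd] at h1
    rw [Nat.le_div_iff_mul_le hd] at h2
    exact mem_filter.2 ⟨mem_Ioc.2 ⟨by linarith, by linarith⟩, Dvd.intro _ rfl⟩
  · intro m _ m' _ h
    exact Nat.eq_of_mul_eq_mul_left hd h
  · intro n hn
    obtain ⟨h1, m, rfl⟩ := mem_filter.1 hn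
    obtain ⟨h1, h2⟩ := mem_Ioc.1 h1
    refine ⟨m, mem_Ioc.2 ⟨?_, ?_⟩, rfl⟩
    · rw [Nat.div_lt_iff_lt_mul hd]; linarith
    · rw [Nat.le_div_iff_mul_le hd]; linarith

lemma sum_blocks (g : ℕ → ℂ) (b : ℕ) {J0 J1 : ℕ} (h : J0 ≤ J1) :
    ∑ m ∈ Ico (b * (J0 + 1)) (b * (J1 + 1)), g m
      = ∑ j ∈ Ioc J0 J1, ∑ c ∈ range b, g (b * j + c) := by
  induction J1, h using Nat.le_induction with
  | base => simp
  | succ n hn ih =>
    rw [← sum_Ico_consecutive g (m := b * (J0 + 1)) (n := b * (n + 1)) (k := b * (n + 1 + 1))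
      (by gcongr) (by gcongr; omega), ih, sum_Ioc_succ_top hn, sum_Ico_eq_sum_range]
    congr 2
    congr 1
    rw [Nat.mul_add_one b (n + 1)]; omega

lemma norm_sum_Ico (g : ℕ → ℂ) (hg : ∀ m, ‖g m‖ ≤ 1) (a b : ℕ) :
    ‖∑ m ∈ Ico a b, g m‖ ≤ ((b - a : ℕ) : ℝ) := by
  refine (norm_sum_le _ _).trans ((sum_le_sum fun m _ => hg m).trans ?_)
  simp

lemma sum_shift (g : ℕ → ℂ) (hg : ∀ m, ‖g m‖ ≤ 1) {u v a e b : ℕ} (h1 : u < a) (h2 : a ≤ v + 1)
    (h3 : v + 1 ≤ e) (h4 : e ≤ v + b) :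
    ‖∑ m ∈ Ioc u v, g m - ∑ m ∈ Ico a e, g m‖ ≤ (a : ℝ) + b := by
  have e0 : Ioc u v = Ico (u + 1) (v + 1) := by ext m; simp [mem_Ioc, mem_Ico]
  rw [e0, ← sum_Ico_consecutive g (m := u + 1) (n := a) (k := v + 1) h1 h2,
    ← sum_Ico_consecutive g (m := a) (n := v + 1) (k := e) h2 h3]
  have e1 : ∀ x y z : ℂ, x + y - (y + z) = x - z := fun x y z => by ring
  rw [e1]
  refine (norm_sub_le _ _).trans (add_le_add ((norm_sum_Ico g hg _ _).trans ?_)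
    ((norm_sum_Ico g hg _ _).trans ?_))
  · exact_mod_cast Nat.sub_le _ _
  · exact_mod_cast (by omega : e - (v + 1) ≤ b)

lemma sum_range_zmod {b : ℕ} [NeZero b] (F : ZMod b → ℂ) :
    ∑ c ∈ range b, F (c : ZMod b) = ∑ x : ZMod b, F x := by
  refine sum_bij (fun c _ => (c : ZMod b)) (fun _ _ => mem_univ _) ?_ ?_ fun _ _ => rfl
  · intro c hc c' hc' h
    have := congrArg ZMod.val h
    rwa [ZMod.val_cast_of_lt (mem_range.1 hc), ZMod.val_cast_of_lt (mem_range.1 hc')] at this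
  · intro x _
    exact ⟨x.val, mem_range.2 (ZMod.val_lt x), ZMod.natCast_zmod_val x⟩

/-- mean value of a character -/
noncomputable def k0 {b : ℕ} [NeZero b] (χ : DirichletCharacter ℂ b) : ℂ :=
  (b : ℂ)⁻¹ * ∑ x : ZMod b, χ x

lemma norm_k0 {b : ℕ} [NeZero b] (χ : DirichletCharacter ℂ b) : ‖k0 χ‖ ≤ 1 := by
  have hb : (0 : ℝ) < b := by exact_mod_cast NeZero.pos b
  have : ‖∑ x : ZMod b, χ x‖ ≤ b := by
    refine (norm_sum_le _ _).trans ((sum_le_sum fun x _ => χ.norm_le_one x).trans ?_)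
    simp [ZMod.card]
  rw [k0, norm_mul, norm_inv, Complex.norm_natCast, inv_mul_le_iff₀ hb, mul_one]
  exact this

lemma sum_chi_mul {b : ℕ} [NeZero b] (χ : DirichletCharacter ℂ b) {d : ℕ} (hd : d.Coprime b) :
    ∑ c ∈ range b, χ ((d * c : ℕ) : ZMod b) = ∑ x : ZMod b, χ x := by
  have := sum_range_zmod (fun x : ZMod b => χ ((d : ZMod b) * x))
  simp only [Nat.cast_mul]
  rw [this]
  exact Equiv.sum_comp (ZMod.unitOfCoprime d hd).mulLeft χ

/-- twisted character sum over the multiples of `d` -/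
lemma ap_all {c C : ℝ} {k : ℕ}
    (hV : ∀ (M N : ℕ) (u β : ℝ), 1 ≤ M → M ≤ N → |u| ≤ (M : ℝ) ^ k → 0 ≤ β → β ≤ 1 →
      ‖∑ m ∈ Ioc M N, nit u (m + β) - ∫ s in (M : ℝ)..N, nit u (s + β)‖ ≤ C * (N : ℝ) ^ (1 - c))
    {b : ℕ} [NeZero b] (χ : DirichletCharacter ℂ b) {d y N J0 : ℕ} {t : ℝ} (hd : 0 < d)
    (hdb : d.Coprime b) (h0 : 1 ≤ J0) (hy : y ≤ J0) (hJ : J0 < N / d / b)
    (ht : |t| ≤ (J0 : ℝ) ^ k) :
    ‖∑ n ∈ (Ioc y N).filter (fun n => d ∣ n), χ (n : ZMod b) * nit t n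
      - k0 χ * (∫ s in (y : ℝ)..N, nit t s) * (d : ℂ)⁻¹‖
      ≤ b * (C * ((N / d / b : ℕ) : ℝ) ^ (1 - c)) + 2 * (b * (J0 + 2)) := by
  have hb : 0 < b := NeZero.pos b
  have hb' : (1 : ℝ) ≤ b := by exact_mod_cast hb
  have hd' : (1 : ℝ) ≤ d := by exact_mod_cast hd
  set J1 := N / d / b with hJ1
  set I := ∫ s in (y : ℝ)..N, nit t s with hI
  set g : ℕ → ℂ := fun m => χ ((d * m : ℕ) : ZMod b) * nit t ((d * m : ℕ) : ℝ) with hg
  have hg1 : ∀ m, ‖g m‖ ≤ 1 := fun m => by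
    rw [hg, norm_mul, norm_nit, mul_one]; exact χ.norm_le_one _
  rw [sum_mult (fun n => χ (n : ZMod b) * nit t n) hd]
  have a1 : b * J1 ≤ N / d := Nat.mul_div_le _ _
  have a2 : N / d < b * (J1 + 1) := Nat.lt_mul_div_succ _ hb
  have s1 := sum_shift g hg1 (u := y / d) (v := N / d) (a := b * (J0 + 1)) (e := b * (J1 + 1))
    (b := b) (by
      have := Nat.div_le_self y d
      nlinarith) (by
      have : b * (J0 + 1) ≤ b * J1 := by gcongr; omega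
      omega) a2 (by rw [Nat.mul_add_one]; omega)
  rw [sum_blocks g b hJ.le, sum_comm] at s1
  have hq : 0 < d * b := Nat.mul_pos hd hb
  have hq' : (0 : ℝ) < ((d * b : ℕ) : ℝ) := by exact_mod_cast hq
  have b1 : d * b * J1 ≤ N := by
    rw [hJ1, Nat.div_div_eq_div_mul]; exact Nat.mul_div_le _ _
  have b2 : N < d * b * (J1 + 1) := by
    rw [hJ1, Nat.div_div_eq_div_mul]; exact Nat.lt_mul_div_succ _ hq
  have s2 : ∀ r ∈ range b, ‖∑ j ∈ Ioc J0 J1, g (b * j + r)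
      - χ ((d * r : ℕ) : ZMod b) * (((d * b : ℕ) : ℂ)⁻¹ * I)‖
      ≤ C * (J1 : ℝ) ^ (1 - c) + (J0 + 2) := by
    intro r hr
    have hr' : d * r ≤ d * b := Nat.mul_le_mul_left _ (mem_range.1 hr).le
    have e1 : ∑ j ∈ Ioc J0 J1, g (b * j + r) = χ ((d * r : ℕ) : ZMod b)
        * ∑ j ∈ Ioc J0 J1, nit t ((d * b * j + d * r : ℕ) : ℝ) := by
      rw [mul_sum]
      refine sum_congr rfl fun j _ => ?_
      simp only [hg]
      congr 2
      · simp
      · ring_nf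
    rw [e1, ← mul_sub, norm_mul]
    refine (mul_le_of_le_one_left (norm_nonneg _) (χ.norm_le_one _)).trans ?_
    refine (norm_sub_le_norm_sub_add_norm_sub _ _ _).trans
      (add_le_add (ap_one hV hq hr' h0 hJ.le ht) ?_)
    rw [← mul_sub, norm_mul, norm_inv, Complex.norm_natCast, inv_mul_le_iff₀ hq']
    refine (int_shift _ _ _ _ _).trans ?_
    have c1 : ((d * r : ℕ) : ℝ) ≤ ((d * b : ℕ) : ℝ) := by exact_mod_cast hr'
    have c2 : ((d * b : ℕ) : ℝ) * J1 ≤ N := by exact_mod_cast b1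
    have c3 : (N : ℝ) ≤ ((d * b : ℕ) : ℝ) * (J1 + 1) := by exact_mod_cast b2.le
    have c4 : (y : ℝ) ≤ ((d * b : ℕ) : ℝ) * J0 := by
      exact_mod_cast hy.trans (Nat.le_mul_of_pos_left _ hq)
    have c5 : (0 : ℝ) ≤ ((d * r : ℕ) : ℝ) := Nat.cast_nonneg _
    have c6 : (0 : ℝ) ≤ y := Nat.cast_nonneg _
    generalize ((d * b : ℕ) : ℝ) = q at *
    generalize ((d * r : ℕ) : ℝ) = r' at *
    have c7 : |(y : ℝ) - (q * J0 + r')| ≤ q * (J0 + 1) := abs_le.2 ⟨by linarith, by linarith⟩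
    have c8 : |q * J1 + r' - N| ≤ q := abs_le.2 ⟨by linarith, by linarith⟩
    linarith
  have s3 : k0 χ * I * (d : ℂ)⁻¹
      = ∑ r ∈ range b, χ ((d * r : ℕ) : ZMod b) * (((d * b : ℕ) : ℂ)⁻¹ * I) := by
    rw [← sum_mul, sum_chi_mul χ hdb, k0]
    push_cast
    ring
  refine (norm_sub_le_norm_sub_add_norm_sub _ _ _).trans ((add_le_add s1 (?_ : _ ≤
    (b : ℝ) * (C * (J1 : ℝ) ^ (1 - c) + (J0 + 2)))).trans (le_of_eq ?_))
  · rw [s3, ← sum_sub_distrib]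
    refine (norm_sum_le _ _).trans ((sum_le_sum s2).trans ?_)
    rw [sum_const, card_range, nsmul_eq_mul]
  · push_cast; ring

end Pool.Agent.P.MP_a14ce1_nt.Ch.Rough
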