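import Pool.Agent.P.MP_a14ce1_nt.Ch.RoughA

/-! Sieve bounds for integers free of small prime factors. -/

open Finset MeasureTheory

namespace Pool.Agent.P.MP_a14ce1_nt.Ch

namespace Rough

/-- primes up to `z` that do not divide `b` -/
def PP (b z : ℕ) : Finset ℕ := (range (z + 1)).filter fun p => p.Prime ∧ ¬ p ∣ b

lemma mem_PP {b z p : ℕ} : p ∈ PP b z ↔ p ≤ z ∧ p.Prime ∧ ¬ p ∣ b := by
  simp [PP]

lemma forall_dvd_iff {T : Finset ℕ} (hT : ∀ p ∈ T, p.Prime) (n : ℕ) :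
    (∀ p ∈ T, p ∣ n) ↔ pv T ∣ n :=
  ⟨fun h => Finset.prod_primes_dvd n (fun p hp => (hT p hp).prime) h,
    fun h _ hp => (dvd_prod_of_mem _ hp).trans h⟩

lemma prod_inv (T : Finset ℕ) : ∏ p ∈ T, (1 : ℝ) / p = 1 / (pv T : ℝ) := by
  rw [prod_div_distrib, prod_const_one, pv, Nat.cast_prod]

lemma pv_pos {T : Finset ℕ} (hT : ∀ p ∈ T, p.Prime) : 0 < pv T :=
  prod_pos fun p hp => (hT p hp).pos

lemma count_dvd {d y N : ℕ} (hd : 0 < d) (h : y ≤ N) :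
    |(((Ioc y N).filter fun n => d ∣ n).card : ℝ) - ((N : ℝ) - y) * (1 / (d : ℝ))| ≤ 1 := by
  have e := sum_mult (fun _ => 1) hd y N
  simp only [sum_const, nsmul_eq_mul, mul_one, Nat.card_Ioc, Nat.cast_inj] at e
  rw [e, Nat.cast_sub (Nat.div_le_div_right h)]
  have hd' : (0 : ℝ) < d := by exact_mod_cast hd
  have k : ∀ n : ℕ, ((n / d : ℕ) : ℝ) ≤ n / d ∧ (n : ℝ) / d ≤ (n / d : ℕ) + 1 := fun n =>
    ⟨Nat.cast_div_le, by
      rw [div_le_iff₀ hd']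
      have := Nat.lt_mul_div_succ n hd
      rw [mul_comm] at this
      exact_mod_cast this.le⟩
  have e2 : ((N : ℝ) - y) * (1 / (d : ℝ)) = N / d - y / d := by ring
  rw [e2]
  exact abs_le.2 ⟨by linarith [(k N).2, (k y).1], by linarith [(k N).1, (k y).2]⟩

lemma V_nonneg (b z : ℕ) : 0 ≤ ∏ p ∈ PP b z, (1 - (1 : ℝ) / p) :=
  prod_nonneg fun p hp => by
    have : (1 : ℝ) ≤ p := by exact_mod_cast (mem_PP.1 hp).2.1.one_le
    rw [sub_nonneg, div_le_one (by linarith)]; exact this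

lemma V_le (h1 : S_M1) {b : ℕ} (hb : 0 < b) : ∃ Cb : ℝ, 0 < Cb ∧ ∀ z : ℕ, 2 ≤ z →
    ∏ p ∈ PP b z, (1 - (1 : ℝ) / p) ≤ Cb / Real.log z := by
  obtain ⟨C, hC, h⟩ := h1
  refine ⟨Real.exp (C + b), Real.exp_pos _, fun z hz => ?_⟩
  have hz' : (2 : ℝ) ≤ z := by exact_mod_cast hz
  have l2 : 0 < Real.log 2 := Real.log_pos (by norm_num)
  have lz : 0 < Real.log z := Real.log_pos (by linarith)
  have e1 : ∏ p ∈ PP b z, (1 - (1 : ℝ) / p) ≤ Real.exp (-rs (PP b z)) := by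
    rw [rs, ← sum_neg_distrib, Real.exp_sum]
    refine prod_le_prod (fun p hp => ?_) fun p _ => ?_
    · have : (1 : ℝ) ≤ p := by exact_mod_cast (mem_PP.1 hp).2.1.one_le
      rw [sub_nonneg, div_le_one (by linarith)]; exact this
    · linarith [Real.add_one_le_exp (-(1 / (p : ℝ)))]
  have e2 : rs (pr 2 z) ≤ rs (PP b z) + b := by
    have s1 : pr 2 z ⊆ PP b z ∪ Icc 1 b := by
      intro p hp
      obtain ⟨p1, _, p3⟩ := (mem_pr (by norm_num)).1 hp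
      by_cases hd : p ∣ b
      · exact mem_union_right _ (mem_Icc.2 ⟨p1.one_le, Nat.le_of_dvd hb hd⟩)
      · exact mem_union_left _ (mem_PP.2 ⟨by exact_mod_cast p3, p1, hd⟩)
    have s2 : rs (Icc 1 b) ≤ b := by
      refine (sum_le_sum (g := fun _ => (1 : ℝ)) fun p hp => ?_).trans (by simp)
      have : (1 : ℝ) ≤ p := by exact_mod_cast (mem_Icc.1 hp).1
      rw [div_le_one (by linarith)]; exact this
    have s3 : rs (pr 2 z) ≤ rs (PP b z ∪ Icc 1 b) :=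
      sum_le_sum_of_subset_of_nonneg s1 fun _ _ _ => by positivity
    have s4 := sum_union_inter (s₁ := PP b z) (s₂ := Icc 1 b) (f := fun p : ℕ => (1 : ℝ) / p)
    have s5 := rs_nonneg (PP b z ∩ Icc 1 b)
    unfold rs at *
    linarith
  have e3 := (abs_le.1 (h 2 z le_rfl hz')).1
  have e4 : Real.log (Real.log z) ≤ Real.log (Real.log z / Real.log 2) := by
    refine Real.log_le_log lz ?_
    rw [le_div_iff₀ l2]
    have : Real.log 2 ≤ 1 := by linarith [Real.log_two_lt_d9]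
    nlinarith
  refine e1.trans ?_
  rw [le_div_iff₀ lz]
  calc _ = Real.exp (-rs (PP b z) + Real.log (Real.log z)) := by
        rw [Real.exp_add, Real.exp_log lz]
    _ ≤ _ := Real.exp_le_exp.2 (by linarith)

lemma sum_rc {b : ℕ} (χ : DirichletCharacter ℂ b) (y : ℕ) (A : Finset ℕ) (f : ℕ → ℂ) :
    ∑ n ∈ A, rc χ y n * f n
      = ∑ n ∈ A.filter (fun n => ∀ p ∈ PP b y, ¬ p ∣ n), χ (n : ZMod b) * f n := by
  rw [sum_filter]
  refine sum_congr rfl fun n _ => ?_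
  unfold rc
  by_cases h : Nat.Coprime n (primorial y)
  · rw [if_pos h, if_pos]
    intro p hp hpn
    obtain ⟨p1, p2, -⟩ := mem_PP.1 hp
    exact p2.one_lt.ne' (Nat.eq_one_of_dvd_coprimes h hpn (p2.dvd_primorial_iff.2 p1))
  · rw [if_neg h, zero_mul]
    split_ifs with h'
    · obtain ⟨p, p1, p2, p3⟩ := Nat.Prime.not_coprime_iff_dvd.1 h
      have p4 : p ∣ b := by
        by_contra p4
        exact h' p (mem_PP.2 ⟨p1.dvd_primorial_iff.1 p3, p1, p4⟩) p2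
      have : ¬ IsUnit (n : ZMod b) := by
        rw [ZMod.isUnit_iff_coprime]
        exact fun hc => p1.one_lt.ne' (Nat.eq_one_of_dvd_coprimes hc p2 p4)
      rw [MulChar.map_nonunit χ this, zero_mul]
    · rfl

/-- the sieve specialised to an interval and divisibility -/
lemma sieve_Ioc (hS : S_Sieve) : ∃ C : ℝ, 0 < C ∧ ∀ (b y N z k : ℕ) (a : ℕ → ℂ) (M : ℂ)
    (R2 : ℕ → ℝ), y ≤ N → 2 ≤ z → ‖M‖ ≤ (N : ℝ) - y → (∀ n, ‖a n‖ ≤ 1) → (∀ d, 0 ≤ R2 d) →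
    (∀ d : ℕ, 0 < d → d.Coprime b → d ≤ z ^ (4 * k + 6) →
      ‖∑ n ∈ (Ioc y N).filter (fun n => d ∣ n), a n - M * (d : ℂ)⁻¹‖ ≤ R2 d) →
    ‖∑ n ∈ (Ioc y N).filter (fun n => ∀ p ∈ PP b z, ¬ p ∣ n), a n
        - M * ((∏ p ∈ PP b z, (1 - (1 : ℝ) / p) : ℝ) : ℂ)‖
      ≤ C / 2 ^ k * N * ∏ p ∈ PP b z, (1 - (1 : ℝ) / p) + (z : ℝ) ^ (4 * k + 8)
        + ∑ d ∈ Icc 1 (z ^ (4 * k + 6)), R2 d := by
  obtain ⟨C, hC, h⟩ := hS 1 (1 / 2) zero_le_one (by norm_num)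
  refine ⟨C, hC, fun b y N z k a M R2 hyN hz hM ha hR h2 => ?_⟩
  have hyN' : (y : ℝ) ≤ N := by exact_mod_cast hyN
  have hT : ∀ T ⊆ PP b z, ∀ p ∈ T, p.Prime := fun T hT p hp => (mem_PP.1 (hT hp)).2.1
  have := h ℕ (Ioc y N) a z k (PP b z) (fun n p => p ∣ n) (fun p => (1 : ℝ) / p)
    ((N : ℝ) - y) 1 M R2 hz (by linarith) hM (fun n _ => ha n)
    (fun p hp => ⟨(mem_PP.1 hp).2.1, (mem_PP.1 hp).1⟩)
    (fun p hp => by
      have : (2 : ℝ) ≤ p := by exact_mod_cast (mem_PP.1 hp).2.1.two_le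
      refine ⟨by positivity, le_rfl, ?_⟩
      rw [div_le_iff₀ (by linarith)]; linarith) hR
    (fun T hT' _ => by
      simp only [forall_dvd_iff (hT T hT'), prod_inv]
      exact count_dvd (pv_pos (hT T hT')) hyN)
    (fun T hT' hle => by
      simp only [forall_dvd_iff (hT T hT'), prod_inv]
      have := h2 (pv T) (pv_pos (hT T hT')) (Nat.Coprime.prod_left fun p hp =>
        (Nat.Prime.coprime_iff_not_dvd (hT T hT' p hp)).2 (mem_PP.1 (hT' hp)).2.2) hle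
      simpa using this)
  refine this.trans ?_
  have := V_nonneg b z
  have : (0 : ℝ) ≤ y := Nat.cast_nonneg _
  rw [mul_one]
  gcongr
  linarith

/-- upper bound for the number of sifted integers -/
lemma count_le (h1 : S_M1) (hS : S_Sieve) {b : ℕ} (hb : 0 < b) : ∃ K : ℝ, 0 < K ∧
    ∀ y N : ℕ, 2 ^ 16 ≤ y → y ≤ N →
      (((Ioc y N).filter fun n => ∀ p ∈ PP b y, ¬ p ∣ n).card : ℝ) ≤ K * N / Real.log y := by
  obtain ⟨Cb, hCb, hV⟩ := V_le h1 hb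
  obtain ⟨C, hC, h⟩ := sieve_Ioc hS
  refine ⟨32 * (1 + C) * Cb + 64, by positivity, fun y N hy hyN => ?_⟩
  obtain ⟨z, z1, z2⟩ : ∃ z : ℕ, z ^ 16 ≤ y ∧ y < (z + 1) ^ 16 :=
    ⟨_, Nat.pow_nthRoot_le (Or.inl (by norm_num)), Nat.lt_pow_nthRoot_add_one (by norm_num) y⟩
  have z3 : 2 ≤ z := by
    by_contra h
    have : (z + 1) ^ 16 ≤ 2 ^ 16 := Nat.pow_le_pow_left (by omega) _
    omega
  have z3' : (2 : ℝ) ≤ z := by exact_mod_cast z3
  have hyN' : (y : ℝ) ≤ N := by exact_mod_cast hyN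
  have hy' : (2 : ℝ) ^ 16 ≤ y := by exact_mod_cast hy
  have ly : 0 < Real.log y := Real.log_pos (by linarith [show (1 : ℝ) < 2 ^ 16 by norm_num])
  have lz : 0 < Real.log z := Real.log_pos (by linarith)
  have z4 : Real.log y ≤ 32 * Real.log z := by
    have e1 : (y : ℝ) ≤ (z : ℝ) ^ 32 := by
      have e0 : z + 1 ≤ z ^ 2 := by
        calc z + 1 ≤ z * 2 := by omega
          _ ≤ z * z := Nat.mul_le_mul_left _ z3
          _ = z ^ 2 := (sq z).symm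
      have : (z + 1) ^ 16 ≤ (z ^ 2) ^ 16 := Nat.pow_le_pow_left e0 _
      rw [← pow_mul] at this
      exact_mod_cast (z2.le.trans this)
    have := Real.log_le_log (by linarith [show (0 : ℝ) < 2 ^ 16 by norm_num]) e1
    rwa [Real.log_pow] at this
  have key := h b y N z 0 (fun _ => 1) (((N : ℝ) - y : ℝ) : ℂ) (fun _ => 1) hyN z3
    (by rw [Complex.norm_real, Real.norm_eq_abs, abs_of_nonneg (by linarith)]) (by simp)
    (fun _ => zero_le_one) (fun d hd _ _ => by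
      have := count_dvd hd hyN
      rw [← Real.norm_eq_abs, ← Complex.norm_real] at this
      simpa using this)
  simp only [sum_const, nsmul_eq_mul, mul_one, Nat.card_Icc, add_tsub_cancel_right, pow_zero,
    div_one, mul_zero, zero_add] at key
  rw [← Complex.ofReal_mul, ← Complex.ofReal_natCast, ← Complex.ofReal_sub, Complex.norm_real,
    Real.norm_eq_abs] at key
  have k1 := (abs_le.1 key).2
  have k2 : (((Ioc y N).filter fun n => ∀ p ∈ PP b y, ¬ p ∣ n).card : ℝ)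
      ≤ ((Ioc y N).filter fun n => ∀ p ∈ PP b z, ¬ p ∣ n).card := by
    refine Nat.cast_le.2 (card_le_card fun n hn => ?_)
    obtain ⟨n1, n2⟩ := mem_filter.1 hn
    refine mem_filter.2 ⟨n1, fun p hp => n2 p ?_⟩
    obtain ⟨p1, p2⟩ := mem_PP.1 hp
    exact mem_PP.2 ⟨p1.trans ((Nat.le_self_pow (by norm_num) z).trans z1), p2⟩
  have k3 : ∏ p ∈ PP b z, (1 - (1 : ℝ) / p) ≤ 32 * Cb / Real.log y := by
    refine (hV z z3).trans ?_
    rw [div_le_div_iff₀ lz ly]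
    calc Cb * Real.log y ≤ Cb * (32 * Real.log z) := by gcongr
      _ = _ := by ring
  have k4 := V_nonneg b z
  have k5 : (z : ℝ) ^ 8 ≤ 32 * N / Real.log y := by
    rw [le_div_iff₀ ly]
    have e1 : Real.log z ≤ (z : ℝ) ^ 8 :=
      (Real.log_le_self (by linarith)).trans (le_self_pow₀ (by linarith) (by norm_num))
    have e2 : (z : ℝ) ^ 8 * (z : ℝ) ^ 8 ≤ N := by
      rw [← pow_add]; exact_mod_cast z1.trans hyN
    calc (z : ℝ) ^ 8 * Real.log y ≤ (z : ℝ) ^ 8 * (32 * (z : ℝ) ^ 8) := by gcongr; linarith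
      _ = 32 * ((z : ℝ) ^ 8 * (z : ℝ) ^ 8) := by ring
      _ ≤ _ := by gcongr
  have k6 : ((z ^ 6 : ℕ) : ℝ) ≤ (z : ℝ) ^ 8 := by
    push_cast; exact pow_le_pow_right₀ (by linarith) (by norm_num)
  have hN : (0 : ℝ) ≤ N := Nat.cast_nonneg _
  have hy0 : (0 : ℝ) ≤ y := Nat.cast_nonneg _
  generalize ∏ p ∈ PP b z, (1 - (1 : ℝ) / p) = V at *
  have k7 : (1 + C) * N * V ≤ (1 + C) * N * (32 * Cb / Real.log y) := by gcongr
  have e : (32 * (1 + C) * Cb + 64) * N / Real.log y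
      = (1 + C) * N * (32 * Cb / Real.log y) + 2 * (32 * N / Real.log y) := by ring
  rw [e]
  have k8 := mul_nonneg hy0 k4
  have k9 : ((N : ℝ) - y) * V = N * V - y * V := by ring
  have k10 : (1 + C) * N * V = N * V + C * N * V := by ring
  linarith

lemma cube_le (L : ℕ) : ((L : ℝ) + 1) ^ 3 ≤ 27 * 2 ^ L := by
  have h1 : L + 1 ≤ 3 * 2 ^ (L / 3) := by
    have := Nat.lt_two_pow_self (n := L / 3)
    omega
  have h2 : (L + 1) ^ 3 ≤ 27 * 2 ^ L := by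
    calc (L + 1) ^ 3 ≤ (3 * 2 ^ (L / 3)) ^ 3 := Nat.pow_le_pow_left h1 _
      _ = 27 * 2 ^ (L / 3 * 3) := by rw [mul_pow, ← pow_mul]; norm_num
      _ ≤ 27 * 2 ^ L := by gcongr; exacts [by norm_num, Nat.div_mul_le_self _ _]
  exact_mod_cast h2

/-- the remainder terms are negligible for large `N` -/
lemma small_rem {c K : ℝ} (hc : 0 < c) (hK : 0 < K) : ∃ N0 : ℕ, ∀ N : ℕ, N0 ≤ N →
    K * (N : ℝ) ^ (1 - c / 2) * (2 + Real.log N) ≤ N / Real.log N ^ 3 := by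
  have h := (tendsto_rpow_atTop (y := c / 4) (by positivity)).comp tendsto_natCast_atTop_atTop
  obtain ⟨N0, h0⟩ := Filter.eventually_atTop.1
    (h.eventually_ge_atTop (3 * K * (16 / c) ^ 4))
  refine ⟨max N0 3, fun N hN => ?_⟩
  have h1 : 3 * K * (16 / c) ^ 4 ≤ (N : ℝ) ^ (c / 4) := h0 N (le_of_max_le_left hN)
  have h3 : (3 : ℝ) ≤ N := by exact_mod_cast le_of_max_le_right hN
  have hN0 : (0 : ℝ) < N := by linarith
  have l1 : 1 ≤ Real.log N := by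
    rw [Real.le_log_iff_exp_le hN0]
    linarith [Real.exp_one_lt_d9]
  have l2 : Real.log N ^ 4 ≤ (N : ℝ) ^ (c / 4) * (16 / c) ^ 4 := by
    have := Real.log_le_rpow_div hN0.le (ε := c / 16) (by positivity)
    calc Real.log N ^ 4 ≤ ((N : ℝ) ^ (c / 16) / (c / 16)) ^ 4 := by gcongr
      _ = ((N : ℝ) ^ (c / 16)) ^ 4 * (16 / c) ^ 4 := by field_simp
      _ = _ := by
          rw [← Real.rpow_natCast ((N : ℝ) ^ (c / 16)), ← Real.rpow_mul hN0.le]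
          congr 2; push_cast; ring
  have e : (N : ℝ) = (N : ℝ) ^ (1 - c / 2) * ((N : ℝ) ^ (c / 4) * (N : ℝ) ^ (c / 4)) := by
    rw [← Real.rpow_add hN0, ← Real.rpow_add hN0]
    rw [show 1 - c / 2 + (c / 4 + c / 4) = 1 by ring, Real.rpow_one]
  rw [le_div_iff₀ (by positivity)]
  calc K * (N : ℝ) ^ (1 - c / 2) * (2 + Real.log N) * Real.log N ^ 3
      ≤ K * (N : ℝ) ^ (1 - c / 2) * (3 * Real.log N) * Real.log N ^ 3 := by gcongr; linarith
    _ = (N : ℝ) ^ (1 - c / 2) * (3 * K * Real.log N ^ 4) := by ring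
    _ ≤ (N : ℝ) ^ (1 - c / 2) * (3 * K * ((N : ℝ) ^ (c / 4) * (16 / c) ^ 4)) := by gcongr
    _ = (N : ℝ) ^ (1 - c / 2) * (3 * K * (16 / c) ^ 4 * (N : ℝ) ^ (c / 4)) := by ring
    _ ≤ (N : ℝ) ^ (1 - c / 2) * ((N : ℝ) ^ (c / 4) * (N : ℝ) ^ (c / 4)) := by gcongr
    _ = N := e.symm

lemma rem_bound {c : ℝ} (hc : 0 < c) (hc2 : c ≤ 1 / 2) {N d J : ℕ} (hd : 0 < d) (hN : 0 < N)
    (h : d ^ 4 ≤ N) (hJ : J ≤ N / d) :
    (J : ℝ) ^ (1 - c) ≤ (N : ℝ) ^ (1 - c / 2) / d ∧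
      (N.sqrt : ℝ) + 2 ≤ 3 * ((N : ℝ) ^ (1 - c / 2) / d) := by
  have hd' : (1 : ℝ) ≤ d := by exact_mod_cast hd
  have hN' : (1 : ℝ) ≤ N := by exact_mod_cast hN
  have hN0 : (0 : ℝ) < N := by linarith
  have h4 : (d : ℝ) ≤ (N : ℝ) ^ (1 / 4 : ℝ) := by
    have : ((d : ℝ) ^ 4) ^ (1 / 4 : ℝ) ≤ (N : ℝ) ^ (1 / 4 : ℝ) := by
      gcongr; exact_mod_cast h
    rwa [← Real.rpow_natCast, ← Real.rpow_mul (by linarith), show ((4 : ℕ) : ℝ) * (1 / 4) = 1 by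
      norm_num, Real.rpow_one] at this
  constructor
  · have e1 : (J : ℝ) ≤ N / d := (Nat.cast_le.2 hJ).trans Nat.cast_div_le
    calc (J : ℝ) ^ (1 - c) ≤ ((N : ℝ) / d) ^ (1 - c) := by gcongr; linarith
      _ = (N : ℝ) ^ (1 - c) * (d : ℝ) ^ c / d := by
          rw [Real.div_rpow hN0.le (by linarith), Real.rpow_sub (by linarith : (0 : ℝ) < d),
            Real.rpow_one]
          field_simp
      _ ≤ (N : ℝ) ^ (1 - c) * ((N : ℝ) ^ (1 / 4 : ℝ)) ^ c / d := by gcongr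
      _ ≤ _ := by
          rw [← Real.rpow_mul hN0.le, ← Real.rpow_add hN0]
          gcongr
          linarith
  · have e1 : (N.sqrt : ℝ) ≤ (N : ℝ) ^ (1 / 2 : ℝ) := by
      rw [← Real.sqrt_eq_rpow]; exact Real.nat_sqrt_le_real_sqrt
    have e2 : 1 ≤ (N : ℝ) ^ (1 / 2 : ℝ) := Real.one_le_rpow hN' (by norm_num)
    have e3 : (N : ℝ) ^ (1 / 2 : ℝ) ≤ (N : ℝ) ^ (1 - c / 2) / d := by
      rw [le_div_iff₀ (by linarith)]
      calc (N : ℝ) ^ (1 / 2 : ℝ) * d ≤ (N : ℝ) ^ (1 / 2 : ℝ) * (N : ℝ) ^ (1 / 4 : ℝ) := by gcongr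
        _ ≤ _ := by
            rw [← Real.rpow_add hN0]
            gcongr
            linarith
    linarith

end Rough

end Pool.Agent.P.MP_a14ce1_nt.Ch
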