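import Pool.Agent.P.MP_a14ce1_nt.Ch.Defs

/-!
Scale decomposition, first half: one block of primes.
-/

open Finset MeasureTheory

namespace Pool.Agent.P.MP_a14ce1_nt.Ch.Scales

/-- primes in a dyadic block -/
def Pd (v : ℕ) : Finset ℕ := (Ico (2 ^ v) (2 ^ (v + 1))).filter Nat.Prime

/-- primes in a union of dyadic blocks -/
def Pb (A B : ℕ) : Finset ℕ := (Ico (2 ^ A) (2 ^ B)).filter Nat.Prime

/-- cofactors that go with a dyadic block -/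
noncomputable def M (X v : ℕ) : Finset ℕ :=
  (Icc 1 (8 * X / 2 ^ v)).filter (fun m => (X : ℝ) / (6 * 2 ^ v) ≤ m)

noncomputable def co (f : ℕ → ℂ) (n : ℕ) : ℂ := f n / n

noncomputable def phi (f : ℕ → ℂ) (v : ℕ) (t : ℝ) : ℝ := sm (Pd v) (co f) t

noncomputable def rr (f : ℕ → ℂ) (X v : ℕ) (t : ℝ) : ℝ := sm (M X v) (co f) t

noncomputable def tm (f : ℕ → ℂ) (X : ℕ) (t : ℝ) (n : ℕ) : ℂ :=
  f n * ((psi (Real.log n - Real.log X) / n : ℝ) : ℂ) * nit t n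

noncomputable def Dv (f : ℕ → ℂ) (X : ℕ) (Q : Finset ℕ) (t : ℝ) : ℂ :=
  ∑ n ∈ Icc 1 (8 * X), (f n * ((psi (Real.log n - Real.log X) / n : ℝ) : ℂ) *
    ((1 - om Q n / rs Q : ℝ) : ℂ)) * nit t n

noncomputable def Fv (f : ℕ → ℂ) (X v : ℕ) (t : ℝ) : ℂ :=
  ∑ p ∈ Pd v, ∑ m ∈ M X v, co f p * co f m *
    ((psi (Real.log ((p * m : ℕ) : ℝ) - Real.log X) : ℝ) : ℂ) * nit t ((p * m : ℕ) : ℝ)

theorem psi_supp {X n : ℕ} (hX : 1 ≤ X) (hn : 1 ≤ n)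
    (h : psi (Real.log n - Real.log X) ≠ 0) : (X : ℝ) / 3 < n ∧ (n : ℝ) < 8 * X := by
  have hX' : (0 : ℝ) < X := by exact_mod_cast hX
  have hn' : (0 : ℝ) < n := by exact_mod_cast hn
  have h1 : ¬ (Real.log n - Real.log X ≤ -1 ∨ 2 ≤ Real.log n - Real.log X) :=
    fun h' => h (psi_eq_zero h')
  rw [not_or, not_le, not_le] at h1
  have e3 : Real.exp 1 < 2.72 := lt_trans Real.exp_one_lt_d9 (by norm_num)
  have e0 : 0 < Real.exp 1 := Real.exp_pos 1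
  constructor
  · have : Real.log X < Real.log (n * Real.exp 1) := by
      rw [Real.log_mul hn'.ne' e0.ne', Real.log_exp]; linarith
    have := (Real.log_lt_log_iff hX' (by positivity)).1 this
    nlinarith
  · have : Real.log n < Real.log (X * (Real.exp 1 * Real.exp 1)) := by
      rw [Real.log_mul hX'.ne' (by positivity), Real.log_mul e0.ne' e0.ne', Real.log_exp]; linarith
    have := (Real.log_lt_log_iff hn' (by positivity)).1 this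
    have h2 : Real.exp 1 * Real.exp 1 < 8 := by nlinarith
    nlinarith

theorem mem_Pd {v p : ℕ} : p ∈ Pd v ↔ p.Prime ∧ 2 ^ v ≤ p ∧ p < 2 * 2 ^ v := by
  unfold Pd
  rw [mem_filter, mem_Ico, pow_succ, mul_comm]
  tauto

theorem mem_M {X v m : ℕ} : m ∈ M X v ↔ 1 ≤ m ∧ m ≤ 8 * X / 2 ^ v ∧ (X : ℝ) / (6 * 2 ^ v) ≤ m := by
  unfold M
  rw [mem_filter, mem_Icc]
  tauto

theorem norm_co {f : ℕ → ℂ} (hf : CM f) (n : ℕ) : ‖co f n‖ ≤ 1 / (n : ℝ) := by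
  unfold co
  rw [norm_div, Complex.norm_natCast]
  exact div_le_div_of_nonneg_right (hf.bd n) (Nat.cast_nonneg n)

theorem sum_Pb {β : Type*} [AddCommMonoid β] (g : ℕ → β) {A B : ℕ} (h : A ≤ B) :
    ∑ p ∈ Pb A B, g p = ∑ v ∈ Ico A B, ∑ p ∈ Pd v, g p := by
  induction B, h using Nat.le_induction with
  | base => simp [Pb]
  | succ B hAB ih =>
    rw [sum_Ico_succ_top hAB, ← ih]
    unfold Pb Pd
    simp only [sum_filter]
    rw [sum_Ico_consecutive _ (Nat.pow_le_pow_right (by norm_num) hAB)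
      (Nat.pow_le_pow_right (by norm_num) (Nat.le_succ B))]

theorem reindex {f : ℕ → ℂ} (hf : CM f) {X v p : ℕ} (hX : 1 ≤ X) (hp : p ∈ Pd v) (t : ℝ) :
    ∑ n ∈ (Icc 1 (8 * X)).filter (fun n => p ∣ n), tm f X t n =
      ∑ m ∈ M X v, co f p * co f m *
        ((psi (Real.log ((p * m : ℕ) : ℝ) - Real.log X) : ℝ) : ℂ) * nit t ((p * m : ℕ) : ℝ) := by
  obtain ⟨hpp, hp1, hp2⟩ := mem_Pd.1 hp
  have hp0 : 0 < p := hpp.pos
  have key : ∀ m, 1 ≤ m → co f p * co f m *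
      ((psi (Real.log ((p * m : ℕ) : ℝ) - Real.log X) : ℝ) : ℂ) * nit t ((p * m : ℕ) : ℝ) =
        tm f X t (p * m) := by
    intro m hm
    unfold co tm
    rw [hf.mul p m hp0.ne' (by omega)]
    push_cast
    ring
  have hne : ∀ n, tm f X t n ≠ 0 → psi (Real.log n - Real.log X) ≠ 0 := by
    intro n h h0
    apply h
    unfold tm
    rw [h0]; simp
  rw [sum_congr rfl (fun m hm => key m (mem_M.1 hm).1)]
  symm
  refine sum_bij_ne_zero (fun m _ _ => p * m) ?_ ?_ ?_ ?_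
  · intro m hm h
    have hm1 := (mem_M.1 hm).1
    have h1 : 1 ≤ p * m := Nat.mul_pos hp0 hm1
    have := (psi_supp hX h1 (hne _ h)).2
    rw [mem_filter, mem_Icc]
    refine ⟨⟨h1, ?_⟩, dvd_mul_right _ _⟩
    exact_mod_cast this.le
  · intro a _ _ b _ _ h
    exact Nat.eq_of_mul_eq_mul_left hp0 h
  · intro n hn h
    rw [mem_filter, mem_Icc] at hn
    obtain ⟨⟨h1, h2⟩, m, rfl⟩ := hn
    have hm1 : 1 ≤ m := Nat.pos_of_ne_zero (by rintro rfl; simp at h1)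
    have h3 := (psi_supp hX h1 (hne _ h)).1
    refine ⟨m, mem_M.2 ⟨hm1, ?_, ?_⟩, h, rfl⟩
    · rw [Nat.le_div_iff_mul_le (by positivity)]
      calc m * 2 ^ v ≤ m * p := Nat.mul_le_mul_left _ hp1
        _ ≤ 8 * X := by rw [mul_comm]; exact h2
    · rw [div_le_iff₀ (by positivity)]
      have h4 : (p : ℝ) ≤ 2 * 2 ^ v := by exact_mod_cast hp2.le
      have h5 : (0 : ℝ) ≤ m := Nat.cast_nonneg m
      push_cast at h3
      nlinarith
  · intro m _ _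
    rfl

theorem decomp {f : ℕ → ℂ} (hf : CM f) {X A B : ℕ} (hX : 1 ≤ X) (h : A ≤ B) (t : ℝ) :
    Fx f X t = Dv f X (Pb A B) t + ((1 / rs (Pb A B) : ℝ) : ℂ) * ∑ v ∈ Ico A B, Fv f X v t := by
  have h1 : ∑ v ∈ Ico A B, Fv f X v t =
      ∑ n ∈ Icc 1 (8 * X), ((om (Pb A B) n : ℝ) : ℂ) * tm f X t n := by
    have : ∀ v ∈ Ico A B, Fv f X v t =
        ∑ p ∈ Pd v, ∑ n ∈ (Icc 1 (8 * X)).filter (fun n => p ∣ n), tm f X t n := by
      intro v _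
      unfold Fv
      exact sum_congr rfl fun p hp => (reindex hf hX hp t).symm
    rw [sum_congr rfl this, ← sum_Pb (fun p => ∑ n ∈ (Icc 1 (8 * X)).filter (fun n => p ∣ n),
      tm f X t n) h]
    simp only [sum_filter]
    rw [sum_comm]
    refine sum_congr rfl fun n _ => ?_
    rw [← sum_filter, sum_const, nsmul_eq_mul]
    unfold om
    push_cast
    rfl
  rw [h1, mul_sum]
  unfold Fx Dv
  rw [← sum_add_distrib]
  refine sum_congr rfl fun n _ => ?_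
  unfold tm
  push_cast
  ring

theorem point {C : ℝ}
    (hS : ∀ (P M : Finset ℕ) (a b : ℕ → ℂ) (x t : ℝ), (∀ p ∈ P, 1 ≤ p) → (∀ m ∈ M, 1 ≤ m) →
      ‖∑ p ∈ P, ∑ m ∈ M, a p * b m * ((psi (Real.log ((p * m : ℕ) : ℝ) - x) : ℝ) : ℂ) *
        nit t ((p * m : ℕ) : ℝ)‖ ^ 2 ≤ C * (sm P a t * sm M b t))
    {f : ℕ → ℂ} (hf : CM f) {X A B : ℕ} (hX : 1 ≤ X) (h : A ≤ B) (hL : 1 ≤ rs (Pb A B)) (t : ℝ) :
    ‖Fx f X t‖ ^ 2 ≤ 2 * ‖Dv f X (Pb A B) t‖ ^ 2 +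
      2 * C * B * ∑ v ∈ Ico A B, phi f v t * rr f X v t := by
  have h1 : ‖Fx f X t‖ ≤ ‖Dv f X (Pb A B) t‖ + ∑ v ∈ Ico A B, ‖Fv f X v t‖ := by
    rw [decomp hf hX h t]
    refine (norm_add_le _ _).trans (add_le_add le_rfl ?_)
    rw [norm_mul, Complex.norm_real, Real.norm_eq_abs, abs_of_nonneg (by positivity)]
    have : 1 / rs (Pb A B) ≤ 1 := by rw [div_le_one (by linarith)]; exact hL
    calc _ ≤ 1 * ‖∑ v ∈ Ico A B, Fv f X v t‖ := by gcongr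
      _ ≤ _ := by rw [one_mul]; exact norm_sum_le _ _
  have h2 : (∑ v ∈ Ico A B, ‖Fv f X v t‖) ^ 2 ≤ B * ∑ v ∈ Ico A B, ‖Fv f X v t‖ ^ 2 := by
    refine (sq_sum_le_card_mul_sum_sq).trans ?_
    have : ((Ico A B).card : ℝ) ≤ B := by
      rw [Nat.card_Ico]; exact_mod_cast Nat.sub_le _ _
    gcongr
  have h3 : ∑ v ∈ Ico A B, ‖Fv f X v t‖ ^ 2 ≤ C * ∑ v ∈ Ico A B, phi f v t * rr f X v t := by
    rw [mul_sum]
    exact sum_le_sum fun v _ => hS _ _ _ _ _ _ (fun p hp => (mem_Pd.1 hp).1.pos)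
      (fun m hm => (mem_M.1 hm).1)
  have h4 : (B : ℝ) * ∑ v ∈ Ico A B, ‖Fv f X v t‖ ^ 2 ≤
      B * (C * ∑ v ∈ Ico A B, phi f v t * rr f X v t) := by gcongr
  have h5 : 0 ≤ ∑ v ∈ Ico A B, ‖Fv f X v t‖ := sum_nonneg fun _ _ => norm_nonneg _
  have h6 := pow_le_pow_left₀ (norm_nonneg _) h1 2
  nlinarith [sq_nonneg (‖Dv f X (Pb A B) t‖ - ∑ v ∈ Ico A B, ‖Fv f X v t‖)]

theorem coef_le {f : ℕ → ℂ} (hf : CM f) {X n : ℕ} (hX : 1 ≤ X) (hn : 1 ≤ n) :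
    ‖f n * ((psi (Real.log n - Real.log X) / n : ℝ) : ℂ)‖ ≤ 3 / X := by
  have hX' : (0 : ℝ) < X := by exact_mod_cast hX
  have hn' : (0 : ℝ) < n := by exact_mod_cast hn
  by_cases h : psi (Real.log n - Real.log X) = 0
  · rw [h]; simp; positivity
  · have h1 := (psi_supp hX hn h).1
    rw [norm_mul, Complex.norm_real, Real.norm_eq_abs,
      abs_of_nonneg (div_nonneg (psi_nonneg _) hn'.le)]
    calc _ ≤ 1 * (1 / (n : ℝ)) := by
          gcongr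
          · exact div_nonneg (psi_nonneg _) hn'.le
          · exact hf.bd n
          · exact psi_le_one _
      _ ≤ 3 / X := by
          rw [one_mul, div_le_div_iff₀ hn' hX']; linarith

theorem int_Dv (hT : S_TK) (hM : S_MVT) {f : ℕ → ℂ} (hf : CM f) {X A B : ℕ} (hX : 1 ≤ X)
    (hB : 2 ^ B ≤ X) (hL : 0 < rs (Pb A B)) {T : ℝ} (hT0 : 0 < T) (hTX : T ≤ X) :
    ∫ t, cw T t * ‖Dv f X (Pb A B) t‖ ^ 2 ≤ 15000 / rs (Pb A B) := by
  have hX' : (0 : ℝ) < X := by exact_mod_cast hX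
  unfold Dv
  refine (hM _ _ T hT0).trans ?_
  have h1 := hT (Pb A B) (8 * X) (fun p hp => (mem_filter.1 hp).2) (by
    refine (card_filter_le _ _).trans ?_
    rw [Nat.card_Ico]
    exact (Nat.sub_le _ _).trans (hB.trans (by omega))) hL
  have h2 : ∑ n ∈ Icc 1 (8 * X), ‖f n * ((psi (Real.log n - Real.log X) / n : ℝ) : ℂ) *
      ((1 - om (Pb A B) n / rs (Pb A B) : ℝ) : ℂ)‖ ^ 2 ≤
      (3 / X) ^ 2 * ∑ n ∈ Icc 1 (8 * X), (1 - om (Pb A B) n / rs (Pb A B)) ^ 2 := by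
    rw [mul_sum]
    refine sum_le_sum fun n hn => ?_
    rw [norm_mul, mul_pow, Complex.norm_real, Real.norm_eq_abs, sq_abs]
    gcongr
    exact coef_le hf hX (mem_Icc.1 hn).1
  have hpi := Real.pi_lt_four
  have hpi0 := Real.pi_pos
  calc _ ≤ 4 * (17 * (X : ℝ)) * ((3 / (X : ℝ)) ^ 2 * (3 * ((8 * X : ℕ) : ℝ) / rs (Pb A B))) := by
        refine mul_le_mul (mul_le_mul hpi.le (by push_cast; linarith) (by positivity) (by norm_num))
          (h2.trans (by gcongr)) (sum_nonneg fun _ _ => by positivity) (by positivity)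
    _ = 14688 / rs (Pb A B) := by push_cast; field_simp; norm_num
    _ ≤ _ := by gcongr; norm_num

theorem int_Fx (hM : S_MVT) {f : ℕ → ℂ} (hf : CM f) {X : ℕ} (hX : 1 ≤ X) :
    ∫ t, cw X t * ‖Fx f X t‖ ^ 2 ≤ 5000 := by
  have hX' : (0 : ℝ) < X := by exact_mod_cast hX
  unfold Fx
  refine (hM _ _ X hX').trans ?_
  have h2 : ∑ n ∈ Icc 1 (8 * X), ‖f n * ((psi (Real.log n - Real.log X) / n : ℝ) : ℂ)‖ ^ 2 ≤
      (8 * X) * (3 / X) ^ 2 := by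
    refine (sum_le_card_nsmul _ _ ((3 / (X : ℝ)) ^ 2) fun n hn => ?_).trans ?_
    · gcongr
      exact coef_le hf hX (mem_Icc.1 hn).1
    · simp
  have hpi := Real.pi_lt_four
  have hpi0 := Real.pi_pos
  calc _ ≤ 4 * (17 * (X : ℝ)) * ((8 * (X : ℝ)) * (3 / (X : ℝ)) ^ 2) := by
        refine mul_le_mul (mul_le_mul hpi.le (by push_cast; linarith) (by positivity) (by norm_num))
          h2 (sum_nonneg fun _ _ => by positivity) (by positivity)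
    _ = 4896 := by field_simp; norm_num
    _ ≤ _ := by norm_num

theorem mom_const (l : ℕ) : Real.pi ^ (l + 2) * (4896 * 4 ^ l) * (2 * l + 1) ^ (2 * l) ≤
    80000 * (16 * (2 * (l : ℝ) + 1) ^ 2) ^ l := by
  have hpi := Real.pi_lt_four.le
  have hpi0 := Real.pi_pos.le
  have : Real.pi ^ (l + 2) ≤ 4 ^ (l + 2) := by gcongr
  calc _ ≤ 4 ^ (l + 2) * (4896 * 4 ^ l) * (2 * (l : ℝ) + 1) ^ (2 * l) := by gcongr
    _ = 78336 * (16 * (2 * (l : ℝ) + 1) ^ 2) ^ l := by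
        rw [mul_pow, ← pow_mul, show (16 : ℝ) = 4 * 4 by norm_num, mul_pow]; ring
    _ ≤ _ := by gcongr; norm_num

/-- the moment bound in the form used for the blocks -/
theorem mom (hMo : S_Moment) {f : ℕ → ℂ} (hf : CM f) {X : ℕ} (hX : 1 ≤ X) (r v l : ℕ) {T : ℝ}
    (hT0 : 0 < T) (hT : T * 2 ^ v ≤ 2 ^ (r * l) * X) :
    ∫ t, cw T t * (phi f r t ^ l * rr f X v t) ≤ 80000 * (16 * (2 * (l : ℝ) + 1) ^ 2) ^ l := by
  have hX' : (0 : ℝ) < X := by exact_mod_cast hX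
  have h := hMo T (2 ^ r) (Pd r) (M X v) (co f) (co f) ((X : ℝ) / (6 * 2 ^ v)) (8 * X / 2 ^ v) l hT0
    (Nat.one_le_two_pow) (fun p hp => mem_Pd.1 hp) (fun p _ => norm_co hf p) (by positivity)
    (fun m hm => ⟨(mem_M.1 hm).2.2, (mem_M.1 hm).2.1⟩) (fun m _ => norm_co hf m)
  refine h.trans (le_trans ?_ (mom_const l))
  set Y : ℝ := (((2 ^ r : ℕ) : ℝ)) ^ l * ((X : ℝ) / (6 * 2 ^ v)) with hY
  have hY0 : 0 < Y := by positivity
  have h1 : T ≤ 6 * Y := by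
    rw [hY]; push_cast
    rw [← pow_mul, show 6 * ((2 : ℝ) ^ (r * l) * (X / (6 * 2 ^ v))) = 2 ^ (r * l) * X / 2 ^ v by
      field_simp, le_div_iff₀ (by positivity)]
    exact hT
  have h2 : (2 * ((2 ^ r : ℕ) : ℝ)) ^ l * ((8 * X / 2 ^ v : ℕ) : ℝ) ≤ 48 * 2 ^ l * Y := by
    have : ((8 * X / 2 ^ v : ℕ) : ℝ) ≤ 8 * X / 2 ^ v := by
      refine Nat.cast_div_le.trans (le_of_eq ?_); push_cast; rfl
    calc _ ≤ (2 * ((2 ^ r : ℕ) : ℝ)) ^ l * (8 * X / 2 ^ v) := by gcongr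
      _ = _ := by rw [hY, mul_pow]; field_simp; ring
  have h3 : (1 : ℝ) ≤ 2 ^ l := one_le_pow₀ (by norm_num)
  rw [div_le_iff₀ (by positivity)]
  set N : ℝ := (2 * ((2 ^ r : ℕ) : ℝ)) ^ l * ((8 * X / 2 ^ v : ℕ) : ℝ) with hN
  have hN0 : 0 ≤ N := by positivity
  have h4 : (T + 2 * N) * N ≤ 4896 * 4 ^ l * Y ^ 2 := by
    have h5 : T + 2 * N ≤ 102 * 2 ^ l * Y := by nlinarith
    calc _ ≤ (102 * 2 ^ l * Y) * (48 * 2 ^ l * Y) := by gcongr
      _ = _ := by rw [show (4 : ℝ) = 2 * 2 by norm_num, mul_pow]; ring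
  calc _ = Real.pi ^ (l + 2) * ((T + 2 * N) * N) * (2 * l + 1) ^ (2 * l) := by ring
    _ ≤ Real.pi ^ (l + 2) * (4896 * 4 ^ l * Y ^ 2) * (2 * l + 1) ^ (2 * l) := by
        have := Real.pi_pos.le
        gcongr
    _ = _ := by ring

theorem sm_one (t : ℝ) : sm {1} (fun _ => 1) t = Real.pi := by
  unfold sm
  simp [norm_nit, integral_cw]

/-- the pure moment bound -/
theorem mom1 (hMo : S_Moment) {f : ℕ → ℂ} (hf : CM f) (r l : ℕ) {T : ℝ}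
    (hT0 : 0 < T) (hT : T ≤ 2 ^ (r * l)) :
    ∫ t, cw T t * phi f r t ^ l ≤ 80000 * (16 * (2 * (l : ℝ) + 1) ^ 2) ^ l := by
  have h := hMo T (2 ^ r) (Pd r) {1} (co f) (fun _ => 1) 1 1 l hT0
    (Nat.one_le_two_pow) (fun p hp => mem_Pd.1 hp) (fun p _ => norm_co hf p) one_pos
    (fun m hm => by simp [mem_singleton.1 hm]) (fun m hm => by simp [mem_singleton.1 hm])
  simp only [sm_one] at h
  have hpi := Real.pi_gt_three
  have h0 : ∫ t, cw T t * (sm (Pd r) (co f) t ^ l * Real.pi) =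
      (∫ t, cw T t * phi f r t ^ l) * Real.pi := by
    rw [← integral_mul_const]; congr 1; ext t; unfold phi; ring
  rw [h0] at h
  set Y : ℝ := (((2 ^ r : ℕ) : ℝ)) ^ l with hY
  have hY0 : 0 < Y := by positivity
  have h1 : T ≤ Y := by rw [hY]; push_cast; rw [← pow_mul]; exact hT
  have h3 : (1 : ℝ) ≤ 2 ^ l := one_le_pow₀ (by norm_num)
  have h4 : (T + 2 * (2 ^ l * Y)) * (2 ^ l * Y) ≤ 4896 * 4 ^ l * Y ^ 2 := by
    have h5 : T + 2 * (2 ^ l * Y) ≤ 4896 * 2 ^ l * Y := by nlinarith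
    calc _ ≤ (4896 * 2 ^ l * Y) * (2 ^ l * Y) := by gcongr
      _ = _ := by rw [show (4 : ℝ) = 2 * 2 by norm_num, mul_pow]; ring
  have h6 : (∫ t, cw T t * phi f r t ^ l) * Real.pi ≤ 80000 * (16 * (2 * (l : ℝ) + 1) ^ 2) ^ l := by
    refine h.trans (le_trans ?_ (mom_const l))
    rw [div_le_iff₀ (by positivity)]
    calc _ = Real.pi ^ (l + 2) * ((T + 2 * (2 ^ l * Y)) * (2 ^ l * Y)) * (2 * l + 1) ^ (2 * l) := by
          rw [mul_pow, ← hY]; push_cast; ring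
      _ ≤ Real.pi ^ (l + 2) * (4896 * 4 ^ l * Y ^ 2) * (2 * l + 1) ^ (2 * l) := by
          have := Real.pi_pos.le
          gcongr
      _ = _ := by ring
  by_cases hs : 0 ≤ ∫ t, cw T t * phi f r t ^ l
  · nlinarith
  · exact (not_le.1 hs).le.trans (by positivity)

theorem rs_block {C : ℝ} (hC : ∀ u v : ℝ, 2 ≤ u → u ≤ v →
    |rs (pr u v) - Real.log (Real.log v / Real.log u)| ≤ C) {s : ℕ} (hs : 2 ≤ s) :
    Real.log s - C ≤ rs (Pb (s ^ 2) (s ^ 4)) := by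
  have h23 : s ^ 2 ≤ s ^ 3 := Nat.pow_le_pow_right (by omega) (by norm_num)
  have h34 : s ^ 3 < s ^ 4 := Nat.pow_lt_pow_right (by omega) (by norm_num)
  have h2 : 1 ≤ s ^ 2 := Nat.one_le_pow _ _ (by omega)
  have h := hC ((2 ^ s ^ 2 : ℕ) : ℝ) ((2 ^ s ^ 3 : ℕ) : ℝ)
    (by exact_mod_cast (Nat.pow_le_pow_right (by norm_num) h2 : 2 ^ 1 ≤ 2 ^ s ^ 2))
    (by exact_mod_cast Nat.pow_le_pow_right (by norm_num) h23)
  have hs' : (0 : ℝ) < s := by exact_mod_cast (by omega : 0 < s)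
  have hl : Real.log ((2 ^ s ^ 3 : ℕ) : ℝ) / Real.log ((2 ^ s ^ 2 : ℕ) : ℝ) = s := by
    push_cast
    rw [Real.log_pow, Real.log_pow]
    have : Real.log 2 ≠ 0 := (Real.log_pos (by norm_num)).ne'
    push_cast
    field_simp
  rw [hl, pr_nat] at h
  have h3 : rs ((Ioc (2 ^ s ^ 2) (2 ^ s ^ 3)).filter Nat.Prime) ≤ rs (Pb (s ^ 2) (s ^ 4)) := by
    refine sum_le_sum_of_subset_of_nonneg (fun p hp => ?_) (fun _ _ _ => by positivity)
    rw [mem_filter, mem_Ioc] at hp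
    refine mem_filter.2 ⟨mem_Ico.2 ⟨hp.1.1.le, lt_of_le_of_lt hp.1.2 ?_⟩, hp.2⟩
    exact Nat.pow_lt_pow_right (by norm_num) h34
  linarith [(abs_le.1 h).1]

end Pool.Agent.P.MP_a14ce1_nt.Ch.Scales
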