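import Pool.Agent.P.MP_a14ce1_nt.Ch.ShortExpA

/-! Short exponential sums of the Liouville function are small on average. -/

open Finset

namespace Pool.Agent.P.MP_a14ce1_nt.Ch

namespace ShortExp

/-- the short sum -/
noncomputable def G (α : ℝ) (R x : ℕ) : ℂ := ∑ j ∈ range R, (lam (x + j) : ℂ) * ex (α * j)

theorem norm_lam (n : ℕ) : ‖(lam n : ℂ)‖ = 1 := by
  rw [Complex.norm_real, Real.norm_eq_abs, abs_lam]

theorem minor (hT : S_TK) {R X Q0 : ℕ} {K s : ℝ} (α : ℝ) (Q : Finset ℕ)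
    (hQ : ∀ q ∈ Q, q.Prime ∧ q ≤ Q0) (hc : Q.card ≤ Q0) (hQR : Q0 ≤ R)
    (hK : K = 6 * (Q0 : ℝ) ^ 3) (hQ0 : 1 ≤ Q0) (hs : 1 ≤ s) (hrs : s ^ 2 ≤ rs Q)
    (hmin : ∀ q ∈ Q, ∀ q' ∈ Q, q ≠ q' → K / R ≤ ‖ex (α * ((q : ℝ) - q')) - 1‖) :
    ∑ x ∈ range X, ‖G α R x‖ ≤ 4 * R * (X + R) / s + R := by
  classical
  choose u hu1 hu2 using fun x => Complex.exists_norm_eq_mul_self (G α R x)
  set θ : ℕ → ℂ := fun x => u x * ex (-(α * x)) with hθ
  have hθ1 : ∀ x, ‖θ x‖ = 1 := fun x => by simp only [hθ, norm_mul, hu1, norm_ex, one_mul]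
  set Θ : ℕ → ℂ := fun n => ∑ x ∈ range X, if x ≤ n ∧ n < x + R then θ x else 0 with hΘ
  have hR : ∀ n, ‖Θ n‖ ≤ (R : ℝ) := by
    intro n
    simp only [hΘ]
    rw [← sum_filter]
    refine (norm_sum_le _ _).trans ?_
    simp only [hθ1, sum_const, nsmul_eq_mul, mul_one, Nat.cast_le]
    calc _ ≤ (Ico (n + 1 - R) (n + 1)).card := card_le_card fun x hx => by
          simp only [mem_filter, mem_Ico] at hx ⊢; omega
      _ ≤ R := by rw [Nat.card_Ico]; omega
  have hL : ∀ n, ‖Θ (n + 1) - Θ n‖ ≤ 2 := by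
    intro n
    simp only [hΘ]
    rw [← sum_sub_distrib]
    refine (norm_sum_le _ _).trans ?_
    calc _ ≤ ∑ x ∈ range X, ((if x = n + 1 then (1 : ℝ) else 0) +
            (if x = n + 1 - R then (1 : ℝ) else 0)) := by
          refine sum_le_sum fun x _ => ?_
          split_ifs <;> first | omega | simp [hθ1]
      _ ≤ 2 := by
          rw [sum_add_distrib, sum_ite_eq', sum_ite_eq']
          split_ifs <;> norm_num
  have h0 : ∀ n, X + R < n → Θ n = 0 := by
    intro n hn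
    refine sum_eq_zero fun x hx => if_neg ?_
    rw [mem_range] at hx; omega
  have hR0 : (0 : ℝ) < R := by exact_mod_cast (by omega : 0 < R)
  have key := minor_dual hT hR hL h0 (by push_cast; linarith [Nat.cast_nonneg (α := ℝ) X]) hR0 α Q
    hQ hc (by omega) hK hQ0 hs hrs hmin
  have e : ((∑ x ∈ range X, ‖G α R x‖ : ℝ) : ℂ) =
      ∑ n ∈ range (X + R + 1), (lam n : ℂ) * ex (α * n) * Θ n := by
    push_cast
    simp only [hΘ, mul_sum, mul_ite, mul_zero]
    rw [sum_comm]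
    refine sum_congr rfl fun x hx => ?_
    rw [mem_range] at hx
    rw [hu2, ← sum_filter]
    have : (range (X + R + 1)).filter (fun n => x ≤ n ∧ n < x + R) = Ico x (x + R) := by
      ext n; simp only [mem_filter, mem_range, mem_Ico]; omega
    rw [this, sum_Ico_eq_sum_range, Nat.add_sub_cancel_left, G, mul_sum]
    refine sum_congr rfl fun j _ => ?_
    have : ex (α * j) = ex (α * (x + j : ℕ)) * ex (-(α * x)) := by
      rw [← ex_add]; congr 1; push_cast; ring
    simp only [hθ]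
    rw [this]; ring
  rw [sum_range_succ', ← sum_Icc_eq (fun n => (lam n : ℂ) * ex (α * n) * Θ n)] at e
  refine (le_abs_self _).trans ?_
  rw [← Real.norm_eq_abs, ← Complex.norm_real, e]
  refine (norm_add_le _ _).trans (add_le_add ?_ ?_)
  · simpa using key
  · rw [norm_mul, norm_mul, norm_lam, norm_ex]; simpa using hR 0

theorem G_add (α : ℝ) (a b x : ℕ) : ‖G α (a + b) x‖ ≤ ‖G α a x‖ + ‖G α b (x + a)‖ := by
  have : G α (a + b) x = G α a x + ex (α * a) * G α b (x + a) := by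
    unfold G
    rw [sum_range_add, mul_sum]
    congr 1
    refine sum_congr rfl fun j _ => ?_
    have : ex (α * (a + j : ℕ)) = ex (α * a) * ex (α * j) := by
      rw [← ex_add]; congr 1; push_cast; ring
    rw [this, add_assoc]; ring
  rw [this]
  refine (norm_add_le _ _).trans ?_
  rw [norm_mul, norm_ex, one_mul]

theorem G_le (α : ℝ) (R x : ℕ) : ‖G α R x‖ ≤ R := by
  refine (norm_sum_le _ _).trans ?_
  simp [norm_ex, abs_lam]

theorem G_mul (α : ℝ) (k R x : ℕ) : ‖G α (k * R) x‖ ≤ ∑ l ∈ range k, ‖G α R (x + l * R)‖ := by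
  induction k with
  | zero => simp [G]
  | succ k ih =>
    rw [Nat.succ_mul, sum_range_succ]
    exact (G_add _ _ _ _).trans (by linarith)

theorem shift_le {F : ℕ → ℝ} (hF : ∀ y, 0 ≤ F y) {a R : ℕ} (X : ℕ) (ha : a ≤ R) :
    ∑ x ∈ range X, F (x + a) ≤ ∑ y ∈ range (X + R), F y := by
  have h1 : ∑ y ∈ range (a + X), F y ≤ ∑ y ∈ range (X + R), F y :=
    sum_le_sum_of_subset_of_nonneg (range_subset_range.2 (by omega)) fun y _ _ => hF y
  rw [sum_range_add] at h1
  have h2 : 0 ≤ ∑ y ∈ range a, F y := sum_nonneg fun y _ => hF y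
  simp only [add_comm a] at h1
  linarith

theorem norm_pow_sub_one {z : ℂ} (hz : ‖z‖ = 1) (t : ℕ) : ‖z ^ t - 1‖ ≤ t * ‖z - 1‖ := by
  induction t with
  | zero => simp
  | succ t ih =>
    have : z ^ (t + 1) - 1 = z * (z ^ t - 1) + (z - 1) := by ring
    rw [this]
    refine (norm_add_le _ _).trans ?_
    rw [norm_mul, hz]; push_cast; linarith

theorem block (α : ℝ) {b : ℕ} (hb : 0 < b) {η : ℝ} (hη : ‖ex (α * b) - 1‖ ≤ η) (R y : ℕ) :
    ‖G α R y‖ ≤ ∑ c ∈ range b, |∑ j ∈ (range R).filter (fun j => y + j ≡ c [MOD b]), lam (y + j)| +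
      R * (R * η) := by
  have hη0 : 0 ≤ η := (norm_nonneg _).trans hη
  have e : ex (α * (y % b : ℕ)) * G α R y =
      ∑ j ∈ range R, (lam (y + j) : ℂ) * ex (α * ((y + j) % b : ℕ)) +
      ∑ j ∈ range R, (lam (y + j) : ℂ) * ex (α * ((y + j) % b : ℕ)) *
        (ex (α * b) ^ ((y % b + j) / b) - 1) := by
    rw [G, mul_sum, ← sum_add_distrib]
    refine sum_congr rfl fun j _ => ?_
    have h1 : ex (α * (y % b : ℕ)) * ex (α * j) =
        ex (α * ((y + j) % b : ℕ)) * ex (α * b) ^ ((y % b + j) / b) := by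
      rw [← ex_nat_mul, ← ex_add, ← ex_add]
      congr 1
      have h2 := Nat.mod_add_div (y % b + j) b
      rw [Nat.mod_add_mod] at h2
      have h3 : (((y + j) % b : ℕ) : ℝ) + b * ((y % b + j) / b : ℕ) = (y % b : ℕ) + j := by
        exact_mod_cast h2
      linear_combination (-α) * h3
    linear_combination (lam (y + j) : ℂ) * h1
  have e2 : ‖G α R y‖ = ‖ex (α * (y % b : ℕ)) * G α R y‖ := by rw [norm_mul, norm_ex, one_mul]
  rw [e2, e]
  refine (norm_add_le _ _).trans (add_le_add ?_ ?_)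
  · rw [← sum_fiberwise_of_maps_to (s := range R) (t := range b) (g := fun j => (y + j) % b)
      (fun j _ => mem_range.2 (Nat.mod_lt _ hb))]
    refine (norm_sum_le _ _).trans (sum_le_sum fun c hc => le_of_eq ?_)
    rw [mem_range] at hc
    have h1 : (range R).filter (fun j => y + j ≡ c [MOD b]) =
        (range R).filter (fun j => (y + j) % b = c) := by
      refine filter_congr fun j _ => ?_
      rw [Nat.ModEq, Nat.mod_eq_of_lt hc]
    rw [h1, sum_congr rfl (g := fun j => (lam (y + j) : ℂ) * ex (α * c))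
      (fun j hj => by rw [(mem_filter.1 hj).2]), ← sum_mul, norm_mul, norm_ex, mul_one,
      ← Complex.ofReal_sum, Complex.norm_real, Real.norm_eq_abs]
  · refine (norm_sum_le _ _).trans ?_
    calc _ ≤ ∑ _j ∈ range R, R * η := by
          refine sum_le_sum fun j hj => ?_
          rw [mem_range] at hj
          rw [norm_mul, norm_mul, norm_lam, norm_ex, one_mul, one_mul]
          refine (norm_pow_sub_one (norm_ex _) _).trans ?_
          have h1 : (y % b + j) / b < j + 1 := by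
            rw [Nat.div_lt_iff_lt_mul hb]
            have := Nat.mod_lt y hb
            nlinarith
          have h2 : (((y % b + j) / b : ℕ) : ℝ) ≤ R := by exact_mod_cast (by omega)
          gcongr
      _ = _ := by simp

theorem major (α : ℝ) {b : ℕ} (hb : 0 < b) {η ε : ℝ} (hη : ‖ex (α * b) - 1‖ ≤ η) {R k X : ℕ}
    (hk : 0 < k)
    (hcl : ∀ c < b, ∑ x ∈ range (X + R), |∑ j ∈ (range (R / k)).filter
      (fun j => x + j ≡ c [MOD b]), lam (x + j)| ≤ ε * (R / k : ℕ) * (X + R : ℕ)) :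
    ∑ x ∈ range X, ‖G α R x‖ ≤
      (k * (R / k : ℕ)) * ((X + R) * (b * ε + (R / k : ℕ) * η)) + X * k := by
  set R' := R / k with hR'
  have h1 : ∀ x, ‖G α R x‖ ≤ ∑ l ∈ range k, ‖G α R' (x + l * R')‖ + k := by
    intro x
    conv_lhs => rw [← Nat.div_add_mod R k]
    refine (G_add _ _ _ _).trans (add_le_add (G_mul _ _ _ _) ((G_le _ _ _).trans ?_))
    exact_mod_cast (Nat.mod_lt _ hk).le
  have h2 : ∑ y ∈ range (X + R), ‖G α R' y‖ ≤ R' * ((X + R) * (b * ε + R' * η)) := by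
    refine (sum_le_sum fun y _ => block α hb hη R' y).trans ?_
    rw [sum_add_distrib, sum_comm]
    have := sum_le_sum (s := range b) fun c hc => hcl c (mem_range.1 hc)
    simp only [sum_const, card_range, nsmul_eq_mul] at this ⊢
    push_cast at this ⊢
    linarith
  refine (sum_le_sum fun x _ => h1 x).trans ?_
  rw [sum_add_distrib, sum_comm]
  have h3 : ∑ l ∈ range k, ∑ x ∈ range X, ‖G α R' (x + l * R')‖ ≤
      ∑ _l ∈ range k, R' * ((X + R) * (b * ε + R' * η)) := by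
    refine sum_le_sum fun l hl => le_trans (shift_le (F := fun y => ‖G α R' y‖)
      (fun y => norm_nonneg _) X ?_) h2
    rw [mem_range] at hl
    exact (Nat.mul_le_mul_right _ hl.le).trans (Nat.mul_div_le _ _)
  simp only [sum_const, card_range, nsmul_eq_mul] at h3 ⊢
  linarith

theorem norm_ex_neg (θ : ℝ) : ‖ex (-θ) - 1‖ = ‖ex θ - 1‖ := by
  rw [← conj_ex, ← Complex.norm_conj (ex θ - 1), map_sub, map_one]

theorem exists_Q (h1 : S_M1) (s : ℝ) : ∃ (Q : Finset ℕ) (Q0 : ℕ), (∀ q ∈ Q, q.Prime ∧ q ≤ Q0) ∧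
    Q.card ≤ Q0 ∧ 1 ≤ Q0 ∧ s ^ 2 ≤ rs Q := by
  obtain ⟨C, hC, h⟩ := h1
  have hl : 0 < Real.log 2 := Real.log_pos (by norm_num)
  set v := Real.exp (Real.log 2 * Real.exp (s ^ 2 + C)) with hv
  have h2 : 2 ≤ v := by
    rw [hv, ← Real.log_le_iff_le_exp (by norm_num)]
    exact le_mul_of_one_le_right hl.le (Real.one_le_exp (by positivity))
  refine ⟨pr 2 v, ⌊v⌋₊, fun q hq => ?_, ?_, ?_, ?_⟩
  · simp only [pr, mem_filter, mem_Ioc] at hq
    exact ⟨hq.2, hq.1.2⟩
  · refine (card_filter_le _ _).trans ?_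
    rw [Nat.card_Ioc]; omega
  · exact Nat.le_floor (by push_cast; linarith)
  · have := (abs_le.1 (h 2 v le_rfl h2)).1
    rw [hv, Real.log_exp, mul_div_cancel_left₀ _ hl.ne', Real.log_exp] at this
    linarith

end ShortExp

open ShortExp in
theorem shortExp (h1 : S_M1) (hT : S_TK) (hC : S_Classes) : S_ShortExp := by
  intro δ hδ
  set s : ℝ := 16 / δ + 1 with hs
  have hs1 : 1 ≤ s := by rw [hs]; have : 0 ≤ 16 / δ := by positivity
                         linarith
  obtain ⟨Q, Q0, hQ, hc, hQ0, hrs⟩ := exists_Q h1 s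
  have hQ1 : (1 : ℝ) ≤ Q0 := by exact_mod_cast hQ0
  set K : ℝ := 6 * (Q0 : ℝ) ^ 3 with hK
  have hK0 : 0 < K := by positivity
  set k : ℕ := ⌈6 * K / δ⌉₊ with hk
  have hk1 : 6 * K / δ ≤ k := Nat.le_ceil _
  have hk0 : 0 < k := Nat.ceil_pos.2 (by positivity)
  choose R1 hR1 using fun b : ℕ => hC (b + 1) (δ / (6 * Q0)) (by omega) (by positivity)
  refine ⟨k * (range Q0).sup R1 + Q0 + ⌈3 * k / δ⌉₊, fun R hR α => ?_⟩
  have hR0 : (0 : ℝ) < R := by exact_mod_cast (by omega : 0 < R)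
  by_cases hmin : ∀ q ∈ Q, ∀ q' ∈ Q, q ≠ q' → K / R ≤ ‖ex (α * ((q : ℝ) - q')) - 1‖
  · refine ⟨R + ⌈2 / δ⌉₊, fun X hX => ?_⟩
    refine (minor hT α Q hQ hc (by omega) hK hQ0 hs1 hrs hmin).trans ?_
    have a1 : (R : ℝ) ≤ X := by exact_mod_cast (by omega)
    have a2 : 2 / δ ≤ X := (Nat.le_ceil _).trans (by exact_mod_cast (by omega))
    rw [div_le_iff₀ hδ] at a2
    have a3 : 4 * R * (X + R : ℝ) / s ≤ δ / 2 * R * X := by
      rw [div_le_iff₀ (by linarith)]
      have : 16 ≤ δ * s := by rw [hs, mul_add, mul_div_cancel₀ _ hδ.ne']; linarith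
      calc 4 * R * (X + R : ℝ) ≤ 4 * R * (X + X) := by gcongr
        _ = 16 * (R * X / 2) := by ring
        _ ≤ δ * s * (R * X / 2) := by gcongr
        _ = _ := by ring
    nlinarith
  · have : ∃ b < Q0, ‖ex (α * (b + 1 : ℕ)) - 1‖ ≤ K / R := by
      push Not at hmin
      obtain ⟨q, hq, q', hq', hne, hlt⟩ := hmin
      have b1 := hQ q hq
      have b2 := hQ q' hq'
      rcases lt_or_gt_of_ne hne with h | h
      · obtain ⟨b, rfl⟩ := Nat.exists_eq_add_of_lt h
        refine ⟨b, by have := b1.1.pos; omega, le_trans (le_of_eq ?_) hlt.le⟩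
        rw [← norm_ex_neg]; congr 3; push_cast; ring
      · obtain ⟨b, rfl⟩ := Nat.exists_eq_add_of_lt h
        refine ⟨b, by have := b2.1.pos; omega, le_trans (le_of_eq ?_) hlt.le⟩
        congr 3; push_cast; ring
    obtain ⟨b, hb, hη⟩ := this
    have hR' : R1 b ≤ R / k := by
      rw [Nat.le_div_iff_mul_le hk0, mul_comm]
      have : R1 b ≤ (range Q0).sup R1 := le_sup (f := R1) (mem_range.2 hb)
      exact (Nat.mul_le_mul_left _ this).trans (by omega)
    choose X1 hX1 using hR1 b (R / k) hR'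
    refine ⟨R + (range (b + 1)).sup X1, fun X hX => ?_⟩
    refine (major α (Nat.succ_pos b) hη hk0 (ε := δ / (6 * Q0)) fun c hc => hX1 c _ ?_).trans ?_
    · have : X1 c ≤ (range (b + 1)).sup X1 := le_sup (f := X1) (mem_range.2 hc)
      omega
    have a1 : (R : ℝ) ≤ X := by exact_mod_cast (by omega)
    have a2 : 3 * k / δ ≤ R := (Nat.le_ceil _).trans
      (Nat.cast_le.2 (le_trans (Nat.le_add_left _ _) hR))
    rw [div_le_iff₀ hδ] at a2 hk1
    have a3 : (k : ℝ) * (R / k : ℕ) ≤ R := by exact_mod_cast Nat.mul_div_le _ _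
    have a4 : ((b + 1 : ℕ) : ℝ) * (δ / (6 * Q0)) ≤ δ / 6 := by
      have : ((b + 1 : ℕ) : ℝ) ≤ Q0 := by exact_mod_cast hb
      calc _ ≤ Q0 * (δ / (6 * Q0)) := by gcongr
        _ = _ := by field_simp
    have hk' : (0 : ℝ) < k := by exact_mod_cast hk0
    have a5 : ((R / k : ℕ) : ℝ) * (K / R) ≤ δ / 6 := by
      rw [← mul_div_assoc, div_le_iff₀ hR0]
      refine le_of_mul_le_mul_left ?_ hk'
      calc (k : ℝ) * ((R / k : ℕ) * K) = k * (R / k : ℕ) * K := by ring
        _ ≤ R * (k * δ / 6) := by gcongr; linarith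
        _ = _ := by ring
    calc _ ≤ R * ((X + X) * (δ / 6 + δ / 6)) + X * (R * δ / 3) := by
          gcongr
          linarith
      _ = _ := by ring

end Pool.Agent.P.MP_a14ce1_nt.Ch
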