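import Pool.Agent.P.MP_a14ce1_nt.Ch.Defs

/-! Short exponential sums of the Liouville function: the minor arc case. -/

open Finset

namespace Pool.Agent.P.MP_a14ce1_nt.Ch.ShortExp

theorem ex_nat_mul (β : ℝ) (m : ℕ) : ex (β * m) = ex β ^ m := by
  induction m with
  | zero => simp [ex_zero]
  | succ m ih => rw [pow_succ, ← ih, ← ex_add]; congr 1; push_cast; ring

theorem abel_id (z : ℂ) (w : ℕ → ℂ) (N : ℕ) :
    (z - 1) * ∑ m ∈ range N, z ^ m * w m =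
      z ^ N * w N - w 0 - ∑ m ∈ range N, z ^ (m + 1) * (w (m + 1) - w m) := by
  induction N with
  | zero => simp
  | succ N ih => rw [sum_range_succ, sum_range_succ, mul_add, ih]; ring

theorem abel_bound {z : ℂ} (hz : ‖z‖ = 1) {w : ℕ → ℂ} {B D : ℝ} (hB : ∀ m, ‖w m‖ ≤ B)
    (hD : ∀ m, ‖w (m + 1) - w m‖ ≤ D) (N : ℕ) :
    ‖z - 1‖ * ‖∑ m ∈ range N, z ^ m * w m‖ ≤ 2 * B + N * D := by
  rw [← norm_mul, abel_id]
  have h1 : ‖z ^ N * w N‖ ≤ B := by rw [norm_mul, norm_pow, hz]; simpa using hB N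
  have h2 : ‖∑ m ∈ range N, z ^ (m + 1) * (w (m + 1) - w m)‖ ≤ N * D := by
    refine (norm_sum_le _ _).trans ?_
    calc _ ≤ ∑ _m ∈ range N, D := sum_le_sum fun m _ => by
          rw [norm_mul, norm_pow, hz]; simpa using hD m
      _ = N * D := by simp
  have h3 := norm_sub_le (z ^ N * w N - w 0) (∑ m ∈ range N, z ^ (m + 1) * (w (m + 1) - w m))
  have h4 := norm_sub_le (z ^ N * w N) (w 0)
  have h5 := hB 0
  linarith

theorem lip_iter {Θ : ℕ → ℂ} (h : ∀ n, ‖Θ (n + 1) - Θ n‖ ≤ 2) (n k : ℕ) :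
    ‖Θ (n + k) - Θ n‖ ≤ 2 * k := by
  induction k with
  | zero => simp
  | succ k ih =>
    have h1 := h (n + k)
    have h2 := norm_add_le (Θ (n + k + 1) - Θ (n + k)) (Θ (n + k) - Θ n)
    rw [sub_add_sub_cancel] at h2
    rw [← add_assoc]; push_cast; linarith

theorem sum_Icc_eq (f : ℕ → ℂ) (N : ℕ) : ∑ m ∈ Icc 1 N, f m = ∑ m ∈ range N, f (m + 1) := by
  rw [Finset.range_eq_Ico, Finset.sum_Ico_add' f 0 N 1]
  rfl

/-- off-diagonal terms -/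
theorem offdiag {Θ : ℕ → ℂ} {R : ℝ} (hR : ∀ n, ‖Θ n‖ ≤ R) (hL : ∀ n, ‖Θ (n + 1) - Θ n‖ ≤ 2)
    (α : ℝ) {q q' Q0 N : ℕ} (hq : q ≤ Q0) (hq' : q' ≤ Q0) :
    ‖ex (α * ((q : ℝ) - q')) - 1‖ *
      ‖∑ m ∈ Icc 1 N, (ex (α * (q * m : ℕ)) * Θ (q * m)) *
        (starRingEnd ℂ) (ex (α * (q' * m : ℕ)) * Θ (q' * m))‖ ≤ 2 * R ^ 2 + N * (4 * Q0 * R) := by
  have hR0 : 0 ≤ R := (norm_nonneg _).trans (hR 0)
  set z := ex (α * ((q : ℝ) - q')) with hz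
  set w : ℕ → ℂ := fun m => Θ (q * (m + 1)) * (starRingEnd ℂ) (Θ (q' * (m + 1))) with hw
  have e : ∑ m ∈ Icc 1 N, (ex (α * (q * m : ℕ)) * Θ (q * m)) *
        (starRingEnd ℂ) (ex (α * (q' * m : ℕ)) * Θ (q' * m)) =
      z * ∑ m ∈ range N, z ^ m * w m := by
    rw [sum_Icc_eq, mul_sum]
    refine sum_congr rfl fun m _ => ?_
    have : ex (α * (q * (m + 1) : ℕ)) * ex (-(α * (q' * (m + 1) : ℕ))) = z * z ^ m := by
      rw [← pow_succ', hz, ← ex_nat_mul, ← ex_add]; congr 1; push_cast; ring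
    rw [map_mul, conj_ex]
    simp only [hw]
    linear_combination (Θ (q * (m + 1)) * (starRingEnd ℂ) (Θ (q' * (m + 1)))) * this
  rw [e, norm_mul, norm_ex, one_mul]
  refine abel_bound (norm_ex _) (fun m => ?_) (fun m => ?_) N
  · simp only [hw]
    rw [norm_mul, Complex.norm_conj, sq]
    exact mul_le_mul (hR _) (hR _) (norm_nonneg _) hR0
  · simp only [hw]
    have a1 := lip_iter hL (q * (m + 1)) q
    have a2 := lip_iter hL (q' * (m + 1)) q'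
    rw [← Nat.mul_succ] at a1 a2
    have e2 : Θ (q * (m + 1 + 1)) * (starRingEnd ℂ) (Θ (q' * (m + 1 + 1))) -
        Θ (q * (m + 1)) * (starRingEnd ℂ) (Θ (q' * (m + 1))) =
        (Θ (q * (m + 1 + 1)) - Θ (q * (m + 1))) * (starRingEnd ℂ) (Θ (q' * (m + 1 + 1))) +
        Θ (q * (m + 1)) * (starRingEnd ℂ) (Θ (q' * (m + 1 + 1)) - Θ (q' * (m + 1))) := by
      rw [map_sub]; ring
    rw [e2]
    refine (norm_add_le _ _).trans ?_
    rw [norm_mul, norm_mul, Complex.norm_conj, Complex.norm_conj]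
    have b1 : (q : ℝ) ≤ Q0 := by exact_mod_cast hq
    have b2 : (q' : ℝ) ≤ Q0 := by exact_mod_cast hq'
    have c1 : ‖Θ (q * (m + 1 + 1)) - Θ (q * (m + 1))‖ * ‖Θ (q' * (m + 1 + 1))‖ ≤ 2 * Q0 * R :=
      mul_le_mul (a1.trans (by linarith)) (hR _) (norm_nonneg _) (by positivity)
    have c2 : ‖Θ (q * (m + 1))‖ * ‖Θ (q' * (m + 1 + 1)) - Θ (q' * (m + 1))‖ ≤ R * (2 * Q0) :=
      mul_le_mul (hR _) (a2.trans (by linarith)) (norm_nonneg _) hR0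
    linarith

/-- diagonal terms -/
theorem diag {Θ : ℕ → ℂ} {R : ℝ} (hR : ∀ n, ‖Θ n‖ ≤ R) {N : ℕ} (h0 : ∀ n, N < n → Θ n = 0)
    {q : ℕ} (hq : 0 < q) : ∑ m ∈ Icc 1 N, ‖Θ (q * m)‖ ^ 2 ≤ R ^ 2 * N * (1 / q) := by
  have hR0 : 0 ≤ R := (norm_nonneg _).trans (hR 0)
  calc ∑ m ∈ Icc 1 N, ‖Θ (q * m)‖ ^ 2 = ∑ m ∈ Icc 1 (N / q), ‖Θ (q * m)‖ ^ 2 := by
        symm
        refine sum_subset (Icc_subset_Icc_right (Nat.div_le_self _ _)) fun m hm hm' => ?_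
        rw [h0]
        · simp
        · rw [mem_Icc] at hm hm'
          have : N / q < m := by omega
          rwa [Nat.div_lt_iff_lt_mul hq, mul_comm] at this
    _ ≤ ∑ _m ∈ Icc 1 (N / q), R ^ 2 :=
        sum_le_sum fun m _ => pow_le_pow_left₀ (norm_nonneg _) (hR _) 2
    _ = (N / q : ℕ) * R ^ 2 := by simp
    _ ≤ (N / q : ℝ) * R ^ 2 := by gcongr; exact Nat.cast_div_le
    _ = _ := by ring

theorem sum_om (Q : Finset ℕ) (hQ : ∀ q ∈ Q, 0 < q) {a : ℕ → ℂ} {N : ℕ}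
    (h0 : ∀ n, N < n → a n = 0) :
    ∑ n ∈ Icc 1 N, a n * (om Q n : ℂ) = ∑ m ∈ Icc 1 N, ∑ q ∈ Q, a (q * m) := by
  rw [sum_comm]
  have e : ∀ n, a n * (om Q n : ℂ) = ∑ q ∈ Q, if q ∣ n then a n else 0 := by
    intro n
    rw [← sum_filter, sum_const, om]
    simp [mul_comm]
  simp only [e]
  rw [sum_comm]
  refine sum_congr rfl fun q hq => ?_
  have hq0 := hQ q hq
  rw [← sum_filter]
  symm
  rw [← sum_filter_add_sum_filter_not (Icc 1 N) (fun m => q * m ≤ N), sum_eq_zero (s := filter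
    (fun m => ¬ q * m ≤ N) _) (fun m hm => h0 _ (by simpa using (mem_filter.1 hm).2)), add_zero]
  refine sum_bij (fun m _ => q * m) ?_ ?_ ?_ (fun _ _ => rfl)
  · intro m hm
    simp only [mem_filter, mem_Icc] at hm ⊢
    exact ⟨⟨Nat.mul_pos hq0 hm.1.1, hm.2⟩, Dvd.intro _ rfl⟩
  · intro m _ m' _ h
    exact Nat.eq_of_mul_eq_mul_left hq0 h
  · intro n hn
    simp only [mem_filter, mem_Icc] at hn
    obtain ⟨⟨h1, h2⟩, m, rfl⟩ := hn
    have hm : 0 < m := Nat.pos_of_mul_pos_left h1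
    refine ⟨m, ?_, rfl⟩
    simp only [mem_filter, mem_Icc]
    exact ⟨⟨hm, le_trans (Nat.le_mul_of_pos_left _ hq0) h2⟩, h2⟩

theorem sq_sum_le (f : ℕ → ℝ) (N : ℕ) :
    (∑ n ∈ Icc 1 N, f n) ^ 2 ≤ N * ∑ n ∈ Icc 1 N, f n ^ 2 := by
  have := sq_sum_le_card_mul_sum_sq (s := Icc 1 N) (f := f)
  simpa using this

/-- the bilinear estimate -/
theorem bilinear {Θ : ℕ → ℂ} {R K : ℝ} {N Q0 : ℕ} (hR : ∀ n, ‖Θ n‖ ≤ R)
    (hL : ∀ n, ‖Θ (n + 1) - Θ n‖ ≤ 2) (h0 : ∀ n, N < n → Θ n = 0) (hRN : R ≤ N) (hR0 : 0 < R)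
    (α : ℝ) (Q : Finset ℕ) (hQ : ∀ q ∈ Q, q.Prime ∧ q ≤ Q0) (hc : Q.card ≤ Q0)
    (hK : K = 6 * (Q0 : ℝ) ^ 3) (hQ0 : 1 ≤ Q0)
    (hmin : ∀ q ∈ Q, ∀ q' ∈ Q, q ≠ q' → K / R ≤ ‖ex (α * ((q : ℝ) - q')) - 1‖) :
    ∑ m ∈ Icc 1 N, ‖∑ q ∈ Q, ex (α * (q * m : ℕ)) * Θ (q * m)‖ ^ 2 ≤ R ^ 2 * N * (rs Q + 1) := by
  classical
  have hQ1 : (1 : ℝ) ≤ Q0 := by exact_mod_cast hQ0
  have hKpos : 0 < K := by rw [hK]; positivity
  set u : ℕ → ℕ → ℂ := fun q m => ex (α * (q * m : ℕ)) * Θ (q * m) with hu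
  have e1 : ((∑ m ∈ Icc 1 N, ‖∑ q ∈ Q, u q m‖ ^ 2 : ℝ) : ℂ) =
      ∑ q ∈ Q, ∑ q' ∈ Q, ∑ m ∈ Icc 1 N, u q m * (starRingEnd ℂ) (u q' m) := by
    push_cast
    simp only [← Complex.mul_conj', map_sum, sum_mul_sum]
    rw [sum_comm]
    refine sum_congr rfl fun q _ => sum_comm
  have hterm : ∀ q ∈ Q, ∀ q' ∈ Q, ‖∑ m ∈ Icc 1 N, u q m * (starRingEnd ℂ) (u q' m)‖ ≤
      (if q = q' then R ^ 2 * N * (1 / q) else 0) + R ^ 2 * N / (Q0 : ℝ) ^ 2 := by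
    intro q hq q' hq'
    split_ifs with h
    · subst h
      have := diag hR h0 (hQ q hq).1.pos
      refine le_trans ?_ (le_add_of_nonneg_right (by positivity))
      refine le_trans ((norm_sum_le _ _).trans (le_of_eq ?_)) this
      refine sum_congr rfl fun m _ => ?_
      simp only [hu, norm_mul, Complex.norm_conj, norm_ex]; ring
    · have h1 := offdiag hR hL α (N := N) (hQ q hq).2 (hQ q' hq').2
      have h2 := hmin q hq q' hq' h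
      set S := ‖∑ m ∈ Icc 1 N, u q m * (starRingEnd ℂ) (u q' m)‖ with hS
      have h3 : K / R * S ≤ 2 * R ^ 2 + N * (4 * Q0 * R) :=
        le_trans (mul_le_mul_of_nonneg_right h2 (norm_nonneg _)) h1
      rw [zero_add, le_div_iff₀ (by positivity)]
      rw [div_mul_eq_mul_div, div_le_iff₀ hR0, hK] at h3
      have h4 : 2 * R ^ 2 ≤ 2 * Q0 * R * N := by
        have : R ≤ Q0 * N := by nlinarith
        nlinarith
      have h5 : (Q0 : ℝ) * (6 * (S * (Q0 : ℝ) ^ 2)) ≤ Q0 * (6 * (R ^ 2 * N)) := by nlinarith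
      have h6 := le_of_mul_le_mul_left h5 (by linarith)
      linarith
  have e2 : ∑ m ∈ Icc 1 N, ‖∑ q ∈ Q, u q m‖ ^ 2 ≤
      ∑ q ∈ Q, ∑ q' ∈ Q, ((if q = q' then R ^ 2 * N * (1 / q) else 0) +
        R ^ 2 * N / (Q0 : ℝ) ^ 2) := by
    refine (le_abs_self _).trans ?_
    rw [← Real.norm_eq_abs, ← Complex.norm_real, e1]
    refine (norm_sum_le _ _).trans (sum_le_sum fun q hq => (norm_sum_le _ _).trans
      (sum_le_sum fun q' hq' => hterm q hq q' hq'))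
  refine e2.trans ?_
  simp only [sum_add_distrib, sum_ite_eq, sum_const, nsmul_eq_mul]
  rw [sum_congr rfl (fun q hq => if_pos hq), ← mul_sum]
  have hc' : (Q.card : ℝ) ≤ Q0 := by exact_mod_cast hc
  have : (Q.card : ℝ) * (Q.card * (R ^ 2 * N / (Q0 : ℝ) ^ 2)) ≤ R ^ 2 * N := by
    calc _ ≤ (Q0 : ℝ) * (Q0 * (R ^ 2 * N / (Q0 : ℝ) ^ 2)) := by gcongr
      _ = _ := by field_simp
  unfold rs
  linarith

/-- the minor arc estimate in dual form -/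
theorem minor_dual (hT : S_TK) {Θ : ℕ → ℂ} {R K : ℝ} {N Q0 : ℕ} (hR : ∀ n, ‖Θ n‖ ≤ R)
    (hL : ∀ n, ‖Θ (n + 1) - Θ n‖ ≤ 2) (h0 : ∀ n, N < n → Θ n = 0) (hRN : R ≤ N) (hR0 : 0 < R)
    (α : ℝ) (Q : Finset ℕ) (hQ : ∀ q ∈ Q, q.Prime ∧ q ≤ Q0) (hc : Q.card ≤ Q0) (hQN : Q0 ≤ N)
    (hK : K = 6 * (Q0 : ℝ) ^ 3) (hQ0 : 1 ≤ Q0) {s : ℝ} (hs : 1 ≤ s) (hrs : s ^ 2 ≤ rs Q)
    (hmin : ∀ q ∈ Q, ∀ q' ∈ Q, q ≠ q' → K / R ≤ ‖ex (α * ((q : ℝ) - q')) - 1‖) :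
    ‖∑ n ∈ Icc 1 N, (lam n : ℂ) * ex (α * n) * Θ n‖ ≤ 4 * R * N / s := by
  have hL1 : 1 ≤ rs Q := le_trans (by nlinarith) hrs
  set L := rs Q with hLdef
  set a : ℕ → ℂ := fun n => (lam n : ℂ) * ex (α * n) * Θ n with ha
  have hna : ∀ n, ‖a n‖ ≤ R := fun n => by
    simp only [ha, norm_mul, Complex.norm_real, Real.norm_eq_abs, abs_lam, norm_ex, one_mul]
    exact hR n
  have e : ∑ n ∈ Icc 1 N, a n = ∑ n ∈ Icc 1 N, a n * ((1 - om Q n / L : ℝ) : ℂ) +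
      ((1 / L : ℝ) : ℂ) * ∑ n ∈ Icc 1 N, a n * (om Q n : ℂ) := by
    rw [mul_sum, ← sum_add_distrib]
    refine sum_congr rfl fun n _ => ?_
    push_cast; ring
  have hN0 : (0 : ℝ) ≤ N := Nat.cast_nonneg _
  have h1 : ‖∑ n ∈ Icc 1 N, a n * ((1 - om Q n / L : ℝ) : ℂ)‖ ≤ 2 * R * N / s := by
    have t1 := hT Q N (fun p hp => (hQ p hp).1) (hc.trans hQN) (by linarith)
    have t2 := sq_sum_le (fun n => |1 - om Q n / L|) N
    simp only [sq_abs] at t2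
    have t3 : ∑ n ∈ Icc 1 N, |1 - om Q n / L| ≤ 2 * N / s := by
      refine le_of_sq_le_sq ?_ (by positivity)
      refine t2.trans ((mul_le_mul_of_nonneg_left t1 hN0).trans ?_)
      rw [div_pow]
      calc (N : ℝ) * (3 * N / L) ≤ N * (4 * N / s ^ 2) := by gcongr; norm_num
        _ = _ := by ring
    refine (norm_sum_le _ _).trans ?_
    calc _ ≤ ∑ n ∈ Icc 1 N, R * |1 - om Q n / L| := sum_le_sum fun n _ => by
          rw [norm_mul, Complex.norm_real, Real.norm_eq_abs]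
          exact mul_le_mul_of_nonneg_right (hna n) (abs_nonneg _)
      _ ≤ R * (2 * N / s) := by rw [← mul_sum]; gcongr
      _ = _ := by ring
  have h2 : ‖∑ n ∈ Icc 1 N, a n * (om Q n : ℂ)‖ ≤ L * (2 * R * N / s) := by
    rw [sum_om Q (fun q hq => (hQ q hq).1.pos) (fun n hn => by simp [ha, h0 n hn])]
    have t1 := bilinear hR hL h0 hRN hR0 α Q hQ hc hK hQ0 hmin
    have t2 := sq_sum_le (fun m => ‖∑ q ∈ Q, ex (α * (q * m : ℕ)) * Θ (q * m)‖) N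
    have t3 : ∑ m ∈ Icc 1 N, ‖∑ q ∈ Q, ex (α * (q * m : ℕ)) * Θ (q * m)‖ ≤
        L * (2 * R * N / s) := by
      refine le_of_sq_le_sq ?_ (by positivity)
      refine t2.trans ((mul_le_mul_of_nonneg_left t1 hN0).trans ?_)
      have : s ^ 2 * (L + 1) ≤ 4 * L ^ 2 := by nlinarith
      rw [mul_pow, div_pow, ← mul_div_assoc, le_div_iff₀ (by positivity)]
      calc (N : ℝ) * (R ^ 2 * N * (L + 1)) * s ^ 2 = (R * N) ^ 2 * (s ^ 2 * (L + 1)) := by ring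
        _ ≤ (R * N) ^ 2 * (4 * L ^ 2) := by gcongr
        _ = _ := by ring
    refine le_trans ((norm_sum_le _ _).trans (le_of_eq ?_)) t3
    refine sum_congr rfl fun m hm => ?_
    have hm0 : m ≠ 0 := by rw [mem_Icc] at hm; omega
    have : ∑ q ∈ Q, a (q * m) = -(lam m : ℂ) * ∑ q ∈ Q, ex (α * (q * m : ℕ)) * Θ (q * m) := by
      rw [mul_sum]
      refine sum_congr rfl fun q hq => ?_
      simp only [ha]
      rw [lam_mul (hQ q hq).1.ne_zero hm0, lam_prime (hQ q hq).1]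
      push_cast; ring
    rw [this, norm_mul, norm_neg, Complex.norm_real, Real.norm_eq_abs, abs_lam, one_mul]
  rw [e]
  refine (norm_add_le _ _).trans ?_
  rw [norm_mul, Complex.norm_real, Real.norm_eq_abs, abs_of_pos (by positivity)]
  have h3 : 1 / L * ‖∑ n ∈ Icc 1 N, a n * (om Q n : ℂ)‖ ≤ 2 * R * N / s := by
    calc _ ≤ 1 / L * (L * (2 * R * N / s)) := by gcongr
      _ = _ := by field_simp
  have : 4 * R * N / s = 2 * R * N / s + 2 * R * N / s := by ring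
  linarith

end Pool.Agent.P.MP_a14ce1_nt.Ch.ShortExp
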