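import Pool.Agent.P.MP_a14ce1_nt.Ch.Defs

/-!
Cauchy averages of Dirichlet polynomials: regularity, the exponential sum expansion,
separation of variables.
-/

open Finset MeasureTheory

namespace Pool.Agent.P.MP_a14ce1_nt.Ch

namespace Sm

/-- a Dirichlet polynomial -/
noncomputable def dp (S : Finset ℕ) (a : ℕ → ℂ) (s : ℝ) : ℂ := ∑ n ∈ S, a n * nit s n

theorem continuous_dp (S : Finset ℕ) (a : ℕ → ℂ) : Continuous (dp S a) := by
  unfold dp
  exact continuous_finsetSum _ fun n _ => continuous_const.mul (continuous_nit _)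

theorem norm_dp_le (S : Finset ℕ) (a : ℕ → ℂ) (s : ℝ) : ‖dp S a s‖ ≤ ∑ n ∈ S, ‖a n‖ := by
  unfold dp
  refine (norm_sum_le _ _).trans (le_of_eq ?_)
  refine sum_congr rfl fun n _ => ?_
  rw [norm_mul, norm_nit, mul_one]

theorem sm_eq (S : Finset ℕ) (a : ℕ → ℂ) (t : ℝ) :
    sm S a t = ∫ u : ℝ, cw 1 u * ‖dp S a (t + u)‖ ^ 2 := rfl

theorem continuous_dp_shift (S : Finset ℕ) (a : ℕ → ℂ) (t : ℝ) :
    Continuous (fun u : ℝ => dp S a (t + u)) :=
  (continuous_dp S a).comp (by fun_prop)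

theorem abs_sq_dp_le (S : Finset ℕ) (a : ℕ → ℂ) (s : ℝ) :
    |‖dp S a s‖ ^ 2| ≤ (∑ n ∈ S, ‖a n‖) ^ 2 := by
  rw [abs_of_nonneg (by positivity)]
  exact pow_le_pow_left₀ (norm_nonneg _) (norm_dp_le S a s) 2

theorem integrable_sm (S : Finset ℕ) (a : ℕ → ℂ) (t : ℝ) :
    Integrable (fun u : ℝ => cw 1 u * ‖dp S a (t + u)‖ ^ 2) :=
  integrable_cw_mul one_pos ((continuous_dp_shift S a t).norm.pow 2)
    (fun u => abs_sq_dp_le S a (t + u))

theorem integrable_cw_ex {T : ℝ} (hT : 0 < T) (θ : ℝ) :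
    Integrable (fun t : ℝ => (cw T t : ℂ) * ex (-(t * θ))) :=
  (integrable_cw hT).ofReal.mul_bdd (c := 1)
    (continuous_ex.comp (by fun_prop)).aestronglyMeasurable
    (Filter.Eventually.of_forall fun t => (norm_ex _).le)

/-- integrating a finite exponential sum against the Cauchy weight -/
theorem integral_expsum (hC : S_Cauchy) {ι : Type*} (s : Finset ι) (c : ι → ι → ℂ) (θ : ι → ℝ)
    {T : ℝ} (hT : 0 < T) :
    ∫ t : ℝ, (cw T t : ℂ) * ∑ i ∈ s, ∑ j ∈ s, c i j * ex (-(t * (θ i - θ j))) =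
      ∑ i ∈ s, ∑ j ∈ s, c i j *
        ((Real.pi * T * Real.exp (-(T * |θ i - θ j|)) : ℝ) : ℂ) := by
  have h1 : ∀ t : ℝ, (cw T t : ℂ) * ∑ i ∈ s, ∑ j ∈ s, c i j * ex (-(t * (θ i - θ j))) =
      ∑ i ∈ s, ∑ j ∈ s, c i j * ((cw T t : ℂ) * ex (-(t * (θ i - θ j)))) := by
    intro t
    rw [mul_sum]
    refine sum_congr rfl fun i _ => ?_
    rw [mul_sum]
    refine sum_congr rfl fun j _ => ?_
    ring
  simp_rw [h1]
  rw [integral_finsetSum _ (fun i _ => integrable_finsetSum _ fun j _ =>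
    (integrable_cw_ex hT _).const_mul _)]
  refine sum_congr rfl fun i _ => ?_
  rw [integral_finsetSum _ (fun j _ => (integrable_cw_ex hT _).const_mul _)]
  refine sum_congr rfl fun j _ => ?_
  rw [integral_const_mul, hC T _ hT]

/-- the real form, with a bound on the coefficients -/
theorem integral_expsum_le (hC : S_Cauchy) {ι : Type*} (s : Finset ι) (c : ι → ι → ℂ) (θ : ι → ℝ)
    (β : ι → ℝ) (K : ℝ) (F : ℝ → ℝ)
    (hF : ∀ t, (F t : ℂ) = ∑ i ∈ s, ∑ j ∈ s, c i j * ex (-(t * (θ i - θ j))))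
    (hc : ∀ i ∈ s, ∀ j ∈ s, ‖c i j‖ ≤ K * (β i * β j)) {T : ℝ} (hT : 0 < T) :
    ∫ t : ℝ, cw T t * F t ≤
      K * Real.pi * (T * ∑ i ∈ s, ∑ j ∈ s, β i * β j * Real.exp (-(T * |θ i - θ j|))) := by
  have h1 : ((∫ t : ℝ, cw T t * F t : ℝ) : ℂ) = ∑ i ∈ s, ∑ j ∈ s, c i j *
        ((Real.pi * T * Real.exp (-(T * |θ i - θ j|)) : ℝ) : ℂ) := by
    rw [← integral_expsum hC s c θ hT, ← integral_complex_ofReal]
    refine integral_congr_ae (Filter.Eventually.of_forall fun t => ?_)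
    simp only
    rw [← hF t]
    push_cast
    rfl
  calc ∫ t : ℝ, cw T t * F t ≤ ‖((∫ t : ℝ, cw T t * F t : ℝ) : ℂ)‖ := by
        rw [Complex.norm_real]; exact le_abs_self _
    _ ≤ ∑ i ∈ s, ∑ j ∈ s, K * (β i * β j) *
          (Real.pi * T * Real.exp (-(T * |θ i - θ j|))) := by
        rw [h1]
        refine (norm_sum_le _ _).trans (sum_le_sum fun i hi => ?_)
        refine (norm_sum_le _ _).trans (sum_le_sum fun j hj => ?_)
        rw [norm_mul, Complex.norm_real, Real.norm_eq_abs, abs_of_nonneg (by positivity)]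
        exact mul_le_mul_of_nonneg_right (hc i hi j hj) (by positivity)
    _ = _ := by
        rw [mul_sum, mul_sum]
        refine sum_congr rfl fun i _ => ?_
        rw [mul_sum, mul_sum]
        refine sum_congr rfl fun j _ => ?_
        ring

/-- the smoothing kernel -/
noncomputable def kk (n n' : ℕ) : ℝ := Real.pi * Real.exp (-|Real.log n - Real.log n'|)

theorem kk_nonneg (n n' : ℕ) : 0 ≤ kk n n' := by unfold kk; positivity

theorem kk_le (n n' : ℕ) : kk n n' ≤ Real.pi := by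
  unfold kk
  have h : Real.exp (-|Real.log n - Real.log n'|) ≤ 1 :=
    Real.exp_le_one_iff.2 (by simp)
  nlinarith [Real.pi_pos]

theorem normSq_dp (S : Finset ℕ) (a : ℕ → ℂ) (t u : ℝ) :
    ((‖dp S a (t + u)‖ ^ 2 : ℝ) : ℂ) = ∑ n ∈ S, ∑ n' ∈ S,
      (a n * (starRingEnd ℂ) (a n') * ex (-(t * (Real.log n - Real.log n')))) *
        ex (-(u * (Real.log n - Real.log n'))) := by
  rw [← Complex.normSq_eq_norm_sq, ← Complex.mul_conj]
  unfold dp
  rw [map_sum, sum_mul_sum]
  refine sum_congr rfl fun n _ => sum_congr rfl fun n' _ => ?_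
  rw [map_mul]
  unfold nit
  rw [conj_ex]
  have h : ex (-((t + u) * Real.log n)) * ex (-(-((t + u) * Real.log n'))) =
      ex (-(t * (Real.log n - Real.log n'))) * ex (-(u * (Real.log n - Real.log n'))) := by
    rw [← ex_add, ← ex_add]; congr 1; ring
  linear_combination (a n * (starRingEnd ℂ) (a n')) * h

/-- the Cauchy average is a finite exponential sum -/
theorem sm_expand (hC : S_Cauchy) (S : Finset ℕ) (a : ℕ → ℂ) (t : ℝ) :
    (sm S a t : ℂ) = ∑ n ∈ S, ∑ n' ∈ S,
      (a n * (starRingEnd ℂ) (a n') * (kk n n' : ℂ)) * ex (-(t * (Real.log n - Real.log n'))) := by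
  rw [sm_eq, ← integral_complex_ofReal]
  have h := integral_expsum hC S
    (fun n n' => a n * (starRingEnd ℂ) (a n') * ex (-(t * (Real.log n - Real.log n'))))
    (fun n => Real.log n) one_pos
  have h2 : ∫ u : ℝ, ((cw 1 u * ‖dp S a (t + u)‖ ^ 2 : ℝ) : ℂ) =
      ∫ u : ℝ, (cw 1 u : ℂ) * ∑ n ∈ S, ∑ n' ∈ S,
      (a n * (starRingEnd ℂ) (a n') * ex (-(t * (Real.log n - Real.log n')))) *
        ex (-(u * (Real.log n - Real.log n'))) := by
    refine integral_congr_ae (Filter.Eventually.of_forall fun u => ?_)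
    simp only
    rw [← normSq_dp]
    push_cast
    rfl
  erw [h2, h]
  refine sum_congr rfl fun n _ => sum_congr rfl fun n' _ => ?_
  unfold kk
  simp only [mul_one, one_mul]
  ring

/-- Cauchy-Schwarz against the Cauchy weight -/
theorem cs_cw {f g : ℝ → ℝ} (hf : Continuous f) (hg : Continuous g) {A B : ℝ}
    (hA : ∀ u, |f u| ≤ A) (hB : ∀ u, |g u| ≤ B) :
    (∫ u, cw 1 u * (f u * g u)) ^ 2 ≤ (∫ u, cw 1 u * f u ^ 2) * ∫ u, cw 1 u * g u ^ 2 := by
  have i1 : Integrable (fun u => cw 1 u * f u ^ 2) :=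
    integrable_cw_mul one_pos (hf.pow 2) (B := A ^ 2) (fun u => by
      rw [abs_pow]; exact pow_le_pow_left₀ (abs_nonneg _) (hA u) 2)
  have i2 : Integrable (fun u => cw 1 u * g u ^ 2) :=
    integrable_cw_mul one_pos (hg.pow 2) (B := B ^ 2) (fun u => by
      rw [abs_pow]; exact pow_le_pow_left₀ (abs_nonneg _) (hB u) 2)
  have i3 : Integrable (fun u => cw 1 u * (f u * g u)) :=
    integrable_cw_mul one_pos (hf.mul hg) (B := A * B) (fun u => by
      rw [abs_mul]
      exact mul_le_mul (hA u) (hB u) (abs_nonneg _) ((abs_nonneg _).trans (hA u)))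
  have key : ∀ x : ℝ, 0 ≤ (∫ u, cw 1 u * f u ^ 2) * (x * x) +
      (2 * ∫ u, cw 1 u * (f u * g u)) * x + ∫ u, cw 1 u * g u ^ 2 := by
    intro x
    have e : (∫ u, cw 1 u * f u ^ 2) * (x * x) +
        (2 * ∫ u, cw 1 u * (f u * g u)) * x + ∫ u, cw 1 u * g u ^ 2 =
        ∫ u, cw 1 u * (x * f u + g u) ^ 2 := by
      have e1 : ∀ u, cw 1 u * (x * f u + g u) ^ 2 =
          (x * x) * (cw 1 u * f u ^ 2) + (2 * x) * (cw 1 u * (f u * g u)) + cw 1 u * g u ^ 2 := by
        intro u; ring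
      simp_rw [e1]
      have i4 : Integrable (fun u => (x * x) * (cw 1 u * f u ^ 2) +
          (2 * x) * (cw 1 u * (f u * g u))) := (i1.const_mul _).add (i3.const_mul _)
      rw [integral_add i4 i2,
        integral_add (i1.const_mul _) (i3.const_mul _), integral_const_mul, integral_const_mul]
      ring
    rw [e]
    exact integral_nonneg fun u => mul_nonneg (cw_pos _ _).le (sq_nonneg _)
  have h := discrim_le_zero key
  unfold discrim at h
  nlinarith

end Sm

open Sm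

theorem smReg : S_SmReg := by
  intro S a
  refine ⟨?_, fun t => ⟨?_, ?_⟩⟩
  · change Continuous fun t => ∫ u : ℝ, cw 1 u * ‖dp S a (t + u)‖ ^ 2
    refine continuous_of_dominated (bound := fun u => cw 1 u * (∑ n ∈ S, ‖a n‖) ^ 2)
      (fun t => (integrable_sm S a t).aestronglyMeasurable) (fun t => ?_)
      ((integrable_cw one_pos).mul_const _) ?_
    · refine Filter.Eventually.of_forall fun u => ?_
      rw [Real.norm_eq_abs, abs_mul, abs_of_pos (cw_pos _ _)]
      exact mul_le_mul_of_nonneg_left (abs_sq_dp_le S a _) (cw_pos _ _).le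
    · refine Filter.Eventually.of_forall fun u => ?_
      exact continuous_const.mul (((continuous_dp S a).comp (by fun_prop)).norm.pow 2)
  · rw [sm_eq]
    exact integral_nonneg fun u => mul_nonneg (cw_pos _ _).le (sq_nonneg _)
  · rw [sm_eq]
    calc ∫ u : ℝ, cw 1 u * ‖dp S a (t + u)‖ ^ 2 ≤ ∫ u : ℝ, cw 1 u * (∑ n ∈ S, ‖a n‖) ^ 2 := by
          refine integral_mono (integrable_sm S a t) ((integrable_cw one_pos).mul_const _) ?_
          intro u
          exact mul_le_mul_of_nonneg_left ((le_abs_self _).trans (abs_sq_dp_le S a _))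
            (cw_pos _ _).le
      _ = _ := by rw [integral_mul_const, integral_cw one_pos, mul_one]

theorem separate (hF : S_Fourier) : S_Separate := by
  obtain ⟨Θ, C, hC0, hΘc, hΘ, hinv, -⟩ := hF psi contDiff_psi compact_psi
  refine ⟨C ^ 2, by positivity, fun P M a b x t hP hM => ?_⟩
  have hΘi : Integrable Θ :=
    ((integrable_cw one_pos).const_mul C).mono' hΘc.aestronglyMeasurable
      (Filter.Eventually.of_forall hΘ)
  have hint : ∀ v : ℝ, Integrable (fun u : ℝ => Θ u * ex (-(u * v))) := fun v =>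
    hΘi.mul_bdd (c := 1) (continuous_ex.comp (by fun_prop)).aestronglyMeasurable
      (Filter.Eventually.of_forall fun u => (norm_ex _).le)
  have hsum : ∑ p ∈ P, ∑ m ∈ M, a p * b m * ((psi (Real.log ((p * m : ℕ) : ℝ) - x) : ℝ) : ℂ) *
      nit t ((p * m : ℕ) : ℝ) =
      ∫ u : ℝ, Θ u * ex (u * x) * (dp P a (t + u) * dp M b (t + u)) := by
    have e1 : ∀ u : ℝ, Θ u * ex (u * x) * (dp P a (t + u) * dp M b (t + u)) =
        ∑ p ∈ P, ∑ m ∈ M, (a p * b m * nit t ((p * m : ℕ) : ℝ)) *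
          (Θ u * ex (-(u * (Real.log ((p * m : ℕ) : ℝ) - x)))) := by
      intro u
      unfold dp
      rw [sum_mul_sum, mul_sum]
      refine sum_congr rfl fun p hp => ?_
      rw [mul_sum]
      refine sum_congr rfl fun m hm => ?_
      have hp0 : (p : ℝ) ≠ 0 := by have := hP p hp; positivity
      have hm0 : (m : ℝ) ≠ 0 := by have := hM m hm; positivity
      have h : ex (u * x) * (nit (t + u) p * nit (t + u) m) =
          nit t ((p * m : ℕ) : ℝ) * ex (-(u * (Real.log ((p * m : ℕ) : ℝ) - x))) := by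
        unfold nit
        rw [← ex_add, ← ex_add, ← ex_add, Nat.cast_mul, Real.log_mul hp0 hm0]
        congr 1; ring
      linear_combination (Θ u * a p * b m) * h
    simp_rw [e1]
    rw [integral_finsetSum _ (fun p _ => integrable_finsetSum _ fun m _ =>
      (hint _).const_mul _)]
    refine sum_congr rfl fun p _ => ?_
    rw [integral_finsetSum _ (fun m _ => (hint _).const_mul _)]
    refine sum_congr rfl fun m _ => ?_
    rw [integral_const_mul, ← hinv]
    ring
  rw [hsum]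
  have hA : ∀ u : ℝ, |‖dp P a (t + u)‖| ≤ ∑ n ∈ P, ‖a n‖ := fun u => by
    rw [abs_norm]; exact norm_dp_le _ _ _
  have hB : ∀ u : ℝ, |‖dp M b (t + u)‖| ≤ ∑ n ∈ M, ‖b n‖ := fun u => by
    rw [abs_norm]; exact norm_dp_le _ _ _
  have hcs := cs_cw (continuous_dp_shift P a t).norm (continuous_dp_shift M b t).norm hA hB
  have i3 : Integrable (fun u => cw 1 u * (‖dp P a (t + u)‖ * ‖dp M b (t + u)‖)) :=
    integrable_cw_mul one_pos
      ((continuous_dp_shift P a t).norm.mul (continuous_dp_shift M b t).norm)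
      (B := (∑ n ∈ P, ‖a n‖) * ∑ n ∈ M, ‖b n‖) (fun u => by
      rw [abs_mul]
      exact mul_le_mul (hA u) (hB u) (abs_nonneg _) ((abs_nonneg _).trans (hA u)))
  have h1 : ‖∫ u : ℝ, Θ u * ex (u * x) * (dp P a (t + u) * dp M b (t + u))‖ ≤
      C * ∫ u, cw 1 u * (‖dp P a (t + u)‖ * ‖dp M b (t + u)‖) := by
    rw [← integral_const_mul]
    refine norm_integral_le_of_norm_le (i3.const_mul C) (Filter.Eventually.of_forall fun u => ?_)
    rw [norm_mul, norm_mul, norm_mul, norm_ex, mul_one, ← mul_assoc C]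
    exact mul_le_mul_of_nonneg_right (hΘ u) (by positivity)
  calc _ ≤ (C * ∫ u, cw 1 u * (‖dp P a (t + u)‖ * ‖dp M b (t + u)‖)) ^ 2 :=
        pow_le_pow_left₀ (norm_nonneg _) h1 2
    _ = C ^ 2 * (∫ u, cw 1 u * (‖dp P a (t + u)‖ * ‖dp M b (t + u)‖)) ^ 2 := by ring
    _ ≤ _ := mul_le_mul_of_nonneg_left hcs (by positivity)

end Pool.Agent.P.MP_a14ce1_nt.Ch
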