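import Pool.Agent.P.MP_a14ce1_nt.Ch.Defs

/-!
Identities for the random subset measure mu, used in the construction of the cofactor system.
-/

open Finset

namespace Pool.Agent.P.MP_a14ce1_nt.Ch.SysP

theorem one_sub_inv_nonneg (q : ℕ) : 0 ≤ 1 - (1 : ℝ) / q := by
  rcases Nat.eq_zero_or_pos q with h | h
  · subst h; simp
  · have h1 : (1 : ℝ) ≤ q := by exact_mod_cast h
    have : (1 : ℝ) / q ≤ 1 := by rw [div_le_one (by linarith)]; exact h1
    linarith

theorem mu_nonneg (G T : Finset ℕ) : 0 ≤ mu G T := by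
  unfold mu
  exact mul_nonneg (prod_nonneg fun _ _ => by positivity)
    (prod_nonneg fun q _ => one_sub_inv_nonneg q)

theorem Zc_pos (G : Finset ℕ) : 0 < Zc G := by
  unfold Zc
  exact prod_pos fun _ _ => by positivity

theorem Vw_pos (G T : Finset ℕ) : 0 < Vw G T := by
  unfold Vw
  have := Zc_pos G
  positivity

theorem deg_nonneg (s : ℝ) (T : Finset ℕ) : 0 ≤ deg s T := by
  unfold deg
  exact sum_nonneg fun _ _ => by positivity

theorem inv_pv (g : Finset ℕ) : ∏ q ∈ g, (1 : ℝ) / q = 1 / (pv g : ℝ) := by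
  unfold pv
  rw [prod_div_distrib, prod_const_one, Nat.cast_prod]

/-- the basic product formula -/
theorem sum_mu_sup (G g : Finset ℕ) (hg : g ⊆ G) (th : ℝ) :
    ∑ T ∈ G.powerset.filter (fun T => g ⊆ T), mu G T * th ^ (T \ g).card =
      1 / (pv g : ℝ) * ∏ q ∈ G \ g, (1 - (1 : ℝ) / q + th / q) := by
  have key := prod_add (fun q : ℕ => if q ∈ g then (1 : ℝ) / q else th / q)
    (fun q : ℕ => if q ∈ g then (0 : ℝ) else 1 - 1 / q) G
  have hL : ∏ q ∈ G, ((if q ∈ g then (1 : ℝ) / q else th / q) + if q ∈ g then (0 : ℝ) else 1 - 1 / q) =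
      1 / (pv g : ℝ) * ∏ q ∈ G \ g, (1 - (1 : ℝ) / q + th / q) := by
    rw [← prod_sdiff hg, mul_comm, ← inv_pv]
    congr 1
    · refine prod_congr rfl fun q hq => ?_
      simp [hq]
    · refine prod_congr rfl fun q hq => ?_
      have := (mem_sdiff.1 hq).2
      simp only [this, if_false]; ring
  rw [← hL, key, sum_filter]
  refine sum_congr rfl fun T hT => ?_
  split_ifs with h
  · have e1 : ∏ q ∈ T, (if q ∈ g then (1 : ℝ) / q else th / q) =
        (∏ q ∈ T, (1 : ℝ) / q) * th ^ (T \ g).card := by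
      rw [← prod_sdiff h, ← prod_sdiff h (f := fun q : ℕ => (1 : ℝ) / q)]
      have a1 : ∏ q ∈ T \ g, (if q ∈ g then (1 : ℝ) / q else th / q) =
          (∏ q ∈ T \ g, (1 : ℝ) / q) * th ^ (T \ g).card := by
        rw [← prod_const, ← prod_mul_distrib]
        refine prod_congr rfl fun q hq => ?_
        have := (mem_sdiff.1 hq).2
        simp only [this, if_false]; ring
      have a2 : ∏ q ∈ g, (if q ∈ g then (1 : ℝ) / q else th / q) = ∏ q ∈ g, (1 : ℝ) / q := by
        refine prod_congr rfl fun q hq => ?_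
        simp [hq]
      rw [a1, a2]; ring
    have e2 : ∏ q ∈ G \ T, (if q ∈ g then (0 : ℝ) else 1 - 1 / q) = ∏ q ∈ G \ T, (1 - (1 : ℝ) / q) := by
      refine prod_congr rfl fun q hq => ?_
      have : q ∉ g := fun hq' => (mem_sdiff.1 hq).2 (h hq')
      simp only [this, if_false]
    rw [e1, e2]; unfold mu; ring
  · obtain ⟨q, hq, hq'⟩ := not_subset.1 h
    have : ∏ q ∈ G \ T, (if q ∈ g then (0 : ℝ) else 1 - 1 / q) = 0 :=
      prod_eq_zero (mem_sdiff.2 ⟨hg hq, hq'⟩) (by simp [hq])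
    rw [this, mul_zero]

theorem V_mean (G : Finset ℕ) : ∑ T ∈ G.powerset, mu G T * Vw G T = 1 := by
  have h := sum_mu_sup G ∅ (empty_subset _) 64
  simp only [empty_subset, filter_true, sdiff_empty] at h
  have hz := Zc_pos G
  have e : ∏ q ∈ G, (1 - (1 : ℝ) / q + 64 / q) = Zc G := by
    unfold Zc
    exact prod_congr rfl fun q _ => by ring
  have e0 : (pv ∅ : ℝ) = 1 := by simp [pv]
  rw [e, e0] at h
  unfold Vw
  simp_rw [← mul_div_assoc]
  rw [← sum_div, h]
  field_simp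

theorem total (G : Finset ℕ) : ∑ g ∈ G.powerset, (63 : ℝ) ^ g.card / (pv g : ℝ) = Zc G := by
  unfold Zc
  rw [prod_one_add]
  refine sum_congr rfl fun g _ => ?_
  unfold pv
  rw [prod_div_distrib, prod_const, Nat.cast_prod]

theorem swap (G : Finset ℕ) (P : Finset ℕ → Prop) [DecidablePred P] (F : Finset ℕ → Finset ℕ → ℝ) :
    ∑ T ∈ G.powerset, ∑ g ∈ T.powerset.filter P, F T g =
      ∑ g ∈ G.powerset.filter P, ∑ T ∈ G.powerset.filter (fun T => g ⊆ T), F T g := by
  refine sum_comm' fun T g => ?_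
  simp only [mem_filter, mem_powerset]
  constructor
  · rintro ⟨h1, h2, h3⟩
    exact ⟨⟨h1, h2⟩, h2.trans h1, h3⟩
  · rintro ⟨⟨h1, h2⟩, _, h3⟩
    exact ⟨h1, h2, h3⟩

/-- inclusion probability under the tilted measure -/
theorem sum_mu_V_mem (G : Finset ℕ) {q : ℕ} (hq : q ∈ G) :
    ∑ T ∈ G.powerset.filter (fun T => q ∈ T), mu G T * Vw G T ≤ 64 / q := by
  have h := sum_mu_sup G {q} (singleton_subset_iff.2 hq) 64
  have hz := Zc_pos G
  have e0 : (pv {q} : ℝ) = q := by simp [pv]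
  have e : ∏ r ∈ G \ {q}, (1 - (1 : ℝ) / r + 64 / r) ≤ Zc G := by
    unfold Zc
    rw [← prod_sdiff (singleton_subset_iff.2 hq), prod_singleton]
    have e1 : ∏ r ∈ G \ {q}, (1 - (1 : ℝ) / r + 64 / r) = ∏ r ∈ G \ {q}, (1 + (63 : ℝ) / r) :=
      prod_congr rfl fun q _ => by ring
    rw [e1]
    have p1 : 0 ≤ ∏ r ∈ G \ {q}, (1 + (63 : ℝ) / r) := prod_nonneg fun _ _ => by positivity
    have p2 : 0 ≤ (63 : ℝ) / q := by positivity
    nlinarith
  have e2 : ∑ T ∈ G.powerset.filter (fun T => q ∈ T), mu G T * Vw G T =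
      64 / Zc G * ∑ T ∈ G.powerset.filter (fun T => ({q} : Finset ℕ) ⊆ T),
        mu G T * 64 ^ (T \ {q}).card := by
    rw [mul_sum]
    simp only [singleton_subset_iff]
    refine sum_congr rfl fun T hT => ?_
    have hT' := (mem_filter.1 hT).2
    have hc : T.card = (T \ {q}).card + 1 := by
      rw [sdiff_singleton_eq_erase, card_erase_add_one hT']
    unfold Vw
    rw [hc, pow_succ]; ring
  rw [e2, h, e0]
  calc 64 / Zc G * (1 / (q : ℝ) * ∏ r ∈ G \ {q}, (1 - (1 : ℝ) / r + 64 / r))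
      ≤ 64 / Zc G * (1 / (q : ℝ) * Zc G) := by gcongr
    _ = 64 / q := by field_simp

theorem sum_mu_V_sum (G : Finset ℕ) (f : ℕ → ℝ) (hf : ∀ q ∈ G, 0 ≤ f q) :
    ∑ T ∈ G.powerset, mu G T * (Vw G T * ∑ q ∈ T, f q) ≤ 64 * ∑ q ∈ G, f q / q := by
  have e : ∑ T ∈ G.powerset, mu G T * (Vw G T * ∑ q ∈ T, f q) =
      ∑ q ∈ G, ∑ T ∈ G.powerset.filter (fun T => q ∈ T), f q * (mu G T * Vw G T) := by
    have : ∑ T ∈ G.powerset, mu G T * (Vw G T * ∑ q ∈ T, f q) =
        ∑ T ∈ G.powerset, ∑ q ∈ T, f q * (mu G T * Vw G T) := by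
      refine sum_congr rfl fun T _ => ?_
      rw [mul_sum, mul_sum]
      exact sum_congr rfl fun q _ => by ring
    rw [this]
    refine sum_comm' fun T q => ?_
    simp only [mem_filter, mem_powerset]
    constructor
    · rintro ⟨h1, h2⟩
      exact ⟨⟨h1, h2⟩, h1 h2⟩
    · rintro ⟨⟨h1, h2⟩, _⟩
      exact ⟨h1, h2⟩
  rw [e, mul_sum]
  refine sum_le_sum fun q hq => ?_
  rw [← mul_sum]
  calc f q * ∑ T ∈ G.powerset.filter (fun T => q ∈ T), mu G T * Vw G T ≤ f q * (64 / q) :=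
        mul_le_mul_of_nonneg_left (sum_mu_V_mem G hq) (hf q hq)
    _ = 64 * (f q / q) := by ring

/-- mean of the degree -/
theorem mean_deg (G : Finset ℕ) (s : ℝ) :
    ∑ T ∈ G.powerset, mu G T * deg s T =
      ∑ g ∈ G.powerset.filter (fun g => s ≤ (pv g : ℝ) ∧ (pv g : ℝ) < 2 * s),
        (63 : ℝ) ^ g.card / (pv g : ℝ) := by
  unfold deg
  simp_rw [mul_sum]
  rw [swap]
  refine sum_congr rfl fun g hg => ?_
  have hg' : g ⊆ G := mem_powerset.1 (mem_filter.1 hg).1
  have h := sum_mu_sup G g hg' 1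
  simp only [one_pow, mul_one, sub_add_cancel, prod_const_one] at h
  rw [← sum_mul, h]; ring

theorem half_prod_le (G g : Finset ℕ) (hg : g ⊆ G) (h1 : rs g ≤ 1) :
    ∏ q ∈ G \ g, (1 - (1 : ℝ) / q + (1 / 2) / q) ≤ Real.exp (-(rs G - 1) / 2) := by
  have e : rs G = rs (G \ g) + rs g := by
    unfold rs; rw [sum_sdiff hg]
  calc ∏ q ∈ G \ g, (1 - (1 : ℝ) / q + (1 / 2) / q)
      ≤ ∏ q ∈ G \ g, Real.exp (-((1 : ℝ) / q) / 2) := by
        refine prod_le_prod (fun q _ => ?_) (fun q _ => ?_)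
        · have := one_sub_inv_nonneg q
          positivity
        · have := Real.add_one_le_exp (-((1 : ℝ) / q) / 2)
          have e2 : 1 - (1 : ℝ) / q + (1 / 2) / q = -((1 : ℝ) / q) / 2 + 1 := by ring
          rw [e2]; exact this
    _ = Real.exp (-(rs (G \ g)) / 2) := by
        rw [← Real.exp_sum]
        unfold rs
        rw [← sum_div, sum_neg_distrib]
    _ ≤ Real.exp (-(rs G - 1) / 2) := by
        apply Real.exp_le_exp.2
        linarith

end Pool.Agent.P.MP_a14ce1_nt.Ch.SysP
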