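import Pool.Agent.P.MP_a14ce1_nt.Ch.SysA

/-!
Good edges of the cofactor system: row sums, class sums and removed mass.
-/

open Finset

namespace Pool.Agent.P.MP_a14ce1_nt.Ch.SysP

/-- normalised weight of a cofactor -/
noncomputable def wt (G : Finset ℕ) (x : ℝ) (g : Finset ℕ) : ℝ := (63 : ℝ) ^ g.card * (x / Zc G)

/-- the cost of a prime -/
noncomputable def cost (Y y : ℝ) (T0 : ℕ) (q : ℕ) : ℝ :=
  if (q : ℝ) ≤ Y then Real.log q / y else 1 / (T0 : ℝ)

/-- the three conditions defining a good edge -/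
def Good (G : Finset ℕ) (x s M N Y y : ℝ) (T0 : ℕ) (T g : Finset ℕ) : Prop :=
  x / Zc G * deg s T ≤ M * Vw G T ∧ N ≤ (2 : ℝ) ^ (T \ g).card ∧ ∑ q ∈ T, cost Y y T0 q < 1

open Classical in
/-- the good cofactors -/
noncomputable def gdd (G : Finset ℕ) (x s M N Y y : ℝ) (T0 : ℕ) (P : Finset ℕ → Prop) [DecidablePred P]
    (T : Finset ℕ) : Finset (Finset ℕ) :=
  (T.powerset.filter P).filter (fun g => Good G x s M N Y y T0 T g)

theorem mem_gdd {G : Finset ℕ} {x s M N Y y : ℝ} {T0 : ℕ} {P : Finset ℕ → Prop} [DecidablePred P]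
    {T g : Finset ℕ} :
    g ∈ gdd G x s M N Y y T0 P T ↔ (g ⊆ T ∧ P g) ∧ Good G x s M N Y y T0 T g := by
  unfold gdd
  simp only [mem_filter, mem_powerset]

theorem gdd_sub (G : Finset ℕ) (x s M N Y y : ℝ) (T0 : ℕ) (P : Finset ℕ → Prop) [DecidablePred P]
    (T : Finset ℕ) : gdd G x s M N Y y T0 P T ⊆ T.powerset.filter P := by
  intro g hg
  have := (mem_gdd.1 hg).1
  exact mem_filter.2 ⟨mem_powerset.2 this.1, this.2⟩

theorem wt_nonneg (G : Finset ℕ) {x : ℝ} (hx : 0 < x) (g : Finset ℕ) : 0 ≤ wt G x g := by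
  unfold wt
  have := Zc_pos G
  positivity

theorem cost_nonneg (Y : ℝ) {y : ℝ} (hy : 0 < y) (T0 q : ℕ) : 0 ≤ cost Y y T0 q := by
  unfold cost
  split_ifs
  · exact div_nonneg (Real.log_natCast_nonneg q) hy.le
  · positivity

theorem sum_wt_le_deg (G : Finset ℕ) {x : ℝ} (hx : 0 < x) (s : ℝ) (P : Finset ℕ → Prop) [DecidablePred P]
    (hP : ∀ g, P g → s ≤ (pv g : ℝ) ∧ (pv g : ℝ) < 2 * s) (T : Finset ℕ) (S : Finset (Finset ℕ))
    (hS : S ⊆ T.powerset.filter P) : ∑ g ∈ S, wt G x g ≤ x / Zc G * deg s T := by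
  unfold deg
  rw [mul_sum]
  have hz := Zc_pos G
  calc ∑ g ∈ S, wt G x g = ∑ g ∈ S, x / Zc G * (63 : ℝ) ^ g.card :=
        sum_congr rfl fun g _ => by unfold wt; ring
    _ ≤ _ := by
        refine sum_le_sum_of_subset_of_nonneg (fun g hg => ?_) (fun _ _ _ => by positivity)
        have := mem_filter.1 (hS hg)
        exact mem_filter.2 ⟨this.1, hP g this.2⟩

theorem row_le (G : Finset ℕ) {x : ℝ} (hx : 0 < x) (s : ℝ) {M : ℝ} (hM : 0 < M) (N Y y : ℝ) (T0 : ℕ)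
    (P : Finset ℕ → Prop) [DecidablePred P]
    (hP : ∀ g, P g → s ≤ (pv g : ℝ) ∧ (pv g : ℝ) < 2 * s) (T : Finset ℕ) :
    ∑ g ∈ gdd G x s M N Y y T0 P T, wt G x g ≤ M * Vw G T := by
  rcases (gdd G x s M N Y y T0 P T).eq_empty_or_nonempty with h | ⟨g, hg⟩
  · rw [h, sum_empty]
    have := Vw_pos G T
    positivity
  · exact (sum_wt_le_deg G hx s P hP T _ (gdd_sub G x s M N Y y T0 P T)).trans (mem_gdd.1 hg).2.1

theorem wt_le_of_good {G : Finset ℕ} {x : ℝ} (hx : 0 < x) {N : ℝ} (hN : 0 < N) {T g : Finset ℕ}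
    (hg : g ⊆ T) (h2 : N ≤ (2 : ℝ) ^ (T \ g).card) : wt G x g ≤ x / N ^ 6 * Vw G T := by
  unfold wt Vw
  have hz := Zc_pos G
  have hc : T.card = (T \ g).card + g.card := (card_sdiff_add_card_eq_card hg).symm
  have h6 : N ^ 6 ≤ (64 : ℝ) ^ (T \ g).card := by
    calc N ^ 6 ≤ ((2 : ℝ) ^ (T \ g).card) ^ 6 := by gcongr
      _ = (64 : ℝ) ^ (T \ g).card := by
          rw [← pow_mul, mul_comm, pow_mul]; norm_num
  have h63 : (63 : ℝ) ^ g.card ≤ 64 ^ g.card := by gcongr; norm_num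
  rw [hc, pow_add]
  have hN6 : 0 < N ^ 6 := by positivity
  calc (63 : ℝ) ^ g.card * (x / Zc G) ≤ 64 ^ g.card * (x / Zc G) := by gcongr
    _ = x / N ^ 6 * (N ^ 6 * 64 ^ g.card / Zc G) := by field_simp
    _ ≤ x / N ^ 6 * ((64 : ℝ) ^ (T \ g).card * 64 ^ g.card / Zc G) := by gcongr

theorem pv_pos {g : Finset ℕ} (hg : ∀ q ∈ g, q.Prime) : 0 < pv g :=
  prod_pos fun q hq => (hg q hq).pos

theorem pv_inj {g g' : Finset ℕ} (hg : ∀ q ∈ g, q.Prime) (hg' : ∀ q ∈ g', q.Prime)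
    (h : pv g = pv g') : g = g' := by
  rw [← Nat.primeFactors_prod hg, ← Nat.primeFactors_prod hg']
  unfold pv at h
  rw [h]

theorem log_pv {g : Finset ℕ} (hg : ∀ q ∈ g, q.Prime) :
    Real.log (pv g : ℝ) = ∑ q ∈ g, Real.log q := by
  unfold pv
  rw [Nat.cast_prod, Real.log_prod]
  intro q hq
  exact_mod_cast (hg q hq).ne_zero

theorem smooth_lt {T : Finset ℕ} (hT : ∀ q ∈ T, q.Prime) {Y y : ℝ} (hy : 0 < y) {T0 : ℕ}
    (h : ∑ q ∈ T, cost Y y T0 q < 1) {A : Finset ℕ} (hA : A ⊆ T) (hA' : ∀ q ∈ A, (q : ℝ) ≤ Y) :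
    (pv A : ℝ) < Real.exp y := by
  have hp : ∀ q ∈ A, q.Prime := fun q hq => hT q (hA hq)
  have h0 : (0 : ℝ) < pv A := by exact_mod_cast pv_pos hp
  rw [← Real.log_lt_iff_lt_exp h0, log_pv hp]
  have h1 : ∑ q ∈ A, cost Y y T0 q ≤ ∑ q ∈ T, cost Y y T0 q :=
    sum_le_sum_of_subset_of_nonneg hA fun q _ _ => cost_nonneg Y hy T0 q
  have h2 : ∑ q ∈ A, cost Y y T0 q = (∑ q ∈ A, Real.log q) / y := by
    rw [sum_div]
    refine sum_congr rfl fun q hq => ?_
    unfold cost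
    rw [if_pos (hA' q hq)]
  rw [h2] at h1
  have := h1.trans_lt h
  rwa [div_lt_one hy] at this

theorem rough_card_le {T : Finset ℕ} {Y y : ℝ} (hy : 0 < y) {T0 : ℕ} (hT0 : 0 < T0)
    (h : ∑ q ∈ T, cost Y y T0 q < 1) : (T.filter (fun q : ℕ => ¬ (q : ℝ) ≤ Y)).card ≤ T0 := by
  have h1 : ∑ q ∈ T.filter (fun q : ℕ => ¬ (q : ℝ) ≤ Y), cost Y y T0 q ≤ ∑ q ∈ T, cost Y y T0 q :=
    sum_le_sum_of_subset_of_nonneg (filter_subset _ _) fun q _ _ => cost_nonneg Y hy T0 q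
  have h2 : ∑ q ∈ T.filter (fun q : ℕ => ¬ (q : ℝ) ≤ Y), cost Y y T0 q =
      ((T.filter (fun q : ℕ => ¬ (q : ℝ) ≤ Y)).card : ℝ) / T0 := by
    rw [sum_congr rfl (g := fun _ => 1 / (T0 : ℝ))]
    · rw [sum_const, nsmul_eq_mul]; ring
    · intro q hq
      unfold cost
      rw [if_neg (mem_filter.1 hq).2]
  rw [h2] at h1
  have h3 := h1.trans_lt h
  have h4 : (0 : ℝ) < T0 := by exact_mod_cast hT0
  rw [div_lt_one h4] at h3
  exact_mod_cast h3.le

theorem class_card_le {T : Finset ℕ} (hT : ∀ q ∈ T, q.Prime) {Y y : ℝ} (hy : 0 < y) {T0 : ℕ}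
    (hT0 : 0 < T0) (h : ∑ q ∈ T, cost Y y T0 q < 1) {p' : ℕ} (hp : p'.Prime) (hpT : p' ∉ T)
    (hpy : Real.exp y ≤ p') (r : ℕ) (S : Finset (Finset ℕ))
    (hS : ∀ g ∈ S, g ⊆ T ∧ pv g ≡ r [MOD p']) : S.card ≤ 2 ^ T0 := by
  have hR := rough_card_le hy hT0 h
  set R := T.filter (fun q : ℕ => ¬ (q : ℝ) ≤ Y) with hRdef
  have hc : S.card ≤ R.powerset.card := by
    refine card_le_card_of_injOn (fun g => g.filter (fun q : ℕ => ¬ (q : ℝ) ≤ Y)) ?_ ?_
    · intro g hg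
      exact mem_coe.2 (mem_powerset.2 (filter_subset_filter _ (hS g hg).1))
    · intro g hg g' hg' hgg
      have hgg' : g.filter (fun q : ℕ => ¬ (q : ℝ) ≤ Y) = g'.filter (fun q : ℕ => ¬ (q : ℝ) ≤ Y) := hgg
      obtain ⟨h1, h2⟩ := hS g hg
      obtain ⟨h1', h2'⟩ := hS g' hg'
      have split : ∀ u : Finset ℕ, pv u = pv (u.filter (fun q : ℕ => (q : ℝ) ≤ Y)) *
          pv (u.filter (fun q : ℕ => ¬ (q : ℝ) ≤ Y)) := fun u => by
        unfold pv
        rw [prod_filter_mul_prod_filter_not]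
      have hm : pv g ≡ pv g' [MOD p'] := h2.trans h2'.symm
      rw [split g, split g', ← hgg'] at hm
      have hcop : Nat.gcd p' (pv (g.filter (fun q : ℕ => ¬ (q : ℝ) ≤ Y))) = 1 := by
        apply Nat.Coprime.gcd_eq_one
        unfold pv
        refine Nat.Coprime.prod_right fun q hq => ?_
        have hqT := h1 (mem_filter.1 hq).1
        exact (Nat.coprime_primes hp (hT q hqT)).2 fun e => hpT (e ▸ hqT)
      have hm2 := Nat.ModEq.cancel_right_of_coprime hcop hm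
      have lt : ∀ u : Finset ℕ, u ⊆ T → pv (u.filter (fun q : ℕ => (q : ℝ) ≤ Y)) < p' := fun u hu => by
        have := smooth_lt hT hy h ((filter_subset (fun q : ℕ => (q : ℝ) ≤ Y) u).trans hu)
          (fun q hq => (mem_filter.1 hq).2)
        exact_mod_cast this.trans_le hpy
      have he := Nat.ModEq.eq_of_lt_of_lt hm2 (lt g h1) (lt g' h1')
      have he2 := pv_inj (fun q hq => hT q (h1 (mem_filter.1 hq).1))
        (fun q hq => hT q (h1' (mem_filter.1 hq).1)) he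
      rw [← filter_union_filter_not_eq (fun q : ℕ => (q : ℝ) ≤ Y) g,
        ← filter_union_filter_not_eq (fun q : ℕ => (q : ℝ) ≤ Y) g', he2, hgg']
  rw [card_powerset] at hc
  exact hc.trans (Nat.pow_le_pow_right (by norm_num) hR)

theorem cls_le {G : Finset ℕ} (hG : ∀ q ∈ G, q.Prime) {x : ℝ} (hx : 0 < x) (s M : ℝ) {N : ℝ} (hN : 0 < N)
    (Y : ℝ) {y : ℝ} (hy : 0 < y) {T0 : ℕ} (hT0 : 0 < T0) (P : Finset ℕ → Prop) [DecidablePred P]
    {p' : ℕ} (hp : p'.Prime) (hpG : p' ∉ G) (hpy : Real.exp y ≤ p') {T : Finset ℕ} (hT : T ⊆ G) (r : ℕ) :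
    ∑ g ∈ (gdd G x s M N Y y T0 P T).filter (fun g => pv g ≡ r [MOD p']), wt G x g ≤
      2 ^ T0 * (x / N ^ 6) * Vw G T := by
  have hV := Vw_pos G T
  set S := (gdd G x s M N Y y T0 P T).filter (fun g => pv g ≡ r [MOD p']) with hS
  rcases S.eq_empty_or_nonempty with h | ⟨g0, hg0⟩
  · rw [h, sum_empty]; positivity
  · have h3 := (mem_gdd.1 (mem_filter.1 hg0).1).2.2.2
    have hc : S.card ≤ 2 ^ T0 :=
      class_card_le (fun q hq => hG q (hT hq)) hy hT0 h3 hp (fun e => hpG (hT e)) hpy r S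
        (fun g hg => ⟨(mem_gdd.1 (mem_filter.1 hg).1).1.1, (mem_filter.1 hg).2⟩)
    have hc' : (S.card : ℝ) ≤ 2 ^ T0 := by exact_mod_cast hc
    calc ∑ g ∈ S, wt G x g ≤ S.card • (x / N ^ 6 * Vw G T) := by
          refine sum_le_card_nsmul _ _ _ fun g hg => ?_
          have := mem_gdd.1 (mem_filter.1 hg).1
          exact wt_le_of_good hx hN this.1.1 this.2.2.1
      _ = S.card * (x / N ^ 6 * Vw G T) := nsmul_eq_mul _ _
      _ ≤ 2 ^ T0 * (x / N ^ 6 * Vw G T) := by gcongr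
      _ = _ := by ring

theorem removed_pt (G : Finset ℕ) {x : ℝ} (hx : 0 < x) (s : ℝ) {M : ℝ} (hM : 0 < M) {N : ℝ} (hN : 0 < N)
    (Y : ℝ) {y : ℝ} (hy : 0 < y) (T0 : ℕ) (P : Finset ℕ → Prop) [DecidablePred P]
    (hP : ∀ g, P g → s ≤ (pv g : ℝ) ∧ (pv g : ℝ) < 2 * s) (T : Finset ℕ) :
    ∑ g ∈ (T.powerset.filter P) \ gdd G x s M N Y y T0 P T, wt G x g ≤
      (x / Zc G) ^ 2 / M * ((deg s T) ^ 2 / Vw G T) +
        N * ∑ g ∈ T.powerset.filter P, wt G x g * (1 / 2) ^ (T \ g).card +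
        M * (Vw G T * ∑ q ∈ T, cost Y y T0 q) := by
  have hV := Vw_pos G T
  have hz := Zc_pos G
  have hd := deg_nonneg s T
  have hc : 0 ≤ ∑ q ∈ T, cost Y y T0 q := sum_nonneg fun q _ => cost_nonneg Y hy T0 q
  have t1 : 0 ≤ (x / Zc G) ^ 2 / M * ((deg s T) ^ 2 / Vw G T) := by positivity
  have t2 : 0 ≤ N * ∑ g ∈ T.powerset.filter P, wt G x g * (1 / 2) ^ (T \ g).card :=
    mul_nonneg hN.le (sum_nonneg fun g _ => mul_nonneg (wt_nonneg G hx g) (by positivity))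
  have t3 : 0 ≤ M * (Vw G T * ∑ q ∈ T, cost Y y T0 q) := by positivity
  have hb := sum_wt_le_deg G hx s P hP T ((T.powerset.filter P) \ gdd G x s M N Y y T0 P T) sdiff_subset
  by_cases h1 : x / Zc G * deg s T ≤ M * Vw G T
  · by_cases h3 : ∑ q ∈ T, cost Y y T0 q < 1
    · have : ∑ g ∈ (T.powerset.filter P) \ gdd G x s M N Y y T0 P T, wt G x g ≤
          N * ∑ g ∈ T.powerset.filter P, wt G x g * (1 / 2) ^ (T \ g).card := by
        rw [mul_sum]
        calc ∑ g ∈ (T.powerset.filter P) \ gdd G x s M N Y y T0 P T, wt G x g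
            ≤ ∑ g ∈ (T.powerset.filter P) \ gdd G x s M N Y y T0 P T,
                N * (wt G x g * (1 / 2) ^ (T \ g).card) := by
              refine sum_le_sum fun g hg => ?_
              obtain ⟨hg1, hg2⟩ := mem_sdiff.1 hg
              have hg1' := mem_filter.1 hg1
              have h2 : ¬ N ≤ (2 : ℝ) ^ (T \ g).card := fun h2 =>
                hg2 (mem_gdd.2 ⟨⟨mem_powerset.1 hg1'.1, hg1'.2⟩, h1, h2, h3⟩)
              have h2' : 1 ≤ N * (1 / 2) ^ (T \ g).card := by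
                rw [one_div, inv_pow, ← div_eq_mul_inv, le_div_iff₀ (by positivity), one_mul]
                exact (not_le.1 h2).le
              have := wt_nonneg G hx g
              nlinarith
          _ ≤ _ := sum_le_sum_of_subset_of_nonneg sdiff_subset fun g _ _ =>
              mul_nonneg hN.le (mul_nonneg (wt_nonneg G hx g) (by positivity))
      linarith
    · have h3' := not_lt.1 h3
      have : M * Vw G T ≤ M * (Vw G T * ∑ q ∈ T, cost Y y T0 q) := by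
        have : Vw G T ≤ Vw G T * ∑ q ∈ T, cost Y y T0 q := by nlinarith
        gcongr
      linarith
  · have h1' := (not_le.1 h1).le
    have : x / Zc G * deg s T ≤ (x / Zc G) ^ 2 / M * ((deg s T) ^ 2 / Vw G T) := by
      have e : (x / Zc G) ^ 2 / M * ((deg s T) ^ 2 / Vw G T) =
          (x / Zc G * deg s T) * ((x / Zc G * deg s T) / (M * Vw G T)) := by
        field_simp
      rw [e]
      have h0 : 0 ≤ x / Zc G * deg s T := by positivity
      have : 1 ≤ (x / Zc G * deg s T) / (M * Vw G T) := by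
        rw [le_div_iff₀ (by positivity), one_mul]; exact h1'
      nlinarith
    linarith

theorem mean_deg_le (G : Finset ℕ) {x : ℝ} (hx : 0 < x) (s C1 : ℝ)
    (hL : ∑ T ∈ G.powerset, mu G T * (deg s T) ^ 2 / Vw G T ≤ C1 * (Zc G / x) ^ 2) :
    x / Zc G * ∑ T ∈ G.powerset, mu G T * deg s T ≤ (C1 + 1) / 2 := by
  have hz := Zc_pos G
  have h1 : x / Zc G * ∑ T ∈ G.powerset, mu G T * deg s T ≤
      (x / Zc G) ^ 2 / 2 * ∑ T ∈ G.powerset, mu G T * (deg s T) ^ 2 / Vw G T +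
        1 / 2 * ∑ T ∈ G.powerset, mu G T * Vw G T := by
    rw [mul_sum, mul_sum, mul_sum, ← sum_add_distrib]
    refine sum_le_sum fun T _ => ?_
    have hV := Vw_pos G T
    have hm := mu_nonneg G T
    have key : x / Zc G * deg s T ≤ (x / Zc G * deg s T) ^ 2 / Vw G T / 2 + Vw G T / 2 := by
      have : 2 * (x / Zc G * deg s T) - Vw G T ≤ (x / Zc G * deg s T) ^ 2 / Vw G T := by
        rw [le_div_iff₀ hV]
        nlinarith [sq_nonneg (x / Zc G * deg s T - Vw G T)]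
      linarith
    calc x / Zc G * (mu G T * deg s T) = mu G T * (x / Zc G * deg s T) := by ring
      _ ≤ mu G T * ((x / Zc G * deg s T) ^ 2 / Vw G T / 2 + Vw G T / 2) := by gcongr
      _ = _ := by ring
  rw [V_mean] at h1
  have h2 : (x / Zc G) ^ 2 / 2 * ∑ T ∈ G.powerset, mu G T * (deg s T) ^ 2 / Vw G T ≤
      (x / Zc G) ^ 2 / 2 * (C1 * (Zc G / x) ^ 2) := by gcongr
  have h3 : (x / Zc G) ^ 2 / 2 * (C1 * (Zc G / x) ^ 2) = C1 / 2 := by field_simp
  linarith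

theorem removed_le (G : Finset ℕ) {x : ℝ} (hx : 0 < x) (s : ℝ) {M : ℝ} (hM : 0 < M) {N : ℝ} (hN : 0 < N)
    (Y : ℝ) {y : ℝ} (hy : 0 < y) (T0 : ℕ) (P : Finset ℕ → Prop) [DecidablePred P]
    (hP : ∀ g, P g → s ≤ (pv g : ℝ) ∧ (pv g : ℝ) < 2 * s) (hP1 : ∀ g, P g → rs g ≤ 1) (C1 : ℝ)
    (hL : ∑ T ∈ G.powerset, mu G T * (deg s T) ^ 2 / Vw G T ≤ C1 * (Zc G / x) ^ 2) :
    ∑ T ∈ G.powerset, mu G T * ∑ g ∈ (T.powerset.filter P) \ gdd G x s M N Y y T0 P T, wt G x g ≤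
      C1 / M + N * (Real.exp (-(rs G - 1) / 2) * ((C1 + 1) / 2)) +
        M * (64 * ∑ q ∈ G, cost Y y T0 q / q) := by
  have hz := Zc_pos G
  have h0 : ∑ T ∈ G.powerset, mu G T * ∑ g ∈ (T.powerset.filter P) \ gdd G x s M N Y y T0 P T, wt G x g ≤
      (x / Zc G) ^ 2 / M * ∑ T ∈ G.powerset, mu G T * (deg s T) ^ 2 / Vw G T +
        N * ∑ T ∈ G.powerset, ∑ g ∈ T.powerset.filter P, wt G x g * (mu G T * (1 / 2) ^ (T \ g).card) +
        M * ∑ T ∈ G.powerset, mu G T * (Vw G T * ∑ q ∈ T, cost Y y T0 q) := by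
    rw [mul_sum, mul_sum, mul_sum G.powerset, ← sum_add_distrib, ← sum_add_distrib]
    refine sum_le_sum fun T _ => ?_
    have := mul_le_mul_of_nonneg_left (removed_pt G hx s hM hN Y hy T0 P hP T) (mu_nonneg G T)
    refine this.trans (le_of_eq ?_)
    have e : ∑ g ∈ T.powerset.filter P, wt G x g * (mu G T * (1 / 2) ^ (T \ g).card) =
        mu G T * ∑ g ∈ T.powerset.filter P, wt G x g * (1 / 2) ^ (T \ g).card := by
      rw [mul_sum]
      exact sum_congr rfl fun g _ => by ring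
    rw [e]; ring
  have h1 : (x / Zc G) ^ 2 / M * ∑ T ∈ G.powerset, mu G T * (deg s T) ^ 2 / Vw G T ≤ C1 / M := by
    calc _ ≤ (x / Zc G) ^ 2 / M * (C1 * (Zc G / x) ^ 2) := by gcongr
      _ = C1 / M := by field_simp
  have h2 : ∑ T ∈ G.powerset, ∑ g ∈ T.powerset.filter P, wt G x g * (mu G T * (1 / 2) ^ (T \ g).card) ≤
      Real.exp (-(rs G - 1) / 2) * ((C1 + 1) / 2) := by
    rw [swap]
    calc ∑ g ∈ G.powerset.filter P, ∑ T ∈ G.powerset.filter (fun T => g ⊆ T),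
          wt G x g * (mu G T * (1 / 2) ^ (T \ g).card)
        ≤ ∑ g ∈ G.powerset.filter P,
            Real.exp (-(rs G - 1) / 2) * (x / Zc G * ((63 : ℝ) ^ g.card / (pv g : ℝ))) := by
          refine sum_le_sum fun g hg => ?_
          obtain ⟨hg1, hg2⟩ := mem_filter.1 hg
          rw [← mul_sum, sum_mu_sup G g (mem_powerset.1 hg1)]
          have := half_prod_le G g (mem_powerset.1 hg1) (hP1 g hg2)
          have hw := wt_nonneg G hx g
          calc wt G x g * (1 / (pv g : ℝ) * ∏ q ∈ G \ g, (1 - (1 : ℝ) / q + (1 / 2) / q))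
              ≤ wt G x g * (1 / (pv g : ℝ) * Real.exp (-(rs G - 1) / 2)) := by gcongr
            _ = _ := by unfold wt; ring
      _ ≤ ∑ g ∈ G.powerset.filter (fun g => s ≤ (pv g : ℝ) ∧ (pv g : ℝ) < 2 * s),
            Real.exp (-(rs G - 1) / 2) * (x / Zc G * ((63 : ℝ) ^ g.card / (pv g : ℝ))) := by
          refine sum_le_sum_of_subset_of_nonneg (fun g hg => ?_) (fun _ _ _ => by positivity)
          obtain ⟨hg1, hg2⟩ := mem_filter.1 hg
          exact mem_filter.2 ⟨hg1, hP g hg2⟩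
      _ = Real.exp (-(rs G - 1) / 2) * (x / Zc G * ∑ T ∈ G.powerset, mu G T * deg s T) := by
          rw [mean_deg, mul_sum, mul_sum]
      _ ≤ _ := by
          have := mean_deg_le G hx s C1 hL
          gcongr
  have h3 := sum_mu_V_sum G (cost Y y T0) (fun q _ => cost_nonneg Y hy T0 q)
  have h2' := mul_le_mul_of_nonneg_left h2 hN.le
  have h3' := mul_le_mul_of_nonneg_left h3 hM.le
  linarith

end Pool.Agent.P.MP_a14ce1_nt.Ch.SysP
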