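import Pool.Agent.P.MP_a14ce1_nt.Ch.SysB

/-!
Prime sums, the pigeonhole step and growth facts for the cofactor system.
-/

open Finset Filter

namespace Pool.Agent.P.MP_a14ce1_nt.Ch.SysP

/-- the centred primes -/
noncomputable def II (K x : ℝ) : Finset ℕ := pr (Real.exp (x / K ^ 9)) (Real.exp (x / K ^ 8))

/-- the cofactor primes -/
noncomputable def GG (K x : ℝ) : Finset ℕ := pr (3 * x) (Real.exp x) \ II K x

theorem rs_mono {A B : Finset ℕ} (h : A ⊆ B) : rs A ≤ rs B :=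
  sum_le_sum_of_subset_of_nonneg h fun _ _ _ => by positivity

theorem rs_sdiff (A B : Finset ℕ) : rs A - rs B ≤ rs (A \ B) := by
  have h1 : rs A = rs (A \ B) + rs (A ∩ B) := by
    unfold rs; rw [add_comm, sum_inter_add_sum_sdiff]
  have h2 : rs (A ∩ B) ≤ rs B := rs_mono inter_subset_right
  linarith

theorem div9_le_div8 {K x : ℝ} (hK : 2 ≤ K) (hx : 0 ≤ x) : x / K ^ 9 ≤ x / K ^ 8 := by
  have : K ^ 8 ≤ K ^ 9 := pow_le_pow_right₀ (by linarith) (by norm_num)
  gcongr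

theorem div8_le {K x : ℝ} (hK : 2 ≤ K) (hx : 0 ≤ x) : x / K ^ 8 ≤ x / 4 := by
  have : (4 : ℝ) ≤ K ^ 8 := by
    calc (4 : ℝ) ≤ 2 ^ 8 := by norm_num
      _ ≤ K ^ 8 := by gcongr
  gcongr

theorem mem_II {K x : ℝ} {p : ℕ} :
    p ∈ II K x ↔ p.Prime ∧ Real.exp (x / K ^ 9) < p ∧ (p : ℝ) ≤ Real.exp (x / K ^ 8) :=
  mem_pr (Real.exp_pos _).le

theorem mem_GG {K x : ℝ} (hx : 0 ≤ x) {p : ℕ} :
    p ∈ GG K x ↔ (p.Prime ∧ 3 * x < p ∧ (p : ℝ) ≤ Real.exp x) ∧ p ∉ II K x := by
  unfold GG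
  rw [Finset.mem_sdiff, mem_pr (by linarith)]

theorem rsI {C : ℝ} (M1 : ∀ u v : ℝ, 2 ≤ u → u ≤ v →
      |rs (pr u v) - Real.log (Real.log v / Real.log u)| ≤ C) {K x : ℝ} (hK : 2 ≤ K) (hx : 1 ≤ x)
    (h3 : 3 * x ≤ Real.exp (x / K ^ 9)) : |rs (II K x) - Real.log K| ≤ C := by
  have h := M1 (Real.exp (x / K ^ 9)) (Real.exp (x / K ^ 8)) (by linarith)
    (Real.exp_le_exp.2 (div9_le_div8 hK (by linarith)))
  rw [Real.log_exp, Real.log_exp] at h
  have e : x / K ^ 8 / (x / K ^ 9) = K := by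
    have : K ≠ 0 := by linarith
    have : x ≠ 0 := by linarith
    field_simp
  rw [e] at h
  exact h

theorem G1 {C : ℝ} (hC : 0 < C) (M1 : ∀ u v : ℝ, 2 ≤ u → u ≤ v →
      |rs (pr u v) - Real.log (Real.log v / Real.log u)| ≤ C) {K x : ℝ} (hK : 2 ≤ K) (hx : 1 ≤ x)
    (h3 : 3 * x ≤ Real.exp (x / K ^ 9))
    (hll : Real.log (Real.log (3 * x)) + Real.log K ≤ Real.log x / 5) (t : ℝ) (ht : 2 ≤ t) :
    4 / 5 * Real.log (x / Real.log t) - (2 * C + 1) ≤ rs ((GG K x).filter (fun q => t < (q : ℝ))) := by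
  have hx0 : 0 < x := by linarith
  have hlt : 0 < Real.log t := Real.log_pos (by linarith)
  have hI := (abs_le.1 (rsI M1 hK hx h3)).2
  have h98 := Real.exp_le_exp.2 (div9_le_div8 hK hx0.le)
  have h8 : x / K ^ 8 ≤ x := (div8_le hK hx0.le).trans (by linarith)
  have hlow : ∀ u : ℝ, 2 ≤ u → u ≤ Real.exp x →
      Real.log (x / Real.log u) - C ≤ rs (pr u (Real.exp x)) := fun u hu hu' => by
    have := (abs_le.1 (M1 u (Real.exp x) hu hu')).1
    rw [Real.log_exp] at this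
    linarith
  have hK0 : 0 ≤ Real.log K := Real.log_nonneg (by linarith)
  rcases le_or_gt (Real.exp x) t with h1 | h1
  · have : x ≤ Real.log t := by
      rw [Real.le_log_iff_exp_le (by linarith)]; exact h1
    have h2 : Real.log (x / Real.log t) ≤ 0 :=
      Real.log_nonpos (by positivity) ((div_le_one hlt).2 this)
    have := rs_nonneg ((GG K x).filter (fun q => t < (q : ℝ)))
    linarith
  · have hlx : Real.log t ≤ x := by
      rw [Real.log_le_iff_le_exp (by linarith)]; exact h1.le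
    have h0 : 0 ≤ Real.log (x / Real.log t) := Real.log_nonneg ((one_le_div hlt).2 hlx)
    rcases le_or_gt (Real.exp (x / K ^ 8)) t with h2 | h2
    · have hs : pr t (Real.exp x) ⊆ (GG K x).filter (fun q => t < (q : ℝ)) := by
        intro q hq
        obtain ⟨a1, a2, a3⟩ := (mem_pr (by linarith)).1 hq
        refine mem_filter.2 ⟨(mem_GG hx0.le).2 ⟨⟨a1, by linarith, a3⟩, fun hq' => ?_⟩, a2⟩
        have := (mem_II.1 hq').2.2
        linarith
      have := rs_mono hs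
      have := hlow t ht h1.le
      linarith
    · rcases le_or_gt (3 * x) t with h4 | h4
      · have hs : pr t (Real.exp x) \ II K x ⊆ (GG K x).filter (fun q => t < (q : ℝ)) := by
          intro q hq
          obtain ⟨hq1, hq2⟩ := mem_sdiff.1 hq
          obtain ⟨a1, a2, a3⟩ := (mem_pr (by linarith)).1 hq1
          exact mem_filter.2 ⟨(mem_GG hx0.le).2 ⟨⟨a1, by linarith, a3⟩, hq2⟩, a2⟩
        have b1 := rs_mono hs
        have b2 := hlow t ht h1.le
        have b3 := rs_sdiff (pr t (Real.exp x)) (II K x)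
        have b4 : Real.log t ≤ x / K ^ 8 := by
          rw [Real.log_le_iff_le_exp (by linarith)]; exact h2.le
        have b5 : K ^ 8 ≤ x / Real.log t := by
          rw [le_div_iff₀ hlt]
          rw [le_div_iff₀ (by positivity)] at b4
          linarith
        have b6 : 8 * Real.log K ≤ Real.log (x / Real.log t) := by
          have := Real.log_le_log (by positivity) b5
          rw [Real.log_pow] at this
          exact_mod_cast this
        linarith
      · have hs : pr (3 * x) (Real.exp x) \ II K x ⊆ (GG K x).filter (fun q => t < (q : ℝ)) := by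
          intro q hq
          have := ((mem_GG hx0.le).1 hq).1.2.1
          exact mem_filter.2 ⟨hq, by linarith⟩
        have b1 := rs_mono hs
        have b2 := hlow (3 * x) (by linarith) (h3.trans (h98.trans (Real.exp_le_exp.2 h8)))
        have b3 := rs_sdiff (pr (3 * x) (Real.exp x)) (II K x)
        have hl3 : 0 < Real.log (3 * x) := Real.log_pos (by linarith)
        rw [Real.log_div hx0.ne' hl3.ne'] at b2
        rw [Real.log_div hx0.ne' hlt.ne']
        have b4 : -1 ≤ Real.log (Real.log t) := by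
          rw [Real.le_log_iff_exp_le hlt]
          have c1 := Real.exp_neg_one_lt_d9
          have c2 := Real.log_two_gt_d9
          have c3 := Real.log_le_log (by norm_num) ht
          linarith
        linarith

theorem cost_sum {C C2 : ℝ} (M1 : ∀ u v : ℝ, 2 ≤ u → u ≤ v →
      |rs (pr u v) - Real.log (Real.log v / Real.log u)| ≤ C)
    (M2 : ∀ y : ℝ, 1 ≤ y → |∑ p ∈ pr 0 y, Real.log p / p - Real.log y| ≤ C2)
    {G : Finset ℕ} {x γ y : ℝ} (hx : 0 < x) (hγ : 0 < γ) (hγ1 : γ ≤ 1) (hY : 2 ≤ Real.exp (γ * x))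
    (hy : 0 < y) (hG : ∀ q ∈ G, q.Prime ∧ (q : ℝ) ≤ Real.exp x) (T0 : ℕ) :
    ∑ q ∈ G, cost (Real.exp (γ * x)) y T0 q / q ≤
      (γ * x + C2) / y + (Real.log (1 / γ) + C) / T0 := by
  set Y := Real.exp (γ * x) with hYdef
  rw [← sum_filter_add_sum_filter_not G (fun q : ℕ => (q : ℝ) ≤ Y)]
  have a1 : ∑ q ∈ G.filter (fun q : ℕ => (q : ℝ) ≤ Y), cost Y y T0 q / q ≤ (γ * x + C2) / y := by
    have b1 := (abs_le.1 (M2 Y (by linarith))).2
    rw [hYdef, Real.log_exp, ← hYdef] at b1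
    calc ∑ q ∈ G.filter (fun q : ℕ => (q : ℝ) ≤ Y), cost Y y T0 q / q
        = ∑ q ∈ G.filter (fun q : ℕ => (q : ℝ) ≤ Y), Real.log q / q / y := by
          refine sum_congr rfl fun q hq => ?_
          unfold cost
          rw [if_pos (mem_filter.1 hq).2]; ring
      _ ≤ ∑ q ∈ pr 0 Y, Real.log q / q / y := by
          refine sum_le_sum_of_subset_of_nonneg (fun q hq => ?_) (fun q _ _ => ?_)
          · obtain ⟨c1, c2⟩ := mem_filter.1 hq
            have := (hG q c1).1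
            exact (mem_pr le_rfl).2 ⟨this, by exact_mod_cast this.pos, c2⟩
          · have := Real.log_natCast_nonneg q
            positivity
      _ = (∑ q ∈ pr 0 Y, Real.log q / q) / y := by rw [sum_div]
      _ ≤ (γ * x + C2) / y := by gcongr; linarith
  have a2 : ∑ q ∈ G.filter (fun q : ℕ => ¬ (q : ℝ) ≤ Y), cost Y y T0 q / q ≤
      (Real.log (1 / γ) + C) / T0 := by
    have b1 := (abs_le.1 (M1 Y (Real.exp x) hY (Real.exp_le_exp.2 (by nlinarith)))).2
    rw [hYdef, Real.log_exp, Real.log_exp, ← hYdef] at b1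
    have e : x / (γ * x) = 1 / γ := by field_simp
    rw [e] at b1
    calc ∑ q ∈ G.filter (fun q : ℕ => ¬ (q : ℝ) ≤ Y), cost Y y T0 q / q
        = ∑ q ∈ G.filter (fun q : ℕ => ¬ (q : ℝ) ≤ Y), (1 : ℝ) / q / T0 := by
          refine sum_congr rfl fun q hq => ?_
          unfold cost
          rw [if_neg (mem_filter.1 hq).2]; ring
      _ ≤ ∑ q ∈ pr Y (Real.exp x), (1 : ℝ) / q / T0 := by
          refine sum_le_sum_of_subset_of_nonneg (fun q hq => ?_) (fun q _ _ => by positivity)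
          obtain ⟨c1, c2⟩ := mem_filter.1 hq
          exact (mem_pr (by linarith)).2 ⟨(hG q c1).1, not_le.1 c2, (hG q c1).2⟩
      _ = rs (pr Y (Real.exp x)) / T0 := by unfold rs; rw [sum_div]
      _ ≤ (Real.log (1 / γ) + C) / T0 := by gcongr; linarith
  linarith

theorem rs_le_one {g : Finset ℕ} {x : ℝ} (hx : 1 ≤ x) (hg : ∀ q ∈ g, q.Prime ∧ 3 * x < (q : ℝ))
    (h : (pv g : ℝ) ≤ Real.exp (3 * x)) : rs g ≤ 1 := by
  have hp : ∀ q ∈ g, q.Prime := fun q hq => (hg q hq).1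
  have h0 : (0 : ℝ) < pv g := by exact_mod_cast pv_pos hp
  have h1 : ∑ q ∈ g, Real.log q ≤ 3 * x := by
    rw [← log_pv hp, Real.log_le_iff_le_exp h0]; exact h
  calc rs g ≤ ∑ q ∈ g, Real.log q / (3 * x) := by
        refine sum_le_sum fun q hq => ?_
        have a1 := (hg q hq).2
        have a2 : 1 ≤ Real.log q := by
          rw [Real.le_log_iff_exp_le (by linarith)]
          have := Real.exp_one_lt_d9
          linarith
        gcongr
    _ = (∑ q ∈ g, Real.log q) / (3 * x) := by rw [sum_div]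
    _ ≤ 1 := by rw [div_le_one (by linarith)]; exact h1

theorem mass (I G : Finset ℕ) {x C0 cF ε : ℝ} (hx : 0 < x) (hε : 0 < ε) {J a : ℕ} (hJ0 : 0 < J)
    (hJ : C0 < (1 + ε) ^ J) (ha : 0 < a) (hC0 : 0 < C0)
    (hI : ∀ p ∈ I, C0 ≤ (p : ℝ) ∧ (p : ℝ) ≤ Real.exp (x / 4))
    (hF : ∀ s : ℝ, Real.exp (3 * x / 4) ≤ s → C0 * s ≤ Real.exp x → cF * Zc G / x ≤
      ∑ g ∈ G.powerset.filter (fun g => s < (pv g : ℝ) ∧ (pv g : ℝ) ≤ C0 * s),
        (63 : ℝ) ^ g.card / pv g) :
    ∃ (j c0 : ℕ) (E : Finset (ℕ × Finset ℕ)), j < J ∧ E ⊆ I ×ˢ G.powerset ∧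
      (∀ e ∈ E, Real.exp x * (1 + ε) ^ j ≤ ((e.1 * pv e.2 : ℕ) : ℝ) ∧
        ((e.1 * pv e.2 : ℕ) : ℝ) < (1 + ε) * (Real.exp x * (1 + ε) ^ j)) ∧
      (∀ e ∈ E, e.1 * pv e.2 ≡ c0 [MOD a]) ∧
      cF / (J * a) * rs I ≤ ∑ e ∈ E, wt G x e.2 / ((e.1 * pv e.2 : ℕ) : ℝ) := by
  have hz := Zc_pos G
  have hE := Real.exp_pos x
  have hex : ∀ z : ℝ, ∃ n : ℕ, 1 ≤ z → (1 + ε) ^ n ≤ z ∧ z < (1 + ε) ^ (n + 1) := fun z => by
    by_cases h : 1 ≤ z
    · obtain ⟨n, hn⟩ := exists_nat_pow_near h (by linarith : 1 < 1 + ε)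
      exact ⟨n, fun _ => hn⟩
    · exact ⟨0, fun h' => absurd h' h⟩
  choose idx hidx using hex
  set E0 := (I ×ˢ G.powerset).filter (fun e : ℕ × Finset ℕ =>
    Real.exp x < ((e.1 * pv e.2 : ℕ) : ℝ) ∧ ((e.1 * pv e.2 : ℕ) : ℝ) ≤ C0 * Real.exp x) with hE0
  have htot : cF * rs I ≤ ∑ e ∈ E0, wt G x e.2 / ((e.1 * pv e.2 : ℕ) : ℝ) := by
    rw [hE0, sum_filter, sum_product]
    unfold rs
    rw [mul_sum]
    refine sum_le_sum fun p hp => ?_
    obtain ⟨p1, p2⟩ := hI p hp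
    have p0 : (0 : ℝ) < p := by linarith
    have s1 : Real.exp (3 * x / 4) ≤ Real.exp x / p := by
      rw [le_div_iff₀ p0]
      calc Real.exp (3 * x / 4) * p ≤ Real.exp (3 * x / 4) * Real.exp (x / 4) := by gcongr
        _ = Real.exp x := by rw [← Real.exp_add]; ring_nf
    have s2 : C0 * (Real.exp x / p) ≤ Real.exp x := by
      rw [← mul_div_assoc, div_le_iff₀ p0]
      nlinarith
    have h1 := hF _ s1 s2
    calc cF * (1 / (p : ℝ)) = x / Zc G / p * (cF * Zc G / x) := by field_simp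
      _ ≤ x / Zc G / p * ∑ g ∈ G.powerset.filter (fun g => Real.exp x / p < (pv g : ℝ) ∧
            (pv g : ℝ) ≤ C0 * (Real.exp x / p)), (63 : ℝ) ^ g.card / pv g := by gcongr
      _ = _ := by
          rw [mul_sum, sum_filter]
          refine sum_congr rfl fun g _ => ?_
          have e1 : (Real.exp x / p < (pv g : ℝ) ∧ (pv g : ℝ) ≤ C0 * (Real.exp x / p)) ↔
              (Real.exp x < ((p * pv g : ℕ) : ℝ) ∧ ((p * pv g : ℕ) : ℝ) ≤ C0 * Real.exp x) := by
            rw [div_lt_iff₀ p0, ← mul_div_assoc, le_div_iff₀ p0, Nat.cast_mul, mul_comm (p : ℝ)]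
          simp only [e1]
          split_ifs
          · unfold wt
            rw [Nat.cast_mul]; ring
          · rfl
  have hmaps : ∀ e ∈ E0, (idx (((e.1 * pv e.2 : ℕ) : ℝ) / Real.exp x), (e.1 * pv e.2) % a) ∈
      range J ×ˢ range a := fun e he => by
    obtain ⟨_, e1, e2⟩ := mem_filter.1 he
    refine mem_product.2 ⟨mem_range.2 ?_, mem_range.2 (Nat.mod_lt _ ha)⟩
    have b1 := (hidx _ ((one_le_div hE).2 e1.le)).1
    have b2 : ((e.1 * pv e.2 : ℕ) : ℝ) / Real.exp x ≤ C0 := (div_le_iff₀ hE).2 e2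
    exact (pow_lt_pow_iff_right₀ (by linarith : 1 < 1 + ε)).1 (b1.trans_lt (b2.trans_lt hJ))
  have hne : (range J ×ˢ range a).Nonempty :=
    ⟨(0, 0), mem_product.2 ⟨mem_range.2 hJ0, mem_range.2 ha⟩⟩
  have hb : (range J ×ˢ range a).card • (cF / (J * a) * rs I) ≤
      ∑ e ∈ E0, wt G x e.2 / ((e.1 * pv e.2 : ℕ) : ℝ) := by
    rw [card_product, card_range, card_range, nsmul_eq_mul, Nat.cast_mul]
    have j0 : (0 : ℝ) < J := by exact_mod_cast hJ0
    have a0 : (0 : ℝ) < a := by exact_mod_cast ha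
    calc (J : ℝ) * a * (cF / (J * a) * rs I) = cF * rs I := by field_simp
      _ ≤ _ := htot
  obtain ⟨⟨j, c0⟩, hy, hsum⟩ := exists_le_sum_fiber_of_maps_to_of_nsmul_le_sum hmaps hne hb
  refine ⟨j, c0, _, mem_range.1 (mem_product.1 hy).1, ?_, ?_, ?_, hsum⟩
  · exact (filter_subset _ _).trans (filter_subset _ _)
  · intro e he
    obtain ⟨he0, he1⟩ := mem_filter.1 he
    obtain ⟨_, e1, _⟩ := mem_filter.1 he0
    have b1 := hidx _ ((one_le_div hE).2 e1.le)
    have b2 : idx (((e.1 * pv e.2 : ℕ) : ℝ) / Real.exp x) = j := (Prod.mk.inj he1).1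
    rw [b2, le_div_iff₀ hE, div_lt_iff₀ hE, pow_succ] at b1
    constructor
    · linarith [b1.1]
    · linarith [b1.2]
  · intro e he
    obtain ⟨_, he1⟩ := mem_filter.1 he
    have b2 : (e.1 * pv e.2) % a = c0 := (Prod.mk.inj he1).2
    rw [← b2]
    exact (Nat.mod_modEq _ _).symm

theorem ev_exp_log (B : ℝ) {c r : ℝ} (hc : 0 < c) (hr : 0 < r) :
    ∀ᶠ x : ℝ in atTop, B * Real.exp (-(c * Real.log x)) ≤ r := by
  have h1 : Tendsto (fun x : ℝ => c * Real.log x) atTop atTop :=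
    Real.tendsto_log_atTop.const_mul_atTop hc
  have h2 : Tendsto (fun x : ℝ => B * Real.exp (-(c * Real.log x))) atTop (nhds (B * 0)) :=
    (Real.tendsto_exp_neg_atTop_nhds_zero.comp h1).const_mul B
  rw [mul_zero] at h2
  exact h2.eventually (eventually_le_nhds hr)

theorem ev_lin (B : ℝ) {κ : ℝ} (hκ : 0 < κ) : ∀ᶠ x : ℝ in atTop, B * x ≤ Real.exp (x / κ) := by
  filter_upwards [eventually_ge_atTop (2 * B * κ ^ 2), eventually_ge_atTop 0] with x h1 h2
  have h3 := Real.quadratic_le_exp_of_nonneg (x := x / κ) (by positivity)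
  have h4 : B * x ≤ (x / κ) ^ 2 / 2 := by
    rw [div_pow, div_div, le_div_iff₀ (by positivity)]
    nlinarith
  have h5 : 0 ≤ x / κ := by positivity
  linarith

theorem ev_loglog (B : ℝ) :
    ∀ᶠ x : ℝ in atTop, Real.log (Real.log (3 * x)) + B ≤ Real.log x / 5 := by
  filter_upwards [Real.tendsto_log_atTop.eventually (eventually_ge_atTop (10 * B + 200)),
    Real.tendsto_log_atTop.eventually (eventually_ge_atTop 2), eventually_ge_atTop 1] with x h1 h2 h3
  have a1 : Real.log (3 * x) ≤ 2 * Real.log x := by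
    rw [Real.log_mul (by norm_num) (by linarith)]
    have := Real.log_le_sub_one_of_pos (x := 3) (by norm_num)
    linarith
  have a0 : 0 < Real.log (3 * x) := Real.log_pos (by linarith)
  have a2 : Real.log (Real.log (3 * x)) ≤ Real.log (20 * (Real.log x / 10)) :=
    Real.log_le_log a0 (by linarith)
  rw [Real.log_mul (x := 20) (by norm_num) (by linarith)] at a2
  have a3 := Real.log_le_sub_one_of_pos (x := 20) (by norm_num)
  have a4 := Real.log_le_sub_one_of_pos (x := Real.log x / 10) (by linarith)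
  linarith

end Pool.Agent.P.MP_a14ce1_nt.Ch.SysP
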