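import Pool.Agent.P.MP_a14ce1_nt.Ch.Defs

/-! Trace lemma, part A: linear algebra and averages over residues. -/

open Finset

namespace Pool.Agent.P.MP_a14ce1_nt.Ch.Trace

section LinAlg
variable {ι : Type} [Fintype ι] [DecidableEq ι]

lemma sa_pow (V : ι → ℝ) (M : Matrix ι ι ℝ) (h : ∀ v w, V v * M v w = V w * M w v) (n : ℕ) :
    ∀ v w, V v * (M ^ n) v w = V w * (M ^ n) w v := by
  induction n with
  | zero =>
    intro v w
    by_cases hvw : v = w
    · subst hvw; rfl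
    · simp [hvw, Ne.symm hvw]
  | succ n ih =>
    intro v w
    conv_lhs => rw [pow_succ']
    conv_rhs => rw [pow_succ]
    rw [Matrix.mul_apply, Matrix.mul_apply, mul_sum, mul_sum]
    refine sum_congr rfl fun u _ => ?_
    calc V v * (M v u * (M ^ n) u w) = (V v * M v u) * (M ^ n) u w := by ring
      _ = M u v * (V u * (M ^ n) u w) := by rw [h]; ring
      _ = V w * ((M ^ n) w u * M u v) := by rw [ih]; ring

omit [DecidableEq ι] in
lemma sa_form (V : ι → ℝ) (P : Matrix ι ι ℝ) (h : ∀ v w, V v * P v w = V w * P w v)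
    (f g : ι → ℝ) : ∑ v, V v * f v * P.mulVec g v = ∑ v, V v * P.mulVec f v * g v := by
  simp only [Matrix.mulVec, dotProduct, mul_sum, sum_mul]
  rw [sum_comm]
  refine sum_congr rfl fun v _ => sum_congr rfl fun w _ => ?_
  calc V w * f w * (P w v * g v) = (V w * P w v) * f w * g v := by ring
    _ = V v * (P v w * f w) * g v := by rw [h]; ring

omit [DecidableEq ι] in
lemma cs (V : ι → ℝ) (hV : ∀ v, 0 < V v) (f g : ι → ℝ) :
    (∑ v, V v * f v * g v) ^ 2 ≤ (∑ v, V v * f v * f v) * ∑ v, V v * g v * g v := by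
  refine sum_sq_le_sum_mul_sum_of_sq_le_mul _ (fun v _ => ?_) (fun v _ => ?_) fun v _ => ?_
  · rw [mul_assoc]; exact mul_nonneg (hV v).le (mul_self_nonneg _)
  · rw [mul_assoc]; exact mul_nonneg (hV v).le (mul_self_nonneg _)
  · exact le_of_eq (by ring)

lemma form_double (V : ι → ℝ) (M : Matrix ι ι ℝ) (h : ∀ v w, V v * M v w = V w * M w v) (n : ℕ)
    (F : ι → ℝ) : ∑ v, V v * F v * (M ^ (2 * n)).mulVec F v =
      ∑ v, V v * (M ^ n).mulVec F v * (M ^ n).mulVec F v := by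
  rw [two_mul, pow_add, ← Matrix.mulVec_mulVec, sa_form V _ (sa_pow V M h n)]

lemma trace_eq (V : ι → ℝ) (hV : ∀ v, 0 < V v) (M : Matrix ι ι ℝ)
    (h : ∀ v w, V v * M v w = V w * M w v) (n : ℕ) :
    ∑ v, (M ^ (2 * n)) v v = ∑ v, V v * ∑ w, ((M ^ n) v w) ^ 2 / V w := by
  refine sum_congr rfl fun v _ => ?_
  rw [two_mul, pow_add, Matrix.mul_apply, mul_sum]
  refine sum_congr rfl fun w _ => ?_
  have := sa_pow V M h n v w
  have hw := (hV w).ne'
  field_simp
  linear_combination (-(M ^ n) v w) * this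

lemma trace_nonneg (V : ι → ℝ) (hV : ∀ v, 0 < V v) (M : Matrix ι ι ℝ)
    (h : ∀ v w, V v * M v w = V w * M w v) (n : ℕ) : 0 ≤ ∑ v, (M ^ (2 * n)) v v := by
  rw [trace_eq V hV M h]
  exact sum_nonneg fun v _ => mul_nonneg (hV v).le
    (sum_nonneg fun w _ => div_nonneg (sq_nonneg _) (hV w).le)

lemma form_le_trace (V : ι → ℝ) (hV : ∀ v, 0 < V v) (M : Matrix ι ι ℝ)
    (h : ∀ v w, V v * M v w = V w * M w v) (F : ι → ℝ) (i : ℕ) :
    |∑ v, V v * F v * M.mulVec F v| ^ (2 * 2 ^ i) ≤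
      (∑ v, V v * F v * F v) ^ (2 * 2 ^ i) * ∑ v, (M ^ (2 * 2 ^ i)) v v := by
  set S := ∑ v, V v * F v * F v with hS
  have hS0 : 0 ≤ S := sum_nonneg fun v _ => by
    rw [mul_assoc]; exact mul_nonneg (hV v).le (mul_self_nonneg _)
  have key : ∀ k : ℕ, S * |∑ v, V v * F v * M.mulVec F v| ^ (2 ^ k) ≤
      S ^ (2 ^ k) * |∑ v, V v * F v * (M ^ (2 ^ k)).mulVec F v| := by
    intro k
    induction k with
    | zero => simp
    | succ k ih =>
      have h1 := cs V hV F ((M ^ (2 ^ k)).mulVec F)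
      rw [← form_double V M h, ← hS] at h1
      have h2 : (S * |∑ v, V v * F v * M.mulVec F v| ^ (2 ^ k)) ^ 2 ≤
          (S ^ (2 ^ k) * |∑ v, V v * F v * (M ^ (2 ^ k)).mulVec F v|) ^ 2 :=
        pow_le_pow_left₀ (by positivity) ih 2
      rw [mul_pow, mul_pow, sq_abs, ← pow_mul, ← pow_mul, ← pow_succ] at h2
      rw [show 2 * 2 ^ k = 2 ^ (k + 1) by ring] at h1
      rcases hS0.eq_or_lt with h0 | h0
      · rw [← h0]; simp
      · refine le_of_mul_le_mul_left ?_ h0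
        calc S * (S * |∑ v, V v * F v * M.mulVec F v| ^ 2 ^ (k + 1))
            = S ^ 2 * |∑ v, V v * F v * M.mulVec F v| ^ 2 ^ (k + 1) := by ring
          _ ≤ S ^ 2 ^ (k + 1) * (S * ∑ v, V v * F v * (M ^ (2 ^ (k + 1))).mulVec F v) :=
            h2.trans (mul_le_mul_of_nonneg_left h1 (by positivity))
          _ ≤ S ^ 2 ^ (k + 1) * (S * |∑ v, V v * F v * (M ^ (2 ^ (k + 1))).mulVec F v|) := by
            gcongr; exact le_abs_self _
          _ = _ := by ring
  have h3 : ∑ v, V v * F v * (M ^ (2 * 2 ^ i)).mulVec F v ≤ S * ∑ v, (M ^ (2 * 2 ^ i)) v v := by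
    rw [form_double V M h, trace_eq V hV M h, mul_sum]
    refine sum_le_sum fun v _ => ?_
    have : ((M ^ 2 ^ i).mulVec F v) ^ 2 ≤ (∑ w, ((M ^ 2 ^ i) v w) ^ 2 / V w) * S := by
      refine sum_sq_le_sum_mul_sum_of_sq_le_mul _ (fun w _ => div_nonneg (sq_nonneg _) (hV w).le)
        (fun w _ => ?_) fun w _ => le_of_eq ?_
      · rw [mul_assoc]; exact mul_nonneg (hV w).le (mul_self_nonneg _)
      · have := (hV w).ne'
        field_simp
    nlinarith [mul_le_mul_of_nonneg_left this (hV v).le]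
  have h4 : 0 ≤ ∑ v, V v * F v * (M ^ (2 * 2 ^ i)).mulVec F v := by
    rw [form_double V M h]
    exact sum_nonneg fun v _ => by rw [mul_assoc]; exact mul_nonneg (hV v).le (mul_self_nonneg _)
  have h5 := key (i + 1)
  rw [show 2 ^ (i + 1) = 2 * 2 ^ i by ring, abs_of_nonneg h4] at h5
  rcases hS0.eq_or_lt with h0 | h0
  · have h6 := cs V hV F (M.mulVec F)
    rw [← hS, ← h0, zero_mul] at h6
    have h7 : ∑ v, V v * F v * M.mulVec F v = 0 := by nlinarith [sq_nonneg (∑ v, V v * F v * M.mulVec F v)]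
    rw [h7, ← h0]; simp
  · refine le_of_mul_le_mul_left (h5.trans ?_) h0
    calc S ^ (2 * 2 ^ i) * ∑ v, V v * F v * (M ^ (2 * 2 ^ i)).mulVec F v
        ≤ S ^ (2 * 2 ^ i) * (S * ∑ v, (M ^ (2 * 2 ^ i)) v v) := by gcongr
      _ = _ := by ring

end LinAlg

lemma root_bound {y S T τ : ℝ} {n : ℕ} (hn : n ≠ 0) (hy : 0 ≤ y) (hS : 0 ≤ S) (hT : 0 ≤ T)
    (hτ : 0 < τ) (h : y ^ n ≤ S ^ n * T) : y ≤ S * τ * (1 + T / τ ^ n) := by
  rcases hS.eq_or_lt with h0 | h0
  · rw [← h0, zero_pow hn, zero_mul] at h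
    have : y = 0 := (pow_eq_zero_iff hn).1 (le_antisymm h (by positivity))
    rw [this, ← h0]; simp
  have hd : 0 ≤ T / τ ^ n := by positivity
  have hp : 0 < S * τ := by positivity
  rcases le_or_gt y (S * τ) with h1 | h1
  · nlinarith
  · have h2 : 1 ≤ y / (S * τ) := (one_le_div hp).2 h1.le
    have h3 : y / (S * τ) ≤ (y / (S * τ)) ^ n := le_self_pow₀ h2 hn
    have h4 : (y / (S * τ)) ^ n ≤ T / τ ^ n := by
      rw [div_pow, mul_pow, div_le_div_iff₀ (by positivity) (by positivity)]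
      nlinarith [pow_pos hτ n]
    have h5 : y ≤ S * τ * (T / τ ^ n) := by
      have := (div_le_iff₀ hp).1 (h3.trans h4)
      linarith
    nlinarith

lemma sum_crt {p q : ℕ} (hpq : p.Coprime q) (hp : p ≠ 0) (hq : q ≠ 0) (a b : ℕ → ℝ)
    (ha : ∀ x, a (x % p) = a x) (hb : ∀ x, b (x % q) = b x) :
    ∑ x ∈ range (p * q), a x * b x = (∑ r ∈ range p, a r) * ∑ s ∈ range q, b s := by
  rw [sum_mul_sum, ← sum_product']
  refine sum_bij' (fun x _ => (x % p, x % q)) (fun r _ => (Nat.chineseRemainder hpq r.1 r.2 : ℕ))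
    ?_ ?_ ?_ ?_ ?_
  · intro x _
    simp [Nat.mod_lt _ (Nat.pos_of_ne_zero hp), Nat.mod_lt _ (Nat.pos_of_ne_zero hq)]
  · intro r _
    exact mem_range.2 (Nat.chineseRemainder_lt_mul hpq _ _ hp hq)
  · intro x hx
    have h := (Nat.chineseRemainder hpq (x % p) (x % q)).2
    have h1 : (Nat.chineseRemainder hpq (x % p) (x % q) : ℕ) ≡ x [MOD p * q] :=
      (Nat.modEq_and_modEq_iff_modEq_mul hpq).1
        ⟨h.1.trans (Nat.mod_modEq _ _), h.2.trans (Nat.mod_modEq _ _)⟩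
    exact Nat.ModEq.eq_of_lt_of_lt h1 (Nat.chineseRemainder_lt_mul hpq _ _ hp hq) (mem_range.1 hx)
  · intro r hr
    have h := (Nat.chineseRemainder hpq r.1 r.2).2
    simp only [mem_product, mem_range] at hr
    ext
    · exact Eq.trans (show _ % p = _ % p from h.1) (Nat.mod_eq_of_lt hr.1)
    · exact Eq.trans (show _ % q = _ % q from h.2) (Nat.mod_eq_of_lt hr.2)
  · intro x _
    simp [ha, hb]

lemma sum_prod_crt (I : Finset ℕ) (hI : ∀ p ∈ I, p.Prime) (a : ℕ → ℕ → ℝ)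
    (ha : ∀ p x, a p (x % p) = a p x) :
    ∑ x ∈ range (pv I), ∏ p ∈ I, a p x = ∏ p ∈ I, ∑ r ∈ range p, a p r := by
  classical
  induction I using Finset.induction_on with
  | empty => simp [pv]
  | insert p I hp ih =>
    have hpp := hI p (mem_insert_self _ _)
    have hI' : ∀ q ∈ I, q.Prime := fun q hq => hI q (mem_insert_of_mem hq)
    have hco : p.Coprime (pv I) := Nat.Coprime.prod_right fun q hq =>
      (Nat.coprime_primes hpp (hI' q hq)).2 fun h => hp (h ▸ hq)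
    have h0 : pv I ≠ 0 := prod_ne_zero_iff.2 fun q hq => (hI' q hq).ne_zero
    have e : pv (insert p I) = p * pv I := prod_insert hp
    simp only [prod_insert hp]
    rw [e, sum_crt hco hpp.ne_zero h0 (a p) (fun x => ∏ q ∈ I, a q x) (ha p), ih hI']
    intro x
    refine prod_congr rfl fun q hq => ?_
    rw [← ha q (x % pv I), Nat.mod_mod_of_dvd _ (show q ∣ pv I from dvd_prod_of_mem _ hq), ha]

lemma sum_ind {p : ℕ} (hp : p ≠ 0) (a : ℤ) :
    ∃ r0 ∈ range p, ∀ r ∈ range p, ((p : ℤ) ∣ r + a ↔ r = r0) := by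
  have hp' : (0 : ℤ) < p := by exact_mod_cast Nat.pos_of_ne_zero hp
  have h1 := Int.emod_nonneg (-a) hp'.ne'
  have h2 := Int.emod_lt_of_pos (-a) hp'
  refine ⟨((-a) % p).toNat, mem_range.2 (by omega), fun r hr => ?_⟩
  rw [mem_range] at hr
  have h3 : (p : ℤ) ∣ (-a) % p + a := by
    have := Int.emod_add_mul_ediv (-a) p
    exact ⟨-((-a) / p), by linear_combination this⟩
  constructor
  · intro h
    have h4 : (p : ℤ) ∣ r - (-a) % p := by
      have := dvd_sub h h3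
      simpa using this
    have h5 : (r : ℤ) - (-a) % p = 0 := Int.eq_zero_of_abs_lt_dvd h4 (by rw [abs_lt]; omega)
    omega
  · rintro rfl
    rwa [Int.toNat_of_nonneg h1]

end Pool.Agent.P.MP_a14ce1_nt.Ch.Trace
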