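import Pool.Agent.P.MP_a14ce1_nt.Ch.TraceA

/-! Trace lemma, part B: the average of a product of centred indicators along a history. -/

open Finset

namespace Pool.Agent.P.MP_a14ce1_nt.Ch.Trace

variable {ι : Type}

/-- centred indicator attached to a step -/
noncomputable def cc (pos : ι → ℤ) (x : ℕ) (s : ℕ × ι) : ℝ :=
  (if (s.1 : ℤ) ∣ x + pos s.2 then 1 else 0) - 1 / (s.1 : ℝ)

/-- product of the centred indicators along a history -/
noncomputable def cp (pos : ι → ℤ) (x : ℕ) : List (ℕ × ι) → ℝ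
  | [] => 1
  | s :: t => cc pos x s * cp pos x t

/-- the factors of `cp` that belong to the prime p -/
noncomputable def ap (pos : ι → ℤ) (p x : ℕ) : List (ℕ × ι) → ℝ
  | [] => 1
  | s :: t => (if s.1 = p then cc pos x s else 1) * ap pos p x t

open Classical in
/-- the cost of a step after the history t -/
noncomputable def ph (pos : ι → ℤ) (s : ℕ × ι) (t : List (ℕ × ι)) : ℝ :=
  2 / (s.1 : ℝ) + if ∃ u ∈ t, u.1 = s.1 ∧ pos u.2 ≡ pos s.2 [ZMOD s.1] then 1 else 0

/-- total cost -/
noncomputable def Ph (pos : ι → ℤ) : List (ℕ × ι) → ℝ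
  | [] => 1
  | s :: t => ph pos s t * Ph pos t

/-- cost of the steps with prime p -/
noncomputable def Pp (pos : ι → ℤ) (p : ℕ) : List (ℕ × ι) → ℝ
  | [] => 1
  | s :: t => (if s.1 = p then ph pos s t else 1) * Pp pos p t

/-- reduced cost of a step -/
noncomputable def ph' (pos : ι → ℤ) (L : ℝ) (s : ℕ × ι) (t : List (ℕ × ι)) : ℝ :=
  if s.1 ∈ t.map Prod.fst then ph pos s t else ph pos s t / L

/-- total reduced cost -/
noncomputable def Ph' (pos : ι → ℤ) (L : ℝ) : List (ℕ × ι) → ℝ
  | [] => 1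
  | s :: t => ph' pos L s t * Ph' pos L t

lemma ph_nonneg (pos : ι → ℤ) (s : ℕ × ι) (t : List (ℕ × ι)) : 0 ≤ ph pos s t := by
  unfold ph; split_ifs <;> positivity

lemma ph'_nonneg (pos : ι → ℤ) {L : ℝ} (hL : 0 ≤ L) (s : ℕ × ι) (t : List (ℕ × ι)) :
    0 ≤ ph' pos L s t := by
  have := ph_nonneg pos s t
  unfold ph'; split_ifs <;> positivity

lemma Ph'_nonneg (pos : ι → ℤ) {L : ℝ} (hL : 0 ≤ L) (h : List (ℕ × ι)) : 0 ≤ Ph' pos L h := by
  induction h with
  | nil => exact zero_le_one
  | cons s t ih => exact mul_nonneg (ph'_nonneg pos hL s t) ih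

lemma Pp_nonneg (pos : ι → ℤ) (p : ℕ) (h : List (ℕ × ι)) : 0 ≤ Pp pos p h := by
  induction h with
  | nil => exact zero_le_one
  | cons s t ih =>
    refine mul_nonneg ?_ ih
    split_ifs
    · exact ph_nonneg pos s t
    · exact zero_le_one

lemma cp_eq (pos : ι → ℤ) (x : ℕ) (I : Finset ℕ) (h : List (ℕ × ι)) (hI : ∀ s ∈ h, s.1 ∈ I) :
    cp pos x h = ∏ p ∈ I, ap pos p x h := by
  induction h with
  | nil => simp [cp, ap]
  | cons s t ih =>
    simp only [cp, ap]
    rw [prod_mul_distrib, ← ih fun u hu => hI u (List.mem_cons_of_mem _ hu), prod_ite_eq,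
      if_pos (hI s List.mem_cons_self)]

lemma Ph_eq (pos : ι → ℤ) (I : Finset ℕ) (h : List (ℕ × ι)) (hI : ∀ s ∈ h, s.1 ∈ I) :
    Ph pos h = ∏ p ∈ I, Pp pos p h := by
  induction h with
  | nil => simp [Ph, Pp]
  | cons s t ih =>
    simp only [Ph, Pp]
    rw [prod_mul_distrib, ← ih fun u hu => hI u (List.mem_cons_of_mem _ hu), prod_ite_eq,
      if_pos (hI s List.mem_cons_self)]

lemma ap_mod (pos : ι → ℤ) (p x : ℕ) (h : List (ℕ × ι)) : ap pos p (x % p) h = ap pos p x h := by
  induction h with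
  | nil => rfl
  | cons s t ih =>
    simp only [ap]
    rw [ih]
    congr 1
    split_ifs with hs
    · have e : ((s.1 : ℤ) ∣ ((x % p : ℕ) : ℤ) + pos s.2) ↔ (s.1 : ℤ) ∣ x + pos s.2 := by
        rw [hs]
        have h1 : ((x % p : ℕ) : ℤ) + pos s.2 ≡ x + pos s.2 [ZMOD p] := by
          push_cast
          exact (Int.mod_modEq _ _).add_right _
        exact ⟨fun h => Int.modEq_zero_iff_dvd.1 (h1.symm.trans (Int.modEq_zero_iff_dvd.2 h)),
          fun h => Int.modEq_zero_iff_dvd.1 (h1.trans (Int.modEq_zero_iff_dvd.2 h))⟩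
      simp only [cc, e]
    · rfl

lemma abs_cc_le (pos : ι → ℤ) (x : ℕ) (s : ℕ × ι) (hs : s.1 ≠ 0) : |cc pos x s| ≤ 1 := by
  have h1 : (1 : ℝ) ≤ s.1 := by exact_mod_cast Nat.pos_of_ne_zero hs
  have h2 : 1 / (s.1 : ℝ) ≤ 1 := (div_le_one (by linarith)).2 h1
  have h3 : 0 ≤ 1 / (s.1 : ℝ) := by positivity
  unfold cc
  split_ifs <;> rw [abs_le] <;> constructor <;> linarith

lemma single (pos : ι → ℤ) {p : ℕ} (hp : p ≠ 0) (h : List (ℕ × ι)) :
    (∀ r : ℕ, (∀ u ∈ h, u.1 = p → ¬ (p : ℤ) ∣ r + pos u.2) → |ap pos p r h| ≤ Pp pos p h) ∧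
    ∑ r ∈ range p, |ap pos p r h| ≤ p * Pp pos p h := by
  have hp' : (0 : ℝ) < p := by exact_mod_cast Nat.pos_of_ne_zero hp
  induction h with
  | nil => simp [ap, Pp]
  | cons s t ih =>
    obtain ⟨ih1, ih2⟩ := ih
    have hP := Pp_nonneg pos p t
    by_cases hs : s.1 = p
    · simp only [ap, Pp, if_pos hs, abs_mul]
      refine ⟨fun r hr => ?_, ?_⟩
      · refine mul_le_mul ?_ (ih1 r fun u hu => hr u (List.mem_cons_of_mem _ hu)) (abs_nonneg _)
          (ph_nonneg pos s t)
        have h1 := hr s List.mem_cons_self hs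
        unfold cc ph
        rw [hs, if_neg h1, zero_sub, abs_neg, abs_of_nonneg (by positivity)]
        have h2 : 1 / (p : ℝ) ≤ 2 / p := by gcongr; norm_num
        split_ifs <;> linarith
      · by_cases hc : ∃ u ∈ t, u.1 = s.1 ∧ pos u.2 ≡ pos s.2 [ZMOD s.1]
        · have h1 : 1 ≤ ph pos s t := by
            unfold ph; rw [if_pos hc]
            have : 0 ≤ 2 / (s.1 : ℝ) := by positivity
            linarith
          calc ∑ r ∈ range p, |cc pos r s| * |ap pos p r t| ≤ ∑ r ∈ range p, |ap pos p r t| :=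
                sum_le_sum fun r _ => mul_le_of_le_one_left (abs_nonneg _)
                  (abs_cc_le pos r s (hs ▸ hp))
            _ ≤ p * Pp pos p t := ih2
            _ ≤ _ := by gcongr; exact le_mul_of_one_le_left hP h1
        · obtain ⟨r0, hr0, h0⟩ := sum_ind hp (pos s.2)
          have h1 : |ap pos p r0 t| ≤ Pp pos p t := by
            refine ih1 r0 fun u hu hu1 hd => hc ⟨u, hu, hu1.trans hs.symm, ?_⟩
            have h2 := (h0 r0 hr0).2 rfl
            rw [hs]
            refine (Int.modEq_iff_dvd.2 ?_)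
            simpa using dvd_sub h2 hd
          have h2 : ph pos s t = 2 / p := by unfold ph; rw [if_neg hc, hs, add_zero]
          calc ∑ r ∈ range p, |cc pos r s| * |ap pos p r t|
              ≤ ∑ r ∈ range p, ((if r = r0 then |ap pos p r t| else 0) + 1 / p * |ap pos p r t|) := by
                refine sum_le_sum fun r hr => ?_
                have h3 := abs_nonneg (ap pos p r t)
                have h4 : 0 < 1 / (p : ℝ) := by positivity
                unfold cc
                rw [hs]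
                by_cases h5 : r = r0
                · rw [if_pos ((h0 r hr).2 h5), if_pos h5]
                  have : |1 - 1 / (p : ℝ)| ≤ 1 + 1 / p := by
                    rw [abs_le]; constructor <;> linarith
                  nlinarith
                · rw [if_neg (fun h => h5 ((h0 r hr).1 h)), if_neg h5, zero_sub, abs_neg,
                    abs_of_pos h4, zero_add]
            _ = |ap pos p r0 t| + 1 / p * ∑ r ∈ range p, |ap pos p r t| := by
                rw [sum_add_distrib, sum_ite_eq', if_pos hr0, mul_sum]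
            _ ≤ Pp pos p t + 1 / p * (p * Pp pos p t) := by gcongr
            _ = _ := by rw [h2]; field_simp; ring
    · simp only [ap, Pp, if_neg hs, one_mul]
      exact ⟨fun r hr => ih1 r fun u hu => hr u (List.mem_cons_of_mem _ hu), ih2⟩

lemma ap_of_notMem (pos : ι → ℤ) (p x : ℕ) (h : List (ℕ × ι)) (hp : p ∉ h.map Prod.fst) :
    ap pos p x h = 1 := by
  induction h with
  | nil => rfl
  | cons s t ih =>
    simp only [List.map_cons, List.mem_cons, not_or] at hp
    simp only [ap]
    rw [ih hp.2, if_neg (Ne.symm hp.1), one_mul]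

lemma sum_ap_zero (pos : ι → ℤ) {p : ℕ} (hp : p ≠ 0) (h : List (ℕ × ι))
    (hc : (h.map Prod.fst).count p = 1) : ∑ r ∈ range p, ap pos p r h = 0 := by
  induction h with
  | nil => simp at hc
  | cons s t ih =>
    by_cases hs : s.1 = p
    · have h1 : p ∉ t.map Prod.fst := by
        rw [List.map_cons, hs, List.count_cons_self] at hc
        exact List.count_eq_zero.1 (by omega)
      simp only [ap, if_pos hs, ap_of_notMem pos p _ t h1, mul_one]
      obtain ⟨r0, hr0, h0⟩ := sum_ind hp (pos s.2)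
      have hp' : (p : ℝ) ≠ 0 := by exact_mod_cast hp
      have : ∀ r ∈ range p, cc pos r s = (if r = r0 then 1 else 0) - 1 / (p : ℝ) := by
        intro r hr
        unfold cc
        rw [hs]
        simp only [h0 r hr]
      rw [sum_congr rfl this, sum_sub_distrib, sum_ite_eq', if_pos hr0]
      simp [hp']
    · rw [List.map_cons, List.count_cons_of_ne hs] at hc
      simp only [ap, if_neg hs, one_mul]
      exact ih hc

lemma Ph_eq_pow (pos : ι → ℤ) {L : ℝ} (hL : L ≠ 0) (h : List (ℕ × ι)) :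
    Ph pos h = L ^ (h.map Prod.fst).toFinset.card * Ph' pos L h := by
  induction h with
  | nil => simp [Ph, Ph']
  | cons s t ih =>
    simp only [Ph, Ph', ph', List.map_cons, List.toFinset_cons]
    rw [ih]
    split_ifs with hs
    · rw [insert_eq_of_mem (List.mem_toFinset.2 hs)]; ring
    · rw [card_insert_of_notMem (fun h => hs (List.mem_toFinset.1 h))]
      field_simp
      ring

lemma expect (pos : ι → ℤ) (I : Finset ℕ) (hI : ∀ p ∈ I, p.Prime) {L : ℝ} (hL : 1 ≤ L) (m : ℕ)
    (h : List (ℕ × ι)) (hl : h.length = 2 * m) (hh : ∀ s ∈ h, s.1 ∈ I) :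
    |∑ x ∈ range (pv I), cp pos x h| ≤ (pv I : ℝ) * L ^ m * Ph' pos L h := by
  have h0 := Ph'_nonneg pos (zero_le_one.trans hL) h
  simp only [cp_eq pos _ I h hh]
  rw [sum_prod_crt I hI (fun p x => ap pos p x h) (fun p x => ap_mod pos p x h)]
  by_cases hc : ∃ p ∈ I, (h.map Prod.fst).count p = 1
  · obtain ⟨p, hp, hc⟩ := hc
    rw [prod_eq_zero hp (sum_ap_zero pos (hI p hp).ne_zero h hc), abs_zero]
    positivity
  · have h1 : (h.map Prod.fst).toFinset.card ≤ m := by
      have h2 := List.sum_toFinset_count_eq_length (h.map Prod.fst)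
      rw [List.length_map, hl] at h2
      have h3 : (h.map Prod.fst).toFinset.card • 2 ≤
          ∑ a ∈ (h.map Prod.fst).toFinset, (h.map Prod.fst).count a := by
        refine card_nsmul_le_sum _ _ _ fun a ha => ?_
        have h4 := List.mem_toFinset.1 ha
        have h5 := List.count_pos_iff.2 h4
        obtain ⟨s, hs, rfl⟩ := List.mem_map.1 h4
        have h6 : (h.map Prod.fst).count s.1 ≠ 1 := fun e => hc ⟨_, hh s hs, e⟩
        omega
      rw [smul_eq_mul] at h3
      omega
    calc |∏ p ∈ I, ∑ r ∈ range p, ap pos p r h| = ∏ p ∈ I, |∑ r ∈ range p, ap pos p r h| :=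
          abs_prod _ _
      _ ≤ ∏ p ∈ I, ((p : ℝ) * Pp pos p h) :=
          prod_le_prod (fun _ _ => abs_nonneg _) fun p hp =>
            (abs_sum_le_sum_abs _ _).trans (single pos (hI p hp).ne_zero h).2
      _ = (pv I : ℝ) * (L ^ (h.map Prod.fst).toFinset.card * Ph' pos L h) := by
          rw [prod_mul_distrib, ← Ph_eq pos I h hh, Ph_eq_pow pos (by linarith : L ≠ 0)]
          simp [pv]
      _ ≤ (pv I : ℝ) * (L ^ m * Ph' pos L h) := by gcongr
      _ = _ := by ring

end Pool.Agent.P.MP_a14ce1_nt.Ch.Trace
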